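import Pool.Agent.Helper873_Hecke.Stmts

set_option autoImplicit false

/-!
# Base change of the Hecke algebra, and the case `z = 0`
-/

namespace Pool.Agent.H873

open Equiv Hk

/-- induction over linear combinations of the basis elements -/
theorem BaseChange_ind {R : Type*} [CommRing R] {z : R} {P : Hk R z → Prop}
    (hT : ∀ w, P (T w)) (hadd : ∀ x y, P x → P y → P (x + y))
    (hsmul : ∀ (r : R) x, P x → P (r • x)) (x : Hk R z) : P x := by
  have h0 : P 0 := by
    have := hsmul 0 _ (hT 1)
    rwa [zero_smul] at this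
  have hx := (basis : Module.Basis G R (Hk R z)).linearCombination_repr x
  rw [← hx, Finsupp.linearCombination_apply]
  unfold Finsupp.sum
  apply Finset.sum_induction _ P hadd h0
  intro w _
  exact hsmul _ _ (hT w)

/-- base change as an additive map -/
noncomputable def BaseChange_add {R R' : Type*} [CommRing R] [CommRing R'] (φ : R →+* R')
    (z : R) (z' : R') : Hk R z →+ Hk R' z' :=
  ((basis : Module.Basis G R' (Hk R' z')).repr.symm.toLinearMap.toAddMonoidHom).comp
    ((Finsupp.mapRange.addMonoidHom (ι := G) (φ : R →+ R')).comp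
      ((basis : Module.Basis G R (Hk R z)).repr.toLinearMap.toAddMonoidHom))

theorem BaseChange_repr {R R' : Type*} [CommRing R] [CommRing R'] (φ : R →+* R')
    (z : R) (z' : R') (x : Hk R z) :
    (basis : Module.Basis G R' (Hk R' z')).repr (BaseChange_add φ z z' x) =
      Finsupp.mapRange φ (map_zero φ) ((basis : Module.Basis G R (Hk R z)).repr x) := by
  change (basis : Module.Basis G R' (Hk R' z')).repr
    ((basis : Module.Basis G R' (Hk R' z')).repr.symm
      (Finsupp.mapRange φ (map_zero φ) ((basis : Module.Basis G R (Hk R z)).repr x))) = _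
  rw [LinearEquiv.apply_symm_apply]

theorem BaseChange_coef {R R' : Type*} [CommRing R] [CommRing R'] (φ : R →+* R')
    (z : R) (z' : R') (w : G) (x : Hk R z) :
    coef w (BaseChange_add φ z z' x) = φ (coef w x) := by
  unfold coef
  rw [BaseChange_repr, Finsupp.mapRange_apply]

theorem BaseChange_T {R R' : Type*} [CommRing R] [CommRing R'] (φ : R →+* R')
    (z : R) (z' : R') (w : G) :
    BaseChange_add φ z z' (T w : Hk R z) = (T w : Hk R' z') := by
  classical
  refine ext_coef (fun v => ?_)
  rw [BaseChange_coef, coef_T, coef_T, apply_ite φ, map_one, map_zero]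

theorem BaseChange_smul {R R' : Type*} [CommRing R] [CommRing R'] (φ : R →+* R')
    (z : R) (z' : R') (r : R) (x : Hk R z) :
    BaseChange_add φ z z' (r • x) = φ r • BaseChange_add φ z z' x := by
  refine ext_coef (fun v => ?_)
  rw [BaseChange_coef]
  unfold coef
  rw [map_smul, map_smul, Finsupp.smul_apply, Finsupp.smul_apply, smul_eq_mul, smul_eq_mul,
    map_mul]
  exact congrArg (fun t => φ r * t) (BaseChange_coef φ z z' v x).symm

theorem BaseChange_sg {R R' : Type*} [CommRing R] [CommRing R'] (φ : R →+* R')
    (z : R) (z' : R') (hz : φ z = z') (i : ℕ) (x : Hk R z) :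
    BaseChange_add φ z z' ((sg i : Hk R z) * x) =
      (sg i : Hk R' z') * BaseChange_add φ z z' x := by
  refine BaseChange_ind (P := fun x => BaseChange_add φ z z' ((sg i : Hk R z) * x) =
      (sg i : Hk R' z') * BaseChange_add φ z z' x) ?_ ?_ ?_ x
  · intro w
    by_cases h : LA i w
    · rw [sg_mul_T_asc h, BaseChange_T, BaseChange_T, sg_mul_T_asc h]
    · rw [sg_mul_T_desc h, map_add, BaseChange_smul, BaseChange_T, BaseChange_T,
        sg_mul_T_desc h, hz]
  · intro a b ha hb
    rw [mul_add, map_add, ha, hb, map_add, mul_add]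
  · intro r a ha
    rw [mul_smul_comm, BaseChange_smul, ha, BaseChange_smul, mul_smul_comm]

theorem BaseChange_one {R R' : Type*} [CommRing R] [CommRing R'] (φ : R →+* R')
    (z : R) (z' : R') : BaseChange_add φ z z' (1 : Hk R z) = (1 : Hk R' z') := by
  rw [Hk.one_def, Hk.one_def]
  exact BaseChange_T φ z z' 1

theorem BaseChange_mul {R R' : Type*} [CommRing R] [CommRing R'] (φ : R →+* R')
    (z : R) (z' : R') (hz : φ z = z') (x y : Hk R z) :
    BaseChange_add φ z z' (x * y) = BaseChange_add φ z z' x * BaseChange_add φ z z' y := by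
  refine Hk.induction (P := fun x => BaseChange_add φ z z' (x * y) =
    BaseChange_add φ z z' x * BaseChange_add φ z z' y) ?_ ?_ ?_ ?_ x
  · rw [one_mul, BaseChange_one, one_mul]
  · intro a b ha hb
    rw [add_mul, map_add, ha, hb, map_add, add_mul]
  · intro r a ha
    rw [smul_mul_assoc, BaseChange_smul, ha, BaseChange_smul, smul_mul_assoc]
  · intro i a ha
    rw [mul_assoc, BaseChange_sg φ z z' hz, ha, BaseChange_sg φ z z' hz, mul_assoc]

theorem t_bc : S_bc := by
  intro R R' _ _ φ z z' hz
  refine ⟨{ toFun := BaseChange_add φ z z'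
            map_one' := BaseChange_one φ z z'
            map_mul' := BaseChange_mul φ z z' hz
            map_zero' := map_zero _
            map_add' := map_add _ }, ?_, ?_, ?_⟩
  · intro w
    exact BaseChange_T φ z z' w
  · intro r x
    exact BaseChange_smul φ z z' r x
  · intro w x
    exact BaseChange_coef φ z z' w x

theorem BaseChange_zero_sg {R : Type*} [CommRing R] (i : ℕ) (w : G) :
    ((sg i : Hk R 0) * (T w : Hk R 0)) = (T (s i * w) : Hk R 0) := by
  by_cases h : LA i w
  · exact sg_mul_T_asc h
  · rw [sg_mul_T_desc h, zero_smul, add_zero]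

theorem t_zero : S_zero := by
  intro R _ u v
  refine G_induction (P := fun u => ((T u : Hk R 0) * (T v : Hk R 0)) = (T (u * v) : Hk R 0))
    ?_ ?_ u
  · rw [← Hk.one_def, one_mul, one_mul]
  · intro i w hi ih
    rw [← sg_mul_T_asc hi, mul_assoc, ih, BaseChange_zero_sg, mul_assoc]

end Pool.Agent.H873
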