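import Pool.Agent.Helper873_Hecke.Stmts

set_option autoImplicit false

/-!
# Bunch crossings (S_bunch)
-/

namespace Pool.Agent.H873

open Equiv Hk

/-! ### words -/

theorem Bunch_upw_zero (a : ℕ) (e : Bool) : upw a 0 e = [] := rfl

theorem Bunch_upw_succ (a n : ℕ) (e : Bool) : upw a (n + 1) e = upw a n e ++ [(a + n, e)] := by
  unfold upw
  rw [List.range_succ, List.map_append]
  rfl

theorem Bunch_upw_succ' (a n : ℕ) (e : Bool) : upw a (n + 1) e = (a, e) :: upw (a + 1) n e := by
  induction n with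
  | zero => rfl
  | succ n ih =>
    rw [Bunch_upw_succ, ih, Bunch_upw_succ, List.cons_append]
    congr 3
    simp only [Prod.mk.injEq, and_true]
    omega

theorem Bunch_dnw_zero (a : ℕ) (e : Bool) : dnw a 0 e = [] := rfl

theorem Bunch_dnw_succ (a n : ℕ) (e : Bool) : dnw a (n + 1) e = (a + n, e) :: dnw a n e := by
  unfold dnw
  rw [Bunch_upw_succ, List.reverse_append]
  rfl

theorem Bunch_dnw_succ' (a n : ℕ) (e : Bool) : dnw a (n + 1) e = dnw (a + 1) n e ++ [(a, e)] := by
  unfold dnw
  rw [Bunch_upw_succ', List.reverse_cons]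

theorem Bunch_xw_zero (e : Bool) (k r : ℕ) : xw e k 0 r = [] := rfl

theorem Bunch_xw_succ (e : Bool) (k s r : ℕ) :
    xw e k (s + 1) r = xw e k s r ++ dnw (k + s) r e := by
  unfold xw
  rw [List.range_succ, List.flatMap_append, List.flatMap_singleton]

theorem Bunch_xw_zero' (e : Bool) (k s : ℕ) : xw e k s 0 = [] := by
  induction s with
  | zero => rfl
  | succ s ih => rw [Bunch_xw_succ, ih, Bunch_dnw_zero]; rfl

theorem Bunch_mem_upw {a n : ℕ} {e : Bool} {l : ℕ × Bool} (h : l ∈ upw a n e) :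
    a ≤ l.1 ∧ l.1 < a + n := by
  unfold upw at h
  obtain ⟨i, hi, rfl⟩ := List.mem_map.1 h
  have := List.mem_range.1 hi
  exact ⟨Nat.le_add_right _ _, by dsimp only; omega⟩

theorem Bunch_mem_dnw {a n : ℕ} {e : Bool} {l : ℕ × Bool} (h : l ∈ dnw a n e) :
    a ≤ l.1 ∧ l.1 < a + n := by
  unfold dnw at h
  exact Bunch_mem_upw (List.mem_reverse.1 h)

theorem Bunch_mem_xw {e : Bool} {k s r : ℕ} {l : ℕ × Bool} (h : l ∈ xw e k s r) :
    k ≤ l.1 ∧ l.1 + 1 < k + s + r := by
  unfold xw at h
  obtain ⟨i, hi, hl⟩ := List.mem_flatMap.1 h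
  have h1 := List.mem_range.1 hi
  have h2 := Bunch_mem_dnw hl
  omega

theorem Bunch_map_upw (a n k : ℕ) (e : Bool) :
    (upw a n e).map (fun l => (l.1 + k, l.2)) = upw (a + k) n e := by
  induction n with
  | zero => rfl
  | succ n ih =>
    rw [Bunch_upw_succ, Bunch_upw_succ, List.map_append, ih]
    congr 1
    simp only [List.map_cons, List.map_nil]
    congr 2
    omega

theorem Bunch_map_dnw (a n k : ℕ) (e : Bool) :
    (dnw a n e).map (fun l => (l.1 + k, l.2)) = dnw (a + k) n e := by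
  unfold dnw
  rw [List.map_reverse, Bunch_map_upw]

theorem Bunch_map_xw (e : Bool) (k s r : ℕ) :
    (xw e 0 s r).map (fun l => (l.1 + k, l.2)) = xw e k s r := by
  induction s with
  | zero => rfl
  | succ s ih =>
    rw [Bunch_xw_succ, Bunch_xw_succ, List.map_append, ih, Bunch_map_dnw]
    congr 2
    omega

section

variable {R : Type*} [CommRing R] {z : R}

/-! ### mixed relations -/

theorem Bunch_sg_gen {i j : ℕ} (f : Bool) (h : i + 2 ≤ j ∨ j + 2 ≤ i) :
    Commute (sg i : Hk R z) (gen f j) := by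
  have h0 : Commute (sg i : Hk R z) (sg j) := by
    rcases h with h | h
    · exact sg_comm h
    · exact (sg_comm h).symm
  cases f
  · change Commute (sg i : Hk R z) (sg j - z • 1)
    exact h0.sub_right ((Commute.one_right _).smul_right z)
  · exact h0

theorem Bunch_gen_gen {i j : ℕ} (e f : Bool) (h : i + 2 ≤ j ∨ j + 2 ≤ i) :
    Commute (gen e i : Hk R z) (gen f j) := by
  have h0 : Commute (sg i : Hk R z) (gen f j) := Bunch_sg_gen f h
  cases e
  · change Commute (sg i - z • 1 : Hk R z) (gen f j)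
    exact h0.sub_left ((Commute.one_left _).smul_left z)
  · exact h0

theorem Bunch_wd_comm (x : Hk R z) (w : BW) (h : ∀ l ∈ w, Commute x (gen l.2 l.1)) :
    Commute x (wd w) := by
  induction w with
  | nil => exact Commute.one_right x
  | cons l w ih =>
    rw [wd_cons]
    exact (h l List.mem_cons_self).mul_right (ih fun l' hl' => h l' (List.mem_cons_of_mem _ hl'))

theorem Bunch_sgi_braid (i : ℕ) :
    (sgi i * (sgi (i + 1) * sg i) : Hk R z) = sg (i + 1) * (sgi i * sgi (i + 1)) := by
  have hb := sg_braid (R := R) (z := z) i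
  -- multiply the braid relation by `sgi i * sgi (i+1)` on the left ...
  have h1 : (sg i * sg (i + 1) * (sg i * (sgi (i + 1) * sgi i)) : Hk R z) = sg (i + 1) * sg i * (sg (i + 1) * (sgi (i + 1) * sgi i)) := by
    calc (sg i * sg (i + 1) * (sg i * (sgi (i + 1) * sgi i)) : Hk R z)
        = (sg i * (sg (i + 1) * sg i)) * (sgi (i + 1) * sgi i) := by simp only [mul_assoc]
      _ = (sg (i + 1) * (sg i * sg (i + 1))) * (sgi (i + 1) * sgi i) := by rw [hb]
      _ = _ := by simp only [mul_assoc]
  have h2 : (sg (i + 1) * sg i * (sg (i + 1) * (sgi (i + 1) * sgi i)) : Hk R z) = sg (i + 1) := by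
    rw [← mul_assoc (sg (i + 1)) (sgi (i + 1)) (sgi i), sg_mul_sgi, one_mul, mul_assoc, sg_mul_sgi, mul_one]
  rw [h2] at h1
  -- h1 : sg i sg(i+1) sg i sgi(i+1) sgi i = sg (i+1)
  have h3 : (sg i * (sgi (i + 1) * sgi i) : Hk R z) = sgi (i + 1) * (sgi i * sg (i + 1)) := by
    calc (sg i * (sgi (i + 1) * sgi i) : Hk R z)
        = (sgi (i + 1) * (sgi i * sg i) * sg (i + 1)) * (sg i * (sgi (i + 1) * sgi i)) := by
          rw [sgi_mul_sg, mul_one, sgi_mul_sg, one_mul]
      _ = sgi (i + 1) * (sgi i * (sg i * sg (i + 1) * (sg i * (sgi (i + 1) * sgi i)))) := by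
          simp only [mul_assoc]
      _ = _ := by rw [h1]
  -- the relation wanted, by the inverse braid relation
  have h4 : (sgi i * (sgi (i + 1) * sgi i) : Hk R z) = sgi (i + 1) * (sgi i * sgi (i + 1)) := by
    calc (sgi i * (sgi (i + 1) * sgi i) : Hk R z)
        = sgi i * (sgi (i + 1) * sgi i) * ((sg (i + 1) * (sg i * sg (i + 1))) * (sgi (i + 1) * (sgi i * sgi (i + 1)))) := by
          have : ((sg (i + 1) * (sg i * sg (i + 1))) * (sgi (i + 1) * (sgi i * sgi (i + 1))) : Hk R z) = 1 := by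
            calc ((sg (i + 1) * (sg i * sg (i + 1))) * (sgi (i + 1) * (sgi i * sgi (i + 1))) : Hk R z)
                = sg (i + 1) * (sg i * (sg (i + 1) * sgi (i + 1)) * sgi i) * sgi (i + 1) := by
                  simp only [mul_assoc]
              _ = 1 := by rw [sg_mul_sgi, mul_one, sg_mul_sgi, mul_one, sg_mul_sgi]
          rw [this, mul_one]
      _ = sgi i * (sgi (i + 1) * sgi i) * ((sg i * (sg (i + 1) * sg i)) * (sgi (i + 1) * (sgi i * sgi (i + 1)))) := by
          rw [hb]
      _ = sgi i * (sgi (i + 1) * (sgi i * sg i) * sg (i + 1)) * sg i * (sgi (i + 1) * (sgi i * sgi (i + 1))) := by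
          simp only [mul_assoc]
      _ = sgi (i + 1) * (sgi i * sgi (i + 1)) := by
          rw [sgi_mul_sg, mul_one, sgi_mul_sg, mul_one, sgi_mul_sg, one_mul]
  calc (sgi i * (sgi (i + 1) * sg i) : Hk R z)
      = (sg (i + 1) * sgi (i + 1)) * (sgi i * (sgi (i + 1) * sg i)) := by
        rw [sg_mul_sgi, one_mul]
    _ = sg (i + 1) * ((sgi (i + 1) * (sgi i * sgi (i + 1))) * sg i) := by simp only [mul_assoc]
    _ = sg (i + 1) * ((sgi i * (sgi (i + 1) * sgi i)) * sg i) := by rw [h4]
    _ = sg (i + 1) * (sgi i * (sgi (i + 1) * (sgi i * sg i))) := by simp only [mul_assoc]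
    _ = _ := by rw [sgi_mul_sg, mul_one]

theorem Bunch_sgi_braid' (i : ℕ) :
    (sgi (i + 1) * (sgi i * sg (i + 1)) : Hk R z) = sg i * (sgi (i + 1) * sgi i) := by
  have h := Bunch_sgi_braid (R := R) (z := z) i
  have hb := sg_braid (R := R) (z := z) i
  -- sgi(i+1) sgi i sg(i+1) = sgi (i+1) sgi i (sg(i+1) sg i sg (i+1)) sgi(i+1) sgi i
  calc (sgi (i + 1) * (sgi i * sg (i + 1)) : Hk R z)
      = sgi (i + 1) * (sgi i * (sg (i + 1) * (sg i * (sg (i + 1) * sgi (i + 1)) * sgi i))) := by
        rw [sg_mul_sgi, mul_one, sg_mul_sgi, mul_one]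
    _ = sgi (i + 1) * (sgi i * ((sg (i + 1) * (sg i * sg (i + 1))) * (sgi (i + 1) * sgi i))) := by
        simp only [mul_assoc]
    _ = sgi (i + 1) * (sgi i * ((sg i * (sg (i + 1) * sg i)) * (sgi (i + 1) * sgi i))) := by
        rw [hb]
    _ = sgi (i + 1) * ((sgi i * sg i) * sg (i + 1)) * (sg i * (sgi (i + 1) * sgi i)) := by
        simp only [mul_assoc]
    _ = _ := by rw [sgi_mul_sg, one_mul, sgi_mul_sg, one_mul]

theorem Bunch_up (e : Bool) (i : ℕ) :
    (gen e i * (gen e (i + 1) * sg i) : Hk R z) = sg (i + 1) * (gen e i * gen e (i + 1)) := by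
  cases e
  · exact Bunch_sgi_braid i
  · exact sg_braid i

theorem Bunch_dn (e : Bool) (i : ℕ) :
    (gen e (i + 1) * (gen e i * sg (i + 1)) : Hk R z) = sg i * (gen e (i + 1) * gen e i) := by
  cases e
  · exact Bunch_sgi_braid' i
  · exact (sg_braid i).symm

/-! ### moving a generator through one strand -/

theorem Bunch_Y (e : Bool) (k r j : ℕ) (h1 : k ≤ j) (h2 : j + 1 < k + r) :
    (wd (dnw k r e) * sg (j + 1) : Hk R z) = sg j * wd (dnw k r e) := by
  induction r with
  | zero => omega
  | succ r ih =>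
    rw [Bunch_dnw_succ, wd_cons]
    by_cases h : j + 1 < k + r
    · rw [mul_assoc, ih h, ← mul_assoc, ← mul_assoc]
      congr 1
      exact (Bunch_sg_gen e (Or.inl (by omega))).symm
    · obtain ⟨r', rfl⟩ : ∃ r', r = r' + 1 := ⟨r - 1, by omega⟩
      have hj : j = k + r' := by omega
      subst hj
      rw [Bunch_dnw_succ, wd_cons]
      have hc : Commute (sg (k + r' + 1) : Hk R z) (wd (dnw k r' e)) := by
        apply Bunch_wd_comm
        intro l hl
        have := Bunch_mem_dnw hl
        exact Bunch_sg_gen l.2 (Or.inr (by omega))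
      have hd := Bunch_dn (R := R) (z := z) e (k + r')
      calc (gen e (k + (r' + 1)) * (gen e (k + r') * wd (dnw k r' e)) * sg (k + r' + 1) : Hk R z)
          = gen e (k + r' + 1) * (gen e (k + r') * (wd (dnw k r' e) * sg (k + r' + 1))) := by
            simp only [mul_assoc, add_assoc]
        _ = gen e (k + r' + 1) * (gen e (k + r') * (sg (k + r' + 1) * wd (dnw k r' e))) := by
            rw [hc.eq]
        _ = (gen e (k + r' + 1) * (gen e (k + r') * sg (k + r' + 1))) * wd (dnw k r' e) := by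
            simp only [mul_assoc]
        _ = (sg (k + r') * (gen e (k + r' + 1) * gen e (k + r'))) * wd (dnw k r' e) := by rw [hd]
        _ = _ := by simp only [mul_assoc, add_assoc]

theorem Bunch_Z (e : Bool) (k s j : ℕ) (h1 : k ≤ j) (h2 : j + 1 < k + s) :
    (wd (upw k s e) * sg j : Hk R z) = sg (j + 1) * wd (upw k s e) := by
  induction s with
  | zero => omega
  | succ s ih =>
    rw [Bunch_upw_succ, wd_append, wd_cons, wd_nil, mul_one]
    by_cases h : j + 1 < k + s
    · have hc : (gen e (k + s) * sg j : Hk R z) = sg j * gen e (k + s) :=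
        (Bunch_sg_gen e (Or.inl (by omega))).symm
      dsimp only
      rw [mul_assoc, hc, ← mul_assoc, ih h, mul_assoc]
    · obtain ⟨s', rfl⟩ : ∃ s', s = s' + 1 := ⟨s - 1, by omega⟩
      have hj : j = k + s' := by omega
      subst hj
      rw [Bunch_upw_succ, wd_append, wd_cons, wd_nil, mul_one]
      have hc : Commute (sg (k + s' + 1) : Hk R z) (wd (upw k s' e)) := by
        apply Bunch_wd_comm
        intro l hl
        have := Bunch_mem_upw hl
        exact Bunch_sg_gen l.2 (Or.inr (by omega))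
      have hu := Bunch_up (R := R) (z := z) e (k + s')
      calc (wd (upw k s' e) * gen e (k + s') * gen e (k + (s' + 1)) * sg (k + s') : Hk R z)
          = wd (upw k s' e) * (gen e (k + s') * (gen e (k + s' + 1) * sg (k + s'))) := by
            simp only [mul_assoc, add_assoc]
        _ = wd (upw k s' e) * (sg (k + s' + 1) * (gen e (k + s') * gen e (k + s' + 1))) := by
            rw [hu]
        _ = (wd (upw k s' e) * sg (k + s' + 1)) * (gen e (k + s') * gen e (k + s' + 1)) := by
            simp only [mul_assoc]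
        _ = (sg (k + s' + 1) * wd (upw k s' e)) * (gen e (k + s') * gen e (k + s' + 1)) := by
            rw [hc.eq]
        _ = _ := by simp only [mul_assoc, add_assoc]

/-! ### second description -/

theorem Bunch_B (e : Bool) (k s r : ℕ) :
    (wd (xw e k s (r + 1)) : Hk R z) = wd (upw (k + r) s e) * wd (xw e k s r) := by
  induction s with
  | zero => rw [Bunch_xw_zero, Bunch_xw_zero, Bunch_upw_zero, wd_nil, mul_one]
  | succ s ih =>
    rw [Bunch_xw_succ, Bunch_xw_succ, wd_append, wd_append, ih, Bunch_dnw_succ, wd_cons,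
      Bunch_upw_succ, wd_append, wd_cons, wd_nil, mul_one]
    have hc : Commute (gen e (k + s + r) : Hk R z) (wd (xw e k s r)) := by
      apply Bunch_wd_comm
      intro l hl
      have := Bunch_mem_xw hl
      exact Bunch_gen_gen e l.2 (Or.inr (by omega))
    have he : k + r + s = k + s + r := by omega
    dsimp only
    rw [he]
    calc (wd (upw (k + r) s e) * wd (xw e k s r) * (gen e (k + s + r) * wd (dnw (k + s) r e)) : Hk R z)
        = wd (upw (k + r) s e) * (wd (xw e k s r) * gen e (k + s + r)) * wd (dnw (k + s) r e) := by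
          simp only [mul_assoc]
      _ = wd (upw (k + r) s e) * (gen e (k + s + r) * wd (xw e k s r)) * wd (dnw (k + s) r e) := by
          rw [hc.eq]
      _ = _ := by simp only [mul_assoc]

theorem Bunch_1 (e : Bool) (k s r i : ℕ) (h : i + 1 < s) :
    (wd (xw e k s r) * sg (i + k) : Hk R z) = sg (i + (k + r)) * wd (xw e k s r) := by
  induction r with
  | zero => rw [Bunch_xw_zero', wd_nil, mul_one, one_mul]; rfl
  | succ r ih =>
    rw [Bunch_B, mul_assoc, ih, ← mul_assoc, Bunch_Z e (k + r) s (i + (k + r)) (by omega) (by omega),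
      mul_assoc]
    congr 2

theorem Bunch_2 (e : Bool) (k s r j : ℕ) (h : j + 1 < r) :
    (wd (xw e k s r) * sg (j + (k + s)) : Hk R z) = sg (j + k) * wd (xw e k s r) := by
  induction s with
  | zero => rw [Bunch_xw_zero, wd_nil, mul_one, one_mul]; rfl
  | succ s ih =>
    rw [Bunch_xw_succ, wd_append, mul_assoc]
    have hY := Bunch_Y (R := R) (z := z) e (k + s) r (j + (k + s)) (by omega) (by omega)
    have he : j + (k + (s + 1)) = j + (k + s) + 1 := by omega
    rw [he, hY, ← mul_assoc, ih, mul_assoc]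

theorem Bunch_lift (X : Hk R z) (a b n : ℕ)
    (h : ∀ i, i + 1 < n → (X * sg (i + a) : Hk R z) = sg (i + b) * X) :
    ∀ x ∈ (Hs n : Subalgebra R (Hk R z)), X * sh a x = sh b x * X := by
  intro x hx
  refine Hs_induction (P := fun x => X * sh a x = sh b x * X) ?_ ?_ ?_ ?_ hx
  · rw [map_one, map_one, mul_one, one_mul]
  · intro x _ y _ hx hy
    rw [map_add, map_add, mul_add, add_mul, hx, hy]
  · intro r x _ hx
    rw [map_smul, map_smul, mul_smul_comm, smul_mul_assoc, hx]
  · intro i hi x _ hx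
    rw [map_mul, map_mul, sh_sg, sh_sg, ← mul_assoc, h i hi, mul_assoc, hx, mul_assoc]

theorem Bunch_dnw_upw (a n : ℕ) (e : Bool) :
    (wd (dnw a n e) * wd (upw a n (!e)) : Hk R z) = 1 := by
  induction n generalizing a with
  | zero => rw [Bunch_dnw_zero, Bunch_upw_zero, wd_nil, mul_one]
  | succ n ih =>
    rw [Bunch_dnw_succ', Bunch_upw_succ', wd_append, wd_cons, wd_cons, wd_nil, mul_one]
    calc (wd (dnw (a + 1) n e) * gen e a * (gen (!e) a * wd (upw (a + 1) n (!e))) : Hk R z)
        = wd (dnw (a + 1) n e) * (gen e a * gen (!e) a) * wd (upw (a + 1) n (!e)) := by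
          simp only [mul_assoc]
      _ = 1 := by rw [gen_mul_gen_not, mul_one, ih]

theorem Bunch_3 (e : Bool) (k s r : ℕ) :
    (wd (xw e k s r) * wd (xw (!e) k r s) : Hk R z) = 1 := by
  induction s with
  | zero => rw [Bunch_xw_zero, Bunch_xw_zero', wd_nil, mul_one]
  | succ s ih =>
    rw [Bunch_xw_succ, wd_append, Bunch_B]
    calc (wd (xw e k s r) * wd (dnw (k + s) r e) * (wd (upw (k + s) r (!e)) * wd (xw (!e) k r s)) : Hk R z)
        = wd (xw e k s r) * (wd (dnw (k + s) r e) * wd (upw (k + s) r (!e))) * wd (xw (!e) k r s) := by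
          simp only [mul_assoc]
      _ = 1 := by rw [Bunch_dnw_upw, mul_one, ih]

theorem Bunch_4 (e : Bool) (k s r1 r2 : ℕ) :
    (wd (xw e k s (r1 + r2)) : Hk R z) = wd (xw e (k + r1) s r2) * wd (xw e k s r1) := by
  induction r2 with
  | zero => rw [Bunch_xw_zero', wd_nil, one_mul, add_zero]
  | succ r2 ih =>
    rw [← add_assoc, Bunch_B, ih, Bunch_B, add_assoc k r1 r2, mul_assoc]

theorem Bunch_7 (e : Bool) (k s r : ℕ) :
    (wd (xw e k s r) : Hk R z) = sh k (wd (xw e 0 s r)) := by
  rw [sh_wd, Bunch_map_xw]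

theorem Bunch_5 (e : Bool) (k r : ℕ) :
    (wd (xw e k r r) * wd (xw e (k + r) r r) * wd (xw e k r r) : Hk R z) =
      wd (xw e (k + r) r r) * wd (xw e k r r) * wd (xw e (k + r) r r) := by
  have hmem : (wd (xw e 0 r r) : Hk R z) ∈ (Hs (r + r) : Subalgebra R (Hk R z)) := by
    apply wd_mem_Hs
    intro l hl
    have := Bunch_mem_xw hl
    omega
  have h2 := Bunch_lift (wd (xw e k r (r + r)) : Hk R z) (k + r) k (r + r)
    (fun j hj => Bunch_2 e k r (r + r) j hj) _ hmem
  rw [← Bunch_7, ← Bunch_7, Bunch_4] at h2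
  rw [h2, mul_assoc]

end

theorem t_bunch : S_bunch := by
  intro R _ z e k s r
  refine ⟨?_, ?_, Bunch_3 e k s r, fun r1 r2 => Bunch_4 e k s r1 r2, Bunch_5 e k r,
    fun l hl => Bunch_mem_xw hl, Bunch_7 e k s r⟩
  · exact Bunch_lift _ k (k + r) s (fun i hi => Bunch_1 e k s r i hi)
  · exact Bunch_lift _ (k + s) k r (fun j hj => Bunch_2 e k s r j hj)

end Pool.Agent.H873
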