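import Pool.Agent.Helper873_Hecke.Stmts

set_option autoImplicit false

namespace Pool.Agent.H873

open Equiv Hk

section C12

variable {R : Type} [CommRing R] {z : R}

theorem C12_proj_comm (S S' : Set G) (x : Hk R z) : proj S (proj S' x) = proj S' (proj S x) := by
  have : (proj S : Hk R z →ₗ[R] Hk R z) ∘ₗ proj S' = proj S' ∘ₗ proj S := by
    refine hext (fun w => ?_)
    change proj S (proj S' (T w : Hk R z)) = proj S' (proj S (T w : Hk R z))
    by_cases h1 : w ∈ S <;> by_cases h2 : w ∈ S'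
    · rw [proj_T_of_mem h2, proj_T_of_mem h1, proj_T_of_mem h2]
    · rw [proj_T_of_notMem h2, map_zero, proj_T_of_mem h1, proj_T_of_notMem h2]
    · rw [proj_T_of_mem h2, proj_T_of_notMem h1, map_zero]
    · rw [proj_T_of_notMem h2, map_zero, proj_T_of_notMem h1, map_zero]
  exact congrArg (fun f => f x) this

theorem C12_proj_mem {n : ℕ} (S : Set G) {x : Hk R z} (hx : x ∈ Hs n) :
    proj S x ∈ (Hs n : Subalgebra R (Hk R z)) :=
  mem_Hs_iff.2 (by rw [C12_proj_comm, mem_Hs_iff.1 hx])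

theorem C12_tau_proj (p : ℕ) (x : Hk R z) : tau (proj (SS p) x) = tau x := by
  classical
  have : tau ∘ₗ proj (SS p) = (tau : Hk R z →ₗ[R] R) := by
    refine hext (fun w => ?_)
    change tau (proj (SS p) (T w : Hk R z)) = tau (T w : Hk R z)
    by_cases h : w ∈ SS p
    · rw [proj_T_of_mem h]
    · rw [proj_T_of_notMem h, map_zero, tau_T, if_neg]
      intro h1
      exact h (h1 ▸ one_mem_SS p)
  exact congrArg (fun f => f x) this

theorem C12_proj_proj {S S' : Set G} (h : S ⊆ S') (x : Hk R z) :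
    proj S (proj S' x) = proj S x := by
  have : (proj S : Hk R z →ₗ[R] Hk R z) ∘ₗ proj S' = proj S := by
    refine hext (fun w => ?_)
    change proj S (proj S' (T w : Hk R z)) = proj S (T w : Hk R z)
    by_cases h2 : w ∈ S'
    · rw [proj_T_of_mem h2]
    · rw [proj_T_of_notMem h2, map_zero, proj_T_of_notMem (fun h3 => h2 (h h3))]
  exact congrArg (fun f => f x) this

theorem C12_proj_mul {S : Set G} {p : ℕ} (h : ∀ i, i + 1 < p → ∀ w, w * s i ∈ S ↔ w ∈ S)
    {a : Hk R z} (ha : a ∈ Hs p) : ∀ x : Hk R z, proj S (x * a) = proj S x * a := by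
  refine Hs_induction (P := fun a => ∀ x : Hk R z, proj S (x * a) = proj S x * a) ?_ ?_ ?_ ?_ ha
  · intro x; rw [mul_one, mul_one]
  · intro a _ b _ ha hb x; rw [mul_add, map_add, ha, hb, mul_add]
  · intro r a _ ha x; rw [mul_smul_comm, map_smul, ha, mul_smul_comm]
  · intro i hi a _ ha x
    rw [← mul_assoc, ha, proj_mul_sg (h i hi), mul_assoc]

theorem C12_proj_mul_sh {S : Set G} {p k : ℕ}
    (h : ∀ i, i + 1 < p → ∀ w, w * s (i + k) ∈ S ↔ w ∈ S)
    {a : Hk R z} (ha : a ∈ Hs p) : ∀ x : Hk R z, proj S (x * sh k a) = proj S x * sh k a := by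
  refine Hs_induction (P := fun a => ∀ x : Hk R z, proj S (x * sh k a) = proj S x * sh k a)
    ?_ ?_ ?_ ?_ ha
  · intro x; rw [map_one, mul_one, mul_one]
  · intro a _ b _ ha hb x; rw [map_add, mul_add, map_add, ha, hb, mul_add]
  · intro r a _ ha x; rw [map_smul, mul_smul_comm, map_smul, ha, mul_smul_comm]
  · intro i hi a _ ha x
    rw [map_mul (sh k : Hk R z →ₐ[R] Hk R z), sh_sg, ← mul_assoc, ha, proj_mul_sg (h i hi),
      mul_assoc]

theorem C12_mul_proj {S : Set G} {p : ℕ} (h : ∀ i, i + 1 < p → ∀ w, s i * w ∈ S ↔ w ∈ S)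
    {a : Hk R z} (ha : a ∈ Hs p) : ∀ x : Hk R z, proj S (a * x) = a * proj S x := by
  refine Hs_induction (P := fun a => ∀ x : Hk R z, proj S (a * x) = a * proj S x) ?_ ?_ ?_ ?_ ha
  · intro x; rw [one_mul, one_mul]
  · intro a _ b _ ha hb x; rw [add_mul, map_add, ha, hb, add_mul]
  · intro r a _ ha x; rw [smul_mul_assoc, map_smul, ha, smul_mul_assoc]
  · intro i hi a _ ha x
    rw [mul_assoc, proj_sg_mul (h i hi), ha, mul_assoc]

/-- the set of the projection in `Nop` -/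
def C12_S (p : ℕ) : Set G := {w : G | w⁻¹.1 p < p}

theorem C12_S_mul (p i : ℕ) (hi : i + 1 < p) (w : G) : w * s i ∈ C12_S p ↔ w ∈ C12_S p := by
  change (w * s i)⁻¹.1 p < p ↔ w⁻¹.1 p < p
  rw [mul_inv_rev, s_inv]
  change (s i).1 (w⁻¹.1 p) < p ↔ _
  rw [s_apply]
  split_ifs <;> omega

theorem C12_S_mul_sh (p i : ℕ) (_hi : i + 1 < p) (w : G) :
    w * s (i + p) ∈ C12_S p ↔ w ∈ C12_S p := by
  change (w * s (i + p))⁻¹.1 p < p ↔ w⁻¹.1 p < p
  rw [mul_inv_rev, s_inv]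
  change (s (i + p)).1 (w⁻¹.1 p) < p ↔ _
  rw [s_apply]
  split_ifs <;> omega

theorem C12_mul_S (p i : ℕ) (hi : i + 1 < p) (w : G) : s i * w ∈ C12_S p ↔ w ∈ C12_S p := by
  change (s i * w)⁻¹.1 p < p ↔ w⁻¹.1 p < p
  rw [mul_inv_rev, s_inv]
  change w⁻¹.1 ((s i).1 p) < p ↔ _
  rw [s_apply, if_neg (by omega), if_neg (by omega)]

theorem C12_sh_mem {p : ℕ} {a : Hk R z} (ha : a ∈ Hs p) :
    sh p a ∈ (Hs (2 * p) : Subalgebra R (Hk R z)) := by
  rw [two_mul]; exact sh_mem_Hs ha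

theorem C12_Hs_mem {p : ℕ} {a : Hk R z} (ha : a ∈ Hs p) :
    a ∈ (Hs (2 * p) : Subalgebra R (Hk R z)) := Hs_mono (by omega) ha

theorem C12_mid1 {M : Type} [AddCommGroup M] [Module R M] {p : ℕ} (f : Hk R z →ₗ[R] M)
    (H1 : ∀ x ∈ (Hs (2 * p) : Subalgebra R (Hk R z)), ∀ a ∈ (Hs p : Subalgebra R (Hk R z)),
      f (x * a) = f (sh p a * x))
    {xi : Hk R z} (hx : xi ∈ Hs (2 * p)) (hI : Itw p xi) {b : Hk R z} (hb : b ∈ Hs p)
    (hT : Tr p b = 0) : f (Nop p xi * b * sh p b) = 0 := by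
  have e : ∀ g : Perm (Fin p),
      f (sh p (T (emb p g⁻¹) : Hk R z) * proj (C12_S p) (sh p (T (emb p g)) * xi) * b * sh p b) =
        f (proj (C12_S p) (xi * (T (emb p g) * b * T (emb p g⁻¹)) * sh p b)) := by
    intro g
    have m1 : (T (emb p g) : Hk R z) ∈ Hs p := T_mem_Hs (emb_mem_SS p g)
    have m2 : (T (emb p g⁻¹) : Hk R z) ∈ Hs p := T_mem_Hs (emb_mem_SS p g⁻¹)
    have m3 : proj (C12_S p) (sh p (T (emb p g)) * xi) * b * sh p b ∈
        (Hs (2 * p) : Subalgebra R (Hk R z)) :=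
      mul_mem (mul_mem (C12_proj_mem _ (mul_mem (C12_sh_mem m1) hx)) (C12_Hs_mem hb))
        (C12_sh_mem hb)
    rw [mul_assoc (sh p (T (emb p g⁻¹) : Hk R z)), mul_assoc (sh p (T (emb p g⁻¹) : Hk R z)),
      ← H1 _ m3 _ m2, ← C12_proj_mul (C12_S_mul p) hb,
      ← C12_proj_mul_sh (C12_S_mul_sh p) hb, ← C12_proj_mul (C12_S_mul p) m2, ← (hI _ m1).1]
    congr 2
    simp only [mul_assoc]
    rw [sh_commute m2 b]
  unfold Nop
  rw [Finset.sum_mul, Finset.sum_mul, map_sum]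
  change ∑ g : Perm (Fin p), f (sh p (T (emb p g⁻¹) : Hk R z) *
    proj (C12_S p) (sh p (T (emb p g)) * xi) * b * sh p b) = 0
  rw [Finset.sum_congr rfl (fun g _ => e g), ← map_sum, ← map_sum, ← Finset.sum_mul,
    ← Finset.mul_sum]
  change f (proj (C12_S p) (xi * Tr p b * sh p b)) = 0
  rw [hT, mul_zero, zero_mul, map_zero, map_zero]

theorem C12_mid2 {M : Type} [AddCommGroup M] [Module R M] {p : ℕ} (f : Hk R z →ₗ[R] M)
    (H1 : ∀ x ∈ (Hs (2 * p) : Subalgebra R (Hk R z)), ∀ a ∈ (Hs p : Subalgebra R (Hk R z)),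
      f (x * a) = f (a * x))
    (H2 : ∀ x ∈ (Hs (2 * p) : Subalgebra R (Hk R z)), ∀ a ∈ (Hs p : Subalgebra R (Hk R z)),
      f (x * sh p a) = f (sh p a * x))
    {xi : Hk R z} (hx : xi ∈ Hs (2 * p)) (hI : Itw p xi) {b : Hk R z} (hb : b ∈ Hs p)
    (hT : Tr p b = 0) : f (Nop p xi * b) = 0 := by
  have e : ∀ g : Perm (Fin p),
      f (sh p (T (emb p g⁻¹) : Hk R z) * proj (C12_S p) (sh p (T (emb p g)) * xi) * b) =
        f (proj (C12_S p) xi * (T (emb p g) * b * T (emb p g⁻¹))) := by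
    intro g
    have m1 : (T (emb p g) : Hk R z) ∈ Hs p := T_mem_Hs (emb_mem_SS p g)
    have m2 : (T (emb p g⁻¹) : Hk R z) ∈ Hs p := T_mem_Hs (emb_mem_SS p g⁻¹)
    have m3 : proj (C12_S p) (sh p (T (emb p g)) * xi) * b ∈
        (Hs (2 * p) : Subalgebra R (Hk R z)) :=
      mul_mem (C12_proj_mem _ (mul_mem (C12_sh_mem m1) hx)) (C12_Hs_mem hb)
    have m4 : proj (C12_S p) xi * (T (emb p g) * b) ∈ (Hs (2 * p) : Subalgebra R (Hk R z)) :=
      mul_mem (C12_proj_mem _ hx) (mul_mem (C12_Hs_mem m1) (C12_Hs_mem hb))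
    have e1 : proj (C12_S p) (sh p (T (emb p g)) * xi) * b * sh p (T (emb p g⁻¹)) =
        T (emb p g⁻¹) * (proj (C12_S p) xi * (T (emb p g) * b)) := by
      rw [← C12_proj_mul (C12_S_mul p) hb, ← C12_proj_mul_sh (C12_S_mul_sh p) m2,
        ← (hI _ m1).1, ← C12_proj_mul (C12_S_mul p) (mul_mem m1 hb),
        ← C12_mul_proj (C12_mul_S p) m2]
      congr 1
      rw [← mul_assoc (T (emb p g⁻¹) : Hk R z), ← (hI _ m2).2, mul_assoc xi, mul_assoc xi,
        mul_assoc xi, commute_sh (mul_mem m1 hb)]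
    rw [mul_assoc (sh p (T (emb p g⁻¹) : Hk R z)), ← H2 _ m3 _ m2, e1, ← H1 _ m4 _ m2]
    simp only [mul_assoc]
  unfold Nop
  rw [Finset.sum_mul, map_sum]
  change ∑ g : Perm (Fin p), f (sh p (T (emb p g⁻¹) : Hk R z) *
    proj (C12_S p) (sh p (T (emb p g)) * xi) * b) = 0
  rw [Finset.sum_congr rfl (fun g _ => e g), ← map_sum, ← Finset.mul_sum]
  change f (proj (C12_S p) xi * Tr p b) = 0
  rw [hT, mul_zero, map_zero]

theorem C12_itw (h1 : S_bunch) (e : Bool) (p : ℕ) : Itw p (wd (xw e 0 p p) : Hk R z) := by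
  obtain ⟨a1, a2, -⟩ := h1 R z e 0 p p
  intro a ha
  have b1 := a1 a ha
  have b2 := a2 a ha
  rw [sh_zero, Nat.zero_add] at b1 b2
  exact ⟨b1, b2⟩

theorem C12_xw_mem (h1 : S_bunch) (e : Bool) (p : ℕ) :
    (wd (xw e 0 p p) : Hk R z) ∈ (Hs (2 * p) : Subalgebra R (Hk R z)) := by
  obtain ⟨-, -, -, -, -, a6, -⟩ := h1 R z e 0 p p
  apply wd_mem_Hs
  intro l hl
  have := (a6 l hl).2
  omega

theorem C12_beta_mem (p : ℕ) : (betaE p : Hk R z) ∈ (Hs p : Subalgebra R (Hk R z)) := by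
  unfold betaE
  apply Subalgebra.sum_mem
  intro k hk
  rw [Finset.mem_range] at hk
  apply wd_mem_Hs
  intro l hl
  unfold bet upw at hl
  rw [List.mem_append, List.mem_map, List.mem_map] at hl
  rcases hl with ⟨i, hi, rfl⟩ | ⟨i, hi, rfl⟩
  · rw [List.mem_range] at hi
    change 0 + i + 1 < p
    omega
  · rw [List.mem_range] at hi
    change 0 + k + i + 1 < p
    omega

/-- the difference of the two bunch crossings -/
theorem C12_diff (h1 : S_bunch) (h4 : S_top) (h5 : S_dec) (p : ℕ) :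
    (wd (xw true 0 p p) - wd (xw false 0 p p) : Hk R z) =
      - ∑ j ∈ Finset.range p, proj (VV p j) (wd (xw false 0 p p) : Hk R z) := by
  have e1 := (h5 R z p).1 _ (C12_xw_mem h1 false p)
  rw [Finset.sum_range_succ, h4 R z p] at e1
  rw [eq_sub_of_add_eq e1.symm, neg_sub]

theorem C12_good_PU {p : ℕ} {q qi : R} (hG : Good R p q qi z) : p.Prime ∧ PU p z :=
  ⟨hG.prime, hG.unit⟩

end C12

theorem t_C1 (h1 : S_bunch) (h2 : S_Z) (h3 : S_N) (h4 : S_top) (h5 : S_dec) (h6 : S_V0) : S_C1 := by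
  intro R _ p q qi z hG M _ _ f H1 H2
  have hT : Tr p (betaE p : Hk R z) = 0 := h2 R p q qi z hG
  have hb : (betaE p : Hk R z) ∈ (Hs p : Subalgebra R (Hk R z)) := C12_beta_mem p
  have hX := C12_itw (R := R) (z := z) h1 false p
  obtain ⟨d1, d2, d3, d4⟩ := h5 R z p
  rw [C12_diff h1 h4 h5, neg_mul, neg_mul, map_neg, Finset.sum_mul, Finset.sum_mul, map_sum,
    neg_eq_zero]
  apply Finset.sum_eq_zero
  intro j hj
  rw [Finset.mem_range] at hj
  rcases Nat.eq_zero_or_pos j with rfl | hj0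
  · obtain ⟨c1, c2, c3⟩ := h6 R z p _ (d3 0 (wd (xw false 0 p p))) (d2 0 _ hX)
    rw [c3]
    generalize proj (SS p) (proj (VV p 0) (wd (xw false 0 p p) : Hk R z)) = c at c1 c2
    have e : ∀ g : Perm (Fin p),
        f (T (emb p g) * c * sh p (T (emb p g⁻¹)) * betaE p * sh p (betaE p)) =
          f ((T (emb p g⁻¹) * betaE p * T (emb p g)) * (c * betaE p)) := by
      intro g
      have m1 : (T (emb p g) : Hk R z) ∈ Hs p := T_mem_Hs (emb_mem_SS p g)
      have m2 : (T (emb p g⁻¹) : Hk R z) ∈ Hs p := T_mem_Hs (emb_mem_SS p g⁻¹)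
      rw [mul_assoc (T (emb p g) * c), sh_commute hb, ← mul_assoc (T (emb p g) * c),
        mul_assoc (T (emb p g) * c * betaE p), ← map_mul (sh p : Hk R z →ₐ[R] Hk R z),
        H2 _ (C12_Hs_mem (mul_mem (mul_mem m1 c1) hb)) _ (mul_mem m2 hb)]
      simp only [mul_assoc]
    rw [Finset.sum_mul, Finset.sum_mul, map_sum, Finset.sum_congr rfl (fun g _ => e g),
      ← Equiv.sum_comp (Equiv.inv (Perm (Fin p)))]
    simp only [Equiv.inv_apply, inv_inv]
    rw [← map_sum, ← Finset.sum_mul]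
    change f (Tr p (betaE p) * (c * betaE p)) = 0
    rw [hT, zero_mul, map_zero]
  · obtain ⟨xi, x1, x2, x3⟩ := h3 R z p j hG.prime hG.unit hj0 hj _
      (d3 j (wd (xw false 0 p p))) (d2 j _ hX)
    rw [← x3]
    exact C12_mid1 f H1 (x1 ▸ d4 j xi) x2 hb hT

theorem C12_th {R : Type} [CommRing R] {z : R} (n : ℕ) : (th 1 0 n : Hk R z) = 1 := by
  induction n using Nat.strong_induction_on with
  | _ n ih =>
    match n with
    | 0 => rfl
    | 1 => rfl
    | n + 2 =>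
      change th 1 0 (n + 1) * ((1 : R) • (1 : Hk R z) + (0 : R) • L (n + 1)) = 1
      rw [ih (n + 1) (by omega), one_smul, zero_smul, add_zero, mul_one]

theorem C12_Mk {R : Type} [CommRing R] {z : R} (n : ℕ) (x : Hk R z) : Mk 1 0 n x = tau x := by
  rw [Mk_apply, C12_th, mul_one]

theorem C12_SS_VV (p : ℕ) : SS p ⊆ VV p 0 := by
  intro w hw
  refine ⟨fun m hm => hw m (by omega), ?_⟩
  unfold jn
  rw [Finset.card_eq_zero, Finset.filter_eq_empty_iff]
  intro k _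
  rw [inv_mem_SS hw (p + k) (by omega)]
  omega

theorem t_C2 (h1 : S_bunch) (h2 : S_Z) (h3 : S_N) (h4 : S_top) (h5 : S_dec) (h6 : S_V0) (h7 : S_markov) (h8 : S_markov_beta) (h9 : S_close) (h10 : S_twist) (h11 : S_K) : S_C2 := by
  intro R _ p q qi z hG M _ _ f H1 H2
  have hp : 1 ≤ p := hG.prime.one_lt.le
  have hT : Tr p (betaE p : Hk R z) = 0 := h2 R p q qi z hG
  have hb : (betaE p : Hk R z) ∈ (Hs p : Subalgebra R (Hk R z)) := C12_beta_mem p
  have hX := C12_itw (R := R) (z := z) h1 false p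
  obtain ⟨d1, d2, d3, d4⟩ := h5 R z p
  obtain ⟨e0, he0, K1, K2, K3⟩ := h11 R p q qi z hG
  rw [C12_diff h1 h4 h5, neg_mul, map_neg, Finset.sum_mul, map_sum,
    Finset.sum_eq_single_of_mem 0 (Finset.mem_range.2 hp)]
  · obtain ⟨c1, c2, c3⟩ := h6 R z p _ (d3 0 (wd (xw false 0 p p))) (d2 0 _ hX)
    have htc : tau (proj (SS p) (proj (VV p 0) (wd (xw false 0 p p) : Hk R z)) * betaE p) =
        (-z) ^ p * ((-1 : R) ^ (p - 1) * (-z) ^ (p - 1)) := by
      have hS : ∀ i, i + 1 < p → ∀ w, w * s i ∈ SS p ↔ w ∈ SS p :=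
        fun i hi w => mul_s_mem_SS hi w
      have a1 : tau (betaE p : Hk R z) = (-z) ^ (p - 1) := by
        have := (h8 R z 1 0 p hp).1
        rw [C12_Mk, Finset.sum_eq_single_of_mem 0 (Finset.mem_range.2 hp)] at this
        · rw [this, pow_zero, one_mul, mul_one, zero_sub, Nat.sub_zero]
        · intro k _ hk
          rw [zero_pow hk, zero_mul]
      have a2 := h9 R z 1 0 false p p le_rfl 1 (one_mem _) (betaE p) hb
      rw [C12_Mk, C12_Mk, one_mul, one_mul, Nat.sub_self] at a2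
      have a3 := K2 R tau (isTrace_tau p) false
      rw [C12_proj_proj (C12_SS_VV p), ← C12_proj_mul hS hb, C12_tau_proj, a2, a3, a1]
      change ((0 : R) - z * 1) ^ p * ((-1 : R) ^ (p - 1) * (-z) ^ (p - 1)) = _
      rw [mul_one, zero_sub]
    have hK := (K3 M f H1 H2 _ c1 c2).1
    have hK2 := (K3 M f H1 H2 _ c1 c2).2
    have hbt : tau (betaE p : Hk R z) = (-z) ^ (p - 1) := by
      have := (h8 R z 1 0 p hp).1
      rw [C12_Mk, Finset.sum_eq_single_of_mem 0 (Finset.mem_range.2 hp)] at this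
      · rw [this, pow_zero, one_mul, mul_one, zero_sub, Nat.sub_zero]
      · intro k _ hk
        rw [zero_pow hk, zero_mul]
    rw [htc] at hK
    rw [hK2, hbt, c3]
    generalize proj (SS p) (proj (VV p 0) (wd (xw false 0 p p) : Hk R z)) = c at c1 c2 hK
    rw [Finset.sum_mul, map_sum]
    have e : ∀ g : Perm (Fin p),
        f (T (emb p g) * c * sh p (T (emb p g⁻¹)) * betaE p) =
          f (T (emb p g) * c * betaE p * sh p (T (emb p g⁻¹))) := by
      intro g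
      rw [mul_assoc (T (emb p g) * c), sh_commute hb, ← mul_assoc (T (emb p g) * c)]
    rw [Finset.sum_congr rfl (fun g _ => e g), hK, smul_smul, ← neg_smul]
    congr 1
    obtain ⟨m, rfl⟩ : ∃ m, p = m + 1 := ⟨p - 1, by omega⟩
    rw [Nat.add_sub_cancel, pow_succ]
    ring
  · intro j hj hj0
    rw [Finset.mem_range] at hj
    obtain ⟨xi, x1, x2, x3⟩ := h3 R z p j hG.prime hG.unit (Nat.pos_of_ne_zero hj0) hj _
      (d3 j (wd (xw false 0 p p))) (d2 j _ hX)
    rw [← x3]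
    exact C12_mid2 f H1 H2 (x1 ▸ d4 j xi) x2 hb hT

end Pool.Agent.H873
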