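import Pool.Agent.Helper873_Hecke.Stmts2

set_option autoImplicit false

namespace Pool.Agent.H873

open Equiv Hk

theorem Cab_nil (p : ℕ) : cab p [] = [] := rfl

theorem Cab_cons (p : ℕ) (l : ℕ × Bool) (w : BW) :
    cab p (l :: w) = xw l.2 (p * l.1) p p ++ cab p w := by
  unfold cab
  rw [List.flatMap_cons]

theorem Cab_append (p : ℕ) (x y : BW) : cab p (x ++ y) = cab p x ++ cab p y := by
  unfold cab
  rw [List.flatMap_append]

theorem Cab_valid_letter (h : S_bunch) (p i : ℕ) (e : Bool) :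
    Valid (p * (i + 2)) (xw e (p * i) p p) := by
  intro l hl
  have h1 := ((h ℤ 0 e (p * i) p p).2.2.2.2.2.1 l hl).2
  have h2 : p * (i + 2) = p * i + p + p := by ring
  omega

theorem Cab_valid (h : S_bunch) (p n : ℕ) (w : BW) (hw : Valid n w) : Valid (p * n) (cab p w) := by
  intro l hl
  unfold cab at hl
  obtain ⟨l', hl', hl2⟩ := List.mem_flatMap.1 hl
  have h1 := Cab_valid_letter h p l'.1 l'.2 l hl2
  have h2 := hw l' hl'
  exact lt_of_lt_of_le h1 (Nat.mul_le_mul_left p (by omega))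

section

variable {R : Type} [CommRing R] {z : R}

/-- the value of the letter `(i, e)` -/
noncomputable def CabX (p i : ℕ) (e : Bool) : Hk R z := wd (xw e (p * i) p p)

theorem Cab_wd_cons (p : ℕ) (l : ℕ × Bool) (w : BW) :
    (wd (cab p (l :: w)) : Hk R z) = CabX p l.1 l.2 * wd (cab p w) := by
  rw [Cab_cons, wd_append]
  rfl

theorem Cab_wd_app (p : ℕ) (x y : BW) :
    (wd (cab p (x ++ y)) : Hk R z) = wd (cab p x) * wd (cab p y) := by
  rw [Cab_append, wd_append]

theorem CabX_mem (h : S_bunch) (p i : ℕ) (e : Bool) :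
    (CabX p i e : Hk R z) ∈ (Hs (p * (i + 2)) : Subalgebra R (Hk R z)) :=
  wd_mem_Hs (Cab_valid_letter h p i e)

theorem CabX_sh (h : S_bunch) (p i : ℕ) (e : Bool) :
    (CabX p i e : Hk R z) = sh (p * i) (CabX p 0 e) := by
  have h1 := (h R z e (p * i) p p).2.2.2.2.2.2
  unfold CabX
  rw [h1, Nat.mul_zero]

/-- a shift by a larger multiple of `p` -/
theorem Cab_sh_ge (p i j : ℕ) (hij : i ≤ j) (x : Hk R z) :
    (sh (p * j) x : Hk R z) = sh (p * i) (sh (p * (j - i)) x) := by
  rw [sh_sh]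
  congr 2
  rw [← Nat.mul_add]
  congr 1
  omega

theorem Cab_letter (h : S_bunch) (p i : ℕ) (e : Bool) (j : ℕ) (x : Hk R z)
    (hx : x ∈ (Hs p : Subalgebra R (Hk R z))) :
    (CabX p i e * sh (p * j) x : Hk R z) = sh (p * swap i (i + 1) j) x * CabX p i e := by
  obtain ⟨h1, h2, -⟩ := h R z e (p * i) p p
  by_cases h3 : j = i
  · subst h3
    rw [swap_apply_left, Nat.mul_succ]
    exact h1 x hx
  by_cases h4 : j = i + 1
  · subst h4
    rw [swap_apply_right, Nat.mul_succ]
    exact h2 x hx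
  rw [swap_apply_of_ne_of_ne h3 h4]
  rcases Nat.lt_or_ge j i with h5 | h5
  · have h6 : (sh (p * j) x : Hk R z) ∈ (Hs (p * i) : Subalgebra R (Hk R z)) := by
      refine Hs_mono ?_ (sh_mem_Hs hx)
      have h7 : p * (j + 1) ≤ p * i := Nat.mul_le_mul_left p (by omega)
      rw [Nat.mul_succ] at h7
      omega
    rw [CabX_sh h p i e]
    exact sh_commute h6 _
  · rw [Cab_sh_ge p (i + 2) j (by omega) x]
    exact commute_sh (CabX_mem h p i e) _

theorem Cab_word (h : S_bunch) (p : ℕ) (w : BW) : ∀ j, ∀ x ∈ (Hs p : Subalgebra R (Hk R z)),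
    (wd (cab p w) * sh (p * j) x : Hk R z) = sh (p * prm w j) x * wd (cab p w) := by
  induction w with
  | nil =>
    intro j x _
    rw [Cab_nil, wd_nil, one_mul, mul_one]
    rfl
  | cons l w ih =>
    intro j x hx
    have h1 : prm (l :: w) j = swap l.1 (l.1 + 1) (prm w j) := by
      unfold prm
      rw [List.map_cons, List.prod_cons, Perm.mul_apply]
    rw [Cab_wd_cons, h1, mul_assoc, ih j x hx, ← mul_assoc, Cab_letter h p l.1 l.2 _ x hx,
      mul_assoc]

theorem Cab_far (h : S_bunch) (p i j : ℕ) (e f : Bool) (hij : i + 2 ≤ j) :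
    (CabX p i e * CabX p j f : Hk R z) = CabX p j f * CabX p i e := by
  rw [CabX_sh h p j f, Cab_sh_ge p (i + 2) j hij]
  exact commute_sh (CabX_mem h p i e) _

theorem Cab_braid (h : S_bunch) (p i : ℕ) (e : Bool) :
    (CabX p i e * CabX p (i + 1) e * CabX p i e : Hk R z) =
      CabX p (i + 1) e * CabX p i e * CabX p (i + 1) e := by
  have h1 := (h R z e (p * i) p p).2.2.2.2.1
  unfold CabX
  rw [Nat.mul_succ]
  exact h1

theorem Cab_cancel (h : S_bunch) (p i : ℕ) (e : Bool) :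
    (CabX p i e * CabX p i (!e) : Hk R z) = 1 :=
  (h R z e (p * i) p p).2.2.1

end

theorem t_cab (h : S_bunch) : S_cab := by
  refine ⟨fun p n w hw => Cab_valid h p n w hw, fun p x y => Cab_append p x y, ?_⟩
  intro R _ z p
  refine ⟨fun w => Cab_word h p w, ?_, ?_, ?_⟩
  · intro x y i j e f hij
    have h1 := Cab_far (R := R) (z := z) h p i j e f hij
    rw [Cab_wd_app, Cab_wd_app, Cab_wd_cons, Cab_wd_cons, Cab_wd_cons, Cab_wd_cons]
    congr 1
    rw [← mul_assoc, ← mul_assoc]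
    congr 1
  · intro x y i
    have h1 := Cab_braid (R := R) (z := z) h p i true
    rw [Cab_wd_app, Cab_wd_app, Cab_wd_cons, Cab_wd_cons, Cab_wd_cons, Cab_wd_cons, Cab_wd_cons,
      Cab_wd_cons]
    congr 1
    rw [← mul_assoc, ← mul_assoc, ← mul_assoc, ← mul_assoc]
    congr 1
  · intro x y i e
    have h1 := Cab_cancel (R := R) (z := z) h p i e
    rw [Cab_wd_app, Cab_wd_app, Cab_wd_cons, Cab_wd_cons]
    congr 1
    rw [← mul_assoc]
    change CabX p i e * CabX p i (!e) * _ = _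
    rw [h1, one_mul]

end Pool.Agent.H873
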