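import Pool.Agent.Helper873_Hecke.Stmts2

set_option autoImplicit false

namespace Pool.Agent.H873

open Equiv Hk

theorem CabComps_append (v w : BW) : prm (v ++ w) = prm v * prm w := by
  unfold prm; rw [List.map_append, List.prod_append]

theorem CabComps_cons (l : ℕ × Bool) (w : BW) : prm (l :: w) = swap l.1 (l.1 + 1) * prm w := by
  unfold prm; rw [List.map_cons, List.prod_cons]

theorem CabComps_nil : prm [] = 1 := rfl

theorem CabComps_single (l : ℕ × Bool) : prm [l] = swap l.1 (l.1 + 1) := by
  rw [CabComps_cons, CabComps_nil, mul_one]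

theorem CabComps_upw_succ (a n : ℕ) (e : Bool) : upw a (n + 1) e = upw a n e ++ [(a + n, e)] := by
  unfold upw; rw [List.range_succ, List.map_append]; rfl

theorem CabComps_up (a n : ℕ) (e : Bool) (x : ℕ) : prm (upw a n e) x =
    if x < a then x else if x < a + n then x + 1 else if x = a + n then a else x := by
  induction n generalizing x with
  | zero =>
    have h : upw a 0 e = [] := rfl
    rw [h, CabComps_nil, Perm.one_apply]
    split_ifs <;> omega
  | succ n ih =>
    rw [CabComps_upw_succ, CabComps_append, Perm.mul_apply, CabComps_single, ih, swap_apply_def]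
    dsimp only
    split_ifs <;> omega

theorem CabComps_reverse (w : BW) : prm w.reverse = (prm w)⁻¹ := by
  induction w with
  | nil => rw [List.reverse_nil, CabComps_nil, inv_one]
  | cons l w ih =>
    rw [List.reverse_cons, CabComps_append, ih, CabComps_single, CabComps_cons, mul_inv_rev, swap_inv]

theorem CabComps_dn (a n : ℕ) (e : Bool) (x : ℕ) : prm (dnw a n e) x =
    if x < a then x else if x = a then a + n else if x ≤ a + n then x - 1 else x := by
  unfold dnw
  rw [CabComps_reverse, Perm.inv_eq_iff_eq, CabComps_up]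
  split_ifs <;> omega

theorem CabComps_xw_succ (e : Bool) (k s r : ℕ) : xw e k (s + 1) r = xw e k s r ++ dnw (k + s) r e := by
  unfold xw; rw [List.range_succ, List.flatMap_append, List.flatMap_singleton]

theorem CabComps_x (e : Bool) (k s r x : ℕ) : prm (xw e k s r) x =
    if x < k then x else if x < k + s then x + r else if x < k + s + r then x - s else x := by
  induction s generalizing x with
  | zero =>
    have h : xw e k 0 r = [] := rfl
    rw [h, CabComps_nil, Perm.one_apply]
    split_ifs <;> omega
  | succ s ih =>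
    rw [CabComps_xw_succ, CabComps_append, Perm.mul_apply, ih, CabComps_dn]
    split_ifs <;> omega

theorem CabComps_xb (e : Bool) (i p j r : ℕ) (hr : r < p) : prm (xw e (p * i) p p) (p * j + r) =
    p * swap i (i + 1) j + r := by
  rw [CabComps_x, swap_apply_def]
  rcases lt_trichotomy j i with h | h | h
  · obtain ⟨c, rfl⟩ := Nat.exists_eq_add_of_lt h
    have : p * (j + c + 1) = p * j + p * c + p := by ring
    rw [if_pos (by omega), if_neg (by omega), if_neg (by omega)]
  · subst h
    rw [if_neg (by omega), if_pos (by omega), if_pos rfl]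
    ring
  · rw [if_neg (by nlinarith), if_neg]
    · by_cases h1 : j = i + 1
      · subst h1
        have : p * (i + 1) = p * i + p := by ring
        rw [if_pos (by omega), if_neg (by omega), if_pos rfl]
        omega
      · obtain ⟨c, rfl⟩ := Nat.exists_eq_add_of_lt h
        have : p * (i + c + 1) = p * i + p * c + p := by ring
        have hc : 1 ≤ c := by omega
        have : p ≤ p * c := by nlinarith
        rw [if_neg (by omega), if_neg (by omega), if_neg h1]
    · obtain ⟨c, rfl⟩ := Nat.exists_eq_add_of_lt h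
      have : p * (i + c + 1) = p * i + p * c + p := by ring
      omega

theorem CabComps_cab (p : ℕ) (w : BW) (j r : ℕ) (hr : r < p) :
    prm (cab p w) (p * j + r) = p * prm w j + r := by
  induction w with
  | nil => rfl
  | cons l w ih =>
    have h : cab p (l :: w) = xw l.2 (p * l.1) p p ++ cab p w := by
      unfold cab; rw [List.flatMap_cons]
    rw [h, CabComps_append, Perm.mul_apply, ih, CabComps_xb _ _ _ _ _ hr, CabComps_cons, Perm.mul_apply]

theorem CabComps_bet (o p k x : ℕ) (hk : k < p) : prm (bet o p k) x =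
    if x < o then x else if x < o + (p - 1) then x + 1 else if x = o + (p - 1) then o else x := by
  unfold bet
  rw [CabComps_append, Perm.mul_apply, CabComps_up, CabComps_up]
  split_ifs <;> omega

theorem CabComps_betb (i p k j r : ℕ) (hk : k < p) (hr : r < p) : prm (bet (p * i) p k) (p * j + r) =
    p * j + (if j = i then (r + 1) % p else r) := by
  rw [CabComps_bet _ _ _ _ hk]
  rcases lt_trichotomy j i with h | h | h
  · obtain ⟨c, rfl⟩ := Nat.exists_eq_add_of_lt h
    have : p * (j + c + 1) = p * j + p * c + p := by ring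
    rw [if_pos (by omega), if_neg (by omega)]
  · subst h
    rw [if_neg (by omega), if_pos rfl]
    by_cases h1 : r + 1 = p
    · rw [if_neg (by omega), if_pos (by omega), h1, Nat.mod_self, add_zero]
    · rw [if_pos (by omega), Nat.mod_eq_of_lt (by omega), add_assoc]
  · obtain ⟨c, rfl⟩ := Nat.exists_eq_add_of_lt h
    have : p * (i + c + 1) = p * i + p * c + p := by ring
    rw [if_neg (by omega), if_neg (by omega), if_neg (by omega), if_neg (by omega)]

theorem CabComps_ins (p : ℕ) (ks : List (ℕ × ℕ)) (hnd : (ks.map Prod.fst).Nodup)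
    (hk : ∀ x ∈ ks, x.2 < p) (j r : ℕ) (hr : r < p) : prm (insW p ks) (p * j + r) =
      p * j + (if j ∈ ks.map Prod.fst then (r + 1) % p else r) := by
  have hp : 0 < p := by omega
  induction ks with
  | nil => rfl
  | cons y ks ih =>
    have h : insW p (y :: ks) = bet (p * y.1) p y.2 ++ insW p ks := by
      unfold insW; rw [List.flatMap_cons]
    rw [List.map_cons, List.nodup_cons] at hnd
    rw [h, CabComps_append, Perm.mul_apply, ih hnd.2 (fun x hx => hk x (List.mem_cons_of_mem _ hx))]
    have hy := hk y List.mem_cons_self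
    by_cases h1 : j ∈ ks.map Prod.fst
    · have h2 : j ≠ y.1 := fun h3 => hnd.1 (h3 ▸ h1)
      have h3 : j ∈ (y :: ks).map Prod.fst := List.mem_cons_of_mem _ h1
      rw [if_pos h1, if_pos h3, CabComps_betb _ _ _ _ _ hy (Nat.mod_lt _ hp), if_neg h2]
    · rw [if_neg h1, CabComps_betb _ _ _ _ _ hy hr]
      by_cases h2 : j = y.1
      · have h3 : j ∈ (y :: ks).map Prod.fst := by rw [h2]; exact List.mem_cons_self
        rw [if_pos h2, if_pos h3]
      · rw [if_neg h2, if_neg]
        intro h3
        rcases List.mem_cons.1 h3 with h4 | h4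
        · exact h2 h4
        · exact h1 h4

theorem CabComps_Q (p : ℕ) (w : BW) (ks : List (ℕ × ℕ)) (hnd : (ks.map Prod.fst).Nodup)
    (hk : ∀ x ∈ ks, x.2 < p) (j r : ℕ) (hr : r < p) : prm (cab p w ++ insW p ks) (p * j + r) =
      p * prm w j + (if j ∈ ks.map Prod.fst then (r + 1) % p else r) := by
  have hp : 0 < p := by omega
  rw [CabComps_append, Perm.mul_apply, CabComps_ins p ks hnd hk j r hr]
  apply CabComps_cab
  split_ifs
  · exact Nat.mod_lt _ hp
  · exact hr

theorem CabComps_pow (p : ℕ) (Q σ : Perm ℕ) (js : List ℕ)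
    (hQ : ∀ j r, r < p → Q (p * j + r) = p * σ j + (if j ∈ js then (r + 1) % p else r))
    (m j r : ℕ) (hr : r < p) : (Q ^ m) (p * j + r) = p * (σ ^ m) j +
      (r + ∑ t ∈ Finset.range m, if (σ ^ t) j ∈ js then 1 else 0) % p := by
  have hp : 0 < p := by omega
  induction m with
  | zero => simp [Nat.mod_eq_of_lt hr]
  | succ m ih =>
    rw [pow_succ', Perm.mul_apply, ih, hQ _ _ (Nat.mod_lt _ hp), Finset.sum_range_succ, pow_succ',
      Perm.mul_apply]
    split_ifs with h
    · rw [Nat.mod_add_mod, add_assoc]
    · rw [add_zero]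

theorem CabComps_zpow (Q σ : Perm ℕ) (f : ℕ → ℕ) (h : ∀ x, f (Q x) = σ (f x)) (i : ℤ) (x : ℕ) :
    f ((Q ^ i) x) = (σ ^ i) (f x) := by
  have hn : ∀ (m : ℕ) (x : ℕ), f ((Q ^ m) x) = (σ ^ m) (f x) := by
    intro m
    induction m with
    | zero => intro x; rfl
    | succ m ih =>
      intro x
      rw [pow_succ', pow_succ', Perm.mul_apply, Perm.mul_apply, h, ih]
  cases i with
  | ofNat m => exact hn m x
  | negSucc m =>
    rw [zpow_negSucc, zpow_negSucc, Perm.eq_inv_iff_eq, ← hn (m + 1)]
    exact congrArg f ((Q ^ (m + 1)).apply_symm_apply x)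

theorem CabComps_lt {n : ℕ} {w : BW} (hw : Valid n w) {x : ℕ} (hx : x < n) : prm w x < n := by
  induction w with
  | nil => exact hx
  | cons l w ih =>
    have h1 := ih (fun y hy => hw y (List.mem_cons_of_mem _ hy))
    have h2 := hw l List.mem_cons_self
    rw [CabComps_cons, Perm.mul_apply, swap_apply_def]
    split_ifs <;> omega

theorem CabComps_per {n : ℕ} {w : BW} (hw : Valid n w) {x : ℕ} (hx : x < n) :
    ∃ m, 0 < m ∧ (prm w ^ m) x = x := by
  have h1 : ∀ m : ℕ, (prm w ^ m) x < n := by
    intro m
    induction m with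
    | zero => exact hx
    | succ m ih => rw [pow_succ', Perm.mul_apply]; exact CabComps_lt hw ih
  obtain ⟨a, b, hab, he⟩ := Finite.exists_ne_map_eq_of_infinite (fun m : ℕ => (⟨(prm w ^ m) x, h1 m⟩ : Fin n))
  have he2 : (prm w ^ a) x = (prm w ^ b) x := congrArg Fin.val he
  have key : ∀ a b : ℕ, a < b → (prm w ^ a) x = (prm w ^ b) x → ∃ m, 0 < m ∧ (prm w ^ m) x = x := by
    intro a b hlt he
    refine ⟨b - a, by omega, ?_⟩
    have h3 : prm w ^ b = prm w ^ a * prm w ^ (b - a) := by rw [← pow_add]; congr 1; omega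
    rw [h3, Perm.mul_apply] at he
    exact ((prm w ^ a).injective he).symm
  rcases lt_or_gt_of_ne hab with h | h
  · exact key a b h he2
  · exact key b a h he2.symm

theorem t_cabcomps (h1 : S_transv) (h2 : S_cab) : S_cabcomps := by
  intro p n w ks hp hw ht hk
  obtain ⟨hnd, hlt, hex, huniq⟩ := ht
  have hval : Valid (p * n) (cab p w ++ insW p ks) := by
    intro l hl
    rcases List.mem_append.1 hl with h | h
    · exact h2.1 p n w hw l h
    · unfold insW at h
      rw [List.mem_flatMap] at h
      obtain ⟨y, hy, h⟩ := h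
      have h3 : y.1 < n := hlt y.1 (List.mem_map_of_mem hy)
      have h4 : y.2 < p := hk y hy
      have h5 : p * y.1 + p ≤ p * n := by
        have : p * (y.1 + 1) ≤ p * n := Nat.mul_le_mul_left _ h3
        rw [mul_add, mul_one] at this
        exact this
      unfold bet upw at h
      rcases List.mem_append.1 h with h | h
      · obtain ⟨i, hi, rfl⟩ := List.mem_map.1 h
        rw [List.mem_range] at hi
        dsimp only
        omega
      · obtain ⟨i, hi, rfl⟩ := List.mem_map.1 h
        rw [List.mem_range] at hi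
        dsimp only
        omega
  refine ⟨hval, ?_⟩
  set Q := prm (cab p w ++ insW p ks) with hQdef
  set σ := prm w with hσ
  set js := ks.map Prod.fst with hjs
  have hQ : ∀ j r, r < p → Q (p * j + r) = p * σ j + (if j ∈ js then (r + 1) % p else r) :=
    fun j r hr => CabComps_Q p w ks hnd hk j r hr
  have hdiv : ∀ x, Q x / p = σ (x / p) := by
    intro x
    have h3 : p * (x / p) + x % p = x := Nat.div_add_mod x p
    have h4 := hQ (x / p) (x % p) (Nat.mod_lt _ hp)
    rw [h3] at h4
    have h5 : (if x / p ∈ js then (x % p + 1) % p else x % p) < p := by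
      split_ifs
      · exact Nat.mod_lt _ hp
      · exact Nat.mod_lt _ hp
    rw [h4, Nat.mul_add_div hp, Nat.div_eq_of_lt h5, add_zero]
  have hzdiv : ∀ (i : ℤ) x, ((Q ^ i) x) / p = (σ ^ i) (x / p) := fun i x =>
    CabComps_zpow Q σ (fun x => x / p) hdiv i x
  have hsame : ∀ x y, Q.SameCycle x y → σ.SameCycle (x / p) (y / p) := by
    rintro x y ⟨i, rfl⟩
    exact ⟨i, (hzdiv i x).symm⟩
  have hstep : ∀ j ∈ js, ∀ r < p, Q.SameCycle (p * j + r) (p * j + (r + 1) % p) := by
    intro j hj r hr
    classical
    have hper := CabComps_per hw (hlt j hj)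
    have hfs := Nat.find_spec hper
    have hfm : ∀ t < Nat.find hper, 0 < t → (σ ^ t) j ≠ j := fun t ht h0 h3 => Nat.find_min hper ht ⟨h0, h3⟩
    have hc := CabComps_pow p Q σ js hQ (Nat.find hper) j r hr
    have hsum : (∑ t ∈ Finset.range (Nat.find hper), if (σ ^ t) j ∈ js then 1 else 0) = 1 := by
      rw [Finset.sum_eq_single 0]
      · rw [pow_zero, Perm.one_apply, if_pos hj]
      · intro t ht h0
        rw [Finset.mem_range] at ht
        rw [if_neg]
        intro h3
        exact hfm t ht (Nat.pos_of_ne_zero h0) (huniq _ h3 j hj ⟨-(t : ℤ), by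
          rw [zpow_neg, zpow_natCast]
          exact (σ ^ t).symm_apply_apply j⟩)
      · intro h0
        exact absurd (Finset.mem_range.2 hfs.1) h0
    rw [hsum, hfs.2] at hc
    exact ⟨(Nat.find hper : ℤ), by rw [zpow_natCast, hc]⟩
  have hbunch : ∀ j ∈ js, ∀ r < p, Q.SameCycle (p * j + r) (p * j) := by
    intro j hj r
    induction r with
    | zero => intro _; exact Perm.SameCycle.refl _ _
    | succ r ih =>
      intro hr
      have h3 := hstep j hj r (by omega)
      rw [Nat.mod_eq_of_lt hr] at h3
      exact h3.symm.trans (ih (by omega))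
  have hT : Transv (p * n) (cab p w ++ insW p ks) (js.map (fun j => p * j)) := by
    refine ⟨?_, ?_, ?_, ?_⟩
    · exact hnd.map (fun a b h => Nat.eq_of_mul_eq_mul_left hp h)
    · intro j' hj'
      obtain ⟨j, hj, rfl⟩ := List.mem_map.1 hj'
      exact Nat.mul_lt_mul_of_pos_left (hlt j hj) hp
    · intro x hx
      have hx2 : x / p < n := Nat.div_lt_of_lt_mul hx
      obtain ⟨j, hj, i, hi⟩ := hex (x / p) hx2
      refine ⟨p * j, List.mem_map.2 ⟨j, hj, rfl⟩, ?_⟩
      have h3 := hzdiv i x
      rw [hi] at h3
      have h4 : (Q ^ i) x = p * j + (Q ^ i) x % p := by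
        rw [← h3]
        exact (Nat.div_add_mod _ _).symm
      have h5 : Q.SameCycle x (p * j + (Q ^ i) x % p) := ⟨i, h4⟩
      exact h5.trans (hbunch j hj _ (Nat.mod_lt _ hp))
    · intro a ha b hb hab
      obtain ⟨j, hj, rfl⟩ := List.mem_map.1 ha
      obtain ⟨j', hj', rfl⟩ := List.mem_map.1 hb
      have h3 := hsame _ _ hab
      rw [Nat.mul_div_cancel_left _ hp, Nat.mul_div_cancel_left _ hp] at h3
      rw [huniq j hj j' hj' h3]
  have h3 := h1.2.1 (p * n) _ _ hval hT
  rw [← h3, List.length_map, hjs, List.length_map]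

end Pool.Agent.H873
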