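import Pool.Agent.Helper873_Hecke.Stmts

set_option autoImplicit false

namespace Pool.Agent.H873

open Equiv Hk

theorem Close_mem_upw {a n : ℕ} {e : Bool} {l : ℕ × Bool} (h : l ∈ upw a n e) :
    a ≤ l.1 ∧ l.1 < a + n := by
  unfold upw at h
  rw [List.mem_map] at h
  obtain ⟨i, hi, rfl⟩ := h
  rw [List.mem_range] at hi
  exact ⟨Nat.le_add_right _ _, Nat.add_lt_add_left hi a⟩

theorem Close_mem_dnw {a n : ℕ} {e : Bool} {l : ℕ × Bool} (h : l ∈ dnw a n e) :
    a ≤ l.1 ∧ l.1 < a + n := by
  unfold dnw at h
  exact Close_mem_upw (List.mem_reverse.1 h)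

theorem Close_upw_succ (a n : ℕ) (e : Bool) : upw a (n + 1) e = upw a n e ++ [(a + n, e)] := by
  unfold upw
  rw [List.range_succ, List.map_append]
  rfl

theorem Close_dnw_succ (a n : ℕ) (e : Bool) : dnw a (n + 1) e = (a + n, e) :: dnw a n e := by
  unfold dnw
  rw [Close_upw_succ, List.reverse_append]
  rfl

theorem Close_upw_shift (a n c : ℕ) (e : Bool) :
    (upw a n e).map (fun l => (l.1 + c, l.2)) = upw (a + c) n e := by
  unfold upw
  rw [List.map_map]
  apply List.map_congr_left
  intro i _
  simp only [Function.comp]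
  rw [Nat.add_right_comm]

theorem Close_dnw_shift (a n c : ℕ) (e : Bool) :
    (dnw a n e).map (fun l => (l.1 + c, l.2)) = dnw (a + c) n e := by
  unfold dnw
  rw [List.map_reverse, Close_upw_shift]

theorem Close_xw_succ (e : Bool) (k s r : ℕ) :
    xw e k (s + 1) r = xw e k s r ++ dnw (k + s) r e := by
  unfold xw
  rw [List.range_succ, List.flatMap_append]
  simp

theorem Close_xw_one (e : Bool) (k s : ℕ) : xw e k s 1 = upw k s e := by
  induction s with
  | zero => rfl
  | succ s ih =>
    rw [Close_xw_succ, ih, Close_upw_succ, Close_dnw_succ]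
    rfl

theorem Close_aux (h1 : S_markov) (h2 : S_bunch) (R : Type) [CommRing R] (z d al : R) (e : Bool) (r : ℕ) :
    ∀ m k : ℕ, m = k + r → ∀ x ∈ (Hs m : Subalgebra R (Hk R z)), ∀ y ∈ (Hs m : Subalgebra R (Hk R z)),
      Mk d al (m + r) (x * wd (xw e k r r) * y) =
        apm z d al e ^ r * Mk d al m (x * wd (dw e k r) * y) := by
  induction r with
  | zero =>
    intro m k hm x hx y hy
    have e1 : xw e k 0 0 = [] := rfl
    have e2 : dw e k 0 = [] := rfl
    rw [e1, e2, pow_zero, one_mul, Nat.add_zero]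
  | succ r ih =>
    intro m k hm x hx y hy
    obtain ⟨h11, h12, h13, h14, h15, h16⟩ := h1 R z d al
    -- the word
    have hw : (wd (xw e k (r + 1) (r + 1)) : Hk R z) =
        wd (xw e k r (r + 1)) * (gen e (k + r + r) * wd (dnw (k + r) r e)) := by
      rw [Close_xw_succ, wd_append, Close_dnw_succ, wd_cons]
    have hX : (wd (xw e k r (r + 1)) : Hk R z) ∈ Hs (k + r + r + 1) := by
      apply wd_mem_Hs
      intro l hl
      have := ((h2 R z e k r (r + 1)).2.2.2.2.2.1 l hl).2
      omega
    have hxX : x ∈ (Hs (k + r + r + 1) : Subalgebra R (Hk R z)) := Hs_mono (by omega) hx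
    have hyX : y ∈ (Hs (k + r + r + 1) : Subalgebra R (Hk R z)) := Hs_mono (by omega) hy
    have hD : (wd (dnw (k + r) r e) : Hk R z) ∈ Hs (k + r + r + 1) := by
      apply wd_mem_Hs
      intro l hl
      have := (Close_mem_dnw hl).2
      omega
    have step1 : Mk d al (m + (r + 1)) (x * wd (xw e k (r + 1) (r + 1)) * y) =
        apm z d al e * Mk d al (m + r)
          (x * (wd (xw e k r (r + 1)) * wd (dnw (k + r) r e)) * y) := by
      have h := h16 (k + r + r) e (x * wd (xw e k r (r + 1))) (mul_mem hxX hX)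
        (wd (dnw (k + r) r e) * y) (mul_mem hD hyX)
      have em1 : m + (r + 1) = k + r + r + 2 := by omega
      have em2 : m + r = k + r + r + 1 := by omega
      rw [em1, em2, hw]
      simp only [mul_assoc] at h ⊢
      exact h
    -- move the descending word
    have hb : (wd (dnw 0 r e) : Hk R z) ∈ Hs (r + 1) := by
      apply wd_mem_Hs
      intro l hl
      have := (Close_mem_dnw hl).2
      omega
    have hmove : (wd (xw e k r (r + 1)) * wd (dnw (k + r) r e) : Hk R z) =
        wd (dnw k r e) * wd (xw e k r (r + 1)) := by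
      have h := (h2 R z e k r (r + 1)).2.1 (wd (dnw 0 r e)) hb
      rw [sh_wd, sh_wd, Close_dnw_shift, Close_dnw_shift, Nat.zero_add, Nat.zero_add] at h
      exact h
    have hsplit : (wd (xw e k r (r + 1)) : Hk R z) = wd (xw e (k + 1) r r) * wd (upw k r e) := by
      have h := (h2 R z e k r (r + 1)).2.2.2.1 1 r
      rw [Close_xw_one, Nat.add_comm 1 r] at h
      exact h
    have hdn : (wd (dnw k r e) : Hk R z) ∈ Hs m := by
      apply wd_mem_Hs
      intro l hl
      have := (Close_mem_dnw hl).2
      omega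
    have hup : (wd (upw k r e) : Hk R z) ∈ Hs m := by
      apply wd_mem_Hs
      intro l hl
      have := (Close_mem_upw hl).2
      omega
    have step2 := ih m (k + 1) (by omega) (x * wd (dnw k r e)) (mul_mem hx hdn)
      (wd (upw k r e) * y) (mul_mem hup hy)
    have hdw : (wd (dw e k (r + 1)) : Hk R z) = wd (dnw k r e) * wd (dw e (k + 1) r) * wd (upw k r e) := by
      have : dw e k (r + 1) = dnw k r e ++ dw e (k + 1) r ++ upw k r e := rfl
      rw [this, wd_append, wd_append]
    rw [step1, hmove, hsplit, hdw, pow_succ']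
    simp only [mul_assoc] at step2 ⊢
    rw [step2]

theorem t_close (h1 : S_markov) (h2 : S_bunch) : S_close := by
  intro R _ z d al e m r hr x hx y hy
  exact Close_aux h1 h2 R z d al e r m (m - r) (by omega) x hx y hy

end Pool.Agent.H873
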