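import Pool.Agent.Helper873_Hecke.Stmts

set_option autoImplicit false

namespace Pool.Agent.H873

open Equiv Hk

/-! ### the permutation of `cL` -/

theorem Cyc_upw_succ (o k : ℕ) : upw o (k + 1) true = upw o k true ++ [(o + k, true)] := by
  unfold upw
  rw [List.range_succ, List.map_append]
  rfl

theorem Cyc_pw_succ (o k : ℕ) : pw (upw o (k + 1) true) = pw (upw o k true) * s (o + k) := by
  rw [Cyc_upw_succ]
  unfold pw
  rw [List.map_append, List.prod_append]
  simp

theorem Cyc_pw_zero (o : ℕ) : pw (upw o 0 true) = 1 := rfl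

theorem Cyc_pw_lt (o k j : ℕ) (h : j < o) : (pw (upw o k true)).1 j = j := by
  induction k with
  | zero => rw [Cyc_pw_zero]; rfl
  | succ k ih =>
    rw [Cyc_pw_succ]
    change (pw (upw o k true)).1 ((s (o + k)).1 j) = j
    rw [s_apply, if_neg (by omega), if_neg (by omega), ih]

theorem Cyc_pw_top (o k : ℕ) : (pw (upw o k true)).1 (o + k) = o := by
  induction k with
  | zero => rw [Cyc_pw_zero]; rfl
  | succ k ih =>
    rw [Cyc_pw_succ]
    change (pw (upw o k true)).1 ((s (o + k)).1 (o + (k + 1))) = o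
    rw [s_apply, if_neg (by omega), if_pos (by omega), ih]

theorem Cyc_wL_lt (l : List ℕ) : ∀ (o j : ℕ), j < o → (wL o l).1 j = j := by
  induction l with
  | nil => intro o j _; rfl
  | cons m l ih =>
    intro o j h
    change (pw (upw o (m - 1) true)).1 ((wL (o + m) l).1 j) = j
    rw [ih (o + m) j (by omega), Cyc_pw_lt _ _ _ h]

theorem Cyc_wL_ne (l : List ℕ) : ∀ o : ℕ, (∀ m ∈ l, 0 < m) → (∃ m ∈ l, m ≠ 1) → wL o l ≠ 1 := by
  induction l with
  | nil => rintro o _ ⟨m, hm, _⟩; simp at hm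
  | cons m l ih =>
    intro o hpos hex h1
    have hm := hpos m List.mem_cons_self
    by_cases hm1 : m = 1
    · subst hm1
      obtain ⟨m', hm', hne⟩ := hex
      rcases List.mem_cons.1 hm' with h | h
      · exact hne h
      · apply ih (o + 1) (fun x hx => hpos x (List.mem_cons_of_mem _ hx)) ⟨m', h, hne⟩
        have : wL o (1 :: l) = pw (upw o (1 - 1) true) * wL (o + 1) l := rfl
        rw [this, Nat.sub_self, Cyc_pw_zero, one_mul] at h1
        exact h1
    · have h2 : (wL o (m :: l)).1 (o + (m - 1)) = o := by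
        change (pw (upw o (m - 1) true)).1 ((wL (o + m) l).1 (o + (m - 1))) = o
        rw [Cyc_wL_lt l (o + m) _ (by omega), Cyc_pw_top]
      rw [h1] at h2
      change o + (m - 1) = o at h2
      omega

section

variable {R : Type} [CommRing R] {z : R}

theorem Cyc_cL_mem (l : List ℕ) : ∀ (o n : ℕ), o + l.sum ≤ n →
    (cL o l : Hk R z) ∈ (Hs n : Subalgebra R (Hk R z)) := by
  induction l with
  | nil => intro o n _; exact one_mem _
  | cons m l ih =>
    intro o n h
    rw [List.sum_cons] at h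
    change (wd (upw o (m - 1) true) * cL (o + m) l : Hk R z) ∈ (Hs n : Subalgebra R (Hk R z))
    refine mul_mem (wd_mem_Hs ?_) (ih _ _ (by omega))
    intro x hx
    unfold upw at hx
    obtain ⟨i, hi, rfl⟩ := List.mem_map.1 hx
    rw [List.mem_range] at hi
    change o + i + 1 < n
    omega

theorem Cyc_cL_ones (l : List ℕ) : ∀ o : ℕ, (∀ m ∈ l, m = 1) → (cL o l : Hk R z) = 1 := by
  induction l with
  | nil => intro o _; rfl
  | cons m l ih =>
    intro o h
    have hm := h m List.mem_cons_self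
    subst hm
    change (wd (upw o (1 - 1) true) * cL (o + 1) l : Hk R z) = 1
    rw [ih (o + 1) (fun x hx => h x (List.mem_cons_of_mem _ hx)), mul_one]
    rfl

theorem Cyc_cL_full (p : ℕ) : (cL 0 [p] : Hk R z) = cI (Finset.range (p - 1)) := by
  change (wd (upw 0 (p - 1) true) * 1 : Hk R z) = _
  rw [mul_one]
  unfold wd upw cI
  have : (Finset.range (p - 1)).sort (· ≤ ·) = List.range (p - 1) := by
    exact Finset.sort_range (p - 1)
  rw [this, List.map_map]
  congr 1
  apply List.map_congr_left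
  intro i _
  change gen true (0 + i) = sg i
  rw [Nat.zero_add]
  rfl

/-! ### linear algebra -/

variable {M : Type} [AddCommGroup M] [Module R M]

theorem Cyc_tr_sub {n : ℕ} {f g : Hk R z →ₗ[R] M} (hf : IsTrace n f) (hg : IsTrace n g) :
    IsTrace n (f - g) := fun x hx y hy => by
  rw [LinearMap.sub_apply, LinearMap.sub_apply, hf x hx y hy, hg x hx y hy]

theorem Cyc_tr_sum {n : ℕ} {ι : Type} (S : Finset ι) {f : ι → Hk R z →ₗ[R] M}
    (hf : ∀ i, IsTrace n (f i)) : IsTrace n (∑ i ∈ S, f i) := fun x hx y hy => by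
  rw [LinearMap.sum_apply, LinearMap.sum_apply]
  exact Finset.sum_congr rfl fun i _ => hf i x hx y hy

theorem Cyc_tr_smulRight {n : ℕ} {f : Hk R z →ₗ[R] R} (hf : IsTrace n f) (m : M) :
    IsTrace n (f.smulRight m) := fun x hx y hy => by
  rw [LinearMap.smulRight_apply, LinearMap.smulRight_apply, hf x hx y hy]

theorem Cyc_tr_Tr {n : ℕ} (y : Hk R z) : IsTrace n (tau ∘ₗ lmul y ∘ₗ (TrL n) : Hk R z →ₗ[R] R) :=
  fun a ha b _ => by
    change tau (y * Tr n (a * b)) = tau (y * Tr n (b * a))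
    rw [Tr_comm ha]

/-- the linear algebra part of the proof -/
theorem Cyc_alg (h1 : S_markov) (h2 : S_markov_cI) (h3 : S_span) (z : R) (p : ℕ) (hp : 1 ≤ p)
    {ι : Type} [Fintype ι] [DecidableEq ι] (W : ι → Hk R z)
    (hW : ∀ a, W a ∈ (Hs p : Subalgebra R (Hk R z))) (htau : ∀ a, tau (W a) = 0)
    (hdet : IsUnit (Matrix.det (fun a b : ι => tau (W a * Tr p (W b)))))
    (hv : ∀ (M : Type) [AddCommGroup M] [Module R M] (f : Hk R z →ₗ[R] M), IsTrace p f → f 1 = 0 →
      (∀ a, f (W a) = 0) → ∀ I ⊆ Finset.range (p - 1), I ≠ Finset.range (p - 1) → f (cI I) = 0)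
    (u : R) (y0 : Hk R z) (hy0 : y0 ∈ (Hs p : Subalgebra R (Hk R z)))
    (hPi : (th 0 1 p : Hk R z) = u • ((p : R) • 1 + Tr p y0)) :
    ∃ (e : Hk R z) (n : ℕ) (y b : Fin n → Hk R z), e ∈ (Hs p : Subalgebra R (Hk R z)) ∧
    (∀ i, y i ∈ (Hs p : Subalgebra R (Hk R z))) ∧ (∀ i, b i ∈ (Hs p : Subalgebra R (Hk R z))) ∧
    ∀ (M : Type) [AddCommGroup M] [Module R M] (f : Hk R z →ₗ[R] M), IsTrace p f →
      ∀ x ∈ (Hs p : Subalgebra R (Hk R z)),
        f x = tau x • f e + ∑ i, tau (y i * Tr p x) • f (b i) := by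
  classical
  set A : Matrix ι ι R := fun a b : ι => tau (W a * Tr p (W b)) with hA
  have hAsymm : ∀ a b, A a b = A b a := by
    intro a b
    change tau (W a * Tr p (W b)) = tau (W b * Tr p (W a))
    rw [← tau_Tr, tau_comm]
  set c : Hk R z := cI (Finset.range (p - 1)) with hc
  have hcI : ∀ I ⊆ Finset.range (p - 1), (cI I : Hk R z) ∈ (Hs p : Subalgebra R (Hk R z)) := by
    intro I hI
    unfold cI
    apply Subalgebra.list_prod_mem
    intro x hx
    obtain ⟨i, hi, rfl⟩ := List.mem_map.1 hx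
    rw [Finset.mem_sort] at hi
    have := Finset.mem_range.1 (hI hi)
    exact sg_mem_Hs (by omega)
  have hcm : c ∈ (Hs p : Subalgebra R (Hk R z)) := hcI _ (Finset.Subset.refl _)
  set B : ι → Hk R z := fun a => ∑ c, A⁻¹ a c • W c with hB
  have hBm : ∀ a, B a ∈ (Hs p : Subalgebra R (Hk R z)) := by
    intro a
    apply Subalgebra.sum_mem
    intro c _
    exact Subalgebra.smul_mem _ (hW c) _
  -- the projection away from the `W a`
  set e1 : Hk R z := 1 - ∑ a, tau (W a * Tr p 1) • B a with he1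
  have he1m : e1 ∈ (Hs p : Subalgebra R (Hk R z)) := by
    apply sub_mem (one_mem _)
    apply Subalgebra.sum_mem
    intro a _
    exact Subalgebra.smul_mem _ (hBm a) _
  set bc : Hk R z := c - ∑ a, tau (W a * Tr p c) • B a - tau c • e1 with hbc
  have hbcm : bc ∈ (Hs p : Subalgebra R (Hk R z)) := by
    apply sub_mem (sub_mem hcm _) (Subalgebra.smul_mem _ he1m _)
    apply Subalgebra.sum_mem
    intro a _
    exact Subalgebra.smul_mem _ (hBm a) _
  have key : ∀ (M : Type) [AddCommGroup M] [Module R M] (f : Hk R z →ₗ[R] M), IsTrace p f →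
      ∀ x ∈ (Hs p : Subalgebra R (Hk R z)),
        f x = tau x • f (e1 + (u * p) • bc) + (tau ((u • y0) * Tr p x) • f bc +
          ∑ a, tau (W a * Tr p x) • f (B a)) := by
    intro M _ _ f hf x hx
    set f1 : Hk R z →ₗ[R] M := f - ∑ a, (tau ∘ₗ lmul (W a) ∘ₗ (TrL p)).smulRight (f (B a)) with hf1
    have hf1a : ∀ x, f1 x = f x - ∑ a, tau (W a * Tr p x) • f (B a) := by
      intro x
      rw [hf1, LinearMap.sub_apply, LinearMap.sum_apply]
      rfl
    have hf1t : IsTrace p f1 :=
      Cyc_tr_sub hf (Cyc_tr_sum _ fun a => Cyc_tr_smulRight (Cyc_tr_Tr (W a)) _)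
    have hf1W : ∀ a, f1 (W a) = 0 := by
      intro a
      rw [hf1a, sub_eq_zero]
      have e2 : ∀ b, tau (W b * Tr p (W a)) • f (B b) =
          ∑ c, (A a b * A⁻¹ b c) • f (W c) := by
        intro b
        have : tau (W b * Tr p (W a)) = A a b := hAsymm b a
        rw [this, hB]
        simp only [map_sum, map_smul, Finset.smul_sum, smul_smul]
      rw [Finset.sum_congr rfl (fun b _ => e2 b), Finset.sum_comm]
      have e3 : ∀ c, ∑ b, (A a b * A⁻¹ b c) • f (W c) = (A * A⁻¹) a c • f (W c) := by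
        intro c
        rw [Matrix.mul_apply, Finset.sum_smul]
      rw [Finset.sum_congr rfl (fun c _ => e3 c), Matrix.mul_nonsing_inv A hdet]
      simp [Matrix.one_apply]
    set f2 : Hk R z →ₗ[R] M := f1 - (tau : Hk R z →ₗ[R] R).smulRight (f1 1) with hf2
    have hf2a : ∀ x, f2 x = f1 x - tau x • f1 1 := by
      intro x
      rw [hf2, LinearMap.sub_apply, LinearMap.smulRight_apply]
    have hf2t : IsTrace p f2 := Cyc_tr_sub hf1t (Cyc_tr_smulRight (isTrace_tau p) _)
    have htau1 : tau (1 : Hk R z) = 1 := by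
      have e4 : (1 : Hk R z) = T 1 := rfl
      rw [e4, tau_T, if_pos rfl]
    have hf21 : f2 1 = 0 := by rw [hf2a, htau1, one_smul, sub_self]
    have hf2W : ∀ a, f2 (W a) = 0 := by
      intro a
      rw [hf2a, hf1W, htau, zero_smul, sub_self]
    set f3 : Hk R z →ₗ[R] M := f2 - (Mk 0 1 p : Hk R z →ₗ[R] R).smulRight (f2 c) with hf3
    have hf3a : ∀ x, f3 x = f2 x - Mk 0 1 p x • f2 c := by
      intro x
      rw [hf3, LinearMap.sub_apply, LinearMap.smulRight_apply]
    have hf3t : IsTrace p f3 := Cyc_tr_sub hf2t (Cyc_tr_smulRight ((h1 R z 0 1).1 p) _)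
    have hf3c : ∀ I ⊆ Finset.range (p - 1), f3 (cI I) = 0 := by
      intro I hI
      rw [hf3a, h2 R z p hp I hI]
      split_ifs with h
      · rw [h, one_smul, sub_self]
      · rw [zero_smul, sub_zero]
        exact hv M f2 hf2t hf21 hf2W I hI h
    have h4 := h3 R z M p f3 hp hf3t hf3c x hx
    rw [hf3a, sub_eq_zero] at h4
    -- evaluate
    have hf11 : f1 1 = f e1 := by
      rw [hf1a, he1, map_sub, map_sum]
      simp only [map_smul]
    have hf1c : f2 c = f bc := by
      have e5 : f bc = f c - ∑ a, tau (W a * Tr p c) • f (B a) - tau c • f e1 := by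
        rw [hbc]
        simp only [map_sub, map_sum, map_smul]
      rw [hf2a, hf1a c, hf11, e5]
    have hMk : Mk 0 1 p x = u * (p * tau x + tau (y0 * Tr p x)) := by
      rw [Mk_apply, hPi, mul_smul_comm, map_smul, mul_add, map_add, mul_smul_comm, mul_one,
        map_smul, ← tau_Tr, tau_comm (Tr p x)]
      rfl
    have h5 : f x = f2 x + tau x • f e1 + ∑ a, tau (W a * Tr p x) • f (B a) := by
      rw [hf2a, hf1a, hf11]
      abel
    rw [h5, h4, hf1c, hMk, map_add, map_smul, smul_mul_assoc, map_smul, smul_eq_mul]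
    module
  refine ⟨e1 + (u * p) • bc, Fintype.card (Option ι),
    fun i => Option.elim ((Fintype.equivFin (Option ι)).symm i) (u • y0) W,
    fun i => Option.elim ((Fintype.equivFin (Option ι)).symm i) bc B,
    add_mem he1m (Subalgebra.smul_mem _ hbcm _), ?_, ?_, ?_⟩
  · intro i
    beta_reduce
    generalize (Fintype.equivFin (Option ι)).symm i = o
    rcases o with _ | a
    · exact Subalgebra.smul_mem _ hy0 _
    · exact hW a
  · intro i
    beta_reduce
    generalize (Fintype.equivFin (Option ι)).symm i = o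
    rcases o with _ | a
    · exact hbcm
    · exact hBm a
  · intro M _ _ f hf x hx
    rw [key M f hf x hx]
    congr 1
    rw [Equiv.sum_comp (Fintype.equivFin (Option ι)).symm
      (fun o : Option ι => tau (Option.elim o (u • y0) W * Tr p x) • f (Option.elim o bc B)),
      Fintype.sum_option]
    rfl

end

theorem t_Cyc (h1 : S_markov) (h2 : S_markov_cI) (h3 : S_span) (h4 : S_pi) (h5 : S_cL) (h6 : S_mat) : S_Cyc := by
  classical
  intro R _ z p hp hPU hz
  obtain ⟨y0, hy0, hPi⟩ := h4 R z p hp hPU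
  obtain ⟨u, hu⟩ : ∃ u : R, u * (-z) ^ (p - 1) = 1 := by
    obtain ⟨v, hv⟩ := (hz.neg.pow (p - 1)).exists_left_inv
    exact ⟨v, hv⟩
  obtain ⟨hc1, hc2, hc3⟩ := h5 R z
  have hpos : ∀ a : {l : Nat.Partition p // l.parts ≠ {p} ∧ ∃ m ∈ l.parts, m ≠ 1},
      ∀ m ∈ a.1.parts.sort (· ≤ ·), 0 < m := by
    intro a m hm
    rw [Multiset.mem_sort] at hm
    exact a.1.parts_pos hm
  have hsum : ∀ a : {l : Nat.Partition p // l.parts ≠ {p} ∧ ∃ m ∈ l.parts, m ≠ 1},
      (a.1.parts.sort (· ≤ ·)).sum = p := by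
    intro a
    rw [← Multiset.sum_coe, Multiset.sort_eq, a.1.parts_sum]
  refine Cyc_alg h1 h2 h3 z p hp.one_lt.le
    (fun a : {l : Nat.Partition p // l.parts ≠ {p} ∧ ∃ m ∈ l.parts, m ≠ 1} =>
      (T (wL 0 (a.1.parts.sort (· ≤ ·))) : Hk R z)) ?_ ?_ ?_ ?_ u y0 hy0 ?_
  · intro a
    rw [← hc1 0 _ (hpos a)]
    exact Cyc_cL_mem _ 0 p (by rw [hsum a]; omega)
  · intro a
    rw [tau_T, if_neg]
    refine Cyc_wL_ne _ 0 (hpos a) ?_
    obtain ⟨m, hm, hne⟩ := a.2.2
    exact ⟨m, (Multiset.mem_sort _).2 hm, hne⟩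
  · exact h6 R z p hp hPU
  · intro M _ _ f hf hf1 hfW I hI hne
    obtain ⟨l, hl, hls, hlI⟩ := hc3 p hp.one_lt.le I hI
    by_cases hones : ∀ m ∈ l, m = 1
    · rw [hlI, Cyc_cL_ones l 0 hones, hf1]
    · push Not at hones
      by_cases hfull : l = [p]
      · rw [hfull, Cyc_cL_full] at hlI
        have e1 := h2 R z p hp.one_lt.le I hI
        rw [if_neg hne, hlI, h2 R z p hp.one_lt.le _ (Finset.Subset.refl _), if_pos rfl] at e1
        rw [← one_smul R (f (cI I)), e1, zero_smul]
      · set P : Nat.Partition p := ⟨(l : Multiset ℕ), fun {m} hm => hl m hm, by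
          rw [Multiset.sum_coe, hls]⟩ with hP
        have hPp : P.parts ≠ {p} := by
          intro h
          apply hfull
          have h' : (l : Multiset ℕ) = {p} := h
          rw [← Multiset.coe_singleton, Multiset.coe_eq_coe, List.perm_singleton] at h'
          exact h'
        have hPm : ∃ m ∈ P.parts, m ≠ 1 := hones
        have hperm : l.Perm (P.parts.sort (· ≤ ·)) := by
          rw [← Multiset.coe_eq_coe, Multiset.sort_eq]
        rw [hlI, hc2 M f l _ hperm (by rw [hls]; exact hf),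
          hc1 0 _ (hpos ⟨P, hPp, hPm⟩)]
        exact hfW ⟨P, hPp, hPm⟩
  · rw [← hPi, smul_smul, hu, one_smul]

end Pool.Agent.H873
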