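import Pool.Agent.Helper873_Hecke.Stmts2

set_option autoImplicit false

namespace Pool.Agent.H873

open Equiv Hk

section

variable {K : Type} [Field K] {z : K}

/-- a product of shifted copies of `x` commutes with what all the factors commute with -/
theorem DecP_prod_comm (js : List ℕ) (d : ℕ) (P y : Hk K z)
    (h : ∀ j ∈ js, y * sh (d * j) P = sh (d * j) P * y) :
    y * (js.map (fun j => sh (d * j) P)).prod = (js.map (fun j => sh (d * j) P)).prod * y := by
  induction js with
  | nil => simp
  | cons j js ih =>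
    rw [List.map_cons, List.prod_cons, ← mul_assoc, h j List.mem_cons_self, mul_assoc,
      ih (fun i hi => h i (List.mem_cons_of_mem _ hi)), mul_assoc]

theorem DecP_prod_mem (js : List ℕ) (d n : ℕ) (P : Hk K z)
    (h : ∀ j ∈ js, sh (d * j) P ∈ (Hs (d * n) : Subalgebra K (Hk K z))) :
    (js.map (fun j => sh (d * j) P)).prod ∈ (Hs (d * n) : Subalgebra K (Hk K z)) := by
  apply Subalgebra.list_prod_mem
  intro x hx
  rw [List.mem_map] at hx
  obtain ⟨j, hj, rfl⟩ := hx
  exact h j hj

theorem DecP_ins_cons (d j : ℕ) (js : List ℕ) :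
    (ins d (j :: js) : Hk K z) = sh (d * j) (betaE d) * ins d js := by
  unfold ins
  rw [List.map_cons, List.prod_cons]

theorem DecP_step (h3 : S_move) (h6 : S_ins) {q : K} {d n : ℕ} {w : BW} (hw : Valid n w)
    (f : Hk K z →ₗ[K] K) (hf : IsTrace (d * n) f) (P : Hk K z)
    (hP : P ∈ (Hs d : Subalgebra K (Hk K z)))
    (hPp : ∀ (M : Type) [AddCommGroup M] [Module K M] (f : Hk K z →ₗ[K] M), IsTrace d f →
      qn q q⁻¹ d • f P = f (betaE d))
    (hb : (betaE d : Hk K z) ∈ (Hs d : Subalgebra K (Hk K z))) :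
    ∀ (js js' : List ℕ), (js ++ js').Nodup → (∀ j ∈ js ++ js', j < n) →
      (∀ j ∈ js ++ js', ∀ j' ∈ js ++ js', (prm w).SameCycle j j' → j = j') →
      qn q q⁻¹ d ^ js.length *
        f (wd (cab d w) * ((js.map (fun j => sh (d * j) P)).prod * ins d js')) =
          f (wd (cab d w) * ins d (js ++ js')) := by
  intro js
  induction js with
  | nil =>
    intro js' _ _ _
    simp only [List.length_nil, pow_zero, one_mul, List.map_nil, List.prod_nil, List.nil_append]
  | cons j js ih =>
    intro js' hnd hlt hsc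
    obtain ⟨i1, i2, i3, i4, i5, -⟩ := h6 K z d
    have hperm : (js ++ j :: js').Perm (j :: js ++ js') := List.perm_middle
    have hnd2 : (js ++ j :: js').Nodup := (List.Perm.nodup_iff hperm).2 hnd
    have hlt2 : ∀ i ∈ js ++ j :: js', i < n := fun i hi => hlt i (hperm.mem_iff.1 hi)
    have hsc2 : ∀ i ∈ js ++ j :: js', ∀ i' ∈ js ++ j :: js', (prm w).SameCycle i i' → i = i' :=
      fun i hi i' hi' => hsc i (hperm.mem_iff.1 hi) i' (hperm.mem_iff.1 hi')
    have hjn : j < n := hlt j (by simp)
    have hnd' : j ∉ js ∧ j ∉ js' := by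
      have h := (List.nodup_cons.1 (by simpa using hnd : (j :: (js ++ js')).Nodup)).1
      rw [List.mem_append, not_or] at h
      exact h
    -- the other insertions
    set Q : Hk K z := (js.map (fun j => sh (d * j) P)).prod with hQ
    have hC : (Q * ins d js' : Hk K z) ∈ (Hs (d * n) : Subalgebra K (Hk K z)) := by
      apply mul_mem
      · exact DecP_prod_mem js d n P (fun i hi => i2 n i (hlt i (by simp [hi])) P hP)
      · exact i3 n js' (fun i hi => hlt i (by simp [hi]))
    have hcyc : ∀ k, (prm w).SameCycle j k → k ∉ js ∧ k ∉ js' := by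
      intro k hk
      constructor
      · intro hkj
        have := hsc j (by simp) k (by simp [hkj]) hk
        rw [← this] at hkj
        exact hnd'.1 hkj
      · intro hkj
        have := hsc j (by simp) k (by simp [hkj]) hk
        rw [← this] at hkj
        exact hnd'.2 hkj
    have hcomm : ∀ k, (prm w).SameCycle j k → ∀ a ∈ (Hs d : Subalgebra K (Hk K z)),
        sh (d * k) a * (Q * ins d js') = (Q * ins d js') * sh (d * k) a := by
      intro k hk a ha
      obtain ⟨c1, c2⟩ := hcyc k hk
      have e1 : (sh (d * k) a : Hk K z) * Q = Q * sh (d * k) a := by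
        apply DecP_prod_comm
        intro i hi
        exact i1 k i (fun h => c1 (h ▸ hi)) a ha P hP
      rw [← mul_assoc, e1, mul_assoc, i5 k js' c2 a ha, mul_assoc]
    obtain ⟨m1, -⟩ := h3 K z K d n f w (Q * ins d js') hf hw hC j hjn hcomm
    -- the trace functional
    let ρ : Hk K z →ₗ[K] K := f ∘ₗ (rmul (Q * ins d js' : Hk K z)) ∘ₗ (lmul (wd (cab d w))) ∘ₗ
      (sh (d * j) : Hk K z →ₐ[K] Hk K z).toLinearMap
    have hρ : ∀ x : Hk K z, ρ x = f (wd (cab d w) * sh (d * j) x * (Q * ins d js')) :=
      fun x => rfl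
    have hρt : IsTrace d ρ := by
      intro x hx a ha
      rw [hρ, hρ]
      exact m1 x hx a ha
    have key := hPp K ρ hρt
    rw [hρ, hρ, smul_eq_mul] at key
    have e1 : (sh (d * j) (betaE d) : Hk K z) * Q = Q * sh (d * j) (betaE d) := by
      apply DecP_prod_comm
      intro i hi
      exact i1 j i (fun h => hnd'.1 (h ▸ hi)) _ hb P hP
    have e2 : (wd (cab d w) * sh (d * j) (betaE d) * (Q * ins d js') : Hk K z) =
        wd (cab d w) * (Q * ins d (j :: js')) := by
      rw [DecP_ins_cons, mul_assoc, ← mul_assoc (sh (d * j) (betaE d) : Hk K z) Q, e1]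
      simp only [mul_assoc]
    have e3 := ih (j :: js') hnd2 hlt2 hsc2
    have e4 : (((j :: js).map (fun j => sh (d * j) P)).prod * ins d js' : Hk K z) =
        sh (d * j) P * (Q * ins d js') := by
      rw [List.map_cons, List.prod_cons, mul_assoc]
    rw [e4, List.length_cons, pow_succ, mul_assoc, ← mul_assoc (wd (cab d w) : Hk K z), key, e2, e3,
      i4 _ _ hperm]

end

theorem t_decP (h1 : S_evW) (h2 : S_Pp) (h3 : S_move) (h4 : S_decl) (h5 : S_hom) (h6 : S_ins) (h7 : S_transv) (h8 : S_cab) : S_decP := by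
  intro K _ q a z dl hq ha hz hdl hk d n w hd hw
  obtain ⟨g1, g2, g3⟩ := h1 K z
  obtain ⟨p1, p2⟩ := h2 K q z hq hz hk d hd
  have hf : IsTrace (d * n) (hom dl a (d * n) : Hk K z →ₗ[K] K) :=
    (h5 K z a a⁻¹ dl (mul_inv_cancel₀ ha) hdl).1 (d * n)
  obtain ⟨-, -, -, d4⟩ := h4
  rw [d4 K z (hom dl a (d * n)) d _ (cab d w), g3]
  obtain ⟨t1, t2, t3, t4⟩ := h7.1 n w hw
  have e1 : (evW (decW q d n w) : Hk K z) = wd (cab d w) *
      (((comps n w).sort (· ≤ ·)).map (fun j => sh (d * j) (evW (powW q d) : Hk K z))).prod := by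
    unfold decW
    rw [map_mul, g1, map_list_prod, List.map_map]
    congr 2
    apply List.map_congr_left
    intro j _
    exact g2 _ _
  have hb : (betaE d : Hk K z) ∈ (Hs d : Subalgebra K (Hk K z)) := by
    unfold betaE
    apply Subalgebra.sum_mem
    intro k hk
    apply wd_mem_Hs
    intro l hl
    rw [Finset.mem_range] at hk
    unfold bet upw at hl
    simp only [List.mem_append, List.mem_map, List.mem_range] at hl
    rcases hl with ⟨i, hi, rfl⟩ | ⟨i, hi, rfl⟩
    · show 0 + i + 1 < d
      omega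
    · show 0 + k + i + 1 < d
      omega
  have key := DecP_step (q := q) h3 h6 hw (hom dl a (d * n)) hf (evW (powW q d)) p1 p2 hb
    ((comps n w).sort (· ≤ ·)) [] (by rw [List.append_nil]; exact t1)
    (by rw [List.append_nil]; exact t2) (by rw [List.append_nil]; exact t4)
  rw [List.append_nil] at key
  have e2 : (ins d [] : Hk K z) = 1 := rfl
  rw [e2, mul_one, Finset.length_sort] at key
  rw [e1]
  exact key

end Pool.Agent.H873
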