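import Pool.Agent.Helper873_Hecke.Stmts

set_option autoImplicit false

namespace Pool.Agent.H873

open Equiv Hk

theorem DecV0_jn_le (p : ℕ) (w : G) : jn p w ≤ p := by
  classical
  unfold jn
  refine (Finset.card_filter_le _ _).trans ?_
  rw [Finset.card_range]

theorem DecV0_s_mul_inv (i : ℕ) (w : G) (x : ℕ) : (s i * w)⁻¹.1 x = w⁻¹.1 ((s i).1 x) := by
  rw [mul_inv_rev, s_inv]; rfl

theorem DecV0_mul_s_inv (i : ℕ) (w : G) (x : ℕ) : (w * s i)⁻¹.1 x = (s i).1 (w⁻¹.1 x) := by
  rw [mul_inv_rev, s_inv]; rfl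

theorem DecV0_jn_left {p i : ℕ} (h : i + 1 < 2 * p) (hi : i + 1 ≠ p) (w : G) :
    jn p (s i * w) = jn p w := by
  classical
  unfold jn
  by_cases h1 : i + 1 < p
  · congr 1
    apply Finset.filter_congr
    intro k hk
    rw [DecV0_s_mul_inv, s_apply, if_neg (by omega), if_neg (by omega)]
  · obtain ⟨i', rfl⟩ : ∃ i', i = i' + p := ⟨i - p, by omega⟩
    refine Finset.card_bij (fun k _ => (s i').1 k) ?_ ?_ ?_
    · intro k hk
      rw [Finset.mem_filter, Finset.mem_range] at hk ⊢
      have e : (s (i' + p)).1 (p + k) = p + (s i').1 k := by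
        rw [s_apply, s_apply]; split_ifs <;> omega
      rw [DecV0_s_mul_inv, e] at hk
      refine ⟨?_, hk.2⟩
      rw [s_apply]; split_ifs <;> omega
    · intro a _ b _ hab
      exact (s i').1.injective hab
    · intro k hk
      rw [Finset.mem_filter, Finset.mem_range] at hk
      refine ⟨(s i').1 k, ?_, ?_⟩
      · rw [Finset.mem_filter, Finset.mem_range]
        have e : (s (i' + p)).1 (p + (s i').1 k) = p + k := by
          rw [s_apply, s_apply]; split_ifs <;> omega
        refine ⟨?_, ?_⟩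
        · rw [s_apply]; split_ifs <;> omega
        · rw [DecV0_s_mul_inv, e]; exact hk.2
      · rw [s_apply, s_apply]; split_ifs <;> omega

theorem DecV0_jn_right {p i : ℕ} (hi : i + 1 ≠ p) (w : G) :
    jn p (w * s i) = jn p w := by
  classical
  unfold jn
  congr 1
  apply Finset.filter_congr
  intro k hk
  rw [DecV0_mul_s_inv, s_apply]
  split_ifs <;> omega

theorem DecV0_VV_left {p i : ℕ} (h : i + 1 < 2 * p) (hi : i + 1 ≠ p) (j : ℕ) (w : G) :
    s i * w ∈ VV p j ↔ w ∈ VV p j := by
  unfold VV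
  rw [Set.mem_ofPred_eq, Set.mem_ofPred_eq, s_mul_mem_SS h, DecV0_jn_left h hi]

theorem DecV0_VV_right {p i : ℕ} (h : i + 1 < 2 * p) (hi : i + 1 ≠ p) (j : ℕ) (w : G) :
    w * s i ∈ VV p j ↔ w ∈ VV p j := by
  unfold VV
  rw [Set.mem_ofPred_eq, Set.mem_ofPred_eq, mul_s_mem_SS h, DecV0_jn_right hi]

section
variable {R : Type} [CommRing R] {z : R}

theorem DecV0_proj_left {S : Set G} {n : ℕ} (hS : ∀ i, i + 1 < n → ∀ w, s i * w ∈ S ↔ w ∈ S)
    {a : Hk R z} (ha : a ∈ Hs n) (x : Hk R z) : proj S (a * x) = a * proj S x := by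
  revert x
  refine Hs_induction (P := fun a => ∀ x, proj S (a * x) = a * proj S x) ?_ ?_ ?_ ?_ ha
  · intro x; rw [one_mul, one_mul]
  · intro a _ b _ ha hb x; rw [add_mul, map_add, ha, hb, add_mul]
  · intro r a _ ha x; rw [smul_mul_assoc, map_smul, ha, smul_mul_assoc]
  · intro i hi a _ ha x; rw [mul_assoc, proj_sg_mul (hS i hi), ha, mul_assoc]

theorem DecV0_proj_left_sh {S : Set G} {n k : ℕ}
    (hS : ∀ i, i + 1 < n → ∀ w, s (i + k) * w ∈ S ↔ w ∈ S)
    {a : Hk R z} (ha : a ∈ Hs n) (x : Hk R z) : proj S (sh k a * x) = sh k a * proj S x := by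
  revert x
  refine Hs_induction (P := fun a => ∀ x, proj S (sh k a * x) = sh k a * proj S x) ?_ ?_ ?_ ?_ ha
  · intro x; rw [map_one, one_mul, one_mul]
  · intro a _ b _ ha hb x; rw [map_add, add_mul, map_add, ha, hb, add_mul]
  · intro r a _ ha x; rw [map_smul, smul_mul_assoc, map_smul, ha, smul_mul_assoc]
  · intro i hi a _ ha x; rw [map_mul (sh k), sh_sg, mul_assoc, proj_sg_mul (hS i hi), ha, mul_assoc]

theorem DecV0_proj_right {S : Set G} {n : ℕ} (hS : ∀ i, i + 1 < n → ∀ w, w * s i ∈ S ↔ w ∈ S)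
    {a : Hk R z} (ha : a ∈ Hs n) (x : Hk R z) : proj S (x * a) = proj S x * a := by
  revert x
  refine Hs_induction (P := fun a => ∀ x, proj S (x * a) = proj S x * a) ?_ ?_ ?_ ?_ ha
  · intro x; rw [mul_one, mul_one]
  · intro a _ b _ ha hb x; rw [mul_add, map_add, ha, hb, mul_add]
  · intro r a _ ha x; rw [mul_smul_comm, map_smul, ha, mul_smul_comm]
  · intro i hi a _ ha x; rw [← mul_assoc, ha, proj_mul_sg (hS i hi), mul_assoc]

theorem DecV0_proj_right_sh {S : Set G} {n k : ℕ}
    (hS : ∀ i, i + 1 < n → ∀ w, w * s (i + k) ∈ S ↔ w ∈ S)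
    {a : Hk R z} (ha : a ∈ Hs n) (x : Hk R z) : proj S (x * sh k a) = proj S x * sh k a := by
  revert x
  refine Hs_induction (P := fun a => ∀ x, proj S (x * sh k a) = proj S x * sh k a) ?_ ?_ ?_ ?_ ha
  · intro x; rw [map_one, mul_one, mul_one]
  · intro a _ b _ ha hb x; rw [map_add, mul_add, map_add, ha, hb, mul_add]
  · intro r a _ ha x; rw [map_smul, mul_smul_comm, map_smul, ha, mul_smul_comm]
  · intro i hi a _ ha x; rw [map_mul (sh k), sh_sg, ← mul_assoc, ← mul_assoc, ha,
                              proj_mul_sg (hS i hi)]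

theorem DecV0_proj_proj {S S' : Set G} (h : S ⊆ S') (x : Hk R z) :
    proj S' (proj S x) = proj S x := by
  have : (proj S' ∘ₗ proj S : Hk R z →ₗ[R] Hk R z) = proj S := by
    refine hext (fun w => ?_)
    change proj S' (proj S (T w : Hk R z)) = proj S (T w : Hk R z)
    by_cases hw : w ∈ S
    · rw [proj_T_of_mem hw, proj_T_of_mem (h hw)]
    · rw [proj_T_of_notMem hw, map_zero]
  exact congrArg (fun f => f x) this

end

theorem t_dec : S_dec := by
  intro R _ z p
  refine ⟨?_, ?_, ?_, ?_⟩
  · intro xi hxi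
    have key : (∑ j ∈ Finset.range (p + 1), proj (VV p j) : Hk R z →ₗ[R] Hk R z)
        = proj (SS (2 * p)) := by
      refine hext (fun w => ?_)
      rw [LinearMap.sum_apply]
      by_cases hw : w ∈ SS (2 * p)
      · rw [proj_T_of_mem hw, Finset.sum_eq_single_of_mem (jn p w)]
        · exact proj_T_of_mem ⟨hw, rfl⟩
        · rw [Finset.mem_range]
          exact Nat.lt_succ_of_le (DecV0_jn_le p w)
        · intro j _ hj
          exact proj_T_of_notMem (fun h => hj h.2.symm)
      · rw [proj_T_of_notMem hw]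
        apply Finset.sum_eq_zero
        intro j _
        exact proj_T_of_notMem (fun h => hw h.1)
    have h2 := congrArg (fun f => f xi) key
    simp only [LinearMap.sum_apply] at h2
    rw [h2]
    exact (mem_Hs_iff.1 hxi).symm
  · intro j xi hxi a ha
    have L1 : ∀ x : Hk R z, proj (VV p j) (a * x) = a * proj (VV p j) x :=
      DecV0_proj_left (fun i hi w => DecV0_VV_left (by omega) (by omega) j w) ha
    have L2 : ∀ x : Hk R z, proj (VV p j) (sh p a * x) = sh p a * proj (VV p j) x :=
      DecV0_proj_left_sh (fun i hi w => DecV0_VV_left (by omega) (by omega) j w) ha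
    have R1 : ∀ x : Hk R z, proj (VV p j) (x * a) = proj (VV p j) x * a :=
      DecV0_proj_right (fun i hi w => DecV0_VV_right (by omega) (by omega) j w) ha
    have R2 : ∀ x : Hk R z, proj (VV p j) (x * sh p a) = proj (VV p j) x * sh p a :=
      DecV0_proj_right_sh (fun i hi w => DecV0_VV_right (by omega) (by omega) j w) ha
    rw [← R1, ← L2, ← R2, ← L1, (hxi a ha).1, (hxi a ha).2]
    exact ⟨rfl, rfl⟩
  · intro j xi
    exact DecV0_proj_proj (subset_refl _) xi
  · intro j xi
    rw [mem_Hs_iff]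
    exact DecV0_proj_proj (fun w hw => hw.1) xi

/-! ### the trivial double coset -/

/-- a permutation preserving `{0, …, p - 1}` is a product -/
theorem DecV0_factor {p : ℕ} {w : G} (hw : w ∈ VV p 0) :
    ∃ u ∈ SS p, ∃ v ∈ SS p, w = u * shG p v := by
  classical
  obtain ⟨hw1, hw2⟩ := hw
  have hge : ∀ x, p ≤ x → p ≤ w⁻¹.1 x := by
    intro x hx
    by_cases hx2 : 2 * p ≤ x
    · rw [inv_mem_SS hw1 x hx2]; exact hx
    · by_contra hlt
      unfold jn at hw2
      rw [Finset.card_eq_zero, Finset.filter_eq_empty_iff] at hw2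
      have := hw2 (x := x - p) (by rw [Finset.mem_range]; omega)
      apply this
      have e : p + (x - p) = x := by omega
      rw [e]
      omega
  -- `w⁻¹` maps `{0, …, p-1}` onto itself
  have hlt : ∀ x, x < p → w.1 x < p := by
    intro x hx
    by_contra hc
    have := hge (w.1 x) (by omega)
    rw [pinv] at this
    omega
  have hltinv : ∀ x, x < p → w⁻¹.1 x < p := by
    intro x hx
    have hinj : Set.InjOn w.1 (Finset.range p : Set ℕ) := w.1.injective.injOn
    have hmaps : Set.MapsTo w.1 (Finset.range p : Set ℕ) (Finset.range p : Set ℕ) := by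
      intro y hy
      simp only [Finset.coe_range, Set.mem_Iio] at hy ⊢
      exact hlt y hy
    have hsurj := Finset.surjOn_of_injOn_of_card_le w.1 hmaps hinj le_rfl
    obtain ⟨y, hy, hyx⟩ := hsurj (by simpa using hx : x ∈ (Finset.range p : Set ℕ))
    rw [← hyx, pinv]
    simpa using hy
  have hge' : ∀ x, p ≤ x → p ≤ w.1 x := by
    intro x hx
    by_contra hc
    have := hltinv (w.1 x) (by omega)
    rw [pinv] at this
    omega
  let u : G := ⟨⟨fun x => if x < p then w.1 x else x, fun x => if x < p then w⁻¹.1 x else x, by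
      intro x
      by_cases hx : x < p
      · simp only [if_pos hx, if_pos (hlt x hx)]
        exact pinv w x
      · simp only [if_neg hx], by
      intro x
      by_cases hx : x < p
      · simp only [if_pos hx, if_pos (hltinv x hx)]
        exact papp w x
      · simp only [if_neg hx]⟩, p, fun m hm => by
      change (if m < p then w.1 m else m) = m
      rw [if_neg (by omega)]⟩
  let v : G := ⟨⟨fun x => w.1 (x + p) - p, fun x => w⁻¹.1 (x + p) - p, by
      intro x
      have := hge' (x + p) (by omega)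
      simp only
      rw [Nat.sub_add_cancel this, pinv]
      omega, by
      intro x
      have := hge (x + p) (by omega)
      simp only
      rw [Nat.sub_add_cancel this, papp]
      omega⟩, p, fun m hm => by
      change w.1 (m + p) - p = m
      rw [hw1 (m + p) (by omega)]
      omega⟩
  have hu : ∀ x, u.1 x = if x < p then w.1 x else x := fun x => rfl
  have hv : ∀ x, v.1 x = w.1 (x + p) - p := fun x => rfl
  refine ⟨u, ?_, v, ?_, ?_⟩
  · intro m hm
    rw [hu, if_neg (by omega)]
  · intro m hm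
    rw [hv, hw1 (m + p) (by omega)]
    omega
  · apply Subtype.ext
    ext x
    change w.1 x = u.1 ((shG p v).1 x)
    by_cases hx : x < p
    · rw [shG_apply_lt p v hx, hu, if_pos hx]
    · obtain ⟨y, rfl⟩ : ∃ y, x = y + p := ⟨x - p, by omega⟩
      rw [shG_apply_add, hu, if_neg (by omega), hv]
      have := hge' (y + p) (by omega)
      omega

section
variable {R : Type} [CommRing R] {z : R}

theorem DecV0_T_mul_aux {p : ℕ} (v : G) {l : List ℕ} {u : G} (hl : Red l u)
    (hl2 : ∀ i ∈ l, i + 1 < p) :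
    u ∈ SS p ∧ (T u * sh p (T v) : Hk R z) = T (u * shG p v) := by
  induction hl with
  | nil =>
    refine ⟨one_mem_SS p, ?_⟩
    rw [one_mul, ← sh_T]
    exact one_mul _
  | cons i l w hl' hi ih =>
    obtain ⟨ih1, ih2⟩ := ih (fun j hj => hl2 j (List.mem_cons_of_mem _ hj))
    have hip := hl2 i List.mem_cons_self
    refine ⟨(s_mul_mem_SS hip w).2 ih1, ?_⟩
    have hlt : ∀ x, x < p → w⁻¹.1 x < p := by
      intro x hx
      by_contra hc
      have h1 := ih1 (w⁻¹.1 x) (by omega)
      rw [papp] at h1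
      omega
    have hinv : ∀ x, x < p → (w * shG p v)⁻¹.1 x = w⁻¹.1 x := by
      intro x hx
      rw [mul_inv_rev]
      change (shG p v)⁻¹.1 (w⁻¹.1 x) = _
      rw [← map_inv, shG_apply_lt p _ (hlt x hx)]
    have hLA : LA i (w * shG p v) := by
      unfold LA
      rw [hinv i (by omega), hinv (i + 1) (by omega)]
      exact hi
    rw [← sg_mul_T_asc hi, mul_assoc, ih2, sg_mul_T_asc hLA, mul_assoc]

theorem DecV0_T_mul {p : ℕ} {u : G} (hu : u ∈ SS p) (v : G) :
    (T u * sh p (T v) : Hk R z) = T (u * shG p v) := by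
  obtain ⟨l, hl, hl2⟩ := exists_red_aux p _ u hu rfl
  exact (DecV0_T_mul_aux v hl hl2).2

theorem DecV0_shG_mem {p : ℕ} (v : G) : shG p v ∈ SS p ↔ v = 1 := by
  constructor
  · intro h
    apply Subtype.ext
    ext x
    have := h (x + p) (by omega)
    rw [shG_apply_add] at this
    change v.1 x = x
    omega
  · rintro rfl
    rw [map_one]
    exact one_mem_SS p

theorem DecV0_E_sh (p : ℕ) (y : Hk R z) : proj (SS p) (sh p y) = tau y • (1 : Hk R z) := by
  classical
  have : (proj (SS p) ∘ₗ (sh p).toLinearMap : Hk R z →ₗ[R] Hk R z) =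
      LinearMap.smulRight tau (1 : Hk R z) := by
    refine hext (fun v => ?_)
    change proj (SS p) (sh p (T v : Hk R z)) = tau (T v : Hk R z) • (1 : Hk R z)
    rw [sh_T, tau_T]
    by_cases hv : v = 1
    · subst hv
      rw [if_pos rfl, one_smul, map_one]
      exact proj_T_of_mem (one_mem_SS p)
    · rw [if_neg hv, zero_smul]
      exact proj_T_of_notMem (fun h => hv ((DecV0_shG_mem v).1 h))
  exact congrArg (fun f => f y) this

theorem DecV0_E_left {p : ℕ} {a : Hk R z} (ha : a ∈ Hs p) (x : Hk R z) :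
    proj (SS p) (a * x) = a * proj (SS p) x :=
  DecV0_proj_left (fun _ hi w => s_mul_mem_SS hi w) ha x

theorem DecV0_E_right {p : ℕ} {a : Hk R z} (ha : a ∈ Hs p) (x : Hk R z) :
    proj (SS p) (x * a) = proj (SS p) x * a :=
  DecV0_proj_right (fun _ hi w => mul_s_mem_SS hi w) ha x

theorem DecV0_E {p : ℕ} {a : Hk R z} (ha : a ∈ Hs p) (y : Hk R z) :
    proj (SS p) (a * sh p y) = tau y • a := by
  rw [DecV0_E_left ha, DecV0_E_sh, mul_smul_comm, mul_one]

/-- induction over the span of the trivial double coset -/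
theorem DecV0_ind {M : Type*} [AddCommGroup M] [Module R M] {p : ℕ}
    (f g : Hk R z →ₗ[R] M)
    (h : ∀ u ∈ SS p, ∀ v ∈ SS p, f (T u * sh p (T v)) = g (T u * sh p (T v)))
    {xi : Hk R z} (hxi : proj (VV p 0) xi = xi) : f xi = g xi := by
  have : f ∘ₗ proj (VV p 0) = g ∘ₗ proj (VV p 0) := by
    refine hext (fun w => ?_)
    change f (proj (VV p 0) (T w : Hk R z)) = g (proj (VV p 0) (T w : Hk R z))
    by_cases hw : w ∈ VV p 0
    · rw [proj_T_of_mem hw]
      obtain ⟨u, hu, v, hv, rfl⟩ := DecV0_factor hw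
      rw [← DecV0_T_mul hu]
      exact h u hu v hv
    · rw [proj_T_of_notMem hw, map_zero, map_zero]
  have h2 := congrArg (fun f => f xi) this
  simp only [LinearMap.comp_apply] at h2
  rwa [hxi] at h2

end

theorem t_V0 : S_V0 := by
  intro R _ z p xi hxi hI
  refine ⟨?_, ?_, ?_⟩
  · rw [mem_Hs_iff]
    exact DecV0_proj_proj (subset_refl _) xi
  · intro a ha
    rw [← DecV0_E_left ha, ← DecV0_E_right ha, (hI a ha).1, ← (hI a ha).2]
    have := DecV0_ind (p := p) (proj (SS p) ∘ₗ rmul (sh p a)) (proj (SS p) ∘ₗ lmul (sh p a))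
      (by
        intro u hu v hv
        simp only [LinearMap.comp_apply, rmul_apply, lmul_apply]
        have hu' : (T u : Hk R z) ∈ Hs p := T_mem_Hs hu
        rw [mul_assoc, ← map_mul (sh p), DecV0_E hu', ← mul_assoc, sh_commute hu', mul_assoc,
          ← map_mul (sh p), DecV0_E hu', tau_comm]) hxi
    simpa only [LinearMap.comp_apply, rmul_apply, lmul_apply] using this
  · have key := DecV0_ind (p := p) (LinearMap.id)
      (∑ g : Perm (Fin p), rmul (sh p (T (emb p g⁻¹) : Hk R z)) ∘ₗ proj (SS p) ∘ₗ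
        rmul (sh p (T (emb p g) : Hk R z)))
      (by
        intro u hu v hv
        simp only [LinearMap.comp_apply, rmul_apply, LinearMap.sum_apply, LinearMap.id_apply]
        have hu' : (T u : Hk R z) ∈ Hs p := T_mem_Hs hu
        have hv' : (T v : Hk R z) ∈ Hs p := T_mem_Hs hv
        have hd := dual_basis hv'
        conv_lhs => rw [← hd, map_sum, Finset.mul_sum]
        apply Finset.sum_congr rfl
        intro g _
        rw [mul_assoc, ← map_mul (sh p), DecV0_E hu', tau_comm, map_smul, mul_smul_comm,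
          smul_mul_assoc]) hxi
    simp only [LinearMap.comp_apply, rmul_apply, LinearMap.sum_apply, LinearMap.id_apply] at key
    conv_lhs => rw [key]
    apply Finset.sum_congr rfl
    intro g _
    have hg : (T (emb p g) : Hk R z) ∈ Hs p := T_mem_Hs (emb_mem_SS p g)
    rw [(hI _ hg).2, DecV0_E_left hg]

end Pool.Agent.H873
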