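import Pool.Agent.Helper873_Hecke.Stmts2

set_option autoImplicit false

namespace Pool.Agent.H873

open Equiv Hk

theorem Decl_insW_cons (p j k : ℕ) (ks : List (ℕ × ℕ)) :
    insW p ((j, k) :: ks) = bet (p * j) p k ++ insW p ks := by
  simp only [insW, List.flatMap_cons]

theorem Decl_map_upw (a n o : ℕ) (e : Bool) :
    (upw a n e).map (fun l => (l.1 + o, l.2)) = upw (a + o) n e := by
  unfold upw
  rw [List.map_map]
  apply List.map_congr_left
  intro i _
  simp only [Function.comp_apply]
  rw [show a + i + o = a + o + i by omega]

theorem Decl_map_bet (o p k : ℕ) :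
    (bet 0 p k).map (fun l => (l.1 + o, l.2)) = bet o p k := by
  unfold bet
  rw [List.map_append, Decl_map_upw, Decl_map_upw, show 0 + k + o = o + k by omega,
    show 0 + o = o by omega]

theorem Decl_sh_betaE {K : Type} [CommRing K] {z : K} (o p : ℕ) :
    (sh o (betaE p) : Hk K z) = ∑ k ∈ Finset.range p, (wd (bet o p k) : Hk K z) := by
  unfold betaE
  rw [map_sum]
  refine Finset.sum_congr rfl fun k _ => ?_
  rw [sh_wd, Decl_map_bet]

theorem t_decl : S_decl := by
  refine ⟨?_, ?_, ?_, ?_⟩
  · intro K _ p H H' js
    induction js with
    | nil =>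
      intro w h
      have := h [] rfl (by simp)
      simpa [insW, dec] using this
    | cons j js ih =>
      intro w h
      simp only [dec]
      refine Finset.sum_congr rfl fun k hk => ih _ ?_
      intro ks hks hlt
      have := h ((j, k) :: ks) (by simp [hks]) (by
        intro x hx
        rcases List.mem_cons.1 hx with rfl | hx
        · exact Finset.mem_range.1 hk
        · exact hlt x hx)
      rw [Decl_insW_cons] at this
      rw [List.append_assoc]
      exact this
  · intro K K' _ _ φ p H js
    induction js with
    | nil => intro w; rfl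
    | cons j js ih =>
      intro w
      simp only [dec, map_sum, ih]
  · intro K _ c p H js
    induction js with
    | nil => intro w; rfl
    | cons j js ih =>
      intro w
      simp only [dec, Finset.mul_sum, ih]
  · intro K _ z f p js
    induction js with
    | nil =>
      intro w
      change f (wd w) = f (wd w * 1)
      rw [mul_one]
    | cons j js ih =>
      intro w
      have h1 : (ins p (j :: js) : Hk K z) = sh (p * j) (betaE p) * ins p js := by
        unfold ins
        rw [List.map_cons, List.prod_cons]
      rw [h1, Decl_sh_betaE, Finset.sum_mul, Finset.mul_sum, map_sum]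
      simp only [dec, ih]
      refine Finset.sum_congr rfl fun k _ => ?_
      rw [wd_append, mul_assoc]

theorem Decl_ofW_nil {K : Type} [CommRing K] : (ofW [] : WAlg K) = 1 := rfl

theorem Decl_symW_one {K : Type} [CommRing K] (x : K) : symW x 1 = 1 := by
  simp only [symW, one_mul, zero_add, Finset.sum_range_one, pow_zero, one_smul]
  rfl

theorem Decl_idW_zero {K : Type} [Field K] (x : K) : idW x 0 = 1 := by
  simp only [idW, Finset.range_zero, Finset.prod_empty, inv_one, one_smul]
  rfl

theorem Decl_idW_one {K : Type} [Field K] (x : K) : idW x 1 = 1 := by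
  simp only [idW, Finset.prod_range_one, zero_add, Finset.sum_range_one, mul_zero, pow_zero,
    inv_one, one_smul, Decl_symW_one]

theorem Decl_powW_zero {K : Type} [Field K] (q : K) : powW q 0 = 0 := by
  rw [powW, Nat.cast_zero, zero_smul, Finset.univ_eq_empty, Finset.sum_empty, sub_zero]

theorem Decl_powW_one {K : Type} [Field K] (q : K) : powW q 1 = 1 := by
  rw [powW, Nat.cast_one, one_smul, Decl_idW_one, Fin.sum_univ_one]
  rw [show ((0 : Fin 1) : ℕ) = 0 from rfl, Decl_powW_zero, zero_mul, sub_zero]

theorem Decl_cab_one (w : BW) : cab 1 w = w := by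
  unfold cab
  induction w with
  | nil => rfl
  | cons l w ih =>
    rw [List.flatMap_cons, ih]
    have : xw l.2 (1 * l.1) 1 1 = [l] := by
      rw [one_mul]
      rfl
    rw [this]
    rfl

theorem t_P1 : S_P1 := by
  intro K _ q n w
  refine ⟨?_, ?_⟩
  · unfold decW
    rw [Decl_cab_one, Decl_powW_one]
    simp only [map_one]
    rw [List.prod_eq_one (by
      intro x hx
      rw [List.mem_map] at hx
      obtain ⟨_, _, rfl⟩ := hx
      rfl), mul_one]
  · intro H
    unfold linW ofW
    rw [MonoidAlgebra.of_apply, MonoidAlgebra.coeff_single, Finsupp.sum_single_index (by simp),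
      one_mul]
    rfl

end Pool.Agent.H873
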