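import Pool.Agent.Helper873_Hecke.Stmts2

set_option autoImplicit false

namespace Pool.Agent.H873

open Equiv Hk

theorem Dpoly_qn_succ {R : Type*} [CommRing R] (q qi : R) (n : ℕ) :
    qn q qi (n + 1) = q * qn q qi n + qi ^ n := by
  unfold qn
  rw [Finset.sum_range_succ, Finset.mul_sum]
  congr 1
  · apply Finset.sum_congr rfl
    intro i hi
    have hi' := Finset.mem_range.mp hi
    have h1 : n + 1 - 1 - i = (n - 1 - i) + 1 := by omega
    rw [h1, pow_succ]
    ring
  · have h1 : n + 1 - 1 - n = 0 := by omega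
    rw [h1, pow_zero, one_mul]

theorem Dpoly_qn_zero {R : Type*} [CommRing R] (q qi : R) : qn q qi 0 = 0 := by
  unfold qn
  simp

theorem Dpoly_geom {R : Type*} [CommRing R] (q qi : R) (n : ℕ) :
    (q - qi) * qn q qi n = q ^ n - qi ^ n := by
  induction n with
  | zero => rw [Dpoly_qn_zero]; simp
  | succ n ih =>
    rw [Dpoly_qn_succ, pow_succ, pow_succ]
    linear_combination q * ih

theorem Dpoly_rel {R : Type*} [CommRing R] (q qi : R) (hq : q * qi = 1) (n : ℕ) :
    (qi ^ n) ^ 2 + (q - qi) * qn q qi n * qi ^ n = 1 := by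
  have h1 := Dpoly_geom q qi n
  have h2 : q ^ n * qi ^ n = 1 := by rw [← mul_pow, hq, one_pow]
  linear_combination (qi ^ n) * h1 + h2

theorem Dpoly_sq_rec {R : Type*} [CommRing R] (q qi : R) (hq : q * qi = 1) (n : ℕ) :
    qn q qi (n + 2) ^ 2 = ((q - qi) ^ 2 + 2) * qn q qi (n + 1) ^ 2 - qn q qi n ^ 2 + 2 := by
  have hR := Dpoly_rel q qi hq n
  rw [Dpoly_qn_succ q qi (n + 1), Dpoly_qn_succ q qi n, pow_succ qi n]
  generalize qn q qi n = a at *
  generalize qi ^ n = d at *
  linear_combination 2 * hR + (2 * q * a * d + 2 * d ^ 2 - (2 + (q * qi - 1)) * a ^ 2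
    - 2 * qi * a * d + 2 * (q * a + d) ^ 2) * hq

theorem Dpoly_two {P : ℕ → Prop} (h0 : P 0) (h1 : P 1) (h : ∀ n, P n → P (n + 1) → P (n + 2)) :
    ∀ n, P n := by
  have key : ∀ n, P n ∧ P (n + 1) := by
    intro n
    induction n with
    | zero => exact ⟨h0, h1⟩
    | succ n ih => exact ⟨ih.2, h n ih.1 ih.2⟩
  exact fun n => (key n).1

theorem Dpoly_sq {R : Type*} [CommRing R] (q qi : R) (hq : q * qi = 1) :
    ∀ n, qn q qi n ^ 2 = Polynomial.aeval ((q - qi) ^ 2) (DD n) := by
  apply Dpoly_two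
  · rw [Dpoly_qn_zero]; simp [DD]
  · rw [Dpoly_qn_succ, Dpoly_qn_zero]; simp [DD]
  · intro n ih0 ih1
    rw [Dpoly_sq_rec q qi hq, ih0, ih1]
    simp only [DD, map_add, map_sub, map_mul, Polynomial.aeval_X, map_ofNat]

theorem Dpoly_monic : ∀ n, (DD (n + 1)).Monic ∧ (DD (n + 1)).natDegree = n := by
  have hX2 : (Polynomial.X + 2 : Polynomial ℤ).Monic := by
    have := Polynomial.monic_X_add_C (2 : ℤ)
    simpa using this
  have hX2d : (Polynomial.X + 2 : Polynomial ℤ).natDegree = 1 := by
    have := Polynomial.natDegree_X_add_C (2 : ℤ)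
    simpa using this
  apply Dpoly_two
  · simp [DD]
  · have h2 : DD 2 = Polynomial.X + Polynomial.C 4 := by
      simp only [DD]
      have : (Polynomial.C (4 : ℤ)) = 2 + 2 := by
        rw [show (4 : ℤ) = 2 + 2 by norm_num, map_add]
        simp
      rw [this]
      ring
    change (DD 2).Monic ∧ (DD 2).natDegree = 1
    rw [h2]
    exact ⟨Polynomial.monic_X_add_C _, Polynomial.natDegree_X_add_C _⟩
  · intro n ih0 ih1
    have h3 : DD (n + 2 + 1) = (Polynomial.X + 2) * DD (n + 1 + 1) - (DD (n + 1) - Polynomial.C 2) := by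
      change (Polynomial.X + 2) * DD (n + 1 + 1) - DD (n + 1) + 2 = _
      have : (Polynomial.C (2 : ℤ)) = 2 := by simp
      rw [this]
      ring
    have hm : ((Polynomial.X + 2) * DD (n + 1 + 1)).Monic := hX2.mul ih1.1
    have hd : ((Polynomial.X + 2) * DD (n + 1 + 1)).natDegree = n + 2 := by
      rw [hX2.natDegree_mul ih1.1, hX2d, ih1.2]
      ring
    have hlt : (DD (n + 1) - Polynomial.C 2).natDegree <
        ((Polynomial.X + 2) * DD (n + 1 + 1)).natDegree := by
      rw [hd]
      calc (DD (n + 1) - Polynomial.C 2).natDegree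
          ≤ max (DD (n + 1)).natDegree (Polynomial.C (2 : ℤ)).natDegree :=
            Polynomial.natDegree_sub_le _ _
        _ < n + 2 := by rw [ih0.2, Polynomial.natDegree_C]; simp
    rw [h3]
    refine ⟨hm.sub_of_left (Polynomial.degree_lt_degree hlt), ?_⟩
    rw [Polynomial.natDegree_sub_eq_left_of_natDegree_lt hlt, hd]

theorem Dpoly_eval : ∀ n, (DD n).eval 0 = (n : ℤ) ^ 2 := by
  apply Dpoly_two
  · simp [DD]
  · simp [DD]
  · intro n ih0 ih1
    simp only [DD, Polynomial.eval_add, Polynomial.eval_sub, Polynomial.eval_mul,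
      Polynomial.eval_X, Polynomial.eval_ofNat, ih0, ih1]
    push_cast
    ring

theorem Dpoly_dickson {K : Type*} [CommRing K] : ∀ n,
    Polynomial.X * (DD n).map (Int.castRingHom K) + 2 =
      (Polynomial.dickson 1 (1 : K) n).comp (Polynomial.X + 2) := by
  apply Dpoly_two
  · simp only [DD, Polynomial.map_zero, mul_zero, zero_add, Polynomial.dickson_zero]
    norm_num
  · simp [DD, Polynomial.dickson_one]
  · intro n ih0 ih1
    rw [Polynomial.dickson_add_two]
    simp only [Polynomial.sub_comp, Polynomial.mul_comp, Polynomial.X_comp, map_one,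
      one_mul]
    rw [← ih0, ← ih1]
    simp only [DD, Polynomial.map_add, Polynomial.map_sub, Polynomial.map_mul, Polynomial.map_X,
      Polynomial.map_ofNat]
    ring

theorem Dpoly_modp (p : ℕ) (hp : p.Prime) :
    (DD p).map (Int.castRingHom (ZMod p)) = Polynomial.X ^ (p - 1) := by
  have : Fact p.Prime := ⟨hp⟩
  have h1 := Dpoly_dickson (K := ZMod p) p
  rw [Polynomial.dickson_one_one_zmod_p] at h1
  simp only [Polynomial.pow_comp, Polynomial.X_comp] at h1
  rw [add_pow_char] at h1
  have h2 : (2 : Polynomial (ZMod p)) ^ p = 2 := by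
    have : (2 : Polynomial (ZMod p)) = Polynomial.C 2 := (map_ofNat Polynomial.C 2).symm
    rw [this, ← Polynomial.C_pow, ZMod.pow_card]
  rw [h2] at h1
  have h3 := add_right_cancel h1
  have h4 : (Polynomial.X : Polynomial (ZMod p)) ^ p = Polynomial.X * Polynomial.X ^ (p - 1) := by
    rw [← pow_succ']
    congr 1
    have := hp.pos
    omega
  rw [h4] at h3
  exact mul_left_cancel₀ Polynomial.X_ne_zero h3

theorem t_DD : S_DD :=
  ⟨fun _R _ q qi hq n => ⟨Dpoly_sq q qi hq n, Dpoly_geom q qi n⟩, Dpoly_monic, Dpoly_eval,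
    Dpoly_modp⟩

theorem t_ker : S_ker := by
  intro R _ y D hD φ hX hT F hF
  obtain ⟨n, f', hf'⟩ := F.exists_T_pow
  have hhom : φ.comp (Polynomial.toLaurent) =
      (Polynomial.toLaurent).comp (Polynomial.mapRingHom
        ((Polynomial.aeval y : Polynomial ℤ →ₐ[ℤ] R) : Polynomial ℤ →+* R)) := by
    apply Polynomial.ringHom_ext'
    · apply Polynomial.ringHom_ext'
      · exact RingHom.ext_int _ _
      · simp only [RingHom.comp_apply, Polynomial.toLaurent_C, Polynomial.coe_mapRingHom,
          Polynomial.map_C, RingHom.coe_coe, Polynomial.aeval_X]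
        exact hX
    · simp only [RingHom.comp_apply, Polynomial.coe_mapRingHom, Polynomial.map_X,
        Polynomial.toLaurent_X]
      exact hT
  have h1 : φ (Polynomial.toLaurent f') = 0 := by
    rw [hf', map_mul, hF, zero_mul]
  have h2 : Polynomial.toLaurent (f'.map
      ((Polynomial.aeval y : Polynomial ℤ →ₐ[ℤ] R) : Polynomial ℤ →+* R)) = 0 := by
    have := congrArg (fun g => g f') hhom
    simp only [RingHom.comp_apply, Polynomial.coe_mapRingHom] at this
    rw [← this, h1]
  rw [Polynomial.toLaurent_eq_zero] at h2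
  have h3 : ∀ k, D ∣ f'.coeff k := by
    intro k
    apply hD
    have := congrArg (fun g => Polynomial.coeff g k) h2
    simpa only [Polynomial.coeff_map, Polynomial.coeff_zero, RingHom.coe_coe] using this
  obtain ⟨g, hg⟩ := (Polynomial.C_dvd_iff_dvd_coeff D f').mpr h3
  refine ⟨Polynomial.toLaurent g * LaurentPolynomial.T (-n), ?_⟩
  have h4 : F = F * LaurentPolynomial.T n * LaurentPolynomial.T (-n) := by
    rw [LaurentPolynomial.mul_T_assoc, add_neg_cancel, LaurentPolynomial.T_zero, mul_one]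
  rw [h4, ← hf', hg, map_mul, Polynomial.toLaurent_C, mul_assoc]

theorem Dpoly_qn_map {R R' : Type*} [CommRing R] [CommRing R'] (φ : R →+* R') (q qi : R) (n : ℕ) :
    φ (qn q qi n) = qn (φ q) (φ qi) n := by
  unfold qn
  simp only [map_sum, map_mul, map_pow]

theorem t_goodmap : S_goodmap := by
  intro R R' _ _ φ p q qi z h
  refine ⟨h.prime, ?_, ?_, ?_, ?_, ?_, ?_⟩
  · rw [← map_mul, h.inv, map_one]
  · rw [h.zdef, map_sub]
  · intro u hu
    have h1 := (h.unit u hu).map φ
    have h2 : φ (Polynomial.aeval z u) = Polynomial.aeval (φ z) u := by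
      rw [Polynomial.aeval_def, Polynomial.aeval_def, Polynomial.hom_eval₂]
      congr 1
      exact RingHom.ext_int _ _
    rwa [h2] at h1
  · exact h.zunit.map φ
  · intro k hk hkp
    have h1 := (h.kunit k hk hkp).map φ
    rwa [Dpoly_qn_map] at h1
  · rw [← Dpoly_qn_map, ← map_pow, h.sq, map_zero]

end Pool.Agent.H873
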