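import Pool.Agent.Helper873_Hecke.Stmts

set_option autoImplicit false

namespace Pool.Agent.H873

open Equiv Hk

/-! ### length -/

/-- the set of inversions -/
def EpsZ_inv (w : G) : Set (ℕ × ℕ) := {p | p.1 < p.2 ∧ w.1 p.2 < w.1 p.1}

theorem EpsZ_inv_finite (w : G) : (EpsZ_inv w).Finite := by
  obtain ⟨n, hn⟩ := w.2
  apply (Finset.finite_toSet (Finset.range n ×ˢ Finset.range n)).subset
  rintro ⟨a, b⟩ ⟨h1, h2⟩
  simp only at h1 h2
  simp only [Finset.coe_product, Finset.coe_range, Set.mem_prod, Set.mem_Iio]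
  have hb : b < n := by
    by_contra hb
    rw [not_lt] at hb
    rw [hn b hb] at h2
    have h3 := hn (w.1 a) (by omega)
    have := w.1.injective h3
    omega
  exact ⟨by omega, hb⟩

/-- the length -/
noncomputable def EpsZ_len (w : G) : ℕ := (EpsZ_inv w).ncard

theorem EpsZ_len_one : EpsZ_len 1 = 0 := by
  unfold EpsZ_len
  have : EpsZ_inv 1 = ∅ := by
    ext ⟨a, b⟩
    simp only [Set.mem_empty_iff_false, iff_false]
    rintro ⟨h1, h2⟩
    change b < a at h2
    simp only at h1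
    omega
  rw [this, Set.ncard_empty]

theorem EpsZ_len_inv (w : G) : EpsZ_len w⁻¹ = EpsZ_len w := by
  unfold EpsZ_len
  have : EpsZ_inv w⁻¹ = (fun p : ℕ × ℕ => (w.1 p.2, w.1 p.1)) '' EpsZ_inv w := by
    ext ⟨a, b⟩
    constructor
    · rintro ⟨h1, h2⟩
      refine ⟨(w⁻¹.1 b, w⁻¹.1 a), ⟨h2, ?_⟩, ?_⟩
      · simp only [papp]; exact h1
      · simp only [papp]
    · rintro ⟨⟨c, d⟩, ⟨h1, h2⟩, h3⟩
      simp only [Prod.mk.injEq] at h3 h1 h2
      obtain ⟨rfl, rfl⟩ := h3
      refine ⟨h2, ?_⟩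
      simp only [pinv]; exact h1
  rw [this, Set.ncard_image_of_injective]
  rintro ⟨a, b⟩ ⟨c, d⟩ h
  simp only [Prod.mk.injEq] at h
  rw [w.1.injective h.1, w.1.injective h.2]

theorem EpsZ_len_asc {i : ℕ} {w : G} (h : LA i w) : EpsZ_len (s i * w) = EpsZ_len w + 1 := by
  unfold EpsZ_len
  have e : EpsZ_inv (s i * w) = insert (w⁻¹.1 i, w⁻¹.1 (i + 1)) (EpsZ_inv w) := by
    ext ⟨a, b⟩
    simp only [Set.mem_insert_iff, Prod.mk.injEq]
    by_cases h1 : a = w⁻¹.1 i ∧ b = w⁻¹.1 (i + 1)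
    · simp only [h1, and_self, true_or, iff_true]
      refine ⟨h, ?_⟩
      change (s i).1 (w.1 (w⁻¹.1 (i + 1))) < (s i).1 (w.1 (w⁻¹.1 i))
      rw [papp, papp, s_apply, s_apply, if_neg (by omega), if_pos rfl, if_pos rfl]
      omega
    · simp only [h1, false_or]
      unfold EpsZ_inv
      change (a < b ∧ (s i * w).1 b < (s i * w).1 a) ↔ (a < b ∧ w.1 b < w.1 a)
      apply and_congr_right
      intro hab
      have hne : w.1 b ≠ w.1 a := fun e => by have := w.1.injective e; omega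
      change (s i).1 (w.1 b) < (s i).1 (w.1 a) ↔ _
      have k1 : ¬ (w.1 b = i ∧ w.1 a = i + 1) := by
        rintro ⟨e1, e2⟩
        have e1' : b = w⁻¹.1 i := by rw [← e1, pinv]
        have e2' : a = w⁻¹.1 (i + 1) := by rw [← e2, pinv]
        unfold LA at h
        omega
      have k2 : ¬ (w.1 b = i + 1 ∧ w.1 a = i) := by
        rintro ⟨e1, e2⟩
        exact h1 ⟨by rw [← e2, pinv], by rw [← e1, pinv]⟩
      rw [s_apply, s_apply]
      split_ifs <;> omega
  rw [e, Set.ncard_insert_of_notMem _ (EpsZ_inv_finite w)]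
  rintro ⟨-, h2⟩
  simp only [papp] at h2
  omega

theorem EpsZ_len_desc {i : ℕ} {w : G} (h : ¬ LA i w) : EpsZ_len w = EpsZ_len (s i * w) + 1 := by
  have h1 : LA i (s i * w) := by rw [LA_s_mul]; exact h
  have := EpsZ_len_asc h1
  rwa [s_mul_s_mul] at this

/-! ### the character -/

theorem EpsZ_eps (R : Type) [CommRing R] (q qi z : R) (h1 : q * qi = 1) (h2 : z = q - qi) :
    ∃ eps : Hk R z →ₐ[R] R, ∀ w, eps (T w) = q ^ EpsZ_len w := by
  let f : Hk R z →ₗ[R] R := basis.constr R (fun w : G => q ^ EpsZ_len w)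
  have hf : ∀ w, f (T w : Hk R z) = q ^ EpsZ_len w := fun w => basis.constr_basis R _ w
  have hone : f (1 : Hk R z) = 1 := by
    change f (T 1 : Hk R z) = 1
    rw [hf, EpsZ_len_one, pow_zero]
  have hs : ∀ i w, f (sg i * (T w : Hk R z)) = q * f (T w : Hk R z) := by
    intro i w
    by_cases h : LA i w
    · rw [sg_mul_T_asc h, hf, hf, EpsZ_len_asc h, pow_succ']
    · rw [sg_mul_T_desc h, map_add, map_smul, hf, hf, EpsZ_len_desc h, smul_eq_mul, h2, pow_succ]
      linear_combination (-q ^ EpsZ_len (s i * w)) * h1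
  exact ⟨AlgHom.ofLinearMap f hone (map_mul_of_sg f (fun _ => q) hone hs), hf⟩

theorem EpsZ_len_s (i : ℕ) : EpsZ_len (s i) = 1 := by
  have := EpsZ_len_asc (LA_one i)
  rwa [mul_one, EpsZ_len_one] at this

theorem t_eps : S_eps := by
  intro R _ q qi z h1 h2
  obtain ⟨eps, he⟩ := EpsZ_eps R q qi z h1 h2
  refine ⟨eps, fun i => ?_⟩
  unfold sg
  rw [he, EpsZ_len_s, pow_one]

/-! ### splitting `cI I` -/

theorem EpsZ_split (i0 : ℕ) : ∀ l : List ℕ, l.Pairwise (· ≤ ·) → i0 ∉ l →
    ∃ l1 l2, l = l1 ++ l2 ∧ (∀ x ∈ l1, x < i0) ∧ (∀ x ∈ l2, i0 < x) := by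
  intro l
  induction l with
  | nil => intro _ _; exact ⟨[], [], rfl, by simp, by simp⟩
  | cons a t ih =>
    intro hl hi
    rw [List.pairwise_cons] at hl
    rw [List.mem_cons, not_or] at hi
    rcases Nat.lt_or_ge a i0 with h | h
    · obtain ⟨l1, l2, e, h1, h2⟩ := ih hl.2 hi.2
      refine ⟨a :: l1, l2, by rw [e]; rfl, ?_, h2⟩
      intro x hx
      rcases List.mem_cons.1 hx with rfl | hx
      · exact h
      · exact h1 x hx
    · refine ⟨[], a :: t, rfl, by simp, ?_⟩
      intro x hx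
      rcases List.mem_cons.1 hx with rfl | hx
      · have := hi.1; omega
      · have := hl.1 x hx; have := hi.1; omega

theorem EpsZ_cI_split {R : Type} [CommRing R] {z : R} {p : ℕ} {I : Finset ℕ}
    (hI : I ⊆ Finset.range (p - 1)) (hne : I ≠ Finset.range (p - 1)) :
    ∃ b l, 1 ≤ b ∧ 1 ≤ l ∧ b + l = p ∧ ∃ y1 ∈ (Hs b : Subalgebra R (Hk R z)),
      ∃ y2 ∈ (Hs l : Subalgebra R (Hk R z)), (cI I : Hk R z) = y1 * sh b y2 := by
  obtain ⟨i0, hi0, hi0'⟩ : ∃ i0 ∈ Finset.range (p - 1), i0 ∉ I := by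
    by_contra hc
    push Not at hc
    exact hne (Finset.Subset.antisymm hI hc)
  rw [Finset.mem_range] at hi0
  have hmem : ∀ x ∈ I.sort (· ≤ ·), x < p - 1 := by
    intro x hx
    rw [Finset.mem_sort] at hx
    exact Finset.mem_range.1 (hI hx)
  obtain ⟨l1, l2, e, h1, h2⟩ := EpsZ_split i0 (I.sort (· ≤ ·)) (Finset.pairwise_sort _ _)
    (by rwa [Finset.mem_sort])
  rw [e] at hmem
  refine ⟨i0 + 1, p - (i0 + 1), by omega, by omega, by omega, (l1.map sg).prod, ?_,
    (l2.map (fun i => sg (i - (i0 + 1)))).prod, ?_, ?_⟩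
  · apply Subalgebra.list_prod_mem
    intro y hy
    obtain ⟨i, hi, rfl⟩ := List.mem_map.1 hy
    have := h1 i hi
    exact sg_mem_Hs (by omega)
  · apply Subalgebra.list_prod_mem
    intro y hy
    obtain ⟨i, hi, rfl⟩ := List.mem_map.1 hy
    have := h2 i hi
    have := hmem i (List.mem_append_right _ hi)
    exact sg_mem_Hs (by omega)
  · unfold cI
    rw [e, List.map_append, List.prod_append, map_list_prod, List.map_map]
    congr 2
    apply List.map_congr_left
    intro i hi
    have := h2 i hi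
    rw [Function.comp_apply, sh_sg]
    congr 1
    omega

/-! ### the sum of `q ^ (2 len w)` -/

/-- `s_i s_{i+1} ⋯ s_{i+k-1}` -/
def EpsZ_D : ℕ → ℕ → G
  | _, 0 => 1
  | i, k + 1 => s i * EpsZ_D (i + 1) k

theorem EpsZ_D_apply : ∀ k i : ℕ, (EpsZ_D i k).1 (i + k) = i := by
  intro k
  induction k with
  | zero => intro i; rfl
  | succ k ih =>
    intro i
    change (s i).1 ((EpsZ_D (i + 1) k).1 (i + (k + 1))) = i
    have : i + (k + 1) = i + 1 + k := by omega
    rw [this, ih, s_apply, if_neg (by omega), if_pos rfl]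

theorem EpsZ_D_mem : ∀ k i n : ℕ, i + k < n → EpsZ_D i k ∈ SS n := by
  intro k
  induction k with
  | zero => intro i n _; exact one_mem_SS n
  | succ k ih =>
    intro i n h
    exact mul_mem_SS (s_mem_SS (by omega)) (ih (i + 1) n (by omega))

theorem EpsZ_len_D {n : ℕ} {v : G} (hv : v ∈ SS n) : ∀ k i : ℕ, i + k = n →
    EpsZ_len (EpsZ_D i k * v) = k + EpsZ_len v := by
  intro k
  induction k with
  | zero =>
    intro i _
    change EpsZ_len (1 * v) = _
    rw [one_mul, Nat.zero_add]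
  | succ k ih =>
    intro i hi
    have hD : EpsZ_D i (k + 1) * v = s i * (EpsZ_D (i + 1) k * v) := by
      change s i * EpsZ_D (i + 1) k * v = _
      rw [mul_assoc]
    have hu : EpsZ_D (i + 1) k * v ∈ SS (n + 1) :=
      mul_mem_SS (EpsZ_D_mem k (i + 1) (n + 1) (by omega)) (fun m hm => hv m (by omega))
    have hun : (EpsZ_D (i + 1) k * v).1 n = i + 1 := by
      change (EpsZ_D (i + 1) k).1 (v.1 n) = i + 1
      rw [hv n le_rfl]
      have : n = i + 1 + k := by omega
      rw [this]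
      exact EpsZ_D_apply k (i + 1)
    have hla : LA i (EpsZ_D (i + 1) k * v) := by
      generalize EpsZ_D (i + 1) k * v = u at hu hun
      unfold LA
      have e1 : u⁻¹.1 (i + 1) = n := by rw [← hun, pinv]
      rw [e1]
      have e2 : u⁻¹.1 i ≠ n := by
        rw [← e1]
        intro e
        have := u⁻¹.1.injective e
        omega
      by_contra hc
      have h3 := inv_mem_SS hu (u⁻¹.1 i) (by omega)
      have := u⁻¹.1.injective h3
      omega
    rw [hD, EpsZ_len_asc hla, ih (i + 1) (by omega)]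
    omega

theorem EpsZ_exists (n : ℕ) (x : Fin (n + 1) × Perm (Fin n)) :
    ∃ h : Perm (Fin (n + 1)), emb (n + 1) h = EpsZ_D (n - x.1) x.1 * emb n x.2 := by
  apply exists_emb
  apply mul_mem_SS
  · apply EpsZ_D_mem
    have := x.1.2
    omega
  · intro m hm
    exact emb_mem_SS n x.2 m (by omega)

theorem EpsZ_sum {R : Type} [CommRing R] (q : R) (n : ℕ) :
    ∑ g : Perm (Fin (n + 1)), q ^ (2 * EpsZ_len (emb (n + 1) g)) =
      (∑ j ∈ Finset.range (n + 1), q ^ (2 * j)) * ∑ g : Perm (Fin n), q ^ (2 * EpsZ_len (emb n g)) := by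
  classical
  choose F hF using EpsZ_exists n
  have hinj : Function.Injective F := by
    rintro ⟨j, g⟩ ⟨j', g'⟩ h
    have h1 := hF (j, g)
    rw [h, hF (j', g')] at h1
    simp only at h1
    have hj := j.2
    have hj' := j'.2
    have h2 := congrArg (fun w : G => w.1 n) h1
    change (EpsZ_D (n - j') j').1 ((emb n g').1 n) = (EpsZ_D (n - j) j).1 ((emb n g).1 n) at h2
    rw [emb_apply_ge n g le_rfl, emb_apply_ge n g' le_rfl] at h2
    have h3 := EpsZ_D_apply j (n - j)
    have h3' := EpsZ_D_apply j' (n - j')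
    have e3 : n - (j : ℕ) + j = n := by omega
    have e3' : n - (j' : ℕ) + j' = n := by omega
    rw [e3] at h3
    rw [e3'] at h3'
    rw [h3, h3'] at h2
    have h4 : j = j' := Fin.ext (by omega)
    subst h4
    have h5 : emb n g' = emb n g := mul_left_cancel h1
    rw [emb_injective n h5]
  have hbij : Function.Bijective F := by
    rw [Fintype.bijective_iff_injective_and_card]
    refine ⟨hinj, ?_⟩
    rw [Fintype.card_prod, Fintype.card_fin, Fintype.card_perm, Fintype.card_perm, Fintype.card_fin,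
      Fintype.card_fin, Nat.factorial_succ]
  rw [← hbij.sum_comp, Fintype.sum_prod_type, Finset.sum_mul, Finset.sum_range]
  apply Finset.sum_congr rfl
  intro j _
  rw [Finset.mul_sum]
  apply Finset.sum_congr rfl
  intro g _
  have hj := j.2
  rw [hF (j, g), EpsZ_len_D (emb_mem_SS n g) j (n - j) (by omega), mul_add, pow_add]

/-! ### values of the character -/

theorem EpsZ_qn {R : Type} [CommRing R] {q qi : R} (h : q * qi = 1) (n : ℕ) :
    ∑ j ∈ Finset.range n, q ^ (2 * j) = q ^ (n - 1) * qn q qi n := by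
  unfold qn
  rw [Finset.mul_sum, ← Finset.sum_range_reflect]
  apply Finset.sum_congr rfl
  intro j hj
  rw [Finset.mem_range] at hj
  obtain ⟨c, hc⟩ : ∃ c, n - 1 = c + j := ⟨n - 1 - j, by omega⟩
  rw [hc, Nat.add_sub_cancel]
  have : (q * qi) ^ j = 1 := by rw [h, one_pow]
  calc q ^ (2 * c) = q ^ (2 * c) * (q * qi) ^ j := by rw [this, mul_one]
    _ = _ := by rw [mul_pow]; ring

theorem EpsZ_L {R : Type} [CommRing R] {q qi z : R} (h : q * qi = 1)
    (eps : Hk R z →ₐ[R] R) (he : ∀ i, eps (sg i) = q) (n : ℕ) :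
    eps (L n) = q ^ n * qn q qi n := by
  have key : ∀ n, eps (L n : Hk R z) = q * ∑ j ∈ Finset.range n, q ^ (2 * j) := by
    intro n
    induction n with
    | zero => change eps (0 : Hk R z) = _; rw [map_zero, Finset.sum_range_zero, mul_zero]
    | succ n ih =>
      change eps (sg n * L n * sg n + sg n : Hk R z) = _
      rw [map_add, map_mul, map_mul, he, ih, Finset.sum_range_succ', Finset.mul_sum, Finset.mul_sum]
      rw [mul_add, Finset.mul_sum, Finset.sum_mul]
      congr 1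
      · apply Finset.sum_congr rfl
        intro j _
        ring
      · ring
  rw [key, EpsZ_qn h]
  rcases Nat.eq_zero_or_pos n with rfl | hn
  · unfold qn
    simp only [Finset.sum_range_zero, mul_zero]
  · obtain ⟨m, rfl⟩ : ∃ m, n = m + 1 := ⟨n - 1, by omega⟩
    rw [Nat.add_sub_cancel]
    ring

theorem EpsZ_th {R : Type} [CommRing R] {p : ℕ} {q qi z : R} (hg : Good R p q qi z)
    (eps : Hk R z →ₐ[R] R) (he : ∀ i, eps (sg i) = q) :
    ∀ n, n ≤ p → IsUnit (eps (th 0 1 n : Hk R z)) := by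
  have hq : IsUnit q := IsUnit.of_mul_eq_one qi hg.inv
  intro n
  induction n with
  | zero => intro _; change IsUnit (eps (1 : Hk R z)); rw [map_one]; exact isUnit_one
  | succ n ih =>
    intro hn
    cases n with
    | zero => change IsUnit (eps (1 : Hk R z)); rw [map_one]; exact isUnit_one
    | succ n =>
      change IsUnit (eps (th 0 1 (n + 1) * ((0 : R) • 1 + (1 : R) • L (n + 1)) : Hk R z))
      rw [zero_smul, one_smul, zero_add, map_mul, EpsZ_L hg.inv eps he]
      exact (ih (by omega)).mul ((hq.pow _).mul (hg.kunit _ (by omega) (by omega)))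

theorem EpsZ_wd_upw {R : Type} [CommRing R] {q qi z : R} (hz : z = q - qi)
    (eps : Hk R z →ₐ[R] R) (he : ∀ i, eps (sg i) = q) (e : Bool) (a n : ℕ) :
    eps (wd (upw a n e)) = (if e then q else qi) ^ n := by
  unfold wd upw
  rw [List.map_map, map_list_prod, List.map_map]
  have : (List.map (⇑eps ∘ (fun l : ℕ × Bool => (gen l.2 l.1 : Hk R z)) ∘ fun i => (a + i, e)) (List.range n))
      = List.map (fun _ => if e then q else qi) (List.range n) := by
    apply List.map_congr_left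
    intro i _
    change eps (gen e (a + i)) = _
    cases e
    · change eps (sg (a + i) - z • 1 : Hk R z) = qi
      rw [map_sub, he, map_smul, map_one, hz, smul_eq_mul, mul_one, sub_sub_cancel]
    · exact he _
  rw [this, List.map_const', List.prod_replicate, List.length_range]

theorem EpsZ_beta {R : Type} [CommRing R] {q qi z : R} (hz : z = q - qi)
    (eps : Hk R z →ₐ[R] R) (he : ∀ i, eps (sg i) = q) (p : ℕ) :
    eps (betaE p) = qn q qi p := by
  unfold betaE qn
  rw [map_sum, ← Finset.sum_range_reflect]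
  apply Finset.sum_congr rfl
  intro k hk
  rw [Finset.mem_range] at hk
  unfold bet
  rw [wd_append, map_mul, EpsZ_wd_upw hz eps he, EpsZ_wd_upw hz eps he]
  have : p - 1 - (p - 1 - k) = k := by omega
  rw [this]
  rfl

theorem EpsZ_beta_mem {R : Type} [CommRing R] {z : R} (p : ℕ) :
    (betaE p : Hk R z) ∈ (Hs p : Subalgebra R (Hk R z)) := by
  unfold betaE
  apply Subalgebra.sum_mem
  intro k hk
  rw [Finset.mem_range] at hk
  apply wd_mem_Hs
  intro l hl
  unfold bet upw at hl
  rw [List.mem_append, List.mem_map, List.mem_map] at hl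
  rcases hl with ⟨i, hi, rfl⟩ | ⟨i, hi, rfl⟩
  · rw [List.mem_range] at hi
    simp only
    omega
  · rw [List.mem_range] at hi
    simp only
    omega

theorem t_Z (_h1 : S_JM) (h2 : S_markov) (h3 : S_markov_cI) (h4 : S_span) (h5 : S_prim) (_h6 : S_eps) : S_Z := by
  intro R _ p q qi z hg
  have hp : 1 ≤ p := hg.prime.one_lt.le
  obtain ⟨m1, m2, m3, -⟩ := h2 R z 0 1
  obtain ⟨eps, hw⟩ := EpsZ_eps R q qi z hg.inv hg.zdef
  have he : ∀ i, eps (sg i : Hk R z) = q := by
    intro i
    unfold sg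
    rw [hw, EpsZ_len_s, pow_one]
  have hTr : (Tr p (betaE p) : Hk R z) ∈ (Hs p : Subalgebra R (Hk R z)) := Tr_mem_Hs (EpsZ_beta_mem p)
  -- the trace functional
  let g : Hk R z →ₗ[R] R := tau ∘ₗ lmul (Tr p (betaE p) : Hk R z)
  have hg' : ∀ x, g x = tau (Tr p (betaE p) * x : Hk R z) := fun _ => rfl
  let c : R := g (cI (Finset.range (p - 1)))
  have hf : IsTrace p (g - c • (Mk 0 1 p : Hk R z →ₗ[R] R)) := by
    intro x hx y hy
    rw [LinearMap.sub_apply, LinearMap.sub_apply, LinearMap.smul_apply, LinearMap.smul_apply,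
      m1 p x hx y hy]
    congr 1
    rw [hg', hg', ← mul_assoc, tau_comm, ← mul_assoc, ← Tr_mul_comm hy, mul_assoc]
  have hv : ∀ x ∈ (Hs p : Subalgebra R (Hk R z)), (g - c • (Mk 0 1 p : Hk R z →ₗ[R] R)) x = 0 := by
    apply h4 R z R p _ hp hf
    intro I hI
    rw [LinearMap.sub_apply, LinearMap.smul_apply, h3 R z p hp I hI]
    split_ifs with hI'
    · rw [hI', smul_eq_mul, mul_one]
      exact sub_self _
    · rw [smul_zero, sub_zero, hg', tau_Tr]
      obtain ⟨b, l, hb, hl, hbl, y1, hy1, y2, hy2, e⟩ := EpsZ_cI_split (z := z) hI hI'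
      rw [e, ← hbl]
      exact h5 R z b l hb hl y1 hy1 y2 hy2
  have hmem : (Tr p (betaE p) - c • th 0 1 p : Hk R z) ∈ (Hs p : Subalgebra R (Hk R z)) :=
    sub_mem hTr (Subalgebra.smul_mem _ (m2 p) _)
  have hzero : (Tr p (betaE p) - c • th 0 1 p : Hk R z) = 0 := by
    rw [← dual_basis hmem]
    apply Finset.sum_eq_zero
    intro w _
    have := hv (T (emb p w)) (T_mem_Hs (emb_mem_SS p w))
    rw [LinearMap.sub_apply, LinearMap.smul_apply, hg', Mk_apply, tau_comm] at this
    rw [mul_sub, map_sub, mul_smul_comm, map_smul, this, zero_smul]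
  have heq : (Tr p (betaE p) : Hk R z) = c • th 0 1 p := sub_eq_zero.1 hzero
  have h7 : eps (Tr p (betaE p) : Hk R z) = 0 := by
    unfold Tr
    rw [map_sum]
    have e1 : ∀ w : Perm (Fin p), eps (T (emb p w) * betaE p * T (emb p w⁻¹) : Hk R z) =
        qn q qi p * q ^ (2 * EpsZ_len (emb p w)) := by
      intro w
      rw [map_mul, map_mul, EpsZ_beta hg.zdef eps he, hw, hw, map_inv, EpsZ_len_inv]
      ring
    rw [Finset.sum_congr rfl (fun w _ => e1 w), ← Finset.mul_sum]
    obtain ⟨n, rfl⟩ : ∃ n, p = n + 1 := ⟨p - 1, by omega⟩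
    rw [EpsZ_sum, EpsZ_qn hg.inv]
    have := hg.sq
    linear_combination (q ^ (n + 1 - 1) * ∑ g : Perm (Fin n), q ^ (2 * EpsZ_len (emb n g))) * this
  rw [heq, map_smul, smul_eq_mul] at h7
  have h8 := EpsZ_th hg eps he p le_rfl
  have h9 : c = 0 := by
    rwa [IsUnit.mul_left_eq_zero h8] at h7
  rw [heq, h9, zero_smul]

end Pool.Agent.H873
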