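import Pool.Agent.Helper873_Hecke.Stmts

set_option autoImplicit false

namespace Pool.Agent.H873

open Equiv Hk

section ErProj

variable {R : Type} [CommRing R] {z : R}

theorem ErProj_J_comm (h1 : S_JM) (i k : ℕ) : Commute (J i : Hk R z) (J k) := by
  have h := (h1 R z).2.2.1 i k
  have hc : Commute (L i : Hk R z) (L k) := h
  unfold J
  exact ((Commute.one_left _).add_left
    (((Commute.one_right _).add_right (hc.smul_right z)).smul_left z))

theorem ErProj_J_mem (h1 : S_JM) (k : ℕ) : (J k : Hk R z) ∈ (Hs (k + 1) : Subalgebra R (Hk R z)) := by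
  unfold J
  exact add_mem (one_mem _) (Subalgebra.smul_mem _ ((h1 R z).2.1 k) _)

theorem ErProj_sg_J (h1 : S_JM) {i k : ℕ} (h : i ≠ k) (h' : i + 1 ≠ k) :
    Commute (sg i : Hk R z) (J k) := by
  have hc : Commute (sg i : Hk R z) (L k) := (h1 R z).1 i k h h'
  unfold J
  exact (Commute.one_right _).add_right (hc.smul_right z)

theorem ErProj_sg_JJ (h1 : S_JM) (i : ℕ) : Commute (sg i : Hk R z) (J i * J (i + 1)) := by
  have e : (J i * J (i + 1) : Hk R z) = 1 + z • (L i + L (i + 1)) + (z * z) • (L i * L (i + 1)) := by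
    unfold J
    rw [add_mul, mul_add, mul_add, one_mul, one_mul, mul_one, smul_mul_assoc, mul_smul_comm,
      smul_smul, smul_add]
    abel
  have c1 : Commute (sg i : Hk R z) (L i * L (i + 1)) := (h1 R z).2.2.2.2.1 i
  have c2 : Commute (sg i : Hk R z) (L i + L (i + 1)) := (h1 R z).2.2.2.2.2 i
  rw [e]
  exact ((Commute.one_right _).add_right (c2.smul_right z)).add_right (c1.smul_right (z * z))

/-- the product of the `J i`, `i ∈ I` -/
noncomputable def ErProj_JI (hc : ∀ i k : ℕ, Commute (J i : Hk R z) (J k)) (I : Finset ℕ) : Hk R z :=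
  I.noncommProd J (fun i _ k _ _ => hc i k)

theorem ErProj_JI_empty (hc : ∀ i k : ℕ, Commute (J i : Hk R z) (J k)) :
    ErProj_JI hc ∅ = 1 := Finset.noncommProd_empty _ _

theorem ErProj_JI_insert (hc : ∀ i k : ℕ, Commute (J i : Hk R z) (J k)) {i : ℕ} {I : Finset ℕ}
    (hi : i ∉ I) : ErProj_JI hc (insert i I) = J i * ErProj_JI hc I :=
  Finset.noncommProd_insert_of_notMem _ _ _ _ hi

theorem ErProj_JI_commute (hc : ∀ i k : ℕ, Commute (J i : Hk R z) (J k)) {x : Hk R z}
    {I : Finset ℕ} (h : ∀ i ∈ I, Commute x (J i)) : Commute x (ErProj_JI hc I) :=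
  Finset.noncommProd_commute _ _ _ _ h

theorem ErProj_eJ_zero (n : ℕ) : (eJ n 0 : Hk R z) = 1 := by cases n <;> rfl

theorem ErProj_eJ_succ (n r : ℕ) : (eJ (n + 1) (r + 1) : Hk R z) = eJ n (r + 1) + eJ n r * J n := rfl

theorem ErProj_sum_JI (hc : ∀ i k : ℕ, Commute (J i : Hk R z) (J k)) (n : ℕ) :
    ∀ r, ∑ I ∈ (Finset.range n).powersetCard r, ErProj_JI hc I = eJ n r := by
  induction n with
  | zero =>
    intro r
    cases r with
    | zero => rw [Finset.powersetCard_zero, Finset.sum_singleton, ErProj_JI_empty]; rfl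
    | succ r => rw [Finset.powersetCard_eq_empty.2 (by simp), Finset.sum_empty]; rfl
  | succ n ih =>
    intro r
    cases r with
    | zero => rw [Finset.powersetCard_zero, Finset.sum_singleton, ErProj_JI_empty]; rfl
    | succ r =>
      have hn : n ∉ Finset.range n := by simp
      rw [Finset.range_add_one, Finset.powersetCard_succ_insert hn, Finset.sum_union, ih (r + 1),
        Finset.sum_image, ErProj_eJ_succ, ← ih r, Finset.sum_mul]
      · congr 1
        apply Finset.sum_congr rfl
        intro I hI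
        have hI' : n ∉ I := fun h => hn ((Finset.mem_powersetCard.1 hI).1 h)
        rw [ErProj_JI_insert hc hI']
        exact (ErProj_JI_commute hc (fun i _ => hc n i)).eq
      · intro I hI I' hI' e
        have h1 : n ∉ I := fun h => hn ((Finset.mem_powersetCard.1 hI).1 h)
        have h2 : n ∉ I' := fun h => hn ((Finset.mem_powersetCard.1 hI').1 h)
        rw [← Finset.erase_insert h1, ← Finset.erase_insert h2]
        exact congrArg (fun K => K.erase n) e
      · rw [Finset.disjoint_left]
        intro I hI hI'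
        obtain ⟨K, _, rfl⟩ := Finset.mem_image.1 hI'
        exact hn ((Finset.mem_powersetCard.1 hI).1 (Finset.mem_insert_self _ _))

/-- the image of `{0, …, r - 1}` -/
def ErProj_im (r : ℕ) (w : G) : Finset ℕ := (Finset.range r).map w.1.toEmbedding

theorem ErProj_mem_im (r : ℕ) (w : G) (x : ℕ) : x ∈ ErProj_im r w ↔ w⁻¹.1 x < r := by
  unfold ErProj_im
  rw [Finset.mem_map]
  constructor
  · rintro ⟨a, ha, rfl⟩
    change w⁻¹.1 (w.1 a) < r
    rw [pinv]
    exact Finset.mem_range.1 ha
  · intro h
    exact ⟨w⁻¹.1 x, Finset.mem_range.2 h, papp w x⟩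

theorem ErProj_im_card (r : ℕ) (w : G) : (ErProj_im r w).card = r := by
  unfold ErProj_im
  rw [Finset.card_map, Finset.card_range]

/-- the part of `Tr p y` belonging to `I` -/
noncomputable def ErProj_SI (p r : ℕ) (y : Hk R z) (I : Finset ℕ) : Hk R z :=
  ∑ g ∈ Finset.univ.filter (fun g : Perm (Fin p) => ErProj_im r (emb p g) = I),
    T (emb p g) * y * T (emb p g⁻¹)

theorem ErProj_Tr (p r : ℕ) (hr : r ≤ p) (y : Hk R z) :
    Tr p y = ∑ I ∈ (Finset.range p).powersetCard r, ErProj_SI p r y I := by
  unfold Tr ErProj_SI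
  symm
  apply Finset.sum_fiberwise_of_maps_to
  intro g _
  rw [Finset.mem_powersetCard]
  refine ⟨?_, ErProj_im_card _ _⟩
  intro x hx
  rw [ErProj_mem_im] at hx
  rw [Finset.mem_range]
  by_contra hc
  push Not at hc
  have := inv_mem_SS (emb_mem_SS p g) x hc
  rw [this] at hx
  omega

theorem ErProj_SI_step {p r i : ℕ} (hi : i + 1 < p) (y : Hk R z) {I I' : Finset ℕ} (h1 : i ∈ I)
    (h2 : i + 1 ∉ I) (h3 : ∀ x, x ∈ I' ↔ (s i).1 x ∈ I) :
    ErProj_SI p r y I' = sg i * ErProj_SI p r y I * sg i := by
  obtain ⟨t, ht, htt⟩ := s_eq_emb hi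
  have hti : t⁻¹ = t := by rw [inv_eq_iff_mul_eq_one]; exact htt
  unfold ErProj_SI
  rw [Finset.mul_sum, Finset.sum_mul]
  symm
  apply Finset.sum_equiv (Equiv.mulLeft t)
  · intro g
    rw [Finset.mem_filter, Finset.mem_filter]
    simp only [Finset.mem_univ, true_and, Equiv.coe_mulLeft]
    have key : ∀ x, x ∈ ErProj_im r (emb p (t * g)) ↔ (s i).1 x ∈ ErProj_im r (emb p g) := by
      intro x
      rw [ErProj_mem_im, ErProj_mem_im, map_mul, ht, mul_inv_rev, s_inv]
      rfl
    constructor
    · intro h
      ext x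
      rw [key, h, h3]
    · intro h
      ext x
      have e : (s i).1 ((s i).1 x) = x := by
        have := congrArg (fun w : G => w.1 x) (s_sq i)
        exact this
      have := key ((s i).1 x)
      rw [e] at this
      rw [← this, h, h3, e]
  · intro g hg
    have hg' : ErProj_im r (emb p g) = I := (Finset.mem_filter.1 hg).2
    rw [← hg', ErProj_mem_im] at h1
    rw [← hg', ErProj_mem_im] at h2
    have hLA : LA i (emb p g) := by unfold LA; omega
    have hRA : RA i (emb p g⁻¹) := by rw [map_inv, RA_inv]; exact hLA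
    simp only [Equiv.coe_mulLeft]
    rw [mul_inv_rev, hti, map_mul (emb p) t g, map_mul (emb p) g⁻¹ t, ht, ← sg_mul_T_asc hLA,
      ← T_mul_sg_asc hRA]
    simp only [mul_assoc]

/-- `w` preserves `{0, …, r - 1}` -/
def ErProj_pr (r : ℕ) (w : G) : Prop := ∀ x, w.1 x < r ↔ x < r

theorem ErProj_pr_LA {r i : ℕ} {w : G} (h : ErProj_pr r w) (hi : ¬ LA i w) : i + 1 ≠ r := by
  intro e
  apply hi
  unfold LA
  have a := h (w⁻¹.1 i)
  have b := h (w⁻¹.1 (i + 1))
  rw [papp] at a b
  omega

theorem ErProj_pr_s_mul {r i : ℕ} {w : G} (hi : i + 1 ≠ r) : ErProj_pr r (s i * w) ↔ ErProj_pr r w := by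
  have key : ∀ x, (s i * w).1 x < r ↔ w.1 x < r := by
    intro x
    change (s i).1 (w.1 x) < r ↔ _
    rw [s_apply]
    split_ifs <;> omega
  unfold ErProj_pr
  constructor
  · intro h x; rw [← key, h]
  · intro h x; rw [key, h]

theorem ErProj_red {r : ℕ} {l : List ℕ} {w : G} (hl : Red l w) (h : ErProj_pr r w) :
    ∀ i ∈ l, i + 1 ≠ r := by
  induction hl with
  | nil => intro i hi; exact absurd hi (by simp)
  | cons i l w hl' hi ih =>
    have h2 : ¬ LA i (s i * w) := by rw [LA_s_mul]; exact not_not.2 hi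
    have h3 := ErProj_pr_LA h h2
    intro j hj
    rcases List.mem_cons.1 hj with rfl | hj
    · exact h3
    · exact ih ((ErProj_pr_s_mul h3).1 h) j hj

/-- an element commuting with the `sg i`, `i + 1 ≠ r`, commutes with `T w` for `w` preserving
`{0, …, r - 1}` -/
theorem ErProj_commute_T {p r : ℕ} {x : Hk R z}
    (hx : ∀ i, i + 1 < p → i + 1 ≠ r → Commute x (sg i)) {w : G} (hw : w ∈ SS p)
    (h : ErProj_pr r w) : Commute x (T w) := by
  obtain ⟨l, hl, hl2⟩ := exists_red_aux p _ w hw rfl
  have hl3 := ErProj_red hl h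
  rw [T_mul_T_of_red hl]
  clear hl
  induction l with
  | nil => exact Commute.one_right _
  | cons i l ih =>
    rw [List.map_cons, List.prod_cons]
    refine Commute.mul_right (hx i (hl2 i List.mem_cons_self) (hl3 i List.mem_cons_self)) ?_
    exact ih (fun j hj => hl2 j (List.mem_cons_of_mem _ hj))
      (fun j hj => hl3 j (List.mem_cons_of_mem _ hj))

/-- the filter of `vE` -/
theorem ErProj_pr_iff {p r : ℕ} (hr : r ≤ p) (g : Perm (Fin p)) :
    (∀ i : Fin p, (i : ℕ) < r → (g i : ℕ) < r) ↔ ErProj_pr r (emb p g) := by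
  constructor
  · intro h
    have hsub : ErProj_im r (emb p g) ⊆ Finset.range r := by
      intro x hx
      unfold ErProj_im at hx
      obtain ⟨a, ha, rfl⟩ := Finset.mem_map.1 hx
      rw [Finset.mem_range] at ha ⊢
      change (emb p g).1 a < r
      have := h ⟨a, by omega⟩ ha
      rwa [← emb_apply] at this
    have heq : ErProj_im r (emb p g) = Finset.range r :=
      Finset.eq_of_subset_of_card_le hsub (by rw [ErProj_im_card, Finset.card_range])
    intro x
    have h2 := ErProj_mem_im r (emb p g) ((emb p g).1 x)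
    rw [heq, Finset.mem_range, pinv] at h2
    exact h2
  · intro h i hi
    rw [← emb_apply]
    exact (h i).2 hi

theorem ErProj_im_iff (r : ℕ) (w : G) : ErProj_im r w = Finset.range r ↔ ErProj_pr r w := by
  constructor
  · intro h x
    have h2 := ErProj_mem_im r w (w.1 x)
    rw [h, Finset.mem_range, pinv] at h2
    exact h2
  · intro h
    ext x
    rw [ErProj_mem_im, Finset.mem_range]
    have := h (w⁻¹.1 x)
    rw [papp] at this
    exact this.symm

theorem ErProj_vE_commute {p r i : ℕ} (hr : r ≤ p) (hi : i + 1 < p) (hir : i + 1 ≠ r) :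
    Commute (vE p r : Hk R z) (sg i) := by
  classical
  obtain ⟨t, ht, htt⟩ := s_eq_emb hi
  have hti : t⁻¹ = t := by rw [inv_eq_iff_mul_eq_one]; exact htt
  change (vE p r : Hk R z) * sg i = sg i * vE p r
  unfold vE
  rw [Finset.sum_mul, Finset.mul_sum]
  have e1 : ∀ g : Perm (Fin p), (T (emb p g) * T (emb p g⁻¹) * sg i : Hk R z) =
      T (emb p g) * T (emb p (t * g)⁻¹) + if LA i (emb p g) then 0 else
        z • (T (emb p g) * T (emb p g⁻¹) : Hk R z) := by
    intro g
    rw [mul_inv_rev, hti, map_mul (emb p) g⁻¹ t, ht, mul_assoc]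
    have hh : RA i (emb p g⁻¹) ↔ LA i (emb p g) := by rw [map_inv, RA_inv]
    split_ifs with h1
    · rw [T_mul_sg_asc (hh.2 h1), add_zero]
    · rw [T_mul_sg_desc (fun h => h1 (hh.1 h)), mul_add, mul_smul_comm]
  have e2 : ∀ g : Perm (Fin p), (sg i * (T (emb p g) * T (emb p g⁻¹)) : Hk R z) =
      T (emb p (t * g)) * T (emb p g⁻¹) + if LA i (emb p g) then 0 else
        z • (T (emb p g) * T (emb p g⁻¹) : Hk R z) := by
    intro g
    rw [map_mul (emb p) t g, ht, ← mul_assoc]
    split_ifs with h1
    · rw [sg_mul_T_asc h1, add_zero]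
    · rw [sg_mul_T_desc h1, add_mul, smul_mul_assoc]
  rw [Finset.sum_congr rfl (fun g _ => e1 g), Finset.sum_congr rfl (fun g _ => e2 g),
    Finset.sum_add_distrib, Finset.sum_add_distrib]
  congr 1
  apply Finset.sum_equiv (Equiv.mulLeft t)
  · intro g
    simp only [Finset.mem_filter, Finset.mem_univ, true_and, Equiv.coe_mulLeft]
    rw [ErProj_pr_iff hr, ErProj_pr_iff hr, map_mul, ht, ErProj_pr_s_mul hir]
  · intro g _
    simp only [Equiv.coe_mulLeft]
    rw [← mul_assoc, htt, one_mul]

theorem ErProj_down {I : Finset ℕ} (h : ∀ j, j + 1 ∈ I → j ∈ I) : I = Finset.range I.card := by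
  have h1 : ∀ k x, x + k ∈ I → x ∈ I := by
    intro k
    induction k with
    | zero => intro x hx; exact hx
    | succ k ih => intro x hx; exact ih x (h _ hx)
  have h2 : I ⊆ Finset.range I.card := by
    intro x hx
    have : Finset.range (x + 1) ⊆ I := by
      intro y hy
      rw [Finset.mem_range] at hy
      exact h1 (x - y) y (by rwa [show y + (x - y) = x by omega])
    have := Finset.card_le_card this
    rw [Finset.card_range] at this
    rw [Finset.mem_range]
    omega
  exact Finset.eq_of_subset_of_card_le h2 (by rw [Finset.card_range])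

theorem ErProj_main (h1 : S_JM) (hc : ∀ i k : ℕ, Commute (J i : Hk R z) (J k)) {p r : ℕ}
    (y : Hk R z) (hb : ErProj_SI p r y (Finset.range r) = ErProj_JI hc (Finset.range r)) :
    ∀ (n : ℕ) (I : Finset ℕ), I ⊆ Finset.range p → I.card = r → ∑ x ∈ I, x = n →
      ErProj_SI p r y I = ErProj_JI hc I := by
  intro n
  induction n using Nat.strong_induction_on with
  | _ n ih =>
    intro I hI hcard hsum
    by_cases hd : ∀ j, j + 1 ∈ I → j ∈ I
    · have := ErProj_down hd
      rw [hcard] at this
      rw [this, hb]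
    · push Not at hd
      obtain ⟨j, hj1, hj2⟩ := hd
      set K := I.erase (j + 1) with hK
      have hKj : j ∉ K := fun h => hj2 (Finset.mem_of_mem_erase h)
      have hKj1 : j + 1 ∉ K := Finset.notMem_erase _ _
      have hIK : I = insert (j + 1) K := (Finset.insert_erase hj1).symm
      have hjp : j + 1 < p := Finset.mem_range.1 (hI hj1)
      have hsub : insert j K ⊆ Finset.range p := by
        intro x hx
        rcases Finset.mem_insert.1 hx with rfl | hx
        · rw [Finset.mem_range]; omega
        · exact hI (Finset.mem_of_mem_erase hx)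
      have hcard' : (insert j K).card = r := by
        rw [Finset.card_insert_of_notMem hKj, ← hcard, hIK, Finset.card_insert_of_notMem hKj1]
      have hlt : ∑ x ∈ insert j K, x < n := by
        rw [← hsum, hIK, Finset.sum_insert hKj, Finset.sum_insert hKj1]
        omega
      have hrec := ih _ hlt (insert j K) hsub hcard' rfl
      have hstep := ErProj_SI_step (r := r) hjp y (I := insert j K) (I' := I)
        (Finset.mem_insert_self _ _)
        (by
          intro h
          rcases Finset.mem_insert.1 h with h | h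
          · omega
          · exact hKj1 h)
        (by
          intro x
          rw [hIK, Finset.mem_insert, Finset.mem_insert, s_apply]
          by_cases hx1 : x = j
          · subst hx1
            rw [if_pos rfl]
            constructor
            · rintro (h | h)
              · omega
              · exact absurd h hKj
            · rintro (h | h)
              · omega
              · exact absurd h hKj1
          · rw [if_neg hx1]
            by_cases hx2 : x = j + 1
            · rw [if_pos hx2]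
              exact ⟨fun _ => Or.inl rfl, fun _ => Or.inl hx2⟩
            · rw [if_neg hx2]
              constructor
              · rintro (h | h)
                · exact absurd h hx2
                · exact Or.inr h
              · rintro (h | h)
                · exact absurd h hx1
                · exact Or.inr h)
      rw [hstep, hrec, hIK, ErProj_JI_insert hc hKj, ErProj_JI_insert hc hKj1,
        (h1 R z).2.2.2.1 j]
      have hcm : Commute (sg j : Hk R z) (ErProj_JI hc K) := by
        apply ErProj_JI_commute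
        intro i hi
        apply ErProj_sg_J h1
        · intro e; exact hKj (e ▸ hi)
        · intro e; exact hKj1 (e ▸ hi)
      simp only [mul_assoc]
      rw [hcm.eq]

end ErProj

theorem t_er (h1 : S_JM) (h2 : S_v) : S_er := by
  intro R _ z p r hp hPU hr hrp
  have hc : ∀ i k : ℕ, Commute (J i : Hk R z) (J k) := ErProj_J_comm h1
  obtain ⟨v', hv', hvv', hv'v⟩ := h2 R z p r hp hPU hr hrp
  have hrp' : r ≤ p := le_of_lt hrp
  -- commutation
  have hv'c : ∀ i, i + 1 < p → i + 1 ≠ r → Commute v' (sg i : Hk R z) := by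
    intro i hi hir
    have hv := ErProj_vE_commute (R := R) (z := z) hrp' hi hir
    change v' * sg i = sg i * v'
    calc v' * sg i = v' * sg i * (vE p r * v') := by rw [hvv', mul_one]
      _ = v' * (sg i * vE p r) * v' := by simp only [mul_assoc]
      _ = v' * (vE p r * sg i) * v' := by rw [hv.eq]
      _ = (v' * vE p r) * sg i * v' := by simp only [mul_assoc]
      _ = sg i * v' := by rw [hv'v, one_mul]
  have hJc : ∀ i, i + 1 < p → i + 1 ≠ r →
      Commute (ErProj_JI hc (Finset.range r)) (sg i : Hk R z) := by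
    intro i hi hir
    apply Commute.symm
    by_cases hlt : r ≤ i
    · apply ErProj_JI_commute
      intro k hk
      rw [Finset.mem_range] at hk
      exact ErProj_sg_J h1 (by omega) (by omega)
    · have hi1 : i + 1 ∈ Finset.range r := by rw [Finset.mem_range]; omega
      have hi0 : i ∈ (Finset.range r).erase (i + 1) := by
        rw [Finset.mem_erase, Finset.mem_range]; omega
      have e : Finset.range r = insert (i + 1) (insert i (((Finset.range r).erase (i + 1)).erase i)) := by
        rw [Finset.insert_erase hi0, Finset.insert_erase hi1]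
      rw [e, ErProj_JI_insert, ErProj_JI_insert]
      · rw [← mul_assoc, (hc (i + 1) i).eq]
        apply Commute.mul_right (ErProj_sg_JJ h1 i)
        apply ErProj_JI_commute
        intro k hk
        rw [Finset.mem_erase, Finset.mem_erase] at hk
        exact ErProj_sg_J h1 (fun e => hk.1 e.symm) (fun e => hk.2.1 e.symm)
      · exact Finset.notMem_erase _ _
      · intro h
        rcases Finset.mem_insert.1 h with h | h
        · omega
        · exact Finset.notMem_erase (i + 1) (Finset.range r) (Finset.mem_of_mem_erase h)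
  have hyc : ∀ i, i + 1 < p → i + 1 ≠ r →
      Commute (ErProj_JI hc (Finset.range r) * v') (sg i : Hk R z) := fun i hi hir =>
    Commute.mul_left (hJc i hi hir) (hv'c i hi hir)
  have hb : ErProj_SI p r (ErProj_JI hc (Finset.range r) * v') (Finset.range r) =
      ErProj_JI hc (Finset.range r) := by
    have : ErProj_SI p r (ErProj_JI hc (Finset.range r) * v') (Finset.range r) =
        ErProj_JI hc (Finset.range r) * v' * vE p r := by
      unfold ErProj_SI vE
      rw [Finset.mul_sum]
      apply Finset.sum_congr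
      · ext g
        simp only [Finset.mem_filter, Finset.mem_univ, true_and]
        rw [ErProj_im_iff, ErProj_pr_iff hrp']
      · intro g hg
        simp only [Finset.mem_filter, Finset.mem_univ, true_and] at hg
        rw [ErProj_pr_iff hrp'] at hg
        have := ErProj_commute_T hyc (emb_mem_SS p g) hg
        rw [← this.eq, mul_assoc _ (T (emb p g)) (T (emb p g⁻¹))]
    rw [this, mul_assoc, hv'v, mul_one]
  refine ⟨ErProj_JI hc (Finset.range r) * v', ?_, ?_⟩
  · apply mul_mem _ hv'
    have : ∀ I : Finset ℕ, I ⊆ Finset.range p →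
        ErProj_JI hc I ∈ (Hs p : Subalgebra R (Hk R z)) := by
      intro I
      induction I using Finset.induction_on with
      | empty => intro _; rw [ErProj_JI_empty]; exact one_mem _
      | insert a I ha ih =>
        intro hI
        rw [ErProj_JI_insert hc ha]
        have hap : a < p := Finset.mem_range.1 (hI (Finset.mem_insert_self _ _))
        exact mul_mem (Hs_mono (by omega) (ErProj_J_mem h1 a))
          (ih (fun x hx => hI (Finset.mem_insert_of_mem hx)))
    apply this
    intro x hx
    rw [Finset.mem_range] at hx ⊢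
    omega
  · rw [ErProj_Tr p r hrp', ← ErProj_sum_JI hc p r]
    apply Finset.sum_congr rfl
    intro I hI
    rw [Finset.mem_powersetCard] at hI
    exact (ErProj_main h1 hc _ hb _ I hI.1 hI.2 rfl).symm

section ErProj2

variable {R : Type} [CommRing R] {z : R}

theorem ErProj_eJ_gt (n : ℕ) : ∀ r, n < r → (eJ n r : Hk R z) = 0 := by
  induction n with
  | zero =>
    intro r hr
    obtain ⟨k, rfl⟩ : ∃ k, r = k + 1 := ⟨r - 1, by omega⟩
    rfl
  | succ n ih =>
    intro r hr
    obtain ⟨k, rfl⟩ : ∃ k, r = k + 1 := ⟨r - 1, by omega⟩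
    rw [ErProj_eJ_succ, ih (k + 1) (by omega), ih k (by omega), zero_mul, add_zero]

theorem ErProj_rec (c : ℕ → R) (n : ℕ) :
    ∑ r ∈ Finset.range (n + 1 + 1), c r • (eJ (n + 1) r : Hk R z) =
      ∑ r ∈ Finset.range (n + 1), c r • (eJ n r : Hk R z) +
        (∑ r ∈ Finset.range (n + 1), c (r + 1) • (eJ n r : Hk R z)) * J n := by
  have e1 : ∑ r ∈ Finset.range (n + 1), c r • (eJ n r : Hk R z) =
      ∑ r ∈ Finset.range (n + 1 + 1), c r • (eJ n r : Hk R z) := by
    rw [Finset.sum_range_succ _ (n + 1), ErProj_eJ_gt n (n + 1) (by omega), smul_zero, add_zero]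
  rw [e1, Finset.sum_range_succ' _ (n + 1),
    Finset.sum_range_succ' (fun r => c r • (eJ n r : Hk R z)) (n + 1),
    ErProj_eJ_zero, ErProj_eJ_zero, Finset.sum_mul]
  simp only [ErProj_eJ_succ, smul_add, Finset.sum_add_distrib, smul_mul_assoc]
  abel

theorem ErProj_alt (n : ℕ) :
    ∑ r ∈ Finset.range (n + 1 + 1), ((-1 : R) ^ r) • (eJ (n + 1) r : Hk R z) = 0 := by
  have step : ∀ n, ∑ r ∈ Finset.range (n + 1 + 1), ((-1 : R) ^ r) • (eJ (n + 1) r : Hk R z) =
      (∑ r ∈ Finset.range (n + 1), ((-1 : R) ^ r) • (eJ n r : Hk R z)) * (1 - J n) := by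
    intro n
    rw [ErProj_rec, mul_sub, mul_one, sub_eq_add_neg, ← neg_mul, ← Finset.sum_neg_distrib]
    congr 2
    apply Finset.sum_congr rfl
    intro r _
    rw [pow_succ, mul_neg_one, neg_smul]
  induction n with
  | zero =>
    rw [step]
    have : (J 0 : Hk R z) = 1 := by
      unfold J
      change (1 : Hk R z) + z • (0 : Hk R z) = 1
      rw [smul_zero, add_zero]
    rw [this, sub_self, mul_zero]
  | succ n ih => rw [step, ih, zero_mul]

theorem ErProj_W (n : ℕ) :
    ∑ r ∈ Finset.range (n + 1 + 1), ((-1 : R) ^ r * (((n + 1 : ℕ) : R) - (r : R))) •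
      (eJ (n + 1) r : Hk R z) = ((-z) ^ n) • (th 0 1 (n + 1) : Hk R z) := by
  induction n with
  | zero =>
    rw [Finset.sum_range_succ, Finset.sum_range_succ, Finset.sum_range_zero, ErProj_eJ_zero]
    change _ = ((-z) ^ 0) • (1 : Hk R z)
    simp
  | succ n ih =>
    have e : ∀ r ∈ Finset.range (n + 1 + 1),
        ((-1 : R) ^ r * (((n + 1 + 1 : ℕ) : R) - (r : R))) • (eJ (n + 1) r : Hk R z) =
        ((-1 : R) ^ r * (((n + 1 : ℕ) : R) - (r : R))) • (eJ (n + 1) r : Hk R z) +
          ((-1 : R) ^ r) • (eJ (n + 1) r : Hk R z) := by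
      intro r _
      rw [← add_smul]
      congr 1
      push_cast
      ring
    have e' : ∀ r ∈ Finset.range (n + 1 + 1),
        ((-1 : R) ^ (r + 1) * (((n + 1 + 1 : ℕ) : R) - ((r + 1 : ℕ) : R))) •
          (eJ (n + 1) r : Hk R z) =
        -(((-1 : R) ^ r * (((n + 1 : ℕ) : R) - (r : R))) • (eJ (n + 1) r : Hk R z)) := by
      intro r _
      rw [← neg_smul]
      congr 1
      push_cast
      ring
    rw [ErProj_rec (fun r => (-1 : R) ^ r * (((n + 1 + 1 : ℕ) : R) - (r : R))) (n + 1),
      Finset.sum_congr rfl e, Finset.sum_congr rfl e', Finset.sum_add_distrib, ErProj_alt,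
      Finset.sum_neg_distrib, ih]
    have e2 : (th 0 1 (n + 1 + 1) : Hk R z) =
        th 0 1 (n + 1) * ((0 : R) • 1 + (1 : R) • L (n + 1)) := rfl
    have e3 : (J (n + 1) : Hk R z) = 1 + z • L (n + 1) := rfl
    rw [e2, e3, zero_smul, one_smul, zero_add, add_zero, neg_mul, mul_add, mul_one,
      smul_mul_assoc, mul_smul_comm, smul_smul, pow_succ, mul_neg, neg_smul]
    abel

end ErProj2

theorem t_pi (h1 : S_JM) (h2 : S_er) : S_pi := by
  intro R _ z p hp hPU
  have hp0 : 0 < p := hp.pos
  have hY : ∀ r, ∃ y ∈ (Hs p : Subalgebra R (Hk R z)), 0 < r → r < p →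
      (eJ p r : Hk R z) = Tr p y := by
    intro r
    by_cases h : 0 < r ∧ r < p
    · obtain ⟨y, hy, e⟩ := h2 R z p r hp hPU h.1 h.2
      exact ⟨y, hy, fun _ _ => e⟩
    · exact ⟨0, zero_mem _, fun a b => absurd ⟨a, b⟩ h⟩
  choose Y hY1 hY2 using hY
  obtain ⟨m, rfl⟩ : ∃ m, p = m + 1 := ⟨p - 1, by omega⟩
  refine ⟨∑ r ∈ Finset.range m, ((-1 : R) ^ (r + 1) * (((m + 1 : ℕ) : R) - ((r + 1 : ℕ) : R))) •
    Y (r + 1), ?_, ?_⟩
  · apply Subalgebra.sum_mem
    intro r _
    exact Subalgebra.smul_mem _ (hY1 _) _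
  · have hT : Tr (m + 1) (∑ r ∈ Finset.range m,
        ((-1 : R) ^ (r + 1) * (((m + 1 : ℕ) : R) - ((r + 1 : ℕ) : R))) • Y (r + 1)) =
        ∑ r ∈ Finset.range m,
        ((-1 : R) ^ (r + 1) * (((m + 1 : ℕ) : R) - ((r + 1 : ℕ) : R))) •
          (eJ (m + 1) (r + 1) : Hk R z) := by
      change TrL (m + 1) _ = _
      rw [map_sum]
      apply Finset.sum_congr rfl
      intro r hr
      rw [Finset.mem_range] at hr
      rw [map_smul, hY2 (r + 1) (by omega) (by omega)]
      rfl
    rw [hT, Nat.add_sub_cancel, ← ErProj_W, Finset.sum_range_succ, sub_self, mul_zero, zero_smul,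
      add_zero, Finset.sum_range_succ' _ m, ErProj_eJ_zero, add_comm]
    congr 1
    simp

end Pool.Agent.H873
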