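import Pool.Agent.Helper873_Hecke.Stmts2

set_option autoImplicit false

namespace Pool.Agent.H873

open Equiv Hk

theorem EvW_ofW_single {K : Type} [CommRing K] (w : BW) :
    (ofW w : WAlg K) = MonoidAlgebra.single (FreeMonoid.ofList w) 1 := rfl

theorem EvW_single {K : Type} [CommRing K] (m : FreeMonoid (ℕ × Bool)) (r : K) :
    (MonoidAlgebra.single m r : WAlg K) = r • ofW (FreeMonoid.toList m) := by
  rw [EvW_ofW_single, FreeMonoid.ofList_toList, MonoidAlgebra.smul_single, smul_eq_mul, mul_one]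

theorem EvW_ofW_nil {K : Type} [CommRing K] : (ofW [] : WAlg K) = 1 := rfl

theorem EvW_ofW_append {K : Type} [CommRing K] (v w : BW) :
    (ofW (v ++ w) : WAlg K) = ofW v * ofW w := by
  unfold ofW
  rw [← map_mul, FreeMonoid.ofList_append]

theorem EvW_shW_ofW {K : Type} [CommRing K] (k : ℕ) (w : BW) :
    (shW k (ofW w) : WAlg K) = ofW (w.map fun l => (l.1 + k, l.2)) := by
  rw [EvW_ofW_single, EvW_ofW_single]
  unfold shW
  rw [MonoidAlgebra.mapDomainAlgHom_apply, MonoidAlgebra.mapDomain_single]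
  rfl

theorem EvW_induct {K : Type} [CommRing K] {P : WAlg K → Prop} (x : WAlg K) (h0 : P 0)
    (hadd : ∀ x y, P x → P y → P (x + y)) (h1 : ∀ (c : K) (w : BW), P (c • ofW w)) : P x := by
  induction x using MonoidAlgebra.induction_linear with
  | zero => exact h0
  | add x y hx hy => exact hadd x y hx hy
  | single m r =>
    rw [EvW_single]
    exact h1 _ _

theorem EvW_linW_zero {K : Type} [CommRing K] (H : BW → K) : linW H (0 : WAlg K) = 0 := by
  unfold linW
  rw [MonoidAlgebra.coeff_zero, Finsupp.sum_zero_index]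

theorem EvW_linW_add {K : Type} [CommRing K] (H : BW → K) (x y : WAlg K) :
    linW H (x + y) = linW H x + linW H y := by
  unfold linW
  rw [MonoidAlgebra.coeff_add]
  exact Finsupp.sum_add_index' (fun _ => zero_mul _) (fun _ _ _ => add_mul _ _ _)

theorem EvW_linW_smul {K : Type} [CommRing K] (H : BW → K) (c : K) (x : WAlg K) :
    linW H (c • x) = c * linW H x := by
  unfold linW
  rw [MonoidAlgebra.coeff_smul, Finsupp.sum_smul_index (fun _ => zero_mul _), Finsupp.mul_sum]
  exact Finsupp.sum_congr (fun _ _ => mul_assoc _ _ _)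

theorem EvW_linW_ofW {K : Type} [CommRing K] (H : BW → K) (w : BW) :
    linW H (ofW w : WAlg K) = H w := by
  rw [EvW_ofW_single]
  unfold linW
  rw [MonoidAlgebra.coeff_single, Finsupp.sum_single_index (zero_mul _), one_mul,
    FreeMonoid.toList_ofList]

theorem EvW_evW_ofW {K : Type} [CommRing K] (z : K) (w : BW) :
    (evW (ofW w) : Hk K z) = wd w := by
  unfold evW ofW
  rw [MonoidAlgebra.lift_of, FreeMonoid.lift_ofList]
  rfl

theorem t_evW : S_evW := by
  intro K _ z
  refine ⟨EvW_evW_ofW z, ?_, ?_⟩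
  · intro k x
    induction x using EvW_induct with
    | h0 => rw [map_zero, map_zero, map_zero]
    | hadd x y hx hy => rw [map_add, map_add, map_add, map_add, hx, hy]
    | h1 c w =>
      rw [map_smul, map_smul, map_smul, map_smul, EvW_shW_ofW, EvW_evW_ofW, EvW_evW_ofW, sh_wd]
  · intro f x
    induction x using EvW_induct with
    | h0 => rw [EvW_linW_zero, map_zero, map_zero]
    | hadd x y hx hy => rw [EvW_linW_add, map_add, map_add, hx, hy]
    | h1 c w => rw [EvW_linW_smul, EvW_linW_ofW, map_smul, map_smul, EvW_evW_ofW, smul_eq_mul]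

/-- combinations of words on `m` strands -/
noncomputable def EvW_S (K : Type) [CommRing K] (m : ℕ) : Submodule K (WAlg K) :=
  Submodule.span K {x | ∃ v : BW, Valid m v ∧ x = ofW v}

section supp
variable {K : Type} [CommRing K]

theorem EvW_of_mem {m : ℕ} {v : BW} (h : Valid m v) : (ofW v : WAlg K) ∈ EvW_S K m :=
  Submodule.subset_span ⟨v, h, rfl⟩

theorem EvW_one_mem (m : ℕ) : (1 : WAlg K) ∈ EvW_S K m := by
  rw [← EvW_ofW_nil]
  exact EvW_of_mem (fun l hl => by simp at hl)

theorem EvW_mono {m m' : ℕ} (h : m ≤ m') : EvW_S K m ≤ EvW_S K m' := by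
  refine Submodule.span_mono ?_
  rintro x ⟨v, hv, rfl⟩
  exact ⟨v, fun l hl => (hv l hl).trans_le h, rfl⟩

theorem EvW_mul_mem {m : ℕ} {x y : WAlg K} (hx : x ∈ EvW_S K m) (hy : y ∈ EvW_S K m) :
    x * y ∈ EvW_S K m := by
  have h1 : x * y ∈ EvW_S K m * EvW_S K m := Submodule.mul_mem_mul hx hy
  unfold EvW_S at h1
  rw [Submodule.span_mul_span] at h1
  refine Submodule.span_mono ?_ h1
  rintro _ ⟨_, ⟨v, hv, rfl⟩, _, ⟨w, hw, rfl⟩, rfl⟩
  refine ⟨v ++ w, ?_, (EvW_ofW_append v w).symm⟩
  intro l hl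
  rcases List.mem_append.mp hl with h | h
  · exact hv l h
  · exact hw l h

theorem EvW_shW_mem {m k m' : ℕ} {x : WAlg K} (hx : x ∈ EvW_S K m) (h : m + k ≤ m') :
    (shW k x : WAlg K) ∈ EvW_S K m' := by
  unfold EvW_S at hx
  induction hx using Submodule.span_induction with
  | mem x hx =>
    obtain ⟨v, hv, rfl⟩ := hx
    rw [EvW_shW_ofW]
    refine EvW_of_mem ?_
    intro l hl
    obtain ⟨l', hl', rfl⟩ := List.mem_map.mp hl
    have := hv l' hl'
    simp only
    omega
  | zero =>
    rw [map_zero]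
    exact Submodule.zero_mem _
  | add x y _ _ hx hy =>
    rw [map_add]
    exact Submodule.add_mem _ hx hy
  | smul c x _ hx =>
    rw [map_smul]
    exact Submodule.smul_mem _ _ hx

theorem EvW_linW_congr {m : ℕ} {x : WAlg K} (hx : x ∈ EvW_S K m) (H H' : BW → K)
    (h : ∀ v, Valid m v → H v = H' v) : linW H x = linW H' x := by
  unfold EvW_S at hx
  induction hx using Submodule.span_induction with
  | mem x hx =>
    obtain ⟨v, hv, rfl⟩ := hx
    rw [EvW_linW_ofW, EvW_linW_ofW, h v hv]
  | zero => rw [EvW_linW_zero, EvW_linW_zero]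
  | add x y _ _ hx hy => rw [EvW_linW_add, EvW_linW_add, hx, hy]
  | smul c x _ hx => rw [EvW_linW_smul, EvW_linW_smul, hx]

theorem EvW_mem_dnw {a n : ℕ} {e : Bool} {l : ℕ × Bool} (hl : l ∈ dnw a n e) :
    ∃ r < n, l = (a + r, e) := by
  unfold dnw upw at hl
  rw [List.mem_reverse, List.mem_map] at hl
  obtain ⟨r, hr, rfl⟩ := hl
  exact ⟨r, List.mem_range.mp hr, rfl⟩

theorem EvW_symW_mem (x : K) (k : ℕ) : (symW x k : WAlg K) ∈ EvW_S K k := by
  induction k with
  | zero => exact EvW_one_mem 0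
  | succ j ih =>
    unfold symW
    refine EvW_mul_mem (EvW_mono (Nat.le_succ j) ih) ?_
    refine Submodule.sum_mem _ (fun i hi => Submodule.smul_mem _ _ (EvW_of_mem ?_))
    intro l hl
    obtain ⟨r, hr, rfl⟩ := EvW_mem_dnw hl
    have := Finset.mem_range.mp hi
    simp only
    omega

theorem EvW_cab_valid {d n : ℕ} {w : BW} (h : Valid n w) : Valid (d * n) (cab d w) := by
  intro l hl
  unfold cab at hl
  obtain ⟨l', hl', hl⟩ := List.mem_flatMap.mp hl
  unfold xw at hl
  obtain ⟨i, hi, hl⟩ := List.mem_flatMap.mp hl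
  obtain ⟨r, hr, rfl⟩ := EvW_mem_dnw hl
  have h1 := h l' hl'
  have h2 := List.mem_range.mp hi
  have h3 : d * (l'.1 + 2) ≤ d * n := Nat.mul_le_mul_left d (by omega)
  rw [Nat.mul_add] at h3
  simp only
  omega

end supp

theorem t_supp : S_supp := by
  intro K _ q d n w H H' hw hH
  refine EvW_linW_congr ?_ H H' hH
  have hid : ∀ (x : K) (k : ℕ), (idW x k : WAlg K) ∈ EvW_S K k := fun x k =>
    Submodule.smul_mem _ _ (EvW_symW_mem x k)
  have hpow : ∀ d, (powW q d : WAlg K) ∈ EvW_S K d := by
    intro d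
    induction d using Nat.strong_induction_on with
    | _ d ih =>
      rw [powW]
      refine Submodule.sub_mem _ (Submodule.smul_mem _ _ (hid q d))
        (Submodule.sum_mem _ (fun m _ => EvW_mul_mem ?_ ?_))
      · exact EvW_mono m.2.le (ih m m.2)
      · exact EvW_shW_mem (hid q (d - m)) (by have := m.2; omega)
  unfold decW
  refine EvW_mul_mem (EvW_of_mem (EvW_cab_valid hw)) ?_
  have hall : ∀ L : List ℕ, (∀ j ∈ L, j < n) →
      (L.map fun j => (shW (d * j) (powW q d) : WAlg K)).prod ∈ EvW_S K (d * n) := by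
    intro L
    induction L with
    | nil =>
      intro _
      exact EvW_one_mem _
    | cons j L ih =>
      intro hL
      rw [List.map_cons, List.prod_cons]
      refine EvW_mul_mem ?_ (ih (fun i hi => hL i (List.mem_cons_of_mem _ hi)))
      refine EvW_shW_mem (hpow d) ?_
      have h1 : j < n := hL j List.mem_cons_self
      have h2 : d * (j + 1) ≤ d * n := Nat.mul_le_mul_left d h1
      rw [Nat.mul_add] at h2
      omega
  refine hall _ (fun j hj => ?_)
  have h3 : j ∈ comps n w := by simpa using hj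
  classical
  unfold comps at h3
  simp only [Finset.mem_filter, Finset.mem_range] at h3
  exact h3.1

end Pool.Agent.H873
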