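import Pool.Agent.Helper873_Hecke.Stmts2

set_option autoImplicit false

namespace Pool.Agent.H873

open Equiv Hk

theorem Exist_valid_left {n : ℕ} {x y : BW} (h : Valid n (x ++ y)) : Valid n x :=
  fun l hl => h l (List.mem_append_left _ hl)

theorem Exist_valid_right {n : ℕ} {x y : BW} (h : Valid n (x ++ y)) : Valid n y :=
  fun l hl => h l (List.mem_append_right _ hl)

theorem Exist_valid_append {n : ℕ} {x y : BW} (hx : Valid n x) (hy : Valid n y) :
    Valid n (x ++ y) := by
  intro l hl
  rcases List.mem_append.1 hl with h | h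
  · exact hx l h
  · exact hy l h

theorem Exist_valid_cons {n : ℕ} {l : ℕ × Bool} {y : BW} (hl : l.1 + 1 < n) (hy : Valid n y) :
    Valid n (l :: y) := by
  intro m hm
  rcases List.mem_cons.1 hm with rfl | h
  · exact hl
  · exact hy m h

theorem Exist_valid_ins {n : ℕ} {x y : BW} {l : ℕ × Bool} (h : Valid n (x ++ y))
    (hl : l.1 + 1 < n) : Valid n (x ++ l :: y) :=
  Exist_valid_append (Exist_valid_left h) (Exist_valid_cons hl (Exist_valid_right h))

theorem Exist_valid_nil (n : ℕ) : Valid n [] := fun _l hl => absurd hl List.not_mem_nil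

theorem Exist_valid_zero {w : BW} (h : Valid 0 w) : w = [] := by
  cases w with
  | nil => rfl
  | cons l w =>
    have := h l List.mem_cons_self
    omega

section words

variable {R : Type} [CommRing R] {z : R}

theorem Exist_gen_comm {i j : ℕ} (h : i + 2 ≤ j) (e f : Bool) :
    (gen e i * gen f j : Hk R z) = gen f j * gen e i := by
  have h0 : Commute (sg i : Hk R z) (sg j) := sg_comm h
  have h1 : Commute (sgi i : Hk R z) (sg j) := by
    unfold sgi
    exact h0.sub_left ((Commute.one_left _).smul_left z)
  have h2 : Commute (sg i : Hk R z) (sgi j) := by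
    unfold sgi
    exact h0.sub_right ((Commute.one_right _).smul_right z)
  have h3 : Commute (sgi i : Hk R z) (sgi j) := by
    have : (sgi j : Hk R z) = sg j - z • 1 := rfl
    rw [this]
    exact h1.sub_right ((Commute.one_right _).smul_right z)
  cases e <;> cases f
  · exact h3
  · exact h1
  · exact h2
  · exact h0

theorem Exist_wd_far (x y : BW) {i j : ℕ} (e f : Bool) (h : i + 2 ≤ j) :
    (wd (x ++ (i, e) :: (j, f) :: y) : Hk R z) = wd (x ++ (j, f) :: (i, e) :: y) := by
  rw [wd_append, wd_append, wd_cons, wd_cons, wd_cons, wd_cons, ← mul_assoc (gen e i : Hk R z),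
    ← mul_assoc (gen f j : Hk R z), Exist_gen_comm h e f]

theorem Exist_wd_braid (x y : BW) (i : ℕ) :
    (wd (x ++ (i, true) :: (i + 1, true) :: (i, true) :: y) : Hk R z) =
      wd (x ++ (i + 1, true) :: (i, true) :: (i + 1, true) :: y) := by
  rw [wd_append, wd_append]
  congr 1
  rw [wd_cons, wd_cons, wd_cons, wd_cons, wd_cons, wd_cons]
  simp only [gen_true]
  have h := congrArg (fun t : Hk R z => t * wd y) (sg_braid (R := R) (z := z) i)
  simp only [mul_assoc] at h
  exact h

theorem Exist_wd_cancel (x y : BW) (i : ℕ) (e : Bool) :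
    (wd (x ++ (i, e) :: (i, !e) :: y) : Hk R z) = wd (x ++ y) := by
  rw [wd_append, wd_append, wd_cons, wd_cons, ← mul_assoc (gen e i : Hk R z), gen_mul_gen_not,
    one_mul]

theorem Exist_wd_skein (x y : BW) (i : ℕ) :
    (wd (x ++ (i, true) :: y) : Hk R z) - wd (x ++ (i, false) :: y) = z • wd (x ++ y) := by
  rw [wd_append, wd_append, wd_append, wd_cons, wd_cons, ← mul_sub, ← sub_mul]
  simp only [gen_true, gen_false]
  have h : (sg i : Hk R z) - sgi i = z • 1 := by
    unfold sgi
    rw [sub_sub_cancel]
  rw [h, smul_mul_assoc, one_mul, mul_smul_comm]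

end words

theorem t_Mex (h : S_hom) : S_Mex := by
  intro R _ z a ai dl ha hz
  obtain ⟨h1, h2, h3, h4, -, -⟩ := h R z a ai dl ha hz
  refine ⟨?_, ?_, ?_, ?_, ?_, ?_, ?_, ?_⟩
  · exact h2
  · intro n w hw
    exact h3 n _ (wd_mem_Hs hw)
  · intro n x y i j e f hij _
    change hom dl a n (wd (x ++ (i, e) :: (j, f) :: y) : Hk R z) = hom dl a n (wd _ : Hk R z)
    rw [Exist_wd_far x y e f hij]
  · intro n x y i _
    change hom dl a n (wd (x ++ (i, true) :: (i + 1, true) :: (i, true) :: y) : Hk R z) =
      hom dl a n (wd _ : Hk R z)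
    rw [Exist_wd_braid x y i]
  · intro n x y i e _ _
    change hom dl a n (wd (x ++ (i, e) :: (i, !e) :: y) : Hk R z) = hom dl a n (wd _ : Hk R z)
    rw [Exist_wd_cancel x y i e]
  · intro n x y hv
    change hom dl a n (wd (x ++ y) : Hk R z) = hom dl a n (wd (y ++ x) : Hk R z)
    rw [wd_append, wd_append]
    exact h1 n _ (wd_mem_Hs (Exist_valid_left hv)) _ (wd_mem_Hs (Exist_valid_right hv))
  · intro n x y i _ _
    change hom dl a n (wd (x ++ (i, true) :: y) : Hk R z) -
      hom dl a n (wd (x ++ (i, false) :: y) : Hk R z) = z * hom dl a n (wd (x ++ y) : Hk R z)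
    rw [← map_sub, Exist_wd_skein, map_smul, smul_eq_mul]
  · intro n w e hw
    change hom dl a (n + 2) (wd (w ++ [(n, e)]) : Hk R z) =
      (if e then a else ai) * hom dl a (n + 1) (wd w : Hk R z)
    have h5 := h4 n e _ (wd_mem_Hs hw) 1 (one_mem _)
    rw [mul_one, mul_one] at h5
    rw [wd_append, wd_cons, wd_nil, mul_one]
    exact h5

theorem Exist_swap_valid {n : ℕ} {x y : BW} {i j : ℕ} {e f : Bool}
    (h : Valid n (x ++ (i, e) :: (j, f) :: y)) : Valid n (x ++ (j, f) :: (i, e) :: y) := by
  intro l hl
  apply h
  simp only [List.mem_append, List.mem_cons] at hl ⊢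
  tauto

theorem Exist_braid_valid {n : ℕ} {x y : BW} {i : ℕ}
    (h : Valid n (x ++ (i, true) :: (i + 1, true) :: (i, true) :: y)) :
    Valid n (x ++ (i + 1, true) :: (i, true) :: (i + 1, true) :: y) := by
  intro l hl
  apply h
  simp only [List.mem_append, List.mem_cons] at hl ⊢
  tauto

theorem Exist_rot_valid {n : ℕ} {x y : BW} (hx : Valid n x) (hy : ∀ l ∈ y, l.1 + 2 < n) :
    Valid n (x ++ y) ∧ Valid n (y ++ x) := by
  have hy' : Valid n y := fun l hl => by have := hy l hl; omega
  exact ⟨Exist_valid_append hx hy', Exist_valid_append hy' hx⟩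

theorem t_Muniq (h1 : S_IND) : S_Muniq := by
  intro B _ z ap am dl H H' hH hH' n w hw
  rcases Nat.eq_zero_or_pos n with rfl | hn
  · rw [Exist_valid_zero hw, hH.empty, hH'.empty]
  · refine h1 (fun n w => Valid n w → H n w = H' n w) ?_ n w hn hw hw
    refine ⟨?_, ?_, ?_, ?_, ?_, ?_, ?_, ?_⟩
    · intro n x y i j hij hv
      have hv' := Exist_swap_valid hv
      have e1 := hH.far n x y i j true true hij hv
      have e2 := hH'.far n x y i j true true hij hv
      exact ⟨fun h _ => by rw [← e1, ← e2]; exact h hv, fun h _ => by rw [e1, e2]; exact h hv'⟩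
    · intro n x y i hv
      have hv' := Exist_braid_valid hv
      have e1 := hH.braid n x y i hv
      have e2 := hH'.braid n x y i hv
      exact ⟨fun h _ => by rw [← e1, ← e2]; exact h hv, fun h _ => by rw [e1, e2]; exact h hv'⟩
    · intro n x y i hv hi h _
      have e1 := hH.cancel n x y i true hv hi
      have e2 := hH'.cancel n x y i true hv hi
      simp only [Bool.not_true] at e1 e2
      rw [e1, e2]
      exact h hv
    · intro n x y i hv hi h
      have e1 := hH.skein n x y i hv hi
      have e2 := hH'.skein n x y i hv hi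
      have e3 := h hv
      have vt : Valid n (x ++ (i, true) :: y) := Exist_valid_ins hv hi
      have vf : Valid n (x ++ (i, false) :: y) := Exist_valid_ins hv hi
      rw [e3] at e1
      constructor
      · intro h4 _
        have e4 := h4 vt
        linear_combination e4 - e1 + e2
      · intro h4 _
        have e4 := h4 vf
        linear_combination e4 + e1 - e2
    · intro n x y hx hy
      obtain ⟨v1, v2⟩ := Exist_rot_valid hx hy
      have e1 := hH.conj n x y v1
      have e2 := hH'.conj n x y v1
      exact ⟨fun h _ => by rw [← e1, ← e2]; exact h v1, fun h _ => by rw [e1, e2]; exact h v2⟩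
    · intro n w _ hv h _
      rw [hH.circle n w hv, hH'.circle n w hv, h hv]
    · intro n w hv h _
      rw [hH.curl n w true hv, hH'.curl n w true hv, h hv]
    · intro _
      rw [hH.circle 0 [] (Exist_valid_nil 0), hH'.circle 0 [] (Exist_valid_nil 0), hH.empty,
        hH'.empty]

theorem t_Auniq (h1 : S_IND) : S_Auniq := by
  intro B _ Y ap am H H' hH hH' n w hw
  rcases Nat.eq_zero_or_pos n with rfl | hn
  · rw [Exist_valid_zero hw, hH.empty, hH'.empty]
  · refine h1 (fun n w => Valid n w → H n w = H' n w) ?_ n w hn hw hw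
    refine ⟨?_, ?_, ?_, ?_, ?_, ?_, ?_, ?_⟩
    · intro n x y i j hij hv
      have hv' := Exist_swap_valid hv
      have e1 := hH.far n x y i j true true hij hv
      have e2 := hH'.far n x y i j true true hij hv
      exact ⟨fun h _ => by rw [← e1, ← e2]; exact h hv, fun h _ => by rw [e1, e2]; exact h hv'⟩
    · intro n x y i hv
      have hv' := Exist_braid_valid hv
      have e1 := hH.braid n x y i hv
      have e2 := hH'.braid n x y i hv
      exact ⟨fun h _ => by rw [← e1, ← e2]; exact h hv, fun h _ => by rw [e1, e2]; exact h hv'⟩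
    · intro n x y i hv hi h _
      have e1 := hH.cancel n x y i true hv hi
      have e2 := hH'.cancel n x y i true hv hi
      simp only [Bool.not_true] at e1 e2
      rw [e1, e2]
      exact h hv
    · intro n x y i hv hi h
      have e3 := h hv
      have vt : Valid n (x ++ (i, true) :: y) := Exist_valid_ins hv hi
      have vf : Valid n (x ++ (i, false) :: y) := Exist_valid_ins hv hi
      by_cases hs : (prm (y ++ x)).SameCycle i (i + 1)
      · have e1 := hH.skein_diff n x y i hv hi hs
        have e2 := hH'.skein_diff n x y i hv hi hs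
        rw [e3] at e1
        constructor
        · intro h4 _
          have e4 := h4 vt
          linear_combination e4 - e1 + e2
        · intro h4 _
          have e4 := h4 vf
          linear_combination e4 + e1 - e2
      · have e1 := hH.skein_self n x y i hv hi hs
        have e2 := hH'.skein_self n x y i hv hi hs
        rw [e3] at e1
        constructor
        · intro h4 _
          have e4 := h4 vt
          linear_combination e4 - e1 + e2
        · intro h4 _
          have e4 := h4 vf
          linear_combination e4 + e1 - e2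
    · intro n x y hx hy
      obtain ⟨v1, v2⟩ := Exist_rot_valid hx hy
      have e1 := hH.conj n x y v1
      have e2 := hH'.conj n x y v1
      exact ⟨fun h _ => by rw [← e1, ← e2]; exact h v1, fun h _ => by rw [e1, e2]; exact h v2⟩
    · intro n w _ hv h _
      rw [hH.circle n w hv, hH'.circle n w hv, h hv]
    · intro n w hv h _
      rw [hH.curl n w true hv, hH'.curl n w true hv, h hv]
    · intro _
      rw [hH.circle 0 [] (Exist_valid_nil 0), hH'.circle 0 [] (Exist_valid_nil 0), hH.empty,
        hH'.empty]

theorem Exist_prm_append (x y : BW) : prm (x ++ y) = prm x * prm y := by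
  unfold prm
  rw [List.map_append, List.prod_append]

theorem Exist_prm_cons (l : ℕ × Bool) (y : BW) : prm (l :: y) = swap l.1 (l.1 + 1) * prm y := by
  unfold prm
  rw [List.map_cons, List.prod_cons]

theorem Exist_prm_far (x y : BW) {i j : ℕ} (e f : Bool) (h : i + 2 ≤ j) :
    prm (x ++ (i, e) :: (j, f) :: y) = prm (x ++ (j, f) :: (i, e) :: y) := by
  rw [Exist_prm_append, Exist_prm_append, Exist_prm_cons, Exist_prm_cons, Exist_prm_cons,
    Exist_prm_cons, ← mul_assoc (swap i (i + 1)), ← mul_assoc (swap j (j + 1))]
  have : swap i (i + 1) * swap j (j + 1) = swap j (j + 1) * swap i (i + 1) := by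
    apply Perm.Disjoint.commute
    intro x
    by_cases hx : x = i ∨ x = i + 1
    · right
      exact swap_apply_of_ne_of_ne (by omega) (by omega)
    · left
      push Not at hx
      exact swap_apply_of_ne_of_ne hx.1 hx.2
  rw [this]

theorem Exist_prm_braid (x y : BW) (i : ℕ) :
    prm (x ++ (i, true) :: (i + 1, true) :: (i, true) :: y) =
      prm (x ++ (i + 1, true) :: (i, true) :: (i + 1, true) :: y) := by
  rw [Exist_prm_append, Exist_prm_append]
  congr 1
  rw [Exist_prm_cons, Exist_prm_cons, Exist_prm_cons, Exist_prm_cons, Exist_prm_cons,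
    Exist_prm_cons]
  have h : swap i (i + 1) * (swap (i + 1) (i + 1 + 1) * swap i (i + 1)) =
      swap (i + 1) (i + 1 + 1) * (swap i (i + 1) * swap (i + 1) (i + 1 + 1)) :=
    congrArg Subtype.val (s_braid i)
  have h2 := congrArg (fun t : Perm ℕ => t * prm y) h
  simp only [mul_assoc] at h2
  exact h2

theorem Exist_prm_cancel (x y : BW) (i : ℕ) (e : Bool) :
    prm (x ++ (i, e) :: (i, !e) :: y) = prm (x ++ y) := by
  rw [Exist_prm_append, Exist_prm_append, Exist_prm_cons, Exist_prm_cons, ← mul_assoc (swap i _),
    swap_mul_self, one_mul]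

theorem t_AM (h : S_comps) : S_AM := by
  intro R _ z ap am dl H hz hH
  obtain ⟨c1, c2, c3, c4, c5, c6, c7⟩ := h
  refine ⟨?_, ?_, ?_, ?_, ?_, ?_, ?_, ?_, ?_⟩
  · change z ^ (comps 0 []).card * H 0 [] = 1
    rw [c1, pow_zero, one_mul, hH.empty]
  · intro n w hw
    change z ^ (comps (n + 1) w).card * H (n + 1) w = (ap - am) * (z ^ (comps n w).card * H n w)
    rw [c2 n w hw, hH.circle n w hw, ← hz]
    ring
  · intro n x y i j e f hij hv
    change z ^ (comps n _).card * H n _ = z ^ (comps n _).card * H n _
    rw [c3 n _ _ (Exist_prm_far x y e f hij), hH.far n x y i j e f hij hv]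
  · intro n x y i hv
    change z ^ (comps n _).card * H n _ = z ^ (comps n _).card * H n _
    rw [c3 n _ _ (Exist_prm_braid x y i), hH.braid n x y i hv]
  · intro n x y i e hv hi
    change z ^ (comps n _).card * H n _ = z ^ (comps n _).card * H n _
    rw [c3 n _ _ (Exist_prm_cancel x y i e), hH.cancel n x y i e hv hi]
  · intro n x y hv
    change z ^ (comps n _).card * H n _ = z ^ (comps n _).card * H n _
    rw [c4 n x y hv, hH.conj n x y hv]
  · intro n x y i hv hi hs
    change z ^ (comps n (x ++ (i, true) :: y)).card * H n _ -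
      z ^ (comps n (x ++ (i, false) :: y)).card * H n _ = z ^ (comps n (x ++ y)).card * H n _
    have e1 := hH.skein n x y i hv hi
    have e2 := c5 n x y i true hv hi hs
    have e3 := c5 n x y i false hv hi hs
    have e4 : (comps n (x ++ (i, false) :: y)).card = (comps n (x ++ (i, true) :: y)).card := by
      omega
    rw [e4, e2]
    rw [pow_succ]
    linear_combination z ^ (comps n (x ++ (i, true) :: y)).card * e1
  · intro n x y i hv hi hs
    change z ^ (comps n (x ++ (i, true) :: y)).card * H n _ -
      z ^ (comps n (x ++ (i, false) :: y)).card * H n _ =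
        z ^ 2 * (z ^ (comps n (x ++ y)).card * H n _)
    have e1 := hH.skein n x y i hv hi
    rw [c6 n x y i true hv hi hs, c6 n x y i false hv hi hs, pow_succ]
    linear_combination (z ^ (comps n (x ++ y)).card * z) * e1
  · intro n w e hw
    change z ^ (comps (n + 2) (w ++ [(n, e)])).card * H (n + 2) (w ++ [(n, e)]) =
      (if e then ap else am) * (z ^ (comps (n + 1) w).card * H (n + 1) w)
    rw [c7 n w e hw, hH.curl n w e hw]
    ring

end Pool.Agent.H873
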