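import Pool.Agent.Helper873_Hecke.Stmts2

set_option autoImplicit false

/-!
# The main equality, by induction over closed braids
-/

namespace Pool.Agent.H873

open Equiv Hk

theorem FGasm_prm_append (x y : BW) : prm (x ++ y) = prm x * prm y := by
  unfold prm
  rw [List.map_append, List.prod_append]

theorem FGasm_prm_cons (l : ℕ × Bool) (y : BW) : prm (l :: y) = swap l.1 (l.1 + 1) * prm y := by
  unfold prm
  rw [List.map_cons, List.prod_cons]

theorem FGasm_far (x y : BW) (i j : ℕ) (e f : Bool) (h : i + 2 ≤ j) :
    prm (x ++ (i, e) :: (j, f) :: y) = prm (x ++ (j, f) :: (i, e) :: y) := by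
  rw [FGasm_prm_append, FGasm_prm_append, FGasm_prm_cons, FGasm_prm_cons, FGasm_prm_cons,
    FGasm_prm_cons]
  congr 1
  rw [← mul_assoc, ← mul_assoc]
  congr 1
  ext k
  simp only [Perm.mul_apply, swap_apply_def]
  split_ifs <;> omega

theorem FGasm_braid (x y : BW) (i : ℕ) (e1 e2 e3 f1 f2 f3 : Bool) :
    prm (x ++ (i, e1) :: (i + 1, e2) :: (i, e3) :: y) =
      prm (x ++ (i + 1, f1) :: (i, f2) :: (i + 1, f3) :: y) := by
  rw [FGasm_prm_append, FGasm_prm_append, FGasm_prm_cons, FGasm_prm_cons, FGasm_prm_cons,
    FGasm_prm_cons, FGasm_prm_cons, FGasm_prm_cons]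
  congr 1
  rw [← mul_assoc, ← mul_assoc, ← mul_assoc, ← mul_assoc]
  congr 1
  ext k
  simp only [Perm.mul_apply, swap_apply_def]
  split_ifs <;> omega

theorem FGasm_cancel (x y : BW) (i : ℕ) (e f : Bool) :
    prm (x ++ (i, e) :: (i, f) :: y) = prm (x ++ y) := by
  rw [FGasm_prm_append, FGasm_prm_append, FGasm_prm_cons, FGasm_prm_cons]
  congr 1
  rw [← mul_assoc, swap_mul_self, one_mul]

theorem FGasm_transv {n : ℕ} {w w' : BW} (h : prm w = prm w') {js : List ℕ}
    (hjs : Transv n w js) : Transv n w' js := by
  unfold Transv at *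
  rw [← h]
  exact hjs

theorem FGasm_prm_last (w : BW) (i : ℕ) (e f : Bool) :
    prm (w ++ [(i, e)]) = prm (w ++ [(i, f)]) := by
  rw [FGasm_prm_append, FGasm_prm_append]
  rfl

/-- the claim for one word -/
def FGasm_P {R : Type} [CommRing R] (z dl a : R) (p : ℕ) (g : ℕ → BW → R) (n : ℕ) (w : BW) : Prop :=
  Valid n w → ∀ js, Transv n w js → FT z dl a p n w js = (-1) ^ ((p - 1) * w.length) * g n w

section

variable {R : Type} [CommRing R] {z dl a ai : R} {p : ℕ} {g : ℕ → BW → R}

theorem FGasm_congr {n : ℕ} {w w' : BW} (h1 : (wd (cab p w) : Hk R z) = wd (cab p w'))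
    (h2 : prm w = prm w') (hv : Valid n w)
    (h3 : (-1 : R) ^ ((p - 1) * w.length) = (-1) ^ ((p - 1) * w'.length)) (h4 : g n w = g n w')
    (h : FGasm_P z dl a p g n w) : FGasm_P z dl a p g n w' := by
  intro _ js hjs
  have hT : Transv n w js := FGasm_transv h2.symm hjs
  have h5 := h hv js hT
  unfold FT at h5 ⊢
  rw [← h1, ← h3, ← h4]
  exact h5

theorem FGasm_one (h2 : S_FTgen) (ha : a * ai = 1) (hz : z * dl = a - ai) {n : ℕ} {w : BW}
    {js : List ℕ} (hv : Valid n w) (hjs : Transv n w js)
    (h : FT z dl a p n w js = (-1) ^ ((p - 1) * w.length) * g n w) :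
    FGasm_P z dl a p g n w := by
  intro _ js' hjs'
  rw [← h]
  exact (h2 R z dl a ai p n ha hz).1 w js' js hv hjs' hjs

theorem FGasm_rot (h2 : S_FTgen) (h5 : S_transv) (ha : a * ai = 1) (hz : z * dl = a - ai)
    (hg : LRules (a ^ p) (ai ^ p) g) {n : ℕ} {x y : BW} (hv : Valid n (x ++ y))
    (h : FGasm_P z dl a p g n (x ++ y)) : FGasm_P z dl a p g n (y ++ x) := by
  obtain ⟨t1, -, -, -, -, -, -, t8, -, -⟩ := h5
  have hv' : Valid n (y ++ x) := by
    intro l hl
    apply hv l
    rw [List.mem_append] at hl ⊢
    exact hl.symm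
  have hT := t1 n (x ++ y) hv
  have hT' := t8 n x y _ hv hT
  refine FGasm_one h2 ha hz hv' hT' ?_
  rw [← (h2 R z dl a ai p n ha hz).2 x y _ hv hT, h hv _ hT, hg.conj n x y hv]
  congr 3
  rw [List.length_append, List.length_append, add_comm]

end

theorem t_FG (h1 : S_IND) (h2 : S_FTgen) (h3 : S_FTskein) (h4 : S_FTcurl) (h5 : S_transv)
    (h6 : S_cab) : S_FG := by
  intro R _ p q qi z hgood a ai dl ha hz g hg
  obtain ⟨c1, c2, c3⟩ := h6
  obtain ⟨-, c4, c5, c6⟩ := c3 R z p
  have t := h5
  obtain ⟨t1, -, -, t4, t5, t6, t7, t8, t9, t10⟩ := t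
  obtain ⟨u1, u2, u3⟩ := h4 R p q qi z hgood a ai dl ha hz
  have hsk := h3 R p q qi z hgood a ai dl ha hz
  have hrot : ∀ {n : ℕ} {x y : BW}, Valid n (x ++ y) → FGasm_P z dl a p g n (x ++ y) →
      FGasm_P z dl a p g n (y ++ x) := fun hv h => FGasm_rot h2 h5 ha hz hg hv h
  have hswap : ∀ {n : ℕ} {x y : BW}, Valid n (x ++ y) → Valid n (y ++ x) := by
    intro n x y hv l hl
    apply hv l
    rw [List.mem_append] at hl ⊢
    exact hl.symm
  have hsplit : ∀ n w, Valid n w → FGasm_P z dl a p g n w → FGasm_P z dl a p g (n + 1) w := by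
    intro n w hv h
    have hT := t1 n w hv
    have hT' := t7 n w _ hv hT
    have hv' : Valid (n + 1) w := fun l hl => (hv l hl).trans (Nat.lt_succ_self n)
    refine FGasm_one h2 ha hz hv' hT' ?_
    rw [u2 n w _ hv hT.2.1, h hv _ hT, hg.circle n w hv]
    ring
  have hzero : FGasm_P z dl a p g 0 [] := by
    intro _ js hjs
    have : js = [] := by
      rcases js with _ | ⟨j, js⟩
      · rfl
      · exact absurd (hjs.2.1 j List.mem_cons_self) (Nat.not_lt_zero j)
    subst this
    rw [u3, hg.empty]
    simp
  have hsgn : ∀ k : ℕ, (-1 : R) ^ ((p - 1) * (k + 1)) = (-1) ^ ((p - 1) * k) * (-1) ^ (p - 1) := by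
    intro k
    rw [Nat.mul_succ, pow_add]
  have hIND : INDHyp (FGasm_P z dl a p g) := by
    refine ⟨?_, ?_, ?_, ?_, ?_, ?_, ?_, ?_⟩
    · -- far
      intro n x y i j hij hv
      have hv' : Valid n (x ++ (j, true) :: (i, true) :: y) := by
        intro l hl
        apply hv l
        simp only [List.mem_append, List.mem_cons] at hl ⊢
        tauto
      have e1 := c4 x y i j true true hij
      have e2 := FGasm_far x y i j true true hij
      have e4 := hg.far n x y i j true true hij hv
      have e3 : (-1 : R) ^ ((p - 1) * (x ++ (i, true) :: (j, true) :: y).length) =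
          (-1) ^ ((p - 1) * (x ++ (j, true) :: (i, true) :: y).length) := by
        simp only [List.length_append, List.length_cons]
      exact ⟨fun h => FGasm_congr e1 e2 hv e3 e4 h,
        fun h => FGasm_congr e1.symm e2.symm hv' e3.symm e4.symm h⟩
    · -- braid
      intro n x y i hv
      have hv' : Valid n (x ++ (i + 1, true) :: (i, true) :: (i + 1, true) :: y) := by
        intro l hl
        apply hv l
        simp only [List.mem_append, List.mem_cons] at hl ⊢
        tauto
      have e1 := c5 x y i
      have e2 := FGasm_braid x y i true true true true true true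
      have e4 := hg.braid n x y i hv
      have e3 : (-1 : R) ^ ((p - 1) * (x ++ (i, true) :: (i + 1, true) :: (i, true) :: y).length) =
          (-1) ^ ((p - 1) * (x ++ (i + 1, true) :: (i, true) :: (i + 1, true) :: y).length) := by
        simp only [List.length_append, List.length_cons]
      exact ⟨fun h => FGasm_congr e1 e2 hv e3 e4 h,
        fun h => FGasm_congr e1.symm e2.symm hv' e3.symm e4.symm h⟩
    · -- cancel
      intro n x y i hv hi h
      have e1 := c6 x y i true
      have e2 := FGasm_cancel x y i true false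
      have e4 := hg.cancel n x y i true hv hi
      have e3 : (-1 : R) ^ ((p - 1) * (x ++ (i, true) :: (i, false) :: y).length) =
          (-1) ^ ((p - 1) * (x ++ y).length) := by
        have : (x ++ (i, true) :: (i, false) :: y).length = (x ++ y).length + 1 + 1 := by
          simp only [List.length_append, List.length_cons]
          ring
        rw [this, hsgn, hsgn, mul_assoc, ← mul_pow]
        simp
      exact FGasm_congr e1.symm e2.symm hv e3.symm e4.symm h
    · -- skein
      intro n x y i hv hi h
      have hw : FGasm_P z dl a p g n (y ++ x) := hrot hv h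
      have hvw : Valid n (y ++ x) := hswap hv
      have hve : ∀ e : Bool, Valid n ((y ++ x) ++ [(i, e)]) := by
        intro e l hl
        rw [List.mem_append, List.mem_singleton] at hl
        rcases hl with hl | hl
        · exact hvw l hl
        · rw [hl]; exact hi
      have hve' : ∀ e : Bool, Valid n (x ++ (i, e) :: y) := by
        intro e l hl
        rw [List.mem_append, List.mem_cons] at hl
        rcases hl with hl | hl | hl
        · exact hv l (List.mem_append_left _ hl)
        · rw [hl]; exact hi
        · exact hv l (List.mem_append_right _ hl)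
      have hre : ∀ e : Bool, FGasm_P z dl a p g n (x ++ (i, e) :: y) ↔
          FGasm_P z dl a p g n ((y ++ x) ++ [(i, e)]) := by
        intro e
        have q1 : x ++ (i, e) :: y = (x ++ [(i, e)]) ++ y := by simp
        have q2 : (y ++ x) ++ [(i, e)] = y ++ (x ++ [(i, e)]) := by simp
        rw [q1, q2]
        refine ⟨fun h => hrot (by rw [← q1]; exact hve' e) h,
          fun h => hrot (by rw [← q2]; exact hve e) h⟩
      rw [hre true, hre false]
      generalize hwd : y ++ x = w at *
      have hlen : ∀ e : Bool, (w ++ [(i, e)]).length = w.length + 1 := by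
        intro e
        simp
      have hP : ∀ (e : Bool) (js : List ℕ), Transv n (w ++ [(i, e)]) js →
          (FGasm_P z dl a p g n (w ++ [(i, e)]) ↔
            FT z dl a p n (w ++ [(i, e)]) js =
              ((-1) ^ ((p - 1) * w.length) * (-1) ^ (p - 1)) * g n (w ++ [(i, e)])) := by
        intro e js hjs
        rw [← hsgn, ← hlen e]
        exact ⟨fun h => h (hve e) js hjs, fun h => FGasm_one h2 ha hz (hve e) hjs h⟩
      have hvw0 : Valid n (w ++ []) := by rw [List.append_nil]; exact hvw
      by_cases hc : (prm w).SameCycle i (i + 1)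
      · obtain ⟨js, hj1, hj2⟩ := t5 n w i true hvw hi hc
        have hj3 : Transv n (w ++ [(i, false)]) (i :: (i + 1) :: js) :=
          FGasm_transv (FGasm_prm_last w i true false) hj2
        have hF := (hsk n w i js hvw hi).2 hc hj1
        have hG := hg.skein_diff n w [] i hvw0 hi (by rw [List.nil_append]; exact hc)
        rw [hP true _ hj2, hP false _ hj3, hF, hG]
      · obtain ⟨js, hj1, hj2⟩ := t4 n w i true hvw hi hc
        have hj3 : Transv n (w ++ [(i, false)]) (i :: js) :=
          FGasm_transv (FGasm_prm_last w i true false) hj2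
        have hF := (hsk n w i js hvw hi).1 hj1
        have hG := hg.skein_self n w [] i hvw0 hi (by rw [List.nil_append]; exact hc)
        rw [List.append_nil] at hG
        rw [hw hvw _ hj1, ← hG] at hF
        rw [hP true _ hj2, hP false _ hj3]
        constructor
        · intro h7
          rw [h7] at hF
          linear_combination -hF
        · intro h7
          rw [h7] at hF
          linear_combination hF
    · -- rot
      intro n x y hx hy
      have hvy : Valid n y := fun l hl => by have := hy l hl; omega
      have hv : Valid n (x ++ y) := by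
        intro l hl
        rw [List.mem_append] at hl
        exact hl.elim (hx l) (hvy l)
      exact ⟨fun h => hrot hv h, fun h => hrot (hswap hv) h⟩
    · -- split
      intro n w _ hv h
      exact hsplit n w hv h
    · -- curl
      intro n w hv h
      obtain ⟨js, hj1, hj2⟩ := t6 n w true hv
      have hv' : Valid (n + 2) (w ++ [(n, true)]) := by
        intro l hl
        rw [List.mem_append, List.mem_singleton] at hl
        rcases hl with hl | hl
        · exact (hv l hl).trans (Nat.lt_succ_self _)
        · rw [hl]; exact Nat.lt_succ_self _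
      refine FGasm_one h2 ha hz hv' hj2 ?_
      have hlen : (w ++ [(n, true)]).length = w.length + 1 := by simp
      rw [u1 n w true js hv hj1, h hv _ hj1, hg.curl n w true hv, hlen, hsgn]
      simp only [if_true]
      ring
    · -- base
      exact hsplit 0 [] (fun l hl => by simp at hl) hzero
  intro n w js hv hjs
  rcases Nat.eq_zero_or_pos n with hn | hn
  · subst hn
    have hw := t9 w hv
    subst hw
    exact hzero hv js hjs
  · exact h1 _ hIND n w hn hv hv js hjs

end Pool.Agent.H873
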