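import Pool.Agent.Helper873_Hecke.Stmts2

set_option autoImplicit false

namespace Pool.Agent.H873

open Equiv Hk

theorem FTcurl_betaE_mem {R : Type} [CommRing R] {z : R} (p : ℕ) :
    (betaE p : Hk R z) ∈ (Hs p : Subalgebra R (Hk R z)) := by
  unfold betaE
  apply Subalgebra.sum_mem
  intro k hk
  rw [Finset.mem_range] at hk
  apply wd_mem_Hs
  intro l hl
  unfold bet upw at hl
  rw [List.mem_append, List.mem_map, List.mem_map] at hl
  rcases hl with ⟨i, hi, rfl⟩ | ⟨i, hi, rfl⟩
  · rw [List.mem_range] at hi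
    show 0 + i + 1 < p
    omega
  · rw [List.mem_range] at hi
    show 0 + k + i + 1 < p
    omega

theorem FTcurl_ins_cons {R : Type} [CommRing R] {z : R} (p n : ℕ) (js : List ℕ) :
    (ins p (n :: js) : Hk R z) = sh (p * n) (betaE p) * ins p js := by
  unfold ins
  rw [List.map_cons, List.prod_cons]

theorem t_FTcurl (h1 : S_cab) (h2 : S_ins) (h3 : S_hom) (h4 : S_move) (h5 : S_K) (h6 : S_twist) : S_FTcurl := by
  intro R _ p q qi z hG a ai dl haai hz
  obtain ⟨hTr, hh0, _, _, hh5, hh6⟩ := h3 R z a ai dl haai hz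
  obtain ⟨hcabV, hcabA, _⟩ := h1
  obtain ⟨_, _, hinsM, _, hinsC, _⟩ := h2 R z p
  have hp1 : 1 ≤ p := hG.prime.one_le
  refine ⟨?_, ?_, ?_⟩
  · intro n w e js hw hT
    obtain ⟨hnd, hlt, _, huniq⟩ := hT
    have hnjs : n ∉ js := (List.nodup_cons.1 hnd).1
    have hcab1 : cab p (w ++ [(n, e)]) = cab p w ++ xw e (p * n) p p := by
      rw [hcabA]
      congr 1
      unfold cab
      rw [List.flatMap_cons, List.flatMap_nil, List.append_nil]
    have hx : (wd (cab p w) : Hk R z) ∈ (Hs (p * (n + 1)) : Subalgebra R (Hk R z)) :=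
      wd_mem_Hs (hcabV p (n + 1) w hw)
    have hy : (ins p (n :: js) : Hk R z) ∈ (Hs (p * (n + 1)) : Subalgebra R (Hk R z)) :=
      hinsM (n + 1) (n :: js) hlt
    have hC : (ins p js : Hk R z) ∈ (Hs (p * (n + 1)) : Subalgebra R (Hk R z)) :=
      hinsM (n + 1) js (fun j hj => hlt j (List.mem_cons_of_mem _ hj))
    have hcl := hh5 n e p hp1 _ hx _ hy
    -- the functional rho
    let rho : Hk R z →ₗ[R] R := (hom dl a (p * (n + 1)) : Hk R z →ₗ[R] R) ∘ₗ
      rmul (ins p js : Hk R z) ∘ₗ lmul (wd (cab p w) : Hk R z) ∘ₗ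
        ((sh (p * n) : Hk R z →ₐ[R] Hk R z).toLinearMap)
    have hrho : ∀ x : Hk R z, rho x =
        hom dl a (p * (n + 1)) ((wd (cab p w) : Hk R z) * sh (p * n) x * ins p js) := fun x => rfl
    have htr : IsTrace p rho := by
      intro x hx' y hy'
      rw [hrho, hrho]
      refine (h4 R z R p (n + 1) (hom dl a (p * (n + 1))) w (ins p js) (hTr _) hw hC n
        (Nat.lt_succ_self n) ?_).1 x hx' y hy'
      intro k hk b hb
      apply hinsC k js _ b hb
      intro hkjs
      have hnk : n = k := huniq n List.mem_cons_self k (List.mem_cons_of_mem _ hkjs) hk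
      rw [← hnk] at hkjs
      exact hnjs hkjs
    obtain ⟨e0, _, _, hK2, _⟩ := h5 R p q qi z hG
    have hK := hK2 R rho htr e
    rw [hrho, hrho, map_mul (sh (p * n) : Hk R z →ₐ[R] Hk R z)] at hK
    obtain ⟨_, _, htw, _, _⟩ := h6 R z e (p * n) p
    rw [← htw] at hK
    have hE : (wd (cab p w) : Hk R z) * wd (dw e (p * n) p) * ins p (n :: js) =
        wd (cab p w) * (wd (dw e (p * n) p) * sh (p * n) (betaE p)) * ins p js := by
      rw [FTcurl_ins_cons]
      simp only [mul_assoc]
    have hE2 : (wd (cab p w) : Hk R z) * ins p (n :: js) =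
        wd (cab p w) * sh (p * n) (betaE p) * ins p js := by
      rw [FTcurl_ins_cons, mul_assoc]
    unfold FT
    rw [hcab1, wd_append, hcl, hE, hK, hE2, smul_eq_mul]
    ring
  · intro n w js hw hlt
    have hnjs : n ∉ js := fun h => lt_irrefl n (hlt n h)
    have hx1 : (wd (cab p w) : Hk R z) ∈ (Hs (p * n) : Subalgebra R (Hk R z)) :=
      wd_mem_Hs (hcabV p n w hw)
    have hx2 : (ins p js : Hk R z) ∈ (Hs (p * n) : Subalgebra R (Hk R z)) := hinsM n js hlt
    have hE : (wd (cab p w) : Hk R z) * ins p (n :: js) =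
        wd (cab p w) * ins p js * sh (p * n) (betaE p) := by
      rw [FTcurl_ins_cons, hinsC n js hnjs _ (FTcurl_betaE_mem p), mul_assoc]
    have h := hh6 n p hp1 _ (mul_mem hx1 hx2)
    have hgeom := (Commute.all a ai).mul_geom_sum₂ p
    unfold FT
    rw [hE, h, List.length_cons, pow_succ, ← hgeom, ← hz]
    ring
  · unfold FT cab ins
    rw [Nat.mul_zero, List.length_nil, pow_zero, one_mul, List.flatMap_nil, wd_nil, List.map_nil,
      List.prod_nil, mul_one]
    exact hh0

end Pool.Agent.H873
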