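import Pool.Agent.Helper873_Hecke.Stmts2

set_option autoImplicit false

namespace Pool.Agent.H873

open Equiv Hk

section FTskein_sec

variable {R : Type} [CommRing R] {z : R}

/-- the functional of the proof -/
noncomputable def FTskein_Phi (f : Hk R z →ₗ[R] R) (u C : Hk R z) (k : ℕ) : Hk R z →ₗ[R] R :=
  f ∘ₗ rmul C ∘ₗ lmul u ∘ₗ (sh k).toLinearMap

theorem FTskein_Phi_apply (f : Hk R z →ₗ[R] R) (u C : Hk R z) (k : ℕ) (x : Hk R z) :
    FTskein_Phi f u C k x = f (u * sh k x * C) := rfl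

theorem FTskein_ins_cons (p j : ℕ) (js : List ℕ) :
    (ins p (j :: js) : Hk R z) = sh (p * j) (betaE p) * ins p js := by
  unfold ins
  rw [List.map_cons, List.prod_cons]

theorem FTskein_cab (h7 : S_bunch) (p : ℕ) (w : BW) (i : ℕ) (e : Bool) :
    (wd (cab p (w ++ [(i, e)])) : Hk R z) = wd (cab p w) * sh (p * i) (wd (xw e 0 p p)) := by
  have h1 : cab p (w ++ [(i, e)]) = cab p w ++ xw e (p * i) p p := by
    unfold cab
    rw [List.flatMap_append]
    simp
  rw [h1, wd_append, (h7 R z e (p * i) p p).2.2.2.2.2.2]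

theorem FTskein_shsh (p i : ℕ) (x : Hk R z) :
    sh (p * i) (sh p x) = (sh (p * (i + 1)) x : Hk R z) := by
  rw [sh_sh]
  congr 2
  ring

end FTskein_sec

theorem t_FTskein (h1 : S_cab) (h2 : S_ins) (h3 : S_hom) (h4 : S_move) (h5 : S_C1) (h6 : S_C2)
    (h7 : S_bunch) : S_FTskein := by
  intro R _ p q qi z hgood a ai dl haai hz n w i js hw hi
  have hf : IsTrace (p * n) (hom dl a (p * n) : Hk R z →ₗ[R] R) := (h3 R z a ai dl haai hz).1 _
  obtain ⟨-, -, i3, -, i5, -⟩ := h2 R z p
  set f : Hk R z →ₗ[R] R := hom dl a (p * n) with hfdef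
  set u : Hk R z := wd (cab p w) with hu
  set C : Hk R z := ins p js with hC
  have hCmem : (∀ j ∈ js, j < n) → C ∈ (Hs (p * n) : Subalgebra R (Hk R z)) := fun h => i3 n js h
  have hcomm : ∀ i', (∀ k, (prm w).SameCycle i' k → k ∉ js) →
      ∀ k, (prm w).SameCycle i' k → ∀ b ∈ (Hs p : Subalgebra R (Hk R z)),
        sh (p * k) b * C = C * sh (p * k) b := fun i' h k hk b hb => i5 k js (h k hk) b hb
  constructor
  · rintro ⟨hnd, hlt, -, huniq⟩
    have hi_nm : i ∉ (i + 1) :: js := (List.nodup_cons.1 hnd).1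
    have hi_js : i ∉ js := fun h => hi_nm (List.mem_cons_of_mem _ h)
    have hi1_js : i + 1 ∉ js := (List.nodup_cons.1 (List.nodup_cons.1 hnd).2).1
    have hltjs : ∀ j ∈ js, j < n := fun j hj =>
      hlt j (List.mem_cons_of_mem _ (List.mem_cons_of_mem _ hj))
    have hmi : i ∈ i :: (i + 1) :: js := List.mem_cons_self
    have hmi1 : i + 1 ∈ i :: (i + 1) :: js := List.mem_cons_of_mem _ List.mem_cons_self
    have hns : ¬ (prm w).SameCycle i (i + 1) := by
      intro h
      have := huniq i hmi (i + 1) hmi1 h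
      omega
    have hc1 : ∀ k, (prm w).SameCycle i k → k ∉ js := by
      intro k hk hkjs
      have := huniq i hmi k (List.mem_cons_of_mem _ (List.mem_cons_of_mem _ hkjs)) hk
      exact hi_js (this ▸ hkjs)
    have hc2 : ∀ k, (prm w).SameCycle (i + 1) k → k ∉ js := by
      intro k hk hkjs
      have := huniq (i + 1) hmi1 k (List.mem_cons_of_mem _ (List.mem_cons_of_mem _ hkjs)) hk
      exact hi1_js (this ▸ hkjs)
    have m1 := (h4 R z R p n f w C hf hw (hCmem hltjs) i (by omega) (hcomm i hc1)).2.1 hi hns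
    have m2 := (h4 R z R p n f w C hf hw (hCmem hltjs) (i + 1) hi
      (hcomm (i + 1) hc2)).2.2.2.1 i rfl hns
    have key := h6 R p q qi z hgood R (FTskein_Phi f u C (p * i))
      (fun x hx b hb => m1 x hx b hb) (fun x hx b hb => m2 x hx b hb)
    rw [sub_mul, map_sub] at key
    simp only [FTskein_Phi_apply, map_mul, FTskein_shsh, smul_eq_mul] at key
    unfold FT
    rw [FTskein_cab h7, FTskein_cab h7, FTskein_ins_cons, FTskein_ins_cons, FTskein_ins_cons]
    simp only [List.length_cons]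
    rw [← hu, ← hC, ← hfdef]
    simp only [mul_assoc] at key ⊢
    rw [← mul_sub, key]
    ring
  · rintro hsc ⟨hnd, hlt, -, huniq⟩
    have hi_js : i ∉ js := (List.nodup_cons.1 hnd).1
    have hltjs : ∀ j ∈ js, j < n := fun j hj => hlt j (List.mem_cons_of_mem _ hj)
    have hmi : i ∈ i :: js := List.mem_cons_self
    have hc1 : ∀ k, (prm w).SameCycle i k → k ∉ js := by
      intro k hk hkjs
      have := huniq i hmi k (List.mem_cons_of_mem _ hkjs) hk
      exact hi_js (this ▸ hkjs)
    have hc2 : ∀ k, (prm w).SameCycle (i + 1) k → k ∉ js := fun k hk => hc1 k (hsc.trans hk)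
    have m1 := (h4 R z R p n f w C hf hw (hCmem hltjs) i (by omega) (hcomm i hc1)).2.2.1 hi hsc
    have m2 := (h4 R z R p n f w C hf hw (hCmem hltjs) (i + 1) hi
      (hcomm (i + 1) hc2)).2.2.2.2 i rfl hsc
    have key := h5 R p q qi z hgood R (FTskein_Phi f u C (p * i))
      (fun x hx b hb => m1 x hx b hb) (fun x hx b hb => m2 x hx b hb)
    rw [sub_mul, sub_mul, map_sub, sub_eq_zero] at key
    simp only [FTskein_Phi_apply, map_mul, FTskein_shsh] at key
    unfold FT
    rw [FTskein_cab h7, FTskein_cab h7, FTskein_ins_cons, FTskein_ins_cons]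
    rw [← hu, ← hC, ← hfdef]
    simp only [mul_assoc] at key ⊢
    rw [key]

end Pool.Agent.H873
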