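import Pool.Agent.Helper873_Hecke.Stmts2

set_option autoImplicit false

namespace Pool.Agent.H873

open Equiv Hk

open Polynomial in
/-- Gauss: an integral polynomial with constant coefficient prime to `p` is coprime over `ℚ` to a
monic integral polynomial which is a power of `X` modulo `p`. -/
theorem GoodRing_coprime (p : ℕ) (hp : p.Prime) (D V : ℤ[X]) (hD : D.Monic) (d : ℕ)
    (hDp : D.map (Int.castRingHom (ZMod p)) = X ^ d) (hV : ¬ ((p : ℤ) ∣ V.eval 0)) :
    IsCoprime (D.map (algebraMap ℤ ℚ)) (V.map (algebraMap ℤ ℚ)) := by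
  have : Fact p.Prime := ⟨hp⟩
  have hinj : Function.Injective (algebraMap ℤ ℚ) := by
    rw [algebraMap_int_eq]; exact Int.cast_injective
  refine isCoprime_of_irreducible_dvd ?_ ?_
  · rintro ⟨h, -⟩
    exact (hD.map (algebraMap ℤ ℚ)).ne_zero h
  · intro g hg hgD hgV
    obtain ⟨g', hg'⟩ := IsIntegrallyClosed.eq_map_mul_C_of_dvd ℚ hD hgD
    have hlg : g.leadingCoeff ≠ 0 := leadingCoeff_ne_zero.2 hg.ne_zero
    have hmon : (g'.map (algebraMap ℤ ℚ)).Monic := by
      have h1 := congrArg leadingCoeff hg'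
      rw [leadingCoeff_mul, leadingCoeff_C] at h1
      exact mul_right_cancel₀ hlg (h1.trans (one_mul _).symm)
    have hmon' : g'.Monic := monic_of_injective hinj hmon
    have hdvd : g'.map (algebraMap ℤ ℚ) ∣ g := ⟨_, hg'.symm⟩
    have h1 : g' ∣ D := (map_dvd_map _ hinj hmon').1 (hdvd.trans hgD)
    have h2 : g' ∣ V := (map_dvd_map _ hinj hmon').1 (hdvd.trans hgV)
    have hdeg : 0 < g'.natDegree := by
      rw [Nat.pos_iff_ne_zero]
      intro h0
      have h3 : g' = 1 := hmon'.natDegree_eq_zero.1 h0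
      rw [h3, Polynomial.map_one, one_mul] at hg'
      refine hg.not_isUnit ?_
      rw [← hg']
      exact isUnit_C.2 (isUnit_iff_ne_zero.2 hlg)
    set c := Int.castRingHom (ZMod p) with hc
    have h3 : g'.map c ∣ X ^ d := by
      rw [← hDp]
      exact map_dvd c h1
    have h4 : (X : (ZMod p)[X]) ∣ g'.map c := by
      obtain ⟨i, -, hi⟩ := (dvd_prime_pow (prime_X (R := ZMod p)) d).1 h3
      have hi0 : i ≠ 0 := by
        rintro rfl
        rw [pow_zero] at hi
        have h5 := natDegree_eq_zero_of_isUnit (hi.symm.isUnit isUnit_one)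
        rw [hmon'.natDegree_map] at h5
        omega
      exact (dvd_pow_self _ hi0).trans hi.symm.dvd
    have h5 : (X : (ZMod p)[X]) ∣ V.map c := h4.trans (map_dvd c h2)
    rw [X_dvd_iff, coeff_map, coeff_zero_eq_eval_zero] at h5
    exact hV ((ZMod.intCast_zmod_eq_zero_iff_dvd _ p).1 h5)

open Polynomial in
/-- splitting into even and odd parts -/
theorem GoodRing_split (u : ℤ[X]) : ∃ E O : ℤ[X], u = expand ℤ 2 E + X * expand ℤ 2 O := by
  induction u using Polynomial.induction_on with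
  | C a => exact ⟨C a, 0, by simp⟩
  | add p q hp hq =>
    obtain ⟨E, O, h⟩ := hp
    obtain ⟨E', O', h'⟩ := hq
    refine ⟨E + E', O + O', ?_⟩
    rw [h, h', map_add, map_add]
    ring
  | monomial n a h =>
    obtain ⟨E, O, h⟩ := h
    refine ⟨X * O, E, ?_⟩
    rw [pow_succ, ← mul_assoc, h, map_mul, expand_X]
    ring

open Polynomial in
/-- `u(z) u(-z)` is a polynomial in `z²` -/
theorem GoodRing_even {R : Type*} [CommRing R] (z : R) (u : ℤ[X]) :
    ∃ V : ℤ[X], V.eval 0 = u.eval 0 ^ 2 ∧ aeval z u * aeval (-z) u = aeval (z ^ 2) V := by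
  obtain ⟨E, O, h⟩ := GoodRing_split u
  refine ⟨E ^ 2 - X * O ^ 2, ?_, ?_⟩
  · rw [h]
    simp [expand_eval]
  · rw [h]
    simp only [map_add, map_mul, aeval_X, expand_aeval, map_sub, map_pow, neg_sq]
    ring

open Polynomial in
/-- evaluation of integral polynomials, and ring homomorphisms -/
theorem GoodRing_hom {R R' : Type*} [CommRing R] [CommRing R'] (φ : R →+* R') (y : R) (f : ℤ[X]) :
    φ (aeval y f) = aeval (φ y) f := by
  rw [aeval_def, hom_eval₂, aeval_def]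
  congr 1
  exact RingHom.ext_int _ _

open Polynomial in
theorem GoodRing_aeval {R : Type*} [CommRing R] (y : R) (f : ℤ[X]) :
    aeval y f = eval₂RingHom (Int.castRingHom R) y f := by
  rw [aeval_def, coe_eval₂RingHom]
  congr 1

open Polynomial in
theorem GoodRing_mk (D' : ℚ[X]) (f : ℤ[X]) :
    eval₂RingHom (Int.castRingHom (AdjoinRoot D')) (AdjoinRoot.root D') f =
      AdjoinRoot.mk D' (f.map (algebraMap ℤ ℚ)) := by
  have h : eval₂RingHom (Int.castRingHom (AdjoinRoot D')) (AdjoinRoot.root D') =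
      (AdjoinRoot.mk D').comp (mapRingHom (algebraMap ℤ ℚ)) := by
    refine Polynomial.ringHom_ext ?_ ?_
    · intro a
      simp
    · simp
  rw [h]
  rfl

open Polynomial in
/-- the ring `ℚ[Y]/D` -/
theorem GoodRing_R0 (p : ℕ) (hp : p.Prime) (D : ℤ[X]) (hD : D.Monic) (d : ℕ)
    (hDp : D.map (Int.castRingHom (ZMod p)) = X ^ d) (hD0 : D.eval 0 = (p : ℤ) ^ 2) :
    ∃ (R0 : Type) (_ : CommRing R0) (y : R0),
      (∀ V : ℤ[X], ¬ ((p : ℤ) ∣ V.eval 0) → IsUnit (aeval y V)) ∧ IsUnit y ∧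
      ∀ f : ℤ[X], aeval y f = 0 ↔ D ∣ f := by
  have hinj : Function.Injective (algebraMap ℤ ℚ) := by
    rw [algebraMap_int_eq]; exact Int.cast_injective
  have hDy : eval₂RingHom (Int.castRingHom (AdjoinRoot (D.map (algebraMap ℤ ℚ))))
      (AdjoinRoot.root _) D = 0 := by
    rw [GoodRing_mk]; exact AdjoinRoot.mk_self
  refine ⟨AdjoinRoot (D.map (algebraMap ℤ ℚ)), inferInstance, AdjoinRoot.root _, ?_, ?_, ?_⟩
  · intro V hV
    rw [GoodRing_aeval, GoodRing_mk]
    obtain ⟨a, b, hab⟩ := GoodRing_coprime p hp D V hD d hDp hV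
    have h1 := congrArg (AdjoinRoot.mk (D.map (algebraMap ℤ ℚ))) hab
    rw [map_add, map_mul, map_mul, AdjoinRoot.mk_self, mul_zero, zero_add, map_one] at h1
    exact isUnit_iff_exists_inv'.2 ⟨_, h1⟩
  · have h1 : D = X * D.divX + C ((p : ℤ) ^ 2) := by
      rw [← hD0, ← coeff_zero_eq_eval_zero, X_mul_divX_add]
    have h2 : AdjoinRoot.root (D.map (algebraMap ℤ ℚ)) *
        (-(eval₂RingHom (Int.castRingHom (AdjoinRoot (D.map (algebraMap ℤ ℚ))))
          (AdjoinRoot.root _) D.divX)) = (p : AdjoinRoot (D.map (algebraMap ℤ ℚ))) ^ 2 := by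
      have h3 := congrArg (eval₂RingHom (Int.castRingHom (AdjoinRoot (D.map (algebraMap ℤ ℚ))))
          (AdjoinRoot.root _)) h1
      rw [hDy, map_add, map_mul] at h3
      simp only [coe_eval₂RingHom, eval₂_X, eval₂_C] at h3 ⊢
      rw [map_pow, map_natCast] at h3
      linear_combination h3
    have h3 : IsUnit ((p : AdjoinRoot (D.map (algebraMap ℤ ℚ))) ^ 2) := by
      have h4 : (p : AdjoinRoot (D.map (algebraMap ℤ ℚ))) ^ 2 =
          AdjoinRoot.of (D.map (algebraMap ℤ ℚ)) ((p : ℚ) ^ 2) := by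
        rw [map_pow, map_natCast]
      rw [h4]
      refine (IsUnit.mk0 _ ?_).map _
      have : (p : ℚ) ≠ 0 := by exact_mod_cast hp.ne_zero
      positivity
    rw [← h2] at h3
    exact isUnit_of_mul_isUnit_left h3
  · intro f
    rw [GoodRing_aeval, GoodRing_mk, AdjoinRoot.mk_eq_zero]
    exact map_dvd_map _ hinj hD

open Polynomial in
/-- adjoining `q` with `(q - q⁻¹)² = y` -/
theorem GoodRing_R (R0 : Type) [CommRing R0] (y : R0) :
    ∃ (R : Type) (_ : CommRing R) (φ : R0 →+* R) (q qi : R), Function.Injective φ ∧ q * qi = 1 ∧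
      (q - qi) ^ 2 = φ y := by
  have hFm : (X ^ 4 + (- C (y + 2) * X ^ 2 + 1) : R0[X]).Monic := by
    refine monic_X_pow_add ?_
    compute_degree!
  have hFd : Nontrivial R0 → (X ^ 4 + (- C (y + 2) * X ^ 2 + 1) : R0[X]).natDegree = 4 := by
    intro _
    compute_degree!
  have hrel : (AdjoinRoot.root (X ^ 4 + (- C (y + 2) * X ^ 2 + 1) : R0[X])) ^ 4 -
      (AdjoinRoot.of (X ^ 4 + (- C (y + 2) * X ^ 2 + 1) : R0[X]) y + 2) *
      (AdjoinRoot.root (X ^ 4 + (- C (y + 2) * X ^ 2 + 1) : R0[X])) ^ 2 + 1 = 0 := by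
    have h1 : AdjoinRoot.mk (X ^ 4 + (- C (y + 2) * X ^ 2 + 1) : R0[X])
      (X ^ 4 + (- C (y + 2) * X ^ 2 + 1) : R0[X]) = 0 := AdjoinRoot.mk_self
    have h2 : ∀ G : R0[X], AdjoinRoot.mk G (X ^ 4 + (- C (y + 2) * X ^ 2 + 1) : R0[X]) =
        AdjoinRoot.root G ^ 4 + (-(AdjoinRoot.of G y + 2) * AdjoinRoot.root G ^ 2 + 1) := by
      intro G
      rw [map_add, map_add, map_mul, map_neg, map_pow, map_pow, map_one, AdjoinRoot.mk_X,
        AdjoinRoot.mk_C, map_add, map_ofNat]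
    rw [h2] at h1
    linear_combination h1
  have hinj : Function.Injective (AdjoinRoot.of (X ^ 4 + (- C (y + 2) * X ^ 2 + 1) : R0[X])) := by
    rw [injective_iff_map_eq_zero]
    intro a ha
    by_contra hne
    have hn : Nontrivial R0 := ⟨⟨a, 0, hne⟩⟩
    have h1 : (X ^ 4 + (- C (y + 2) * X ^ 2 + 1) : R0[X]) ∣ C a := AdjoinRoot.mk_eq_zero.1 ha
    refine hFm.not_dvd_of_natDegree_lt (C_ne_zero.2 hne) ?_ h1
    rw [natDegree_C, hFd hn]
    norm_num
  generalize (X ^ 4 + (- C (y + 2) * X ^ 2 + 1) : R0[X]) = F at hrel hinj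
  generalize hq : AdjoinRoot.root F = q at hrel
  generalize hφ : AdjoinRoot.of F = φ at hrel hinj
  have hinv : q * (-q ^ 3 + (φ y + 2) * q) = 1 := by linear_combination -hrel
  refine ⟨AdjoinRoot F, inferInstance, φ, q, -q ^ 3 + (φ y + 2) * q, hinj, hinv, ?_⟩
  generalize -q ^ 3 + (φ y + 2) * q = qi at hinv
  have h1 : q ^ 2 * qi ^ 2 = 1 := by
    calc q ^ 2 * qi ^ 2 = (q * qi) ^ 2 := by ring
      _ = 1 := by rw [hinv, one_pow]
  linear_combination (qi ^ 2) * hrel - (q ^ 2 - (φ y + 2)) * h1 - 2 * hinv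

open Polynomial in
theorem t_good (h : S_DD) : S_good := by
  intro p hp
  obtain ⟨hD1, hD2, hD3, hD4⟩ := h
  have hp1 : p - 1 + 1 = p := Nat.succ_pred_eq_of_pos hp.pos
  have hDm : (DD p).Monic := by
    have := (hD2 (p - 1)).1
    rwa [hp1] at this
  obtain ⟨R0, _, y, hunit, hyunit, hker⟩ :=
    GoodRing_R0 p hp (DD p) hDm (p - 1) (hD4 p hp) (hD3 p)
  obtain ⟨R, _, φ, q, qi, hφ, hinv, hz2⟩ := GoodRing_R R0 y
  have hdeg : ∀ f : ℤ[X], aeval ((q - qi) ^ 2) f = φ (aeval y f) := by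
    intro f
    rw [GoodRing_hom, hz2]
  refine ⟨R, inferInstance, q, qi, q - qi, ⟨hp, hinv, rfl, ?_, ?_, ?_, ?_⟩, ?_⟩
  · intro u hu
    obtain ⟨V, hV0, hV⟩ := GoodRing_even (q - qi) u
    have h1 : IsUnit (aeval ((q - qi) ^ 2) V) := by
      rw [hdeg]
      refine (hunit V ?_).map φ
      rw [hV0]
      intro h2
      exact hu ((Nat.prime_iff_prime_int.1 hp).dvd_of_dvd_pow h2)
    rw [← hV] at h1
    exact isUnit_of_mul_isUnit_left h1
  · have h1 : IsUnit ((q - qi) ^ 2) := by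
      rw [hz2]; exact hyunit.map φ
    exact (isUnit_pow_iff two_ne_zero).1 h1
  · intro k hk hkp
    have h1 : IsUnit (qn q qi k ^ 2) := by
      rw [(hD1 R q qi hinv k).1, hdeg]
      refine (hunit _ ?_).map φ
      rw [hD3]
      intro h2
      have h3 := (Nat.prime_iff_prime_int.1 hp).dvd_of_dvd_pow h2
      have h4 := Nat.le_of_dvd hk (Int.natCast_dvd_natCast.1 h3)
      omega
    exact (isUnit_pow_iff two_ne_zero).1 h1
  · rw [(hD1 R q qi hinv p).1, hdeg, (hker _).2 dvd_rfl, map_zero]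
  · intro f hf
    rw [hdeg] at hf
    exact (hker f).1 (hφ (hf.trans (map_zero φ).symm))

end Pool.Agent.H873
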