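import Pool.Agent.Helper873_Hecke.Stmts2

set_option autoImplicit false

namespace Pool.Agent.H873

open Equiv Hk

theorem Hom_zero {R : Type} [CommRing R] {z : R} (dl a : R) :
    (hom dl a 0 : Hk R z →ₗ[R] R) = tau := if_pos rfl

theorem Hom_pos {R : Type} [CommRing R] {z : R} (dl a : R) {n : ℕ} (h : n ≠ 0) :
    (hom dl a n : Hk R z →ₗ[R] R) = dl • Mk dl a n := if_neg h

theorem Hom_apply {R : Type} [CommRing R] {z : R} (dl a : R) {n : ℕ} (h : n ≠ 0) (x : Hk R z) :
    hom dl a n x = dl * Mk dl a n x := by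
  rw [Hom_pos dl a h, LinearMap.smul_apply, smul_eq_mul]

theorem Hom_tau_one {R : Type} [CommRing R] {z : R} : tau (1 : Hk R z) = 1 := by
  classical
  change tau (T 1 : Hk R z) = 1
  rw [tau_T, if_pos rfl]

theorem Hom_mem_zero {R : Type} [CommRing R] {z : R} {x : Hk R z}
    (hx : x ∈ (Hs 0 : Subalgebra R (Hk R z))) : ∃ c : R, x = c • (1 : Hk R z) := by
  refine Hs_induction (P := fun x => ∃ c : R, x = c • (1 : Hk R z)) ?_ ?_ ?_ ?_ hx
  · exact ⟨1, (one_smul R (1 : Hk R z)).symm⟩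
  · rintro x _ y _ ⟨c, rfl⟩ ⟨d, rfl⟩
    exact ⟨c + d, (add_smul c d (1 : Hk R z)).symm⟩
  · rintro r x _ ⟨c, rfl⟩
    exact ⟨r * c, (mul_smul r c (1 : Hk R z)).symm⟩
  · intro i hi
    exact absurd hi (by omega)

theorem Hom_apm {R : Type} [CommRing R] {z a ai dl : R} (hz : z * dl = a - ai) (e : Bool) :
    apm z dl a e = if e then a else ai := by
  unfold apm
  cases e
  · simp only [Bool.false_eq_true, if_false]
    rw [hz, sub_sub_cancel]
  · rfl

theorem t_hom (h1 : S_markov) (h2 : S_markov_beta) (h3 : S_close) : S_hom := by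
  intro R _ z a ai dl ha hz
  obtain ⟨m1, -, -, -, m5, m6⟩ := h1 R z dl a
  have hai : a - z * dl = ai := by rw [hz, sub_sub_cancel]
  refine ⟨?_, ?_, ?_, ?_, ?_, ?_⟩
  · intro n
    rcases Nat.eq_zero_or_pos n with rfl | hn
    · rw [Hom_zero]
      exact isTrace_tau 0
    · intro x hx y hy
      rw [Hom_apply dl a hn.ne', Hom_apply dl a hn.ne', m1 n x hx y hy]
  · rw [Hom_zero]
    exact Hom_tau_one
  · intro n x hx
    rcases n with _ | n
    · rw [Hom_apply dl a (by omega : 0 + 1 ≠ 0), Hom_zero, Mk_apply]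
      congr 1
      change tau (x * (1 : Hk R z)) = tau x
      rw [mul_one]
    · rw [Hom_apply dl a (by omega : n + 1 + 1 ≠ 0), Hom_apply dl a (by omega : n + 1 ≠ 0)]
      congr 1
      exact m5 n x hx
  · intro n e x hx y hy
    rw [Hom_apply dl a (by omega : n + 2 ≠ 0), Hom_apply dl a (by omega : n + 1 ≠ 0),
      m6 n e x hx y hy, Hom_apm hz]
    ring
  · intro n e p hp x hx y hy
    have e1 : p * (n + 2) = p * (n + 1) + p := by ring
    have e2 : p * (n + 1) - p = p * n := by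
      rw [Nat.mul_succ, Nat.add_sub_cancel]
    have hle : p ≤ p * (n + 1) := Nat.le_mul_of_pos_right p (by omega)
    have h4 := h3 R z dl a e (p * (n + 1)) p hle x hx y hy
    rw [e2] at h4
    rw [e1, Hom_apply dl a (by omega : p * (n + 1) + p ≠ 0),
      Hom_apply dl a (by omega : p * (n + 1) ≠ 0), h4, Hom_apm hz]
    ring
  · intro n p hp x hx
    obtain ⟨b1, b2⟩ := h2 R z dl a p hp
    rw [hai] at b1 b2
    rcases n with _ | n
    · have hx' : x ∈ (Hs 0 : Subalgebra R (Hk R z)) := hx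
      obtain ⟨c, rfl⟩ := Hom_mem_zero hx'
      have e1 : p * (0 + 1) = p := by ring
      have e2 : p * 0 = 0 := rfl
      rw [e1, e2, Hom_apply dl a (by omega : p ≠ 0), Hom_zero, sh_zero, smul_mul_assoc, one_mul,
        map_smul, map_smul, b1, Hom_tau_one, smul_eq_mul, smul_eq_mul]
      ring
    · obtain ⟨k, hk⟩ : ∃ k, p * (n + 1) = k + 1 := ⟨p * (n + 1) - 1, by
        have : 1 ≤ p * (n + 1) := Nat.one_le_iff_ne_zero.2 (by positivity)
        omega⟩
      have e1 : p * (n + 1 + 1) = k + 1 + p := by rw [← hk]; ring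
      rw [hk] at hx
      rw [e1, hk, Hom_apply dl a (by omega : k + 1 + p ≠ 0), Hom_apply dl a (by omega : k + 1 ≠ 0),
        b2 k x hx]
      ring

end Pool.Agent.H873
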