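import Pool.Agent.Helper873_Hecke.Stmts

set_option autoImplicit false

namespace Pool.Agent.H873

open Equiv Hk

/-- elementary moves of positive braid words (unsigned words) -/
inductive IND_Step : List ℕ → List ℕ → Prop
  | far (x y : List ℕ) (i j : ℕ) (h : i + 2 ≤ j) : IND_Step (x ++ i :: j :: y) (x ++ j :: i :: y)
  | braid (x y : List ℕ) (i : ℕ) :
      IND_Step (x ++ i :: (i + 1) :: i :: y) (x ++ (i + 1) :: i :: (i + 1) :: y)

/-- equivalence of positive braid words -/
def IND_Eqv : List ℕ → List ℕ → Prop := Relation.EqvGen IND_Step

theorem IND_refl (u : List ℕ) : IND_Eqv u u := Relation.EqvGen.refl u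

theorem IND_symm {u v : List ℕ} (h : IND_Eqv u v) : IND_Eqv v u := Relation.EqvGen.symm _ _ h

theorem IND_trans {u v w : List ℕ} (h : IND_Eqv u v) (h' : IND_Eqv v w) : IND_Eqv u w :=
  Relation.EqvGen.trans _ _ _ h h'

theorem IND_step {u v : List ℕ} (h : IND_Step u v) : IND_Eqv u v := Relation.EqvGen.rel _ _ h

theorem IND_ctx (a b : List ℕ) {u v : List ℕ} (h : IND_Eqv u v) :
    IND_Eqv (a ++ u ++ b) (a ++ v ++ b) := by
  induction h with
  | rel u v h =>
    apply IND_step
    cases h with
    | far x y i j h =>
      have := IND_Step.far (a ++ x) (y ++ b) i j h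
      simpa using this
    | braid x y i =>
      have := IND_Step.braid (a ++ x) (y ++ b) i
      simpa using this
  | refl u => exact IND_refl _
  | symm u v _ ih => exact IND_symm ih
  | trans u v w _ _ ih1 ih2 => exact IND_trans ih1 ih2

theorem IND_length {u v : List ℕ} (h : IND_Eqv u v) : u.length = v.length := by
  induction h with
  | rel u v h => cases h <;> simp
  | refl u => rfl
  | symm u v _ ih => exact ih.symm
  | trans u v w _ _ ih1 ih2 => exact ih1.trans ih2

theorem IND_bound (k : ℕ) {u v : List ℕ} (h : IND_Eqv u v) :
    (∀ a ∈ u, a < k) ↔ (∀ a ∈ v, a < k) := by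
  induction h with
  | rel u v h =>
    cases h with
    | far x y i j h =>
      constructor
      · intro h a ha
        apply h
        simp only [List.mem_append, List.mem_cons] at ha ⊢
        tauto
      · intro h a ha
        apply h
        simp only [List.mem_append, List.mem_cons] at ha ⊢
        tauto
    | braid x y i =>
      constructor
      · intro h a ha
        apply h
        simp only [List.mem_append, List.mem_cons] at ha ⊢
        tauto
      · intro h a ha
        apply h
        simp only [List.mem_append, List.mem_cons] at ha ⊢
        tauto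
  | refl u => rfl
  | symm u v _ ih => exact ih.symm
  | trans u v w _ _ ih1 ih2 => exact ih1.trans ih2

/-- the word contains a square -/
def IND_Dbl (u : List ℕ) : Prop := ∃ (x y : List ℕ) (i : ℕ), u = x ++ i :: i :: y

/-- a letter commutes with a word in far smaller letters -/
theorem IND_comm (k : ℕ) (v : List ℕ) (hv : ∀ a ∈ v, a + 2 ≤ k) :
    IND_Eqv (k :: v) (v ++ [k]) := by
  induction v with
  | nil => exact IND_refl _
  | cons b v ih =>
    have h1 : IND_Eqv (k :: b :: v) (b :: k :: v) :=
      IND_symm (IND_step (IND_Step.far [] v b k (hv b (by simp))))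
    have h2 : IND_Eqv (k :: v) (v ++ [k]) := ih fun a ha => hv a (by simp [ha])
    have h3 := IND_ctx [b] [] h2
    simp only [List.append_nil, List.cons_append, List.nil_append] at h3
    simpa using IND_trans h1 h3

theorem IND_split2 (k : ℕ) (u : List ℕ) (h : 2 ≤ u.count k) :
    ∃ x v y : List ℕ, u = x ++ k :: (v ++ k :: y) ∧ k ∉ v := by
  have h1 : k ∈ u := by
    rw [← List.count_pos_iff]; omega
  obtain ⟨x, u', rfl, hx⟩ := List.eq_append_cons_of_mem h1
  have h2 : k ∈ u' := by
    rw [← List.count_pos_iff]
    rw [List.count_append, List.count_cons_self, List.count_eq_zero_of_not_mem hx] at h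
    omega
  obtain ⟨v, y, rfl, hv⟩ := List.eq_append_cons_of_mem h2
  exact ⟨x, v, y, rfl, hv⟩

/-- the word lemma -/
theorem IND_word (k : ℕ) : ∀ (c : ℕ) (u : List ℕ), u.count k ≤ c → (∀ a ∈ u, a < k + 1) →
    ∃ v, IND_Eqv u v ∧ (IND_Dbl v ∨ v.count k ≤ 1) := by
  induction k with
  | zero =>
    intro c u _ hu
    by_cases h : u.count 0 ≤ 1
    · exact ⟨u, IND_refl u, Or.inr h⟩
    · obtain ⟨x, v, y, rfl, hv⟩ := IND_split2 0 u (by omega)
      have hv0 : v = [] := by
        cases v with
        | nil => rfl
        | cons b v =>
          have h1 : b < 0 + 1 := hu b (by simp)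
          have h2 : b ≠ 0 := by rintro rfl; exact hv (by simp)
          omega
      subst hv0
      exact ⟨_, IND_refl _, Or.inl ⟨x, y, 0, rfl⟩⟩
  | succ k ihk =>
    intro c
    induction c with
    | zero =>
      intro u hc _
      exact ⟨u, IND_refl u, Or.inr (by omega)⟩
    | succ c ihc =>
      intro u hc hu
      by_cases h : u.count (k + 1) ≤ 1
      · exact ⟨u, IND_refl u, Or.inr h⟩
      · obtain ⟨x, v, y, rfl, hv⟩ := IND_split2 (k + 1) u (by omega)
        have hvk : ∀ a ∈ v, a < k + 1 := by
          intro a ha
          have h1 : a < k + 1 + 1 := hu a (by simp [ha])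
          have h2 : a ≠ k + 1 := by rintro rfl; exact hv ha
          omega
        obtain ⟨v', hvv', hd⟩ := ihk (v.count k) v le_rfl hvk
        have hv'k : ∀ a ∈ v', a < k + 1 := (IND_bound (k + 1) hvv').1 hvk
        have hE : IND_Eqv (x ++ (k + 1) :: (v ++ (k + 1) :: y))
            (x ++ (k + 1) :: (v' ++ (k + 1) :: y)) := by
          have := IND_ctx (x ++ [k + 1]) ((k + 1) :: y) hvv'
          simpa using this
        rcases hd with ⟨x1, y1, i, rfl⟩ | hcnt
        · refine ⟨_, hE, Or.inl ⟨x ++ (k + 1) :: x1, y1 ++ (k + 1) :: y, i, by simp⟩⟩
        · by_cases h0 : v'.count k = 0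
          · have hnk : k ∉ v' := List.count_eq_zero.1 h0
            have hfar : ∀ a ∈ v', a + 2 ≤ k + 1 := by
              intro a ha
              have h1 := hv'k a ha
              have h2 : a ≠ k := by rintro rfl; exact hnk ha
              omega
            have hcm := IND_ctx x ((k + 1) :: y) (IND_comm (k + 1) v' hfar)
            refine ⟨x ++ v' ++ (k + 1) :: (k + 1) :: y, IND_trans hE ?_,
              Or.inl ⟨x ++ v', y, k + 1, rfl⟩⟩
            simpa using hcm
          · have h1 : k ∈ v' := by rw [← List.count_pos_iff]; omega
            obtain ⟨v1, v2, rfl, hv1⟩ := List.eq_append_cons_of_mem h1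
            have hv2 : k ∉ v2 := by
              rw [List.count_append, List.count_cons_self,
                List.count_eq_zero_of_not_mem hv1] at hcnt
              rw [← List.count_eq_zero]
              omega
            have hf1 : ∀ a ∈ v1, a + 2 ≤ k + 1 := by
              intro a ha
              have h1 := hv'k a (by simp [ha])
              have h2 : a ≠ k := by rintro rfl; exact hv1 ha
              omega
            have hf2 : ∀ a ∈ v2, a + 2 ≤ k + 1 := by
              intro a ha
              have h1 := hv'k a (by simp [ha])
              have h2 : a ≠ k := by rintro rfl; exact hv2 ha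
              omega
            -- move the first letter to the right and the last one to the left
            have e1 : IND_Eqv (x ++ (k + 1) :: (v1 ++ k :: v2 ++ (k + 1) :: y))
                (x ++ v1 ++ (k + 1) :: k :: (v2 ++ (k + 1) :: y)) := by
              have := IND_ctx x (k :: (v2 ++ (k + 1) :: y)) (IND_comm (k + 1) v1 hf1)
              simpa using this
            have e2 : IND_Eqv (x ++ v1 ++ (k + 1) :: k :: (v2 ++ (k + 1) :: y))
                (x ++ v1 ++ (k + 1) :: k :: (k + 1) :: (v2 ++ y)) := by
              have := IND_ctx (x ++ v1 ++ [k + 1, k]) y (IND_symm (IND_comm (k + 1) v2 hf2))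
              simpa using this
            have e3 : IND_Eqv (x ++ v1 ++ (k + 1) :: k :: (k + 1) :: (v2 ++ y))
                (x ++ v1 ++ k :: (k + 1) :: k :: (v2 ++ y)) :=
              IND_symm (IND_step (IND_Step.braid (x ++ v1) (v2 ++ y) k))
            have e4 := IND_trans hE (IND_trans e1 (IND_trans e2 e3))
            have hcount : (x ++ v1 ++ k :: (k + 1) :: k :: (v2 ++ y)).count (k + 1) ≤ c := by
              have hk1 : k ≠ k + 1 := by omega
              have c1 : v1.count (k + 1) = 0 := by
                apply List.count_eq_zero_of_not_mem
                intro hmem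
                have := hf1 _ hmem
                omega
              have c2 : v2.count (k + 1) = 0 := by
                apply List.count_eq_zero_of_not_mem
                intro hmem
                have := hf2 _ hmem
                omega
              have c3 : v.count (k + 1) = 0 := List.count_eq_zero_of_not_mem hv
              simp only [List.count_append, List.count_cons, c1, c2, c3] at hc ⊢
              simp at hc ⊢
              omega
            obtain ⟨w, hw, hw'⟩ := ihc _ hcount ((IND_bound (k + 1 + 1) e4).1 hu)
            exact ⟨w, IND_trans e4 hw, hw'⟩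

/-- the positive word -/
def IND_pos (u : List ℕ) : BW := u.map fun i => (i, true)

theorem IND_pos_append (u v : List ℕ) : IND_pos (u ++ v) = IND_pos u ++ IND_pos v := by
  simp [IND_pos]

theorem IND_pos_cons (i : ℕ) (v : List ℕ) : IND_pos (i :: v) = (i, true) :: IND_pos v := by
  simp [IND_pos]

theorem IND_pos_length (u : List ℕ) : (IND_pos u).length = u.length := by simp [IND_pos]

theorem IND_pos_valid (n : ℕ) (u : List ℕ) : Valid n (IND_pos u) ↔ ∀ a ∈ u, a + 1 < n := by
  simp [Valid, IND_pos]

theorem IND_valid_append (n : ℕ) (u v : BW) : Valid n (u ++ v) ↔ Valid n u ∧ Valid n v := by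
  simp only [Valid, List.mem_append]
  constructor
  · intro h; exact ⟨fun l hl => h l (Or.inl hl), fun l hl => h l (Or.inr hl)⟩
  · rintro ⟨h1, h2⟩ l (hl | hl)
    · exact h1 l hl
    · exact h2 l hl

theorem IND_valid_cons (n : ℕ) (l : ℕ × Bool) (v : BW) :
    Valid n (l :: v) ↔ l.1 + 1 < n ∧ Valid n v := by
  simp [Valid]

/-- invariance under the moves -/
theorem IND_inv {P : ℕ → BW → Prop} (hP : INDHyp P) (n : ℕ) {u v : List ℕ} (h : IND_Eqv u v)
    (hu : ∀ a ∈ u, a + 1 < n) : (P n (IND_pos u) ↔ P n (IND_pos v)) := by
  have hn : ∀ u : List ℕ, (∀ a ∈ u, a + 1 < n) ↔ (∀ a ∈ u, a < n - 1) := by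
    intro u
    constructor
    · intro h a ha; have := h a ha; omega
    · intro h a ha; have := h a ha; omega
  induction h with
  | rel u v h =>
    cases h with
    | far x y i j h =>
      have := hP.far n (IND_pos x) (IND_pos y) i j h (by
        have := (IND_pos_valid n _).2 hu
        simpa [IND_pos_append, IND_pos_cons] using this)
      simpa [IND_pos_append, IND_pos_cons] using this
    | braid x y i =>
      have := hP.braid n (IND_pos x) (IND_pos y) i (by
        have := (IND_pos_valid n _).2 hu
        simpa [IND_pos_append, IND_pos_cons] using this)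
      simpa [IND_pos_append, IND_pos_cons] using this
  | refl u => rfl
  | symm u v h ih =>
    have hv : ∀ a ∈ u, a + 1 < n := (hn u).2 ((IND_bound (n - 1) h).2 ((hn v).1 hu))
    exact (ih hv).symm
  | trans u v w h1 h2 ih1 ih2 =>
    have hv : ∀ a ∈ v, a + 1 < n := (hn v).2 ((IND_bound (n - 1) h1).1 ((hn u).1 hu))
    exact (ih1 hu).trans (ih2 hv)

/-- signs are free -/
theorem IND_signs {P : ℕ → BW → Prop} (hP : INDHyp P) (n ℓ : ℕ)
    (ih : ∀ w, Valid n w → w.length < ℓ → P n w) (w : BW) : ∀ x : BW, Valid n (x ++ w) →
    (x ++ w).length ≤ ℓ → (P n (x ++ w) ↔ P n (x ++ IND_pos (w.map Prod.fst))) := by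
  induction w with
  | nil => intro x _ _; simp [IND_pos]
  | cons l w ihw =>
    intro x hx hlen
    obtain ⟨i, e⟩ := l
    have hv := (IND_valid_append n x ((i, e) :: w)).1 hx
    have hv2 := (IND_valid_cons n (i, e) w).1 hv.2
    have hxw : Valid n (x ++ w) := (IND_valid_append n x w).2 ⟨hv.1, hv2.2⟩
    have hPxw : P n (x ++ w) := ih _ hxw (by simp at hlen ⊢; omega)
    have hsk := hP.skein n x w i hxw hv2.1 hPxw
    have h1 : P n (x ++ (i, e) :: w) ↔ P n (x ++ (i, true) :: w) := by
      cases e
      · exact hsk.symm
      · rfl
    have h2 := ihw (x ++ [(i, true)]) (by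
      have : Valid n (x ++ (i, true) :: w) := (IND_valid_append n _ _).2
        ⟨hv.1, (IND_valid_cons n _ _).2 ⟨hv2.1, hv2.2⟩⟩
      simpa using this) (by simp at hlen ⊢; omega)
    rw [h1]
    simpa [IND_pos] using h2

theorem t_IND : S_IND := by
  intro P hP n
  induction n with
  | zero => intro w hn; omega
  | succ n ihn =>
    intro w _ hw
    rcases Nat.eq_zero_or_pos n with rfl | hn0
    · cases w with
      | nil => exact hP.base
      | cons l w =>
        have := hw l (by simp)
        omega
    · -- `n + 1 ≥ 2` strands
      obtain ⟨n', rfl⟩ : ∃ n', n = n' + 1 := ⟨n - 1, by omega⟩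
      have key : ∀ ℓ : ℕ, ∀ w, Valid (n' + 1 + 1) w → w.length < ℓ → P (n' + 1 + 1) w := by
        intro ℓ
        induction ℓ with
        | zero => intro w _ h; omega
        | succ ℓ ih =>
          intro w hw hlen
          have h1 := IND_signs hP (n' + 1 + 1) ℓ ih w [] (by simpa using hw) (by simp; omega)
          simp only [List.nil_append] at h1
          rw [h1]
          set u := w.map Prod.fst with hu
          have hul : u.length < ℓ + 1 := by simpa [hu] using hlen
          have hub : ∀ a ∈ u, a + 1 < n' + 1 + 1 := by
            intro a ha
            rw [hu, List.mem_map] at ha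
            obtain ⟨l, hl, rfl⟩ := ha
            exact hw l hl
          have hub' : ∀ a ∈ u, a < n' + 1 := by
            intro a ha; have := hub a ha; omega
          obtain ⟨v, huv, hv⟩ := IND_word n' (u.count n') u le_rfl hub'
          have hvb' : ∀ a ∈ v, a < n' + 1 := (IND_bound (n' + 1) huv).1 hub'
          have hvb : ∀ a ∈ v, a + 1 < n' + 1 + 1 := by
            intro a ha; have := hvb' a ha; omega
          have hvl : v.length < ℓ + 1 := by rw [← IND_length huv]; exact hul
          rw [IND_inv hP _ huv hub]
          rcases hv with ⟨x, y, i, rfl⟩ | hcnt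
          · -- a square
            have hi : i + 1 < n' + 1 + 1 := hvb i (by simp)
            have hx : Valid (n' + 1 + 1) (IND_pos x) :=
              (IND_pos_valid _ _).2 fun a ha => hvb a (by simp [ha])
            have hy : Valid (n' + 1 + 1) (IND_pos y) :=
              (IND_pos_valid _ _).2 fun a ha => hvb a (by simp [ha])
            have hxy : Valid (n' + 1 + 1) (IND_pos x ++ IND_pos y) :=
              (IND_valid_append _ _ _).2 ⟨hx, hy⟩
            have hx1 : Valid (n' + 1 + 1) (IND_pos x ++ [(i, true)]) :=
              (IND_valid_append _ _ _).2 ⟨hx, by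
                intro l hl
                simp only [List.mem_singleton] at hl
                subst hl
                exact hi⟩
            have hx1y : Valid (n' + 1 + 1) ((IND_pos x ++ [(i, true)]) ++ IND_pos y) :=
              (IND_valid_append _ _ _).2 ⟨hx1, hy⟩
            have hlv : x.length + y.length + 2 < ℓ + 1 := by
              simp only [List.length_append, List.length_cons] at hvl; omega
            have hPxy : P (n' + 1 + 1) (IND_pos x ++ IND_pos y) := ih _ hxy (by
              simp only [List.length_append, IND_pos_length]; omega)
            have hc := hP.cancel _ _ _ i hxy hi hPxy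
            have hP1 : P (n' + 1 + 1) ((IND_pos x ++ [(i, true)]) ++ IND_pos y) :=
              ih _ hx1y (by
                simp only [List.length_append, IND_pos_length, List.length_singleton]; omega)
            have hs := hP.skein _ (IND_pos x ++ [(i, true)]) (IND_pos y) i hx1y hi hP1
            have := hs.2 (by simpa using hc)
            simpa [IND_pos_append, IND_pos_cons] using this
          · by_cases h0 : v.count n' = 0
            · -- no letter `n'`
              have hnk : n' ∉ v := List.count_eq_zero.1 h0
              have hvalid : Valid (n' + 1) (IND_pos v) := (IND_pos_valid _ _).2 fun a ha => by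
                have h2 := hvb' a ha
                have h3 : a ≠ n' := by rintro rfl; exact hnk ha
                omega
              exact hP.split (n' + 1) _ (by omega) hvalid (ihn _ (by omega) hvalid)
            · have h1 : n' ∈ v := by rw [← List.count_pos_iff]; omega
              obtain ⟨x, y, rfl, hx⟩ := List.eq_append_cons_of_mem h1
              have hy : n' ∉ y := by
                rw [List.count_append, List.count_cons_self,
                  List.count_eq_zero_of_not_mem hx] at hcnt
                rw [← List.count_eq_zero]
                omega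
              have hxb : ∀ a ∈ x, a + 1 < n' + 1 := by
                intro a ha
                have h2 := hvb' a (by simp [ha])
                have h3 : a ≠ n' := by rintro rfl; exact hx ha
                omega
              have hyb : ∀ a ∈ y, a + 1 < n' + 1 := by
                intro a ha
                have h2 := hvb' a (by simp [ha])
                have h3 : a ≠ n' := by rintro rfl; exact hy ha
                omega
              have hvalid : Valid (n' + 1) (IND_pos y ++ IND_pos x) :=
                (IND_valid_append _ _ _).2 ⟨(IND_pos_valid _ _).2 hyb, (IND_pos_valid _ _).2 hxb⟩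
              have hcurl := hP.curl n' _ hvalid (ihn _ (by omega) hvalid)
              have hvx : Valid (n' + 1 + 1) (IND_pos x ++ [(n', true)]) :=
                (IND_valid_append _ _ _).2 ⟨(IND_pos_valid _ _).2 fun a ha => by
                  have := hxb a ha; omega, by
                    intro l hl
                    simp only [List.mem_singleton] at hl
                    subst hl
                    show n' + 1 < n' + 1 + 1
                    omega⟩
              have hvy : ∀ l ∈ IND_pos y, l.1 + 2 < n' + 1 + 1 := by
                intro l hl
                have h2 : Valid (n' + 1) (IND_pos y) := (IND_pos_valid _ _).2 hyb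
                have := h2 l hl
                omega
              have hrot := hP.rot (n' + 1 + 1) (IND_pos x ++ [(n', true)]) (IND_pos y) hvx hvy
              have h5 : P (n' + 1 + 1) (IND_pos y ++ (IND_pos x ++ [(n', true)])) := by
                simpa using hcurl
              have h6 := hrot.2 h5
              simpa [IND_pos_append, IND_pos_cons] using h6
      exact key (w.length + 1) w hw (Nat.lt_succ_self _)

end Pool.Agent.H873
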