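import Pool.Agent.Helper873_Hecke.Stmts2

set_option autoImplicit false

namespace Pool.Agent.H873

open Equiv Hk

theorem Ins_bet_valid {p k : ℕ} (hk : k < p) : Valid p (bet 0 p k) := by
  intro l hl
  unfold bet upw at hl
  rw [List.mem_append, List.mem_map, List.mem_map] at hl
  rcases hl with ⟨i, hi, rfl⟩ | ⟨i, hi, rfl⟩
  · rw [List.mem_range] at hi
    show 0 + i + 1 < p
    omega
  · rw [List.mem_range] at hi
    show 0 + k + i + 1 < p
    omega

section

variable {R : Type} [CommRing R] {z : R}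

theorem Ins_betaE_mem (p : ℕ) : (betaE p : Hk R z) ∈ (Hs p : Subalgebra R (Hk R z)) := by
  unfold betaE
  exact Subalgebra.sum_mem _ fun k hk => wd_mem_Hs (Ins_bet_valid (Finset.mem_range.1 hk))

/-- commutation of far away shifts -/
theorem Ins_comm {a k l : ℕ} (h : a + k ≤ l) {x : Hk R z}
    (hx : x ∈ (Hs a : Subalgebra R (Hk R z))) (y : Hk R z) :
    sh k x * sh l y = sh l y * sh k x := by
  obtain ⟨m, rfl⟩ : ∃ m, l = m + (a + k) := ⟨l - (a + k), by omega⟩
  rw [← sh_sh (a + k) m y]
  exact commute_sh (sh_mem_Hs hx) _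

theorem Ins_one (p i j : ℕ) (hij : i ≠ j) (x : Hk R z) (hx : x ∈ (Hs p : Subalgebra R (Hk R z)))
    (y : Hk R z) (hy : y ∈ (Hs p : Subalgebra R (Hk R z))) :
    sh (p * i) x * sh (p * j) y = sh (p * j) y * sh (p * i) x := by
  rcases lt_or_gt_of_ne hij with h | h
  · have h1 : p * (i + 1) ≤ p * j := Nat.mul_le_mul_left p h
    exact Ins_comm (a := p) (by rw [Nat.mul_add, Nat.mul_one] at h1; omega) hx y
  · have h1 : p * (j + 1) ≤ p * i := Nat.mul_le_mul_left p h
    exact (Ins_comm (a := p) (by rw [Nat.mul_add, Nat.mul_one] at h1; omega) hy x).symm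

theorem Ins_two (p n j : ℕ) (hj : j < n) (x : Hk R z) (hx : x ∈ (Hs p : Subalgebra R (Hk R z))) :
    sh (p * j) x ∈ (Hs (p * n) : Subalgebra R (Hk R z)) := by
  have h1 : p * (j + 1) ≤ p * n := Nat.mul_le_mul_left p hj
  rw [Nat.mul_add, Nat.mul_one] at h1
  exact Hs_mono (by omega) (sh_mem_Hs (k := p * j) hx)

theorem Ins_cons (p j : ℕ) (js : List ℕ) :
    (ins p (j :: js) : Hk R z) = sh (p * j) (betaE p) * ins p js := by
  unfold ins
  rw [List.map_cons, List.prod_cons]

theorem Ins_perm (p : ℕ) {js js' : List ℕ} (h : js.Perm js') :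
    (ins p js : Hk R z) = ins p js' := by
  induction h with
  | nil => rfl
  | cons a _ ih => rw [Ins_cons, Ins_cons, ih]
  | swap a b l =>
    rw [Ins_cons, Ins_cons, Ins_cons, Ins_cons, ← mul_assoc, ← mul_assoc]
    by_cases hab : b = a
    · rw [hab]
    · rw [Ins_one p b a hab _ (Ins_betaE_mem p) _ (Ins_betaE_mem p)]
  | trans _ _ h1 h2 => exact h1.trans h2

end

theorem t_ins : S_ins := by
  intro R _ z p
  refine ⟨fun i j hij x hx y hy => Ins_one p i j hij x hx y hy,
    fun n j hj x hx => Ins_two p n j hj x hx, ?_, fun js js' h => Ins_perm p h, ?_, ?_⟩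
  · intro n js hjs
    unfold ins
    apply Subalgebra.list_prod_mem
    intro y hy
    obtain ⟨j, hj, rfl⟩ := List.mem_map.1 hy
    exact Ins_two p n j (hjs j hj) _ (Ins_betaE_mem p)
  · intro i js
    induction js with
    | nil =>
      intro _ x _
      show sh (p * i) x * (1 : Hk R z) = 1 * sh (p * i) x
      rw [mul_one, one_mul]
    | cons j js ih =>
      intro hi x hx
      rw [List.mem_cons, not_or] at hi
      rw [Ins_cons, ← mul_assoc, Ins_one p i j hi.1 x hx _ (Ins_betaE_mem p), mul_assoc,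
        ih hi.2 x hx, mul_assoc]
  · intro i j h1 h2 x hx y hy
    rcases lt_or_gt_of_ne h1 with h | h
    · have h3 : p * (j + 1) ≤ p * i := Nat.mul_le_mul_left p h
      rw [Nat.mul_add, Nat.mul_one] at h3
      exact (Ins_comm (a := p) (by omega) hy x).symm
    · have h3 : p * (i + 2) ≤ p * j := Nat.mul_le_mul_left p (by omega)
      rw [Nat.mul_add] at h3
      exact Ins_comm (a := 2 * p) (by omega) hx y

end Pool.Agent.H873
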