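import Pool.Agent.Helper873_Hecke.Stmts2

set_option autoImplicit false

namespace Pool.Agent.H873

open Equiv Hk

/-- the embedding of the Laurent polynomials, applied to the coefficients -/
theorem Integral_map_inj {A B : Type} [CommRing A] [CommRing B] (f : A →+* B)
    (hf : Function.Injective f) :
    Function.Injective (AddMonoidAlgebra.mapRingHom ℤ f :
      LaurentPolynomial A →+* LaurentPolynomial B) := by
  intro x y hxy
  apply AddMonoidAlgebra.coeff_injective
  ext m
  apply hf
  have h := congrArg (fun t => AddMonoidAlgebra.coeff t m) hxy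
  simpa only [AddMonoidAlgebra.coeff_mapRingHom] using h

theorem Integral_map_C {A B : Type} [CommRing A] [CommRing B] (f : A →+* B) (r : A) :
    (AddMonoidAlgebra.mapRingHom ℤ f : LaurentPolynomial A →+* LaurentPolynomial B)
      (LaurentPolynomial.C r) = LaurentPolynomial.C (f r) :=
  AddMonoidAlgebra.mapRingHom_single f 0 r

theorem Integral_map_T {A B : Type} [CommRing A] [CommRing B] (f : A →+* B) (n : ℤ) :
    (AddMonoidAlgebra.mapRingHom ℤ f : LaurentPolynomial A →+* LaurentPolynomial B)
      (LaurentPolynomial.T n) = LaurentPolynomial.T n := by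
  have h := AddMonoidAlgebra.mapRingHom_single f n (1 : A)
  rw [map_one] at h
  exact h

/-- descent of a solution of the rules along an injective ring homomorphism -/
theorem Integral_descend (h1 : S_IND) {A B : Type} [CommRing A] [CommRing B] (φ : A →+* B)
    (hφ : Function.Injective φ) (Y ap am : A) (g : ℕ → BW → B)
    (hg : ARules (φ Y) (φ ap) (φ am) g) : ∃ h : ℕ → BW → A, ARules Y ap am h := by
  classical
  -- all values lie in the range
  have hind : INDHyp (fun n w => g n w ∈ φ.range) := by
    constructor
    · intro n x y i j hij hv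
      show g n _ ∈ φ.range ↔ g n _ ∈ φ.range
      rw [hg.far n x y i j true true hij hv]
    · intro n x y i hv
      show g n _ ∈ φ.range ↔ g n _ ∈ φ.range
      rw [hg.braid n x y i hv]
    · intro n x y i hv hi h
      show g n _ ∈ φ.range
      have := hg.cancel n x y i true hv hi
      simp only [Bool.not_true] at this
      rw [this]
      exact h
    · intro n x y i hv hi h
      show g n _ ∈ φ.range ↔ g n _ ∈ φ.range
      have key : g n (x ++ (i, true) :: y) - g n (x ++ (i, false) :: y) ∈ φ.range := by
        by_cases hc : (prm (y ++ x)).SameCycle i (i + 1)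
        · rw [hg.skein_diff n x y i hv hi hc]
          exact φ.range.mul_mem ⟨Y, rfl⟩ h
        · rw [hg.skein_self n x y i hv hi hc]
          exact h
      constructor
      · intro h'
        have := φ.range.sub_mem h' key
        rwa [sub_sub_cancel] at this
      · intro h'
        have := φ.range.add_mem h' key
        rwa [add_sub_cancel] at this
    · intro n x y hx hy
      show g n _ ∈ φ.range ↔ g n _ ∈ φ.range
      rw [hg.conj n x y]
      intro l hl
      rcases List.mem_append.1 hl with h | h
      · exact hx l h
      · have := hy l h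
        omega
    · intro n w hn hv h
      show g _ _ ∈ φ.range
      rw [hg.circle n w hv]
      exact φ.range.mul_mem (φ.range.sub_mem ⟨ap, rfl⟩ ⟨am, rfl⟩) h
    · intro n w hv h
      show g _ _ ∈ φ.range
      rw [hg.curl n w true hv, if_pos rfl]
      exact φ.range.mul_mem ⟨ap, rfl⟩ h
    · show g _ _ ∈ φ.range
      rw [hg.circle 0 [] (by intro l hl; simp at hl), hg.empty]
      exact φ.range.mul_mem (φ.range.sub_mem ⟨ap, rfl⟩ ⟨am, rfl⟩) φ.range.one_mem
  have hall : ∀ n w, Valid n w → ∃ a, φ a = g n w := by
    intro n w hv
    rcases Nat.eq_zero_or_pos n with h0 | h0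
    · subst h0
      have hw : w = [] := by
        rcases w with _ | ⟨l, w⟩
        · rfl
        · exact absurd (hv l (by simp)) (by omega)
      subst hw
      exact ⟨1, by rw [map_one, hg.empty]⟩
    · exact h1 _ hind n w h0 hv
  let h : ℕ → BW → A := fun n w => if hv : Valid n w then (hall n w hv).choose else 0
  have hh : ∀ n w, Valid n w → φ (h n w) = g n w := by
    intro n w hv
    show φ (if hv : Valid n w then (hall n w hv).choose else 0) = g n w
    rw [dif_pos hv]
    exact (hall n w hv).choose_spec
  have vmono : ∀ n w, Valid n w → Valid (n + 1) w := fun n w hv l hl => by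
    have := hv l hl
    omega
  have vins : ∀ n x y i e, Valid n (x ++ y) → i + 1 < n → Valid n (x ++ (i, e) :: y) := by
    intro n x y i e hv hi l hl
    rcases List.mem_append.1 hl with h | h
    · exact hv l (List.mem_append.2 (Or.inl h))
    · rcases List.mem_cons.1 h with h | h
      · rw [h]; exact hi
      · exact hv l (List.mem_append.2 (Or.inr h))
  refine ⟨h, ⟨?_, ?_, ?_, ?_, ?_, ?_, ?_, ?_, ?_⟩⟩
  · apply hφ
    rw [hh 0 [] (by intro l hl; simp at hl), hg.empty, map_one]
  · intro n w hv
    apply hφ
    rw [hh _ _ (vmono n w hv), hg.circle n w hv, map_mul, map_sub, hh n w hv]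
  · intro n x y i j e f hij hv
    apply hφ
    rw [hh _ _ hv, hh _ _ ?_, hg.far n x y i j e f hij hv]
    intro l hl
    apply hv l
    simp only [List.mem_append, List.mem_cons] at hl ⊢
    tauto
  · intro n x y i hv
    apply hφ
    rw [hh _ _ hv, hh _ _ ?_, hg.braid n x y i hv]
    intro l hl
    have h1' : i + 1 < n := hv (i, true) (by simp)
    have h2' : i + 1 + 1 < n := hv (i + 1, true) (by simp)
    simp only [List.mem_append, List.mem_cons] at hl
    rcases hl with hl | hl | hl | hl | hl
    · exact hv l (by simp [hl])
    · rw [hl]; exact h2'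
    · rw [hl]; exact h1'
    · rw [hl]; exact h2'
    · exact hv l (by simp [hl])
  · intro n x y i e hv hi
    apply hφ
    rw [hh _ _ hv, hh _ _ ?_, hg.cancel n x y i e hv hi]
    have := vins n x ((i, !e) :: y) i e (vins n x y i (!e) hv hi) hi
    exact this
  · intro n x y hv
    apply hφ
    rw [hh _ _ hv, hh _ _ ?_, hg.conj n x y hv]
    intro l hl
    apply hv l
    simp only [List.mem_append] at hl ⊢
    tauto
  · intro n x y i hv hi hc
    apply hφ
    rw [map_sub, hh _ _ hv, hh _ _ (vins n x y i _ hv hi), hh _ _ (vins n x y i _ hv hi),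
      hg.skein_self n x y i hv hi hc]
  · intro n x y i hv hi hc
    apply hφ
    rw [map_sub, map_mul, hh _ _ hv, hh _ _ (vins n x y i _ hv hi), hh _ _ (vins n x y i _ hv hi),
      hg.skein_diff n x y i hv hi hc]
  · intro n w e hv
    apply hφ
    rw [hh _ _ ?_, hg.curl n w e hv, map_mul, hh _ _ hv]
    · congr 1
      split_ifs <;> rfl
    · intro l hl
      rcases List.mem_append.1 hl with hl | hl
      · have := hv l hl
        omega
      · rw [List.mem_singleton.1 hl]
        show n + 1 < n + 2
        omega

theorem t_Aex (h1 : S_IND) (h2 : S_Mex) (h3 : S_AM) : S_Aex := by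
  let F := FractionRing (Polynomial ℤ)
  let z0 : F := algebraMap (Polynomial ℤ) F Polynomial.X
  have hz0 : z0 ≠ 0 := by
    intro h
    have := (IsFractionRing.injective (Polynomial ℤ) F) (h.trans (map_zero _).symm)
    exact Polynomial.X_ne_zero this
  let f : Polynomial ℤ →+* F :=
    (algebraMap (Polynomial ℤ) F).comp (Polynomial.expand ℤ 2).toRingHom
  have hfX : f Polynomial.X = z0 ^ 2 := by
    show algebraMap (Polynomial ℤ) F (Polynomial.expand ℤ 2 Polynomial.X) = _
    rw [Polynomial.expand_X, map_pow]
  have hf : Function.Injective f := by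
    apply (IsFractionRing.injective (Polynomial ℤ) F).comp
    exact Polynomial.expand_injective (by norm_num)
  let z : LaurentPolynomial F := LaurentPolynomial.C z0
  let dl : LaurentPolynomial F :=
    LaurentPolynomial.C z0⁻¹ * (LaurentPolynomial.T 1 - LaurentPolynomial.T (-1))
  have ha : (LaurentPolynomial.T 1 : LaurentPolynomial F) * LaurentPolynomial.T (-1) = 1 := by
    rw [← LaurentPolynomial.T_add, add_neg_cancel, LaurentPolynomial.T_zero]
  have hz : z * dl = LaurentPolynomial.T 1 - LaurentPolynomial.T (-1) := by
    show LaurentPolynomial.C z0 *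
      (LaurentPolynomial.C z0⁻¹ * (LaurentPolynomial.T 1 - LaurentPolynomial.T (-1))) = _
    rw [← mul_assoc, ← map_mul, mul_inv_cancel₀ hz0, map_one, one_mul]
  have hM := h2 (LaurentPolynomial F) z _ _ dl ha hz
  have hA := h3 (LaurentPolynomial F) z _ _ dl _ hz hM
  apply Integral_descend h1 (AddMonoidAlgebra.mapRingHom ℤ f :
      LaurentPolynomial (Polynomial ℤ) →+* LaurentPolynomial F) (Integral_map_inj f hf)
      _ _ _ (fun n w => z ^ (comps n w).card *
        hom dl (LaurentPolynomial.T 1) n (wd w : Hk (LaurentPolynomial F) z))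
  rw [Integral_map_C, Integral_map_T, Integral_map_T, hfX, map_pow]
  exact hA

end Pool.Agent.H873
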