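import Pool.Agent.Helper873_Hecke.Stmts

set_option autoImplicit false

/-!
# Consequences K1, K2, K3 of the cyclic expansion (section 6)
-/

namespace Pool.Agent.H873

open Equiv Hk

section KCons

variable {R : Type} [CommRing R] {z : R}

theorem KCons_bet_valid (m k : ℕ) (hk : k < m) : Valid m (bet 0 m k) := by
  intro l hl
  unfold bet upw at hl
  rcases List.mem_append.1 hl with h | h
  · obtain ⟨i, hi, rfl⟩ := List.mem_map.1 h
    rw [List.mem_range] at hi
    show 0 + i + 1 < m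
    omega
  · obtain ⟨i, hi, rfl⟩ := List.mem_map.1 h
    rw [List.mem_range] at hi
    show 0 + k + i + 1 < m
    omega

theorem KCons_beta_mem (m : ℕ) : (betaE m : Hk R z) ∈ (Hs m : Subalgebra R (Hk R z)) := by
  unfold betaE
  exact Subalgebra.sum_mem _ (fun k hk => wd_mem_Hs (KCons_bet_valid m k (Finset.mem_range.1 hk)))

theorem KCons_th_one (n : ℕ) : (th 1 0 n : Hk R z) = 1 := by
  induction n with
  | zero => rfl
  | succ n ih =>
    cases n with
    | zero => rfl
    | succ k =>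
      change (th 1 0 (k + 1) : Hk R z) * ((1 : R) • (1 : Hk R z) + (0 : R) • L (k + 1)) = 1
      rw [ih, one_smul, zero_smul, add_zero, mul_one]

/-- the formula of the cyclic expansion -/
def KCons_E {M : Type} [AddCommGroup M] [Module R M] (p : ℕ) (e : Hk R z) (n : ℕ)
    (y b : Fin n → Hk R z) (f : Hk R z →ₗ[R] M) : Prop :=
  ∀ x ∈ (Hs p : Subalgebra R (Hk R z)), f x = tau x • f e + ∑ i, tau (y i * Tr p x) • f (b i)

/-- K1 -/
theorem KCons_K1 {p : ℕ} {e : Hk R z} {n : ℕ} {y b : Fin n → Hk R z} {M : Type}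
    [AddCommGroup M] [Module R M] {f : Hk R z →ₗ[R] M}
    (hC : KCons_E p e n y b f)
    (hZ : Tr p (betaE p : Hk R z) = 0) {c : Hk R z} (hc : c ∈ (Hs p : Subalgebra R (Hk R z)))
    (hcc : ∀ a ∈ (Hs p : Subalgebra R (Hk R z)), a * c = c * a) :
    f (c * betaE p) = tau (c * betaE p) • f e := by
  have h0 : Tr p (c * betaE p) = 0 := by rw [Tr_central_mul hcc, hZ, mul_zero]
  rw [hC _ (mul_mem hc (KCons_beta_mem p)), h0]
  simp only [mul_zero, map_zero, zero_smul, Finset.sum_const_zero, add_zero]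

theorem KCons_K1' {p : ℕ} {e : Hk R z} {n : ℕ} {y b : Fin n → Hk R z} {M : Type}
    [AddCommGroup M] [Module R M] {f : Hk R z →ₗ[R] M}
    (hC : KCons_E p e n y b f)
    (hZ : Tr p (betaE p : Hk R z) = 0) :
    f (betaE p) = tau (betaE p : Hk R z) • f e := by
  have h := KCons_K1 hC hZ (c := 1) (one_mem _) (fun a _ => by rw [mul_one, one_mul])
  rwa [one_mul] at h

theorem KCons_tau_beta (h4 : S_markov_beta) {p : ℕ} (hp : 1 ≤ p) :
    tau (betaE p : Hk R z) = (-z) ^ (p - 1) := by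
  have h := (h4 R z 1 0 p hp).1
  rw [Mk_apply, KCons_th_one, mul_one] at h
  rw [h, Finset.sum_eq_single 0]
  · rw [pow_zero, one_mul, mul_one, zero_sub, Nat.sub_zero]
  · intro k _ hk
    rw [zero_pow hk, zero_mul]
  · intro h0
    exact absurd (Finset.mem_range.2 (by omega)) h0

theorem KCons_tau_D (h4 : S_markov_beta) (h5 : S_twist) {p : ℕ} (hp : 1 ≤ p) :
    tau (wd (dw true 0 p) * betaE p : Hk R z) = z ^ (p - 1) := by
  have h := (h4 R z 1 z p hp).1
  rw [Mk_apply, ← (h5 R z true 0 p).2.2.2.1, tau_comm] at h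
  rw [h, Finset.sum_eq_single (p - 1)]
  · rw [Nat.sub_self, pow_zero, mul_one]
  · intro k hk hk'
    rw [Finset.mem_range] at hk
    rw [mul_one, sub_self, zero_pow (by omega), mul_zero]
  · intro h0
    exact absurd (Finset.mem_range.2 (by omega)) h0

theorem KCons_neg_pow (n : ℕ) (z : R) : (-1 : R) ^ n * (-z) ^ n = z ^ n := by
  rw [← mul_pow]; congr 1; ring

/-- the functional `x ↦ f (x * y)` -/
noncomputable def KCons_fr {M : Type} [AddCommGroup M] [Module R M] (f : Hk R z →ₗ[R] M)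
    (y : Hk R z) : Hk R z →ₗ[R] M := f ∘ₗ rmul y

theorem KCons_fr_apply {M : Type} [AddCommGroup M] [Module R M] (f : Hk R z →ₗ[R] M)
    (y x : Hk R z) : KCons_fr f y x = f (x * y) := rfl

/-- the functional `y ↦ f (x * y)` -/
noncomputable def KCons_fl {M : Type} [AddCommGroup M] [Module R M] (f : Hk R z →ₗ[R] M)
    (x : Hk R z) : Hk R z →ₗ[R] M := f ∘ₗ lmul x

theorem KCons_fl_apply {M : Type} [AddCommGroup M] [Module R M] (f : Hk R z →ₗ[R] M)
    (x y : Hk R z) : KCons_fl f x y = f (x * y) := rfl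

/-- the functional `y ↦ f (x * sh p y)` -/
noncomputable def KCons_fs {M : Type} [AddCommGroup M] [Module R M] (f : Hk R z →ₗ[R] M)
    (p : ℕ) (x : Hk R z) : Hk R z →ₗ[R] M :=
  KCons_fl f x ∘ₗ (sh p : Hk R z →ₐ[R] Hk R z).toLinearMap

theorem KCons_fs_apply {M : Type} [AddCommGroup M] [Module R M] (f : Hk R z →ₗ[R] M)
    (p : ℕ) (x y : Hk R z) : KCons_fs f p x y = f (x * sh p y) := rfl

/-- the functional `x ↦ f (x * sh p y)` is a trace functional -/
theorem KCons_trace_left {p : ℕ} {M : Type} [AddCommGroup M] [Module R M] {f : Hk R z →ₗ[R] M}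
    (h1 : ∀ x ∈ (Hs (2 * p) : Subalgebra R (Hk R z)), ∀ a ∈ (Hs p : Subalgebra R (Hk R z)),
      f (x * a) = f (a * x)) {y : Hk R z} (hy : y ∈ (Hs p : Subalgebra R (Hk R z))) :
    IsTrace p (KCons_fr f (sh p y)) := by
  intro x hx x' hx'
  rw [KCons_fr_apply, KCons_fr_apply]
  have hm : x' * sh p y ∈ (Hs (2 * p) : Subalgebra R (Hk R z)) := by
    apply mul_mem (Hs_mono (by omega) hx')
    have := sh_mem_Hs (k := p) hy
    rwa [← two_mul] at this
  rw [mul_assoc, ← h1 _ hm _ hx, mul_assoc, mul_assoc, ← commute_sh hx y]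

/-- the functional `y ↦ f (x * sh p y)` is a trace functional -/
theorem KCons_trace_right {p : ℕ} {M : Type} [AddCommGroup M] [Module R M] {f : Hk R z →ₗ[R] M}
    (h2 : ∀ x ∈ (Hs (2 * p) : Subalgebra R (Hk R z)), ∀ a ∈ (Hs p : Subalgebra R (Hk R z)),
      f (x * sh p a) = f (sh p a * x)) {x : Hk R z} (hx : x ∈ (Hs p : Subalgebra R (Hk R z))) :
    IsTrace p (KCons_fs f p x) := by
  intro y hy y' hy'
  rw [KCons_fs_apply, KCons_fs_apply]
  have hm : x * sh p y ∈ (Hs (2 * p) : Subalgebra R (Hk R z)) := by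
    apply mul_mem (Hs_mono (by omega) hx)
    have := sh_mem_Hs (k := p) hy
    rwa [← two_mul] at this
  have e1 : x * sh p (y * y') = x * sh p y * sh p y' := by
    rw [map_mul (sh p), mul_assoc]
  have e2 : x * sh p (y' * y) = sh p y' * (x * sh p y) := by
    rw [map_mul (sh p), ← mul_assoc, commute_sh hx y', mul_assoc]
  rw [e1, e2]
  exact h2 _ hm _ hy'

/-- the trace functional `x ↦ tau (d * x)` for a central `d` -/
theorem KCons_trace_tau {p : ℕ} {d : Hk R z}
    (hd : ∀ a ∈ (Hs p : Subalgebra R (Hk R z)), a * d = d * a) :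
    IsTrace p (KCons_fl (tau : Hk R z →ₗ[R] R) d) := by
  intro u hu v hv
  rw [KCons_fl_apply, KCons_fl_apply, ← mul_assoc, tau_comm, ← mul_assoc, hd v hv, mul_assoc]

/-- K2, the value of `tau` -/
theorem KCons_te (h4 : S_markov_beta) (h5 : S_twist) {p : ℕ} (hp : 1 ≤ p) (hz : IsUnit z)
    {e0 : Hk R z} {n : ℕ} {y b : Fin n → Hk R z}
    (hC : ∀ f : Hk R z →ₗ[R] R, IsTrace p f → KCons_E p e0 n y b f)
    (hZ : Tr p (betaE p : Hk R z) = 0)
    (cen : ∀ e : Bool, ∀ a ∈ (Hs p : Subalgebra R (Hk R z)),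
        a * (wd (dw e 0 p) : Hk R z) = wd (dw e 0 p) * a) (e : Bool) :
    tau (wd (dw e 0 p) * betaE p : Hk R z) = z ^ (p - 1) := by
  have tD : tau (wd (dw true 0 p) * betaE p : Hk R z) = z ^ (p - 1) := KCons_tau_D h4 h5 hp
  cases e with
  | true => exact tD
  | false =>
    have tb : tau (betaE p : Hk R z) = (-z) ^ (p - 1) := KCons_tau_beta h4 hp
    have hg := hC _ (KCons_trace_tau (cen false))
    have e1 := KCons_K1 hg hZ ((h5 R z true 0 p).2.2.2.2) (cen true)
    have e2 := KCons_K1' hg hZ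
    have inv : (wd (dw false 0 p) * wd (dw true 0 p) : Hk R z) = 1 := (h5 R z false 0 p).2.1
    rw [KCons_fl_apply, KCons_fl_apply, ← mul_assoc, inv, one_mul, tb, tD, smul_eq_mul] at e1
    rw [KCons_fl_apply, KCons_fl_apply, tb, smul_eq_mul] at e2
    have hu : IsUnit (z ^ (p - 1)) := hz.pow _
    have e3 : tau ((wd (dw false 0 p) : Hk R z) * e0) = (-1) ^ (p - 1) := by
      apply hu.mul_left_cancel
      rw [← e1, ← mul_pow]
      congr 1; ring
    rw [e2, e3, mul_comm, KCons_neg_pow]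

/-- K3, one term of the sum -/
theorem KCons_key {p : ℕ} {e0 : Hk R z} {n : ℕ} {y b : Fin n → Hk R z} {M : Type}
    [AddCommGroup M] [Module R M] {f : Hk R z →ₗ[R] M} {t' : Hk R z}
    (hC : KCons_E p e0 n y b (KCons_fr f t')) {t c : Hk R z}
    (ht : t ∈ (Hs p : Subalgebra R (Hk R z))) (hc : c ∈ (Hs p : Subalgebra R (Hk R z))) :
    f (t * c * betaE p * t') = tau (t * (c * betaE p)) • f (e0 * t') +
      ∑ i, tau (t * (c * Tr p (y i) * betaE p)) • f (b i * t') := by
  have hβ : (betaE p : Hk R z) ∈ (Hs p : Subalgebra R (Hk R z)) := KCons_beta_mem p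
  have h := hC (t * c * betaE p) (mul_mem (mul_mem ht hc) hβ)
  simp only [KCons_fr_apply] at h
  rw [h, mul_assoc t c (betaE p)]
  congr 1
  apply Finset.sum_congr rfl
  intro i _
  congr 1
  rw [← tau_Tr, tau_comm, mul_assoc t, mul_assoc c (betaE p) (Tr p (y i)),
    ← Tr_mul_comm hβ (y i), ← mul_assoc c (Tr p (y i)) (betaE p)]

/-- K3, summation with the dual basis -/
theorem KCons_push {p : ℕ} {M : Type} [AddCommGroup M] [Module R M] (f : Hk R z →ₗ[R] M)
    {h : Hk R z} (hh : h ∈ (Hs p : Subalgebra R (Hk R z))) :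
    ∑ g : Perm (Fin p), tau ((T (emb p g) : Hk R z) * h) • f (T (emb p g⁻¹) : Hk R z) = f h := by
  have hd := congrArg (fun v => f v) (dual_basis hh)
  simp only [map_sum, map_smul] at hd
  exact hd

/-- K3, the vanishing of the other terms -/
theorem KCons_van {p : ℕ} {e0 : Hk R z} {n : ℕ} {y b : Fin n → Hk R z} {M : Type}
    [AddCommGroup M] [Module R M] {f : Hk R z →ₗ[R] M}
    (hC : KCons_E p e0 n y b f) (hZ : Tr p (betaE p : Hk R z) = 0) {v c : Hk R z}
    (hv : v ∈ (Hs p : Subalgebra R (Hk R z))) (hc : c ∈ (Hs p : Subalgebra R (Hk R z)))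
    (hcc : ∀ a ∈ (Hs p : Subalgebra R (Hk R z)), a * c = c * a) :
    f (c * Tr p v * betaE p) = 0 := by
  have hTr : Tr p v ∈ (Hs p : Subalgebra R (Hk R z)) := Tr_mem_Hs hv
  have hcen : ∀ a ∈ (Hs p : Subalgebra R (Hk R z)),
      a * (c * Tr p v) = (c * Tr p v) * a := by
    intro a ha
    rw [← mul_assoc, hcc a ha, mul_assoc, ← Tr_mul_comm ha v, mul_assoc]
  have h := KCons_K1 hC hZ (mul_mem hc hTr) hcen
  have h0 : tau (c * Tr p v * betaE p : Hk R z) = 0 := by
    rw [mul_assoc, tau_comm, mul_assoc, tau_Tr, Tr_mul_central hcc, hZ, zero_mul, mul_zero,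
      map_zero]
  rw [h, h0, zero_smul]

end KCons

theorem t_K (h1 : S_Cyc) (h2 : S_Z) (h3 : S_markov) (h4 : S_markov_beta) (h5 : S_twist) : S_K := by
  intro R _ p q qi z hG
  have hp : 1 ≤ p := hG.prime.one_lt.le
  obtain ⟨e0, n, y, b, he0, hy, hb, hC0⟩ := h1 R z p hG.prime hG.unit hG.zunit
  have hC : ∀ (M : Type) [AddCommGroup M] [Module R M] (f : Hk R z →ₗ[R] M), IsTrace p f →
    KCons_E p e0 n y b f := hC0
  clear hC0
  have hZ := h2 R p q qi z hG
  have hβ : (betaE p : Hk R z) ∈ (Hs p : Subalgebra R (Hk R z)) := KCons_beta_mem p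
  refine ⟨e0, he0, ?_, ?_, ?_⟩
  · intro M _ _ f hf c hc hcc
    exact KCons_K1 (hC M f hf) hZ hc hcc
  · intro M _ _ f hf e
    have cen : ∀ e : Bool, ∀ a ∈ (Hs p : Subalgebra R (Hk R z)),
        a * (wd (dw e 0 p) : Hk R z) = wd (dw e 0 p) * a := by
      intro e a ha
      have := (h5 R z e 0 p).1 a ha
      rw [sh_zero] at this
      exact this.symm
    have te := KCons_te h4 h5 hp hG.zunit (hC R) hZ cen e
    have tb : tau (betaE p : Hk R z) = (-z) ^ (p - 1) := KCons_tau_beta h4 hp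
    rw [KCons_K1 (hC M f hf) hZ (h5 R z e 0 p).2.2.2.2 (cen e), KCons_K1' (hC M f hf) hZ, te, tb,
      smul_smul, KCons_neg_pow]
  · intro M _ _ f hf1 hf2 c hc hcc
    have trL : ∀ y' ∈ (Hs p : Subalgebra R (Hk R z)), KCons_E p e0 n y b (KCons_fr f (sh p y')) :=
      fun y' hy' => hC M _ (KCons_trace_left hf1 hy')
    have trR : ∀ x ∈ (Hs p : Subalgebra R (Hk R z)), KCons_E p e0 n y b (KCons_fs f p x) :=
      fun x hx => hC M _ (KCons_trace_right hf2 hx)
    constructor
    · have key : ∀ g : Perm (Fin p),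
          f ((T (emb p g) : Hk R z) * c * betaE p * sh p (T (emb p g⁻¹) : Hk R z)) =
            tau ((T (emb p g) : Hk R z) * (c * betaE p)) •
              KCons_fs f p e0 (T (emb p g⁻¹) : Hk R z) +
            ∑ i, tau ((T (emb p g) : Hk R z) * (c * Tr p (y i) * betaE p)) •
              KCons_fs f p (b i) (T (emb p g⁻¹) : Hk R z) := by
        intro g
        simp only [KCons_fs_apply]
        exact KCons_key (trL _ (T_mem_Hs (emb_mem_SS p g⁻¹))) (T_mem_Hs (emb_mem_SS p g)) hc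
      rw [Finset.sum_congr rfl (fun g _ => key g), Finset.sum_add_distrib, Finset.sum_comm,
        KCons_push _ (mul_mem hc hβ)]
      have z0 : ∀ i : Fin n, ∑ g : Perm (Fin p),
          tau ((T (emb p g) : Hk R z) * (c * Tr p (y i) * betaE p)) •
            KCons_fs f p (b i) (T (emb p g⁻¹) : Hk R z) = 0 := by
        intro i
        rw [KCons_push _ (mul_mem (mul_mem hc (Tr_mem_Hs (hy i))) hβ)]
        exact KCons_van (trR _ (hb i)) hZ (hy i) hc hcc
      rw [Finset.sum_congr rfl (fun i _ => z0 i), Finset.sum_const_zero, add_zero,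
        KCons_K1 (trR _ he0) hZ hc hcc, KCons_fs_apply]
    · have ha := KCons_K1' (trL _ hβ) hZ
      have hb' := KCons_K1' (trR _ he0) hZ
      rw [KCons_fr_apply, KCons_fr_apply] at ha
      rw [KCons_fs_apply, KCons_fs_apply] at hb'
      rw [ha, hb', smul_smul, sq]

end Pool.Agent.H873
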