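import Pool.Agent.Helper873_Hecke.Stmts2

set_option autoImplicit false

namespace Pool.Agent.H873

open Equiv Hk

theorem Kqa_inj : Function.Injective (algebraMap (MvPolynomial (Fin 2) ℚ) Kqa) :=
  IsFractionRing.injective _ _

theorem Kqa_vq_ne : vq ≠ 0 := by
  intro h
  have h1 : algebraMap (MvPolynomial (Fin 2) ℚ) Kqa (MvPolynomial.X 0) =
      algebraMap (MvPolynomial (Fin 2) ℚ) Kqa 0 := by rw [map_zero]; exact h
  exact MvPolynomial.X_ne_zero _ (Kqa_inj h1)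

theorem Kqa_va_ne : va ≠ 0 := by
  intro h
  have h1 : algebraMap (MvPolynomial (Fin 2) ℚ) Kqa (MvPolynomial.X 1) =
      algebraMap (MvPolynomial (Fin 2) ℚ) Kqa 0 := by rw [map_zero]; exact h
  exact MvPolynomial.X_ne_zero _ (Kqa_inj h1)

theorem Kqa_cbr_ne (k : ℕ) (hk : 0 < k) : cbr k ≠ 0 := by
  intro h
  unfold cbr at h
  have hq := Kqa_vq_ne
  have h1 : vq ^ (2 * k) = 1 := by
    have h2 : vq ^ k = vq⁻¹ ^ k := sub_eq_zero.1 h
    calc vq ^ (2 * k) = vq ^ k * vq ^ k := by ring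
      _ = vq ^ k * vq⁻¹ ^ k := by rw [← h2]
      _ = 1 := by rw [← mul_pow, mul_inv_cancel₀ hq, one_pow]
  have h3 : (MvPolynomial.X 0 : MvPolynomial (Fin 2) ℚ) ^ (2 * k) = 1 := by
    apply Kqa_inj
    rw [map_pow, map_one]
    exact h1
  have h4 := congrArg (MvPolynomial.eval (fun _ => (2 : ℚ))) h3
  rw [map_pow, MvPolynomial.eval_X, map_one] at h4
  have h5 : (1 : ℚ) < 2 ^ (2 * k) := one_lt_pow₀ (by norm_num) (by omega)
  linarith

theorem Kqa_geom (k : ℕ) : cbr k = vz * qn vq vq⁻¹ k := by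
  unfold cbr vz qn
  have h := geom_sum₂_mul vq⁻¹ vq k
  have h1 : ∑ i ∈ Finset.range k, vq ^ (k - 1 - i) * vq⁻¹ ^ i =
      ∑ i ∈ Finset.range k, vq⁻¹ ^ i * vq ^ (k - 1 - i) :=
    Finset.sum_congr rfl fun i _ => mul_comm _ _
  rw [h1]
  linear_combination h

theorem t_Kqa : S_Kqa := by
  have hz : vz ≠ 0 := by
    have := Kqa_cbr_ne 1 one_pos
    unfold cbr at this
    rw [pow_one, pow_one] at this
    exact this
  have hc1 : cbr 1 = vz := by unfold cbr vz; rw [pow_one, pow_one]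
  refine ⟨fun d hd => ⟨?_, ?_⟩, Kqa_vq_ne, Kqa_va_ne, hz, fun k hk h => ?_, fun k => ?_, Kqa_geom⟩
  · unfold adams vq
    rw [IsFractionRing.map, IsLocalization.map_eq]
    simp [MvPolynomial.expand_X]
  · unfold adams va
    rw [IsFractionRing.map, IsLocalization.map_eq]
    simp [MvPolynomial.expand_X]
  · apply Kqa_cbr_ne k hk
    rw [Kqa_geom, h, mul_zero]
  · unfold qbr
    rw [hc1, Kqa_geom, mul_div_cancel_left₀ _ hz]

end Pool.Agent.H873
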