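import Pool.Agent.Helper873_Hecke.Stmts

set_option autoImplicit false

namespace Pool.Agent.H873

open Equiv Hk

section MarkovAux

variable {R : Type} [CommRing R] {z : R}

theorem Markov_th_succ (d al : R) {m : ℕ} (hm : 1 ≤ m) :
    (th d al (m + 1) : Hk R z) = th d al m * (d • 1 + al • L m) := by
  obtain ⟨k, rfl⟩ : ∃ k, m = k + 1 := ⟨m - 1, by omega⟩
  rfl

theorem Markov_comm_factor (d al : R) {a b : Hk R z} (h : a * b = b * a) :
    a * (d • 1 + al • b) = (d • 1 + al • b) * a := by
  rw [mul_add, add_mul, mul_smul_comm, mul_smul_comm, smul_mul_assoc, smul_mul_assoc, h, mul_one,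
    one_mul]

theorem Markov_th_mem (h : S_JM) (d al : R) : ∀ n, (th d al n : Hk R z) ∈
    (Hs n : Subalgebra R (Hk R z)) := by
  have h2 := (h R z).2.1
  intro n
  induction n with
  | zero => exact one_mem _
  | succ n ih =>
    rcases Nat.eq_zero_or_pos n with rfl | hn
    · exact one_mem _
    · rw [Markov_th_succ d al hn]
      exact mul_mem (Hs_mono (Nat.le_succ n) ih)
        (add_mem (Subalgebra.smul_mem _ (one_mem _) _) (Subalgebra.smul_mem _ (h2 n) _))

theorem Markov_commA (h : S_JM) (d al : R) (i : ℕ) : ∀ k, k ≤ i →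
    (sg i * th d al k : Hk R z) = th d al k * sg i := by
  have h1 := (h R z).1
  intro k
  induction k with
  | zero => intro _; exact (mul_one _).trans (one_mul _).symm
  | succ k ih =>
    intro hk
    rcases Nat.eq_zero_or_pos k with rfl | hk0
    · exact (mul_one _).trans (one_mul _).symm
    · rw [Markov_th_succ d al hk0, ← mul_assoc, ih (by omega), mul_assoc,
        Markov_comm_factor d al (h1 i k (by omega) (by omega)), mul_assoc]

theorem Markov_commB (h : S_JM) (d al : R) (i : ℕ) :
    (sg i * th d al (i + 2) : Hk R z) = th d al (i + 2) * sg i := by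
  obtain ⟨h1, h2, h3, h4, h5, h6⟩ := h R z
  rcases Nat.eq_zero_or_pos i with rfl | hi
  · have e : (L 1 : Hk R z) = sg 0 := by
      change (sg 0 * 0 * sg 0 + sg 0 : Hk R z) = sg 0
      rw [mul_zero, zero_mul, zero_add]
    have e2 : (th d al (0 + 2) : Hk R z) = d • 1 + al • sg 0 := by
      change (1 * (d • 1 + al • L 1) : Hk R z) = _
      rw [one_mul, e]
    rw [e2]
    exact Markov_comm_factor d al rfl
  · have e1 : (th d al (i + 2) : Hk R z) =
        th d al i * ((d • 1 + al • L i) * (d • 1 + al • L (i + 1))) := by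
      rw [Markov_th_succ d al (by omega : 1 ≤ i + 1), Markov_th_succ d al hi, mul_assoc]
    have e2 : ((d • 1 + al • L i) * (d • 1 + al • L (i + 1)) : Hk R z) =
        (d * d) • 1 + ((d * al) • (L i + L (i + 1)) + (al * al) • (L i * L (i + 1))) := by
      rw [add_mul, mul_add, mul_add]
      simp only [smul_mul_assoc, mul_smul_comm, one_mul, mul_one, smul_smul, smul_add]
      rw [mul_comm al d]
      abel
    rw [e1, e2, ← mul_assoc, Markov_commA h d al i i le_rfl, mul_assoc, mul_assoc]
    congr 1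
    rw [mul_add, mul_add, add_mul, add_mul]
    simp only [smul_mul_assoc, mul_smul_comm, one_mul, mul_one]
    rw [h5, h6]

theorem Markov_commC (h : S_JM) (d al : R) (i : ℕ) : ∀ n, i + 1 < n →
    (sg i * th d al n : Hk R z) = th d al n * sg i := by
  have h1 := (h R z).1
  intro n hn
  induction n, hn using Nat.le_induction with
  | base => exact Markov_commB h d al i
  | succ m hm ih =>
    rw [Markov_th_succ d al (by omega), ← mul_assoc, ih, mul_assoc,
      Markov_comm_factor d al (h1 i m (by omega) (by omega)), mul_assoc]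

theorem Markov_comm_of_gen {n : ℕ} {c : Hk R z} (hc : ∀ i, i + 1 < n → sg i * c = c * sg i)
    {x : Hk R z} (hx : x ∈ Hs n) : x * c = c * x := by
  refine Hs_induction (P := fun x => x * c = c * x) ?_ ?_ ?_ ?_ hx
  · rw [one_mul, mul_one]
  · intro a _ b _ ha hb; rw [add_mul, mul_add, ha, hb]
  · intro r a _ ha; rw [smul_mul_assoc, mul_smul_comm, ha]
  · intro i hi a _ ha
    rw [mul_assoc, ha, ← mul_assoc, hc i hi, mul_assoc]

theorem Markov_comm_th (h : S_JM) (d al : R) (n : ℕ) {x : Hk R z} (hx : x ∈ Hs n) :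
    x * th d al n = th d al n * x :=
  Markov_comm_of_gen (fun i hi => Markov_commC h d al i n hi) hx

theorem Markov_comm_L (h : S_JM) (n : ℕ) {x : Hk R z} (hx : x ∈ Hs n) :
    x * L n = L n * x :=
  Markov_comm_of_gen (fun i hi => (h R z).1 i n (by omega) (by omega)) hx

theorem Markov_trace (h : S_JM) (d al : R) (n : ℕ) : IsTrace n (Mk d al n : Hk R z →ₗ[R] R) := by
  intro x hx y _
  rw [Mk_apply, Mk_apply, mul_assoc, tau_comm, mul_assoc, ← Markov_comm_th h d al n hx, mul_assoc]

/-- the permutations occurring in `L k` -/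
def MarkovA (k : ℕ) : Set G := {w | w ∈ SS (k + 1) ∧ w.1 k < k}

theorem Markov_conj {k : ℕ} {w : G} (hw : w ∈ MarkovA k) :
    (sg k * T w * sg k : Hk R z) = T (s k * w * s k) ∧ s k * w * s k ∈ MarkovA (k + 1) := by
  obtain ⟨h1, h2⟩ := hw
  have h3 : w⁻¹ ∈ SS (k + 1) := inv_mem_SS h1
  have h4 : w⁻¹.1 (k + 1) = k + 1 := h3 _ le_rfl
  have h5 : w⁻¹.1 k < k + 1 := by
    by_contra hc
    push Not at hc
    have h6 := h3 _ hc
    have h7 := w⁻¹.1.injective h6
    omega
  have hLA : LA k w := by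
    unfold LA; omega
  have h8 : w.1 (k + 1) = k + 1 := h1 _ le_rfl
  have hRA : RA k (s k * w) := by
    unfold RA
    change (s k).1 (w.1 k) < (s k).1 (w.1 (k + 1))
    rw [h8, s_apply, s_apply, if_neg (by omega), if_neg (by omega), if_neg (by omega), if_pos rfl]
    exact h2
  refine ⟨by rw [sg_mul_T_asc hLA, T_mul_sg_asc hRA], ?_, ?_⟩
  · have h9 : w ∈ SS (k + 1 + 1) := fun m hm => h1 m (by omega)
    exact mul_mem_SS (mul_mem_SS (s_mem_SS (by omega)) h9) (s_mem_SS (by omega))
  · change (s k).1 (w.1 ((s k).1 (k + 1))) < k + 1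
    have e : (s k).1 (k + 1) = k := by rw [s_apply, if_neg (by omega), if_pos rfl]
    rw [e, s_apply, if_neg (by omega), if_neg (by omega)]
    omega

theorem Markov_projA_conj (k : ℕ) (x : Hk R z) :
    proj (MarkovA (k + 1)) (sg k * proj (MarkovA k) x * sg k) = sg k * proj (MarkovA k) x * sg k := by
  have : proj (MarkovA (k + 1)) ∘ₗ rmul (sg k : Hk R z) ∘ₗ lmul (sg k) ∘ₗ proj (MarkovA k) =
      rmul (sg k : Hk R z) ∘ₗ lmul (sg k) ∘ₗ proj (MarkovA k) := by
    refine hext (fun w => ?_)
    change proj (MarkovA (k + 1)) ((sg k : Hk R z) * proj (MarkovA k) (T w : Hk R z) * (sg k : Hk R z))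
      = (sg k : Hk R z) * proj (MarkovA k) (T w : Hk R z) * (sg k : Hk R z)
    by_cases hw : w ∈ MarkovA k
    · obtain ⟨e1, e2⟩ := Markov_conj (R := R) (z := z) hw
      rw [proj_T_of_mem hw, e1, proj_T_of_mem e2]
    · rw [proj_T_of_notMem hw, mul_zero, zero_mul, map_zero]
  exact congrArg (fun f => f x) this

theorem Markov_projA_L (k : ℕ) : proj (MarkovA k) (L k : Hk R z) = L k := by
  induction k with
  | zero => exact map_zero _
  | succ k ih =>
    change proj (MarkovA (k + 1)) (sg k * L k * sg k + sg k : Hk R z) = sg k * L k * sg k + sg k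
    rw [map_add]
    congr 1
    · rw [← ih]
      exact Markov_projA_conj k (L k)
    · apply proj_T_of_mem
      refine ⟨s_mem_SS (by omega), ?_⟩
      rw [s_apply, if_neg (by omega), if_pos rfl]
      omega

theorem Markov_E_zero {n : ℕ} {x : Hk R z} (hx : proj (MarkovA (n + 1)) x = x) :
    proj (SS (n + 1)) x = 0 := by
  have : proj (SS (n + 1)) ∘ₗ proj (MarkovA (n + 1)) = (0 : Hk R z →ₗ[R] Hk R z) := by
    refine hext (fun w => ?_)
    change proj (SS (n + 1)) (proj (MarkovA (n + 1)) (T w : Hk R z)) = 0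
    by_cases hw : w ∈ MarkovA (n + 1)
    · rw [proj_T_of_mem hw, proj_T_of_notMem]
      intro h2
      have := h2 (n + 1) le_rfl
      have := hw.2
      omega
    · rw [proj_T_of_notMem hw, map_zero]
  rw [← hx]
  exact congrArg (fun f => f x) this

theorem Markov_tau_proj {S : Set G} (hS : (1 : G) ∈ S) (x : Hk R z) :
    tau (proj S x) = tau x := by
  classical
  have : (tau ∘ₗ proj S : Hk R z →ₗ[R] R) = tau := by
    refine hext (fun w => ?_)
    change tau (proj S (T w : Hk R z)) = tau (T w : Hk R z)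
    by_cases hw : w ∈ S
    · rw [proj_T_of_mem hw]
    · rw [proj_T_of_notMem hw, map_zero, tau_T, if_neg]
      intro e
      exact hw (e ▸ hS)
  exact congrArg (fun f => f x) this

theorem Markov_proj_left {n : ℕ} {a : Hk R z} (ha : a ∈ Hs n) (x : Hk R z) :
    proj (SS n) (a * x) = a * proj (SS n) x := by
  refine Hs_induction (P := fun a => proj (SS n) (a * x) = a * proj (SS n) x) ?_ ?_ ?_ ?_ ha
  · rw [one_mul, one_mul]
  · intro a _ b _ h1 h2; rw [add_mul, map_add, h1, h2, add_mul]
  · intro r a _ h1; rw [smul_mul_assoc, map_smul, h1, smul_mul_assoc]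
  · intro i hi a _ h1
    rw [mul_assoc, proj_sg_mul (s_mul_mem_SS hi), h1, mul_assoc]

theorem Markov_proj_right {n : ℕ} {a : Hk R z} (ha : a ∈ Hs n) (x : Hk R z) :
    proj (SS n) (x * a) = proj (SS n) x * a := by
  revert x
  refine Hs_induction (P := fun a => ∀ x : Hk R z, proj (SS n) (x * a) = proj (SS n) x * a)
    ?_ ?_ ?_ ?_ ha
  · intro x; rw [mul_one, mul_one]
  · intro a _ b _ h1 h2 x; rw [mul_add, map_add, h1, h2, mul_add]
  · intro r a _ h1 x; rw [mul_smul_comm, map_smul, h1, mul_smul_comm]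
  · intro i hi a _ h1 x
    rw [← mul_assoc, h1, proj_mul_sg (mul_s_mem_SS hi), mul_assoc]

theorem Markov_tau_zero {n : ℕ} {u : Hk R z} (hu : proj (SS (n + 1)) u = 0) {x y : Hk R z}
    (hx : x ∈ Hs (n + 1)) (hy : y ∈ Hs (n + 1)) : tau (x * u * y) = 0 := by
  rw [← Markov_tau_proj (one_mem_SS (n + 1)), Markov_proj_right hy, Markov_proj_left hx, hu,
    mul_zero, zero_mul, map_zero]

theorem Markov_E_L (n : ℕ) : proj (SS (n + 1)) (L (n + 1) : Hk R z) = 0 :=
  Markov_E_zero (Markov_projA_L (n + 1))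

theorem Markov_E_sg (n : ℕ) : proj (SS (n + 1)) (sg n : Hk R z) = 0 := by
  apply proj_T_of_notMem
  intro h
  have := h (n + 1) le_rfl
  rw [s_apply, if_neg (by omega), if_pos rfl] at this
  omega

theorem Markov_sgL (n : ℕ) : (sg n * L (n + 1) : Hk R z) = L n * sg n + z • L (n + 1) + 1 := by
  change (sg n * (sg n * L n * sg n + sg n) : Hk R z) =
    L n * sg n + z • (sg n * L n * sg n + sg n) + 1
  rw [mul_add, sg_sq, ← mul_assoc, ← mul_assoc, sg_sq, add_mul, one_mul, add_mul, smul_add,
    smul_mul_assoc, smul_mul_assoc]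
  abel

theorem Markov_tau_sgL (h : S_JM) (n : ℕ) {x y : Hk R z}
    (hx : x ∈ Hs (n + 1)) (hy : y ∈ Hs (n + 1)) :
    tau (x * (sg n * L (n + 1)) * y) = tau (x * y) := by
  rw [Markov_sgL, mul_add, mul_add, add_mul, add_mul, map_add, map_add, mul_one, mul_smul_comm,
    smul_mul_assoc, map_smul, Markov_tau_zero (Markov_E_L n) hx hy, smul_zero, ← mul_assoc,
    Markov_tau_zero (Markov_E_sg n) (mul_mem hx ((h R z).2.1 n)) hy, zero_add, zero_add]

theorem Markov_stab (h : S_JM) (d al : R) (n : ℕ) {x : Hk R z} (hx : x ∈ Hs (n + 1)) :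
    Mk d al (n + 2) x = d * Mk d al (n + 1) x := by
  rw [Mk_apply, Mk_apply, Markov_th_succ d al (by omega : 1 ≤ n + 1), ← mul_assoc, mul_add,
    mul_smul_comm, mul_smul_comm, map_add, map_smul, map_smul, mul_one]
  have h1 := Markov_tau_zero (Markov_E_L (R := R) (z := z) n)
    (mul_mem hx (Markov_th_mem h d al (n + 1))) (one_mem _)
  rw [mul_one] at h1
  rw [h1, smul_zero, add_zero, smul_eq_mul]

theorem Markov_pos (h : S_JM) (d al : R) (n : ℕ) {x y : Hk R z} (hx : x ∈ Hs (n + 1))
    (hy : y ∈ Hs (n + 1)) :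
    Mk d al (n + 2) (x * sg n * y) = al * Mk d al (n + 1) (x * y) := by
  have hm : y * th d al (n + 1) ∈ (Hs (n + 1) : Subalgebra R (Hk R z)) :=
    mul_mem hy (Markov_th_mem h d al (n + 1))
  rw [Mk_apply, Mk_apply, Markov_th_succ d al (by omega : 1 ≤ n + 1), ← mul_assoc, mul_add,
    mul_smul_comm, mul_smul_comm, map_add, map_smul, map_smul, mul_one]
  have h1 : tau (x * sg n * y * th d al (n + 1) : Hk R z) = 0 := by
    rw [mul_assoc (x * sg n)]
    exact Markov_tau_zero (Markov_E_sg n) hx hm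
  have h2 : tau (x * sg n * y * th d al (n + 1) * L (n + 1) : Hk R z) =
      tau (x * y * th d al (n + 1)) := by
    rw [mul_assoc (x * sg n), mul_assoc (x * sg n), Markov_comm_L h (n + 1) hm, ← mul_assoc,
      mul_assoc x (sg n), Markov_tau_sgL h n hx hm, mul_assoc x y]
  rw [h1, h2, smul_zero, zero_add, smul_eq_mul]

end MarkovAux

theorem t_markov (h : S_JM) : S_markov := by
  classical
  intro R _ z d al
  refine ⟨Markov_trace h d al, Markov_th_mem h d al, fun n x hx => Markov_comm_th h d al n hx,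
    ⟨?_, ?_⟩, fun n x hx => Markov_stab h d al n hx, ?_⟩
  · change tau (1 * 1 : Hk R z) = 1
    rw [mul_one, Hk.one_def, tau_T, if_pos rfl]
  · change tau (1 * 1 : Hk R z) = 1
    rw [mul_one, Hk.one_def, tau_T, if_pos rfl]
  · intro n e x hx y hy
    cases e
    · have e1 : (x * gen false n * y : Hk R z) = x * sg n * y - z • (x * y) := by
        rw [gen_false]
        unfold sgi
        rw [mul_sub, sub_mul, mul_smul_comm, smul_mul_assoc, mul_one]
      rw [e1, map_sub, map_smul, Markov_pos h d al n hx hy, Markov_stab h d al n (mul_mem hx hy),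
        smul_eq_mul]
      unfold apm
      rw [if_neg (by decide)]
      ring
    · rw [gen_true, Markov_pos h d al n hx hy]
      rfl

end Pool.Agent.H873
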