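import Pool.Agent.Helper873_Hecke.Stmts

set_option autoImplicit false

namespace Pool.Agent.H873

open Equiv Hk

/-- the word of the letters `o, …, o + t - 1` with signs `e` -/
def MarkovB_u (o t : ℕ) (e : ℕ → Bool) : BW := (List.range t).map (fun i => (o + i, e i))

theorem MarkovB_u_zero (o : ℕ) (e : ℕ → Bool) : MarkovB_u o 0 e = [] := rfl

theorem MarkovB_u_succ (o t : ℕ) (e : ℕ → Bool) :
    MarkovB_u o (t + 1) e = MarkovB_u o t e ++ [(o + t, e t)] := by
  unfold MarkovB_u
  rw [List.range_succ, List.map_append]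
  rfl

theorem MarkovB_u_valid (o t : ℕ) (e : ℕ → Bool) : Valid (o + t + 1) (MarkovB_u o t e) := by
  intro l hl
  unfold MarkovB_u at hl
  obtain ⟨i, hi, rfl⟩ := List.mem_map.1 hl
  have := List.mem_range.1 hi
  change o + i + 1 < o + t + 1
  omega

theorem MarkovB_bet {m k : ℕ} (hk : k < m) :
    bet 0 m k = MarkovB_u 0 (m - 1) (fun i => decide (i < k)) := by
  obtain ⟨j, hj⟩ : ∃ j, m - 1 = k + j := ⟨m - 1 - k, by omega⟩
  unfold bet MarkovB_u upw
  rw [hj, Nat.add_sub_cancel_left, List.range_add, List.map_append, List.map_map]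
  congr 1
  · apply List.map_congr_left
    intro i hi
    have := List.mem_range.1 hi
    simp [this]
  · apply List.map_congr_left
    intro i _
    simp

theorem MarkovB_prod {M : Type*} [CommMonoid M] (f : Bool → M) {m k : ℕ} (hk : k < m) :
    ∏ i ∈ Finset.range (m - 1), f (decide (i < k)) = f true ^ k * f false ^ (m - 1 - k) := by
  obtain ⟨j, hj⟩ : ∃ j, m - 1 = k + j := ⟨m - 1 - k, by omega⟩
  rw [hj, Nat.add_sub_cancel_left, Finset.prod_range_add]
  congr 1
  · rw [← Finset.card_range k, ← Finset.prod_const, Finset.card_range]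
    apply Finset.prod_congr rfl
    intro i hi
    have := Finset.mem_range.1 hi
    simp [this]
  · rw [← Finset.card_range j, ← Finset.prod_const, Finset.card_range]
    apply Finset.prod_congr rfl
    intro i _
    simp

section

variable {R : Type} [CommRing R] {z : R}

theorem MarkovB_A (h : S_markov) (d al : R) {n : ℕ} {x : Hk R z}
    (hx : x ∈ (Hs (n + 1) : Subalgebra R (Hk R z))) (t : ℕ) (e : ℕ → Bool) :
    Mk d al (n + 2 + t) (x * (wd (MarkovB_u (n + 1) t e) : Hk R z)) =
      d * (∏ i ∈ Finset.range t, apm z d al (e i)) * Mk d al (n + 1) x := by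
  obtain ⟨-, -, -, -, h5, h6⟩ := h R z d al
  induction t with
  | zero =>
    rw [MarkovB_u_zero, wd_nil, mul_one, Finset.prod_range_zero, mul_one]
    exact h5 n x hx
  | succ t ih =>
    have hx' : x * (wd (MarkovB_u (n + 1) t e) : Hk R z) ∈
        (Hs (n + 1 + t + 1) : Subalgebra R (Hk R z)) :=
      mul_mem (Hs_mono (by omega) hx) (wd_mem_Hs (MarkovB_u_valid (n + 1) t e))
    have h7 := h6 (n + 1 + t) (e t) _ hx' 1 (one_mem _)
    rw [mul_one, mul_one] at h7
    rw [MarkovB_u_succ, wd_append, wd_cons, wd_nil, mul_one, ← mul_assoc, Finset.prod_range_succ]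
    have e1 : n + 2 + (t + 1) = n + 1 + t + 2 := by omega
    have e2 : n + 1 + t + 1 = n + 2 + t := by omega
    rw [e1, h7, e2, ih]
    ring

theorem MarkovB_B (h : S_markov) (d al : R) (t : ℕ) (e : ℕ → Bool) :
    Mk d al (t + 1) (wd (MarkovB_u 0 t e) : Hk R z) =
      ∏ i ∈ Finset.range t, apm z d al (e i) := by
  obtain ⟨-, -, -, h4, -, h6⟩ := h R z d al
  induction t with
  | zero =>
    rw [MarkovB_u_zero, wd_nil, Finset.prod_range_zero]
    exact h4.2
  | succ t ih =>
    have hx' : (wd (MarkovB_u 0 t e) : Hk R z) ∈ (Hs (t + 1) : Subalgebra R (Hk R z)) := by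
      have := wd_mem_Hs (R := R) (z := z) (MarkovB_u_valid 0 t e)
      rwa [Nat.zero_add] at this
    have h7 := h6 t (e t) _ hx' 1 (one_mem _)
    rw [mul_one, mul_one] at h7
    rw [MarkovB_u_succ, wd_append, wd_cons, wd_nil, mul_one, Finset.prod_range_succ]
    simp only [Nat.zero_add]
    rw [h7, ih]
    ring

end

theorem t_markov_beta (h : S_markov) : S_markov_beta := by
  intro R _ z d al m hm
  obtain ⟨t, rfl⟩ : ∃ t, m = t + 1 := ⟨m - 1, by omega⟩
  constructor
  · unfold betaE
    rw [map_sum]
    apply Finset.sum_congr rfl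
    intro k hk
    rw [MarkovB_bet (Finset.mem_range.1 hk)]
    have h1 := MarkovB_B (z := z) h d al (t + 1 - 1) (fun i => decide (i < k))
    rw [MarkovB_prod (apm z d al) (Finset.mem_range.1 hk)] at h1
    exact h1
  · intro n x hx
    unfold betaE
    rw [map_sum, Finset.mul_sum, map_sum, Finset.mul_sum, Finset.sum_mul]
    apply Finset.sum_congr rfl
    intro k hk
    rw [MarkovB_bet (Finset.mem_range.1 hk), sh_wd]
    have e1 : (MarkovB_u 0 (t + 1 - 1) (fun i => decide (i < k))).map
        (fun l => (l.1 + (n + 1), l.2)) =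
        MarkovB_u (n + 1) (t + 1 - 1) (fun i => decide (i < k)) := by
      unfold MarkovB_u
      rw [List.map_map]
      apply List.map_congr_left
      intro i _
      change (0 + i + (n + 1), _) = (n + 1 + i, _)
      congr 1
      omega
    rw [e1]
    have h1 := MarkovB_A (z := z) h d al hx (t + 1 - 1) (fun i => decide (i < k))
    rw [MarkovB_prod (apm z d al) (Finset.mem_range.1 hk)] at h1
    have e2 : n + 1 + (t + 1) = n + 2 + (t + 1 - 1) := by omega
    rw [e2]
    exact h1

/-- the sorted list of a finset with a given maximum -/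
theorem MarkovB_sort {I : Finset ℕ} {t : ℕ} (ht : t ∈ I) (hI : ∀ i ∈ I, i ≤ t) :
    I.sort (· ≤ ·) = (I.erase t).sort (· ≤ ·) ++ [t] := by
  have hnd : ((I.erase t).sort (· ≤ ·) ++ [t]).Nodup := by
    rw [List.nodup_append]
    refine ⟨Finset.sort_nodup _ _, List.nodup_singleton _, ?_⟩
    intro a ha b hb
    rw [List.mem_singleton] at hb
    rw [Finset.mem_sort] at ha
    rw [hb]
    exact Finset.ne_of_mem_erase ha
  have hpw : ((I.erase t).sort (· ≤ ·) ++ [t]).Pairwise (· ≤ ·) := by
    rw [List.pairwise_append]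
    refine ⟨Finset.pairwise_sort _ _, List.pairwise_singleton _ _, ?_⟩
    intro a ha b hb
    rw [List.mem_singleton] at hb
    rw [Finset.mem_sort] at ha
    rw [hb]
    exact hI a (Finset.mem_of_mem_erase ha)
  have h1 := (List.toFinset_sort (r := (· ≤ ·)) hnd).2 hpw
  rw [← h1]
  congr 1
  rw [List.toFinset_append, Finset.sort_toFinset]
  ext a
  simp only [Finset.mem_union, Finset.mem_erase, List.mem_toFinset, List.mem_singleton]
  constructor
  · intro ha
    by_cases h : a = t
    · exact Or.inr h
    · exact Or.inl ⟨h, ha⟩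
  · rintro (⟨-, ha⟩ | rfl)
    · exact ha
    · exact ht

theorem MarkovB_cI_mem {R : Type} [CommRing R] {z : R} {I : Finset ℕ} {t : ℕ}
    (hI : ∀ i ∈ I, i < t) : (cI I : Hk R z) ∈ (Hs (t + 1) : Subalgebra R (Hk R z)) := by
  unfold cI
  apply Subalgebra.list_prod_mem
  intro y hy
  obtain ⟨i, hi, rfl⟩ := List.mem_map.1 hy
  rw [Finset.mem_sort] at hi
  exact sg_mem_Hs (by have := hI i hi; omega)

theorem t_markov_cI (h : S_markov) : S_markov_cI := by
  intro R _ z m hm
  obtain ⟨t, rfl⟩ : ∃ t, m = t + 1 := ⟨m - 1, by omega⟩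
  clear hm
  obtain ⟨-, -, -, h4, h5, h6⟩ := h R z 0 1
  rw [Nat.add_sub_cancel]
  induction t with
  | zero =>
    intro I hI
    have hI' : I = ∅ := by simpa using hI
    subst hI'
    rw [if_pos (by simp)]
    unfold cI
    rw [Finset.sort_empty, List.map_nil, List.prod_nil]
    exact h4.2
  | succ t ih =>
    intro I hI
    have hI' : ∀ i ∈ I, i < t + 1 := fun i hi => Finset.mem_range.1 (hI hi)
    by_cases ht : t ∈ I
    · have e1 : (cI I : Hk R z) = cI (I.erase t) * gen true t * 1 := by
        unfold cI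
        rw [MarkovB_sort ht (fun i hi => by have := hI' i hi; omega), List.map_append,
          List.prod_append, List.map_cons, List.map_nil, List.prod_singleton, mul_one]
        rfl
      have hsub : ∀ i ∈ I.erase t, i < t := by
        intro i hi
        have h1 := hI' i (Finset.mem_of_mem_erase hi)
        have h2 := Finset.ne_of_mem_erase hi
        omega
      have h7 := h6 t true _ (MarkovB_cI_mem (R := R) (z := z) hsub) 1 (one_mem _)
      rw [e1, h7, mul_one]
      have h8 : apm z 0 1 true = (1 : R) := rfl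
      rw [h8, one_mul, ih (I.erase t) (fun i hi => Finset.mem_range.2 (hsub i hi))]
      have hiff : I.erase t = Finset.range t ↔ I = Finset.range (t + 1) := by
        rw [Finset.range_add_one]
        constructor
        · intro h9
          rw [← h9, Finset.insert_erase ht]
        · intro h9
          rw [h9, Finset.erase_insert (by simp)]
      by_cases h9 : I = Finset.range (t + 1)
      · rw [if_pos h9, if_pos (hiff.2 h9)]
      · rw [if_neg h9, if_neg (fun h10 => h9 (hiff.1 h10))]
    · have hsub : ∀ i ∈ I, i < t := by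
        intro i hi
        have h1 := hI' i hi
        have h2 : i ≠ t := fun h => ht (h ▸ hi)
        omega
      have h7 := h5 t _ (MarkovB_cI_mem (R := R) (z := z) hsub)
      rw [h7, zero_mul, if_neg]
      intro h9
      apply ht
      rw [h9]
      simp

end Pool.Agent.H873
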