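import Pool.Agent.Helper873_Hecke.Stmts

set_option autoImplicit false

namespace Pool.Agent.H873

open Equiv Hk

/-! ### the cycle types of the permutations `wL` -/

/-- the element of `Fin p` with value `i`, if `i < p` -/
def MatUnit_f (p : ℕ) [NeZero p] (i : ℕ) : Fin p := Fin.ofNat p i

theorem MatUnit_f_val {p : ℕ} [NeZero p] {i : ℕ} (h : i < p) : ((MatUnit_f p i : Fin p) : ℕ) = i := by
  unfold MatUnit_f
  rw [Fin.val_ofNat]
  exact Nat.mod_eq_of_lt h

theorem MatUnit_swap {p : ℕ} [NeZero p] {i : ℕ} (h : i + 1 < p) :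
    emb p (swap (MatUnit_f p i) (MatUnit_f p (i + 1))) = s i := by
  have h1 : ((MatUnit_f p i : Fin p) : ℕ) = i := MatUnit_f_val (by omega)
  have h2 : ((MatUnit_f p (i + 1) : Fin p) : ℕ) = i + 1 := MatUnit_f_val h
  apply Subtype.ext
  ext x
  by_cases hx : x < p
  · have := emb_apply p (swap (MatUnit_f p i) (MatUnit_f p (i + 1))) ⟨x, hx⟩
    change (emb p _).1 x = _ at this
    rw [this, s_apply, swap_apply_def]
    have e1 : (⟨x, hx⟩ : Fin p) = MatUnit_f p i ↔ x = i := by
      rw [Fin.ext_iff, h1]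
    have e2 : (⟨x, hx⟩ : Fin p) = MatUnit_f p (i + 1) ↔ x = i + 1 := by
      rw [Fin.ext_iff, h2]
    simp only [e1, e2]
    split_ifs
    · exact h2
    · exact h1
    · rfl
  · rw [emb_apply_ge p _ (by omega), s_apply, if_neg (by omega), if_neg (by omega)]

/-- the list of the elements `o, …, o + m - 1` -/
def MatUnit_l (p : ℕ) [NeZero p] (o m : ℕ) : List (Fin p) := (List.range' o m).map (MatUnit_f p)

theorem MatUnit_l_succ (p : ℕ) [NeZero p] (o m : ℕ) :
    MatUnit_l p o (m + 1) = MatUnit_f p o :: MatUnit_l p (o + 1) m := by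
  unfold MatUnit_l
  rw [List.range'_succ, List.map_cons]

theorem MatUnit_upw (o m : ℕ) (e : Bool) : upw o (m + 1) e = (o, e) :: upw (o + 1) m e := by
  unfold upw
  rw [List.range_succ_eq_map, List.map_cons, List.map_map]
  congr 1
  apply List.map_congr_left
  intro x _
  simp only [Function.comp_apply, Nat.succ_eq_add_one]
  congr 1
  omega

theorem MatUnit_pw_upw (o m : ℕ) (e : Bool) : pw (upw o (m + 1) e) = s o * pw (upw (o + 1) m e) := by
  rw [MatUnit_upw]
  unfold pw
  rw [List.map_cons, List.prod_cons]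

theorem MatUnit_form {p : ℕ} [NeZero p] : ∀ (m o : ℕ), o + m < p →
    emb p (List.formPerm (MatUnit_l p o (m + 1))) = pw (upw o m true)
  | 0, o, h => by
    rw [MatUnit_l_succ]
    change emb p (List.formPerm [MatUnit_f p o]) = 1
    rw [List.formPerm_singleton, map_one]
  | m + 1, o, h => by
    rw [MatUnit_l_succ, MatUnit_l_succ, List.formPerm_cons_cons, map_mul, MatUnit_swap (by omega),
      ← MatUnit_l_succ, MatUnit_form m (o + 1) (by omega), MatUnit_pw_upw]

theorem MatUnit_mem {p : ℕ} [NeZero p] {o m : ℕ} (h : o + m ≤ p) {x : Fin p}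
    (hx : x ∈ MatUnit_l p o m) : o ≤ (x : ℕ) ∧ (x : ℕ) < o + m := by
  unfold MatUnit_l at hx
  obtain ⟨i, hi, rfl⟩ := List.mem_map.1 hx
  rw [List.mem_range'_1] at hi
  rw [MatUnit_f_val (by omega)]
  exact hi

theorem MatUnit_nodup {p : ℕ} [NeZero p] {o m : ℕ} (h : o + m ≤ p) : (MatUnit_l p o m).Nodup := by
  unfold MatUnit_l
  refine List.Nodup.map_on ?_ List.nodup_range'
  intro x hx y hy hxy
  rw [List.mem_range'_1] at hx hy
  have h2 : ((MatUnit_f p x : Fin p) : ℕ) = (MatUnit_f p y : Fin p) := by rw [hxy]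
  rwa [MatUnit_f_val (by omega), MatUnit_f_val (by omega)] at h2

/-- the block cycle -/
theorem MatUnit_block {p : ℕ} [NeZero p] (o m : ℕ) (hm : 0 < m) (h : o + m ≤ p) :
    ∃ c : Perm (Fin p), emb p c = pw (upw o (m - 1) true) ∧
      c.cycleType = Multiset.filter (fun n => 2 ≤ n) {m} ∧
      ∀ x : Fin p, c x ≠ x → o ≤ (x : ℕ) ∧ (x : ℕ) < o + m := by
  obtain ⟨k, rfl⟩ : ∃ k, m = k + 1 := ⟨m - 1, by omega⟩
  refine ⟨List.formPerm (MatUnit_l p o (k + 1)), ?_, ?_, ?_⟩
  · rw [Nat.add_sub_cancel]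
    exact MatUnit_form k o (by omega)
  · by_cases hk : k = 0
    · subst hk
      rw [MatUnit_l_succ]
      change (List.formPerm [MatUnit_f p o]).cycleType = _
      rw [List.formPerm_singleton, Perm.cycleType_one]
      decide
    · have hnd : (MatUnit_l p o (k + 1)).Nodup := MatUnit_nodup h
      have hlen : (MatUnit_l p o (k + 1)).length = k + 1 := by
        unfold MatUnit_l
        rw [List.length_map, List.length_range']
      have hc : (List.formPerm (MatUnit_l p o (k + 1))).IsCycle :=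
        List.isCycle_formPerm hnd (by omega)
      rw [hc.cycleType, List.support_formPerm_of_nodup _ hnd ?_, List.toFinset_card_of_nodup hnd, hlen]
      · rw [Multiset.filter_singleton, if_pos (show 2 ≤ k + 1 by omega)]
      · intro x hx
        have := congrArg List.length hx
        rw [hlen] at this
        simp at this
        exact hk this
  · intro x hx
    apply MatUnit_mem h
    by_contra hc
    exact hx (List.formPerm_apply_of_notMem hc)

theorem MatUnit_wL {p : ℕ} [NeZero p] : ∀ (l : List ℕ) (o : ℕ), (∀ m ∈ l, 0 < m) → o + l.sum ≤ p →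
    ∃ u : Perm (Fin p), emb p u = wL o l ∧
      u.cycleType = Multiset.filter (fun n => 2 ≤ n) (l : Multiset ℕ) ∧
      ∀ x : Fin p, u x ≠ x → o ≤ (x : ℕ)
  | [], o, _, _ => ⟨1, by rw [map_one]; rfl, by rw [Perm.cycleType_one]; rfl, fun x hx => absurd rfl hx⟩
  | m :: l, o, hpos, hsum => by
    rw [List.sum_cons] at hsum
    have hsum' : (o + m) + l.sum ≤ p := by omega
    obtain ⟨u, hu1, hu2, hu3⟩ := MatUnit_wL l (o + m) (fun x hx => hpos x (List.mem_cons_of_mem _ hx))
      hsum'
    obtain ⟨c, hc1, hc2, hc3⟩ := MatUnit_block (p := p) o m (hpos m List.mem_cons_self) (by omega)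
    have hdis : Perm.Disjoint c u := by
      intro x
      by_contra hcon
      push Not at hcon
      have h1 := hc3 x hcon.1
      have h2 := hu3 x hcon.2
      omega
    refine ⟨c * u, ?_, ?_, ?_⟩
    · rw [map_mul, hc1, hu1]
      rfl
    · rw [hdis.cycleType_mul, hc2, hu2, ← Multiset.filter_add]
      rfl
    · intro x hx
      by_cases h1 : u x = x
      · rw [Perm.mul_apply, h1] at hx
        exact (hc3 x hx).1
      · have := hu3 x h1
        omega

/-- the permutations of partitions -/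
theorem MatUnit_part {p : ℕ} [NeZero p] (a : Nat.Partition p) :
    ∃ u : Perm (Fin p), emb p u = wL 0 (a.parts.sort (· ≤ ·)) ∧
      u.cycleType = Multiset.filter (fun n => 2 ≤ n) a.parts := by
  have h1 : (↑(a.parts.sort (· ≤ ·)) : Multiset ℕ) = a.parts := Multiset.sort_eq _ _
  have h2 : (a.parts.sort (· ≤ ·)).sum = p := by
    rw [← Multiset.sum_coe, h1, a.parts_sum]
  obtain ⟨u, hu1, hu2, -⟩ := MatUnit_wL (p := p) (a.parts.sort (· ≤ ·)) 0
    (fun m hm => a.parts_pos ((Multiset.mem_sort _).1 hm)) (by rw [h2, zero_add])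
  exact ⟨u, hu1, by rw [hu2, h1]⟩

theorem MatUnit_parts {p : ℕ} (a : Nat.Partition p) : a.parts =
    Multiset.filter (fun n => 2 ≤ n) a.parts +
      Multiset.replicate (p - (Multiset.filter (fun n => 2 ≤ n) a.parts).sum) 1 := by
  have h1 : Multiset.filter (fun n => ¬ 2 ≤ n) a.parts =
      Multiset.replicate (Multiset.card (Multiset.filter (fun n => ¬ 2 ≤ n) a.parts)) 1 := by
    rw [Multiset.eq_replicate]
    refine ⟨rfl, fun b hb => ?_⟩
    have h2 := Multiset.mem_filter.1 hb
    have h3 := a.parts_pos h2.1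
    omega
  have h2 := Multiset.filter_add_not (fun n => 2 ≤ n) a.parts
  have h3 := congrArg Multiset.sum h2
  rw [Multiset.sum_add, a.parts_sum] at h3
  have h4 : (Multiset.filter (fun n => ¬ 2 ≤ n) a.parts).sum =
      Multiset.card (Multiset.filter (fun n => ¬ 2 ≤ n) a.parts) := by
    conv_lhs => rw [h1]
    rw [Multiset.sum_replicate, smul_eq_mul, mul_one]
  conv_lhs => rw [← h2]
  congr 1
  rw [h1]
  congr 1
  omega

theorem MatUnit_inj {p : ℕ} {a b : Nat.Partition p}
    (h : Multiset.filter (fun n => 2 ≤ n) a.parts = Multiset.filter (fun n => 2 ≤ n) b.parts) :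
    a = b := by
  apply Nat.Partition.ext
  rw [MatUnit_parts a, MatUnit_parts b, h]

/-! ### the numbers at `z = 0` -/

open Classical in
/-- the number of `g` with `u g v g⁻¹ = 1` -/
noncomputable def MatUnit_nu {p : ℕ} (u v : Perm (Fin p)) : ℤ :=
  ∑ g : Perm (Fin p), if u * (g * v * g⁻¹) = 1 then 1 else 0

theorem MatUnit_nu_ne {p : ℕ} {u v : Perm (Fin p)} (h : u.cycleType ≠ v.cycleType) :
    MatUnit_nu u v = 0 := by
  unfold MatUnit_nu
  apply Finset.sum_eq_zero
  intro g _
  rw [if_neg]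
  intro h1
  apply h
  have h2 : g * v * g⁻¹ = u⁻¹ := eq_inv_of_mul_eq_one_right h1
  have h3 := Perm.cycleType_conj (σ := v) (τ := g)
  rw [h2, Perm.cycleType_inv] at h3
  exact h3

theorem MatUnit_nu_self {p : ℕ} (u : Perm (Fin p)) :
    MatUnit_nu u u = (Nat.card (Subgroup.centralizer {u}) : ℤ) := by
  classical
  have hconj : IsConj u u⁻¹ := by
    rw [Perm.isConj_iff_cycleType_eq, Perm.cycleType_inv]
  obtain ⟨h, hh⟩ := isConj_iff.1 hconj
  unfold MatUnit_nu
  rw [← Equiv.sum_comp (Equiv.mulLeft h)]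
  have h1 : ∀ g : Perm (Fin p), (if u * (Equiv.mulLeft h g * u * (Equiv.mulLeft h g)⁻¹) = 1 then
      (1 : ℤ) else 0) = if g ∈ Subgroup.centralizer {u} then 1 else 0 := by
    intro g
    congr 1
    rw [Equiv.coe_mulLeft, Subgroup.mem_centralizer_singleton_iff, eq_iff_iff]
    have e : h * g * u * (h * g)⁻¹ = h * (g * u * g⁻¹) * h⁻¹ := by
      rw [mul_inv_rev]; group
    rw [e]
    constructor
    · intro h2
      have h3 : h * (g * u * g⁻¹) * h⁻¹ = h * u * h⁻¹ := by
        rw [hh]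
        exact eq_inv_of_mul_eq_one_right h2
      have h4 : g * u * g⁻¹ = u := mul_left_cancel (mul_right_cancel h3)
      rw [mul_inv_eq_iff_eq_mul] at h4
      exact h4
    · intro h2
      have h4 : g * u * g⁻¹ = u := by
        rw [mul_inv_eq_iff_eq_mul]
        exact h2
      rw [h4, hh, mul_inv_cancel]
  rw [Finset.sum_congr rfl (fun g _ => h1 g), Finset.sum_boole, Nat.card_eq_fintype_card]
  congr 1
  rw [Fintype.card_subtype]

theorem MatUnit_not_dvd {p : ℕ} (hp : p.Prime) {a : Nat.Partition p} (ha : a.parts ≠ {p})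
    (ha' : ∃ m ∈ a.parts, m ≠ 1) {u : Perm (Fin p)}
    (hu : u.cycleType = Multiset.filter (fun n => 2 ≤ n) a.parts) :
    ¬ p ∣ Nat.card (Subgroup.centralizer {u}) := by
  classical
  intro hdvd
  rw [Perm.nat_card_centralizer, Fintype.card_fin, hu, Nat.Prime.dvd_mul hp, Nat.Prime.dvd_mul hp] at hdvd
  obtain ⟨m, hm, hm1⟩ := ha'
  have hmpos := a.parts_pos hm
  have hle : ∀ n ∈ a.parts, n ≤ p := fun n hn => by
    rw [← a.parts_sum]
    exact Multiset.single_le_sum (fun _ _ => Nat.zero_le _) n hn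
  have hfle : (Multiset.filter (fun n => 2 ≤ n) a.parts).sum ≤ p := by
    have h2 := congrArg Multiset.sum (Multiset.filter_add_not (fun n => 2 ≤ n) a.parts)
    rw [Multiset.sum_add, a.parts_sum] at h2
    omega
  rcases hdvd with (h | h) | h
  · rw [hp.dvd_factorial] at h
    have h1 : m ∈ Multiset.filter (fun n => 2 ≤ n) a.parts :=
      Multiset.mem_filter.2 ⟨hm, by omega⟩
    have h2 := Multiset.single_le_sum (fun _ _ => Nat.zero_le _) m h1
    have := hp.pos
    omega
  · obtain ⟨n, hn, hn2⟩ := hp.prime.exists_mem_multiset_dvd h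
    have h1 := (Multiset.mem_filter.1 hn).1
    have h2 : n = p := le_antisymm (hle n h1) (Nat.le_of_dvd (a.parts_pos h1) hn2)
    subst h2
    obtain ⟨t, ht⟩ := Multiset.exists_cons_of_mem h1
    have h3 := a.parts_sum
    rw [ht, Multiset.sum_cons] at h3
    have h4 : t = 0 := by
      rw [Multiset.eq_zero_iff_forall_notMem]
      intro x hx
      have h5 : 0 < x := a.parts_pos (by rw [ht]; exact Multiset.mem_cons_of_mem hx)
      have h6 := Multiset.single_le_sum (fun _ _ => Nat.zero_le _) x hx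
      omega
    apply ha
    rw [ht, h4]
    rfl
  · rw [Prime.dvd_finsetProd_iff hp.prime] at h
    obtain ⟨n, hn, hn2⟩ := h
    rw [hp.dvd_factorial] at hn2
    have h1 := Multiset.mem_toFinset.1 hn
    have h2 := (Multiset.mem_filter.1 h1).2
    rw [Multiset.le_count_iff_replicate_le, Multiset.le_iff_exists_add] at hn2
    obtain ⟨t, ht⟩ := hn2
    rw [ht, Multiset.sum_add, Multiset.sum_replicate, smul_eq_mul] at hfle
    have h3 := hp.pos
    have h5 : p * 2 ≤ p * n := Nat.mul_le_mul_left p h2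
    have h6 := Nat.zero_le t.sum
    linarith

/-! ### the determinant -/

theorem MatUnit_tau {R : Type} [CommRing R] {z : R} (x : Hk R z) : tau x = coef 1 x := by
  have h := coef_eq_tau (1 : G) x
  rw [inv_one, ← Hk.one_def, mul_one] at h
  exact h.symm

theorem MatUnit_bc (h1 : S_bc) {S : Type} [CommRing S] (φ : Polynomial ℤ →+* S) (z' : S)
    (h : φ Polynomial.X = z') (p : ℕ) (w v : G) :
    (tau (T w * Tr p (T v) : Hk S z') : S) =
      φ (tau (T w * Tr p (T v) : Hk (Polynomial ℤ) Polynomial.X)) := by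
  obtain ⟨bc, hb1, hb2, hb3⟩ := h1 (Polynomial ℤ) S φ Polynomial.X z' h
  rw [MatUnit_tau, MatUnit_tau, ← hb3]
  congr 1
  rw [map_mul, hb1]
  congr 1
  unfold Tr
  rw [map_sum]
  refine Finset.sum_congr rfl fun g _ => ?_
  rw [map_mul, map_mul, hb1, hb1, hb1]

theorem MatUnit_zero (h2 : S_zero) (p : ℕ) (u v : Perm (Fin p)) :
    (tau (T (emb p u) * Tr p (T (emb p v)) : Hk ℤ 0) : ℤ) = MatUnit_nu u v := by
  classical
  unfold Tr MatUnit_nu
  rw [Finset.mul_sum, map_sum]
  refine Finset.sum_congr rfl fun g _ => ?_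
  rw [h2, h2, h2, tau_T, ← map_mul, ← map_mul, ← map_mul]
  have e : emb p (u * (g * v * g⁻¹)) = 1 ↔ u * (g * v * g⁻¹) = 1 := by
    rw [← map_one (emb p)]
    exact (emb_injective p).eq_iff
  simp only [e]

theorem t_mat (h1 : S_bc) (h2 : S_zero) : S_mat := by
  intro R _ z p hp hPU
  classical
  have : NeZero p := ⟨hp.ne_zero⟩
  choose u hu1 hu2 using fun a : Nat.Partition p => MatUnit_part a
  set MA : Matrix {l : Nat.Partition p // l.parts ≠ {p} ∧ ∃ m ∈ l.parts, m ≠ 1}
      {l : Nat.Partition p // l.parts ≠ {p} ∧ ∃ m ∈ l.parts, m ≠ 1} (Polynomial ℤ) :=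
    fun a b => tau (T (wL 0 (a.1.parts.sort (· ≤ ·))) *
      Tr p (T (wL 0 (b.1.parts.sort (· ≤ ·)))) : Hk (Polynomial ℤ) Polynomial.X) with hMA
  set φ : Polynomial ℤ →+* R := (Polynomial.aeval z : Polynomial ℤ →ₐ[ℤ] R).toRingHom with hφ
  have hφX : φ Polynomial.X = z := Polynomial.aeval_X z
  have e1 : (fun (a b : {l : Nat.Partition p // l.parts ≠ {p} ∧ ∃ m ∈ l.parts, m ≠ 1}) =>
      (tau (T (wL 0 (a.1.parts.sort (· ≤ ·))) *
        Tr p (T (wL 0 (b.1.parts.sort (· ≤ ·)))) : Hk R z) : R)) = φ.mapMatrix MA := by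
    funext a b
    exact MatUnit_bc h1 φ z hφX p _ _
  rw [e1, ← RingHom.map_det]
  change IsUnit (Polynomial.aeval z MA.det)
  apply hPU
  intro hdvd
  have e2 : MA.det.eval 0 = (Polynomial.evalRingHom (0 : ℤ)) MA.det := rfl
  rw [e2, RingHom.map_det] at hdvd
  have e3 : (Polynomial.evalRingHom (0 : ℤ)).mapMatrix MA =
      Matrix.diagonal (fun a => MatUnit_nu (u a.1) (u a.1)) := by
    ext a b
    have e4 : (Polynomial.evalRingHom (0 : ℤ)).mapMatrix MA a b =
        MatUnit_nu (u a.1) (u b.1) := by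
      have h3 := MatUnit_bc h1 (Polynomial.evalRingHom (0 : ℤ)) 0 (by simp) p
        (wL 0 (a.1.parts.sort (· ≤ ·))) (wL 0 (b.1.parts.sort (· ≤ ·)))
      have h4 := MatUnit_zero h2 p (u a.1) (u b.1)
      rw [hu1, hu1] at h4
      rw [← h4, h3]
      rfl
    rw [e4]
    by_cases hab : a = b
    · subst hab
      rw [Matrix.diagonal_apply_eq]
    · rw [Matrix.diagonal_apply_ne _ hab]
      apply MatUnit_nu_ne
      intro h5
      rw [hu2, hu2] at h5
      exact hab (Subtype.ext (MatUnit_inj h5))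
  rw [e3, Matrix.det_diagonal, Prime.dvd_finsetProd_iff (Nat.prime_iff_prime_int.1 hp)] at hdvd
  obtain ⟨a, -, ha⟩ := hdvd
  rw [MatUnit_nu_self, Int.natCast_dvd_natCast] at ha
  exact MatUnit_not_dvd hp a.2.1 a.2.2 (hu2 a.1) ha

end Pool.Agent.H873
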