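import Pool.Agent.Helper873_Hecke.Stmts2

set_option autoImplicit false

namespace Pool.Agent.H873

open Equiv Hk

theorem Move_app_inv (π : Perm ℕ) (j : ℕ) : π (π⁻¹ j) = j := π.apply_symm_apply j

theorem Move_prm_cons (l : ℕ × Bool) (w : BW) : prm (l :: w) = swap l.1 (l.1 + 1) * prm w := by
  simp [prm]

theorem Move_prm_ge {n : ℕ} {w : BW} (hw : Valid n w) : ∀ j, n ≤ j → prm w j = j := by
  induction w with
  | nil => intro j _; simp [prm]
  | cons l w ih =>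
    intro j hj
    have h1 : l.1 + 1 < n := hw l (by simp)
    have h2 : Valid n w := fun x hx => hw x (by simp [hx])
    rw [Move_prm_cons, Perm.mul_apply, ih h2 j hj, swap_apply_of_ne_of_ne (by omega) (by omega)]

theorem Move_prm_inv_lt {n : ℕ} {w : BW} (hw : Valid n w) {j : ℕ} (hj : j < n) :
    (prm w)⁻¹ j < n := by
  by_contra h
  push Not at h
  have h1 := Move_prm_ge hw _ h
  rw [Move_app_inv] at h1
  omega

theorem Move_prm_inv_pow_lt {n : ℕ} {w : BW} (hw : Valid n w) {j : ℕ} (hj : j < n) (m : ℕ) :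
    ((prm w)⁻¹ ^ m) j < n := by
  induction m with
  | zero => simpa using hj
  | succ m ih => rw [pow_succ', Perm.mul_apply]; exact Move_prm_inv_lt hw ih

theorem Move_same {π : Perm ℕ} (i m : ℕ) : π.SameCycle i ((π⁻¹ ^ m) i) := by
  refine ⟨-(m : ℤ), ?_⟩
  rw [zpow_neg, ← inv_zpow, zpow_natCast]

theorem Move_period {n : ℕ} {w : BW} (hw : Valid n w) {i : ℕ} (hi : i < n) :
    ∃ m, 1 ≤ m ∧ ((prm w)⁻¹ ^ m) i = i := by
  obtain ⟨x, y, hxy, h⟩ := Finite.exists_ne_map_eq_of_infinite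
    (fun m : ℕ => (⟨((prm w)⁻¹ ^ m) i, Move_prm_inv_pow_lt hw hi m⟩ : Fin n))
  simp only [Fin.mk.injEq] at h
  have key : ∀ x y : ℕ, x < y → ((prm w)⁻¹ ^ x) i = ((prm w)⁻¹ ^ y) i →
      ∃ m, 1 ≤ m ∧ ((prm w)⁻¹ ^ m) i = i := by
    intro x y hxy h
    refine ⟨y - x, by omega, ?_⟩
    have e : y = x + (y - x) := by omega
    rw [e, pow_add, Perm.mul_apply] at h
    exact ((((prm w)⁻¹ ^ x).injective h).symm)
  rcases lt_or_gt_of_ne hxy with h3 | h3
  · exact key x y h3 h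
  · exact key y x h3 h.symm

/-- first return to `{i, u}` when `u` is in another cycle -/
theorem Move_first1 {π : Perm ℕ} {i u : ℕ} (hp : ∃ m, 1 ≤ m ∧ (π⁻¹ ^ m) i = i)
    (hu : ¬ π.SameCycle i u) :
    ∃ m, 1 ≤ m ∧ (π⁻¹ ^ m) i = i ∧ ∀ j, 0 < j → j < m → (π⁻¹ ^ j) i ≠ i ∧ (π⁻¹ ^ j) i ≠ u := by
  classical
  refine ⟨Nat.find hp, (Nat.find_spec hp).1, (Nat.find_spec hp).2, fun j h1 h2 => ⟨fun h => ?_,
    fun h => ?_⟩⟩
  · exact Nat.find_min hp h2 ⟨h1, h⟩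
  · exact hu (h ▸ Move_same i j)

/-- first return to `{i, u}` when `u` is in the same cycle -/
theorem Move_first2 {π : Perm ℕ} {i u : ℕ} (hp : ∃ m, 1 ≤ m ∧ (π⁻¹ ^ m) i = i) (hne : u ≠ i)
    (hu : π.SameCycle i u) :
    ∃ m, 1 ≤ m ∧ (π⁻¹ ^ m) i = u ∧ ∀ j, 0 < j → j < m → (π⁻¹ ^ j) i ≠ i ∧ (π⁻¹ ^ j) i ≠ u := by
  classical
  obtain ⟨z, hz⟩ := hu
  set N := Nat.find hp with hN
  have hN1 : 1 ≤ N := (Nat.find_spec hp).1
  have hN2 : (π⁻¹ ^ N) i = i := (Nat.find_spec hp).2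
  have hNN : ∀ q : ℤ, (((π⁻¹ ^ N) ^ q : Perm ℕ)) i = i := fun q =>
    Perm.zpow_apply_eq_self_of_apply_eq_self hN2 q
  have hk : ∃ k : ℕ, k < N ∧ (π⁻¹ ^ k) i = u := by
    refine ⟨((-z) % (N : ℤ)).toNat, ?_, ?_⟩
    · have h1 := Int.emod_lt_of_pos (-z) (by omega : (0 : ℤ) < N)
      have h2 := Int.emod_nonneg (-z) (by omega : (N : ℤ) ≠ 0)
      omega
    · have h2 := Int.emod_nonneg (-z) (by omega : (N : ℤ) ≠ 0)
      have e1 : (π⁻¹ ^ (((-z) % (N : ℤ)).toNat) : Perm ℕ) = π⁻¹ ^ ((-z) % (N : ℤ)) := by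
        rw [← zpow_natCast, Int.toNat_of_nonneg h2]
      have e2 : (π⁻¹ ^ (-z) : Perm ℕ) i = u := by rw [inv_zpow, zpow_neg, inv_inv]; exact hz
      have e3 : (-z) = (-z) % (N : ℤ) + N * ((-z) / (N : ℤ)) := (Int.emod_add_mul_ediv _ _).symm
      rw [e1]
      rw [e3, zpow_add, Perm.mul_apply, zpow_mul, zpow_natCast, hNN] at e2
      exact e2
  have hk' : ∃ k : ℕ, (π⁻¹ ^ k) i = u := hk.imp fun k h => h.2
  obtain ⟨k, hkN, hku⟩ := hk
  refine ⟨Nat.find hk', ?_, Nat.find_spec hk', fun j h1 h2 => ⟨fun h => ?_, fun h => ?_⟩⟩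
  · by_contra h0
    have h3 : Nat.find hk' = 0 := by omega
    have h4 := Nat.find_spec hk'
    rw [h3, pow_zero, Perm.one_apply] at h4
    exact hne h4.symm
  · have h3 : Nat.find hk' ≤ k := Nat.find_min' hk' hku
    exact Nat.find_min hp (show j < Nat.find hp by omega) ⟨h1, h⟩
  · exact Nat.find_min hk' h2 h

section

variable {R : Type} [CommRing R] {z : R} {M : Type} [AddCommGroup M] [Module R M]

theorem Move_step (h1 : S_cab) (h2 : S_ins) (p n : ℕ) (f : Hk R z →ₗ[R] M) (w : BW)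
    (C : Hk R z) (hf : IsTrace (p * n) f) (hw : Valid n w)
    (hC : C ∈ (Hs (p * n) : Subalgebra R (Hk R z))) (X : Hk R z)
    (hX : X ∈ (Hs (p * n) : Subalgebra R (Hk R z))) (a : Hk R z)
    (ha : a ∈ (Hs p : Subalgebra R (Hk R z))) (k : ℕ) (hk : k < n)
    (hc : sh (p * k) a * C = C * sh (p * k) a) :
    f (wd (cab p w) * (X * sh (p * k) a) * C) =
      f (wd (cab p w) * (sh (p * (prm w)⁻¹ k) a * X) * C) := by
  have hW : (wd (cab p w) : Hk R z) ∈ (Hs (p * n) : Subalgebra R (Hk R z)) :=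
    wd_mem_Hs (h1.1 p n w hw)
  have hS : (sh (p * k) a : Hk R z) ∈ (Hs (p * n) : Subalgebra R (Hk R z)) :=
    (h2 R z p).2.1 n k hk a ha
  have e1 : (wd (cab p w) * (X * sh (p * k) a) * C : Hk R z) =
      (wd (cab p w) * X * C) * sh (p * k) a := by
    rw [mul_assoc, mul_assoc X, hc]
    simp only [mul_assoc]
  have e2 : (sh (p * k) a * (wd (cab p w) * X * C) : Hk R z) =
      wd (cab p w) * (sh (p * (prm w)⁻¹ k) a * X) * C := by
    have h3 := (h1.2.2 R z p).1 w ((prm w)⁻¹ k) a ha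
    rw [Move_app_inv] at h3
    rw [← mul_assoc, ← mul_assoc, ← h3]
    simp only [mul_assoc]
  rw [e1, hf _ ((Hs (p * n)).mul_mem ((Hs (p * n)).mul_mem hW hX) hC) _ hS, e2]

theorem Move_core (h1 : S_cab) (h2 : S_ins) (p n : ℕ) (f : Hk R z →ₗ[R] M) (w : BW)
    (C : Hk R z) (hf : IsTrace (p * n) f) (hw : Valid n w)
    (hC : C ∈ (Hs (p * n) : Subalgebra R (Hk R z))) (i : ℕ) (hi : i < n)
    (hcomm : ∀ k, (prm w).SameCycle i k → ∀ a ∈ (Hs p : Subalgebra R (Hk R z)),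
      sh (p * k) a * C = C * sh (p * k) a) (X : Hk R z)
    (hX : X ∈ (Hs (p * n) : Subalgebra R (Hk R z))) (a : Hk R z)
    (ha : a ∈ (Hs p : Subalgebra R (Hk R z))) (m : ℕ)
    (hbad : ∀ j, 0 < j → j < m + 1 → sh (p * ((prm w)⁻¹ ^ j) i) a * X =
      X * sh (p * ((prm w)⁻¹ ^ j) i) a) :
    f (wd (cab p w) * (X * sh (p * i) a) * C) =
      f (wd (cab p w) * (sh (p * ((prm w)⁻¹ ^ (m + 1)) i) a * X) * C) := by
  induction m with
  | zero =>
    rw [zero_add, pow_one]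
    exact Move_step h1 h2 p n f w C hf hw hC X hX a ha i hi (hcomm i (Perm.SameCycle.refl _ _) a ha)
  | succ m ih =>
    rw [ih (fun j h3 h4 => hbad j h3 (by omega)), hbad (m + 1) (by omega) (by omega),
      Move_step h1 h2 p n f w C hf hw hC X hX a ha _ (Move_prm_inv_pow_lt hw hi (m + 1))
        (hcomm _ (Move_same i (m + 1)) a ha), ← Perm.mul_apply, ← pow_succ']

end

theorem t_move (h1 : S_cab) (h2 : S_ins) : S_move := by
  intro R _ z M _ _ p n f w C hf hw hC i hi hcomm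
  have hins := h2 R z p
  have hper := Move_period hw hi
  have hsucc : ∀ (k : ℕ) (a : Hk R z), (sh (p * (k + 1)) a : Hk R z) = sh (p * k) (sh p a) := by
    intro k a
    rw [sh_sh, Nat.mul_succ, Nat.add_comm]
  have hmem2 : ∀ k, k + 1 < n → ∀ x ∈ (Hs (2 * p) : Subalgebra R (Hk R z)),
      (sh (p * k) x : Hk R z) ∈ (Hs (p * n) : Subalgebra R (Hk R z)) := by
    intro k hk x hx
    refine Hs_mono ?_ (sh_mem_Hs hx)
    calc 2 * p + p * k = p * (k + 2) := by ring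
      _ ≤ p * n := Nat.mul_le_mul_left p hk
  refine ⟨fun x hx a ha => ?_, fun hi1 hnc x hx a ha => ?_, fun hi1 hsc x hx a ha => ?_,
    fun i0 hi0 hnc x hx a ha => ?_, fun i0 hi0 hsc x hx a ha => ?_⟩
  · have hX := hins.2.1 n i hi x hx
    obtain ⟨m, hm1, hm2, hm3⟩ := Move_first1 (π := prm w) (i := i) (u := n) hper (by
      intro hsc
      obtain ⟨zz, hzz⟩ := hsc
      have h4 : ∀ q : ℤ, ((prm w) ^ q : Perm ℕ) n = n := fun q =>
        Perm.zpow_apply_eq_self_of_apply_eq_self (Move_prm_ge hw n le_rfl) q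
      have h5 : i = n := ((prm w) ^ zz : Perm ℕ).injective (by rw [hzz, h4])
      omega)
    obtain ⟨m', rfl⟩ : ∃ m', m = m' + 1 := ⟨m - 1, by omega⟩
    have h5 := Move_core h1 h2 p n f w C hf hw hC i hi hcomm (sh (p * i) x) hX a ha m'
      (fun j hj1 hj2 => hins.1 _ _ (hm3 j hj1 hj2).1 a ha x hx)
    rw [hm2] at h5
    simpa only [map_mul] using h5
  · have hX := hmem2 i hi1 x hx
    obtain ⟨m, hm1, hm2, hm3⟩ := Move_first1 (π := prm w) (i := i) (u := i + 1) hper hnc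
    obtain ⟨m', rfl⟩ : ∃ m', m = m' + 1 := ⟨m - 1, by omega⟩
    have h5 := Move_core h1 h2 p n f w C hf hw hC i hi hcomm (sh (p * i) x) hX a ha m'
      (fun j hj1 hj2 => (hins.2.2.2.2.2 i _ (hm3 j hj1 hj2).1 (hm3 j hj1 hj2).2 x hx a ha).symm)
    rw [hm2] at h5
    simpa only [map_mul] using h5
  · have hX := hmem2 i hi1 x hx
    obtain ⟨m, hm1, hm2, hm3⟩ := Move_first2 (π := prm w) (i := i) (u := i + 1) hper (by omega) hsc
    obtain ⟨m', rfl⟩ : ∃ m', m = m' + 1 := ⟨m - 1, by omega⟩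
    have h5 := Move_core h1 h2 p n f w C hf hw hC i hi hcomm (sh (p * i) x) hX a ha m'
      (fun j hj1 hj2 => (hins.2.2.2.2.2 i _ (hm3 j hj1 hj2).1 (hm3 j hj1 hj2).2 x hx a ha).symm)
    rw [hm2, hsucc] at h5
    simpa only [map_mul] using h5
  · subst hi0
    have hX := hmem2 i0 hi x hx
    obtain ⟨m, hm1, hm2, hm3⟩ := Move_first1 (π := prm w) (i := i0 + 1) (u := i0) hper
      (fun h => hnc h.symm)
    obtain ⟨m', rfl⟩ : ∃ m', m = m' + 1 := ⟨m - 1, by omega⟩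
    have h5 := Move_core h1 h2 p n f w C hf hw hC (i0 + 1) hi hcomm (sh (p * i0) x) hX a ha m'
      (fun j hj1 hj2 => (hins.2.2.2.2.2 i0 _ (hm3 j hj1 hj2).2 (hm3 j hj1 hj2).1 x hx a ha).symm)
    rw [hm2, hsucc] at h5
    simpa only [map_mul] using h5
  · subst hi0
    have hX := hmem2 i0 hi x hx
    obtain ⟨m, hm1, hm2, hm3⟩ := Move_first2 (π := prm w) (i := i0 + 1) (u := i0) hper (by omega)
      hsc.symm
    obtain ⟨m', rfl⟩ : ∃ m', m = m' + 1 := ⟨m - 1, by omega⟩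
    have h5 := Move_core h1 h2 p n f w C hf hw hC (i0 + 1) hi hcomm (sh (p * i0) x) hX a ha m'
      (fun j hj1 hj2 => (hins.2.2.2.2.2 i0 _ (hm3 j hj1 hj2).2 (hm3 j hj1 hj2).1 x hx a ha).symm)
    rw [hm2, hsucc] at h5
    simpa only [map_mul] using h5

end Pool.Agent.H873
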