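import Pool.Agent.Helper873_Hecke.Stmts

set_option autoImplicit false

/-!
# Section 7b: the operator `Nop` is bijective on the middle double cosets
-/

namespace Pool.Agent.H873

open Equiv Hk

section NBij

variable {R : Type} [CommRing R] {z : R}

theorem NBij_proj_mul {S : Set G} {n : ℕ} (h : ∀ i, i + 1 < n → ∀ w, s i * w ∈ S ↔ w ∈ S)
    {a : Hk R z} (ha : a ∈ Hs n) : ∀ x : Hk R z, proj S (a * x) = a * proj S x := by
  refine Hs_induction (P := fun a => ∀ x : Hk R z, proj S (a * x) = a * proj S x) ?_ ?_ ?_ ?_ ha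
  · intro x; rw [one_mul, one_mul]
  · intro a _ b _ ha hb x; rw [add_mul, map_add, ha, hb, add_mul]
  · intro r a _ ha x; rw [smul_mul_assoc, map_smul, ha, smul_mul_assoc]
  · intro i hi a _ ha x
    rw [mul_assoc, proj_sg_mul (h i hi), ha, mul_assoc]

theorem NBij_mul_proj {S : Set G} {n : ℕ} (h : ∀ i, i + 1 < n → ∀ w, w * s i ∈ S ↔ w ∈ S)
    {a : Hk R z} (ha : a ∈ Hs n) : ∀ x : Hk R z, proj S (x * a) = proj S x * a := by
  refine Hs_induction (P := fun a => ∀ x : Hk R z, proj S (x * a) = proj S x * a) ?_ ?_ ?_ ?_ ha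
  · intro x; rw [mul_one, mul_one]
  · intro a _ b _ ha hb x; rw [mul_add, map_add, ha, hb, mul_add]
  · intro r a _ ha x; rw [mul_smul_comm, map_smul, ha, mul_smul_comm]
  · intro i hi a _ ha x
    rw [← mul_assoc, ha, proj_mul_sg (h i hi), mul_assoc]

theorem NBij_proj_sh_mul {S : Set G} {n k : ℕ}
    (h : ∀ i, i + 1 < n → ∀ w, s (i + k) * w ∈ S ↔ w ∈ S)
    {a : Hk R z} (ha : a ∈ Hs n) : ∀ x : Hk R z, proj S (sh k a * x) = sh k a * proj S x := by
  refine Hs_induction (P := fun a => ∀ x : Hk R z, proj S (sh k a * x) = sh k a * proj S x)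
    ?_ ?_ ?_ ?_ ha
  · intro x; rw [map_one, one_mul, one_mul]
  · intro a _ b _ ha hb x; rw [map_add, add_mul, map_add, ha, hb, add_mul]
  · intro r a _ ha x; rw [map_smul, smul_mul_assoc, map_smul, ha, smul_mul_assoc]
  · intro i hi a _ ha x
    rw [map_mul (sh k), sh_sg, mul_assoc, proj_sg_mul (h i hi), ha, mul_assoc]

theorem NBij_mul_sh_proj {S : Set G} {n k : ℕ}
    (h : ∀ i, i + 1 < n → ∀ w, w * s (i + k) ∈ S ↔ w ∈ S)
    {a : Hk R z} (ha : a ∈ Hs n) : ∀ x : Hk R z, proj S (x * sh k a) = proj S x * sh k a := by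
  refine Hs_induction (P := fun a => ∀ x : Hk R z, proj S (x * sh k a) = proj S x * sh k a)
    ?_ ?_ ?_ ?_ ha
  · intro x; rw [map_one, mul_one, mul_one]
  · intro a _ b _ ha hb x; rw [map_add, mul_add, map_add, ha, hb, mul_add]
  · intro r a _ ha x; rw [map_smul, mul_smul_comm, map_smul, ha, mul_smul_comm]
  · intro i hi a _ ha x
    rw [map_mul (sh k), sh_sg, ← mul_assoc, ha, proj_mul_sg (h i hi), mul_assoc]

theorem NBij_proj_proj (S S' : Set G) (x : Hk R z) : proj S (proj S' x) = proj S' (proj S x) := by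
  classical
  apply ext_coef
  intro w
  rw [coef_proj, coef_proj, coef_proj, coef_proj]
  split_ifs <;> rfl

end NBij

/-! ### membership -/

theorem NBij_inv_s_mul (i : ℕ) (w : G) (x : ℕ) : (s i * w)⁻¹.1 x = w⁻¹.1 ((s i).1 x) := by
  rw [mul_inv_rev, s_inv]; rfl

theorem NBij_inv_mul_s (i : ℕ) (w : G) (x : ℕ) : (w * s i)⁻¹.1 x = (s i).1 (w⁻¹.1 x) := by
  rw [mul_inv_rev, s_inv]; rfl

theorem NBij_s_lt {i p : ℕ} (h : i + 1 < p ∨ p ≤ i) (x : ℕ) : (s i).1 x < p ↔ x < p := by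
  rw [s_apply]
  split_ifs <;> omega

/-- the set in the definition of `Nop` -/
def NBijW (p : ℕ) : Set G := {w : G | w⁻¹.1 p < p}

theorem NBij_W_left {p i : ℕ} (h : i + 1 < p) (w : G) : s i * w ∈ NBijW p ↔ w ∈ NBijW p := by
  change (s i * w)⁻¹.1 p < p ↔ w⁻¹.1 p < p
  rw [NBij_inv_s_mul, s_apply, if_neg (by omega), if_neg (by omega)]

theorem NBij_W_right {p i : ℕ} (h : i + 1 < p ∨ p ≤ i) (w : G) :
    w * s i ∈ NBijW p ↔ w ∈ NBijW p := by
  change (w * s i)⁻¹.1 p < p ↔ w⁻¹.1 p < p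
  rw [NBij_inv_mul_s, NBij_s_lt h]

theorem NBij_jn_left {p i : ℕ} (h : i + 1 < p) (w : G) : jn p (s i * w) = jn p w := by
  classical
  unfold jn
  congr 1
  ext k
  simp only [Finset.mem_filter, Finset.mem_range, and_congr_right_iff]
  intro hk
  rw [NBij_inv_s_mul, s_apply, if_neg (by omega), if_neg (by omega)]

theorem NBij_jn_left' {p i : ℕ} (h : i + 1 < p) (w : G) : jn p (s (i + p) * w) = jn p w := by
  classical
  unfold jn
  apply Finset.card_bij (fun k _ => (s i).1 k)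
  · intro k hk
    simp only [Finset.mem_filter, Finset.mem_range] at hk ⊢
    refine ⟨(NBij_s_lt (Or.inl h) k).2 hk.1, ?_⟩
    have h2 := hk.2
    rw [NBij_inv_s_mul] at h2
    have e : (s (i + p)).1 (p + k) = p + (s i).1 k := by
      rw [s_apply, s_apply]; split_ifs <;> omega
    rwa [e] at h2
  · intro a _ b _ hab
    exact (s i).1.injective hab
  · intro k hk
    simp only [Finset.mem_filter, Finset.mem_range] at hk
    refine ⟨(s i).1 k, ?_, ?_⟩
    · simp only [Finset.mem_filter, Finset.mem_range]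
      refine ⟨(NBij_s_lt (Or.inl h) k).2 hk.1, ?_⟩
      rw [NBij_inv_s_mul]
      have e : (s (i + p)).1 (p + (s i).1 k) = p + k := by
        rw [s_apply, s_apply]; split_ifs <;> omega
      rw [e]
      exact hk.2
    · rw [s_apply, s_apply]; split_ifs <;> omega

theorem NBij_jn_right {p i : ℕ} (h : i + 1 < p ∨ p ≤ i) (w : G) : jn p (w * s i) = jn p w := by
  classical
  unfold jn
  congr 1
  ext k
  simp only [Finset.mem_filter, Finset.mem_range, and_congr_right_iff]
  intro hk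
  rw [NBij_inv_mul_s, NBij_s_lt h]

theorem NBij_V_left {p j i : ℕ} (h : i + 1 < p) (w : G) : s i * w ∈ VV p j ↔ w ∈ VV p j := by
  change (s i * w ∈ SS (2 * p) ∧ jn p (s i * w) = j) ↔ (w ∈ SS (2 * p) ∧ jn p w = j)
  rw [s_mul_mem_SS (by omega), NBij_jn_left h]

theorem NBij_V_left' {p j i : ℕ} (h : i + 1 < p) (w : G) :
    s (i + p) * w ∈ VV p j ↔ w ∈ VV p j := by
  change (s (i + p) * w ∈ SS (2 * p) ∧ jn p (s (i + p) * w) = j) ↔ (w ∈ SS (2 * p) ∧ jn p w = j)
  rw [s_mul_mem_SS (by omega), NBij_jn_left' h]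

theorem NBij_V_right {p j i : ℕ} (h : i + 1 < p) (w : G) : w * s i ∈ VV p j ↔ w ∈ VV p j := by
  change (w * s i ∈ SS (2 * p) ∧ jn p (w * s i) = j) ↔ (w ∈ SS (2 * p) ∧ jn p w = j)
  rw [mul_s_mem_SS (by omega), NBij_jn_right (Or.inl h)]

theorem NBij_V_right' {p j i : ℕ} (h : i + 1 < p) (w : G) :
    w * s (i + p) ∈ VV p j ↔ w ∈ VV p j := by
  change (w * s (i + p) ∈ SS (2 * p) ∧ jn p (w * s (i + p)) = j) ↔ (w ∈ SS (2 * p) ∧ jn p w = j)
  rw [mul_s_mem_SS (by omega), NBij_jn_right (Or.inr (by omega))]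

/-! ### the operator as a linear map and its commutation relations -/

section NBijOp

variable {R : Type} [CommRing R] {z : R}

/-- `Nop` as a linear map -/
noncomputable def NBijL (p : ℕ) : Hk R z →ₗ[R] Hk R z :=
  ∑ g : Perm (Fin p), lmul (sh p (T (emb p g⁻¹) : Hk R z)) ∘ₗ proj (NBijW p) ∘ₗ
    lmul (sh p (T (emb p g) : Hk R z))

theorem NBijL_apply (p : ℕ) (x : Hk R z) : NBijL p x = Nop p x := by
  unfold NBijL Nop
  rw [LinearMap.sum_apply]
  rfl

theorem NBij_Nop_def (p : ℕ) (x : Hk R z) : Nop p x = ∑ g : Perm (Fin p),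
    sh p (T (emb p g⁻¹) : Hk R z) * proj (NBijW p) (sh p (T (emb p g) : Hk R z) * x) := rfl

theorem NBij_Nop_left {p : ℕ} {a : Hk R z} (ha : a ∈ Hs p) (x : Hk R z) :
    Nop p (a * x) = a * Nop p x := by
  rw [NBij_Nop_def, NBij_Nop_def, Finset.mul_sum]
  apply Finset.sum_congr rfl
  intro g _
  rw [← mul_assoc, ← commute_sh ha, mul_assoc, NBij_proj_mul (fun i hi w => NBij_W_left hi w) ha,
    ← mul_assoc, ← commute_sh ha, mul_assoc]

theorem NBij_Nop_right {p : ℕ} {a : Hk R z} (ha : a ∈ Hs p) (x : Hk R z) :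
    Nop p (x * a) = Nop p x * a := by
  rw [NBij_Nop_def, NBij_Nop_def, Finset.sum_mul]
  apply Finset.sum_congr rfl
  intro g _
  rw [← mul_assoc, NBij_mul_proj (fun i hi w => NBij_W_right (Or.inl hi) w) ha, mul_assoc]

theorem NBij_Nop_right' {p : ℕ} {a : Hk R z} (ha : a ∈ Hs p) (x : Hk R z) :
    Nop p (x * sh p a) = Nop p x * sh p a := by
  rw [NBij_Nop_def, NBij_Nop_def, Finset.sum_mul]
  apply Finset.sum_congr rfl
  intro g _
  rw [← mul_assoc, NBij_mul_sh_proj (fun i hi w => NBij_W_right (Or.inr (by omega)) w) ha,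
    mul_assoc]

theorem NBij_Nop_left' {p : ℕ} {a : Hk R z} (ha : a ∈ Hs p) (x : Hk R z) :
    Nop p (sh p a * x) = sh p a * Nop p x := by
  have h := casimir ha (LinearMap.mk₂ R
    (fun u v : Hk R z => sh p v * proj (NBijW p) (sh p u * x))
    (fun a b c => by rw [map_add, add_mul, map_add, mul_add])
    (fun r a b => by rw [map_smul, smul_mul_assoc, map_smul, mul_smul_comm])
    (fun a b c => by rw [map_add, add_mul])
    (fun r a b => by rw [map_smul, smul_mul_assoc]))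
  simp only [LinearMap.mk₂_apply] at h
  rw [NBij_Nop_def, NBij_Nop_def, Finset.mul_sum]
  simp only [map_mul, mul_assoc] at h ⊢
  exact h

theorem NBij_Nop_proj (p j : ℕ) (x : Hk R z) :
    proj (VV p j) (Nop p x) = Nop p (proj (VV p j) x) := by
  rw [NBij_Nop_def, NBij_Nop_def, map_sum]
  apply Finset.sum_congr rfl
  intro g _
  rw [NBij_proj_sh_mul (fun i hi w => NBij_V_left' hi w) (T_mem_Hs (emb_mem_SS p g⁻¹)),
    NBij_proj_proj, NBij_proj_sh_mul (fun i hi w => NBij_V_left' hi w) (T_mem_Hs (emb_mem_SS p g))]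

theorem NBij_Nop_sub (p : ℕ) (x y : Hk R z) : Nop p (x - y) = Nop p x - Nop p y := by
  rw [← NBijL_apply, ← NBijL_apply, ← NBijL_apply, map_sub]

end NBijOp

/-! ### the value at `z = 0` -/

/-- the elements of `S_p` weighted by a function of the image of `0` -/
theorem NBij_count (n : ℕ) (f : Fin (n + 1) → ℕ) :
    ∑ g : Perm (Fin (n + 1)), f (g 0) = n.factorial * ∑ k, f k := by
  rw [← Equiv.sum_comp (Equiv.Perm.decomposeFin (n := n)).symm, Fintype.sum_prod_type]
  simp only [Equiv.Perm.decomposeFin_symm_apply_zero, Finset.sum_const, Finset.card_univ,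
    Fintype.card_perm, Fintype.card_fin, smul_eq_mul]
  rw [Finset.mul_sum]

theorem NBij_zero (h2 : S_zero) (n : ℕ) (w : G) :
    Nop (n + 1) (T w : Hk ℤ 0) = ((n.factorial * jn (n + 1) w : ℕ) : ℤ) • (T w : Hk ℤ 0) := by
  classical
  have key : ∀ g : Perm (Fin (n + 1)),
      sh (n + 1) (T (emb (n + 1) g⁻¹) : Hk ℤ 0) *
        proj (NBijW (n + 1)) (sh (n + 1) (T (emb (n + 1) g) : Hk ℤ 0) * (T w : Hk ℤ 0)) =
      (((if w⁻¹.1 (n + 1 + (g⁻¹ 0 : Fin (n + 1))) < n + 1 then 1 else 0 : ℕ)) : ℤ) •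
        (T w : Hk ℤ 0) := by
    intro g
    rw [sh_T, sh_T, h2]
    have e : (shG (n + 1) (emb (n + 1) g) * w)⁻¹.1 (n + 1) =
        w⁻¹.1 (n + 1 + (g⁻¹ 0 : Fin (n + 1))) := by
      rw [mul_inv_rev, ← map_inv, ← map_inv]
      change w⁻¹.1 ((shG (n + 1) (emb (n + 1) g⁻¹)).1 (n + 1)) = _
      have h3 := shG_apply_add (n + 1) (emb (n + 1) g⁻¹) 0
      rw [Nat.zero_add] at h3
      have h4 := emb_apply (n + 1) g⁻¹ 0
      rw [h3]
      have h5 : ((0 : Fin (n + 1)) : ℕ) = 0 := rfl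
      rw [h5] at h4
      rw [h4, Nat.add_comm]
    by_cases hw : w⁻¹.1 (n + 1 + (g⁻¹ 0 : Fin (n + 1))) < n + 1
    · have hm : shG (n + 1) (emb (n + 1) g) * w ∈ NBijW (n + 1) := by
        change (shG (n + 1) (emb (n + 1) g) * w)⁻¹.1 (n + 1) < n + 1
        rw [e]; exact hw
      rw [if_pos hw, proj_T_of_mem hm, h2, ← mul_assoc,
        ← map_mul, ← map_mul, inv_mul_cancel, map_one, map_one, one_mul, Nat.cast_one, one_smul]
    · have hm : shG (n + 1) (emb (n + 1) g) * w ∉ NBijW (n + 1) := by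
        intro h
        apply hw
        rw [← e]; exact h
      rw [if_neg hw, proj_T_of_notMem hm, mul_zero, Nat.cast_zero, zero_smul]
  rw [NBij_Nop_def, Finset.sum_congr rfl (fun g _ => key g), ← Finset.sum_smul, ← Nat.cast_sum]
  congr 2
  rw [← Equiv.sum_comp (Equiv.inv (Perm (Fin (n + 1))))]
  simp only [Equiv.inv_apply, inv_inv]
  rw [NBij_count n (fun k : Fin (n + 1) => if w⁻¹.1 (n + 1 + (k : ℕ)) < n + 1 then 1 else 0)]
  congr 1
  unfold jn
  rw [Finset.card_filter, Finset.sum_range]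

/-! ### the matrix -/

theorem NBij_finite_SS (n : ℕ) : (SS n).Finite := by
  apply (Set.finite_range (emb n)).subset
  intro w hw
  obtain ⟨g, hg⟩ := exists_emb hw
  exact ⟨g, hg⟩

theorem NBij_finite_VV (p j : ℕ) : (VV p j).Finite :=
  (NBij_finite_SS (2 * p)).subset (fun _ hw => hw.1)

noncomputable local instance NBij_fintype (p j : ℕ) : Fintype (VV p j) := (NBij_finite_VV p j).fintype

/-- the matrix of `Nop` -/
noncomputable def NBijM (R : Type) [CommRing R] (z : R) (p j : ℕ) :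
    Matrix (VV p j) (VV p j) R := fun a b => coef a.1 (Nop p (T b.1 : Hk R z))

theorem NBij_coef_smul {R : Type} [CommRing R] {z : R} (w : G) (r : R) (x : Hk R z) :
    coef w (r • x) = r * coef w x := by
  unfold coef
  rw [map_smul]; rfl

theorem NBij_coef_add {R : Type} [CommRing R] {z : R} (w : G) (x y : Hk R z) :
    coef w (x + y) = coef w x + coef w y := by
  unfold coef
  rw [map_add]; rfl

theorem NBij_coef_sum {R : Type} [CommRing R] {z : R} {ι : Type*} (t : Finset ι) (w : G)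
    (x : ι → Hk R z) : coef w (∑ i ∈ t, x i) = ∑ i ∈ t, coef w (x i) := by
  have := map_sum (basis.coord w : Hk R z →ₗ[R] R) x t
  exact this

open Classical in
theorem NBij_det_zero (h2 : S_zero) (n j : ℕ) :
    (NBijM ℤ 0 (n + 1) j).det =
      ((n.factorial * j : ℕ) : ℤ) ^ Fintype.card (VV (n + 1) j) := by
  have : NBijM ℤ 0 (n + 1) j = ((n.factorial * j : ℕ) : ℤ) • (1 : Matrix _ _ ℤ) := by
    ext a b
    have hb : jn (n + 1) b.1 = j := b.2.2
    unfold NBijM
    rw [NBij_zero h2, NBij_coef_smul, coef_T, hb, Matrix.smul_apply, Matrix.one_apply, smul_eq_mul]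
    congr 1
    by_cases h : a = b
    · rw [if_pos h, if_pos (by rw [h])]
    · rw [if_neg h, if_neg (fun h' => h (Subtype.ext h'.symm))]
  rw [this, Matrix.det_smul, Matrix.det_one, mul_one]

theorem NBij_bc (h1 : S_bc) {R R' : Type} [CommRing R] [CommRing R'] (φ : R →+* R') (z : R)
    (z' : R') (hz : φ z = z') (p j : ℕ) (a b : VV p j) :
    NBijM R' z' p j a b = φ (NBijM R z p j a b) := by
  classical
  obtain ⟨bc, hT, hs, hc⟩ := h1 R R' φ z z' hz
  have hproj : ∀ (S : Set G) (x : Hk R z), bc (proj S x) = proj S (bc x) := by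
    intro S x
    apply ext_coef
    intro w
    rw [hc, coef_proj, coef_proj, hc]
    split_ifs
    · rfl
    · exact map_zero φ
  have hN : bc (Nop p (T b.1 : Hk R z)) = Nop p (T b.1 : Hk R' z') := by
    rw [NBij_Nop_def, NBij_Nop_def, map_sum]
    apply Finset.sum_congr rfl
    intro g _
    rw [map_mul, hproj, map_mul, sh_T, sh_T, sh_T, sh_T, hT, hT, hT]
  unfold NBijM
  rw [← hc, hN]

open Classical in
theorem NBij_det_unit (h1 : S_bc) (h2 : S_zero) {R : Type} [CommRing R] (z : R) (p j : ℕ)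
    (hp : p.Prime) (hz : PU p z) (hj0 : 0 < j) (hjp : j < p) :
    IsUnit (NBijM R z p j).det := by
  obtain ⟨n, rfl⟩ : ∃ n, p = n + 1 := ⟨p - 1, by omega⟩
  have e1 : (Polynomial.aeval z) (NBijM (Polynomial ℤ) Polynomial.X (n + 1) j).det =
      (NBijM R z (n + 1) j).det := by
    have := RingHom.map_det ((Polynomial.aeval z : Polynomial ℤ →ₐ[ℤ] R) : Polynomial ℤ →+* R)
      (NBijM (Polynomial ℤ) Polynomial.X (n + 1) j)
    change ((Polynomial.aeval z : Polynomial ℤ →ₐ[ℤ] R) : Polynomial ℤ →+* R)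
      (NBijM (Polynomial ℤ) Polynomial.X (n + 1) j).det = _
    rw [this]
    congr 1
    ext a b
    rw [NBij_bc h1 ((Polynomial.aeval z : Polynomial ℤ →ₐ[ℤ] R) : Polynomial ℤ →+* R)
      Polynomial.X z (by simp)]
    rfl
  have e2 : (NBijM (Polynomial ℤ) Polynomial.X (n + 1) j).det.eval 0 =
      (NBijM ℤ 0 (n + 1) j).det := by
    have := RingHom.map_det (Polynomial.evalRingHom (0 : ℤ))
      (NBijM (Polynomial ℤ) Polynomial.X (n + 1) j)
    change (Polynomial.evalRingHom (0 : ℤ))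
      (NBijM (Polynomial ℤ) Polynomial.X (n + 1) j).det = _
    rw [this]
    congr 1
    ext a b
    rw [NBij_bc h1 (Polynomial.evalRingHom (0 : ℤ)) Polynomial.X 0 (by simp)]
    rfl
  rw [← e1]
  apply hz
  rw [e2, NBij_det_zero h2]
  intro hd
  have hpi : Prime ((n + 1 : ℕ) : ℤ) := Nat.prime_iff_prime_int.1 hp
  have h3 := hpi.dvd_of_dvd_pow hd
  rw [Int.natCast_dvd_natCast] at h3
  rcases hp.dvd_mul.1 h3 with h4 | h4
  · have := (hp.dvd_factorial).1 h4
    omega
  · have := Nat.le_of_dvd hj0 h4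
    omega

/-! ### expansion on the double coset -/

section NBijExp

variable {R : Type} [CommRing R] {z : R}

theorem NBij_coef_out {p j : ℕ} {x : Hk R z} (hx : proj (VV p j) x = x) {w : G}
    (hw : w ∉ VV p j) : coef w x = 0 := by
  classical
  rw [← hx, coef_proj, if_neg hw]

theorem NBij_expand {p j : ℕ} {x : Hk R z} (hx : proj (VV p j) x = x) :
    x = ∑ a : VV p j, coef a.1 x • (T a.1 : Hk R z) := by
  classical
  apply ext_coef
  intro w
  rw [NBij_coef_sum]
  by_cases hw : w ∈ VV p j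
  · rw [Finset.sum_eq_single (⟨w, hw⟩ : VV p j)]
    · rw [NBij_coef_smul, coef_T, if_pos rfl, mul_one]
    · intro b _ hb
      rw [NBij_coef_smul, coef_T, if_neg (fun h => hb (Subtype.ext h)), mul_zero]
    · intro h; exact absurd (Finset.mem_univ _) h
  · rw [NBij_coef_out hx hw]
    symm
    apply Finset.sum_eq_zero
    intro b _
    rw [NBij_coef_smul, coef_T, if_neg (fun h : b.1 = w => hw (h ▸ b.2)), mul_zero]

theorem NBij_coef_Nop {p j : ℕ} (c : VV p j → R) (w : VV p j) :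
    coef w.1 (Nop p (∑ a : VV p j, c a • (T a.1 : Hk R z))) =
      ((NBijM R z p j).mulVec c) w := by
  rw [← NBijL_apply, map_sum, NBij_coef_sum]
  unfold Matrix.mulVec dotProduct NBijM
  apply Finset.sum_congr rfl
  intro a _
  rw [map_smul, NBij_coef_smul, NBijL_apply, mul_comm]

open Classical in
theorem NBij_inj {p j : ℕ} (hd : IsUnit (NBijM R z p j).det) {x : Hk R z}
    (hx : proj (VV p j) x = x) (h0 : Nop p x = 0) : x = 0 := by
  have h3 : (NBijM R z p j).mulVec (fun a => coef a.1 x) = 0 := by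
    ext w
    rw [← NBij_coef_Nop, ← NBij_expand hx, h0]
    unfold coef
    rw [map_zero]; rfl
  have h4 : (fun a : VV p j => coef a.1 x) = 0 := by
    have h5 : ((NBijM R z p j)⁻¹ * NBijM R z p j).mulVec (fun a => coef a.1 x) = 0 := by
      rw [← Matrix.mulVec_mulVec, h3, Matrix.mulVec_zero]
    rwa [Matrix.nonsing_inv_mul _ hd, Matrix.one_mulVec] at h5
  rw [NBij_expand hx]
  apply Finset.sum_eq_zero
  intro a _
  have := congrFun h4 a
  change coef a.1 x = 0 at this
  rw [this, zero_smul]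

open Classical in
theorem NBij_surj {p j : ℕ} (hd : IsUnit (NBijM R z p j).det) {y : Hk R z}
    (hy : proj (VV p j) y = y) : ∃ x : Hk R z, proj (VV p j) x = x ∧ Nop p x = y := by
  have hpx : proj (VV p j) (∑ a : VV p j, ((NBijM R z p j)⁻¹.mulVec (fun a => coef a.1 y)) a •
      (T a.1 : Hk R z)) = ∑ a : VV p j, ((NBijM R z p j)⁻¹.mulVec (fun a => coef a.1 y)) a •
      (T a.1 : Hk R z) := by
    rw [map_sum]
    apply Finset.sum_congr rfl
    intro a _
    rw [map_smul, proj_T_of_mem a.2]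
  refine ⟨∑ a : VV p j, ((NBijM R z p j)⁻¹.mulVec (fun a => coef a.1 y)) a • (T a.1 : Hk R z),
    hpx, ?_⟩
  apply ext_coef
  intro w
  by_cases hw : w ∈ VV p j
  · have := NBij_coef_Nop (R := R) (z := z)
      ((NBijM R z p j)⁻¹.mulVec (fun a : VV p j => coef a.1 y)) ⟨w, hw⟩
    rw [this, Matrix.mulVec_mulVec, Matrix.mul_nonsing_inv _ hd, Matrix.one_mulVec]
  · rw [NBij_coef_out hy hw]
    apply NBij_coef_out _ hw
    rw [NBij_Nop_proj, hpx]

end NBijExp

theorem t_N (h1 : S_bc) (h2 : S_zero) : S_N := by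
  classical
  intro R _ z p j hp hz hj0 hjp xi hxi hI
  have hd := NBij_det_unit h1 h2 z p j hp hz hj0 hjp
  obtain ⟨xi', h3, h4⟩ := NBij_surj hd hxi
  refine ⟨xi', h3, ?_, h4⟩
  intro a ha
  constructor
  · rw [← sub_eq_zero]
    apply NBij_inj hd
    · rw [map_sub, NBij_mul_proj (fun i hi w => NBij_V_right hi w) ha,
        NBij_proj_sh_mul (fun i hi w => NBij_V_left' hi w) ha, h3]
    · rw [NBij_Nop_sub, NBij_Nop_right ha, NBij_Nop_left' ha, h4, (hI a ha).1, sub_self]
  · rw [← sub_eq_zero]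
    apply NBij_inj hd
    · rw [map_sub, NBij_mul_sh_proj (fun i hi w => NBij_V_right' hi w) ha,
        NBij_proj_mul (fun i hi w => NBij_V_left hi w) ha, h3]
    · rw [NBij_Nop_sub, NBij_Nop_right' ha, NBij_Nop_left ha, h4, (hI a ha).2, sub_self]

end Pool.Agent.H873
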