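import Pool.Agent.Helper873_Hecke.Stmts2

set_option autoImplicit false

namespace Pool.Agent.H873

open Equiv Hk

/-- parity of the number of inversions -/
def Parity_inv (n : ℕ) (c : ℕ → ℕ) : ZMod 2 :=
  ∑ p ∈ Finset.range n ×ˢ Finset.range n, if p.1 < p.2 ∧ c p.2 < c p.1 then 1 else 0

theorem Parity_swap_lt {i x y : ℕ} (h1 : ¬ (x = i ∧ y = i + 1)) (h2 : ¬ (x = i + 1 ∧ y = i)) :
    (swap i (i + 1) x < swap i (i + 1) y) ↔ x < y := by
  rw [swap_apply_def, swap_apply_def]
  split_ifs <;> omega

theorem Parity_swap_mem {i n x : ℕ} (hi : i + 1 < n) : swap i (i + 1) x < n ↔ x < n := by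
  rw [swap_apply_def]
  split_ifs <;> omega

theorem Parity_step (n i : ℕ) (hi : i + 1 < n) (c : ℕ → ℕ) :
    Parity_inv n (fun x => c (swap i (i + 1) x)) =
      Parity_inv n c + (if c i = c (i + 1) then 0 else 1) := by
  have h1 : Parity_inv n (fun x => c (swap i (i + 1) x)) =
      ∑ p ∈ Finset.range n ×ˢ Finset.range n,
        if swap i (i + 1) p.1 < swap i (i + 1) p.2 ∧ c p.2 < c p.1 then (1 : ZMod 2) else 0 := by
    rw [Parity_inv]
    refine Finset.sum_equiv (Equiv.prodCongr (swap i (i + 1)) (swap i (i + 1))) ?_ ?_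
    · rintro ⟨x, y⟩
      simp only [Finset.mem_product, Finset.mem_range, Equiv.prodCongr_apply, Prod.map,
        Parity_swap_mem hi]
    · rintro ⟨x, y⟩ _
      simp only [Equiv.prodCongr_apply, Prod.map, swap_apply_self]
  have h2 : ∀ p : ℕ × ℕ, (if swap i (i + 1) p.1 < swap i (i + 1) p.2 ∧ c p.2 < c p.1 then
      (1 : ZMod 2) else 0) = (if p.1 < p.2 ∧ c p.2 < c p.1 then 1 else 0) +
      ((if p = (i, i + 1) then (if c (i + 1) < c i then 1 else 0) else 0) +
      (if p = (i + 1, i) then (if c i < c (i + 1) then 1 else 0) else 0)) := by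
    rintro ⟨x, y⟩
    by_cases h1 : x = i ∧ y = i + 1
    · obtain ⟨rfl, rfl⟩ := h1
      have e1 : ¬ ((x, x + 1) = (x + 1, x)) := by
        intro h; have := congrArg Prod.fst h; simp at this
      rw [if_neg e1]
      simp only [swap_apply_left, swap_apply_right, if_true]
      have e2 : ¬ (x + 1 < x) := by omega
      have e3 : x < x + 1 := by omega
      simp only [e2, e3, false_and, true_and, if_false, add_zero]
      exact (CharTwo.add_self_eq_zero _).symm
    · by_cases h2 : x = i + 1 ∧ y = i
      · obtain ⟨rfl, rfl⟩ := h2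
        have e1 : ¬ ((y + 1, y) = (y, y + 1)) := by
          intro h; have := congrArg Prod.fst h; simp at this
        rw [if_neg e1]
        simp only [swap_apply_left, swap_apply_right, if_true]
        have e2 : ¬ (y + 1 < y) := by omega
        have e3 : y < y + 1 := by omega
        simp only [e2, e3, false_and, true_and, if_false, zero_add]
      · have e1 : ¬ ((x, y) = (i, i + 1)) := by
          intro h; exact h1 ⟨congrArg Prod.fst h, congrArg Prod.snd h⟩
        have e2 : ¬ ((x, y) = (i + 1, i)) := by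
          intro h; exact h2 ⟨congrArg Prod.fst h, congrArg Prod.snd h⟩
        rw [if_neg e1, if_neg e2]
        simp only [Parity_swap_lt h1 h2, add_zero]
  rw [h1, Finset.sum_congr rfl (fun p _ => h2 p), Finset.sum_add_distrib, Finset.sum_add_distrib,
    Finset.sum_ite_eq', Finset.sum_ite_eq']
  have m1 : (i, i + 1) ∈ Finset.range n ×ˢ Finset.range n := by
    simp only [Finset.mem_product, Finset.mem_range]; omega
  have m2 : (i + 1, i) ∈ Finset.range n ×ˢ Finset.range n := by
    simp only [Finset.mem_product, Finset.mem_range]; omega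
  rw [if_pos m1, if_pos m2, Parity_inv]
  congr 1
  rcases lt_trichotomy (c i) (c (i + 1)) with h | h | h
  · rw [if_neg (by omega), if_pos h, if_neg (by omega), zero_add]
  · rw [if_neg (by omega), if_neg (by omega), if_pos h, zero_add]
  · rw [if_pos h, if_neg (by omega), if_neg (by omega), add_zero]

/-- labels of cycles -/
noncomputable def Parity_lab (π : Perm ℕ) (x : ℕ) : ℕ := sInf {y | π.SameCycle x y}

theorem Parity_lab_mem (π : Perm ℕ) (x : ℕ) : π.SameCycle x (Parity_lab π x) :=
  Nat.sInf_mem (s := {y | π.SameCycle x y}) ⟨x, Equiv.Perm.SameCycle.refl π x⟩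

theorem Parity_lab_eq (π : Perm ℕ) (x y : ℕ) :
    Parity_lab π x = Parity_lab π y ↔ π.SameCycle x y := by
  constructor
  · intro h
    have h1 := Parity_lab_mem π x
    have h2 := Parity_lab_mem π y
    rw [h] at h1
    exact h1.trans h2.symm
  · intro h
    unfold Parity_lab
    congr 1
    ext z
    exact ⟨fun h1 => h.symm.trans h1, fun h1 => h.trans h1⟩

theorem Parity_main (n : ℕ) (π : Perm ℕ) : ∀ v : BW, Valid n v →
    ((selfCr π v : ℤ) : ZMod 2) + Parity_inv n (fun x => Parity_lab π ((prm v)⁻¹ x)) =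
      (v.length : ZMod 2) + Parity_inv n (Parity_lab π)
  | [], _ => by simp [selfCr, prm]
  | (l :: v), hv => by
    have hv' : Valid n v := fun x hx => hv x (List.mem_cons_of_mem _ hx)
    have hl : l.1 + 1 < n := hv l List.mem_cons_self
    have ih := Parity_main n π v hv'
    have h1 : (fun x => Parity_lab π ((prm (l :: v))⁻¹ x)) =
        fun x => (fun y => Parity_lab π ((prm v)⁻¹ y)) (swap l.1 (l.1 + 1) x) := by
      funext x
      simp only [prm, List.map_cons, List.prod_cons, mul_inv_rev, Equiv.swap_inv,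
        Equiv.Perm.mul_apply]
    have h0 := Parity_step n l.1 hl (fun y => Parity_lab π ((prm v)⁻¹ y))
    rw [h1, h0, selfCr, List.length_cons]
    push_cast
    have h2 : (Parity_lab π ((prm v)⁻¹ l.1) = Parity_lab π ((prm v)⁻¹ (l.1 + 1))) ↔
        π.SameCycle ((prm v)⁻¹ l.1) ((prm v)⁻¹ (l.1 + 1)) := Parity_lab_eq _ _ _
    by_cases h : π.SameCycle ((prm v)⁻¹ l.1) ((prm v)⁻¹ (l.1 + 1))
    · rw [if_pos h, if_pos (h2.mpr h)]
      have h3 : (if l.2 = true then (1 : ZMod 2) else -1) = 1 := by
        split_ifs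
        · rfl
        · decide
      rw [h3]
      linear_combination ih
    · rw [if_neg h, if_neg (fun hh => h (h2.mp hh))]
      linear_combination ih

theorem t_parity : S_parity := by
  intro n w hw
  have h1 := Parity_main n (prm w) w hw
  have h2 : (fun x => Parity_lab (prm w) ((prm w)⁻¹ x)) = Parity_lab (prm w) := by
    funext x
    rw [Parity_lab_eq]
    exact ⟨1, by simp⟩
  rw [h2] at h1
  have h3 : ((selfCr (prm w) w : ℤ) : ZMod 2) = (w.length : ZMod 2) := add_right_cancel h1
  rw [totalFraming, even_iff_two_dvd]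
  have h4 : (((selfCr (prm w) w - (w.length : ℤ)) : ℤ) : ZMod 2) = 0 := by
    push_cast
    rw [h3, sub_self]
  exact (ZMod.intCast_zmod_eq_zero_iff_dvd _ 2).mp h4

end Pool.Agent.H873
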