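import Pool.Agent.Helper873_Hecke.Stmts

set_option autoImplicit false

namespace Pool.Agent.H873

open Equiv Hk

section PrimAux

variable {R : Type*} [CommRing R] {z : R}

/-- agreement with the membership pattern `A` at the positions `≥ j` -/
def Prim_Q (b : ℕ) (A : Set ℕ) (j : ℕ) : Set G := {w | ∀ x, j ≤ x → (w⁻¹.1 x < b ↔ x ∈ A)}

theorem Prim_inv_s_mul (i : ℕ) (w : G) (x : ℕ) : (s i * w)⁻¹.1 x = w⁻¹.1 ((s i).1 x) := by
  rw [mul_inv_rev, s_inv]; rfl

theorem Prim_inv_mul_s (i : ℕ) (w : G) (x : ℕ) : (w * s i)⁻¹.1 x = (s i).1 (w⁻¹.1 x) := by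
  rw [mul_inv_rev, s_inv]; rfl

theorem Prim_Q_mono {b : ℕ} {A : Set ℕ} {j k : ℕ} (h : j ≤ k) : Prim_Q b A j ⊆ Prim_Q b A k :=
  fun _ hw x hx => hw x (le_trans h hx)

theorem Prim_Q_imp {b : ℕ} {A : Set ℕ} {i j : ℕ} (h : i + 1 < j) (w : G) (hw : w ∈ Prim_Q b A j) :
    s i * w ∈ Prim_Q b A j := by
  intro x hx
  rw [Prim_inv_s_mul, s_apply, if_neg (by omega), if_neg (by omega)]
  exact hw x hx

theorem Prim_Q_lt {b : ℕ} {A : Set ℕ} {i j : ℕ} (h : i + 1 < j) (w : G) :
    s i * w ∈ Prim_Q b A j ↔ w ∈ Prim_Q b A j := by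
  constructor
  · intro hw
    have := Prim_Q_imp h _ hw
    rwa [s_mul_s_mul] at this
  · exact Prim_Q_imp h w

theorem Prim_Q_same_imp {b : ℕ} {A : Set ℕ} {i : ℕ} (h : i ∈ A ↔ i + 1 ∈ A) (w : G)
    (hw : w ∈ Prim_Q b A 0) : s i * w ∈ Prim_Q b A 0 := by
  intro x hx
  rw [Prim_inv_s_mul, s_apply]
  split_ifs with h1 h2
  · rw [hw _ (Nat.zero_le _), ← h, h1]
  · rw [hw _ (Nat.zero_le _), h, h2]
  · exact hw x hx

theorem Prim_Q_same {b : ℕ} {A : Set ℕ} {i : ℕ} (h : i ∈ A ↔ i + 1 ∈ A) (w : G) :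
    s i * w ∈ Prim_Q b A 0 ↔ w ∈ Prim_Q b A 0 := by
  constructor
  · intro hw
    have := Prim_Q_same_imp h _ hw
    rwa [s_mul_s_mul] at this
  · exact Prim_Q_same_imp h w

theorem Prim_Q_right_imp {b : ℕ} {A : Set ℕ} {i : ℕ} (h : i + 1 ≠ b) (w : G)
    (hw : w ∈ Prim_Q b A 0) : w * s i ∈ Prim_Q b A 0 := by
  intro x hx
  rw [Prim_inv_mul_s, s_apply, ← hw x hx]
  split_ifs <;> omega

theorem Prim_Q_right {b : ℕ} {A : Set ℕ} {i : ℕ} (h : i + 1 ≠ b) (w : G) :
    w * s i ∈ Prim_Q b A 0 ↔ w ∈ Prim_Q b A 0 := by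
  constructor
  · intro hw
    have := Prim_Q_right_imp h _ hw
    rwa [mul_s_mul_s] at this
  · exact Prim_Q_right_imp h w

theorem Prim_proj_proj {S S' : Set G} (h : S ⊆ S') (x : Hk R z) :
    proj S (proj S' x) = proj S x := by
  have : proj S ∘ₗ proj S' = (proj S : Hk R z →ₗ[R] Hk R z) := by
    refine hext (fun w => ?_)
    change proj S (proj S' (T w : Hk R z)) = proj S (T w : Hk R z)
    by_cases h1 : w ∈ S'
    · rw [proj_T_of_mem h1]
    · rw [proj_T_of_notMem h1, proj_T_of_notMem (fun h2 => h1 (h h2)), map_zero]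
  exact congrArg (fun f => f x) this

theorem Prim_proj_of_sub {S S' : Set G} (h : S ⊆ S') {x : Hk R z} (hx : proj S x = x) :
    proj S' x = x := by
  have : proj S' ∘ₗ proj S = (proj S : Hk R z →ₗ[R] Hk R z) := by
    refine hext (fun w => ?_)
    change proj S' (proj S (T w : Hk R z)) = proj S (T w : Hk R z)
    by_cases h1 : w ∈ S
    · rw [proj_T_of_mem h1, proj_T_of_mem (h h1)]
    · rw [proj_T_of_notMem h1, map_zero]
  have h2 := congrArg (fun f => f x) this
  change proj S' (proj S x) = proj S x at h2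
  rwa [hx] at h2

theorem Prim_proj_gen {S : Set G} {i : ℕ} (e : Bool) (h : ∀ w, s i * w ∈ S ↔ w ∈ S) (x : Hk R z) :
    proj S (gen e i * x) = gen e i * proj S x := by
  cases e
  · change proj S ((sgi i : Hk R z) * x) = (sgi i : Hk R z) * proj S x
    unfold sgi
    rw [sub_mul, sub_mul, map_sub, proj_sg_mul h, smul_mul_assoc, smul_mul_assoc, map_smul,
      one_mul, one_mul]
  · exact proj_sg_mul h x

open Classical in
/-- the diagonal part of the letter `i` with respect to the pattern `A` -/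
noncomputable def Prim_D (A : Set ℕ) (e : Bool) (i : ℕ) : Hk R z :=
  if (i ∈ A ↔ i + 1 ∈ A) then gen e i
  else if i ∈ A then (if e then 0 else (-z) • (1 : Hk R z)) else (if e then z • (1 : Hk R z) else 0)

theorem Prim_D_same {A : Set ℕ} {e : Bool} {i : ℕ} (h : i ∈ A ↔ i + 1 ∈ A) :
    (Prim_D A e i : Hk R z) = gen e i := by
  unfold Prim_D; rw [if_pos h]

theorem Prim_step (b : ℕ) (A : Set ℕ) (e : Bool) (i : ℕ) {v : Hk R z}
    (hv : proj (Prim_Q b A 0) v = v) :
    proj (Prim_Q b A (i + 1)) (gen e i * v) = Prim_D A e i * v ∧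
      proj (Prim_Q b A 0) (Prim_D A e i * v) = Prim_D A e i * v := by
  classical
  by_cases h : i ∈ A ↔ i + 1 ∈ A
  · rw [Prim_D_same h]
    have h1 : proj (Prim_Q b A 0) ((gen e i : Hk R z) * v) = gen e i * v := by
      rw [Prim_proj_gen e (Prim_Q_same h), hv]
    exact ⟨Prim_proj_of_sub (Prim_Q_mono (Nat.zero_le _)) h1, h1⟩
  · have h2 : ∃ c : R, (Prim_D A e i : Hk R z) = c • 1 := by
      unfold Prim_D
      rw [if_neg h]
      by_cases h3 : i ∈ A
      · rw [if_pos h3]
        cases e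
        · exact ⟨-z, rfl⟩
        · exact ⟨0, by rw [zero_smul]; rfl⟩
      · rw [if_neg h3]
        cases e
        · exact ⟨0, by rw [zero_smul]; rfl⟩
        · exact ⟨z, rfl⟩
    refine ⟨?_, ?_⟩
    · have key : proj (Prim_Q b A (i + 1)) ∘ₗ lmul (gen e i) ∘ₗ proj (Prim_Q b A 0)
          = (lmul (Prim_D A e i) ∘ₗ proj (Prim_Q b A 0) : Hk R z →ₗ[R] Hk R z) := by
        refine hext (fun w => ?_)
        change proj (Prim_Q b A (i + 1)) ((gen e i : Hk R z) * proj (Prim_Q b A 0) (T w : Hk R z))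
          = (Prim_D A e i : Hk R z) * proj (Prim_Q b A 0) (T w : Hk R z)
        by_cases hw : w ∈ Prim_Q b A 0
        · rw [proj_T_of_mem hw]
          have hw1 : w ∈ Prim_Q b A (i + 1) := Prim_Q_mono (Nat.zero_le _) hw
          have e1 : (s i * w)⁻¹.1 (i + 1) = w⁻¹.1 i := by
            rw [Prim_inv_s_mul, s_apply, if_neg (by omega), if_pos rfl]
          have a1 := hw i (Nat.zero_le _)
          have a2 := hw (i + 1) (Nat.zero_le _)
          have hs : s i * w ∉ Prim_Q b A (i + 1) := by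
            intro h3
            have := h3 (i + 1) le_rfl
            rw [e1, a1] at this
            exact h this
          by_cases h3 : i ∈ A
          · have h4 : i + 1 ∉ A := fun h4 => h ⟨fun _ => h4, fun _ => h3⟩
            have h5 : LA i w := by
              unfold LA
              have := a1.2 h3
              have : ¬ w⁻¹.1 (i + 1) < b := fun h6 => h4 (a2.1 h6)
              omega
            unfold Prim_D
            rw [if_neg h, if_pos h3]
            cases e
            · change proj (Prim_Q b A (i + 1)) ((sgi i : Hk R z) * T w) = (-z) • (1 : Hk R z) * T w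
              unfold sgi
              rw [sub_mul, sg_mul_T_asc h5, map_sub, proj_T_of_notMem hs, smul_mul_assoc, one_mul,
                map_smul, proj_T_of_mem hw1, smul_mul_assoc, one_mul, zero_sub, neg_smul]
            · change proj (Prim_Q b A (i + 1)) ((sg i : Hk R z) * T w) = (0 : Hk R z) * T w
              rw [sg_mul_T_asc h5, proj_T_of_notMem hs, zero_mul]
          · have h4 : i + 1 ∈ A := by
              by_contra h4
              exact h ⟨fun h5 => absurd h5 h3, fun h5 => absurd h5 h4⟩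
            have h5 : ¬ LA i w := by
              unfold LA
              have := a2.2 h4
              have : ¬ w⁻¹.1 i < b := fun h6 => h3 (a1.1 h6)
              omega
            unfold Prim_D
            rw [if_neg h, if_neg h3]
            cases e
            · change proj (Prim_Q b A (i + 1)) ((sgi i : Hk R z) * T w) = (0 : Hk R z) * T w
              unfold sgi
              rw [sub_mul, sg_mul_T_desc h5, map_sub, map_add, proj_T_of_notMem hs, smul_mul_assoc,
                one_mul, map_smul, proj_T_of_mem hw1, zero_add, sub_self, zero_mul]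
            · change proj (Prim_Q b A (i + 1)) ((sg i : Hk R z) * T w) = z • (1 : Hk R z) * T w
              rw [sg_mul_T_desc h5, map_add, proj_T_of_notMem hs, map_smul, proj_T_of_mem hw1,
                zero_add, smul_mul_assoc, one_mul]
        · rw [proj_T_of_notMem hw, mul_zero, mul_zero, map_zero]
      have h3 := congrArg (fun f => f v) key
      change proj (Prim_Q b A (i + 1)) ((gen e i : Hk R z) * proj (Prim_Q b A 0) v)
          = (Prim_D A e i : Hk R z) * proj (Prim_Q b A 0) v at h3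
      rwa [hv] at h3
    · obtain ⟨c, hc⟩ := h2
      rw [hc, smul_mul_assoc, one_mul, map_smul, hv]

/-- ordered product `f j * f (j+1) * ⋯` of `n` factors -/
noncomputable def Prim_pr (f : ℕ → Hk R z) : ℕ → ℕ → Hk R z
  | _, 0 => 1
  | j, n + 1 => f j * Prim_pr f (j + 1) n

theorem Prim_pr_zero (f : ℕ → Hk R z) (j : ℕ) : Prim_pr f j 0 = 1 := rfl
theorem Prim_pr_succ (f : ℕ → Hk R z) (j n : ℕ) : Prim_pr f j (n + 1) = f j * Prim_pr f (j + 1) n :=
  rfl

theorem Prim_pr_add (f : ℕ → Hk R z) (j n k : ℕ) :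
    Prim_pr f j (n + k) = Prim_pr f j n * Prim_pr f (j + n) k := by
  induction n generalizing j with
  | zero => rw [Nat.zero_add, Prim_pr_zero, one_mul, Nat.add_zero]
  | succ n ih =>
    rw [Nat.add_right_comm, Prim_pr_succ, Prim_pr_succ, ih, mul_assoc,
      show j + 1 + n = j + (n + 1) by omega]

theorem Prim_pr_congr {f g : ℕ → Hk R z} {j n : ℕ} (h : ∀ i, j ≤ i → i < j + n → f i = g i) :
    Prim_pr f j n = Prim_pr g j n := by
  induction n generalizing j with
  | zero => rfl
  | succ n ih =>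
    rw [Prim_pr_succ, Prim_pr_succ, h j le_rfl (by omega),
      ih (fun i h1 h2 => h i (by omega) (by omega))]

theorem Prim_pr_eq_zero {f : ℕ → Hk R z} {j n i : ℕ} (h1 : j ≤ i) (h2 : i < j + n) (h : f i = 0) :
    Prim_pr f j n = 0 := by
  induction n generalizing j with
  | zero => omega
  | succ n ih =>
    rw [Prim_pr_succ]
    by_cases h3 : j = i
    · rw [h3, h, zero_mul]
    · rw [ih (by omega) (by omega), mul_zero]

theorem Prim_sh_pr (k : ℕ) (f : ℕ → Hk R z) (j n : ℕ) :
    sh k (Prim_pr f j n) = Prim_pr (fun i => sh k (f (i - k))) (j + k) n := by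
  induction n generalizing j with
  | zero => rw [Prim_pr_zero, Prim_pr_zero, map_one]
  | succ n ih =>
    rw [Prim_pr_succ, Prim_pr_succ, map_mul, ih, Nat.add_sub_cancel, Nat.add_right_comm]

theorem Prim_upw_succ (a n : ℕ) (e : Bool) : upw a (n + 1) e = (a, e) :: upw (a + 1) n e := by
  unfold upw
  rw [List.range_succ_eq_map, List.map_cons, List.map_map, Nat.add_zero]
  congr 1
  apply List.map_congr_left
  intro i _
  simp only [Function.comp]
  congr 1
  omega

theorem Prim_wd_upw (a n : ℕ) (e : Bool) :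
    (wd (upw a n e) : Hk R z) = Prim_pr (fun i => gen e i) a n := by
  induction n generalizing a with
  | zero => rfl
  | succ n ih => rw [Prim_upw_succ, wd_cons, ih, Prim_pr_succ]

theorem Prim_wd_bet (o m k : ℕ) (hk : k + 1 ≤ m) :
    (wd (bet o m k) : Hk R z) = Prim_pr (fun i => gen (decide (i < o + k)) i) o (m - 1) := by
  unfold bet
  rw [wd_append, Prim_wd_upw, Prim_wd_upw, show m - 1 = k + (m - 1 - k) by omega, Prim_pr_add,
    Nat.add_sub_cancel_left]
  congr 1
  · apply Prim_pr_congr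
    intro i h1 h2
    simp [h2]
  · apply Prim_pr_congr
    intro i h1 h2
    have : ¬ i < o + k := by omega
    simp [this]

theorem Prim_main (b : ℕ) (A : Set ℕ) (e : ℕ → Bool) {v : Hk R z}
    (hv : proj (Prim_Q b A 0) v = v) (n j : ℕ) :
    proj (Prim_Q b A (j + 1)) (Prim_pr (fun i => gen (e i) i) j n * v) =
      Prim_pr (fun i => Prim_D A (e i) i) j n * v ∧
    proj (Prim_Q b A 0) (Prim_pr (fun i => Prim_D A (e i) i) j n * v) =
      Prim_pr (fun i => Prim_D A (e i) i) j n * v := by
  induction n generalizing j with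
  | zero =>
    rw [Prim_pr_zero, Prim_pr_zero, one_mul]
    exact ⟨Prim_proj_of_sub (Prim_Q_mono (Nat.zero_le _)) hv, hv⟩
  | succ n ih =>
    obtain ⟨h1, h2⟩ := ih (j + 1)
    obtain ⟨h3, h4⟩ := Prim_step b A (e j) j h2
    rw [Prim_pr_succ, Prim_pr_succ, mul_assoc, mul_assoc]
    refine ⟨?_, h4⟩
    rw [← Prim_proj_proj (Prim_Q_mono (Nat.le_succ (j + 1))),
      Prim_proj_gen (e j) (Prim_Q_lt (by omega : j + 1 < (j + 1).succ)), h1, h3]

theorem Prim_main0 (b : ℕ) (A : Set ℕ) (e : ℕ → Bool) {v : Hk R z}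
    (hv : proj (Prim_Q b A 0) v = v) (n : ℕ) :
    proj (Prim_Q b A 0) (Prim_pr (fun i => gen (e i) i) 0 n * v) =
      Prim_pr (fun i => Prim_D A (e i) i) 0 n * v := by
  obtain ⟨h1, h2⟩ := Prim_main b A e hv n 0
  rw [← Prim_proj_proj (Prim_Q_mono (Nat.zero_le (0 + 1))), h1, h2]


/-! ### right multiplication by the parabolic subalgebra -/

theorem Prim_right1 {b : ℕ} (A : Set ℕ) {y : Hk R z} (hy : y ∈ Hs b) :
    ∀ v : Hk R z, proj (Prim_Q b A 0) v = v → proj (Prim_Q b A 0) (v * y) = v * y := by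
  refine Hs_induction (P := fun y => ∀ v : Hk R z, proj (Prim_Q b A 0) v = v →
    proj (Prim_Q b A 0) (v * y) = v * y) ?_ ?_ ?_ ?_ hy
  · intro v hv; rw [mul_one, hv]
  · intro x _ y _ hx hy v hv; rw [mul_add, map_add, hx v hv, hy v hv]
  · intro r x _ hx v hv; rw [mul_smul_comm, map_smul, hx v hv]
  · intro i hi x _ hx v hv
    rw [← mul_assoc]
    apply hx
    rw [proj_mul_sg (Prim_Q_right (by omega)), hv]

theorem Prim_right2 {b : ℕ} (A : Set ℕ) (y : Hk R z) :
    ∀ v : Hk R z, proj (Prim_Q b A 0) v = v →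
      proj (Prim_Q b A 0) (v * sh b y) = v * sh b y := by
  refine induction (P := fun y => ∀ v : Hk R z, proj (Prim_Q b A 0) v = v →
    proj (Prim_Q b A 0) (v * sh b y) = v * sh b y) ?_ ?_ ?_ ?_ y
  · intro v hv; rw [map_one, mul_one, hv]
  · intro x y hx hy v hv; rw [map_add, mul_add, map_add, hx v hv, hy v hv]
  · intro r x hx v hv; rw [map_smul, mul_smul_comm, map_smul, hx v hv]
  · intro i x hx v hv
    rw [map_mul (sh b), sh_sg, ← mul_assoc]
    apply hx
    rw [proj_mul_sg (Prim_Q_right (by omega)), hv]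

/-! ### the diagonal part for an interval -/

theorem Prim_interval_left {a b : ℕ} (hb : 1 ≤ b) (k : ℕ) (hk : a ≤ k) :
    (Prim_pr (fun i => Prim_D (Set.Ico a (a + b)) (decide (i < k)) i) 0 a : Hk R z) =
      (if a = 0 then 1 else z) • wd (upw 0 (a - 1) true) := by
  classical
  rcases Nat.eq_zero_or_pos a with rfl | ha
  · rw [if_pos rfl, one_smul]; rfl
  · obtain ⟨c, rfl⟩ : ∃ c, a = c + 1 := ⟨a - 1, by omega⟩
    rw [if_neg (by omega), Prim_pr_add, Nat.add_sub_cancel, Prim_wd_upw, Prim_pr_succ, Prim_pr_zero,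
      mul_one, Nat.zero_add]
    have e1 : (Prim_D (Set.Ico (c + 1) (c + 1 + b)) (decide (c < k)) c : Hk R z) = z • 1 := by
      have h1 : decide (c < k) = true := by simp; omega
      have h2 : c ∉ Set.Ico (c + 1) (c + 1 + b) := by simp
      have h3 : c + 1 ∈ Set.Ico (c + 1) (c + 1 + b) := by simp; omega
      unfold Prim_D
      rw [h1, if_neg (fun h => h2 (h.2 h3)), if_neg h2]
      rfl
    rw [e1, mul_smul_comm, mul_one]
    congr 1
    apply Prim_pr_congr
    intro i h1 h2
    have h3 : decide (i < k) = true := by simp; omega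
    have h4 : i ∉ Set.Ico (c + 1) (c + 1 + b) := by simp; omega
    have h5 : i + 1 ∉ Set.Ico (c + 1) (c + 1 + b) := by simp; omega
    rw [h3, Prim_D_same ⟨fun h => absurd h h4, fun h => absurd h h5⟩]

theorem Prim_interval_mid {a b : ℕ} (hb : 1 ≤ b) (k : ℕ) (hk : a ≤ k) (hk2 : k < a + b) :
    (Prim_pr (fun i => Prim_D (Set.Ico a (a + b)) (decide (i < k)) i) a (b - 1) : Hk R z) =
      sh a (wd (bet 0 b (k - a))) := by
  rw [Prim_wd_bet _ _ _ (by omega), Prim_sh_pr]
  simp only [Nat.zero_add]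
  apply Prim_pr_congr
  intro i h1 h2
  have h4 : i ∈ Set.Ico a (a + b) := by simp; omega
  have h5 : i + 1 ∈ Set.Ico a (a + b) := by simp; omega
  rw [Prim_D_same ⟨fun _ => h5, fun _ => h4⟩, sh_gen, Nat.sub_add_cancel h1]
  congr 1
  rw [decide_eq_decide]
  omega

theorem Prim_interval_right {a b : ℕ} (hb : 1 ≤ b) (k : ℕ) (hk2 : k < a + b) (c : ℕ) :
    (Prim_pr (fun i => Prim_D (Set.Ico a (a + b)) (decide (i < k)) i) (a + (b - 1)) c : Hk R z) =
      (if c = 0 then 1 else -z) • wd (upw (a + b) (c - 1) false) := by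
  classical
  rcases Nat.eq_zero_or_pos c with rfl | hc
  · rw [if_pos rfl, one_smul]; rfl
  · obtain ⟨d, rfl⟩ : ∃ d, c = d + 1 := ⟨c - 1, by omega⟩
    rw [if_neg (by omega), Prim_pr_succ, Nat.add_sub_cancel, Prim_wd_upw]
    have e1 : (Prim_D (Set.Ico a (a + b)) (decide (a + (b - 1) < k)) (a + (b - 1)) : Hk R z) =
        (-z) • 1 := by
      have h1 : decide (a + (b - 1) < k) = false := by simp; omega
      have h2 : a + (b - 1) ∈ Set.Ico a (a + b) := by simp; omega
      have h3 : a + (b - 1) + 1 ∉ Set.Ico a (a + b) := by simp; omega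
      unfold Prim_D
      rw [h1, if_neg (fun h => h3 (h.1 h2)), if_pos h2]
      rfl
    rw [e1, smul_mul_assoc, one_mul, show a + (b - 1) + 1 = a + b by omega]
    congr 1
    apply Prim_pr_congr
    intro i h1 h2
    have h3 : decide (i < k) = false := by simp; omega
    have h4 : i ∉ Set.Ico a (a + b) := by simp; omega
    have h5 : i + 1 ∉ Set.Ico a (a + b) := by simp; omega
    rw [h3, Prim_D_same ⟨fun h => absurd h h4, fun h => absurd h h5⟩]

theorem Prim_interval {a b l : ℕ} (hb : 1 ≤ b) (ha : a ≤ l) (k : ℕ) (hk : a ≤ k) (hk2 : k < a + b) :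
    (Prim_pr (fun i => Prim_D (Set.Ico a (a + b)) (decide (i < k)) i) 0 (b + l - 1) : Hk R z) =
      ((if a = 0 then 1 else z) * (if l - a = 0 then 1 else -z)) •
        (wd (upw 0 (a - 1) true) * sh a (wd (bet 0 b (k - a))) *
          wd (upw (a + b) (l - a - 1) false)) := by
  rw [show b + l - 1 = a + (b - 1) + (l - a) by omega, Prim_pr_add, Prim_pr_add,
    Prim_interval_left hb k hk, Nat.zero_add, Nat.zero_add, Prim_interval_mid hb k hk hk2,
    Prim_interval_right hb k hk2]
  rw [smul_mul_assoc, smul_mul_assoc, mul_smul_comm, smul_smul]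

/-- the pattern of `w` -/
def Prim_A (b : ℕ) (w : G) : Set ℕ := {x | w⁻¹.1 x < b}

theorem Prim_mem_Q_A (b : ℕ) (w : G) : w ∈ Prim_Q b (Prim_A b w) 0 := fun _ _ => Iff.rfl

theorem Prim_zero_or_interval {b l : ℕ} (hb : 1 ≤ b) {w : G} (hw : w ∈ SS (b + l)) (k : ℕ)
    (hk : k < b + l) :
    (Prim_pr (fun i => Prim_D (Prim_A b w) (decide (i < k)) i) 0 (b + l - 1) : Hk R z) = 0 ∨
      ∃ a, a ≤ l ∧ a ≤ k ∧ k < a + b ∧ Prim_A b w = Set.Ico a (a + b) := by
  classical
  by_cases h1 : ∃ i, i + 1 < b + l ∧ ((i ∈ Prim_A b w ∧ i + 1 ∉ Prim_A b w ∧ i < k) ∨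
      (i ∉ Prim_A b w ∧ i + 1 ∈ Prim_A b w ∧ ¬ i < k))
  · left
    obtain ⟨i, hi, h2⟩ := h1
    apply Prim_pr_eq_zero (i := i) (Nat.zero_le _) (by omega)
    unfold Prim_D
    rcases h2 with ⟨h3, h4, h5⟩ | ⟨h3, h4, h5⟩
    · rw [if_neg (fun h => h4 (h.1 h3)), if_pos h3, decide_eq_true h5]; rfl
    · rw [if_neg (fun h => h3 (h.2 h4)), if_neg h3, decide_eq_false h5]; rfl
  · right
    push Not at h1
    have hup : ∀ i, i < k → i ∈ Prim_A b w → i + 1 ∈ Prim_A b w := by
      intro i hi h2
      by_contra h3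
      have := (h1 i (by omega)).1 h2 h3
      omega
    have hdn : ∀ i, k ≤ i → i + 1 < b + l → i + 1 ∈ Prim_A b w → i ∈ Prim_A b w := by
      intro i hi hi2 h2
      by_contra h3
      have := (h1 i hi2).2 h3 h2
      omega
    have hsub : ∀ x, x ∈ Prim_A b w → x < b + l := by
      intro x hx
      by_contra h
      push Not at h
      have h2 := inv_mem_SS hw x h
      have hx' : w⁻¹.1 x < b := hx
      omega
    -- the finset
    let F : Finset ℕ := (Finset.range b).image (fun j => w.1 j)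
    have hF : ∀ x, x ∈ F ↔ x ∈ Prim_A b w := by
      intro x
      constructor
      · intro hx
        obtain ⟨j, hj, rfl⟩ := Finset.mem_image.1 hx
        change w⁻¹.1 (w.1 j) < b
        rw [pinv]
        exact Finset.mem_range.1 hj
      · intro hx
        exact Finset.mem_image.2 ⟨w⁻¹.1 x, Finset.mem_range.2 hx, papp w x⟩
    have hcard : F.card = b := by
      rw [Finset.card_image_of_injective _ w.1.injective, Finset.card_range]
    have hne : F.Nonempty := by
      rw [← Finset.card_pos, hcard]; omega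
    have hup' : ∀ d x, x + d ≤ k → x ∈ Prim_A b w → x + d ∈ Prim_A b w := by
      intro d
      induction d with
      | zero => intro x _ hx; exact hx
      | succ d ih =>
        intro x hx h2
        exact hup (x + d) (by omega) (ih x (by omega) h2)
    have hdn' : ∀ d x, k ≤ x → x + d < b + l → x + d ∈ Prim_A b w → x ∈ Prim_A b w := by
      intro d
      induction d with
      | zero => intro x _ _ hx; exact hx
      | succ d ih =>
        intro x hx hx2 h2
        exact ih x hx (by omega) (hdn (x + d) (by omega) (by omega) h2)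
    have hkA : k ∈ Prim_A b w := by
      obtain ⟨x, hx⟩ := hne
      have hx1 := (hF x).1 hx
      have hx2 := hsub x hx1
      rcases le_total x k with h | h
      · have := hup' (k - x) x (by omega) hx1
        rwa [Nat.add_sub_cancel' h] at this
      · exact hdn' (x - k) k le_rfl (by omega) (by rwa [Nat.add_sub_cancel' h])
    have hkF := (hF k).2 hkA
    let a := F.min' hne
    let a' := F.max' hne
    have ha : a ∈ Prim_A b w := (hF _).1 (Finset.min'_mem F hne)
    have ha' : a' ∈ Prim_A b w := (hF _).1 (Finset.max'_mem F hne)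
    have hak : a ≤ k := Finset.min'_le F k hkF
    have hak' : k ≤ a' := Finset.le_max' F k hkF
    have hFI : F = Finset.Ico a (a' + 1) := by
      ext x
      rw [hF, Finset.mem_Ico]
      constructor
      · intro hx
        have hx1 := (hF x).2 hx
        exact ⟨Finset.min'_le F x hx1, Nat.lt_succ_of_le (Finset.le_max' F x hx1)⟩
      · rintro ⟨h2, h3⟩
        rcases le_total x k with h | h
        · have := hup' (x - a) a (by omega) ha
          rwa [Nat.add_sub_cancel' h2] at this
        · have h4 := hsub a' ha'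
          exact hdn' (a' - x) x h (by omega) (by rwa [Nat.add_sub_cancel' (by omega)])
    have hc2 : a' + 1 - a = b := by
      rw [← Nat.card_Ico, ← hFI, hcard]
    have hc3 : a' + 1 = a + b := by omega
    have hlast := hsub a' ha'
    refine ⟨a, by omega, hak, by omega, ?_⟩
    ext x
    rw [← hF, hFI, Finset.mem_Ico, Set.mem_Ico, hc3]


/-! ### the telescoping sum -/

theorem Prim_bet_diff {l a : ℕ} (ha : 1 ≤ a) (hal : a + 1 ≤ l) :
    (wd (bet 0 l a) - wd (bet 0 l (a - 1)) : Hk R z) =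
      z • (wd (upw 0 (a - 1) true) * wd (upw a (l - a - 1) false)) := by
  obtain ⟨c, rfl⟩ : ∃ c, a = c + 1 := ⟨a - 1, by omega⟩
  rw [Prim_wd_bet _ _ _ (by omega), Prim_wd_bet _ _ _ (by omega), Nat.add_sub_cancel,
    show l - 1 = c + (1 + (l - (c + 1) - 1)) by omega, Prim_pr_add, Prim_pr_add, Prim_pr_add,
    Prim_pr_add, Prim_wd_upw, Prim_wd_upw]
  have e1 : (Prim_pr (fun i => gen (decide (i < 0 + (c + 1))) i) 0 c : Hk R z) =
      Prim_pr (fun i => gen true i) 0 c := by
    apply Prim_pr_congr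
    intro i _ h2
    rw [decide_eq_true (by omega)]
  have e2 : (Prim_pr (fun i => gen (decide (i < 0 + c)) i) 0 c : Hk R z) =
      Prim_pr (fun i => gen true i) 0 c := by
    apply Prim_pr_congr
    intro i _ h2
    rw [decide_eq_true (by omega)]
  have e3 : (Prim_pr (fun i => gen (decide (i < 0 + (c + 1))) i) (0 + c + 1) (l - (c + 1) - 1) : Hk R z) =
      Prim_pr (fun i => gen false i) (c + 1) (l - (c + 1) - 1) := by
    rw [show 0 + c + 1 = c + 1 by omega]
    apply Prim_pr_congr
    intro i h1 h2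
    rw [decide_eq_false (by omega)]
  have e4 : (Prim_pr (fun i => gen (decide (i < 0 + c)) i) (0 + c + 1) (l - (c + 1) - 1) : Hk R z) =
      Prim_pr (fun i => gen false i) (c + 1) (l - (c + 1) - 1) := by
    rw [show 0 + c + 1 = c + 1 by omega]
    apply Prim_pr_congr
    intro i h1 h2
    rw [decide_eq_false (by omega)]
  have e5 : (Prim_pr (fun i => gen (decide (i < 0 + (c + 1))) i) (0 + c) 1 : Hk R z) = sg c := by
    rw [Prim_pr_succ, Prim_pr_zero, mul_one, Nat.zero_add, Nat.zero_add,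
      decide_eq_true (Nat.lt_succ_self c)]
    rfl
  have e6 : (Prim_pr (fun i => gen (decide (i < 0 + c)) i) (0 + c) 1 : Hk R z) = sg c - z • 1 := by
    rw [Prim_pr_succ, Prim_pr_zero, mul_one, Nat.zero_add, decide_eq_false (lt_irrefl c)]
    rfl
  rw [e1, e2, e3, e4, e5, e6, ← mul_sub, ← sub_mul, sub_sub_cancel, smul_mul_assoc, one_mul,
    mul_smul_comm]

theorem Prim_tele {l : ℕ} (hl : 1 ≤ l) :
    ∑ a ∈ Finset.range (l + 1), ((if a = 0 then 1 else z) * (if l - a = 0 then 1 else -z)) •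
      (wd (upw 0 (a - 1) true) * wd (upw a (l - a - 1) false) : Hk R z) = 0 := by
  rw [Finset.sum_range_succ, Nat.sub_self, if_pos rfl, if_neg (by omega : ¬ l = 0)]
  obtain ⟨n, rfl⟩ : ∃ n, l = n + 1 := ⟨l - 1, by omega⟩
  rw [Finset.sum_range_succ', if_pos rfl, if_neg (by omega : ¬ (n + 1 - 0 = 0))]
  have h1 : ∀ a ∈ Finset.range n, ((if a + 1 = 0 then 1 else z) *
      (if n + 1 - (a + 1) = 0 then 1 else -z)) •
      (wd (upw 0 (a + 1 - 1) true) * wd (upw (a + 1) (n + 1 - (a + 1) - 1) false) : Hk R z) =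
      (-z) • (wd (bet 0 (n + 1) (a + 1)) - wd (bet 0 (n + 1) a)) := by
    intro a ha
    have ha' := Finset.mem_range.1 ha
    have := Prim_bet_diff (R := R) (z := z) (l := n + 1) (a := a + 1) (by omega) (by omega)
    rw [Nat.add_sub_cancel] at this
    rw [this, if_neg (by omega), if_neg (by omega), smul_smul, Nat.add_sub_cancel]
    congr 1
    ring
  rw [Finset.sum_congr rfl h1, ← Finset.smul_sum, Finset.sum_range_sub (fun a => (wd (bet 0 (n + 1) a) : Hk R z)) n]
  have e1 : (wd (bet 0 (n + 1) n) : Hk R z) = wd (upw 0 n true) := by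
    unfold bet
    rw [wd_append, Nat.add_sub_cancel, Nat.sub_self]
    change wd (upw 0 n true) * (1 : Hk R z) = _
    rw [mul_one]
  have e2 : (wd (bet 0 (n + 1) 0) : Hk R z) = wd (upw 0 n false) := by
    unfold bet
    rw [wd_append, Nat.add_sub_cancel, Nat.sub_zero]
    change (1 : Hk R z) * wd (upw (0 + 0) n false) = _
    rw [one_mul]
  have e3 : (wd (upw 0 (0 - 1) true) : Hk R z) = 1 := rfl
  have e4 : (wd (upw (n + 1) (0 - 1) false) : Hk R z) = 1 := rfl
  rw [e1, e2, e3, e4, Nat.add_sub_cancel, Nat.sub_zero, Nat.add_sub_cancel, one_mul, mul_one,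
    mul_one, one_mul, smul_sub, neg_smul, neg_smul]
  abel

/-! ### moving the interval -/

/-- one letter moving the pattern -/
theorem Prim_move_one {b : ℕ} {A : Set ℕ} {i : ℕ} (h1 : i ∈ A) (h2 : i + 1 ∉ A) {w : G}
    (hw : w ∈ Prim_Q b A 0) : (sg i * T w : Hk R z) = T (s i * w) ∧
      s i * w ∈ Prim_Q b {x | (s i).1 x ∈ A} 0 := by
  constructor
  · apply sg_mul_T_asc
    unfold LA
    have a1 := (hw i (Nat.zero_le _)).2 h1
    have a2 : ¬ w⁻¹.1 (i + 1) < b := fun h6 => h2 ((hw (i + 1) (Nat.zero_le _)).1 h6)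
    omega
  · intro x _
    rw [Prim_inv_s_mul]
    exact hw _ (Nat.zero_le _)

theorem Prim_pw_cons (l : ℕ × Bool) (w : BW) : pw (l :: w) = s l.1 * pw w := rfl

/-- moving the block `{a, …, a+b-1}` one step up -/
theorem Prim_move_block {b : ℕ} (c : ℕ) : ∀ (a : ℕ) {w : G} (A : Set ℕ),
    (∀ x, a ≤ x → x < a + c → x ∈ A) → a + c ∉ A → w ∈ Prim_Q b A 0 →
    (wd (upw a c true) * T w : Hk R z) = T (pw (upw a c true) * w) ∧
      pw (upw a c true) * w ∈ Prim_Q b {x | if x = a then False else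
        if a < x ∧ x ≤ a + c then True else x ∈ A} 0 := by
  induction c with
  | zero =>
    intro a w A _ h2 hw
    refine ⟨?_, ?_⟩
    · change (1 : Hk R z) * T w = T (1 * w)
      rw [one_mul, one_mul]
    · change 1 * w ∈ _
      rw [one_mul]
      intro x hx
      rw [hw x hx]
      simp only [Set.mem_ofPred_eq]
      split_ifs with h3 h4
      · rw [h3]; exact ⟨fun h => h2 (by rwa [Nat.add_zero]), fun h => h.elim⟩
      · omega
      · rfl
  | succ c ih =>
    intro a w A h1 h2 hw
    obtain ⟨h3, h4⟩ := ih (a + 1) (w := w) A (fun x hx hx2 => h1 x (by omega) (by omega))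
      (by rwa [show a + 1 + c = a + (c + 1) by omega]) hw
    have h5 := Prim_move_one (R := R) (z := z) (i := a) (A := {x | if x = a + 1 then False else
        if a + 1 < x ∧ x ≤ a + 1 + c then True else x ∈ A}) (b := b) (by
          simp only [Set.mem_ofPred_eq]
          rw [if_neg (by omega), if_neg (by omega)]
          exact h1 a le_rfl (by omega)) (by
          simp only [Set.mem_ofPred_eq, if_true, not_false_iff]) h4
    rw [Prim_upw_succ, wd_cons, Prim_pw_cons, mul_assoc, h3, mul_assoc]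
    refine ⟨h5.1, ?_⟩
    intro x hx
    rw [h5.2 x hx]
    simp only [Set.mem_ofPred_eq, s_apply]
    by_cases e1 : x = a
    · subst e1; simp
    · by_cases e2 : x = a + 1
      · subst e2
        have f1 : (if a + 1 = a then a + 1 else if a + 1 = a + 1 then a else a + 1) = a := by
          rw [if_neg (by omega), if_pos rfl]
        rw [f1, if_neg (by omega), if_neg (by omega), if_neg (by omega), if_pos (by omega)]
        exact ⟨fun _ => trivial, fun _ => h1 a le_rfl (by omega)⟩
      · rw [if_neg e1, if_neg e2, if_neg e2, if_neg e1]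
        by_cases e3 : a < x ∧ x ≤ a + (c + 1)
        · rw [if_pos e3, if_pos (by omega)]
        · rw [if_neg e3, if_neg (by omega)]

/-- the permutation `d_a` -/
def Prim_dd (b : ℕ) : ℕ → G
  | 0 => 1
  | a + 1 => pw (upw a b true) * Prim_dd b a

theorem Prim_xw_one (a b : ℕ) (e : Bool) : xw e a b 1 = upw a b e := by
  have h1 : ∀ i, dnw (a + i) 1 e = [(a + i, e)] := fun i => rfl
  unfold xw
  simp only [h1]
  unfold upw
  exact (List.map_eq_flatMap).symm

theorem Prim_move (h : S_bunch) (R : Type) [CommRing R] (z : R) (b : ℕ) (a : ℕ) {w : G}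
    (hw : w ∈ Prim_Q b (Set.Ico 0 b) 0) :
    (wd (xw true 0 b a) * T w : Hk R z) = T (Prim_dd b a * w) ∧
      Prim_dd b a * w ∈ Prim_Q b (Set.Ico a (a + b)) 0 := by
  induction a with
  | zero =>
    have e1 : (wd (xw true 0 b 0) : Hk R z) = 1 := by
      have : xw true 0 b 0 = [] := by
        unfold xw dnw upw
        rw [List.flatMap_eq_nil_iff]
        intro x _
        rfl
      rw [this]; rfl
    rw [e1, one_mul]
    change (T w : Hk R z) = T (1 * w) ∧ 1 * w ∈ _
    rw [one_mul, Nat.zero_add]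
    exact ⟨rfl, hw⟩
  | succ a ih =>
    obtain ⟨h1, h2⟩ := ih
    have h3 := (h R z true 0 b (a + 1)).2.2.2.1 a 1
    rw [h3, Nat.zero_add, Prim_xw_one, mul_assoc, h1]
    have h4 := Prim_move_block (R := R) (z := z) (b := b) b a (w := Prim_dd b a * w)
      (Set.Ico a (a + b)) (fun x hx hx2 => ⟨hx, hx2⟩) (by simp) h2
    change _ = (T (pw (upw a b true) * Prim_dd b a * w) : Hk R z) ∧
      pw (upw a b true) * Prim_dd b a * w ∈ _
    rw [mul_assoc]
    refine ⟨h4.1, ?_⟩
    intro x hx
    rw [h4.2 x hx]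
    simp only [Set.mem_ofPred_eq, Set.mem_Ico]
    split_ifs with e1 e2
    · constructor
      · exact fun h => h.elim
      · rintro ⟨h5, h6⟩; omega
    · constructor
      · rintro _; omega
      · intro _; trivial
    · omega

theorem Prim_dd_mem {b : ℕ} (a : ℕ) : Prim_dd b a ∈ SS (b + a) := by
  induction a with
  | zero => exact one_mem_SS _
  | succ a ih =>
    have h1 : ∀ c a' : ℕ, pw (upw a' c true) ∈ SS (a' + c + 1) := by
      intro c
      induction c with
      | zero => intro a'; exact one_mem_SS _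
      | succ c ihc =>
        intro a'
        rw [Prim_upw_succ, Prim_pw_cons]
        refine mul_mem_SS (s_mem_SS (by omega)) ?_
        have := ihc (a' + 1)
        rwa [show a' + 1 + c + 1 = a' + (c + 1) + 1 by omega] at this
    have h2 := h1 b a
    intro m hm
    change (pw (upw a b true)).1 ((Prim_dd b a).1 m) = m
    rw [ih m (by omega), h2 m (by omega)]


/-! ### left multiplication by the parabolic subalgebra -/

theorem Prim_left1 {b : ℕ} {y : Hk R z} (hy : y ∈ Hs b) :
    ∀ v : Hk R z, proj (Prim_Q b (Set.Ico 0 b) 0) v = v →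
      proj (Prim_Q b (Set.Ico 0 b) 0) (y * v) = y * v := by
  intro v hv
  refine Hs_induction (P := fun y => proj (Prim_Q b (Set.Ico 0 b) 0) (y * v) = y * v)
    ?_ ?_ ?_ ?_ hy
  · rw [one_mul, hv]
  · intro x _ y _ hx hy; rw [add_mul, map_add, hx, hy]
  · intro r x _ hx; rw [smul_mul_assoc, map_smul, hx]
  · intro i hi x _ hx
    rw [mul_assoc, proj_sg_mul (Prim_Q_same ?_), hx]
    simp only [Set.mem_Ico]; omega

theorem Prim_left2 {b : ℕ} (y : Hk R z) :
    ∀ v : Hk R z, proj (Prim_Q b (Set.Ico 0 b) 0) v = v →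
      proj (Prim_Q b (Set.Ico 0 b) 0) (sh b y * v) = sh b y * v := by
  intro v hv
  refine induction (P := fun y => proj (Prim_Q b (Set.Ico 0 b) 0) (sh b y * v) = sh b y * v)
    ?_ ?_ ?_ ?_ y
  · rw [map_one, one_mul, hv]
  · intro x y hx hy; rw [map_add (sh b), add_mul, map_add, hx, hy]
  · intro r x hx; rw [map_smul (sh b), smul_mul_assoc, map_smul, hx]
  · intro i x hx
    rw [map_mul (sh b), sh_sg, mul_assoc, proj_sg_mul (Prim_Q_same ?_), hx]
    simp only [Set.mem_Ico]; omega

theorem Prim_coef_move (h : S_bunch) (R : Type) [CommRing R] (z : R) (b a : ℕ) (w : G) {v : Hk R z}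
    (hv : proj (Prim_Q b (Set.Ico 0 b) 0) v = v) :
    coef (Prim_dd b a * w) (wd (xw true 0 b a) * v) = coef w v := by
  classical
  have key : (basis.coord (Prim_dd b a * w) : Hk R z →ₗ[R] R) ∘ₗ lmul (wd (xw true 0 b a)) ∘ₗ
      proj (Prim_Q b (Set.Ico 0 b) 0) = (basis.coord w : Hk R z →ₗ[R] R) ∘ₗ
      proj (Prim_Q b (Set.Ico 0 b) 0) := by
    refine hext (fun u => ?_)
    change coef (Prim_dd b a * w) ((wd (xw true 0 b a) : Hk R z) *
      proj (Prim_Q b (Set.Ico 0 b) 0) (T u : Hk R z)) =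
      coef w (proj (Prim_Q b (Set.Ico 0 b) 0) (T u : Hk R z))
    by_cases hu : u ∈ Prim_Q b (Set.Ico 0 b) 0
    · rw [proj_T_of_mem hu, (Prim_move h R z b a hu).1, coef_T, coef_T]
      congr 1
      exact propext (mul_right_inj _)
    · rw [proj_T_of_notMem hu, mul_zero]
      unfold coef; rw [map_zero]; rfl
  have h3 := congrArg (fun f => f v) key
  change coef (Prim_dd b a * w) ((wd (xw true 0 b a) : Hk R z) *
      proj (Prim_Q b (Set.Ico 0 b) 0) v) =
      coef w (proj (Prim_Q b (Set.Ico 0 b) 0) v) at h3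
  rwa [hv] at h3

theorem Prim_one_mem (b : ℕ) : (1 : G) ∈ Prim_Q b (Set.Ico 0 b) 0 := by
  intro x _
  rw [inv_one]
  change x < b ↔ _
  simp

theorem Prim_dd_mul_mem (h : S_bunch) (b a : ℕ) (w : G) :
    Prim_dd b a * w ∈ Prim_Q b (Set.Ico a (a + b)) 0 ↔ w ∈ Prim_Q b (Set.Ico 0 b) 0 := by
  constructor
  · intro hw x _
    have h1 := (Prim_move h ℤ 0 b a (Prim_one_mem b)).2
    rw [mul_one] at h1
    have h2 := hw ((Prim_dd b a).1 x) (Nat.zero_le _)
    have h3 := h1 ((Prim_dd b a).1 x) (Nat.zero_le _)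
    rw [pinv] at h3
    have e1 : (Prim_dd b a * w)⁻¹.1 ((Prim_dd b a).1 x) = w⁻¹.1 x := by
      rw [mul_inv_rev]
      change w⁻¹.1 ((Prim_dd b a)⁻¹.1 ((Prim_dd b a).1 x)) = _
      rw [pinv]
    rw [e1, ← h3] at h2
    rw [h2]
    simp
  · intro hw
    exact (Prim_move h ℤ 0 b a hw).2

theorem Prim_sh_upw (k a n : ℕ) (e : Bool) :
    sh k (wd (upw a n e) : Hk R z) = wd (upw (a + k) n e) := by
  rw [Prim_wd_upw, Prim_wd_upw, Prim_sh_pr]
  apply Prim_pr_congr
  intro i h1 _
  rw [sh_gen, Nat.sub_add_cancel (by omega)]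

theorem Prim_valid_upw {a n N : ℕ} (e : Bool) (h : n = 0 ∨ a + n + 1 ≤ N) : Valid N (upw a n e) := by
  intro l hl
  unfold upw at hl
  obtain ⟨i, hi, rfl⟩ := List.mem_map.1 hl
  have := List.mem_range.1 hi
  change a + i + 1 < N
  omega

theorem Prim_beta_mem (b : ℕ) : (betaE b : Hk R z) ∈ Hs b := by
  unfold betaE
  apply Subalgebra.sum_mem
  intro k hk
  have hk' := Finset.mem_range.1 hk
  unfold bet
  rw [wd_append]
  apply mul_mem
  · exact wd_mem_Hs (Prim_valid_upw _ (by omega))
  · exact wd_mem_Hs (Prim_valid_upw _ (by omega))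

/-- the weight -/
def Prim_wt (z : R) (l a : ℕ) : R := (if a = 0 then 1 else z) * (if l - a = 0 then 1 else -z)

/-- the diagonal part -/
noncomputable def Prim_E (b l a j : ℕ) : Hk R z :=
  Prim_wt z l a • (wd (upw 0 (a - 1) true) * sh a (wd (bet 0 b j)) * wd (upw (a + b) (l - a - 1) false))

theorem Prim_E_sum (b l a : ℕ) : ∑ j ∈ Finset.range b, (Prim_E b l a j : Hk R z) =
    Prim_wt z l a • (wd (upw 0 (a - 1) true) * sh a (betaE b) * wd (upw (a + b) (l - a - 1) false)) := by
  unfold Prim_E betaE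
  rw [map_sum, Finset.mul_sum, Finset.sum_mul, Finset.smul_sum]

theorem Prim_E_move (h : S_bunch) (R : Type) [CommRing R] (z : R) (b l a : ℕ) :
    ((wd (upw 0 (a - 1) true) * sh a (betaE b) * wd (upw (a + b) (l - a - 1) false)) *
      wd (xw true 0 b a) : Hk R z) = wd (xw true 0 b a) *
        (betaE b * sh b (wd (upw 0 (a - 1) true) * wd (upw a (l - a - 1) false))) := by
  obtain ⟨h1, h2, -, -, -, h6, -⟩ := h R z true 0 b a
  have hX : (wd (xw true 0 b a) : Hk R z) ∈ Hs (b + a) := by
    apply wd_mem_Hs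
    intro l hl
    have := (h6 l hl).2
    omega
  have e1 : (wd (upw (a + b) (l - a - 1) false) : Hk R z) = sh (b + a) (wd (upw 0 (l - a - 1) false)) := by
    rw [Prim_sh_upw, show 0 + (b + a) = a + b by omega]
  have e2 : (wd (upw (a + b) (l - a - 1) false) : Hk R z) * wd (xw true 0 b a) =
      wd (xw true 0 b a) * wd (upw (a + b) (l - a - 1) false) := by
    rw [e1]; exact sh_commute hX _
  have e3 : (sh a (betaE b) * wd (xw true 0 b a) : Hk R z) = wd (xw true 0 b a) * betaE b := by
    have := h1 _ (Prim_beta_mem b)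
    rw [sh_zero, Nat.zero_add] at this
    exact this.symm
  have e4 : (wd (upw 0 (a - 1) true) * wd (xw true 0 b a) : Hk R z) =
      wd (xw true 0 b a) * sh b (wd (upw 0 (a - 1) true)) := by
    have := h2 (wd (upw 0 (a - 1) true)) (wd_mem_Hs (Prim_valid_upw _ (by omega)))
    rw [sh_zero, Nat.zero_add] at this
    exact this.symm
  have e5 : (sh b (wd (upw 0 (a - 1) true)) * betaE b : Hk R z) =
      betaE b * sh b (wd (upw 0 (a - 1) true)) := sh_commute (Prim_beta_mem b) _
  rw [mul_assoc, e2, mul_assoc, ← mul_assoc (sh a (betaE b)), e3, map_mul (sh b), Prim_sh_upw b a]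
  rw [← mul_assoc, ← mul_assoc, e4, mul_assoc (wd (xw true 0 b a)), e5]
  simp only [mul_assoc]

theorem Prim_sum_shift {M : Type*} [AddCommMonoid M] (f : ℕ → M) {a b m : ℕ} (h : a + b ≤ m) :
    ∑ k ∈ Finset.range m, (if a ≤ k ∧ k < a + b then f (k - a) else 0) =
      ∑ j ∈ Finset.range b, f j := by
  rw [← Finset.sum_filter]
  apply Finset.sum_nbij' (fun k => k - a) (fun j => j + a)
  · intro k hk
    simp only [Finset.mem_filter, Finset.mem_range] at hk ⊢
    omega
  · intro j hj
    simp only [Finset.mem_filter, Finset.mem_range] at hj ⊢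
    omega
  · intro k hk
    simp only [Finset.mem_filter, Finset.mem_range] at hk ⊢
    omega
  · intro j hj
    have hj' := Finset.mem_range.1 hj
    omega
  · intro k hk
    rfl

theorem Prim_F {b l : ℕ} (hb : 1 ≤ b) {y1 : Hk R z} (hy1 : y1 ∈ Hs b) (y2 : Hk R z) {w : G}
    (hw : w ∈ SS (b + l)) (k : ℕ) (hk : k < b + l) [∀ a, Decidable (w ∈ Prim_Q b (Set.Ico a (a + b)) 0)] :
    coef w (wd (bet 0 (b + l) k) * (T w * (y1 * sh b y2)) : Hk R z) =
      ∑ a ∈ Finset.range (l + 1), if w ∈ Prim_Q b (Set.Ico a (a + b)) 0 then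
        (if a ≤ k ∧ k < a + b then
          coef w (Prim_E b l a (k - a) * (T w * (y1 * sh b y2)) : Hk R z) else 0) else 0 := by
  classical
  set A := Prim_A b w with hA
  set v : Hk R z := T w * (y1 * sh b y2) with hv
  have hvA : proj (Prim_Q b A 0) v = v := by
    rw [hv, ← mul_assoc]
    apply Prim_right2
    apply Prim_right1 A hy1
    exact proj_T_of_mem (Prim_mem_Q_A b w)
  have h1 : coef w (wd (bet 0 (b + l) k) * v : Hk R z) =
      coef w (Prim_pr (fun i => Prim_D A (decide (i < k)) i) 0 (b + l - 1) * v : Hk R z) := by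
    rw [← Prim_main0 b A (fun i => decide (i < k)) hvA (b + l - 1), coef_proj,
      if_pos (Prim_mem_Q_A b w), Prim_wd_bet _ _ _ (by omega)]
    simp only [Nat.zero_add]
  have hAeq : ∀ a, w ∈ Prim_Q b (Set.Ico a (a + b)) 0 → A = Set.Ico a (a + b) := by
    intro a ha
    ext x
    exact ha x (Nat.zero_le _)
  have h2 : ∀ a ∈ Finset.range (l + 1), w ∈ Prim_Q b (Set.Ico a (a + b)) 0 → (a ≤ k ∧ k < a + b) →
      coef w (Prim_E b l a (k - a) * v : Hk R z) = coef w (wd (bet 0 (b + l) k) * v : Hk R z) := by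
    intro a ha h3 h4
    have ha' := Finset.mem_range.1 ha
    rw [h1, hAeq a h3, Prim_interval hb (by omega : a ≤ l) k h4.1 h4.2]
    rfl
  rcases Prim_zero_or_interval (R := R) (z := z) hb hw k hk with h3 | ⟨a0, h3, h4, h5, h6⟩
  · have h4 : coef w (wd (bet 0 (b + l) k) * v : Hk R z) = 0 := by
      rw [h1, hA, h3, zero_mul]
      unfold coef; rw [map_zero]; rfl
    rw [h4]
    symm
    apply Finset.sum_eq_zero
    intro a ha
    split_ifs with h5 h6
    · rw [h2 a ha h5 h6, h4]
    · rfl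
    · rfl
  · have h7 : w ∈ Prim_Q b (Set.Ico a0 (a0 + b)) 0 := by
      rw [← h6]; exact Prim_mem_Q_A b w
    rw [Finset.sum_eq_single a0, if_pos h7, if_pos ⟨h4, h5⟩,
      h2 a0 (Finset.mem_range.2 (by omega)) h7 ⟨h4, h5⟩]
    · intro a _ hne
      rw [if_neg]
      intro h8
      apply hne
      have h9 := hAeq a h8
      rw [hA, h6] at h9
      have h10 : a ∈ Set.Ico a0 (a0 + b) := by rw [h9]; exact ⟨le_rfl, by omega⟩
      have h11 : a0 ∈ Set.Ico a (a + b) := by rw [← h9]; exact ⟨le_rfl, by omega⟩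
      have h12 := h10.1
      have h13 := h11.1
      omega
    · intro h8
      exact absurd (Finset.mem_range.2 (by omega)) h8

theorem Prim_alg (r : R) (P X Q t y : Hk R z) (h : P * X = X * Q) :
    (r • P) * (X * t * y) = X * ((r • Q) * (t * y)) := by
  rw [smul_mul_assoc, smul_mul_assoc, mul_smul_comm, ← mul_assoc X Q, ← h]
  simp only [mul_assoc]

end PrimAux

theorem t_prim (h : S_bunch) : S_prim := by
  classical
  intro R _ z b l hb hl y1 hy1 y2 hy2
  set y : Hk R z := y1 * sh b y2 with hy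
  -- expansion
  have h1 : tau (betaE (b + l) * Tr (b + l) y) = ∑ g : Perm (Fin (b + l)),
      ∑ k ∈ Finset.range (b + l), coef (emb (b + l) g)
        (wd (bet 0 (b + l) k) * (T (emb (b + l) g) * y) : Hk R z) := by
    unfold Tr betaE
    rw [Finset.mul_sum, map_sum]
    apply Finset.sum_congr rfl
    intro g _
    rw [Finset.sum_mul, map_sum]
    apply Finset.sum_congr rfl
    intro k _
    rw [coef_eq_tau, ← map_inv]
    simp only [mul_assoc]
  rw [h1]
  have h2 : ∀ g : Perm (Fin (b + l)), ∑ k ∈ Finset.range (b + l), coef (emb (b + l) g)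
        (wd (bet 0 (b + l) k) * (T (emb (b + l) g) * y) : Hk R z) =
      ∑ a ∈ Finset.range (l + 1), if emb (b + l) g ∈ Prim_Q b (Set.Ico a (a + b)) 0 then
        coef (emb (b + l) g) ((∑ j ∈ Finset.range b, Prim_E b l a j) *
          (T (emb (b + l) g) * y) : Hk R z) else 0 := by
    intro g
    rw [Finset.sum_congr rfl (fun k hk => Prim_F hb hy1 y2 (emb_mem_SS (b + l) g) k
      (Finset.mem_range.1 hk)), Finset.sum_comm]
    apply Finset.sum_congr rfl
    intro a ha
    have ha' := Finset.mem_range.1 ha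
    split_ifs with h3
    · rw [Prim_sum_shift (fun j => coef (emb (b + l) g)
        (Prim_E b l a j * (T (emb (b + l) g) * (y1 * sh b y2)) : Hk R z)) (by omega : a + b ≤ b + l)]
      rw [Finset.sum_mul]
      unfold coef
      rw [map_sum, Finsupp.finsetSum_apply]
    · exact Finset.sum_const_zero
  rw [Finset.sum_congr rfl (fun g _ => h2 g), Finset.sum_comm]
  have h3 : ∀ a ∈ Finset.range (l + 1), ∑ g : Perm (Fin (b + l)),
      (if emb (b + l) g ∈ Prim_Q b (Set.Ico a (a + b)) 0 then
        coef (emb (b + l) g) ((∑ j ∈ Finset.range b, Prim_E b l a j) *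
          (T (emb (b + l) g) * y) : Hk R z) else 0) =
      ∑ g : Perm (Fin (b + l)), (if emb (b + l) g ∈ Prim_Q b (Set.Ico 0 b) 0 then
        coef (emb (b + l) g) ((Prim_wt z l a • (betaE b * sh b (wd (upw 0 (a - 1) true) *
          wd (upw a (l - a - 1) false)))) * (T (emb (b + l) g) * y) : Hk R z) else 0) := by
    intro a ha
    have ha' := Finset.mem_range.1 ha
    have hdd : Prim_dd b a ∈ SS (b + l) := by
      intro x hx
      exact Prim_dd_mem a x (by omega)
    obtain ⟨δ, hδ⟩ := exists_emb hdd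
    rw [← Equiv.sum_comp (Equiv.mulLeft δ)]
    apply Finset.sum_congr rfl
    intro g _
    have hcomp : emb (b + l) (Equiv.mulLeft δ g) = Prim_dd b a * emb (b + l) g := by
      change emb (b + l) (δ * g) = _
      rw [map_mul (emb (b + l)), hδ]
    have h4 := Prim_dd_mul_mem h b a (emb (b + l) g)
    rw [← hcomp] at h4
    by_cases h5 : emb (b + l) g ∈ Prim_Q b (Set.Ico 0 b) 0
    · rw [if_pos (h4.2 h5), if_pos h5, hcomp, Prim_E_sum, ← (Prim_move h R z b a h5).1]
      have h6 := Prim_E_move h R z b l a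
      have hvm : proj (Prim_Q b (Set.Ico 0 b) 0) (T (emb (b + l) g) * y : Hk R z) =
          T (emb (b + l) g) * y := by
        rw [hy, ← mul_assoc]
        apply Prim_right2
        apply Prim_right1 _ hy1
        exact proj_T_of_mem h5
      have h7 : proj (Prim_Q b (Set.Ico 0 b) 0) ((Prim_wt z l a • (betaE b * sh b (wd (upw 0 (a - 1) true) *
          wd (upw a (l - a - 1) false)))) * (T (emb (b + l) g) * y) : Hk R z) =
          (Prim_wt z l a • (betaE b * sh b (wd (upw 0 (a - 1) true) *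
          wd (upw a (l - a - 1) false)))) * (T (emb (b + l) g) * y) := by
        rw [smul_mul_assoc, map_smul, mul_assoc,
          Prim_left1 (Prim_beta_mem b) _ (Prim_left2 _ _ hvm)]
      rw [← Prim_coef_move h R z b a (emb (b + l) g) h7, Prim_alg _ _ _ _ _ _ h6]
    · rw [if_neg (fun h6 => h5 (h4.1 h6)), if_neg h5]
  rw [Finset.sum_congr rfl h3, Finset.sum_comm]
  apply Finset.sum_eq_zero
  intro g _
  have h8 : (∑ a ∈ Finset.range (l + 1), (Prim_wt z l a • (betaE b * sh b (wd (upw 0 (a - 1) true) *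
          wd (upw a (l - a - 1) false)))) : Hk R z) = 0 := by
    have h9 := Prim_tele (R := R) (z := z) hl
    have h10 := congrArg (fun x : Hk R z => betaE b * sh b x) h9
    simp only [map_sum, map_smul, map_zero, mul_zero, Finset.mul_sum, mul_smul_comm] at h10
    exact h10
  by_cases h5 : emb (b + l) g ∈ Prim_Q b (Set.Ico 0 b) 0
  · simp only [if_pos h5]
    have h11 : (∑ a ∈ Finset.range (l + 1), coef (emb (b + l) g) ((Prim_wt z l a • (betaE b * sh b (wd (upw 0 (a - 1) true) *
          wd (upw a (l - a - 1) false)))) * (T (emb (b + l) g) * y) : Hk R z)) =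
        coef (emb (b + l) g) ((∑ a ∈ Finset.range (l + 1), (Prim_wt z l a • (betaE b * sh b (wd (upw 0 (a - 1) true) *
          wd (upw a (l - a - 1) false)))) : Hk R z) * (T (emb (b + l) g) * y) : Hk R z) := by
      rw [Finset.sum_mul]
      unfold coef
      rw [map_sum, Finsupp.finsetSum_apply]
    rw [h11, h8, zero_mul]
    unfold coef; rw [map_zero]; rfl
  · simp only [if_neg h5]
    exact Finset.sum_const_zero

end Pool.Agent.H873
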