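import Pool.Agent.Helper873_Hecke.Stmts

set_option autoImplicit false

namespace Pool.Agent.H873

open Equiv Hk

theorem Span_commute_gen {R : Type} [CommRing R] {z : R} {i j : ℕ} (e : Bool) (h : j + 2 ≤ i) :
    Commute (gen e j : Hk R z) (sg i : Hk R z) := by
  have h1 : Commute (sg j : Hk R z) (sg i : Hk R z) := sg_comm h
  cases e
  · change Commute (sgi j : Hk R z) (sg i : Hk R z)
    unfold sgi
    exact h1.sub_left ((Commute.one_left _).smul_left _)
  · exact h1

theorem Span_commute {R : Type} [CommRing R] {z : R} {k : ℕ} {y : BW} {I : Finset ℕ}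
    (hy : ∀ l ∈ y, l.1 + 2 < k) (hI : ∀ i ∈ I, k - 1 ≤ i) :
    Commute (wd y : Hk R z) (cI I : Hk R z) := by
  unfold wd cI
  apply Commute.list_prod_left
  intro a ha
  apply Commute.list_prod_right
  intro b hb
  obtain ⟨l, hl, rfl⟩ := List.mem_map.1 ha
  obtain ⟨i, hi, rfl⟩ := List.mem_map.1 hb
  rw [Finset.mem_sort] at hi
  have h1 := hy l hl
  have h2 := hI i hi
  exact Span_commute_gen l.2 (by omega)

theorem Span_cI_mem {R : Type} [CommRing R] {z : R} {I : Finset ℕ} {n : ℕ}
    (hI : ∀ i ∈ I, i + 1 < n) : (cI I : Hk R z) ∈ (Hs n : Subalgebra R (Hk R z)) := by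
  unfold cI
  apply Subalgebra.list_prod_mem
  intro y hy
  obtain ⟨i, hi, rfl⟩ := List.mem_map.1 hy
  rw [Finset.mem_sort] at hi
  exact sg_mem_Hs (hI i hi)

theorem Span_valid_append {n : ℕ} {x y : BW} : Valid n (x ++ y) ↔ Valid n x ∧ Valid n y := by
  unfold Valid
  constructor
  · intro h
    exact ⟨fun l hl => h l (List.mem_append_left _ hl), fun l hl => h l (List.mem_append_right _ hl)⟩
  · rintro ⟨h1, h2⟩ l hl
    rcases List.mem_append.1 hl with h | h
    · exact h1 l h
    · exact h2 l h

theorem Span_valid_cons {n : ℕ} {l : ℕ × Bool} {y : BW} :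
    Valid n (l :: y) ↔ l.1 + 1 < n ∧ Valid n y := by
  unfold Valid
  constructor
  · intro h
    exact ⟨h l List.mem_cons_self, fun l' hl => h l' (List.mem_cons_of_mem _ hl)⟩
  · rintro ⟨h1, h2⟩ l' hl
    rcases List.mem_cons.1 hl with h | h
    · rw [h]; exact h1
    · exact h2 l' h

theorem t_span (h : S_IND) : S_span := by
  intro R _ z M _ _ n f hn hf hcI
  -- the predicate
  let P : ℕ → BW → Prop := fun k w => 1 ≤ k → k ≤ n → Valid k w →
    ∀ I : Finset ℕ, (∀ i ∈ I, k - 1 ≤ i ∧ i + 1 < n) → f ((wd w : Hk R z) * cI I) = 0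
  have hP : INDHyp P := by
    refine ⟨?_, ?_, ?_, ?_, ?_, ?_, ?_, ?_⟩
    · -- far
      intro k x y i j hij hv
      have e1 : (wd (x ++ (i, true) :: (j, true) :: y) : Hk R z) =
          wd (x ++ (j, true) :: (i, true) :: y) := by
        rw [wd_append, wd_append, wd_cons, wd_cons, wd_cons, wd_cons]
        change (wd x * (sg i * (sg j * wd y)) : Hk R z) = wd x * (sg j * (sg i * wd y))
        rw [← mul_assoc (sg i : Hk R z), sg_comm hij, mul_assoc]
      have hv' : Valid k (x ++ (j, true) :: (i, true) :: y) := by
        rw [Span_valid_append, Span_valid_cons, Span_valid_cons] at hv ⊢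
        exact ⟨hv.1, hv.2.2.1, hv.2.1, hv.2.2.2⟩
      constructor
      · intro hp h1 h2 _ I hI
        rw [← e1]
        exact hp h1 h2 hv I hI
      · intro hp h1 h2 _ I hI
        rw [e1]
        exact hp h1 h2 hv' I hI
    · -- braid
      intro k x y i hv
      have e1 : (wd (x ++ (i, true) :: (i + 1, true) :: (i, true) :: y) : Hk R z) =
          wd (x ++ (i + 1, true) :: (i, true) :: (i + 1, true) :: y) := by
        rw [wd_append, wd_append, wd_cons, wd_cons, wd_cons, wd_cons, wd_cons, wd_cons]
        change (wd x * (sg i * (sg (i + 1) * (sg i * wd y))) : Hk R z) =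
          wd x * (sg (i + 1) * (sg i * (sg (i + 1) * wd y)))
        have h1 := sg_braid (R := R) (z := z) i
        have h2 : (sg i * (sg (i + 1) * (sg i * wd y)) : Hk R z) =
            (sg i * (sg (i + 1) * sg i)) * wd y := by simp only [mul_assoc]
        have h3 : (sg (i + 1) * (sg i * (sg (i + 1) * wd y)) : Hk R z) =
            (sg (i + 1) * (sg i * sg (i + 1))) * wd y := by simp only [mul_assoc]
        rw [h2, h3, h1]
      have hv' : Valid k (x ++ (i + 1, true) :: (i, true) :: (i + 1, true) :: y) := by
        rw [Span_valid_append, Span_valid_cons, Span_valid_cons, Span_valid_cons] at hv ⊢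
        exact ⟨hv.1, hv.2.2.1, hv.2.1, hv.2.2.1, hv.2.2.2.2⟩
      constructor
      · intro hp h1 h2 _ I hI
        rw [← e1]
        exact hp h1 h2 hv I hI
      · intro hp h1 h2 _ I hI
        rw [e1]
        exact hp h1 h2 hv' I hI
    · -- cancel
      intro k x y i hv _ hp h1 h2 _ I hI
      have e1 : (wd (x ++ (i, true) :: (i, false) :: y) : Hk R z) = wd (x ++ y) := by
        rw [wd_append, wd_append, wd_cons, wd_cons]
        change (wd x * (sg i * (sgi i * wd y)) : Hk R z) = wd x * wd y
        rw [← mul_assoc (sg i : Hk R z), sg_mul_sgi, one_mul]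
      rw [e1]
      exact hp h1 h2 hv I hI
    · -- skein
      intro k x y i hv hi hp
      have e1 : (wd (x ++ (i, true) :: y) : Hk R z) =
          wd (x ++ (i, false) :: y) + z • wd (x ++ y) := by
        rw [wd_append, wd_append, wd_append, wd_cons, wd_cons]
        change (wd x * (sg i * wd y) : Hk R z) = wd x * (sgi i * wd y) + z • (wd x * wd y)
        unfold sgi
        rw [sub_mul, smul_mul_assoc, one_mul, mul_sub, mul_smul_comm, sub_add_cancel]
      have hvt : ∀ e, Valid k (x ++ (i, e) :: y) := by
        intro e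
        rw [Span_valid_append, Span_valid_cons]
        rw [Span_valid_append] at hv
        exact ⟨hv.1, hi, hv.2⟩
      constructor
      · intro hpt h1 h2 _ I hI
        have h3 := hpt h1 h2 (hvt true) I hI
        have h4 := hp h1 h2 hv I hI
        rw [e1, add_mul, smul_mul_assoc, map_add, map_smul, h4, smul_zero, add_zero] at h3
        exact h3
      · intro hpt h1 h2 _ I hI
        have h3 := hpt h1 h2 (hvt false) I hI
        have h4 := hp h1 h2 hv I hI
        rw [e1, add_mul, smul_mul_assoc, map_add, map_smul, h4, smul_zero, add_zero]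
        exact h3
    · -- rot
      intro k x y hx hy
      have hyv : Valid k y := fun l hl => by have := hy l hl; omega
      have key : k ≤ n → ∀ I : Finset ℕ, (∀ i ∈ I, k - 1 ≤ i ∧ i + 1 < n) →
          f ((wd (x ++ y) : Hk R z) * cI I) = f ((wd (y ++ x) : Hk R z) * cI I) := by
        intro hkn I hI
        have hc : Commute (wd y : Hk R z) (cI I : Hk R z) := Span_commute hy fun i hi => (hI i hi).1
        have hxm : (wd x : Hk R z) ∈ (Hs n : Subalgebra R (Hk R z)) := Hs_mono hkn (wd_mem_Hs hx)
        have hym : (wd y : Hk R z) ∈ (Hs n : Subalgebra R (Hk R z)) := Hs_mono hkn (wd_mem_Hs hyv)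
        have hcm : (cI I : Hk R z) ∈ (Hs n : Subalgebra R (Hk R z)) :=
          Span_cI_mem fun i hi => (hI i hi).2
        rw [wd_append, wd_append, mul_assoc, hc.eq, ← mul_assoc, mul_assoc (wd y : Hk R z)]
        exact hf _ (mul_mem hxm hcm) _ hym
      constructor
      · intro hp h1 h2 _ I hI
        rw [← key h2 I hI]
        exact hp h1 h2 (Span_valid_append.2 ⟨hx, hyv⟩) I hI
      · intro hp h1 h2 _ I hI
        rw [key h2 I hI]
        exact hp h1 h2 (Span_valid_append.2 ⟨hyv, hx⟩) I hI
    · -- split
      intro k w hk hv hp _ h2 _ I hI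
      refine hp hk (by omega) hv I fun i hi => ?_
      have := hI i hi
      exact ⟨by omega, this.2⟩
    · -- curl
      intro k w hv hp _ h2 _ I hI
      have hkI : k ∉ I := by
        intro hk
        have := (hI k hk).1
        omega
      have e1 : (wd (w ++ [(k, true)]) * cI I : Hk R z) = wd w * cI (insert k I) := by
        rw [wd_append, wd_cons, wd_nil, mul_one, mul_assoc]
        congr 1
        unfold cI
        rw [Finset.sort_insert (r := (· ≤ ·)) (fun b hb => by have := (hI b hb).1; omega) hkI,
          List.map_cons, List.prod_cons]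
        rfl
      rw [e1]
      refine hp (by omega) (by omega) hv (insert k I) fun i hi => ?_
      rcases Finset.mem_insert.1 hi with rfl | hi
      · exact ⟨by omega, by omega⟩
      · have := hI i hi
        exact ⟨by omega, this.2⟩
    · -- base
      intro _ _ _ I hI
      rw [wd_nil, one_mul]
      refine hcI I fun i hi => ?_
      have := (hI i hi).2
      exact Finset.mem_range.2 (by omega)
  have hall : ∀ v, Valid n v → f (wd v : Hk R z) = 0 := by
    intro v hv
    have h1 := h P hP n v hn hv hn le_rfl hv ∅ (by simp)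
    have h2 : (cI ∅ : Hk R z) = 1 := by
      unfold cI
      rw [Finset.sort_empty, List.map_nil, List.prod_nil]
    rwa [h2, mul_one] at h1
  intro x hx
  have h3 : ∀ v, Valid n v → f ((wd v : Hk R z) * x) = 0 := by
    refine Hs_induction (P := fun x => ∀ v, Valid n v → f ((wd v : Hk R z) * x) = 0)
      ?_ ?_ ?_ ?_ hx
    · intro v hv
      rw [mul_one]
      exact hall v hv
    · intro a _ b _ ha hb v hv
      rw [mul_add, map_add, ha v hv, hb v hv, add_zero]
    · intro r a _ ha v hv
      rw [mul_smul_comm, map_smul, ha v hv, smul_zero]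
    · intro i hi a _ ha v hv
      have h4 := ha (v ++ [(i, true)]) (by
        rw [Span_valid_append, Span_valid_cons]
        exact ⟨hv, hi, fun l hl => absurd hl List.not_mem_nil⟩)
      rw [wd_append, wd_cons, wd_nil, mul_one, mul_assoc] at h4
      exact h4
  have h5 := h3 [] (fun l hl => absurd hl List.not_mem_nil)
  rwa [wd_nil, one_mul] at h5

end Pool.Agent.H873
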