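import Pool.Agent.Helper873_Hecke.Stmts

set_option autoImplicit false

namespace Pool.Agent.H873

open Equiv Hk

/-! ### the words -/

/-- the indices of `dnw a r e` -/
def Top_row (a : ℕ) : ℕ → List ℕ
  | 0 => []
  | r + 1 => (a + r) :: Top_row a r

/-- the indices of `xw e k s r` -/
def Top_idx (r : ℕ) : ℕ → ℕ → List ℕ
  | _, 0 => []
  | k, s + 1 => Top_row k r ++ Top_idx r (k + 1) s

theorem Top_dnw (a r : ℕ) (e : Bool) : dnw a r e = (Top_row a r).map fun i => (i, e) := by
  induction r with
  | zero => rfl
  | succ r ih =>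
    unfold dnw upw at ih ⊢
    rw [List.range_succ, List.map_append, List.reverse_append, ih]
    rfl

theorem Top_xw (e : Bool) (r : ℕ) : ∀ s k : ℕ, xw e k s r = (Top_idx r k s).map fun i => (i, e) := by
  intro s
  induction s with
  | zero => intro k; rfl
  | succ s ih =>
    intro k
    have h := ih (k + 1)
    unfold xw at h ⊢
    rw [List.range_succ_eq_map, List.flatMap_cons, List.flatMap_map, Top_idx, List.map_append, ← h,
      Nat.add_zero, Top_dnw]
    congr 2
    funext i
    have : k + i.succ = k + 1 + i := by omega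
    rw [this]

theorem Top_row_length (a r : ℕ) : (Top_row a r).length = r := by
  induction r with
  | zero => rfl
  | succ r ih => rw [Top_row, List.length_cons, ih]

theorem Top_idx_length (r : ℕ) : ∀ s k : ℕ, (Top_idx r k s).length = s * r := by
  intro s
  induction s with
  | zero => intro k; rw [Top_idx, List.length_nil, Nat.zero_mul]
  | succ s ih =>
    intro k
    rw [Top_idx, List.length_append, ih, Top_row_length, Nat.succ_mul, Nat.add_comm]

/-- the permutation of a list of indices -/
def Top_pw (l : List ℕ) : G := (l.map s).prod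

theorem Top_pw_append (l m : List ℕ) : Top_pw (l ++ m) = Top_pw l * Top_pw m := by
  unfold Top_pw; rw [List.map_append, List.prod_append]

theorem Top_pw_cons (i : ℕ) (m : List ℕ) : Top_pw (i :: m) = s i * Top_pw m := by
  unfold Top_pw; rw [List.map_cons, List.prod_cons]

theorem Top_inv_s_mul (i : ℕ) (w : G) (x : ℕ) : (s i * w)⁻¹.1 x = w⁻¹.1 ((s i).1 x) := by
  rw [mul_inv_rev, s_inv]; rfl

theorem Top_row_inv (a : ℕ) (u : G) (r : ℕ) (v : ℕ) :
    (Top_pw (Top_row a r) * u)⁻¹.1 v =
      if v < a then u⁻¹.1 v else if v < a + r then u⁻¹.1 (v + 1) else if v = a + r then u⁻¹.1 a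
        else u⁻¹.1 v := by
  induction r generalizing v with
  | zero =>
    have : Top_pw (Top_row a 0) = 1 := rfl
    rw [this, one_mul]
    split_ifs with h1 h2 h3
    · rfl
    · omega
    · have : v = a := by omega
      rw [this]
    · rfl
  | succ r ih =>
    rw [Top_row, Top_pw_cons, mul_assoc, Top_inv_s_mul, ih, s_apply]
    by_cases h1 : v = a + r
    · rw [if_pos h1, if_neg (by omega), if_neg (by omega), if_neg (by omega), if_neg (by omega),
        if_pos (by omega), h1]
    · rw [if_neg h1]
      by_cases h2 : v = a + r + 1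
      · rw [if_pos h2, if_neg (by omega), if_neg (by omega), if_pos rfl, if_neg (by omega),
          if_neg (by omega), if_pos (by omega)]
      · rw [if_neg h2]
        by_cases h3 : v < a
        · rw [if_pos h3, if_pos h3]
        · rw [if_neg h3, if_neg h3]
          by_cases h4 : v < a + r
          · rw [if_pos h4, if_pos (by omega)]
          · rw [if_neg h4, if_neg h1, if_neg (by omega), if_neg (by omega)]

theorem Top_row_red (a : ℕ) (u : G) (r : ℕ) (h : ∀ j, j < r → u⁻¹.1 a < u⁻¹.1 (a + 1 + j))
    {l : List ℕ} (hl : Red l u) : Red (Top_row a r ++ l) (Top_pw (Top_row a r) * u) := by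
  induction r with
  | zero =>
    have : Top_pw (Top_row a 0) = 1 := rfl
    rw [this, one_mul]
    exact hl
  | succ r ih =>
    rw [Top_row, Top_pw_cons, mul_assoc]
    refine Red.cons _ _ _ (ih fun j hj => h j (by omega)) ?_
    unfold LA
    rw [Top_row_inv, Top_row_inv, if_neg (by omega), if_neg (by omega), if_pos rfl,
      if_neg (by omega), if_neg (by omega), if_neg (by omega)]
    have := h r (by omega)
    have e : a + 1 + r = a + r + 1 := by omega
    rwa [e] at this

theorem Top_idx_inv (r : ℕ) : ∀ s k : ℕ, Red (Top_idx r k s) (Top_pw (Top_idx r k s)) ∧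
    ∀ v, (Top_pw (Top_idx r k s))⁻¹.1 v = if v < k then v else if v < k + r then v + s else
      if v < k + r + s then v - r else v := by
  intro s
  induction s with
  | zero =>
    intro k
    refine ⟨Red.nil, fun v => ?_⟩
    have : Top_pw (Top_idx r k 0) = 1 := rfl
    rw [this, inv_one]
    change v = _
    split_ifs <;> omega
  | succ s ih =>
    intro k
    obtain ⟨h1, h2⟩ := ih (k + 1)
    constructor
    · rw [Top_idx, Top_pw_append]
      refine Top_row_red k _ r (fun j hj => ?_) h1
      rw [h2, h2, if_pos (by omega), if_neg (by omega), if_pos (by omega)]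
      omega
    · intro v
      rw [Top_idx, Top_pw_append, Top_row_inv]
      simp only [h2]
      split_ifs <;> omega

theorem Top_wd_true {R : Type*} [CommRing R] {z : R} (l : List ℕ) (h : Red l (Top_pw l)) :
    (wd (l.map fun i => (i, true)) : Hk R z) = T (Top_pw l) := by
  rw [T_mul_T_of_red h]
  unfold wd
  rw [List.map_map]
  rfl

/-! ### the filtration -/

/-- the statistic `D` -/
def Top_D (p : ℕ) (w : G) : ℕ := ∑ i ∈ Finset.range p, w.1 i

theorem Top_D_s (p i : ℕ) (w : G) : Top_D p (s i * w) ≤ Top_D p w + 1 := by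
  classical
  unfold Top_D
  have h1 : ∀ j ∈ Finset.range p, (s i * w).1 j ≤ w.1 j + if w.1 j = i then 1 else 0 := by
    intro j _
    change (s i).1 (w.1 j) ≤ _
    rw [s_apply]
    split_ifs <;> omega
  refine (Finset.sum_le_sum h1).trans ?_
  rw [Finset.sum_add_distrib]
  apply Nat.add_le_add_left
  rw [← Finset.card_filter]
  apply Finset.card_le_one.2
  intro a ha b hb
  have ha' := (Finset.mem_filter.1 ha).2
  have hb' := (Finset.mem_filter.1 hb).2
  exact w.1.injective (ha'.trans hb'.symm)

/-- the filtration -/
noncomputable def Top_F (R : Type*) [CommRing R] (z : R) (p t : ℕ) : Submodule R (Hk R z) :=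
  Submodule.span R {x | ∃ w : G, Top_D p w < Top_D p 1 + t ∧ x = T w}

theorem Top_F_mono {R : Type*} [CommRing R] {z : R} (p t : ℕ) {x : Hk R z}
    (hx : x ∈ Top_F R z p t) : x ∈ Top_F R z p (t + 1) := by
  refine Submodule.span_mono ?_ hx
  rintro _ ⟨w, hw, rfl⟩
  exact ⟨w, by omega, rfl⟩

theorem Top_F_sg {R : Type*} [CommRing R] {z : R} (p t i : ℕ) {x : Hk R z}
    (hx : x ∈ Top_F R z p t) : (sg i * x : Hk R z) ∈ Top_F R z p (t + 1) := by
  induction hx using Submodule.span_induction with
  | mem x hx =>
    obtain ⟨w, hw, rfl⟩ := hx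
    have h1 : (T (s i * w) : Hk R z) ∈ Top_F R z p (t + 1) :=
      Submodule.subset_span ⟨s i * w, by have := Top_D_s p i w; omega, rfl⟩
    by_cases h : LA i w
    · rw [sg_mul_T_asc h]; exact h1
    · rw [sg_mul_T_desc h]
      exact add_mem h1 (Submodule.smul_mem _ _ (Submodule.subset_span ⟨w, by omega, rfl⟩))
  | zero => rw [mul_zero]; exact zero_mem _
  | add x y _ _ hx hy => rw [mul_add]; exact add_mem hx hy
  | smul r x _ hx => rw [mul_smul_comm]; exact Submodule.smul_mem _ _ hx

theorem Top_F_sgi {R : Type*} [CommRing R] {z : R} (p t i : ℕ) {x : Hk R z}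
    (hx : x ∈ Top_F R z p t) : (sgi i * x : Hk R z) ∈ Top_F R z p (t + 1) := by
  unfold sgi
  rw [sub_mul, smul_mul_assoc, one_mul]
  exact sub_mem (Top_F_sg p t i hx) (Submodule.smul_mem _ _ (Top_F_mono p t hx))

theorem Top_wd_mem {R : Type*} [CommRing R] {z : R} (p : ℕ) (l : List ℕ) :
    (wd (l.map fun i => (i, false)) : Hk R z) ∈ Top_F R z p (l.length + 1) := by
  induction l with
  | nil => exact Submodule.subset_span ⟨1, by simp, rfl⟩
  | cons i l ih =>
    rw [List.map_cons, wd_cons, List.length_cons]
    exact Top_F_sgi p _ i ih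

theorem Top_diff_mem {R : Type*} [CommRing R] {z : R} (p : ℕ) (l : List ℕ) :
    (wd (l.map fun i => (i, false)) - wd (l.map fun i => (i, true)) : Hk R z) ∈
      Top_F R z p l.length := by
  induction l with
  | nil => rw [List.map_nil, List.map_nil, sub_self]; exact zero_mem _
  | cons i l ih =>
    rw [List.map_cons, wd_cons, List.map_cons, wd_cons, List.length_cons, gen_true, gen_false]
    have e : (sgi i * wd (l.map fun i => (i, false)) - sg i * wd (l.map fun i => (i, true)) : Hk R z)
        = sg i * (wd (l.map fun i => (i, false)) - wd (l.map fun i => (i, true))) -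
          z • wd (l.map fun i => (i, false)) := by
      unfold sgi
      rw [sub_mul, smul_mul_assoc, one_mul, mul_sub]
      abel
    rw [e]
    exact sub_mem (Top_F_sg p _ i ih) (Submodule.smul_mem _ _ (Top_wd_mem p l))

theorem Top_VV {p : ℕ} {w : G} (hw : w ∈ VV p p) : Top_D p w = Top_D p 1 + p * p := by
  classical
  obtain ⟨_, h2⟩ := hw
  have h3 : ∀ k ∈ Finset.range p, w⁻¹.1 (p + k) < p := by
    intro k hk
    have : (Finset.range p).filter (fun k => w⁻¹.1 (p + k) < p) = Finset.range p := by
      apply Finset.eq_of_subset_of_card_le (Finset.filter_subset _ _)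
      rw [Finset.card_range]
      unfold jn at h2
      convert h2.ge
    rw [← this] at hk
    exact (Finset.mem_filter.1 hk).2
  have h4 : (Finset.range p).image (fun k => w⁻¹.1 (p + k)) = Finset.range p := by
    apply Finset.eq_of_subset_of_card_le
    · intro x hx
      obtain ⟨k, hk, rfl⟩ := Finset.mem_image.1 hx
      exact Finset.mem_range.2 (h3 k hk)
    · rw [Finset.card_image_of_injective]
      intro a b hab
      have := w⁻¹.1.injective hab
      omega
  unfold Top_D
  conv_lhs => rw [← h4]
  rw [Finset.sum_image]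
  · have : ∀ k ∈ Finset.range p, w.1 (w⁻¹.1 (p + k)) = p + (1 : G).1 k := by
      intro k _
      rw [papp]; rfl
    rw [Finset.sum_congr rfl this, Finset.sum_add_distrib, Finset.sum_const, Finset.card_range,
      smul_eq_mul, Nat.add_comm]
  · intro a _ b _ hab
    have := w⁻¹.1.injective hab
    omega

theorem Top_kill {R : Type*} [CommRing R] {z : R} (p : ℕ) {x : Hk R z}
    (hx : x ∈ Top_F R z p (p * p)) : proj (VV p p) x = 0 := by
  induction hx using Submodule.span_induction with
  | mem x hx =>
    obtain ⟨w, hw, rfl⟩ := hx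
    apply proj_T_of_notMem
    intro h
    have := Top_VV h
    omega
  | zero => rw [map_zero]
  | add x y _ _ hx hy => rw [map_add, hx, hy, add_zero]
  | smul r x _ hx => rw [map_smul, hx, smul_zero]

theorem Top_mem (p : ℕ) : Top_pw (Top_idx p 0 p) ∈ VV p p := by
  classical
  have h := (Top_idx_inv p p 0).2
  constructor
  · intro m hm
    have h1 : (Top_pw (Top_idx p 0 p))⁻¹.1 m = m := by
      rw [h, if_neg (by omega), if_neg (by omega), if_neg (by omega)]
    conv_lhs => rw [← h1]
    exact papp _ _
  · unfold jn
    have : (Finset.range p).filter (fun k => (Top_pw (Top_idx p 0 p))⁻¹.1 (p + k) < p) =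
        Finset.range p := by
      apply Finset.filter_true_of_mem
      intro k hk
      rw [Finset.mem_range] at hk
      rw [h, if_neg (by omega), if_neg (by omega), if_pos (by omega)]
      omega
    convert congrArg Finset.card this
    rw [Finset.card_range]

theorem t_top : S_top := by
  intro R _ z p
  rw [Top_xw, Top_xw]
  have h1 := Top_diff_mem (R := R) (z := z) p (Top_idx p 0 p)
  rw [Top_idx_length] at h1
  have h2 := Top_kill p h1
  rw [map_sub, sub_eq_zero] at h2
  rw [h2, Top_wd_true _ (Top_idx_inv p p 0).1]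
  exact proj_T_of_mem (Top_mem p)

end Pool.Agent.H873
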