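import Pool.Agent.Helper873_Hecke.Stmts2

set_option autoImplicit false

namespace Pool.Agent.H873

open Equiv Hk

/-- `π` fixes all `j ≥ n` -/
def Transv_Fx (n : ℕ) (π : Perm ℕ) : Prop := ∀ j, n ≤ j → π j = j

/-- transversals of permutations -/
def Transv_TV (n : ℕ) (π : Perm ℕ) (js : List ℕ) : Prop :=
  js.Nodup ∧ (∀ j ∈ js, j < n) ∧ (∀ i < n, ∃ j ∈ js, π.SameCycle i j) ∧
    (∀ j ∈ js, ∀ j' ∈ js, π.SameCycle j j' → j = j')

theorem Transv_prm_nil : prm [] = 1 := rfl

theorem Transv_prm_append (v w : BW) : prm (v ++ w) = prm v * prm w := by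
  unfold prm
  rw [List.map_append, List.prod_append]

theorem Transv_prm_snoc (w : BW) (i : ℕ) (e : Bool) : prm (w ++ [(i, e)]) = prm w * swap i (i + 1) := by
  rw [Transv_prm_append]
  unfold prm
  rw [List.map_cons, List.map_nil, List.prod_cons, List.prod_nil, mul_one]

theorem Transv_fx_swap {n i : ℕ} (h : i + 1 < n) : Transv_Fx n (swap i (i + 1)) := fun j hj =>
  swap_apply_of_ne_of_ne (by omega) (by omega)

theorem Transv_fx_mul {n : ℕ} {π ρ : Perm ℕ} (h : Transv_Fx n π) (h' : Transv_Fx n ρ) :
    Transv_Fx n (π * ρ) := fun j hj => by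
  rw [Perm.mul_apply, h' j hj, h j hj]

theorem Transv_fx {n : ℕ} {w : BW} (h : Valid n w) : Transv_Fx n (prm w) := by
  induction w with
  | nil => intro j _; rfl
  | cons l w ih =>
    have h1 : prm (l :: w) = swap l.1 (l.1 + 1) * prm w := by
      unfold prm
      rw [List.map_cons, List.prod_cons]
    rw [h1]
    exact Transv_fx_mul (Transv_fx_swap (h l List.mem_cons_self))
      (ih fun x hx => h x (List.mem_cons_of_mem _ hx))

theorem Transv_lt {n : ℕ} {π : Perm ℕ} (h : Transv_Fx n π) {x : ℕ} (hx : x < n) : π x < n := by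
  by_contra hc
  push Not at hc
  have h1 := h _ hc
  have h2 := π.injective h1
  omega

theorem Transv_pow_lt {n : ℕ} {π : Perm ℕ} (h : Transv_Fx n π) {x : ℕ} (hx : x < n) (k : ℕ) :
    (π ^ k) x < n := by
  induction k with
  | zero => exact hx
  | succ k ih => rw [pow_succ', Perm.mul_apply]; exact Transv_lt h ih

theorem Transv_natpow {n : ℕ} {π : Perm ℕ} (h : Transv_Fx n π) {x y : ℕ} (hs : π.SameCycle x y) :
    ∃ k : ℕ, (π ^ k) x = y := by
  by_cases hx : x < n
  · have hnot := not_injective_infinite_finite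
      (fun k : ℕ => (⟨(π ^ k) x, Transv_pow_lt h hx k⟩ : Fin n))
    rw [Function.Injective] at hnot
    push Not at hnot
    obtain ⟨a, b, hab, hne⟩ := hnot
    have hab' : (π ^ a) x = (π ^ b) x := congrArg Fin.val hab
    obtain ⟨d, hd, hdx⟩ : ∃ d : ℕ, 0 < d ∧ (π ^ d) x = x := by
      rcases Nat.lt_or_gt_of_ne hne with h1 | h1
      · refine ⟨b - a, by omega, ?_⟩
        have h2 : π ^ b = π ^ a * π ^ (b - a) := by rw [← pow_add]; congr 1; omega
        rw [h2, Perm.mul_apply] at hab'
        exact ((π ^ a).injective hab').symm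
      · refine ⟨a - b, by omega, ?_⟩
        have h2 : π ^ a = π ^ b * π ^ (a - b) := by rw [← pow_add]; congr 1; omega
        rw [h2, Perm.mul_apply] at hab'
        exact (π ^ b).injective hab'
    obtain ⟨m, hm⟩ := hs
    refine ⟨(m % (d : ℤ)).toNat, ?_⟩
    have h3 : (0 : ℤ) ≤ m % (d : ℤ) := Int.emod_nonneg _ (by omega)
    have h4 : π ^ m = π ^ (m % (d : ℤ)) * (π ^ (d : ℤ)) ^ (m / (d : ℤ)) := by
      rw [← zpow_mul, ← zpow_add]
      congr 1
      rw [add_comm]
      exact (Int.mul_ediv_add_emod m d).symm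
    rw [← zpow_natCast, Int.toNat_of_nonneg h3, ← hm, h4, Perm.mul_apply]
    congr 1
    symm
    apply Perm.zpow_apply_eq_self_of_apply_eq_self
    rw [zpow_natCast]
    exact hdx
  · exact ⟨0, hs.eq_of_left (h x (not_lt.1 hx))⟩

/-- colourings -/
theorem Transv_color {π : Perm ℕ} {X : Type} (χ : ℕ → X) (h : ∀ x, χ (π x) = χ x) {x y : ℕ}
    (hs : π.SameCycle x y) : χ x = χ y := by
  obtain ⟨m, rfl⟩ := hs
  have hi : ∀ x, χ (π⁻¹ x) = χ x := fun x => by
    have := h (π⁻¹ x)
    rw [show π (π⁻¹ x) = x from π.apply_symm_apply x] at this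
    exact this.symm
  have hp : ∀ (k : ℕ) x, χ ((π ^ k) x) = χ x := by
    intro k
    induction k with
    | zero => intro x; rfl
    | succ k ih => intro x; rw [pow_succ', Perm.mul_apply, h, ih]
  have hq : ∀ (k : ℕ) x, χ ((π⁻¹ ^ k) x) = χ x := by
    intro k
    induction k with
    | zero => intro x; rfl
    | succ k ih => intro x; rw [pow_succ', Perm.mul_apply, hi, ih]
  obtain ⟨k, rfl | rfl⟩ := m.eq_nat_or_neg
  · rw [zpow_natCast, hp]
  · rw [zpow_neg, ← inv_zpow, zpow_natCast, hq]

theorem Transv_coarse {π : Perm ℕ} {a b : ℕ} (hab : π.SameCycle a b) {x y : ℕ}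
    (h : (π * swap a b).SameCycle x y) : π.SameCycle x y := by
  let χ : ℕ → Set ℕ := fun x => {y | π.SameCycle x y}
  have h1 : ∀ x y, π.SameCycle x y → χ x = χ y := fun x y hxy => Set.ext fun z =>
    ⟨fun hz => hxy.symm.trans hz, fun hz => hxy.trans hz⟩
  have h2 : χ x = χ y := by
    refine Transv_color (π := π * swap a b) χ (fun u => ?_) h
    rw [Perm.mul_apply, h1 _ _ (Perm.sameCycle_apply_left.2 (Perm.SameCycle.refl π _))]
    by_cases hua : u = a
    · subst hua; rw [swap_apply_left]; exact (h1 _ _ hab).symm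
    · by_cases hub : u = b
      · subst hub; rw [swap_apply_right]; exact h1 _ _ hab
      · rw [swap_apply_of_ne_of_ne hua hub]
  have h3 : y ∈ χ y := Perm.SameCycle.refl π y
  rw [← h2] at h3
  exact h3

/-- if the intermediate points avoid `a` and `b`, both permutations act in the same way -/
theorem Transv_walk {π : Perm ℕ} {a b c d : ℕ} (hc : (π * swap a b) c = π d) (m : ℕ)
    (h : ∀ i, 0 < i → i < m → (π ^ i) d ≠ a ∧ (π ^ i) d ≠ b) :
    ∀ i, 0 < i → i ≤ m → ((π * swap a b) ^ i) c = (π ^ i) d := by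
  intro i
  induction i with
  | zero => intro h0; omega
  | succ i ih =>
    intro _ him
    rcases Nat.eq_zero_or_pos i with h0 | h0
    · subst h0
      rw [zero_add, pow_one, pow_one, hc]
    · rw [pow_succ', Perm.mul_apply, ih h0 (by omega), pow_succ', Perm.mul_apply, Perm.mul_apply]
      obtain ⟨h1, h2⟩ := h i h0 (by omega)
      rw [swap_apply_of_ne_of_ne h1 h2]

theorem Transv_merge {n : ℕ} {π : Perm ℕ} (hπ : Transv_Fx n π) {a b : ℕ}
    (hab : ¬ π.SameCycle a b) : (π * swap a b).SameCycle a b := by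
  -- a positive power returning `b`
  have hex : ∃ m : ℕ, 0 < m ∧ (π ^ m) b = b := by
    have h1 : π.SameCycle (π b) b := Perm.sameCycle_apply_left.2 (Perm.SameCycle.refl π b)
    obtain ⟨k, hk⟩ := Transv_natpow hπ h1
    refine ⟨k + 1, by omega, ?_⟩
    rw [pow_succ, Perm.mul_apply]
    exact hk
  classical
  have hm := Nat.find_spec hex
  have hmin := fun l (hl : l < Nat.find hex) => Nat.find_min hex hl
  set m := Nat.find hex
  have hc : (π * swap a b) a = π b := by rw [Perm.mul_apply, swap_apply_left]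
  have h2 := Transv_walk hc m (fun i hi0 hi => ⟨fun h3 => hab ?_, fun h3 => hmin i hi ⟨hi0, h3⟩⟩)
    m hm.1 le_rfl
  · rw [hm.2] at h2
    exact ⟨m, by rw [zpow_natCast]; exact h2⟩
  · have : π.SameCycle b a := ⟨i, by rw [zpow_natCast]; exact h3⟩
    exact this.symm

theorem Transv_split {n : ℕ} {π : Perm ℕ} (hπ : Transv_Fx n π) {a b : ℕ} (hne : a ≠ b)
    (hπ' : Transv_Fx n (π * swap a b)) (hab : π.SameCycle a b) :
    ¬ (π * swap a b).SameCycle a b := by
  classical
  have hex : ∃ m : ℕ, 0 < m ∧ (π ^ m) a = b := by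
    obtain ⟨m, h2⟩ := Transv_natpow hπ hab
    rcases Nat.eq_zero_or_pos m with h0 | h0
    · subst h0
      exact absurd (by simpa using h2) hne
    · exact ⟨m, h0, h2⟩
  have hm := Nat.find_spec hex
  have hmin := fun l (hl : l < Nat.find hex) => Nat.find_min hex hl
  set m := Nat.find hex
  have hna : ∀ i, 0 < i → i ≤ m → (π ^ i) a ≠ a := by
    intro i hi0 hi h3
    rcases Nat.lt_or_ge i m with h4 | h4
    · apply hmin (m - i) (by omega)
      refine ⟨by omega, ?_⟩
      have h5 : π ^ m = π ^ (m - i) * π ^ i := by rw [← pow_add]; congr 1; omega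
      have h6 := hm.2
      rw [h5, Perm.mul_apply, h3] at h6
      exact h6
    · have : i = m := by omega
      subst this
      exact hne (h3.symm.trans hm.2)
  have hc : (π * swap a b) b = π a := by rw [Perm.mul_apply, swap_apply_right]
  have hw := Transv_walk hc m (fun i hi0 hi => ⟨hna i hi0 hi.le, fun h3 => hmin i hi ⟨hi0, h3⟩⟩)
  intro hs
  obtain ⟨k, hk⟩ := Transv_natpow hπ' hs.symm
  -- the orbit of `b`
  have horb : ∀ k : ℕ, ∃ i, 0 < i ∧ i ≤ m ∧ ((π * swap a b) ^ k) b = (π ^ i) a := by
    intro k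
    induction k with
    | zero => exact ⟨m, hm.1, le_rfl, hm.2.symm⟩
    | succ k ih =>
      obtain ⟨i, hi0, hi, h1⟩ := ih
      rw [pow_succ', Perm.mul_apply, h1]
      rcases Nat.lt_or_ge i m with h2 | h2
      · refine ⟨i + 1, by omega, by omega, ?_⟩
        rw [pow_succ', Perm.mul_apply, Perm.mul_apply, swap_apply_of_ne_of_ne (hna i hi0 hi)
          (fun h3 => hmin i h2 ⟨hi0, h3⟩)]
      · have : i = m := by omega
        subst this
        refine ⟨1, by omega, by omega, ?_⟩
        rw [hm.2, hc, pow_one]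
  obtain ⟨i, hi0, hi, h1⟩ := horb k
  rw [hk] at h1
  exact hna i hi0 hi h1.symm

theorem Transv_swap_swap (π : Perm ℕ) (a b : ℕ) : π * swap a b * swap a b = π := by
  rw [mul_assoc, swap_mul_self, mul_one]

theorem Transv_merge_iff {n : ℕ} {π : Perm ℕ} (hπ : Transv_Fx n π) {a b : ℕ}
    (hab : ¬ π.SameCycle a b) (x y : ℕ) : (π * swap a b).SameCycle x y ↔
      π.SameCycle x y ∨ ((π.SameCycle a x ∨ π.SameCycle b x) ∧
        (π.SameCycle a y ∨ π.SameCycle b y)) := by
  have hm := Transv_merge hπ hab
  have hc : ∀ {u v : ℕ}, π.SameCycle u v → (π * swap a b).SameCycle u v := by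
    intro u v h
    have h1 : (π * swap a b * swap a b).SameCycle u v := by rwa [Transv_swap_swap]
    exact Transv_coarse hm h1
  constructor
  · intro h
    let C : Set ℕ := {x | π.SameCycle a x ∨ π.SameCycle b x}
    classical
    let χ : ℕ → Set ℕ := fun x => if x ∈ C then C else {y | π.SameCycle x y}
    have hCπ : ∀ u, π u ∈ C ↔ u ∈ C := fun u => by
      show (π.SameCycle a (π u) ∨ π.SameCycle b (π u)) ↔ (π.SameCycle a u ∨ π.SameCycle b u)
      rw [Perm.sameCycle_apply_right, Perm.sameCycle_apply_right]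
    have h1 : ∀ u, χ (π u) = χ u := fun u => by
      by_cases hu : u ∈ C
      · simp only [χ, if_pos hu, if_pos ((hCπ u).2 hu)]
      · simp only [χ, if_neg hu, if_neg (fun h => hu ((hCπ u).1 h))]
        ext z
        exact Perm.sameCycle_apply_left
    have ha : a ∈ C := Or.inl (Perm.SameCycle.refl _ _)
    have hb : b ∈ C := Or.inr (Perm.SameCycle.refl _ _)
    have h2 : χ x = χ y := by
      refine Transv_color (π := π * swap a b) χ (fun u => ?_) h
      rw [Perm.mul_apply, h1]
      by_cases hua : u = a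
      · subst hua; rw [swap_apply_left]
        simp only [χ, if_pos ha, if_pos hb]
      · by_cases hub : u = b
        · subst hub; rw [swap_apply_right]
          simp only [χ, if_pos ha, if_pos hb]
        · rw [swap_apply_of_ne_of_ne hua hub]
    by_cases hx : x ∈ C
    · by_cases hy : y ∈ C
      · exact Or.inr ⟨hx, hy⟩
      · simp only [χ, if_pos hx, if_neg hy] at h2
        have : y ∈ {z | π.SameCycle y z} := Perm.SameCycle.refl _ _
        rw [← h2] at this
        exact absurd this hy
    · by_cases hy : y ∈ C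
      · simp only [χ, if_neg hx, if_pos hy] at h2
        have : x ∈ {z | π.SameCycle x z} := Perm.SameCycle.refl _ _
        rw [h2] at this
        exact absurd this hx
      · simp only [χ, if_neg hx, if_neg hy] at h2
        have : y ∈ {z | π.SameCycle y z} := Perm.SameCycle.refl _ _
        rw [← h2] at this
        exact Or.inl this
  · rintro (h | ⟨h1, h2⟩)
    · exact hc h
    · have key : ∀ z, (π.SameCycle a z ∨ π.SameCycle b z) → (π * swap a b).SameCycle a z := by
        rintro z (hz | hz)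
        · exact hc hz
        · exact hm.trans (hc hz)
      exact (key x h1).symm.trans (key y h2)

theorem Transv_exists {n : ℕ} {w : BW} (hw : Valid n w) :
    Transv n w ((comps n w).sort (· ≤ ·)) := by
  classical
  have hfx := Transv_fx hw
  refine ⟨Finset.sort_nodup _ _, ?_, ?_, ?_⟩
  · intro j hj
    rw [Finset.mem_sort] at hj
    unfold comps at hj
    exact Finset.mem_range.1 (Finset.mem_filter.1 hj).1
  · intro i hi
    have hex : ∃ j, (prm w).SameCycle i j := ⟨i, Perm.SameCycle.refl _ _⟩
    have h1 := Nat.find_spec hex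
    have h2 := fun l (hl : (prm w).SameCycle i l) => Nat.find_min' hex hl
    refine ⟨Nat.find hex, ?_, h1⟩
    rw [Finset.mem_sort]
    unfold comps
    rw [Finset.mem_filter, Finset.mem_range]
    refine ⟨lt_of_le_of_lt (h2 i (Perm.SameCycle.refl _ _)) hi, fun k => ?_⟩
    exact h2 _ (Perm.sameCycle_pow_right.2 h1)
  · intro j hj j' hj' h
    rw [Finset.mem_sort] at hj hj'
    unfold comps at hj hj'
    have h1 := (Finset.mem_filter.1 hj).2
    have h2 := (Finset.mem_filter.1 hj').2
    obtain ⟨k, hk⟩ := Transv_natpow hfx h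
    obtain ⟨k', hk'⟩ := Transv_natpow hfx h.symm
    have h3 := h1 k
    have h4 := h2 k'
    rw [hk] at h3
    rw [hk'] at h4
    omega

theorem Transv_compare {n : ℕ} {w : BW} {js js' : List ℕ} (h : Transv n w js)
    (h' : Transv n w js') :
    ∃ js'' : List ℕ, js''.Perm js' ∧ List.Forall₂ (prm w).SameCycle js js'' := by
  classical
  have h1 : ∀ j : ℕ, ∃ j', j ∈ js → j' ∈ js' ∧ (prm w).SameCycle j j' := by
    intro j
    by_cases hj : j ∈ js
    · obtain ⟨j', h2, h3⟩ := h'.2.2.1 j (h.2.1 j hj)
      exact ⟨j', fun _ => ⟨h2, h3⟩⟩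
    · exact ⟨0, fun h2 => absurd h2 hj⟩
  choose f hf using h1
  refine ⟨js.map f, ?_, ?_⟩
  · have hnd : (js.map f).Nodup := by
      refine List.Nodup.map_on ?_ h.1
      intro a ha b hb hab
      refine h.2.2.2 a ha b hb ?_
      have h2 := (hf a ha).2
      rw [hab] at h2
      exact h2.trans (hf b hb).2.symm
    refine (List.perm_ext_iff_of_nodup hnd h'.1).2 fun x => ?_
    rw [List.mem_map]
    constructor
    · rintro ⟨a, ha, rfl⟩
      exact (hf a ha).1
    · intro hx
      obtain ⟨a, ha, h3⟩ := h.2.2.1 x (h'.2.1 x hx)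
      refine ⟨a, ha, ?_⟩
      exact h'.2.2.2 _ (hf a ha).1 _ hx (h3.trans (hf a ha).2).symm
  · rw [List.forall₂_map_right_iff, List.forall₂_same]
    intro a ha
    exact (hf a ha).2

theorem Transv_length {n : ℕ} {w : BW} {js : List ℕ} (hw : Valid n w) (h : Transv n w js) :
    js.length = (comps n w).card := by
  obtain ⟨js'', h1, h2⟩ := Transv_compare h (Transv_exists hw)
  rw [h2.length_eq, h1.length_eq, Finset.length_sort]

theorem Transv_exists_two {n i : ℕ} {π : Perm ℕ} {L : List ℕ} (hL : Transv_TV n π L)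
    (hi : i + 1 < n) (hs : ¬ π.SameCycle i (i + 1)) : ∃ js, Transv_TV n π (i :: (i + 1) :: js) := by
  classical
  refine ⟨L.filter (fun j => decide (¬ π.SameCycle i j ∧ ¬ π.SameCycle (i + 1) j)), ?_, ?_, ?_, ?_⟩
  · rw [List.nodup_cons, List.nodup_cons]
    refine ⟨?_, ?_, hL.1.filter _⟩
    · intro h
      rcases List.mem_cons.1 h with h | h
      · omega
      · have := of_decide_eq_true (List.mem_filter.1 h).2
        exact this.1 (Perm.SameCycle.refl _ _)
    · intro h
      have := of_decide_eq_true (List.mem_filter.1 h).2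
      exact this.2 (Perm.SameCycle.refl _ _)
  · intro j hj
    rcases List.mem_cons.1 hj with rfl | hj
    · omega
    · rcases List.mem_cons.1 hj with rfl | hj
      · exact hi
      · exact hL.2.1 j (List.mem_filter.1 hj).1
  · intro x hx
    obtain ⟨j, hj, h1⟩ := hL.2.2.1 x hx
    by_cases h2 : π.SameCycle i j
    · exact ⟨i, List.mem_cons_self, h1.trans h2.symm⟩
    · by_cases h3 : π.SameCycle (i + 1) j
      · exact ⟨i + 1, List.mem_cons_of_mem _ List.mem_cons_self, h1.trans h3.symm⟩
      · exact ⟨j, List.mem_cons_of_mem _ (List.mem_cons_of_mem _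
          (List.mem_filter.2 ⟨hj, decide_eq_true ⟨h2, h3⟩⟩)), h1⟩
  · intro j hj j' hj' h
    rcases List.mem_cons.1 hj with rfl | hj
    · rcases List.mem_cons.1 hj' with rfl | hj'
      · rfl
      · rcases List.mem_cons.1 hj' with rfl | hj'
        · exact absurd h hs
        · exact absurd h (of_decide_eq_true (List.mem_filter.1 hj').2).1
    · rcases List.mem_cons.1 hj with rfl | hj
      · rcases List.mem_cons.1 hj' with rfl | hj'
        · exact absurd h.symm hs
        · rcases List.mem_cons.1 hj' with rfl | hj'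
          · rfl
          · exact absurd h (of_decide_eq_true (List.mem_filter.1 hj').2).2
      · rcases List.mem_cons.1 hj' with rfl | hj'
        · exact absurd h.symm (of_decide_eq_true (List.mem_filter.1 hj).2).1
        · rcases List.mem_cons.1 hj' with rfl | hj'
          · exact absurd h.symm (of_decide_eq_true (List.mem_filter.1 hj).2).2
          · exact hL.2.2.2 j (List.mem_filter.1 hj).1 j' (List.mem_filter.1 hj').1 h

theorem Transv_merged {n i : ℕ} {π : Perm ℕ} {js : List ℕ} (hπ : Transv_Fx n π)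
    (h : Transv_TV n π (i :: (i + 1) :: js)) : Transv_TV n (π * swap i (i + 1)) (i :: js) := by
  obtain ⟨h1, h2, h3, h4⟩ := h
  have hs : ¬ π.SameCycle i (i + 1) := fun h5 => by
    have := h4 i List.mem_cons_self (i + 1) (List.mem_cons_of_mem _ List.mem_cons_self) h5
    omega
  have hiff := Transv_merge_iff hπ hs
  have hsub : ∀ j, j ∈ i :: js → j ∈ i :: (i + 1) :: js := by
    intro j hj
    rcases List.mem_cons.1 hj with rfl | hj
    · exact List.mem_cons_self
    · exact List.mem_cons_of_mem _ (List.mem_cons_of_mem _ hj)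
  rw [List.nodup_cons, List.nodup_cons] at h1
  have hni : i ∉ js := fun h5 => h1.1 (List.mem_cons_of_mem _ h5)
  have hjC : ∀ j ∈ js, ¬ (π.SameCycle i j ∨ π.SameCycle (i + 1) j) := by
    rintro j hj (h5 | h5)
    · have := h4 i List.mem_cons_self j (List.mem_cons_of_mem _ (List.mem_cons_of_mem _ hj)) h5
      exact hni (this ▸ hj)
    · have := h4 (i + 1) (List.mem_cons_of_mem _ List.mem_cons_self) j
        (List.mem_cons_of_mem _ (List.mem_cons_of_mem _ hj)) h5
      exact h1.2.1 (this ▸ hj)
  refine ⟨List.nodup_cons.2 ⟨hni, h1.2.2⟩, fun j hj => h2 j (hsub j hj), ?_, ?_⟩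
  · intro x hx
    obtain ⟨j, hj, h5⟩ := h3 x hx
    rcases List.mem_cons.1 hj with rfl | hj
    · exact ⟨j, List.mem_cons_self, (hiff _ _).2 (Or.inl h5)⟩
    · rcases List.mem_cons.1 hj with rfl | hj
      · exact ⟨i, List.mem_cons_self, (hiff _ _).2 (Or.inr ⟨Or.inr h5.symm,
          Or.inl (Perm.SameCycle.refl _ _)⟩)⟩
      · exact ⟨j, List.mem_cons_of_mem _ hj, (hiff _ _).2 (Or.inl h5)⟩
  · intro j hj j' hj' h5
    rcases (hiff _ _).1 h5 with h6 | ⟨h6, h7⟩
    · exact h4 j (hsub j hj) j' (hsub j' hj') h6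
    · rcases List.mem_cons.1 hj with rfl | hj
      · rcases List.mem_cons.1 hj' with rfl | hj'
        · rfl
        · exact absurd h7 (hjC j' hj')
      · exact absurd h6 (hjC j hj)

theorem Transv_succ {n : ℕ} {π : Perm ℕ} {js : List ℕ} (hπ : Transv_Fx n π)
    (h : Transv_TV n π js) : Transv_TV (n + 1) π (n :: js) := by
  obtain ⟨h1, h2, h3, h4⟩ := h
  have hn : π n = n := hπ n le_rfl
  refine ⟨List.nodup_cons.2 ⟨fun h5 => by have := h2 n h5; omega, h1⟩, ?_, ?_, ?_⟩
  · intro j hj
    rcases List.mem_cons.1 hj with rfl | hj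
    · omega
    · have := h2 j hj; omega
  · intro x hx
    by_cases hxn : x = n
    · subst hxn; exact ⟨x, List.mem_cons_self, Perm.SameCycle.refl _ _⟩
    · obtain ⟨j, hj, h5⟩ := h3 x (by omega)
      exact ⟨j, List.mem_cons_of_mem _ hj, h5⟩
  · intro j hj j' hj' h5
    rcases List.mem_cons.1 hj with rfl | hj
    · exact h5.eq_of_left hn
    · rcases List.mem_cons.1 hj' with rfl | hj'
      · exact h5.eq_of_right hn
      · exact h4 j hj j' hj' h5

theorem Transv_perm {n : ℕ} {π : Perm ℕ} {js js' : List ℕ} (h : Transv_TV n π js)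
    (hp : js.Perm js') : Transv_TV n π js' := by
  obtain ⟨h1, h2, h3, h4⟩ := h
  refine ⟨hp.nodup_iff.1 h1, fun j hj => h2 j (hp.mem_iff.2 hj), ?_, ?_⟩
  · intro x hx
    obtain ⟨j, hj, h5⟩ := h3 x hx
    exact ⟨j, hp.mem_iff.1 hj, h5⟩
  · intro j hj j' hj' h5
    exact h4 j (hp.mem_iff.2 hj) j' (hp.mem_iff.2 hj') h5

theorem Transv_with {n m : ℕ} {π : Perm ℕ} {L : List ℕ} (hL : Transv_TV n π L) (hm : m < n) :
    ∃ js, Transv_TV n π (m :: js) := by
  classical
  refine ⟨L.filter (fun j => decide (¬ π.SameCycle m j)), ?_, ?_, ?_, ?_⟩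
  · rw [List.nodup_cons]
    refine ⟨?_, hL.1.filter _⟩
    intro h
    exact (of_decide_eq_true (List.mem_filter.1 h).2) (Perm.SameCycle.refl _ _)
  · intro j hj
    rcases List.mem_cons.1 hj with rfl | hj
    · exact hm
    · exact hL.2.1 j (List.mem_filter.1 hj).1
  · intro x hx
    obtain ⟨j, hj, h1⟩ := hL.2.2.1 x hx
    by_cases h2 : π.SameCycle m j
    · exact ⟨m, List.mem_cons_self, h1.trans h2.symm⟩
    · exact ⟨j, List.mem_cons_of_mem _ (List.mem_filter.2 ⟨hj, decide_eq_true h2⟩), h1⟩
  · intro j hj j' hj' h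
    rcases List.mem_cons.1 hj with rfl | hj
    · rcases List.mem_cons.1 hj' with rfl | hj'
      · rfl
      · exact absurd h (of_decide_eq_true (List.mem_filter.1 hj').2)
    · rcases List.mem_cons.1 hj' with rfl | hj'
      · exact absurd h.symm (of_decide_eq_true (List.mem_filter.1 hj).2)
      · exact hL.2.2.2 j (List.mem_filter.1 hj).1 j' (List.mem_filter.1 hj').1 h

theorem t_transv : S_transv := by
  refine ⟨fun n w hw => Transv_exists hw, fun n w js hw h => Transv_length hw h,
    fun n w js js' _ h h' => Transv_compare h h', ?_, ?_, ?_, ?_, ?_, ?_, ?_⟩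
  · intro n w i e hw hi hs
    have hfx := Transv_fx hw
    obtain ⟨js, hjs⟩ := Transv_exists_two (Transv_exists hw) hi hs
    refine ⟨js, hjs, ?_⟩
    have := Transv_merged hfx hjs
    rw [← Transv_prm_snoc w i e] at this
    exact this
  · intro n w i e hw hi hs
    have hfx := Transv_fx hw
    have hfx' : Transv_Fx n (prm w * swap i (i + 1)) := Transv_fx_mul hfx (Transv_fx_swap hi)
    have hs' := Transv_split hfx (by omega) hfx' hs
    have hw' : Valid n (w ++ [(i, e)]) := by
      intro l hl
      rcases List.mem_append.1 hl with hl | hl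
      · exact hw l hl
      · rw [List.mem_singleton] at hl
        subst hl
        exact hi
    have hL : Transv_TV n (prm w * swap i (i + 1)) ((comps n (w ++ [(i, e)])).sort (· ≤ ·)) := by
      rw [← Transv_prm_snoc w i e]
      exact Transv_exists hw'
    obtain ⟨js, hjs⟩ := Transv_exists_two hL hi hs'
    refine ⟨js, ?_, ?_⟩
    · have := Transv_merged hfx' hjs
      rw [Transv_swap_swap] at this
      exact this
    · rw [← Transv_prm_snoc w i e] at hjs
      exact hjs
  · intro n w e hw
    have hfx := Transv_fx hw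
    obtain ⟨js, hjs⟩ := Transv_with (Transv_exists hw) (Nat.lt_succ_self n)
    refine ⟨js, hjs, ?_⟩
    have h1 := Transv_perm (Transv_succ hfx hjs) (List.Perm.swap _ _ _)
    have hfx2 : Transv_Fx (n + 2) (prm w) := fun j hj => hfx j (by omega)
    have := Transv_merged hfx2 h1
    rw [← Transv_prm_snoc w n e] at this
    exact this
  · intro n w js hw h
    exact Transv_succ (Transv_fx hw) h
  · intro n x y js hv h
    have hy : Transv_Fx n (prm y) := Transv_fx fun l hl => hv l (List.mem_append_right _ hl)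
    have hconj : prm (y ++ x) = prm y * prm (x ++ y) * (prm y)⁻¹ := by
      rw [Transv_prm_append, Transv_prm_append]
      group
    obtain ⟨h1, h2, h3, h4⟩ := h
    have hiff : ∀ a b, (prm (y ++ x)).SameCycle (prm y a) (prm y b) ↔
        (prm (x ++ y)).SameCycle a b := by
      intro a b
      rw [hconj, Perm.sameCycle_conj, show (prm y)⁻¹ (prm y a) = a from (prm y).symm_apply_apply a,
        show (prm y)⁻¹ (prm y b) = b from (prm y).symm_apply_apply b]
    refine ⟨h1.map (prm y).injective, ?_, ?_, ?_⟩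
    · intro j hj
      obtain ⟨a, ha, rfl⟩ := List.mem_map.1 hj
      exact Transv_lt hy (h2 a ha)
    · intro u hu
      have hyi : Transv_Fx n (prm y)⁻¹ := fun j hj => by
        rw [Perm.inv_eq_iff_eq]; exact (hy j hj).symm
      obtain ⟨j, hj, h5⟩ := h3 _ (Transv_lt hyi hu)
      refine ⟨prm y j, List.mem_map_of_mem hj, ?_⟩
      have := (hiff _ _).2 h5
      rwa [show prm y ((prm y)⁻¹ u) = u from (prm y).apply_symm_apply u] at this
    · intro j hj j' hj' h5
      obtain ⟨a, ha, rfl⟩ := List.mem_map.1 hj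
      obtain ⟨b, hb, rfl⟩ := List.mem_map.1 hj'
      rw [h4 a ha b hb ((hiff _ _).1 h5)]
  · intro w hw
    cases w with
    | nil => rfl
    | cons l w => exact absurd (hw l List.mem_cons_self) (Nat.not_lt_zero _)
  · refine ⟨List.nodup_nil, fun j hj => absurd hj List.not_mem_nil,
      fun i hi => absurd hi (Nat.not_lt_zero _), fun j hj => absurd hj List.not_mem_nil⟩

theorem t_comps (h : S_transv) : S_comps := by
  classical
  obtain ⟨h1, h2, _, h4, h5, h6, h7, h8, _, _⟩ := h
  have hrot : ∀ n x y, Valid n (x ++ y) → (comps n (x ++ y)).card = (comps n (y ++ x)).card := by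
    intro n x y hv
    have hv' : Valid n (y ++ x) := fun l hl => hv l (by
      rcases List.mem_append.1 hl with h | h
      · exact List.mem_append_right _ h
      · exact List.mem_append_left _ h)
    have h9 := h8 n x y _ hv (h1 n _ hv)
    rw [← h2 n _ _ hv' h9, List.length_map, Finset.length_sort]
  have hins : ∀ n x y i e, Valid n (x ++ y) → i + 1 < n →
      Valid n (x ++ (i, e) :: y) ∧ Valid n (y ++ x) ∧ Valid n ((y ++ x) ++ [(i, e)]) ∧
      (comps n (x ++ (i, e) :: y)).card = (comps n ((y ++ x) ++ [(i, e)])).card := by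
    intro n x y i e hv hi
    have e1 : x ++ (i, e) :: y = (x ++ [(i, e)]) ++ y := by simp
    have e2 : (y ++ x) ++ [(i, e)] = y ++ (x ++ [(i, e)]) := by simp
    have hv1 : Valid n (x ++ (i, e) :: y) := by
      intro l hl
      rcases List.mem_append.1 hl with h | h
      · exact hv l (List.mem_append_left _ h)
      · rcases List.mem_cons.1 h with rfl | h
        · exact hi
        · exact hv l (List.mem_append_right _ h)
    have hv2 : Valid n (y ++ x) := fun l hl => hv l (by
      rcases List.mem_append.1 hl with h | h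
      · exact List.mem_append_right _ h
      · exact List.mem_append_left _ h)
    have hv3 : Valid n ((y ++ x) ++ [(i, e)]) := by
      intro l hl
      rcases List.mem_append.1 hl with h | h
      · exact hv2 l h
      · rw [List.mem_singleton] at h; subst h; exact hi
    refine ⟨hv1, hv2, hv3, ?_⟩
    rw [e1, e2]
    apply hrot
    rw [← e1]
    exact hv1
  refine ⟨?_, ?_, ?_, hrot, ?_, ?_, ?_⟩
  · unfold comps
    rw [Finset.range_zero, Finset.filter_empty, Finset.card_empty]
  · intro n w hw
    have hw' : Valid (n + 1) w := fun l hl => by have := hw l hl; omega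
    rw [← h2 (n + 1) w _ hw' (h7 n w _ hw (h1 n w hw)), List.length_cons, Finset.length_sort]
  · intro n w w' hww
    unfold comps
    rw [hww]
  · intro n x y i e hv hi hs
    obtain ⟨hv1, hv2, hv3, hc⟩ := hins n x y i e hv hi
    obtain ⟨js, hj1, hj2⟩ := h4 n (y ++ x) i e hv2 hi hs
    rw [hrot n x y hv, hc, ← h2 n _ _ hv2 hj1, ← h2 n _ _ hv3 hj2]
    rfl
  · intro n x y i e hv hi hs
    obtain ⟨hv1, hv2, hv3, hc⟩ := hins n x y i e hv hi
    obtain ⟨js, hj1, hj2⟩ := h5 n (y ++ x) i e hv2 hi hs
    rw [hrot n x y hv, hc, ← h2 n _ _ hv2 hj1, ← h2 n _ _ hv3 hj2]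
    rfl
  · intro n w e hw
    obtain ⟨js, hj1, hj2⟩ := h6 n w e hw
    have hw' : Valid (n + 2) (w ++ [(n, e)]) := by
      intro l hl
      rcases List.mem_append.1 hl with h | h
      · have := hw l h; omega
      · rw [List.mem_singleton] at h; subst h
        show n + 1 < n + 2
        omega
    rw [← h2 _ _ _ hw' hj2, ← h2 _ _ _ hw hj1]

end Pool.Agent.H873
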