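import Pool.Agent.Helper873_Hecke.Stmts

set_option autoImplicit false

namespace Pool.Agent.H873

open Equiv Hk

theorem Twist_upw_map (a n k : ℕ) (e : Bool) :
    (upw a n e).map (fun l => (l.1 + k, l.2)) = upw (a + k) n e := by
  unfold upw
  rw [List.map_map]
  apply List.map_congr_left
  intro i _
  simp only [Function.comp_apply, Prod.mk.injEq, and_true]
  omega

theorem Twist_dnw_map (a n k : ℕ) (e : Bool) :
    (dnw a n e).map (fun l => (l.1 + k, l.2)) = dnw (a + k) n e := by
  unfold dnw
  rw [List.map_reverse, Twist_upw_map]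

theorem Twist_dw_map (e : Bool) (r : ℕ) : ∀ a k : ℕ,
    (dw e a r).map (fun l => (l.1 + k, l.2)) = dw e (a + k) r := by
  induction r with
  | zero => intro a k; rfl
  | succ r ih =>
    intro a k
    unfold dw
    rw [List.map_append, List.map_append, Twist_upw_map, Twist_dnw_map, ih,
      show a + 1 + k = a + k + 1 by omega]

theorem Twist_upw_mem {a n : ℕ} {e : Bool} {l : ℕ × Bool} (h : l ∈ upw a n e) :
    a ≤ l.1 ∧ l.1 < a + n := by
  unfold upw at h
  obtain ⟨i, hi, rfl⟩ := List.mem_map.1 h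
  rw [List.mem_range] at hi
  exact ⟨Nat.le_add_right _ _, Nat.add_lt_add_left hi _⟩

theorem Twist_dnw_mem {a n : ℕ} {e : Bool} {l : ℕ × Bool} (h : l ∈ dnw a n e) :
    a ≤ l.1 ∧ l.1 < a + n := by
  unfold dnw at h
  exact Twist_upw_mem (List.mem_reverse.1 h)

theorem Twist_dw_mem (e : Bool) (r : ℕ) : ∀ (a : ℕ) (l : ℕ × Bool), l ∈ dw e a r →
    a ≤ l.1 ∧ l.1 + 1 < a + r := by
  induction r with
  | zero => intro a l h; simp [dw] at h
  | succ r ih =>
    intro a l h
    unfold dw at h
    rw [List.mem_append, List.mem_append] at h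
    rcases h with (h | h) | h
    · have := Twist_dnw_mem h; omega
    · have := ih _ _ h; omega
    · have := Twist_upw_mem h; omega

theorem Twist_dw_valid (e : Bool) (r : ℕ) : Valid r (dw e 0 r) := by
  intro l hl
  have := Twist_dw_mem e r 0 l hl
  omega

theorem Twist_upw_flip (a n : ℕ) (e : Bool) :
    ((upw a n e).map (fun l => (l.1, !l.2))).reverse = dnw a n (!e) := by
  unfold dnw upw
  rw [List.map_map]
  rfl

theorem Twist_dnw_flip (a n : ℕ) (e : Bool) :
    ((dnw a n e).map (fun l => (l.1, !l.2))).reverse = upw a n (!e) := by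
  unfold dnw upw
  rw [List.map_reverse, List.reverse_reverse, List.map_map]
  rfl

theorem Twist_dw_flip (e : Bool) (r : ℕ) : ∀ a : ℕ,
    ((dw e a r).map (fun l => (l.1, !l.2))).reverse = dw (!e) a r := by
  induction r with
  | zero => intro a; rfl
  | succ r ih =>
    intro a
    unfold dw
    rw [List.map_append, List.map_append, List.reverse_append, List.reverse_append,
      Twist_upw_flip, Twist_dnw_flip, ih, List.append_assoc]

section

variable {R : Type*} [CommRing R] {z : R}

theorem Twist_wd_flip (w : BW) :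
    (wd w * wd ((w.map (fun l => (l.1, !l.2))).reverse) : Hk R z) = 1 := by
  induction w with
  | nil => simp [wd_nil]
  | cons l w ih =>
    rw [List.map_cons, List.reverse_cons, wd_append, wd_cons, wd_cons, wd_nil, mul_one]
    have h : (gen l.2 l.1 * wd w * (wd ((w.map (fun l => (l.1, !l.2))).reverse) * gen (!l.2) l.1) :
        Hk R z) = gen l.2 l.1 * (wd w * wd ((w.map (fun l => (l.1, !l.2))).reverse)) *
          gen (!l.2) l.1 := by
      simp only [mul_assoc]
    rw [h, ih, mul_one, gen_mul_gen_not]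

theorem Twist_inv (e : Bool) (k r : ℕ) : (wd (dw e k r) * wd (dw (!e) k r) : Hk R z) = 1 := by
  rw [← Twist_dw_flip e r k]
  exact Twist_wd_flip _

theorem Twist_shift (e : Bool) (k r : ℕ) : (wd (dw e k r) : Hk R z) = sh k (wd (dw e 0 r)) := by
  rw [sh_wd, Twist_dw_map, Nat.zero_add]

theorem Twist_mem (e : Bool) (r : ℕ) : (wd (dw e 0 r) : Hk R z) ∈ (Hs r : Subalgebra R (Hk R z)) :=
  wd_mem_Hs (Twist_dw_valid e r)

theorem Twist_J0 : (J 0 : Hk R z) = 1 := by
  unfold J L
  rw [smul_zero, add_zero]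

theorem Twist_upw_succ (a n : ℕ) (e : Bool) : upw a (n + 1) e = upw a n e ++ [(a + n, e)] := by
  unfold upw
  rw [List.range_succ, List.map_append]
  rfl

theorem Twist_dnw_succ (a n : ℕ) (e : Bool) : dnw a (n + 1) e = (a + n, e) :: dnw a n e := by
  unfold dnw
  rw [Twist_upw_succ, List.reverse_append]
  rfl

theorem Twist_YU (hJ : ∀ i, (J (i + 1) : Hk R z) = sg i * J i * sg i) (r : ℕ) :
    (wd (dnw 0 r true) * wd (upw 0 r true) : Hk R z) = J r := by
  induction r with
  | zero =>
    rw [Twist_J0]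
    exact mul_one _
  | succ r ih =>
    rw [Twist_upw_succ, Twist_dnw_succ, wd_append, wd_cons, wd_cons, wd_nil, mul_one, hJ, ← ih,
      Nat.zero_add, gen_true]
    simp only [mul_assoc]

theorem Twist_xw_one (e : Bool) (r : ℕ) : xw e 0 1 r = dnw 0 r e := by
  unfold xw
  simp [List.range_succ]

theorem Twist_rec (hJ : ∀ i, (J (i + 1) : Hk R z) = sg i * J i * sg i) (r : ℕ)
    (hb : ∀ b ∈ (Hs r : Subalgebra R (Hk R z)),
      wd (xw true 0 1 r) * sh (0 + 1) b = sh 0 b * wd (xw true 0 1 r)) :
    (wd (dw true 0 (r + 1)) : Hk R z) = wd (dw true 0 r) * J r := by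
  have h1 : dw true 0 (r + 1) = dnw 0 r true ++ dw true (0 + 1) r ++ upw 0 r true := rfl
  have h2 := hb (wd (dw true 0 r)) (Twist_mem true r)
  rw [Twist_xw_one, sh_zero] at h2
  rw [h1, wd_append, wd_append, Twist_shift true (0 + 1) r, h2, mul_assoc, Twist_YU hJ]

/-- `sg i` commutes with `J i * J (i + 1)` -/
theorem Twist_JJ (i : ℕ) (h5 : (sg i * (L i * L (i + 1)) : Hk R z) = L i * L (i + 1) * sg i)
    (h6 : (sg i * (L i + L (i + 1)) : Hk R z) = (L i + L (i + 1)) * sg i) :
    (sg i * (J i * J (i + 1)) : Hk R z) = J i * J (i + 1) * sg i := by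
  have h : (J i * J (i + 1) : Hk R z) = 1 + z • (L i + L (i + 1)) + (z * z) • (L i * L (i + 1)) := by
    unfold J
    rw [add_mul, mul_add, mul_add, one_mul, one_mul, mul_one, smul_mul_smul_comm, smul_add]
    abel
  rw [h, mul_add, mul_add, add_mul, add_mul, mul_one, one_mul, mul_smul_comm, mul_smul_comm, h5, h6,
    smul_mul_assoc, smul_mul_assoc]

theorem Twist_comm (hJM : S_JM) (hB : S_bunch) {R : Type} [CommRing R] {z : R} (r : ℕ) :
    ∀ i, i + 1 < r → (sg i * wd (dw true 0 r) : Hk R z) = wd (dw true 0 r) * sg i := by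
  obtain ⟨h1, h2, h3, h4, h5, h6⟩ := hJM R z
  have hrec : ∀ r, (wd (dw true 0 (r + 1)) : Hk R z) = wd (dw true 0 r) * J r := by
    intro r
    exact Twist_rec h4 r (hB R z true 0 1 r).2.1
  induction r with
  | zero => intro i hi; omega
  | succ r ih =>
    intro i hi
    by_cases hir : i + 1 < r
    · have hc : (sg i * J r : Hk R z) = J r * sg i := by
        unfold J
        rw [mul_add, add_mul, mul_one, one_mul, mul_smul_comm, smul_mul_assoc,
          h1 i r (by omega) (by omega)]
      rw [hrec, ← mul_assoc, ih i hir, mul_assoc, hc, mul_assoc]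
    · obtain rfl : r = i + 1 := by omega
      have hc : (wd (dw true 0 i) * sg i : Hk R z) = sg i * wd (dw true 0 i) := by
        have := commute_sh (Twist_mem (R := R) (z := z) true i) (sg 0)
        rwa [sh_sg, Nat.zero_add] at this
      rw [hrec, hrec, mul_assoc, ← mul_assoc, ← hc, mul_assoc, Twist_JJ i (h5 i) (h6 i)]
      simp only [mul_assoc]

theorem Twist_central (hJM : S_JM) (hB : S_bunch) {R : Type} [CommRing R] {z : R} (e : Bool) (r : ℕ)
    (a : Hk R z) (ha : a ∈ (Hs r : Subalgebra R (Hk R z))) :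
    (wd (dw e 0 r) * a : Hk R z) = a * wd (dw e 0 r) := by
  have ht : ∀ a ∈ (Hs r : Subalgebra R (Hk R z)),
      (wd (dw true 0 r) * a : Hk R z) = a * wd (dw true 0 r) := by
    intro a ha
    refine Hs_induction (P := fun a => (wd (dw true 0 r) * a : Hk R z) = a * wd (dw true 0 r))
      ?_ ?_ ?_ ?_ ha
    · rw [mul_one, one_mul]
    · intro x _ y _ hx hy; rw [mul_add, add_mul, hx, hy]
    · intro c x _ hx; rw [mul_smul_comm, smul_mul_assoc, hx]
    · intro i hi x _ hx
      rw [← mul_assoc, ← Twist_comm hJM hB r i hi, mul_assoc, hx, mul_assoc]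
  cases e
  · have e1 : (wd (dw true 0 r) * wd (dw false 0 r) : Hk R z) = 1 := Twist_inv true 0 r
    have e2 : (wd (dw false 0 r) * wd (dw true 0 r) : Hk R z) = 1 := Twist_inv false 0 r
    calc (wd (dw false 0 r) * a : Hk R z)
        = wd (dw false 0 r) * a * (wd (dw true 0 r) * wd (dw false 0 r)) := by rw [e1, mul_one]
      _ = wd (dw false 0 r) * (a * wd (dw true 0 r)) * wd (dw false 0 r) := by
          simp only [mul_assoc]
      _ = wd (dw false 0 r) * (wd (dw true 0 r) * a) * wd (dw false 0 r) := by rw [ht a ha]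
      _ = (wd (dw false 0 r) * wd (dw true 0 r)) * a * wd (dw false 0 r) := by
          simp only [mul_assoc]
      _ = a * wd (dw false 0 r) := by rw [e2, one_mul]
  · exact ht a ha

end

theorem t_twist (h1 : S_JM) (h2 : S_bunch) : S_twist := by
  intro R _ z e k r
  obtain ⟨-, -, -, h4, -, -⟩ := h1 R z
  refine ⟨?_, Twist_inv e k r, Twist_shift e k r, ?_, Twist_mem e r⟩
  · intro a ha
    rw [Twist_shift e k r, ← map_mul, ← map_mul, Twist_central h1 h2 e r a ha]
  · induction r with
    | zero => rfl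
    | succ r ih =>
      cases r with
      | zero => rfl
      | succ r =>
        rw [Twist_rec h4 (r + 1) (h2 R z true 0 1 (r + 1)).2.1, ih]
        have : (th 1 z (r + 2) : Hk R z) = th 1 z (r + 1) * ((1 : R) • 1 + z • L (r + 1)) := rfl
        rw [this, one_smul]
        rfl

end Pool.Agent.H873
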