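import Pool.Agent.Helper873_Hecke.Stmts

set_option autoImplicit false

namespace Pool.Agent.H873

open Equiv Hk

open Pointwise Classical in
/-- the order of the stabiliser is prime to `p` -/
theorem VUnit_card {p r : ℕ} (hp : p.Prime) (h0 : 0 < r) (hr : r < p) :
    ¬ p ∣ (Finset.univ.filter
      (fun g : Perm (Fin p) => ∀ i : Fin p, (i : ℕ) < r → (g i : ℕ) < r)).card := by
  intro hdvd
  let H : Subgroup (Perm (Fin p)) := MulAction.stabilizer (Perm (Fin p)) {i : Fin p | (i : ℕ) < r}
  have hmem : ∀ g : Perm (Fin p), g ∈ H ↔ ∀ i : Fin p, (i : ℕ) < r → (g i : ℕ) < r := by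
    intro g
    exact MulAction.mem_stabilizer_set' (Set.toFinite _)
  have hcard : (Finset.univ.filter
      (fun g : Perm (Fin p) => ∀ i : Fin p, (i : ℕ) < r → (g i : ℕ) < r)).card = Nat.card H := by
    rw [← Fintype.card_subtype, Nat.card_eq_fintype_card]
    exact Fintype.card_congr (Equiv.subtypeEquivRight fun g => (hmem g).symm)
  rw [hcard] at hdvd
  have := Fact.mk hp
  obtain ⟨⟨g, hg⟩, hx⟩ := exists_prime_orderOf_dvd_card' p hdvd
  have hord : orderOf g = p := (Subgroup.orderOf_mk g hg).symm.trans hx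
  have hcyc : g.IsCycle := Perm.isCycle_of_prime_order'' (by rw [Fintype.card_fin]; exact hp)
    (by rw [Fintype.card_fin]; exact hord)
  have hsupp : g.support = Finset.univ := by
    rw [← Finset.card_eq_iff_eq_univ, ← hcyc.orderOf, hord, Fintype.card_fin]
  have hne : ∀ x, g x ≠ x := by
    intro x
    rw [← Perm.mem_support, hsupp]
    exact Finset.mem_univ x
  obtain ⟨k, hk⟩ := hcyc.exists_pow_eq (hne ⟨0, by omega⟩) (hne ⟨r, hr⟩)
  have h3 : ∀ k : ℕ, (((g ^ k) ⟨0, by omega⟩ : Fin p) : ℕ) < r := by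
    intro k
    exact (hmem _).1 (H.pow_mem hg k) ⟨0, by omega⟩ h0
  have h4 := h3 k
  rw [hk] at h4
  exact lt_irrefl _ h4

section

variable {R : Type} [CommRing R] {z : R}

/-- the matrix of the left multiplication by `vE` -/
noncomputable def VUnit_M (R : Type) [CommRing R] (z : R) (p r : ℕ) :
    Matrix (Perm (Fin p)) (Perm (Fin p)) R :=
  fun a b => coef (emb p a) ((vE p r : Hk R z) * (T (emb p b) : Hk R z))

theorem VUnit_vE_mem (p r : ℕ) : (vE p r : Hk R z) ∈ (Hs p : Subalgebra R (Hk R z)) := by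
  unfold vE
  apply Subalgebra.sum_mem
  intro g _
  exact mul_mem (T_mem_Hs (emb_mem_SS p g)) (T_mem_Hs (emb_mem_SS p g⁻¹))

/-- elements of `Hs p` in the basis `T (emb p g)` -/
theorem VUnit_expand {p : ℕ} {x : Hk R z} (hx : x ∈ (Hs p : Subalgebra R (Hk R z))) :
    x = ∑ g : Perm (Fin p), coef (emb p g) x • (T (emb p g) : Hk R z) := by
  classical
  have h := dual_basis hx
  rw [← Equiv.sum_comp (Equiv.inv (Perm (Fin p)))] at h
  simp only [Equiv.inv_apply, inv_inv] at h
  conv_lhs => rw [← h]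
  refine Finset.sum_congr rfl fun g _ => ?_
  rw [coef_eq_tau, map_inv, tau_comm]

theorem VUnit_map {R' : Type} [CommRing R'] (h1 : S_bc) (φ : R →+* R') {z' : R'} (hz : φ z = z')
    (p r : ℕ) : VUnit_M R' z' p r = (VUnit_M R z p r).map φ := by
  obtain ⟨bc, hb1, -, hb3⟩ := h1 R R' φ z z' hz
  ext a b
  rw [Matrix.map_apply]
  unfold VUnit_M
  rw [← hb3, map_mul, hb1]
  congr 2
  unfold vE
  rw [map_sum]
  refine Finset.sum_congr rfl fun g _ => ?_
  rw [map_mul, hb1, hb1]

end

theorem t_v (h1 : S_bc) (h2 : S_zero) : S_v := by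
  classical
  intro R _ z p r hp hPU h0 hr
  set N : ℕ := (Finset.univ.filter
      (fun g : Perm (Fin p) => ∀ i : Fin p, (i : ℕ) < r → (g i : ℕ) < r)).card with hN
  have hNp : ¬ p ∣ N := VUnit_card hp h0 hr
  -- the matrix at zero
  have hM0 : VUnit_M ℤ 0 p r = (N : ℤ) • (1 : Matrix (Perm (Fin p)) (Perm (Fin p)) ℤ) := by
    have hv : (vE p r : Hk ℤ 0) = (N : ℤ) • (1 : Hk ℤ 0) := by
      unfold vE
      rw [Finset.sum_congr rfl (g := fun _ => (1 : Hk ℤ 0))]
      · rw [Finset.sum_const, hN]
        simp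
      · intro g _
        rw [h2, ← map_mul, mul_inv_cancel, map_one]
        rfl
    ext a b
    unfold VUnit_M
    rw [hv, smul_mul_assoc, one_mul, coef_eq_tau, smul_mul_assoc, map_smul, ← coef_eq_tau, coef_T,
      Matrix.smul_apply, Matrix.one_apply]
    by_cases hab : a = b
    · rw [if_pos (by rw [hab]), if_pos hab]
    · rw [if_neg (fun h => hab (emb_injective p h).symm), if_neg hab]
  set D : Polynomial ℤ := (VUnit_M (Polynomial ℤ) Polynomial.X p r).det with hD
  have hD0 : D.eval 0 = (N : ℤ) ^ Fintype.card (Perm (Fin p)) := by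
    have e := VUnit_map h1 (Polynomial.evalRingHom (0 : ℤ)) (z := Polynomial.X) (z' := 0)
      (by simp) p r
    have e2 : (VUnit_M ℤ 0 p r).det = D.eval 0 := by
      rw [e, hD]
      exact ((Polynomial.evalRingHom (0 : ℤ)).map_det _).symm
    rw [← e2, hM0, Matrix.det_smul, Matrix.det_one, mul_one]
  have hDp : ¬ ((p : ℤ) ∣ D.eval 0) := by
    rw [hD0]
    intro h
    have hp' : Prime (p : ℤ) := Nat.prime_iff_prime_int.1 hp
    have := hp'.dvd_of_dvd_pow h
    exact hNp (by exact_mod_cast this)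
  have hunit := hPU D hDp
  have hdet : IsUnit (VUnit_M R z p r).det := by
    have e := VUnit_map h1 (Polynomial.aeval z : Polynomial ℤ →ₐ[ℤ] R).toRingHom
      (z := Polynomial.X) (z' := z) (by simp) p r
    rw [e]
    have e2 := (Polynomial.aeval z : Polynomial ℤ →ₐ[ℤ] R).toRingHom.map_det
      (VUnit_M (Polynomial ℤ) Polynomial.X p r)
    rw [RingHom.mapMatrix_apply] at e2
    rw [← e2]
    exact hunit
  set M := VUnit_M R z p r with hM
  set B := M⁻¹ with hB
  have hMB : M * B = 1 := Matrix.mul_nonsing_inv _ hdet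
  have hBM : B * M = 1 := Matrix.nonsing_inv_mul _ hdet
  have hmulT : ∀ b : Perm (Fin p), (vE p r : Hk R z) * T (emb p b) =
      ∑ a : Perm (Fin p), M a b • (T (emb p a) : Hk R z) := fun b =>
    VUnit_expand (mul_mem (VUnit_vE_mem p r) (T_mem_Hs (emb_mem_SS p b)))
  have hmul : ∀ c : Perm (Fin p) → R, (vE p r : Hk R z) * (∑ b, c b • (T (emb p b) : Hk R z)) =
      ∑ a, (M.mulVec c) a • (T (emb p a) : Hk R z) := by
    intro c
    rw [Finset.mul_sum]
    have : ∀ b : Perm (Fin p), (vE p r : Hk R z) * (c b • (T (emb p b) : Hk R z)) =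
        ∑ a, (M a b * c b) • (T (emb p a) : Hk R z) := by
      intro b
      rw [mul_smul_comm, hmulT, Finset.smul_sum]
      refine Finset.sum_congr rfl fun a _ => ?_
      rw [smul_smul, mul_comm]
    rw [Finset.sum_congr rfl fun b _ => this b, Finset.sum_comm]
    refine Finset.sum_congr rfl fun a _ => ?_
    rw [← Finset.sum_smul]
    rfl
  have hcoef : ∀ (c : Perm (Fin p) → R) (a : Perm (Fin p)),
      coef (emb p a) (∑ b, c b • (T (emb p b) : Hk R z)) = c a := by
    intro c a
    unfold coef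
    rw [map_sum, Finsupp.finsetSum_apply, Finset.sum_eq_single a]
    · rw [map_smul, Finsupp.smul_apply]
      change c a • coef (emb p a) (T (emb p a) : Hk R z) = c a
      rw [coef_T, if_pos rfl, smul_eq_mul, mul_one]
    · intro b _ hb
      rw [map_smul, Finsupp.smul_apply]
      change c b • coef (emb p a) (T (emb p b) : Hk R z) = 0
      rw [coef_T, if_neg (fun h => hb (emb_injective p h)), smul_zero]
    · intro h
      exact absurd (Finset.mem_univ _) h
  set v' : Hk R z := ∑ b, B b 1 • (T (emb p b) : Hk R z) with hv'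
  have hv'mem : v' ∈ (Hs p : Subalgebra R (Hk R z)) := by
    apply Subalgebra.sum_mem
    intro b _
    exact Subalgebra.smul_mem _ (T_mem_Hs (emb_mem_SS p b)) _
  have h3 : (vE p r : Hk R z) * v' = 1 := by
    rw [hv', hmul (fun b => B b 1), Finset.sum_eq_single 1]
    · have : M.mulVec (fun b => B b 1) 1 = (M * B) 1 1 := rfl
      rw [this, hMB, Matrix.one_apply_eq, one_smul, map_one]
      rfl
    · intro a _ ha
      have : M.mulVec (fun b => B b 1) a = (M * B) a 1 := rfl
      rw [this, hMB, Matrix.one_apply_ne ha, zero_smul]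
    · intro h
      exact absurd (Finset.mem_univ _) h
  have hinj : ∀ x ∈ (Hs p : Subalgebra R (Hk R z)), (vE p r : Hk R z) * x = 0 → x = 0 := by
    intro x hx h
    have e1 := VUnit_expand hx
    rw [e1, hmul] at h
    have e2 : M.mulVec (fun g => coef (emb p g) x) = 0 := by
      ext a
      have := hcoef (M.mulVec (fun g => coef (emb p g) x)) a
      rw [h] at this
      rw [← this]
      unfold coef
      rw [map_zero]
      rfl
    have e3 : (fun g => coef (emb p g) x) = 0 := by
      have := congrArg B.mulVec e2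
      rw [Matrix.mulVec_mulVec, hBM, Matrix.one_mulVec, Matrix.mulVec_zero] at this
      exact this
    rw [e1]
    refine Finset.sum_eq_zero fun g _ => ?_
    rw [congrFun e3 g]
    simp
  refine ⟨v', hv'mem, h3, ?_⟩
  have h4 : v' * (vE p r : Hk R z) - 1 = 0 := by
    apply hinj
    · exact sub_mem (mul_mem hv'mem (VUnit_vE_mem p r)) (one_mem _)
    · rw [mul_sub, ← mul_assoc, h3, one_mul, mul_one, sub_self]
  exact sub_eq_zero.1 h4

end Pool.Agent.H873
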