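import Pool.Agent.Helper873_Hecke.JM
import Pool.Agent.Helper873_Hecke.Markov
import Pool.Agent.Helper873_Hecke.MarkovB
import Pool.Agent.Helper873_Hecke.IND
import Pool.Agent.Helper873_Hecke.Span
import Pool.Agent.Helper873_Hecke.Bunch
import Pool.Agent.Helper873_Hecke.Twist
import Pool.Agent.Helper873_Hecke.Close
import Pool.Agent.Helper873_Hecke.BaseChange
import Pool.Agent.Helper873_Hecke.VUnit
import Pool.Agent.Helper873_Hecke.NBij
import Pool.Agent.Helper873_Hecke.ErProj
import Pool.Agent.Helper873_Hecke.CLam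
import Pool.Agent.Helper873_Hecke.MatUnit
import Pool.Agent.Helper873_Hecke.Cyc
import Pool.Agent.Helper873_Hecke.EpsZ
import Pool.Agent.Helper873_Hecke.Top
import Pool.Agent.Helper873_Hecke.DecV0
import Pool.Agent.Helper873_Hecke.C12
import Pool.Agent.Helper873_Hecke.Prim
import Pool.Agent.Helper873_Hecke.KCons
import Pool.Agent.Helper873_Hecke.Cab
import Pool.Agent.Helper873_Hecke.Ins
import Pool.Agent.Helper873_Hecke.Hom
import Pool.Agent.Helper873_Hecke.Move
import Pool.Agent.Helper873_Hecke.Transv
import Pool.Agent.Helper873_Hecke.FTgen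
import Pool.Agent.Helper873_Hecke.FTskein
import Pool.Agent.Helper873_Hecke.FTcurl
import Pool.Agent.Helper873_Hecke.FGasm
import Pool.Agent.Helper873_Hecke.Exist
import Pool.Agent.Helper873_Hecke.Integral
import Pool.Agent.Helper873_Hecke.Dpoly
import Pool.Agent.Helper873_Hecke.GoodRing
import Pool.Agent.Helper873_Hecke.Parity
import Pool.Agent.Helper873_Hecke.Decl
import Pool.Agent.Helper873_Hecke.EvW
import Pool.Agent.Helper873_Hecke.DecP
import Pool.Agent.Helper873_Hecke.Kqa
import Pool.Agent.Helper873_Hecke.FinalAsm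
import Pool.Agent.Helper873_Hecke.CabComps
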