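import Pool.Agent.Helper873_Hecke.Core

set_option autoImplicit false

/-!
# Basic facts on the Hecke algebra `Hk R z`: generators, trace, projections, shift, `H_n`
-/

namespace Pool.Agent.H873

open Equiv

namespace Hk

variable {R : Type*} [CommRing R] {z : R}

/-- left multiplication as a linear map -/
noncomputable def lmul (x : Hk R z) : Hk R z →ₗ[R] Hk R z := mulL x

/-- right multiplication as a linear map -/
noncomputable def rmul (y : Hk R z) : Hk R z →ₗ[R] Hk R z := mulL.flip y

theorem lmul_apply (x y : Hk R z) : lmul x y = x * y := rfl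
theorem rmul_apply (x y : Hk R z) : rmul y x = x * y := rfl

/-- induction principle: `Hk R z` is generated by the `sg i` -/
theorem induction {P : Hk R z → Prop} (h1 : P 1) (hadd : ∀ x y, P x → P y → P (x + y))
    (hsmul : ∀ (r : R) x, P x → P (r • x)) (hmul : ∀ i x, P x → P (sg i * x)) (x : Hk R z) :
    P x := by
  have hT : ∀ w : G, P (T w) := by
    apply G_induction
    · exact h1
    · intro i w hi ih
      rw [← sg_mul_T_asc hi]
      exact hmul i _ ih
  have h0 : P 0 := by
    have := hsmul 0 _ h1
    rwa [zero_smul] at this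
  have hx := basis.linearCombination_repr x
  rw [← hx, Finsupp.linearCombination_apply]
  unfold Finsupp.sum
  apply Finset.sum_induction _ P hadd h0
  intro w _
  exact hsmul _ _ (hT w)

/-- a linear map compatible with left multiplication by the generators is multiplicative -/
theorem map_mul_of_sg {A : Type*} [Ring A] [Algebra R A] (f : Hk R z →ₗ[R] A) (g : ℕ → A)
    (h1 : f 1 = 1) (hg : ∀ i w, f (sg i * T w) = g i * f (T w)) (x y : Hk R z) :
    f (x * y) = f x * f y := by
  have hg' : ∀ i y, f (sg i * y) = g i * f y := by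
    intro i y
    have : f ∘ₗ (lmul (sg i : Hk R z)) = (LinearMap.mulLeft R (g i)) ∘ₗ f := by
      refine hext ?_
      intro w
      exact hg i w
    exact congrArg (fun f => f y) this
  revert x
  apply induction
  · rw [one_mul, h1, one_mul]
  · intro a b ha hb
    rw [add_mul, map_add, ha, hb, map_add, add_mul]
  · intro r a ha
    rw [smul_mul_assoc, map_smul, ha, map_smul, smul_mul_assoc]
  · intro i a ha
    rw [mul_assoc, hg', ha, hg', mul_assoc]

/-- the inverse generator -/
noncomputable def sgi (i : ℕ) : Hk R z := sg i - z • 1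

theorem sg_mul_sgi (i : ℕ) : (sg i * sgi i : Hk R z) = 1 := by
  unfold sgi
  rw [mul_sub, sg_sq, mul_smul_comm, mul_one, add_sub_cancel_right]

theorem sgi_mul_sg (i : ℕ) : (sgi i * sg i : Hk R z) = 1 := by
  unfold sgi
  rw [sub_mul, sg_sq, smul_mul_assoc, one_mul, add_sub_cancel_right]

/-- signed generator: `σ_i` for `true`, `σ_i⁻¹` for `false` -/
noncomputable def gen (e : Bool) (i : ℕ) : Hk R z := if e then sg i else sgi i

@[simp] theorem gen_true (i : ℕ) : (gen true i : Hk R z) = sg i := rfl
@[simp] theorem gen_false (i : ℕ) : (gen false i : Hk R z) = sgi i := rfl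

theorem gen_mul_gen_not (e : Bool) (i : ℕ) : (gen e i * gen (!e) i : Hk R z) = 1 := by
  cases e
  · exact sgi_mul_sg i
  · exact sg_mul_sgi i

theorem T_mul_T_of_red {l : List ℕ} {w : G} (h : Red l w) :
    (T w : Hk R z) = (l.map sg).prod := by
  induction h with
  | nil => rfl
  | cons i l w _ hi ih =>
    rw [List.map_cons, List.prod_cons, ← ih, sg_mul_T_asc hi]

theorem sg_comm {i j : ℕ} (h : i + 2 ≤ j) : (sg i * sg j : Hk R z) = sg j * sg i := by
  have h1 : LA i (s j) := by
    unfold LA
    rw [s_inv, s_apply, s_apply, if_neg (by omega), if_neg (by omega), if_neg (by omega),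
      if_neg (by omega)]
    omega
  have h2 : LA j (s i) := by
    unfold LA
    rw [s_inv, s_apply, s_apply, if_neg (by omega), if_neg (by omega), if_neg (by omega),
      if_neg (by omega)]
    omega
  have e1 := sg_mul_T_asc (z := z) h1
  have e2 := sg_mul_T_asc (z := z) h2
  change (sg i * sg j : Hk R z) = _ at e1
  change (sg j * sg i : Hk R z) = _ at e2
  rw [e1, e2]
  congr 1
  apply Subtype.ext
  change swap i (i + 1) * swap j (j + 1) = swap j (j + 1) * swap i (i + 1)
  apply Perm.Disjoint.commute
  intro x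
  by_cases hx : x = i ∨ x = i + 1
  · right
    exact swap_apply_of_ne_of_ne (by omega) (by omega)
  · left
    push Not at hx
    exact swap_apply_of_ne_of_ne hx.1 hx.2

theorem s_braid (i : ℕ) : s i * (s (i + 1) * s i) = s (i + 1) * (s i * s (i + 1)) := by
  apply Subtype.ext
  ext x
  change (s i).1 ((s (i + 1)).1 ((s i).1 x)) = (s (i + 1)).1 ((s i).1 ((s (i + 1)).1 x))
  simp only [s_apply]
  split_ifs <;> omega

theorem sg_braid (i : ℕ) : (sg i * (sg (i + 1) * sg i) : Hk R z) = sg (i + 1) * (sg i * sg (i + 1)) := by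
  have h1 : LA (i + 1) (s i) := by
    unfold LA
    rw [s_inv]; simp only [s_apply]; split_ifs <;> omega
  have h2 : LA i (s (i + 1) * s i) := by
    unfold LA
    rw [mul_inv_rev, s_inv, s_inv]
    change (s i).1 ((s (i + 1)).1 i) < (s i).1 ((s (i + 1)).1 (i + 1))
    simp only [s_apply]; split_ifs <;> omega
  have h3 : LA i (s (i + 1)) := by
    unfold LA
    rw [s_inv]; simp only [s_apply]; split_ifs <;> omega
  have h4 : LA (i + 1) (s i * s (i + 1)) := by
    unfold LA
    rw [mul_inv_rev, s_inv, s_inv]
    change (s (i + 1)).1 ((s i).1 (i + 1)) < (s (i + 1)).1 ((s i).1 (i + 1 + 1))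
    simp only [s_apply]; split_ifs <;> omega
  have e1 := sg_mul_T_asc (z := z) h1
  have e2 := sg_mul_T_asc (z := z) h2
  have e3 := sg_mul_T_asc (z := z) h3
  have e4 := sg_mul_T_asc (z := z) h4
  change (sg (i + 1) * sg i : Hk R z) = _ at e1
  change (sg i * sg (i + 1) : Hk R z) = _ at e3
  rw [e1, e2, e3, e4, s_braid]

/-! ### the trace `tau` -/

open Classical in
/-- the coefficient of `T 1` -/
noncomputable def tau : Hk R z →ₗ[R] R := basis.constr R (fun w : G => if w = 1 then (1 : R) else 0)

open Classical in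
theorem tau_T (w : G) : tau (T w : Hk R z) = if w = 1 then 1 else 0 := by
  unfold tau
  exact basis.constr_basis R _ w

open Classical in
theorem tau_T_mul_T (w v : G) : tau (T w * T v : Hk R z) = if w * v = 1 then 1 else 0 := by
  revert v
  refine G_induction_right (P := fun w => ∀ v : G, tau (T w * T v : Hk R z) = if w * v = 1 then 1 else 0) ?_ ?_ w
  · intro v
    rw [← one_def, one_mul, tau_T, one_mul]
  · intro i w hi ih v
    rw [← T_mul_sg_asc hi, mul_assoc]
    by_cases hv : LA i v
    · rw [sg_mul_T_asc hv, ih, mul_assoc]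
    · rw [sg_mul_T_desc hv, mul_add, map_add, ih, mul_smul_comm, map_smul, ih, mul_assoc]
      have : w * v ≠ 1 := by
        intro e
        apply hv
        have : v = w⁻¹ := eq_inv_of_mul_eq_one_right e
        rw [this, LA_inv]
        exact hi
      rw [if_neg this, smul_zero, add_zero]

theorem tau_comm (x y : Hk R z) : tau (x * y) = tau (y * x) := by
  classical
  have : (tau ∘ₗ (lmul x)) = tau ∘ₗ (rmul x) := by
    refine hext (fun v => ?_)
    change tau (x * (T v : Hk R z)) = tau ((T v : Hk R z) * x)
    have : (tau ∘ₗ (rmul (T v : Hk R z))) = tau ∘ₗ (lmul (T v)) := by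
      refine hext (fun w => ?_)
      change tau ((T w : Hk R z) * (T v : Hk R z)) = tau ((T v : Hk R z) * (T w : Hk R z))
      rw [tau_T_mul_T, tau_T_mul_T]
      congr 1
      exact propext ⟨fun h => mul_eq_one_comm.1 h, fun h => mul_eq_one_comm.1 h⟩
    exact congrArg (fun f => f x) this
  exact congrArg (fun f => f y) this

/-- the coefficient of `T w` in `x` -/
noncomputable def coef (w : G) (x : Hk R z) : R := basis.repr x w

open Classical in
theorem coef_T (w v : G) : coef w (T v : Hk R z) = if v = w then 1 else 0 := by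
  unfold coef T
  rw [Module.Basis.repr_self, Finsupp.single_apply]

theorem coef_eq_tau (w : G) (x : Hk R z) : coef w x = tau (x * T w⁻¹) := by
  classical
  have : (basis.coord w : Hk R z →ₗ[R] R) = tau ∘ₗ rmul (T w⁻¹) := by
    refine hext (fun v => ?_)
    change coef w (T v : Hk R z) = tau ((T v : Hk R z) * (T w⁻¹ : Hk R z))
    rw [coef_T, tau_T_mul_T]
    congr 1
    rw [mul_inv_eq_one]
  exact congrArg (fun f => f x) this

theorem ext_coef {x y : Hk R z} (h : ∀ w, coef w x = coef w y) : x = y := by
  apply basis.repr.injective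
  ext w
  exact h w

/-! ### projections onto spans of basis elements -/

open Classical in
/-- projection onto the span of `T w`, `w ∈ S` -/
noncomputable def proj (S : Set G) : Hk R z →ₗ[R] Hk R z :=
  basis.constr R (fun w : G => (if w ∈ S then T w else 0 : Hk R z))

open Classical in
theorem proj_T (S : Set G) (w : G) : proj S (T w : Hk R z) = if w ∈ S then T w else 0 := by
  unfold proj
  exact basis.constr_basis R _ w

theorem proj_T_of_mem {S : Set G} {w : G} (h : w ∈ S) : proj S (T w : Hk R z) = T w := by
  classical rw [proj_T, if_pos h]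

theorem proj_T_of_notMem {S : Set G} {w : G} (h : w ∉ S) : proj S (T w : Hk R z) = 0 := by
  classical rw [proj_T, if_neg h]

theorem proj_sg_mul {S : Set G} {i : ℕ} (h : ∀ w, s i * w ∈ S ↔ w ∈ S) (x : Hk R z) :
    proj S (sg i * x) = sg i * proj S x := by
  classical
  have : proj S ∘ₗ lmul (sg i : Hk R z) = lmul (sg i) ∘ₗ proj S := by
    refine hext (fun w => ?_)
    change proj S ((sg i : Hk R z) * (T w : Hk R z)) = (sg i : Hk R z) * proj S (T w : Hk R z)
    by_cases h1 : LA i w <;> by_cases h2 : w ∈ S
    · rw [sg_mul_T_asc h1, proj_T_of_mem h2, proj_T_of_mem ((h w).2 h2), sg_mul_T_asc h1]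
    · rw [sg_mul_T_asc h1, proj_T_of_notMem h2, proj_T_of_notMem (fun h3 => h2 ((h w).1 h3)), mul_zero]
    · rw [sg_mul_T_desc h1, map_add, map_smul, proj_T_of_mem h2, proj_T_of_mem ((h w).2 h2),
        sg_mul_T_desc h1]
    · rw [sg_mul_T_desc h1, map_add, map_smul, proj_T_of_notMem h2,
        proj_T_of_notMem (fun h3 => h2 ((h w).1 h3)), mul_zero, smul_zero, add_zero]
  exact congrArg (fun f => f x) this

theorem proj_mul_sg {S : Set G} {i : ℕ} (h : ∀ w, w * s i ∈ S ↔ w ∈ S) (x : Hk R z) :
    proj S (x * sg i) = proj S x * sg i := by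
  classical
  have : proj S ∘ₗ rmul (sg i : Hk R z) = rmul (sg i) ∘ₗ proj S := by
    refine hext (fun w => ?_)
    change proj S ((T w : Hk R z) * (sg i : Hk R z)) = proj S (T w : Hk R z) * (sg i : Hk R z)
    by_cases h1 : RA i w <;> by_cases h2 : w ∈ S
    · rw [T_mul_sg_asc h1, proj_T_of_mem h2, proj_T_of_mem ((h w).2 h2), T_mul_sg_asc h1]
    · rw [T_mul_sg_asc h1, proj_T_of_notMem h2, proj_T_of_notMem (fun h3 => h2 ((h w).1 h3)), zero_mul]
    · rw [T_mul_sg_desc h1, map_add, map_smul, proj_T_of_mem h2, proj_T_of_mem ((h w).2 h2),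
        T_mul_sg_desc h1]
    · rw [T_mul_sg_desc h1, map_add, map_smul, proj_T_of_notMem h2,
        proj_T_of_notMem (fun h3 => h2 ((h w).1 h3)), zero_mul, smul_zero, add_zero]
  exact congrArg (fun f => f x) this

theorem coef_proj (S : Set G) [DecidablePred (· ∈ S)] (w : G) (x : Hk R z) :
    coef w (proj S x) = if w ∈ S then coef w x else 0 := by
  classical
  have : (basis.coord w : Hk R z →ₗ[R] R) ∘ₗ proj S = (if w ∈ S then (basis.coord w : Hk R z →ₗ[R] R) else 0) := by
    refine hext (fun v => ?_)
    change coef w (proj S (T v : Hk R z)) = _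
    by_cases h1 : v ∈ S <;> by_cases h2 : w ∈ S
    · rw [proj_T_of_mem h1, if_pos h2]; rfl
    · rw [proj_T_of_mem h1, if_neg h2, coef_T, if_neg (fun e : v = w => h2 (e ▸ h1))]; rfl
    · rw [proj_T_of_notMem h1, if_pos h2]
      change coef w (0 : Hk R z) = coef w (T v : Hk R z)
      rw [coef_T, if_neg (fun e : v = w => h1 (e ▸ h2))]
      unfold coef; rw [map_zero]; rfl
    · rw [proj_T_of_notMem h1, if_neg h2]
      change coef w (0 : Hk R z) = 0
      unfold coef; rw [map_zero]; rfl
  have h := congrArg (fun f => f x) this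
  change coef w (proj S x) = _ at h
  rw [h]
  split_ifs <;> rfl

end Hk

end Pool.Agent.H873
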