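import Pool.Agent.Helper873_Hecke.Stmts

set_option autoImplicit false

namespace Pool.Agent.H873

open Equiv Hk

theorem CLam_upw_zero (a : ℕ) (e : Bool) : upw a 0 e = [] := rfl

theorem CLam_upw_succ (a n : ℕ) (e : Bool) : upw a (n + 1) e = (a, e) :: upw (a + 1) n e := by
  unfold upw
  rw [List.range_succ_eq_map, List.map_cons, List.map_map]
  congr 1
  apply List.map_congr_left
  intro i _
  simp only [Function.comp_apply, Nat.succ_eq_add_one]
  congr 1
  omega

/-- `w` fixes every point below `o` -/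
def CLam_fix (o : ℕ) (w : G) : Prop := ∀ x, x < o → w.1 x = x

theorem CLam_fix_one (o : ℕ) : CLam_fix o 1 := fun _ _ => rfl

theorem CLam_fix_mono {o o' : ℕ} (h : o ≤ o') {w : G} (hw : CLam_fix o' w) : CLam_fix o w :=
  fun x hx => hw x (by omega)

theorem CLam_fix_mul {o : ℕ} {v w : G} (hv : CLam_fix o v) (hw : CLam_fix o w) : CLam_fix o (v * w) := by
  intro x hx
  change v.1 (w.1 x) = x
  rw [hw x hx, hv x hx]

theorem CLam_fix_s {o i : ℕ} (h : o ≤ i) : CLam_fix o (s i) := by
  intro x hx
  rw [s_apply, if_neg (by omega), if_neg (by omega)]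

theorem CLam_fix_upw (o a n : ℕ) (h : o ≤ a) : CLam_fix o (pw (upw a n true)) := by
  induction n generalizing a with
  | zero => exact CLam_fix_one o
  | succ n ih =>
    rw [CLam_upw_succ]
    have e : pw ((a, true) :: upw (a + 1) n true) = s a * pw (upw (a + 1) n true) := by
      unfold pw
      rw [List.map_cons, List.prod_cons]
    rw [e]
    exact CLam_fix_mul (CLam_fix_s h) (ih (a + 1) (by omega))

theorem CLam_fix_wL (o : ℕ) (l : List ℕ) : CLam_fix o (wL o l) := by
  induction l generalizing o with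
  | nil => exact CLam_fix_one o
  | cons m l ih =>
    change CLam_fix o (pw (upw o (m - 1) true) * wL (o + m) l)
    exact CLam_fix_mul (CLam_fix_upw o o _ le_rfl) (CLam_fix_mono (by omega) (ih (o + m)))

theorem CLam_LA {i : ℕ} {w : G} (hw : CLam_fix (i + 1) w) : LA i w := by
  have h1 : ∀ x, x < i + 1 → w⁻¹.1 x = x := by
    intro x hx
    have := pinv w x
    rwa [hw x hx] at this
  unfold LA
  rw [h1 i (by omega)]
  by_contra hc
  push Not at hc
  have h2 := h1 (w⁻¹.1 (i + 1)) (by omega)
  have h3 := w⁻¹.1.injective h2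
  omega

section

variable {R : Type} [CommRing R] {z : R}

theorem CLam_wd_upw_mul (n : ℕ) : ∀ (a : ℕ) (w : G), CLam_fix (a + n) w →
    (wd (upw a n true) * T w : Hk R z) = T (pw (upw a n true) * w) := by
  induction n with
  | zero =>
    intro a w _
    rw [CLam_upw_zero, wd_nil, one_mul]
    change _ = T ((1 : G) * w)
    rw [one_mul]
  | succ n ih =>
    intro a w hw
    have e : pw ((a, true) :: upw (a + 1) n true) = s a * pw (upw (a + 1) n true) := by
      unfold pw
      rw [List.map_cons, List.prod_cons]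
    rw [CLam_upw_succ, wd_cons, e, mul_assoc, ih (a + 1) w (CLam_fix_mono (by omega) hw), gen_true]
    rw [sg_mul_T_asc, mul_assoc]
    exact CLam_LA (CLam_fix_mul (CLam_fix_upw (a + 1) (a + 1) n le_rfl) (CLam_fix_mono (by omega) hw))

theorem CLam_part1 (o : ℕ) (l : List ℕ) : (cL o l : Hk R z) = T (wL o l) := by
  induction l generalizing o with
  | nil => rfl
  | cons m l ih =>
    change (wd (upw o (m - 1) true) * cL (o + m) l : Hk R z) = T (pw (upw o (m - 1) true) * wL (o + m) l)
    rw [ih, CLam_wd_upw_mul]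
    exact CLam_fix_mono (by omega) (CLam_fix_wL (o + m) l)

theorem CLam_upw_mem {o m N : ℕ} (h : o + m ≤ N) :
    (wd (upw o (m - 1) true) : Hk R z) ∈ (Hs N : Subalgebra R (Hk R z)) := by
  apply wd_mem_Hs
  intro l hl
  unfold upw at hl
  obtain ⟨i, hi, rfl⟩ := List.mem_map.1 hl
  rw [List.mem_range] at hi
  simp only
  omega

theorem CLam_cL_mem (o : ℕ) (l : List ℕ) : (cL o l : Hk R z) ∈ (Hs (o + l.sum) : Subalgebra R (Hk R z)) := by
  induction l generalizing o with
  | nil => exact one_mem _
  | cons m l ih =>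
    change (wd (upw o (m - 1) true) * cL (o + m) l : Hk R z) ∈ (Hs (o + (m :: l).sum) : Subalgebra R (Hk R z))
    rw [List.sum_cons]
    refine mul_mem (CLam_upw_mem (by omega)) ?_
    have := ih (o + m)
    rwa [add_assoc] at this

theorem CLam_upw_sh (o k n : ℕ) : (wd (upw (k + o) n true) : Hk R z) = sh k (wd (upw o n true)) := by
  rw [sh_wd]
  congr 1
  unfold upw
  rw [List.map_map]
  apply List.map_congr_left
  intro i _
  simp only [Function.comp_apply]
  congr 1
  omega

theorem CLam_cL_sh (k o : ℕ) (l : List ℕ) : (cL (k + o) l : Hk R z) = sh k (cL o l) := by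
  induction l generalizing o with
  | nil => exact (map_one (sh k)).symm
  | cons m l ih =>
    change (wd (upw (k + o) (m - 1) true) * cL (k + o + m) l : Hk R z) =
      sh k (wd (upw o (m - 1) true) * cL (o + m) l)
    rw [map_mul, ← CLam_upw_sh, ← ih, add_assoc]

theorem CLam_swap (h : S_bunch) {M : Type} [AddCommGroup M] [Module R M] (f : Hk R z →ₗ[R] M)
    (o a b : ℕ) (l : List ℕ) (hf : IsTrace (o + (a + (b + l.sum))) f)
    (u : Hk R z) (hu : u ∈ (Hs o : Subalgebra R (Hk R z))) :
    f (u * cL o (a :: b :: l)) = f (u * cL o (b :: a :: l)) := by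
  obtain ⟨b1, b2, b3, -, -, b6, b7⟩ := h R z true o a b
  obtain ⟨-, -, c3, -, -, c6, -⟩ := h R z false o b a
  set X : Hk R z := wd (xw true o a b) with hX
  set X' : Hk R z := wd (xw false o b a) with hX'
  have c3' : X' * X = 1 := c3
  have b3' : X * X' = 1 := b3
  set ca : Hk R z := wd (upw 0 (a - 1) true) with hca
  set cb : Hk R z := wd (upw 0 (b - 1) true) with hcb
  have mca : ca ∈ (Hs a : Subalgebra R (Hk R z)) := CLam_upw_mem (by omega)
  have mcb : cb ∈ (Hs b : Subalgebra R (Hk R z)) := CLam_upw_mem (by omega)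
  set t : Hk R z := cL (o + a + b) l with ht
  have ht' : (cL (o + b + a) l : Hk R z) = t := by
    rw [ht]
    congr 1
    omega
  have e1 : (cL o (a :: b :: l) : Hk R z) = sh o ca * (sh (o + a) cb * t) := by
    change (wd (upw o (a - 1) true) * (wd (upw (o + a) (b - 1) true) * cL (o + a + b) l) : Hk R z) = _
    have f1 := CLam_upw_sh (R := R) (z := z) 0 o (a - 1)
    have f2 := CLam_upw_sh (R := R) (z := z) 0 (o + a) (b - 1)
    rw [add_zero] at f1 f2
    rw [f1, f2]
  have e2 : (cL o (b :: a :: l) : Hk R z) = sh o cb * (sh (o + b) ca * t) := by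
    change (wd (upw o (b - 1) true) * (wd (upw (o + b) (a - 1) true) * cL (o + b + a) l) : Hk R z) = _
    have f1 := CLam_upw_sh (R := R) (z := z) 0 o (b - 1)
    have f2 := CLam_upw_sh (R := R) (z := z) 0 (o + b) (a - 1)
    rw [add_zero] at f1 f2
    rw [f1, f2, ht']
  rw [e1, e2]
  -- X (A ⊗ B) = (B ⊗ A) X
  have x1 : X * sh o ca = sh (o + b) ca * X := b1 ca mca
  have x2 : X * sh (o + a) cb = sh o cb * X := b2 cb mcb
  have mscb : sh o cb ∈ (Hs (o + b) : Subalgebra R (Hk R z)) := by
    have := sh_mem_Hs (k := o) mcb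
    rwa [add_comm b o] at this
  have x3 : sh o cb * sh (o + b) ca = sh (o + b) ca * sh o cb := commute_sh mscb ca
  have x4 : X * (sh o ca * sh (o + a) cb) = (sh o cb * sh (o + b) ca) * X := by
    rw [← mul_assoc, x1, mul_assoc, x2, ← mul_assoc, ← x3]
  -- memberships
  have hN : o + (a + (b + l.sum)) = o + a + b + l.sum := by ring
  rw [hN] at hf
  have mX0 : X ∈ (Hs (o + a + b) : Subalgebra R (Hk R z)) := wd_mem_Hs fun y hy => (b6 y hy).2
  have mX'0 : X' ∈ (Hs (o + b + a) : Subalgebra R (Hk R z)) := wd_mem_Hs fun y hy => (c6 y hy).2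
  have mX : X ∈ (Hs (o + a + b + l.sum) : Subalgebra R (Hk R z)) := Hs_mono (by omega) mX0
  have mX' : X' ∈ (Hs (o + a + b + l.sum) : Subalgebra R (Hk R z)) := Hs_mono (by omega) mX'0
  have mu : u ∈ (Hs (o + a + b + l.sum) : Subalgebra R (Hk R z)) := Hs_mono (by omega) hu
  have mB : sh o cb ∈ (Hs (o + a + b + l.sum) : Subalgebra R (Hk R z)) := Hs_mono (by omega) mscb
  have mA : sh (o + b) ca ∈ (Hs (o + a + b + l.sum) : Subalgebra R (Hk R z)) :=
    Hs_mono (by omega) (sh_mem_Hs (k := o + b) mca)
  have mt : t ∈ (Hs (o + a + b + l.sum) : Subalgebra R (Hk R z)) := CLam_cL_mem (o + a + b) l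
  -- commutations
  have x5 : X * t = t * X := by
    have : t = sh (o + a + b) (cL 0 l) := by
      have := CLam_cL_sh (R := R) (z := z) (o + a + b) 0 l
      rwa [add_zero] at this
    rw [this]
    exact commute_sh mX0 _
  have x6 : u * X = X * u := by
    rw [b7]
    exact commute_sh hu _
  -- conclusion
  have y1 : u * (sh o ca * (sh (o + a) cb * t)) = (u * (X' * ((sh o cb * sh (o + b) ca) * t))) * X := by
    have : (u * (X' * ((sh o cb * sh (o + b) ca) * t))) * X =
        u * (X' * ((sh o cb * sh (o + b) ca) * (t * X))) := by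
      simp only [mul_assoc]
    rw [this, ← x5]
    have : (sh o cb * sh (o + b) ca) * (X * t) = (X * (sh o ca * sh (o + a) cb)) * t := by
      rw [x4]
      simp only [mul_assoc]
    rw [this]
    have : X' * ((X * (sh o ca * sh (o + a) cb)) * t) = (X' * X) * (sh o ca * (sh (o + a) cb * t)) := by
      simp only [mul_assoc]
    rw [this, c3', one_mul]
  rw [y1, hf _ (mul_mem mu (mul_mem mX' (mul_mem (mul_mem mB mA) mt))) _ mX]
  congr 1
  have : X * (u * (X' * ((sh o cb * sh (o + b) ca) * t))) =
      (X * u) * (X' * ((sh o cb * sh (o + b) ca) * t)) := by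
    simp only [mul_assoc]
  rw [this, ← x6]
  have : (u * X) * (X' * ((sh o cb * sh (o + b) ca) * t)) =
      u * ((X * X') * ((sh o cb * sh (o + b) ca) * t)) := by
    simp only [mul_assoc]
  rw [this, b3', one_mul]
  simp only [mul_assoc]

theorem CLam_part2 (h : S_bunch) {M : Type} [AddCommGroup M] [Module R M] (f : Hk R z →ₗ[R] M)
    (l l' : List ℕ) (hl : l.Perm l') : ∀ o, IsTrace (o + l.sum) f →
    ∀ u ∈ (Hs o : Subalgebra R (Hk R z)), f (u * cL o l) = f (u * cL o l') := by
  induction hl with
  | nil => intro o _ u _; rfl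
  | @cons m t t' _ ih =>
    intro o hf u hu
    change f (u * (wd (upw o (m - 1) true) * cL (o + m) t)) = f (u * (wd (upw o (m - 1) true) * cL (o + m) t'))
    rw [← mul_assoc, ← mul_assoc]
    refine ih (o + m) ?_ _ (mul_mem (Hs_mono (by omega) hu) (CLam_upw_mem (by omega)))
    rwa [List.sum_cons, ← add_assoc] at hf
  | swap a b t =>
    intro o hf u hu
    refine CLam_swap h f o b a t ?_ u hu
    rwa [List.sum_cons, List.sum_cons] at hf
  | trans h1 _ ih1 ih2 =>
    intro o hf u hu
    rw [ih1 o hf u hu]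
    refine ih2 o ?_ u hu
    rwa [← h1.sum_eq]

theorem CLam_part3 (n : ℕ) : ∀ (o : ℕ) (Ls : List ℕ), Ls.Pairwise (· < ·) →
    (∀ x ∈ Ls, o ≤ x ∧ x + 1 < o + (n + 1)) →
    ∃ l : List ℕ, (∀ m ∈ l, 0 < m) ∧ l.sum = n + 1 ∧ ((Ls.map sg).prod : Hk R z) = cL o l := by
  induction n with
  | zero =>
    intro o Ls _ hL
    refine ⟨[1], by simp, by simp, ?_⟩
    have : Ls = [] := by
      rcases Ls with _ | ⟨x, Ls⟩
      · rfl
      · have := hL x List.mem_cons_self
        omega
    rw [this, List.map_nil, List.prod_nil]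
    change (1 : Hk R z) = wd (upw o (1 - 1) true) * 1
    rw [mul_one]
    rfl
  | succ n ih =>
    intro o Ls hs hL
    by_cases ho : o ∈ Ls
    · obtain ⟨x, Ls', rfl⟩ : ∃ x Ls', Ls = x :: Ls' := by
        rcases Ls with _ | ⟨x, Ls⟩
        · simp at ho
        · exact ⟨x, Ls, rfl⟩
      rw [List.pairwise_cons] at hs
      have hx : x = o := by
        rcases List.mem_cons.1 ho with h1 | h1
        · exact h1.symm
        · have h2 := hs.1 o h1
          have h3 := (hL x List.mem_cons_self).1
          omega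
      subst hx
      obtain ⟨l', hpos, hsum, hl'⟩ := ih (x + 1) Ls' hs.2 (fun y hy => by
        have h1 := hs.1 y hy
        have h2 := hL y (List.mem_cons_of_mem _ hy)
        omega)
      obtain ⟨m, l'', rfl⟩ : ∃ m l'', l' = m :: l'' := by
        rcases l' with _ | ⟨m, l''⟩
        · simp at hsum
        · exact ⟨m, l'', rfl⟩
      have hm := hpos m List.mem_cons_self
      refine ⟨(m + 1) :: l'', ?_, ?_, ?_⟩
      · intro y hy
        rcases List.mem_cons.1 hy with rfl | hy
        · omega
        · exact hpos y (List.mem_cons_of_mem _ hy)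
      · rw [List.sum_cons] at hsum ⊢
        omega
      · rw [List.map_cons, List.prod_cons, hl']
        change (sg x * (wd (upw (x + 1) (m - 1) true) * cL (x + 1 + m) l'') : Hk R z) =
          wd (upw x (m + 1 - 1) true) * cL (x + (m + 1)) l''
        have e1 : upw x (m + 1 - 1) true = (x, true) :: upw (x + 1) (m - 1) true := by
          rw [← CLam_upw_succ]
          congr 1
          omega
        have e2 : x + 1 + m = x + (m + 1) := by omega
        rw [e1, wd_cons, e2, gen_true, mul_assoc]
    · obtain ⟨l', hpos, hsum, hl'⟩ := ih (o + 1) Ls hs (fun y hy => by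
        have h2 := hL y hy
        have h3 : y ≠ o := fun h => ho (h ▸ hy)
        omega)
      refine ⟨1 :: l', ?_, ?_, ?_⟩
      · intro y hy
        rcases List.mem_cons.1 hy with rfl | hy
        · omega
        · exact hpos y hy
      · rw [List.sum_cons]
        omega
      · rw [hl']
        change (cL (o + 1) l' : Hk R z) = wd (upw o (1 - 1) true) * cL (o + 1) l'
        rw [CLam_upw_zero, wd_nil, one_mul]

end

theorem t_cL (h : S_bunch) : S_cL := by
  intro R _ z
  refine ⟨fun o l _ => CLam_part1 o l, ?_, ?_⟩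
  · intro M _ _ f l l' hl hf
    have := CLam_part2 h f l l' hl 0 (by rwa [zero_add]) 1 (one_mem _)
    rwa [one_mul, one_mul] at this
  · intro n hn I hI
    obtain ⟨k, rfl⟩ : ∃ k, n = k + 1 := ⟨n - 1, by omega⟩
    refine CLam_part3 k 0 (I.sort (· ≤ ·)) ?_ ?_
    · exact I.sortedLT_sort.pairwise
    · intro x hx
      have := hI ((Finset.mem_sort _).1 hx)
      rw [Finset.mem_range] at this
      omega

end Pool.Agent.H873
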