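import Mathlib

set_option autoImplicit false

/-!
# The Iwahori-Hecke algebra of the finitary symmetric group of the natural numbers

Over a commutative ring `R` with an element `z`, the algebra `Hk R z` is free with basis `T w`,
`w` a finitely supported permutation of `ℕ`, and
`sg i * T w = T (s i * w)` if `w⁻¹ i < w⁻¹ (i+1)`, and `= T (s i * w) + z • T w` otherwise.
-/

namespace Pool.Agent.H873

open Equiv

/-- the group of finitely supported permutations of `ℕ` -/
def FP : Subgroup (Perm ℕ) where
  carrier := {w | ∃ n, ∀ m, n ≤ m → w m = m}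
  mul_mem' := by
    rintro a b ⟨n, hn⟩ ⟨k, hk⟩
    refine ⟨max n k, fun m hm => ?_⟩
    rw [Perm.mul_apply, hk m (le_trans (le_max_right _ _) hm), hn m (le_trans (le_max_left _ _) hm)]
  one_mem' := ⟨0, fun _ _ => rfl⟩
  inv_mem' := by
    rintro a ⟨n, hn⟩
    refine ⟨n, fun m hm => ?_⟩
    rw [Perm.inv_eq_iff_eq]
    exact (hn m hm).symm

/-- finitely supported permutations of `ℕ`, as a type -/
abbrev G := ↥FP

/-- the simple transposition `(i, i+1)` -/
def s (i : ℕ) : G := ⟨swap i (i + 1), i + 2, fun m hm => swap_apply_of_ne_of_ne (by omega) (by omega)⟩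

theorem s_val (i : ℕ) : (s i).1 = swap i (i + 1) := rfl

theorem s_sq (i : ℕ) : s i * s i = 1 := Subtype.ext (swap_mul_self _ _)

theorem s_inv (i : ℕ) : (s i)⁻¹ = s i := by rw [inv_eq_iff_mul_eq_one]; exact s_sq i

@[simp] theorem s_mul_s_mul (i : ℕ) (w : G) : s i * (s i * w) = w := by
  rw [← mul_assoc, s_sq, one_mul]

@[simp] theorem mul_s_mul_s (i : ℕ) (w : G) : w * s i * s i = w := by
  rw [mul_assoc, s_sq, mul_one]

theorem s_apply (i x : ℕ) : (s i).1 x = if x = i then i + 1 else if x = i + 1 then i else x := by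
  rw [s_val, swap_apply_def]

theorem inv_val (w : G) : (w⁻¹).1 = w.1⁻¹ := rfl

theorem papp (w : G) (x : ℕ) : w.1 (w⁻¹.1 x) = x := w.1.apply_symm_apply x

theorem pinv (w : G) (x : ℕ) : w⁻¹.1 (w.1 x) = x := w.1.symm_apply_apply x

/-- left ascent: `ℓ(s i * w) > ℓ(w)` -/
def LA (i : ℕ) (w : G) : Prop := w⁻¹.1 i < w⁻¹.1 (i + 1)

/-- right ascent: `ℓ(w * s i) > ℓ(w)` -/
def RA (i : ℕ) (w : G) : Prop := w.1 i < w.1 (i + 1)

theorem LA_inv (i : ℕ) (w : G) : LA i w⁻¹ ↔ RA i w := by
  unfold LA RA; rw [inv_inv]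

theorem RA_inv (i : ℕ) (w : G) : RA i w⁻¹ ↔ LA i w := Iff.rfl

theorem LA_s_mul (i : ℕ) (w : G) : LA i (s i * w) ↔ ¬ LA i w := by
  have e1 : (s i * w)⁻¹.1 i = w⁻¹.1 (i + 1) := by
    rw [mul_inv_rev, s_inv]
    change w⁻¹.1 ((s i).1 i) = _
    rw [s_apply, if_pos rfl]
  have e2 : (s i * w)⁻¹.1 (i + 1) = w⁻¹.1 i := by
    rw [mul_inv_rev, s_inv]
    change w⁻¹.1 ((s i).1 (i + 1)) = _
    rw [s_apply, if_neg (by omega), if_pos rfl]
  unfold LA
  rw [e1, e2]
  have : w⁻¹.1 i ≠ w⁻¹.1 (i + 1) := fun h => by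
    have := w⁻¹.1.injective h; omega
  omega

theorem RA_mul_s (i : ℕ) (w : G) : RA i (w * s i) ↔ ¬ RA i w := by
  rw [← LA_inv, mul_inv_rev, s_inv, LA_s_mul, LA_inv]

/-- the two ascent conditions interact only when `s i * w = w * s j` -/
theorem RA_s_mul (i j : ℕ) (w : G) (h : s i * w ≠ w * s j) : RA j (s i * w) ↔ RA j w := by
  unfold RA
  change (s i).1 (w.1 j) < (s i).1 (w.1 (j + 1)) ↔ _
  have hne : w.1 j ≠ w.1 (j + 1) := fun h => by have := w.1.injective h; omega
  rw [s_apply, s_apply]
  have key : ∀ x y : ℕ, w.1 j = x → w.1 (j + 1) = y → ¬ (x = i ∧ y = i + 1 ∨ x = i + 1 ∧ y = i) := by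
    intro x y hx hy hxy
    apply h
    apply Subtype.ext
    change swap i (i + 1) * w.1 = w.1 * swap j (j + 1)
    rw [mul_swap_eq_swap_mul, hx, hy]
    rcases hxy with ⟨rfl, rfl⟩ | ⟨rfl, rfl⟩
    · rfl
    · rw [swap_comm]
  have k := key _ _ rfl rfl
  split_ifs <;> omega

theorem LA_mul_s (i j : ℕ) (w : G) (h : s i * w ≠ w * s j) : LA i (w * s j) ↔ LA i w := by
  have h' : s j * w⁻¹ ≠ w⁻¹ * s i := by
    intro e
    apply h
    have := congrArg (fun x => x⁻¹) e
    simpa [mul_inv_rev, s_inv] using this.symm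
  have := RA_s_mul j i w⁻¹ h'
  rw [← RA_inv, mul_inv_rev, s_inv, this, RA_inv]

theorem RA_iff_LA_of_eq (i j : ℕ) (w : G) (h : s i * w = w * s j) : RA j w ↔ LA i w := by
  have e : swap i (i + 1) * w.1 = w.1 * swap j (j + 1) := congrArg Subtype.val h
  rw [mul_swap_eq_swap_mul] at e
  have e' : swap i (i + 1) = swap (w.1 j) (w.1 (j + 1)) := mul_right_cancel e
  have hne : w.1 j ≠ w.1 (j + 1) := fun h => by have := w.1.injective h; omega
  have h1 : swap (w.1 j) (w.1 (j + 1)) (w.1 j) = w.1 (j + 1) := swap_apply_left _ _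
  rw [← e', swap_apply_def] at h1
  unfold RA LA
  split_ifs at h1 with h2 h3
  · have a1 : w⁻¹.1 i = j := by rw [← h2]; exact pinv w j
    have a2 : w⁻¹.1 (i + 1) = j + 1 := by rw [h1]; exact pinv w (j + 1)
    rw [a1, a2, ← h1, h2]; omega
  · have a1 : w⁻¹.1 (i + 1) = j := by rw [← h3]; exact pinv w j
    have a2 : w⁻¹.1 i = j + 1 := by rw [h1]; exact pinv w (j + 1)
    rw [a1, a2, ← h1, h3]; omega
  · exact absurd h1 hne

/-! ### reduced words -/

/-- `Red l w`: `l` is a reduced word of `w` -/
inductive Red : List ℕ → G → Prop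
  | nil : Red [] 1
  | cons (i : ℕ) (l : List ℕ) (w : G) : Red l w → LA i w → Red (i :: l) (s i * w)

theorem exists_LD {n : ℕ} {w : G} (hw : ∀ m, n ≤ m → w.1 m = m) (h1 : w ≠ 1) :
    ∃ i, i + 1 < n ∧ ¬ LA i w := by
  by_contra hc
  push Not at hc
  apply h1
  have hwi : ∀ m, n ≤ m → w⁻¹.1 m = m := by
    intro m hm
    have := pinv w m
    rwa [hw m hm] at this
  have hmono : StrictMono (fun x => w⁻¹.1 x) := by
    apply strictMono_nat_of_lt_succ
    intro i
    by_cases h : i + 1 < n
    · exact hc i h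
    · by_cases h2 : i + 1 = n
      · show w⁻¹.1 i < w⁻¹.1 (i + 1)
        rw [hwi (i + 1) (by omega)]
        by_contra h3
        push Not at h3
        have h4 := hwi (w⁻¹.1 i) (by omega)
        have h5 := w⁻¹.1.injective h4
        omega
      · show w⁻¹.1 i < w⁻¹.1 (i + 1)
        rw [hwi (i + 1) (by omega), hwi i (by omega)]
        omega
  have h2 : ∀ x, w⁻¹.1 x = x := by
    have e : (hmono.orderIsoOfSurjective _ (w⁻¹).1.surjective) = OrderIso.refl ℕ :=
      Subsingleton.elim _ _
    intro x
    have := congrArg (fun f => f x) e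
    simpa using this
  apply Subtype.ext
  ext x
  have := papp w x
  rw [h2] at this
  exact this

theorem exists_red_aux (n : ℕ) : ∀ (k : ℕ) (w : G), (∀ m, n ≤ m → w.1 m = m) →
    (∑ i ∈ Finset.range n, (n - i) * w⁻¹.1 i = k) →
    ∃ l, Red l w ∧ ∀ i ∈ l, i + 1 < n := by
  intro k
  induction k using Nat.strong_induction_on with
  | _ k ih =>
    intro w hw hk
    by_cases h1 : w = 1
    · exact ⟨[], by rw [h1]; exact Red.nil, by simp⟩
    · obtain ⟨i, hi, hd⟩ := exists_LD hw h1
      have hw' : ∀ m, n ≤ m → (s i * w).1 m = m := by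
        intro m hm
        change (s i).1 (w.1 m) = m
        rw [hw m hm, s_apply, if_neg (by omega), if_neg (by omega)]
      have hval : ∀ x, (s i * w)⁻¹.1 x = w⁻¹.1 ((s i).1 x) := by
        intro x
        rw [mul_inv_rev, s_inv]; rfl
      have hlt : ∑ x ∈ Finset.range n, (n - x) * (s i * w)⁻¹.1 x < k := by
        rw [← hk]
        have hsub : ({i, i + 1} : Finset ℕ) ⊆ Finset.range n := by
          intro x hx
          simp only [Finset.mem_insert, Finset.mem_singleton] at hx
          rw [Finset.mem_range]; omega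
        rw [← Finset.sum_sdiff hsub, ← Finset.sum_sdiff hsub (f := fun x => (n - x) * w⁻¹.1 x)]
        have e1 : ∑ x ∈ Finset.range n \ {i, i + 1}, (n - x) * (s i * w)⁻¹.1 x
            = ∑ x ∈ Finset.range n \ {i, i + 1}, (n - x) * w⁻¹.1 x := by
          apply Finset.sum_congr rfl
          intro x hx
          simp only [Finset.mem_sdiff, Finset.mem_insert, Finset.mem_singleton, not_or] at hx
          rw [hval, s_apply, if_neg hx.2.1, if_neg hx.2.2]
        rw [e1]
        apply Nat.add_lt_add_left
        rw [Finset.sum_pair (by omega), Finset.sum_pair (by omega), hval, hval]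
        have e2 : (s i).1 i = i + 1 := by rw [s_apply, if_pos rfl]
        have e3 : (s i).1 (i + 1) = i := by rw [s_apply, if_neg (by omega), if_pos rfl]
        rw [e2, e3]
        unfold LA at hd
        push Not at hd
        have hne : w⁻¹.1 i ≠ w⁻¹.1 (i + 1) := fun h => by
          have := w⁻¹.1.injective h; omega
        obtain ⟨c, hc⟩ : ∃ c, n - i = c + 1 := ⟨n - i - 1, by omega⟩
        have hc' : n - (i + 1) = c := by omega
        rw [hc, hc']
        have : w⁻¹.1 (i + 1) < w⁻¹.1 i := by omega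
        nlinarith
      obtain ⟨l, hl, hl2⟩ := ih _ hlt (s i * w) hw' rfl
      refine ⟨i :: l, ?_, ?_⟩
      · have := Red.cons i l (s i * w) hl (by rw [LA_s_mul]; exact hd)
        rwa [s_mul_s_mul] at this
      · intro x hx
        rcases List.mem_cons.1 hx with rfl | hx
        · exact hi
        · exact hl2 x hx

theorem exists_red (w : G) : ∃ l, Red l w := by
  obtain ⟨n, hn⟩ := w.2
  obtain ⟨l, hl, -⟩ := exists_red_aux n _ w hn rfl
  exact ⟨l, hl⟩

/-- induction over the length -/
theorem G_induction {P : G → Prop} (h1 : P 1) (hs : ∀ i w, LA i w → P w → P (s i * w)) :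
    ∀ w, P w := by
  intro w
  obtain ⟨l, hl⟩ := exists_red w
  induction hl with
  | nil => exact h1
  | cons i l w _ hi ih => exact hs i w hi ih

theorem G_induction_right {P : G → Prop} (h1 : P 1) (hs : ∀ i w, RA i w → P w → P (w * s i)) :
    ∀ w, P w := by
  have : ∀ w, P w⁻¹ := by
    apply G_induction
    · rw [inv_one]; exact h1
    · intro i w hi ih
      rw [mul_inv_rev, s_inv]
      exact hs i w⁻¹ hi ih
  intro w
  have := this w⁻¹
  rwa [inv_inv] at this

/-- a chosen reduced word -/
noncomputable def word (w : G) : List ℕ := (exists_red w).choose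

theorem word_red (w : G) : Red (word w) w := (exists_red w).choose_spec

/-! ### the algebra -/

/-- The Iwahori-Hecke algebra of the finitary symmetric group of `ℕ` over `R` with parameter `z`
(quadratic relation `T² = 1 + z T`): the free `R`-module on `G`. -/
structure Hk (R : Type*) [CommRing R] (z : R) where
  /-- the coordinates in the basis `T w` -/
  toFinsupp : G →₀ R

namespace Hk

variable {R : Type*} [CommRing R] {z : R}

/-- the coordinate bijection -/
def equivF : Hk R z ≃ (G →₀ R) where
  toFun := toFinsupp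
  invFun := mk
  left_inv := fun _ => rfl
  right_inv := fun _ => rfl

noncomputable instance : AddCommGroup (Hk R z) := equivF.addCommGroup
noncomputable instance instModule : Module R (Hk R z) := equivF.module R

/-- the basis of `Hk R z` -/
noncomputable def basis : Module.Basis G R (Hk R z) :=
  Module.Basis.ofRepr (equivF.linearEquiv R)

/-- the basis element `T w` -/
noncomputable def T (w : G) : Hk R z := basis w

theorem hext {M : Type*} [AddCommMonoid M] [Module R M] {f g : Hk R z →ₗ[R] M}
    (h : ∀ w, f (T w) = g (T w)) : f = g := basis.ext h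

open Classical in
/-- left multiplication by `sg i` -/
noncomputable def Lop (i : ℕ) : Hk R z →ₗ[R] Hk R z :=
  basis.constr R (fun w : G => (T (s i * w) + if LA i w then 0 else z • T w : Hk R z))

open Classical in
/-- right multiplication by `sg i` -/
noncomputable def Rop (i : ℕ) : Hk R z →ₗ[R] Hk R z :=
  basis.constr R (fun w : G => (T (w * s i) + if RA i w then 0 else z • T w : Hk R z))

open Classical in
theorem Lop_T (i : ℕ) (w : G) : Lop i (T w : Hk R z) =
    T (s i * w) + if LA i w then 0 else z • T w := by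
  unfold Lop
  exact basis.constr_basis R _ w

open Classical in
theorem Rop_T (i : ℕ) (w : G) : Rop i (T w : Hk R z) =
    T (w * s i) + if RA i w then 0 else z • T w := by
  unfold Rop
  exact basis.constr_basis R _ w

theorem Lop_Rop (i j : ℕ) (x : Hk R z) : Lop i (Rop j x) = Rop j (Lop i x) := by
  classical
  have : (Lop i) ∘ₗ (Rop j) = (Rop j) ∘ₗ (Lop i : Hk R z →ₗ[R] Hk R z) := by
    apply hext
    intro w
    change Lop i (Rop j (T w)) = Rop j (Lop i (T w))
    rw [Lop_T, Rop_T, map_add, map_add, Lop_T, Rop_T, mul_assoc]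
    by_cases h : s i * w = w * s j
    · have h1 := RA_iff_LA_of_eq i j w h
      have h2 : LA i (w * s j) ↔ ¬ LA i w := by rw [← h, LA_s_mul]
      have h3 : RA j (s i * w) ↔ ¬ RA j w := by rw [h, RA_mul_s]
      rw [apply_ite (Lop i), apply_ite (Rop j), map_zero, map_zero, map_smul, map_smul,
        Lop_T, Rop_T]
      by_cases h4 : LA i w
      · have h5 : RA j w := h1.2 h4
        rw [if_neg (by rw [h2]; exact not_not.2 h4), if_pos h5, if_neg (by rw [h3]; exact not_not.2 h5),
          if_pos h4, h]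
      · have h5 : ¬ RA j w := fun h6 => h4 (h1.1 h6)
        rw [if_pos (h2.2 h4), if_neg h5, if_pos (h3.2 h5), if_neg h4, if_neg h4, if_neg h5, h]
    · have h2 := LA_mul_s i j w h
      have h3 := RA_s_mul i j w h
      rw [apply_ite (Lop i), apply_ite (Rop j), map_zero, map_zero, map_smul, map_smul,
        Lop_T, Rop_T]
      by_cases h4 : LA i w <;> by_cases h5 : RA j w <;>
        (simp only [h2, h3, h4, h5, if_true, if_false, add_zero, smul_add]; try abel)
  exact congrArg (fun f => f x) this

/-- composition of left operators along a word -/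
noncomputable def Lw : List ℕ → Hk R z →ₗ[R] Hk R z
  | [] => LinearMap.id
  | i :: l => Lop i ∘ₗ Lw l

/-- composition of right operators along a word (the last letter of the list acts first) -/
noncomputable def Rw : List ℕ → Hk R z →ₗ[R] Hk R z
  | [] => LinearMap.id
  | i :: l => Rop i ∘ₗ Rw l

theorem Lw_Rop (l : List ℕ) (j : ℕ) (x : Hk R z) : Lw l (Rop j x) = Rop j (Lw l x) := by
  induction l generalizing x with
  | nil => rfl
  | cons i l ih =>
    change Lop i (Lw l (Rop j x)) = Rop j (Lop i (Lw l x))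
    rw [ih, Lop_Rop]

theorem Lw_Rw (l m : List ℕ) (x : Hk R z) : Lw l (Rw m x) = Rw m (Lw l x) := by
  induction m generalizing x with
  | nil => rfl
  | cons i m ih =>
    change Lw l (Rop i (Rw m x)) = Rop i (Rw m (Lw l x))
    rw [Lw_Rop, ih]

theorem Lw_red {l : List ℕ} {w : G} (h : Red l w) : Lw l (T 1 : Hk R z) = T w := by
  classical
  induction h with
  | nil => rfl
  | cons i l w _ hi ih =>
    change Lop i (Lw l (T 1)) = _
    rw [ih, Lop_T, if_pos hi, add_zero]

theorem Rw_red {l : List ℕ} {w : G} (h : Red l w) : Rw l (T 1 : Hk R z) = T w⁻¹ := by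
  classical
  induction h with
  | nil => change (T 1 : Hk R z) = _; rw [inv_one]
  | cons i l w _ hi ih =>
    change Rop i (Rw l (T 1)) = _
    rw [ih, Rop_T, if_pos ((RA_inv i w).2 hi), add_zero, mul_inv_rev, s_inv]

/-- multiplication, as a bilinear map -/
noncomputable def mulL : Hk R z →ₗ[R] Hk R z →ₗ[R] Hk R z :=
  basis.constr R (fun w : G => Lw (word w))

theorem mulL_T (w : G) (y : Hk R z) : mulL (T w) y = Lw (word w) y := by
  have : mulL (T w : Hk R z) = Lw (word w) := basis.constr_basis R _ w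
  rw [this]

theorem mulL_T_right (x : Hk R z) (v : G) : mulL x (T v) = Rw (word v⁻¹) x := by
  have : (LinearMap.applyₗ (T v : Hk R z)) ∘ₗ (mulL : Hk R z →ₗ[R] Hk R z →ₗ[R] Hk R z)
      = Rw (word v⁻¹) := by
    apply hext
    intro w
    change mulL (T w) (T v) = Rw (word v⁻¹) (T w)
    have h1 : (T v : Hk R z) = Rw (word v⁻¹) (T 1) := by rw [Rw_red (word_red _), inv_inv]
    have h2 : (T w : Hk R z) = Lw (word w) (T 1) := by rw [Lw_red (word_red _)]
    rw [mulL_T]
    conv_lhs => rw [h1]
    conv_rhs => rw [h2]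
    exact Lw_Rw _ _ _
  exact congrArg (fun f => f x) this

theorem mulL_Lop (i : ℕ) (x y : Hk R z) : mulL (Lop i x) y = Lop i (mulL x y) := by
  have : mulL (Lop i x) = Lop i ∘ₗ (mulL x) := by
    apply hext
    intro v
    change mulL (Lop i x) (T v) = Lop i (mulL x (T v))
    rw [mulL_T_right, mulL_T_right]
    exact (Lw_Rw [i] (word v⁻¹) x).symm
  exact congrArg (fun f => f y) this

theorem mulL_Lw (l : List ℕ) (x y : Hk R z) : mulL (Lw l x) y = Lw l (mulL x y) := by
  induction l with
  | nil => rfl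
  | cons i l ih =>
    change mulL (Lop i (Lw l x)) y = Lop i (Lw l (mulL x y))
    rw [← ih]
    exact mulL_Lop i _ y

theorem mulL_assoc (x y w : Hk R z) : mulL (mulL x y) w = mulL x (mulL y w) := by
  have key : ((LinearMap.applyₗ w) ∘ₗ mulL) ∘ₗ ((LinearMap.applyₗ y) ∘ₗ mulL)
      = (LinearMap.applyₗ (mulL y w)) ∘ₗ (mulL : Hk R z →ₗ[R] Hk R z →ₗ[R] Hk R z) := by
    apply hext
    intro u
    change mulL (mulL (T u) y) w = mulL (T u) (mulL y w)
    rw [mulL_T, mulL_T]
    exact mulL_Lw _ _ _
  exact congrArg (fun f => f x) key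

theorem mulL_one (x : Hk R z) : mulL x (T 1) = x := by
  have : (LinearMap.applyₗ (T 1 : Hk R z)) ∘ₗ (mulL : Hk R z →ₗ[R] Hk R z →ₗ[R] Hk R z)
      = LinearMap.id := by
    apply hext
    intro w
    change mulL (T w) (T 1) = T w
    rw [mulL_T, Lw_red (word_red _)]
  exact congrArg (fun f => f x) this

theorem one_mulL (x : Hk R z) : mulL (T 1) x = x := by
  have : mulL (T 1 : Hk R z) = LinearMap.id := by
    apply hext
    intro w
    change mulL (T 1) (T w) = T w
    rw [mulL_T_right, Rw_red (word_red _), inv_inv]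
  exact congrArg (fun f => f x) this

noncomputable instance : Ring (Hk R z) :=
  { (inferInstance : AddCommGroup (Hk R z)) with
    mul := fun x y => mulL x y
    one := T 1
    left_distrib := fun a b c => map_add (mulL a) b c
    right_distrib := fun a b c => by
      change mulL (a + b) c = mulL a c + mulL b c
      rw [map_add, LinearMap.add_apply]
    zero_mul := fun a => by
      change mulL 0 a = 0
      rw [map_zero, LinearMap.zero_apply]
    mul_zero := fun a => map_zero (mulL a)
    mul_assoc := mulL_assoc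
    one_mul := one_mulL
    mul_one := mulL_one }

theorem mul_def (x y : Hk R z) : x * y = mulL x y := rfl

theorem one_def : (1 : Hk R z) = T 1 := rfl

theorem smul_mul' (r : R) (x y : Hk R z) : (r • x) * y = r • (x * y) := by
  rw [mul_def, mul_def, map_smul, LinearMap.smul_apply]

theorem mul_smul' (r : R) (x y : Hk R z) : x * (r • y) = r • (x * y) := by
  rw [mul_def, mul_def, map_smul]

noncomputable instance : Algebra R (Hk R z) where
  smul := fun r x => r • x
  algebraMap :=
    { toFun := fun r => r • (1 : Hk R z)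
      map_one' := one_smul _ _
      map_mul' := fun a b => by rw [smul_mul', one_mul, mul_smul]
      map_zero' := zero_smul _ _
      map_add' := fun a b => add_smul _ _ _ }
  commutes' := fun r x => by
    change r • (1 : Hk R z) * x = x * (r • (1 : Hk R z))
    rw [smul_mul', mul_smul', one_mul, mul_one]
  smul_def' := fun r x => by
    change r • x = r • (1 : Hk R z) * x
    rw [smul_mul', one_mul]

example : (Algebra.toModule : Module R (Hk R z)) = instModule := by with_reducible_and_instances rfl

/-- the generator `σ_i` -/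
noncomputable def sg (i : ℕ) : Hk R z := T (s i)

theorem LA_one (i : ℕ) : LA i 1 := by
  unfold LA
  rw [inv_one]
  show i < i + 1
  omega

theorem RA_one (i : ℕ) : RA i 1 := by
  unfold RA
  show i < i + 1
  omega

theorem sg_mul (i : ℕ) (x : Hk R z) : sg i * x = Lop i x := by
  classical
  have h : (sg i : Hk R z) = Lop i 1 := by
    rw [one_def, Lop_T, if_pos (LA_one i), mul_one, add_zero]; rfl
  rw [h, mul_def, mulL_Lop, ← mul_def, one_mul]

theorem mul_sg (x : Hk R z) (i : ℕ) : x * sg i = Rop i x := by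
  classical
  have : (LinearMap.applyₗ (sg i : Hk R z)) ∘ₗ (mulL : Hk R z →ₗ[R] Hk R z →ₗ[R] Hk R z)
      = Rop i := by
    apply hext
    intro w
    change T w * sg i = Rop i (T w)
    have h : (sg i : Hk R z) = Rop i 1 := by
      rw [one_def, Rop_T, if_pos (RA_one i), one_mul, add_zero]; rfl
    rw [h, mul_def, mulL_T, Lw_Rop, one_def, Lw_red (word_red _)]
  exact congrArg (fun f => f x) this

theorem sg_mul_T_asc {i : ℕ} {w : G} (h : LA i w) : (sg i * T w : Hk R z) = T (s i * w) := by
  classical
  rw [sg_mul, Lop_T, if_pos h, add_zero]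

theorem sg_mul_T_desc {i : ℕ} {w : G} (h : ¬ LA i w) :
    (sg i * T w : Hk R z) = T (s i * w) + z • T w := by
  classical
  rw [sg_mul, Lop_T, if_neg h]

theorem T_mul_sg_asc {i : ℕ} {w : G} (h : RA i w) : (T w * sg i : Hk R z) = T (w * s i) := by
  classical
  rw [mul_sg, Rop_T, if_pos h, add_zero]

theorem T_mul_sg_desc {i : ℕ} {w : G} (h : ¬ RA i w) :
    (T w * sg i : Hk R z) = T (w * s i) + z • T w := by
  classical
  rw [mul_sg, Rop_T, if_neg h]

theorem sg_sq (i : ℕ) : (sg i * sg i : Hk R z) = 1 + z • sg i := by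
  have h : ¬ LA i (s i) := by
    have := LA_s_mul i 1
    rw [mul_one] at this
    rw [this]; exact not_not.2 (LA_one i)
  have := sg_mul_T_desc (z := z) h
  rw [s_sq] at this
  exact this

end Hk

end Pool.Agent.H873
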