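import Pool.Agent.Helper873_Hecke.Stmts2

set_option autoImplicit false

namespace Pool.Agent.H873

open Equiv Hk

theorem FTgen_prm_fix {n : ℕ} {w : BW} (h : Valid n w) {k : ℕ} (hk : n ≤ k) : prm w k = k := by
  induction w with
  | nil => rfl
  | cons l w ih =>
    have h1 : Valid n w := fun x hx => h x (List.mem_cons_of_mem _ hx)
    have h2 := h l List.mem_cons_self
    have h3 : prm (l :: w) = swap l.1 (l.1 + 1) * prm w := by
      unfold prm; rw [List.map_cons, List.prod_cons]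
    rw [h3, Perm.mul_apply, ih h1, swap_apply_of_ne_of_ne (by omega) (by omega)]

theorem FTgen_prm_lt {n : ℕ} {w : BW} (h : Valid n w) {k : ℕ} (hk : k < n) : prm w k < n := by
  by_contra h1
  have h2 := FTgen_prm_fix h (not_lt.1 h1)
  have h3 := (prm w).injective h2
  omega

theorem FTgen_bet_valid (p k : ℕ) (hk : k < p) : Valid p (bet 0 p k) := by
  intro l hl
  unfold bet upw at hl
  rw [List.mem_append] at hl
  rcases hl with hl | hl
  · rw [List.mem_map] at hl
    obtain ⟨i, hi, rfl⟩ := hl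
    rw [List.mem_range] at hi
    show 0 + i + 1 < p
    omega
  · rw [List.mem_map] at hl
    obtain ⟨i, hi, rfl⟩ := hl
    rw [List.mem_range] at hi
    show 0 + k + i + 1 < p
    omega

theorem FTgen_betaE_mem {R : Type} [CommRing R] {z : R} (p : ℕ) :
    (betaE p : Hk R z) ∈ (Hs p : Subalgebra R (Hk R z)) := by
  unfold betaE
  apply Subalgebra.sum_mem
  intro k hk
  exact wd_mem_Hs (FTgen_bet_valid p k (Finset.mem_range.1 hk))

theorem FTgen_ins_cons {R : Type} [CommRing R] {z : R} (p k : ℕ) (js : List ℕ) :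
    (ins p (k :: js) : Hk R z) = sh (p * k) (betaE p) * ins p js := by
  unfold ins
  rw [List.map_cons, List.prod_cons]

theorem FTgen_ins_snoc {R : Type} [CommRing R] {z : R} (p k : ℕ) (js : List ℕ) :
    (ins p (js ++ [k]) : Hk R z) = ins p js * sh (p * k) (betaE p) := by
  unfold ins
  rw [List.map_append, List.prod_append, List.map_cons, List.map_nil, List.prod_cons,
    List.prod_nil, mul_one]

theorem FTgen_step (h1 : S_cab) (h2 : S_ins) {R : Type} [CommRing R] {z : R} {p n : ℕ}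
    (f : Hk R z →ₗ[R] R) (hf : IsTrace (p * n) f) {w : BW} (hw : Valid n w) {js : List ℕ}
    (hjs : ∀ j ∈ js, j < n) {k : ℕ} (hk : k < n) :
    f ((wd (cab p w) : Hk R z) * ins p (k :: js)) =
      f ((wd (cab p w) : Hk R z) * ins p (prm w k :: js)) := by
  obtain ⟨c1, -, c3⟩ := h1
  obtain ⟨c3, -, -, -⟩ := c3 R z p
  obtain ⟨-, i2, i3, i4, -, -⟩ := h2 R z p
  have e1 := c3 w k (betaE p) (FTgen_betaE_mem p)
  have m1 : (sh (p * prm w k) (betaE p) : Hk R z) ∈ (Hs (p * n) : Subalgebra R (Hk R z)) :=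
    i2 n _ (FTgen_prm_lt hw hk) _ (FTgen_betaE_mem p)
  have m2 : ((wd (cab p w) : Hk R z) * ins p js) ∈ (Hs (p * n) : Subalgebra R (Hk R z)) :=
    mul_mem (wd_mem_Hs (c1 p n w hw)) (i3 n js hjs)
  rw [FTgen_ins_cons, ← mul_assoc, e1, mul_assoc, hf _ m1 _ m2, mul_assoc, ← FTgen_ins_snoc,
    i4 (js ++ [prm w k]) (prm w k :: js) (List.perm_append_singleton _ _)]

theorem FTgen_pow (h1 : S_cab) (h2 : S_ins) {R : Type} [CommRing R] {z : R} {p n : ℕ}
    (f : Hk R z →ₗ[R] R) (hf : IsTrace (p * n) f) {w : BW} (hw : Valid n w) {js : List ℕ}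
    (hjs : ∀ j ∈ js, j < n) {k : ℕ} (hk : k < n) (m : ℕ) :
    (prm w ^ m) k < n ∧ f ((wd (cab p w) : Hk R z) * ins p (k :: js)) =
      f ((wd (cab p w) : Hk R z) * ins p ((prm w ^ m) k :: js)) := by
  induction m with
  | zero => exact ⟨hk, rfl⟩
  | succ m ih =>
    rw [pow_succ', Perm.mul_apply]
    refine ⟨FTgen_prm_lt hw ih.1, ?_⟩
    rw [ih.2]
    exact FTgen_step h1 h2 f hf hw hjs ih.1

theorem FTgen_pow_fix {n : ℕ} {w : BW} (h : Valid n w) {k : ℕ} (hk : n ≤ k) (m : ℕ) :
    (prm w ^ m) k = k := by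
  induction m with
  | zero => rfl
  | succ m ih => rw [pow_succ', Perm.mul_apply, ih, FTgen_prm_fix h hk]

theorem FTgen_cyc (h1 : S_cab) (h2 : S_ins) {R : Type} [CommRing R] {z : R} {p n : ℕ}
    (f : Hk R z →ₗ[R] R) (hf : IsTrace (p * n) f) {w : BW} (hw : Valid n w) {js : List ℕ}
    (hjs : ∀ j ∈ js, j < n) {k k' : ℕ} (hk : k < n) (hkk : (prm w).SameCycle k k') :
    k' < n ∧ f ((wd (cab p w) : Hk R z) * ins p (k :: js)) =
      f ((wd (cab p w) : Hk R z) * ins p (k' :: js)) := by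
  obtain ⟨i, hi⟩ := hkk
  obtain ⟨m, hm | hm⟩ := Int.eq_nat_or_neg i
  · rw [hm, zpow_natCast] at hi
    rw [← hi]
    exact FTgen_pow h1 h2 f hf hw hjs hk m
  · rw [hm, zpow_neg, zpow_natCast] at hi
    have h3 : (prm w ^ m) k' = k := by rw [← hi]; simp
    have h4 : k' < n := by
      by_contra h5
      rw [FTgen_pow_fix hw (not_lt.1 h5)] at h3
      omega
    refine ⟨h4, ?_⟩
    have h5 := (FTgen_pow h1 h2 f hf hw hjs h4 m).2
    rw [h3] at h5
    exact h5.symm

theorem FTgen_forall (h1 : S_cab) (h2 : S_ins) {R : Type} [CommRing R] {z : R} {p n : ℕ}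
    (f : Hk R z →ₗ[R] R) (hf : IsTrace (p * n) f) {w : BW} (hw : Valid n w) {js js' : List ℕ}
    (h : List.Forall₂ (prm w).SameCycle js js') :
    (∀ j ∈ js, j < n) → ∀ l : List ℕ, (∀ j ∈ l, j < n) →
      f ((wd (cab p w) : Hk R z) * ins p (js ++ l)) =
        f ((wd (cab p w) : Hk R z) * ins p (js' ++ l)) := by
  have i4 := (h2 R z p).2.2.2.1
  induction h with
  | nil => intro _ l _; rfl
  | @cons a b js js' hab _ ih =>
    intro hjs l hl
    have ha : a < n := hjs a List.mem_cons_self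
    have hjs' : ∀ j ∈ js, j < n := fun j hj => hjs j (List.mem_cons_of_mem _ hj)
    have hjl : ∀ j ∈ js ++ l, j < n := by
      intro j hj
      rcases List.mem_append.1 hj with hj | hj
      · exact hjs' j hj
      · exact hl j hj
    obtain ⟨hb, e⟩ := FTgen_cyc h1 h2 f hf hw hjl ha hab
    have hbl : ∀ j ∈ b :: l, j < n := by
      intro j hj
      rcases List.mem_cons.1 hj with hj | hj
      · rw [hj]; exact hb
      · exact hl j hj
    have e2 := ih hjs' (b :: l) hbl
    rw [List.cons_append, List.cons_append, e, i4 (b :: (js ++ l)) (js ++ b :: l)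
      List.perm_middle.symm, e2, i4 (js' ++ b :: l) (b :: (js' ++ l)) List.perm_middle]

theorem FTgen_push (h1 : S_cab) {R : Type} [CommRing R] {z : R} (p : ℕ) (y : BW) (js : List ℕ) :
    (wd (cab p y) : Hk R z) * ins p js = ins p (js.map (prm y)) * wd (cab p y) := by
  have c3 := (h1.2.2 R z p).1
  induction js with
  | nil =>
    have e : (ins p [] : Hk R z) = 1 := rfl
    rw [List.map_nil, e, mul_one, one_mul]
  | cons k js ih =>
    rw [List.map_cons, FTgen_ins_cons, FTgen_ins_cons, ← mul_assoc,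
      c3 y k (betaE p) (FTgen_betaE_mem p), mul_assoc, ih, mul_assoc]

theorem t_FTgen (h1 : S_cab) (h2 : S_ins) (h3 : S_hom) (h4 : S_transv) : S_FTgen := by
  intro R _ z dl a ai p n ha hz
  have hf : IsTrace (p * n) (hom dl a (p * n) : Hk R z →ₗ[R] R) := (h3 R z a ai dl ha hz).1 (p * n)
  refine ⟨?_, ?_⟩
  · intro w js js' hw ht ht'
    obtain ⟨js'', hp, hF⟩ := h4.2.2.1 n w js js' hw ht ht'
    have e := FTgen_forall h1 h2 (hom dl a (p * n) : Hk R z →ₗ[R] R) hf hw hF ht.2.1 [] (by simp)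
    have i4 := (h2 R z p).2.2.2.1
    rw [List.append_nil, List.append_nil, i4 js'' js' hp] at e
    unfold FT
    rw [e, hF.length_eq, hp.length_eq]
  · intro x y js hv ht
    have hx : Valid n x := fun l hl => hv l (List.mem_append_left _ hl)
    have hy : Valid n y := fun l hl => hv l (List.mem_append_right _ hl)
    have hlt : ∀ j ∈ js.map (prm y), j < n := by
      intro j hj
      rw [List.mem_map] at hj
      obtain ⟨i, hi, rfl⟩ := hj
      exact FTgen_prm_lt hy (ht.2.1 i hi)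
    have i3 := (h2 R z p).2.2.1
    have mx : (wd (cab p x) : Hk R z) ∈ (Hs (p * n) : Subalgebra R (Hk R z)) :=
      wd_mem_Hs (h1.1 p n x hx)
    have my : (wd (cab p y) : Hk R z) ∈ (Hs (p * n) : Subalgebra R (Hk R z)) :=
      wd_mem_Hs (h1.1 p n y hy)
    have mi : (ins p (js.map (prm y)) : Hk R z) ∈ (Hs (p * n) : Subalgebra R (Hk R z)) :=
      i3 n _ hlt
    unfold FT
    rw [List.length_map, h1.2.1 p x y, h1.2.1 p y x, wd_append, wd_append, mul_assoc,
      FTgen_push h1, ← mul_assoc, hf _ (mul_mem mx mi) _ my, mul_assoc (wd (cab p y))]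

end Pool.Agent.H873
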