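import Pool.Agent.Helper873_Hecke.Stmts2

set_option autoImplicit false

/-!
# Assembly of the final statement from its parts
-/

namespace Pool.Agent.H873

open Equiv Hk

/-- ring homomorphisms out of `ℤ[Y][a, a⁻¹]` -/
theorem FinalAsm_ext {S : Type*} [CommRing S] {f g : LaurentPolynomial (Polynomial ℤ) →+* S}
    (hY : f (LaurentPolynomial.C Polynomial.X) = g (LaurentPolynomial.C Polynomial.X))
    (hT : f (LaurentPolynomial.T 1) = g (LaurentPolynomial.T 1)) : f = g := by
  have hC : ∀ r : Polynomial ℤ, f (LaurentPolynomial.C r) = g (LaurentPolynomial.C r) := by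
    intro r
    have : (f.comp (LaurentPolynomial.C : Polynomial ℤ →+* _)) =
        (g.comp (LaurentPolynomial.C : Polynomial ℤ →+* _)) := by
      refine Polynomial.ringHom_ext (fun a => ?_) ?_
      · simp only [eq_intCast, map_intCast]
      · exact hY
    exact congrArg (fun F => F r) this
  have hTn : ∀ n : ℤ, f (LaurentPolynomial.T n) = g (LaurentPolynomial.T n) := by
    have h1 : f (LaurentPolynomial.T (-1)) = g (LaurentPolynomial.T (-1)) := by
      have e1 : f (LaurentPolynomial.T 1) * f (LaurentPolynomial.T (-1)) = 1 := by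
        rw [← map_mul, ← LaurentPolynomial.T_add]; simp
      have e2 : g (LaurentPolynomial.T 1) * g (LaurentPolynomial.T (-1)) = 1 := by
        rw [← map_mul, ← LaurentPolynomial.T_add]; simp
      calc f (LaurentPolynomial.T (-1)) =
          f (LaurentPolynomial.T (-1)) * (g (LaurentPolynomial.T 1) * g (LaurentPolynomial.T (-1))) := by
            rw [e2, mul_one]
        _ = (f (LaurentPolynomial.T 1) * f (LaurentPolynomial.T (-1))) *
            g (LaurentPolynomial.T (-1)) := by rw [hT]; ring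
        _ = _ := by rw [e1, one_mul]
    intro n
    obtain ⟨m, rfl | rfl⟩ := n.eq_nat_or_neg
    · have : (LaurentPolynomial.T (m : ℤ) : LaurentPolynomial (Polynomial ℤ)) =
          LaurentPolynomial.T 1 ^ m := by rw [LaurentPolynomial.T_pow]; simp
      rw [this, map_pow, map_pow, hT]
    · have : (LaurentPolynomial.T (-(m : ℤ)) : LaurentPolynomial (Polynomial ℤ)) =
          LaurentPolynomial.T (-1) ^ m := by rw [LaurentPolynomial.T_pow]; simp
      rw [this, map_pow, map_pow, h1]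
  refine RingHom.ext (fun F => ?_)
  induction F using LaurentPolynomial.induction_on' with
  | add p q hp hq => rw [map_add, map_add, hp, hq]
  | C_mul_T n r => rw [map_mul, map_mul, hC, hTn]

/-- the ring homomorphism `ℤ[Y][a, a⁻¹] → S`, `Y ↦ y`, `a ↦ u` -/
noncomputable def FinalAsm_ev {S : Type*} [CommRing S] (y : S) (u : Sˣ) :
    LaurentPolynomial (Polynomial ℤ) →+* S :=
  LaurentPolynomial.eval₂ (Polynomial.eval₂RingHom (Int.castRingHom S) y) u

/-- `aeval` as `eval₂` -/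
theorem FinalAsm_aeval {S : Type*} [CommRing S] (y : S) (f : Polynomial ℤ) :
    Polynomial.aeval y f = Polynomial.eval₂ (Int.castRingHom S) y f := rfl

theorem FinalAsm_ev_C {S : Type*} [CommRing S] (y : S) (u : Sˣ) (f : Polynomial ℤ) :
    FinalAsm_ev y u (LaurentPolynomial.C f) = Polynomial.eval₂ (Int.castRingHom S) y f := by
  unfold FinalAsm_ev
  rw [LaurentPolynomial.eval₂_C]
  rfl

theorem FinalAsm_ev_T {S : Type*} [CommRing S] (y : S) (u : Sˣ) (n : ℤ) :
    FinalAsm_ev y u (LaurentPolynomial.T n) = ((u ^ n : Sˣ) : S) := by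
  unfold FinalAsm_ev
  rw [LaurentPolynomial.eval₂_T]

/-- the unit `T n` -/
noncomputable def FinalAsm_uT (R : Type*) [CommRing R] (n : ℤ) : (LaurentPolynomial R)ˣ where
  val := LaurentPolynomial.T n
  inv := LaurentPolynomial.T (-n)
  val_inv := by rw [← LaurentPolynomial.T_add]; simp
  inv_val := by rw [← LaurentPolynomial.T_add]; simp

theorem FinalAsm_range (F : LaurentPolynomial (Polynomial ℤ)) (u : Kqaˣ) (hu : (u : Kqa) = va) :
    FinalAsm_ev (vz ^ 2) u F ∈ Aza := by
  have hz : vz ^ 2 ∈ Aza := Subring.subset_closure (by simp)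
  have ha : va ∈ Aza := Subring.subset_closure (by simp)
  have hai : va⁻¹ ∈ Aza := Subring.subset_closure (by simp)
  have hui : ((u⁻¹ : Kqaˣ) : Kqa) = va⁻¹ := by rw [Units.val_inv_eq_inv_val, hu]
  induction F using LaurentPolynomial.induction_on' with
  | add p q hp hq => rw [map_add]; exact add_mem hp hq
  | C_mul_T n r =>
    rw [map_mul, FinalAsm_ev_C, FinalAsm_ev_T]
    refine mul_mem ?_ ?_
    · rw [Polynomial.eval₂_eq_sum_range]
      refine sum_mem (fun i _ => mul_mem ?_ (pow_mem hz i))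
      rw [eq_intCast]
      exact intCast_mem _ _
    · obtain ⟨m, rfl | rfl⟩ := n.eq_nat_or_neg
      · rw [zpow_natCast, Units.val_pow_eq_pow_val, hu]; exact pow_mem ha m
      · rw [zpow_neg, zpow_natCast, ← inv_pow, Units.val_pow_eq_pow_val, hui]; exact pow_mem hai m

theorem FinalAsm_zpow (m : ℕ) (t : ℤ) (l : ℕ) (h : Even (t - (l : ℤ))) :
    ((-1 : Kqa) ^ ((m : ℤ) * t)) = (-1) ^ (m * l) := by
  obtain ⟨c, hc⟩ := h
  have : t = (l : ℤ) + 2 * c := by omega
  subst this
  rw [mul_add, zpow_add₀ (by norm_num : (-1 : Kqa) ≠ 0)]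
  have e1 : (-1 : Kqa) ^ ((m : ℤ) * (2 * c)) = 1 := by
    rw [show (m : ℤ) * (2 * c) = 2 * (m * c) by ring, zpow_mul]
    norm_num
  rw [e1, mul_one, ← Nat.cast_mul, zpow_natCast]

/-- the two sides over `ℤ[Y][a, a⁻¹]` differ by a multiple of `D_p(Y)` -/
theorem FinalAsm_key (hAuniq : S_Auniq) (hMex : S_Mex) (hAM : S_AM)
    (hgm : S_goodmap) (hgood : S_good) (hker : S_ker) (hDD : S_DD) (hcc : S_cabcomps)
    (hdecl : S_decl) (hFG : S_FG) (htr : S_transv)
    (h : ℕ → BW → LaurentPolynomial (Polynomial ℤ))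
    (hh : ARules (LaurentPolynomial.C Polynomial.X) (LaurentPolynomial.T 1)
      (LaurentPolynomial.T (-1)) h) (p : ℕ) (hp : p.Prime) (n : ℕ) (w : BW) (hw : Valid n w) :
    ∃ F', dec p (h (p * n)) ((comps n w).sort (· ≤ ·)) (cab p w) -
      (-1) ^ ((p - 1) * w.length) *
        FinalAsm_ev (LaurentPolynomial.C (Polynomial.X * DD p)) (FinalAsm_uT (Polynomial ℤ) p)
          (h n w) = LaurentPolynomial.C (DD p) * F' := by
  obtain ⟨R0, i0, q0, qi0, z0, good0, hk0⟩ := hgood p hp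
  have goodR := hgm R0 (LaurentPolynomial R0) (LaurentPolynomial.C) p q0 qi0 z0 good0
  set R := LaurentPolynomial R0 with hR
  set q : R := LaurentPolynomial.C q0 with hq
  set qi : R := LaurentPolynomial.C qi0 with hqi
  set z : R := LaurentPolynomial.C z0 with hz
  let φ : LaurentPolynomial (Polynomial ℤ) →+* R := FinalAsm_ev (z ^ 2) (FinalAsm_uT R0 1)
  have φC : ∀ f, φ (LaurentPolynomial.C f) = Polynomial.eval₂ (Int.castRingHom R) (z ^ 2) f :=
    fun f => FinalAsm_ev_C _ _ f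
  have φX : φ (LaurentPolynomial.C Polynomial.X) = z ^ 2 := by rw [φC, Polynomial.eval₂_X]
  have φX' : φ (LaurentPolynomial.C Polynomial.X) = LaurentPolynomial.C (z0 ^ 2) := by
    rw [φX, hz, map_pow]
  have φT1 : φ (LaurentPolynomial.T 1) = LaurentPolynomial.T 1 := by
    show FinalAsm_ev (z ^ 2) (FinalAsm_uT R0 1) (LaurentPolynomial.T 1) = _
    rw [FinalAsm_ev_T, zpow_one]; rfl
  have φTm : φ (LaurentPolynomial.T (-1)) = LaurentPolynomial.T (-1) := by
    show FinalAsm_ev (z ^ 2) (FinalAsm_uT R0 1) (LaurentPolynomial.T (-1)) = _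
    rw [FinalAsm_ev_T, zpow_neg, zpow_one]; rfl
  refine hker R0 (z0 ^ 2) (DD p) (fun f hf => hk0 f hf) φ φX' φT1 _ ?_
  rw [map_sub, sub_eq_zero, map_mul, map_pow, map_neg, map_one]
  -- the ring of Laurent polynomials over `R0`
  have hTT : (LaurentPolynomial.T 1 : R) * LaurentPolynomial.T (-1) = 1 := by
    rw [← LaurentPolynomial.T_add]; simp
  obtain ⟨zi, hzi⟩ := goodR.zunit.exists_right_inv
  let dl : R := zi * (LaurentPolynomial.T 1 - LaurentPolynomial.T (-1))
  have hdl : z * dl = LaurentPolynomial.T 1 - LaurentPolynomial.T (-1) := by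
    show z * (zi * _) = _
    rw [← mul_assoc, hzi, one_mul]
  have hM := hMex R z (LaurentPolynomial.T 1) (LaurentPolynomial.T (-1)) dl hTT hdl
  have hA := hAM R z (LaurentPolynomial.T 1) (LaurentPolynomial.T (-1)) dl _ hdl hM
  have hφh := hh.map φ
  rw [φX, φT1, φTm] at hφh
  have huniq : ∀ m v, Valid m v → φ (h m v) = z ^ (comps m v).card *
      hom dl (LaurentPolynomial.T 1) m (wd v : Hk R z) := fun m v hv =>
    hAuniq R _ _ _ _ _ hφh hA m v hv
  -- left-hand side
  have hlen : ((comps n w).sort (· ≤ ·)).length = (comps n w).card := Finset.length_sort _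
  have hL : φ (dec p (h (p * n)) ((comps n w).sort (· ≤ ·)) (cab p w)) =
      FT z dl (LaurentPolynomial.T 1) p n w ((comps n w).sort (· ≤ ·)) := by
    rw [hdecl.2.1 _ _ φ]
    rw [hdecl.1 R p (fun v => φ (h (p * n) v)) (fun v => z ^ (comps n w).card *
      hom dl (LaurentPolynomial.T 1) (p * n) (wd v : Hk R z)) _ _ ?_]
    · rw [← hdecl.2.2.1, hdecl.2.2.2]
      unfold FT
      rw [hlen]
    · intro ks hks hk
      have := hcc p n w ks hp.pos hw (by rw [hks]; exact htr.1 n w hw) hk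
      rw [huniq _ _ this.1, this.2]
      rw [← hlen, ← hks, List.length_map]
  rw [hL]
  -- right-hand side
  let Ψ : LaurentPolynomial (Polynomial ℤ) →+* LaurentPolynomial (Polynomial ℤ) :=
    FinalAsm_ev (LaurentPolynomial.C (Polynomial.X * DD p)) (FinalAsm_uT (Polynomial ℤ) p)
  have hg := (hh.map Ψ).map φ
  have e1 : φ (Ψ (LaurentPolynomial.C Polynomial.X)) = 0 := by
    show φ (FinalAsm_ev _ _ (LaurentPolynomial.C Polynomial.X)) = 0
    rw [FinalAsm_ev_C, Polynomial.eval₂_X, φC, Polynomial.eval₂_mul]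
    have h3 := (hDD.1 R q qi goodR.inv p).1
    rw [← goodR.zdef, goodR.sq, FinalAsm_aeval] at h3
    rw [← h3, mul_zero]
  have e2 : φ (Ψ (LaurentPolynomial.T 1)) = LaurentPolynomial.T 1 ^ p := by
    show φ (FinalAsm_ev _ _ (LaurentPolynomial.T 1)) = _
    rw [FinalAsm_ev_T, zpow_one]
    show φ (LaurentPolynomial.T (p : ℤ)) = _
    rw [show (LaurentPolynomial.T (p : ℤ) : LaurentPolynomial (Polynomial ℤ)) =
      LaurentPolynomial.T 1 ^ p by rw [LaurentPolynomial.T_pow]; simp, map_pow, φT1]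
  have e3 : φ (Ψ (LaurentPolynomial.T (-1))) = LaurentPolynomial.T (-1) ^ p := by
    show φ (FinalAsm_ev _ _ (LaurentPolynomial.T (-1))) = _
    rw [FinalAsm_ev_T, zpow_neg, zpow_one]
    show φ (LaurentPolynomial.T (-(p : ℤ))) = _
    rw [show (LaurentPolynomial.T (-(p : ℤ)) : LaurentPolynomial (Polynomial ℤ)) =
      LaurentPolynomial.T (-1) ^ p by rw [LaurentPolynomial.T_pow]; simp, map_pow, φTm]
  rw [e1, e2, e3] at hg
  exact hFG R p q qi z goodR (LaurentPolynomial.T 1) (LaurentPolynomial.T (-1)) dl hTT hdl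
    (fun n w => φ (Ψ (h n w))) hg.toLRules n w _ hw (htr.1 n w hw)

/-- the final statement from its parts -/
theorem t_final (hAuniq : S_Auniq) (hMuniq : S_Muniq) (hMex : S_Mex) (hAM : S_AM) (hAex : S_Aex)
    (hDD : S_DD) (hgm : S_goodmap) (hgood : S_good) (hker : S_ker) (hpar : S_parity)
    (hcc : S_cabcomps) (hdecl : S_decl) (hsupp : S_supp) (hdecP : S_decP) (hP1 : S_P1)
    (hK : S_Kqa) (hFG : S_FG) (htr : S_transv) : S_final := by
  obtain ⟨hK1, hq0, ha0, hz0, hqn, hqbr, hcbr⟩ := hK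
  have hdlz : vz * ((va - va⁻¹) / vz) = va - va⁻¹ := by field_simp
  have haa : va * va⁻¹ = 1 := mul_inv_cancel₀ ha0
  have hM0 := hMex Kqa vz va va⁻¹ ((va - va⁻¹) / vz) haa hdlz
  refine ⟨⟨_, hM0⟩, fun H H' h1 h2 n w hw => hMuniq Kqa _ _ _ _ H H' h1 h2 n w hw, ?_⟩
  intro H hH p hp n w hw
  obtain ⟨h, hh⟩ := hAex
  obtain ⟨F', hF'⟩ := FinalAsm_key hAuniq hMex hAM hgm hgood hker hDD hcc hdecl hFG htr h hh p hp
    n w hw
  let u : Kqaˣ := Units.mk0 va ha0
  have hu : (u : Kqa) = va := rfl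
  let φ : LaurentPolynomial (Polynomial ℤ) →+* Kqa := FinalAsm_ev (vz ^ 2) u
  have φC : ∀ f, φ (LaurentPolynomial.C f) = Polynomial.eval₂ (Int.castRingHom Kqa) (vz ^ 2) f :=
    fun f => FinalAsm_ev_C _ _ f
  have φX : φ (LaurentPolynomial.C Polynomial.X) = vz ^ 2 := by rw [φC, Polynomial.eval₂_X]
  have φT : ∀ k : ℤ, φ (LaurentPolynomial.T k) = va ^ k := by
    intro k
    show FinalAsm_ev (vz ^ 2) u (LaurentPolynomial.T k) = _
    rw [FinalAsm_ev_T, Units.val_zpow_eq_zpow_val, hu]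
  have hφh := hh.map φ
  rw [φX, φT, φT, zpow_one, zpow_neg, zpow_one] at hφh
  -- `z^L H` is the image of `h`
  have huniq : ∀ (G : ℕ → BW → Kqa), MRules vz va va⁻¹ ((va - va⁻¹) / vz) G → ∀ m v, Valid m v →
      vz ^ (comps m v).card * G m v = φ (h m v) := fun G hG m v hv =>
    hAuniq Kqa _ _ _ _ _ (hAM Kqa _ _ _ _ G hdlz hG) hφh m v hv
  have hc1 : cbr 1 = vz := by unfold cbr vz; rw [pow_one, pow_one]
  have hZ1 : Zv H 1 n w = φ (h n w) := by
    unfold Zv
    rw [(hP1 Kqa vq n w).1, (hP1 Kqa vq n w).2, hc1, one_mul, huniq H hH n w hw]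
  have hlen : ((comps n w).sort (· ≤ ·)).length = (comps n w).card := Finset.length_sort _
  have hZp : Zv H p n w = φ (dec p (h (p * n)) ((comps n w).sort (· ≤ ·)) (cab p w)) := by
    unfold Zv
    rw [hsupp Kqa vq p n w (H (p * n))
      (fun v => hom ((va - va⁻¹) / vz) va (p * n) (wd v : Hk Kqa vz)) hw
      (fun v hv => hMuniq Kqa _ _ _ _ H _ hH hM0 (p * n) v hv)]
    rw [hcbr p, mul_pow, mul_assoc]
    rw [hdecP Kqa vq va vz ((va - va⁻¹) / vz) hq0 ha0 rfl hdlz hqn p n w hp.pos hw]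
    rw [hdecl.2.2.1, hdecl.2.1 _ _ φ]
    refine hdecl.1 Kqa p _ _ _ _ ?_
    intro ks hks hk
    have := hcc p n w ks hp.pos hw (by rw [hks]; exact htr.1 n w hw) hk
    rw [← huniq _ hM0 _ _ this.1, this.2, ← hlen, ← hks, List.length_map]
  -- the Adams operator
  let Ψ : LaurentPolynomial (Polynomial ℤ) →+* LaurentPolynomial (Polynomial ℤ) :=
    FinalAsm_ev (LaurentPolynomial.C (Polynomial.X * DD p)) (FinalAsm_uT (Polynomial ℤ) p)
  have hqi : vq * vq⁻¹ = 1 := mul_inv_cancel₀ hq0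
  have hΨ : ∀ F, φ (Ψ F) = adams p hp.pos (φ F) := by
    have : φ.comp Ψ = (adams p hp.pos).comp φ := by
      refine FinalAsm_ext ?_ ?_
      · show φ (FinalAsm_ev _ _ (LaurentPolynomial.C Polynomial.X)) = adams p hp.pos (φ _)
        rw [FinalAsm_ev_C, Polynomial.eval₂_X, φC, Polynomial.eval₂_mul, Polynomial.eval₂_X, φX,
          map_pow]
        obtain ⟨h1, h2⟩ := hDD.1 Kqa vq vq⁻¹ hqi p
        have hvz : vq - vq⁻¹ = vz := rfl
        rw [hvz] at h1 h2
        rw [FinalAsm_aeval] at h1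
        rw [← h1, ← mul_pow, h2]
        congr 1
        rw [← hvz, map_sub, map_inv₀, (hK1 p hp.pos).1, inv_pow]
      · show φ (FinalAsm_ev _ _ (LaurentPolynomial.T 1)) = adams p hp.pos (φ _)
        rw [FinalAsm_ev_T, zpow_one]
        show φ (LaurentPolynomial.T (p : ℤ)) = _
        rw [φT, φT, zpow_one, zpow_natCast, (hK1 p hp.pos).2]
    intro F
    exact congrArg (fun G => G F) this
  have hsgn : ((-1 : Kqa) ^ (((p : ℤ) - 1) * totalFraming w)) = (-1) ^ ((p - 1) * w.length) := by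
    have := FinalAsm_zpow (p - 1) (totalFraming w) w.length (hpar n w hw)
    rw [Nat.cast_sub hp.one_lt.le, Nat.cast_one] at this
    exact this
  have hfin : Zv H p n w - (-1) ^ (((p : ℤ) - 1) * totalFraming w) * adams p hp.pos (Zv H 1 n w) =
      qbr p ^ 2 * φ F' := by
    rw [hZp, hZ1, hsgn, ← hΨ]
    have h5 : φ (dec p (h (p * n)) ((comps n w).sort (· ≤ ·)) (cab p w) -
        (-1) ^ ((p - 1) * w.length) * Ψ (h n w)) = φ (LaurentPolynomial.C (DD p) * F') :=
      congrArg φ hF'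
    rw [map_sub, map_mul φ, map_pow, map_neg, map_one, map_mul φ, φC] at h5
    obtain ⟨h1, h2⟩ := hDD.1 Kqa vq vq⁻¹ hqi p
    have hvz : vq - vq⁻¹ = vz := rfl
    rw [hvz, FinalAsm_aeval] at h1
    rw [hqbr p, h1]
    exact h5
  rw [hfin]
  have hq2 : qbr p ^ 2 ≠ 0 := by rw [hqbr]; exact pow_ne_zero 2 (hqn p hp.pos)
  rw [mul_div_cancel_left₀ _ hq2]
  exact FinalAsm_range F' u hu

end Pool.Agent.H873
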