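import Mathlib

set_option autoImplicit false

/-!
# Closed braids, components, blackboard framing, cables, the framed HOMFLY-PT rules

A braid word is read from the top (left) to the bottom (right) of the braid; the letter `(i, true)`
is the positive crossing `σ_i` of the strands at the positions `i` and `i + 1`, the letter
`(i, false)` the negative crossing `σ_i⁻¹` (positions are `0, 1, 2, …`).
-/

namespace Pool.Agent.H873

open Equiv Finset

/-- braid words -/
abbrev BW := List (ℕ × Bool)

/-- `w` is a word on `n` strands -/
def Valid (n : ℕ) (w : BW) : Prop := ∀ l ∈ w, l.1 + 1 < n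

/-- the permutation: the strand at the bottom position `j` ends at the top position `prm w j` -/
def prm (w : BW) : Perm ℕ := (w.map fun l => swap l.1 (l.1 + 1)).prod

open Classical in
/-- the components of the closure of a word on `n` strands, that is the cycles of `prm w` on
`{0, …, n - 1}`; each cycle is represented by its least element -/
noncomputable def comps (n : ℕ) (w : BW) : Finset ℕ :=
  (range n).filter (fun j => ∀ k : ℕ, j ≤ (prm w ^ k) j)

open Classical in
/-- the signed number of crossings of `v` between strands of the same cycle of `π` -/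
noncomputable def selfCr (π : Perm ℕ) : BW → ℤ
  | [] => 0
  | l :: v => (if π.SameCycle ((prm v)⁻¹ l.1) ((prm v)⁻¹ (l.1 + 1)) then (if l.2 then 1 else -1)
      else 0) + selfCr π v

/-- the total blackboard framing of the closure: the signed number of self-crossings of all
components -/
noncomputable def totalFraming (w : BW) : ℤ := selfCr (prm w) w

/-- the letters `a, a + 1, …, a + n - 1`, all of sign `e` -/
def upw (a n : ℕ) (e : Bool) : BW := (List.range n).map (fun i => (a + i, e))

/-- the letters `a + n - 1, …, a + 1, a`, all of sign `e` -/
def dnw (a n : ℕ) (e : Bool) : BW := (upw a n e).reverse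

/-- the crossing of a bunch of `s` parallel strands (positions `k, …, k + s - 1`) with a bunch of `r`
parallel strands (positions `k + s, …, k + s + r - 1`), all `s * r` crossings having sign `e` -/
def xw (e : Bool) (k s r : ℕ) : BW := (List.range s).flatMap (fun i => dnw (k + i) r e)

/-- the `p`-strand cable of a word -/
def cab (p : ℕ) (w : BW) : BW := w.flatMap (fun l => xw l.2 (p * l.1) p p)

/-- the braid `σ_o ⋯ σ_{o+k-1} σ_{o+k}⁻¹ ⋯ σ_{o+p-2}⁻¹` on the `p` strands at the positions
`o, …, o + p - 1`, `k < p` -/
def bet (o p k : ℕ) : BW := upw o k true ++ upw (o + k) (p - 1 - k) false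

/-- the multilinear extension: insert `Σ_{k < p} bet` into each bunch of the list -/
def dec {K : Type*} [AddCommMonoid K] (p : ℕ) (H : BW → K) : List ℕ → BW → K
  | [], w => H w
  | j :: js, w => ∑ k ∈ range p, dec p H js (w ++ bet (p * j) p k)

/-- The rules of the framed HOMFLY-PT invariant of blackboard framed closed braids: invariance under
the relations of the braid group and under conjugation, the skein relation
`X₊ - X₋ = z X₀`, a positive curl is `ap` times and a negative curl is `am` times the straight
strand, a split circle is `dl`, the empty diagram is `1`. -/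
structure MRules {R : Type*} [CommRing R] (z ap am dl : R) (H : ℕ → BW → R) : Prop where
  empty : H 0 [] = 1
  circle : ∀ n w, Valid n w → H (n + 1) w = dl * H n w
  far : ∀ n x y i j e f, i + 2 ≤ j → Valid n (x ++ (i, e) :: (j, f) :: y) →
    H n (x ++ (i, e) :: (j, f) :: y) = H n (x ++ (j, f) :: (i, e) :: y)
  braid : ∀ n x y i, Valid n (x ++ (i, true) :: (i + 1, true) :: (i, true) :: y) →
    H n (x ++ (i, true) :: (i + 1, true) :: (i, true) :: y) =
      H n (x ++ (i + 1, true) :: (i, true) :: (i + 1, true) :: y)
  cancel : ∀ n x y i e, Valid n (x ++ y) → i + 1 < n →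
    H n (x ++ (i, e) :: (i, !e) :: y) = H n (x ++ y)
  conj : ∀ n x y, Valid n (x ++ y) → H n (x ++ y) = H n (y ++ x)
  skein : ∀ n x y i, Valid n (x ++ y) → i + 1 < n →
    H n (x ++ (i, true) :: y) - H n (x ++ (i, false) :: y) = z * H n (x ++ y)
  curl : ∀ n w e, Valid (n + 1) w →
    H (n + 2) (w ++ [(n, e)]) = (if e then ap else am) * H (n + 1) w

end Pool.Agent.H873
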