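import Pool.Agent.Helper873_Hecke.Shift
import Pool.Agent.Helper873_Hecke.Link

set_option autoImplicit false

/-!
# Elements of the Hecke algebra used in the proof; Casimir and dual basis identities
-/

namespace Pool.Agent.H873

open Equiv

/-- the permutation of a word, as an element of `G` -/
def pw (w : BW) : G := (w.map fun l => s l.1).prod

theorem pw_val (w : BW) : (pw w).1 = prm w := by
  unfold pw prm
  induction w with
  | nil => rfl
  | cons l w ih => rw [List.map_cons, List.prod_cons, List.map_cons, List.prod_cons, ← ih]; rfl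

namespace Hk

variable {R : Type*} [CommRing R] {z : R}

/-- the value of a word -/
noncomputable def wd (w : BW) : Hk R z := (w.map fun l => gen l.2 l.1).prod

theorem wd_nil : (wd [] : Hk R z) = 1 := rfl
theorem wd_cons (l : ℕ × Bool) (w : BW) : (wd (l :: w) : Hk R z) = gen l.2 l.1 * wd w := by
  unfold wd; rw [List.map_cons, List.prod_cons]
theorem wd_append (v w : BW) : (wd (v ++ w) : Hk R z) = wd v * wd w := by
  unfold wd; rw [List.map_append, List.prod_append]

theorem wd_mem_Hs {n : ℕ} {w : BW} (h : Valid n w) : (wd w : Hk R z) ∈ Hs n := by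
  induction w with
  | nil => exact one_mem _
  | cons l w ih =>
    rw [wd_cons]
    exact mul_mem (gen_mem_Hs _ (h l List.mem_cons_self)) (ih fun x hx => h x (List.mem_cons_of_mem _ hx))

theorem sh_wd (k : ℕ) (w : BW) :
    sh k (wd w : Hk R z) = wd (w.map fun l => (l.1 + k, l.2)) := by
  induction w with
  | nil => rw [wd_nil, map_one]; rfl
  | cons l w ih => rw [wd_cons, map_mul, sh_gen, ih, List.map_cons, wd_cons]

/-- the elements `L_i = (J_i - 1)/z`: `L_0 = 0`, `L_{i+1} = σ_i L_i σ_i + σ_i` -/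
noncomputable def L : ℕ → Hk R z
  | 0 => 0
  | i + 1 => sg i * L i * sg i + sg i

/-- the Jucys-Murphy elements `J_i = 1 + z L_i` -/
noncomputable def J (i : ℕ) : Hk R z := 1 + z • L i

/-- `Θ_n = ∏_{1 ≤ i < n} (d + α L_i)` -/
noncomputable def th (d al : R) : ℕ → Hk R z
  | 0 => 1
  | 1 => 1
  | n + 2 => th d al (n + 1) * (d • 1 + al • L (n + 1))

/-- the Markov functional `x ↦ τ(x Θ_n)` -/
noncomputable def Mk (d al : R) (n : ℕ) : Hk R z →ₗ[R] R := tau ∘ₗ rmul (th d al n)

theorem Mk_apply (d al : R) (n : ℕ) (x : Hk R z) : Mk d al n x = tau (x * th d al n) := rfl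

/-- `α_+ = α`, `α_- = α - z d` -/
def apm (z d al : R) (e : Bool) : R := if e then al else al - z * d

/-- the product of the `σ_i`, `i ∈ I`, in increasing order -/
noncomputable def cI (I : Finset ℕ) : Hk R z := ((I.sort (· ≤ ·)).map sg).prod

/-- `β = Σ_{k < m} β_k` -/
noncomputable def betaE (m : ℕ) : Hk R z := ∑ k ∈ Finset.range m, wd (bet 0 m k)

/-- the word of the full twist (of sign `e`) on the `r` strands at positions `k, …, k + r - 1` -/
def dw (e : Bool) : ℕ → ℕ → BW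
  | _, 0 => []
  | k, r + 1 => dnw k r e ++ dw e (k + 1) r ++ upw k r e

/-- the unit property of `z ∈ R` at the prime `p` -/
def PU (p : ℕ) (z : R) : Prop :=
  ∀ u : Polynomial ℤ, ¬ ((p : ℤ) ∣ u.eval 0) → IsUnit (Polynomial.aeval z u)

/-! ### Casimir -/

section Casimir

variable {M : Type*} [AddCommGroup M] [Module R M]

theorem s_eq_emb {m i : ℕ} (h : i + 1 < m) :
    ∃ g : Perm (Fin m), emb m g = s i ∧ g * g = 1 := by
  obtain ⟨g, hg⟩ := exists_emb (s_mem_SS h)
  refine ⟨g, hg, emb_injective m ?_⟩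
  rw [map_mul, hg, s_sq, map_one]

theorem casimir_sg {m i : ℕ} (h : i + 1 < m) (F : Hk R z →ₗ[R] Hk R z →ₗ[R] M) :
    ∑ g : Perm (Fin m), F (T (emb m g) * sg i) (T (emb m g⁻¹)) =
      ∑ g : Perm (Fin m), F (T (emb m g)) (sg i * T (emb m g⁻¹)) := by
  classical
  obtain ⟨t, ht, htt⟩ := s_eq_emb h
  have htinv : t⁻¹ = t := by rw [inv_eq_iff_mul_eq_one]; exact htt
  have e1 : ∀ g : Perm (Fin m), F (T (emb m g) * sg i) (T (emb m g⁻¹)) =
      F (T (emb m (g * t))) (T (emb m g⁻¹)) +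
        if RA i (emb m g) then 0 else z • F (T (emb m g)) (T (emb m g⁻¹)) := by
    intro g
    rw [map_mul (emb m), ht]
    split_ifs with h1
    · rw [T_mul_sg_asc h1, add_zero]
    · rw [T_mul_sg_desc h1, map_add, map_smul, LinearMap.add_apply, LinearMap.smul_apply]
  have e2 : ∀ g : Perm (Fin m), F (T (emb m g)) (sg i * T (emb m g⁻¹)) =
      F (T (emb m g)) (T (emb m (g * t)⁻¹)) +
        if RA i (emb m g) then 0 else z • F (T (emb m g)) (T (emb m g⁻¹)) := by
    intro g
    have h3 : LA i (emb m g⁻¹) ↔ RA i (emb m g) := by rw [map_inv, LA_inv]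
    rw [mul_inv_rev, htinv, map_mul (emb m), ht]
    split_ifs with h1
    · rw [sg_mul_T_asc (h3.2 h1), add_zero]
    · rw [sg_mul_T_desc (fun h4 => h1 (h3.1 h4)), map_add, map_smul]
  rw [Finset.sum_congr rfl (fun g _ => e1 g), Finset.sum_congr rfl (fun g _ => e2 g),
    Finset.sum_add_distrib, Finset.sum_add_distrib]
  congr 1
  rw [← Equiv.sum_comp (Equiv.mulRight t) (fun g => F (T (emb m g)) (T (emb m (g * t)⁻¹)))]
  apply Finset.sum_congr rfl
  intro g _
  simp only [Equiv.coe_mulRight]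
  rw [mul_assoc, htt, mul_one]

/-- Casimir identity: `Σ T_w a ⊗ T_{w⁻¹} = Σ T_w ⊗ a T_{w⁻¹}` for `a ∈ H_m` -/
theorem casimir {m : ℕ} {a : Hk R z} (ha : a ∈ Hs m) (F : Hk R z →ₗ[R] Hk R z →ₗ[R] M) :
    ∑ g : Perm (Fin m), F (T (emb m g) * a) (T (emb m g⁻¹)) =
      ∑ g : Perm (Fin m), F (T (emb m g)) (a * T (emb m g⁻¹)) := by
  revert F
  refine Hs_induction (P := fun a => ∀ F : Hk R z →ₗ[R] Hk R z →ₗ[R] M,
    ∑ g : Perm (Fin m), F (T (emb m g) * a) (T (emb m g⁻¹)) =
      ∑ g : Perm (Fin m), F (T (emb m g)) (a * T (emb m g⁻¹))) ?_ ?_ ?_ ?_ ha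
  · intro F; simp only [one_mul, mul_one]
  · intro x _ y _ hx hy F
    simp only [mul_add, add_mul, map_add, LinearMap.add_apply, Finset.sum_add_distrib]
    rw [hx F, hy F]
  · intro r x _ hx F
    simp only [mul_smul_comm, smul_mul_assoc, map_smul, LinearMap.smul_apply]
    rw [← Finset.smul_sum, ← Finset.smul_sum, hx F]
  · intro i hi x _ hx F
    have h1 := casimir_sg hi (F ∘ₗ rmul x)
    have h2 := hx (F.compl₂ (lmul (sg i)))
    simp only [LinearMap.comp_apply, LinearMap.compl₂_apply, lmul_apply, rmul_apply] at h1 h2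
    simp only [mul_assoc] at h1 h2 ⊢
    rw [h1, h2]

/-- Casimir identity: `Σ a T_w ⊗ T_{w⁻¹} = Σ T_w ⊗ T_{w⁻¹} a` for `a ∈ H_m` -/
theorem casimir' {m : ℕ} {a : Hk R z} (ha : a ∈ Hs m) (F : Hk R z →ₗ[R] Hk R z →ₗ[R] M) :
    ∑ g : Perm (Fin m), F (a * T (emb m g)) (T (emb m g⁻¹)) =
      ∑ g : Perm (Fin m), F (T (emb m g)) (T (emb m g⁻¹) * a) := by
  have h := casimir ha F.flip
  rw [← Equiv.sum_comp (Equiv.inv (Perm (Fin m))), ← Equiv.sum_comp (Equiv.inv (Perm (Fin m)))
    (fun g => F.flip (T (emb m g)) (a * T (emb m g⁻¹)))] at h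
  simp only [Equiv.inv_apply, inv_inv, LinearMap.flip_apply] at h
  exact h.symm

end Casimir

theorem Tr_mul_comm {m : ℕ} {a : Hk R z} (ha : a ∈ Hs m) (x : Hk R z) :
    Tr m x * a = a * Tr m x := by
  have h := casimir' ha (LinearMap.mk₂ R (fun u v : Hk R z => u * x * v)
    (fun a b c => by rw [add_mul, add_mul]) (fun r a b => by rw [smul_mul_assoc, smul_mul_assoc])
    (fun a b c => by rw [mul_add]) (fun r a b => by rw [mul_smul_comm]))
  simp only [LinearMap.mk₂_apply] at h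
  unfold Tr
  rw [Finset.sum_mul, Finset.mul_sum]
  simp only [mul_assoc] at h ⊢
  exact h.symm

/-- the linear map `Tr m` -/
noncomputable def TrL (m : ℕ) : Hk R z →ₗ[R] Hk R z where
  toFun := Tr m
  map_add' x y := by
    unfold Tr
    simp only [mul_add, add_mul, Finset.sum_add_distrib]
  map_smul' r x := by
    unfold Tr
    simp only [mul_smul_comm, smul_mul_assoc, RingHom.id_apply, Finset.smul_sum]

theorem Tr_add (m : ℕ) (x y : Hk R z) : Tr m (x + y) = Tr m x + Tr m y := (TrL m).map_add x y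
theorem Tr_smul (m : ℕ) (r : R) (x : Hk R z) : Tr m (r • x) = r • Tr m x := (TrL m).map_smul r x

theorem Tr_comm {m : ℕ} {x : Hk R z} (hx : x ∈ Hs m) (y : Hk R z) : Tr m (x * y) = Tr m (y * x) := by
  have h := casimir hx (LinearMap.mk₂ R (fun u v : Hk R z => u * y * v)
    (fun a b c => by rw [add_mul, add_mul]) (fun r a b => by rw [smul_mul_assoc, smul_mul_assoc])
    (fun a b c => by rw [mul_add]) (fun r a b => by rw [mul_smul_comm]))
  simp only [LinearMap.mk₂_apply] at h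
  unfold Tr
  simp only [mul_assoc] at h ⊢
  exact h

/-- `Tr m (c x) = c Tr m x` if `c` commutes with `H_m` -/
theorem Tr_central_mul {m : ℕ} {c : Hk R z} (hc : ∀ a ∈ (Hs m : Subalgebra R (Hk R z)), a * c = c * a)
    (x : Hk R z) : Tr m (c * x) = c * Tr m x := by
  unfold Tr
  rw [Finset.mul_sum]
  apply Finset.sum_congr rfl
  intro g _
  rw [← mul_assoc, hc _ (T_mem_Hs (emb_mem_SS m g))]
  simp only [mul_assoc]

theorem Tr_mul_central {m : ℕ} {c : Hk R z} (hc : ∀ a ∈ (Hs m : Subalgebra R (Hk R z)), a * c = c * a)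
    (x : Hk R z) : Tr m (x * c) = Tr m x * c := by
  unfold Tr
  rw [Finset.sum_mul]
  apply Finset.sum_congr rfl
  intro g _
  rw [mul_assoc _ _ c, hc _ (T_mem_Hs (emb_mem_SS m g⁻¹))]
  simp only [mul_assoc]

theorem Tr_mem_Hs {m : ℕ} {x : Hk R z} (hx : x ∈ Hs m) : Tr m x ∈ (Hs m : Subalgebra R (Hk R z)) := by
  unfold Tr
  apply Subalgebra.sum_mem
  intro g _
  exact mul_mem (mul_mem (T_mem_Hs (emb_mem_SS m g)) hx) (T_mem_Hs (emb_mem_SS m g⁻¹))

/-- adjunction: `ρ(Tr(x) y) = ρ(x Tr(y))` for a trace functional `ρ` -/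
theorem Tr_adj {M : Type*} [AddCommGroup M] [Module R M] {m : ℕ} {f : Hk R z →ₗ[R] M}
    (hf : IsTrace m f) {x y : Hk R z} (hx : x ∈ Hs m) (hy : y ∈ Hs m) :
    f (Tr m x * y) = f (x * Tr m y) := by
  unfold Tr
  rw [Finset.sum_mul, Finset.mul_sum, map_sum, map_sum,
    ← Equiv.sum_comp (Equiv.inv (Perm (Fin m)))]
  apply Finset.sum_congr rfl
  intro g _
  simp only [Equiv.inv_apply, inv_inv]
  have h1 := T_mem_Hs (R := R) (z := z) (emb_mem_SS m g)
  have h2 := T_mem_Hs (R := R) (z := z) (emb_mem_SS m g⁻¹)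
  rw [mul_assoc, mul_assoc, hf _ h2 _ (mul_mem hx (mul_mem h1 hy))]
  simp only [mul_assoc]

theorem isTrace_tau (m : ℕ) : IsTrace m (tau : Hk R z →ₗ[R] R) := fun x _ y _ => tau_comm x y

theorem tau_Tr (m : ℕ) (x y : Hk R z) : tau (Tr m x * y) = tau (x * Tr m y) := by
  unfold Tr
  rw [Finset.sum_mul, Finset.mul_sum, map_sum, map_sum,
    ← Equiv.sum_comp (Equiv.inv (Perm (Fin m)))]
  apply Finset.sum_congr rfl
  intro g _
  simp only [Equiv.inv_apply, inv_inv]
  rw [mul_assoc, mul_assoc, tau_comm]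
  simp only [mul_assoc]

/-- dual bases: `Σ_w τ(T_w h) T_{w⁻¹} = h` for `h ∈ H_m` -/
theorem dual_basis {m : ℕ} {h : Hk R z} (hh : h ∈ Hs m) :
    ∑ g : Perm (Fin m), tau (T (emb m g) * h) • (T (emb m g⁻¹) : Hk R z) = h := by
  classical
  have key : ∀ w ∈ SS m, ∑ g : Perm (Fin m), tau (T (emb m g) * (T w : Hk R z)) •
      (T (emb m g⁻¹) : Hk R z) = T w := by
    intro w hw
    obtain ⟨g0, rfl⟩ := exists_emb hw
    rw [Finset.sum_eq_single g0⁻¹]
    · rw [tau_T_mul_T, ← map_mul, inv_mul_cancel, map_one, if_pos rfl, one_smul, inv_inv]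
    · intro g _ hg
      rw [tau_T_mul_T, if_neg, zero_smul]
      intro e
      rw [← map_mul] at e
      have e' : emb m (g * g0) = emb m 1 := by rw [e, map_one]
      apply hg
      exact eq_inv_of_mul_eq_one_left (emb_injective m e')
    · intro h; exact absurd (Finset.mem_univ _) h
  have hh' := mem_Hs_iff.1 hh
  have : (∑ g : Perm (Fin m), (LinearMap.smulRight (tau ∘ₗ lmul (T (emb m g)) : Hk R z →ₗ[R] R)
      (T (emb m g⁻¹) : Hk R z))) ∘ₗ proj (SS m) = proj (SS m) := by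
    refine hext (fun w => ?_)
    simp only [LinearMap.comp_apply, LinearMap.sum_apply, LinearMap.smulRight_apply, lmul_apply]
    by_cases hw : w ∈ SS m
    · rw [proj_T_of_mem hw]; exact key w hw
    · rw [proj_T_of_notMem hw]; simp
  have h2 := congrArg (fun f => f h) this
  simp only [LinearMap.comp_apply, LinearMap.sum_apply, LinearMap.smulRight_apply, lmul_apply] at h2
  rw [hh'] at h2
  exact h2

end Hk

end Pool.Agent.H873
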