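import Pool.Agent.Helper873_Hecke.Stmts

set_option autoImplicit false

namespace Pool.Agent.H873

open Equiv Hk

theorem JM_ring_braid {A : Type*} [Ring A] (a b c l : A) (hc : a * a = 1 + c)
    (hca : c * (b * a) = a * (b * c)) (hbr : a * (b * a) = b * (a * b)) (hl : b * l = l * b) :
    a * (b * (a * l * a + a) * b + b) = (b * (a * l * a + a) * b + b) * a := by
  have h1 : a * (b * (a * l * a) * b) = (b * (a * l * a) * b) * a := by
    calc a * (b * (a * l * a) * b) = (a * (b * a)) * l * a * b := by noncomm_ring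
      _ = (b * (a * b)) * l * a * b := by rw [hbr]
      _ = b * a * (b * l) * a * b := by noncomm_ring
      _ = b * a * (l * b) * a * b := by rw [hl]
      _ = b * a * l * (b * (a * b)) := by noncomm_ring
      _ = b * a * l * (a * (b * a)) := by rw [hbr]
      _ = (b * (a * l * a) * b) * a := by noncomm_ring
  have h2 : a * (b * a * b + b) = (b * a * b + b) * a := by
    calc a * (b * a * b + b) = a * (b * (a * b)) + a * b := by noncomm_ring
      _ = a * (a * (b * a)) + a * b := by rw [hbr]
      _ = (a * a) * (b * a) + a * b := by noncomm_ring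
      _ = (1 + c) * (b * a) + a * b := by rw [hc]
      _ = b * a + c * (b * a) + a * b := by noncomm_ring
      _ = b * a + a * (b * c) + a * b := by rw [hca]
      _ = a * b * (1 + c) + b * a := by noncomm_ring
      _ = a * b * (a * a) + b * a := by rw [hc]
      _ = (a * (b * a)) * a + b * a := by noncomm_ring
      _ = (b * (a * b)) * a + b * a := by rw [hbr]
      _ = (b * a * b + b) * a := by noncomm_ring
  calc a * (b * (a * l * a + a) * b + b)
      = a * (b * (a * l * a) * b) + a * (b * a * b + b) := by noncomm_ring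
    _ = (b * (a * l * a) * b) * a + (b * a * b + b) * a := by rw [h1, h2]
    _ = (b * (a * l * a + a) * b + b) * a := by noncomm_ring

theorem JM_ring_mul {A : Type*} [Ring A] (a l m : A) (hm : m = a * l * a + a)
    (hlm : l * m = m * l) : a * (l * m) = l * m * a := by
  have e : a * l * a = m - a := by rw [hm]; abel
  calc a * (l * m) = a * l * (a * l * a + a) := by rw [← hm, mul_assoc]
    _ = (a * l * a) * l * a + a * l * a := by noncomm_ring
    _ = (m - a) * l * a + (m - a) := by rw [e]
    _ = m * l * a - a * l * a + m - a := by noncomm_ring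
    _ = m * l * a - (m - a) + m - a := by rw [e]
    _ = m * l * a := by abel
    _ = l * m * a := by rw [hlm]

theorem JM_ring_add {A : Type*} [Ring A] (a l c : A) (hc : a * a = 1 + c)
    (hca : c * (l * a) = a * (l * c)) :
    a * (l + (a * l * a + a)) = (l + (a * l * a + a)) * a := by
  calc a * (l + (a * l * a + a)) = a * l + (a * a) * (l * a) + a * a := by noncomm_ring
    _ = a * l + (1 + c) * (l * a) + a * a := by rw [hc]
    _ = a * l + l * a + c * (l * a) + a * a := by noncomm_ring
    _ = a * l + l * a + a * (l * c) + a * a := by rw [hca]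
    _ = a * l * (1 + c) + l * a + a * a := by noncomm_ring
    _ = a * l * (a * a) + l * a + a * a := by rw [hc]
    _ = (l + (a * l * a + a)) * a := by noncomm_ring

section

variable {R : Type} [CommRing R] {z : R}

theorem JM_L_zero : (L 0 : Hk R z) = 0 := rfl

theorem JM_L_succ (i : ℕ) : (L (i + 1) : Hk R z) = sg i * L i * sg i + sg i := rfl

theorem JM_mem (k : ℕ) : (L k : Hk R z) ∈ (Hs (k + 1) : Subalgebra R (Hk R z)) := by
  induction k with
  | zero => rw [JM_L_zero]; exact zero_mem _
  | succ k ih =>
    rw [JM_L_succ]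
    have h1 : (sg k : Hk R z) ∈ (Hs (k + 1 + 1) : Subalgebra R (Hk R z)) := sg_mem_Hs (by omega)
    have h2 : (L k : Hk R z) ∈ (Hs (k + 1 + 1) : Subalgebra R (Hk R z)) := Hs_mono (by omega) ih
    exact add_mem (mul_mem (mul_mem h1 h2) h1) h1

theorem JM_comm_gt {i k : ℕ} (h : k < i) : (sg i * L k : Hk R z) = L k * sg i := by
  obtain ⟨j, rfl⟩ : ∃ j, i = j + (k + 1) := ⟨i - (k + 1), by omega⟩
  have e := commute_sh (JM_mem (R := R) (z := z) k) (sg j)
  rw [sh_sg] at e
  exact e.symm

theorem JM_comm_lt (k : ℕ) : ∀ i, i + 2 ≤ k → (sg i * L k : Hk R z) = L k * sg i := by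
  induction k with
  | zero => intro i hi; omega
  | succ k ih =>
    intro i hi
    by_cases h : i + 2 ≤ k
    · have e1 := ih i h
      have e2 : (sg i * sg k : Hk R z) = sg k * sg i := sg_comm h
      rw [JM_L_succ]
      calc (sg i * (sg k * L k * sg k + sg k) : Hk R z)
          = (sg i * sg k) * L k * sg k + sg i * sg k := by noncomm_ring
        _ = (sg k * sg i) * L k * sg k + sg k * sg i := by rw [e2]
        _ = sg k * (sg i * L k) * sg k + sg k * sg i := by noncomm_ring
        _ = sg k * (L k * sg i) * sg k + sg k * sg i := by rw [e1]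
        _ = sg k * L k * (sg i * sg k) + sg k * sg i := by noncomm_ring
        _ = sg k * L k * (sg k * sg i) + sg k * sg i := by rw [e2]
        _ = (sg k * L k * sg k + sg k) * sg i := by noncomm_ring
    · obtain rfl : k = i + 1 := by omega
      rw [JM_L_succ, JM_L_succ]
      refine JM_ring_braid (sg i : Hk R z) (sg (i + 1)) (z • sg i) (L i) (sg_sq i) ?_ (sg_braid i)
        (JM_comm_gt (by omega))
      rw [smul_mul_assoc, mul_smul_comm, mul_smul_comm]

theorem JM_comm_sg (i k : ℕ) (h1 : i ≠ k) (h2 : i + 1 ≠ k) : (sg i * L k : Hk R z) = L k * sg i := by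
  by_cases h : k < i
  · exact JM_comm_gt h
  · exact JM_comm_lt k i (by omega)

theorem JM_comm_of_lt {i k : ℕ} (h : i < k) : (L i * L k : Hk R z) = L k * L i := by
  refine Hs_induction (n := i + 1) (P := fun x => (x * L k : Hk R z) = L k * x) ?_ ?_ ?_ ?_
    (JM_mem i)
  · rw [one_mul, mul_one]
  · intro x _ y _ hx hy; rw [add_mul, mul_add, hx, hy]
  · intro r x _ hx; rw [smul_mul_assoc, mul_smul_comm, hx]
  · intro j hj x _ hx
    have e : (sg j * L k : Hk R z) = L k * sg j := JM_comm_sg j k (by omega) (by omega)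
    rw [mul_assoc, hx, ← mul_assoc, e, mul_assoc]

theorem JM_comm (i k : ℕ) : (L i * L k : Hk R z) = L k * L i := by
  rcases lt_trichotomy i k with h | rfl | h
  · exact JM_comm_of_lt h
  · rfl
  · exact (JM_comm_of_lt h).symm

theorem JM_J (i : ℕ) : (J (i + 1) : Hk R z) = sg i * J i * sg i := by
  unfold J
  rw [JM_L_succ, mul_add, add_mul, mul_one, sg_sq, mul_smul_comm, smul_mul_assoc, smul_add,
    add_assoc, add_comm (z • (sg i : Hk R z))]

end

theorem t_JM : S_JM := by
  intro R _ z
  refine ⟨fun i k h1 h2 => JM_comm_sg i k h1 h2, fun k => JM_mem k, fun i k => JM_comm i k,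
    fun i => JM_J i, fun i => ?_, fun i => ?_⟩
  · exact JM_ring_mul (sg i : Hk R z) (L i) (L (i + 1)) (JM_L_succ i) (JM_comm i (i + 1))
  · rw [JM_L_succ]
    refine JM_ring_add (sg i : Hk R z) (L i) (z • sg i) (sg_sq i) ?_
    rw [smul_mul_assoc, mul_smul_comm, mul_smul_comm]

end Pool.Agent.H873
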