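import Pool.Agent.Helper873_Hecke.Link

set_option autoImplicit false

/-!
# Formal linear combinations of braid words, the decoration by power sums, the field ℚ(q, a)
-/

namespace Pool.Agent.H873

open Equiv Finset

/-- formal linear combinations of braid words, with concatenation as the product -/
abbrev WAlg (K : Type*) [CommRing K] := MonoidAlgebra K (FreeMonoid (ℕ × Bool))

/-- a word as an element of `WAlg` -/
noncomputable def ofW {K : Type*} [CommRing K] (w : BW) : WAlg K :=
  MonoidAlgebra.of K _ (FreeMonoid.ofList w)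

/-- move all letters `k` positions to the right -/
noncomputable def shW {K : Type*} [CommRing K] (k : ℕ) : WAlg K →ₐ[K] WAlg K :=
  MonoidAlgebra.mapDomainAlgHom K K (FreeMonoid.map (fun l : ℕ × Bool => (l.1 + k, l.2)))

/-- the linear extension of a function on braid words -/
noncomputable def linW {K : Type*} [CommRing K] (H : BW → K) (x : WAlg K) : K :=
  x.coeff.sum fun w c => c * H (FreeMonoid.toList w)

/-- `Σ_{w ∈ S_k} x^{ℓ(w)} T_w`, where `T_w` is the positive permutation braid of `w`; the words are
`∏_{j < k} (σ_{j-1} σ_{j-2} ⋯ σ_{j-i})`, `0 ≤ i ≤ j` -/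
noncomputable def symW {K : Type*} [CommRing K] (x : K) : ℕ → WAlg K
  | 0 => 1
  | j + 1 => symW x j * ∑ i ∈ range (j + 1), x ^ i • ofW (dnw (j - i) i true)

/-- the idempotent symmetriser `h_k` of the Hecke algebra `H_k`:
`Σ_w q^{ℓ(w)} T_w / Σ_w q^{2 ℓ(w)}`, the idempotent of the one row partition `(k)` -/
noncomputable def idW {K : Type*} [Field K] (q : K) (k : ℕ) : WAlg K :=
  (∏ j ∈ range k, (∑ i ∈ range (j + 1), q ^ (2 * i)))⁻¹ • symW q k

/-- the power sum `P_n`, given by Newton's identities `n h_n = Σ_{k=1}^{n} P_k h_{n-k}`, where `h_k` is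
the symmetriser and products are placed side by side (`P_0 = 0`) -/
noncomputable def powW {K : Type*} [Field K] (q : K) (n : ℕ) : WAlg K :=
  (n : K) • idW q n - ∑ k : Fin n, powW q k * shW (k : ℕ) (idW q (n - k))
termination_by n
decreasing_by exact k.2

/-- the closed braid `w` on `n` strands with all components decorated by the power sum `P_d`: the
`d`-strand cable of `w`, with a `P_d` inserted in each component (at its least position) -/
noncomputable def decW {K : Type*} [Field K] (q : K) (d n : ℕ) (w : BW) : WAlg K :=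
  ofW (cab d w) * (((comps n w).sort (· ≤ ·)).map fun j => shW (d * j) (powW q d)).prod

/-- the field `ℚ(q, a)` -/
abbrev Kqa : Type := FractionRing (MvPolynomial (Fin 2) ℚ)

/-- the variable `q` -/
noncomputable def vq : Kqa := algebraMap (MvPolynomial (Fin 2) ℚ) Kqa (MvPolynomial.X 0)

/-- the variable `a` -/
noncomputable def va : Kqa := algebraMap (MvPolynomial (Fin 2) ℚ) Kqa (MvPolynomial.X 1)

/-- `z = q - q⁻¹` -/
noncomputable def vz : Kqa := vq - vq⁻¹

/-- `{n} = q^n - q^{-n}` -/
noncomputable def cbr (n : ℕ) : Kqa := vq ^ n - vq⁻¹ ^ n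

/-- `[n] = {n} / {1}` -/
noncomputable def qbr (n : ℕ) : Kqa := cbr n / cbr 1

/-- the Adams operator `f(q, a) ↦ f(q^d, a^d)`, `d ≥ 1` -/
noncomputable def adams (d : ℕ) (hd : 0 < d) : Kqa →+* Kqa :=
  IsFractionRing.map (j := (MvPolynomial.expand (R := ℚ) (σ := Fin 2) d).toRingHom)
    (MvPolynomial.expand_injective hd)

/-- the invariant `Ž_d` of the closure of the word `w` on `n` strands -/
noncomputable def Zv (H : ℕ → BW → Kqa) (d n : ℕ) (w : BW) : Kqa :=
  cbr d ^ (comps n w).card * linW (H (d * n)) (decW vq d n w)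

/-- `ℤ[z², a^{±1}]` -/
noncomputable def Aza : Subring Kqa := Subring.closure {vz ^ 2, va, va⁻¹}

end Pool.Agent.H873
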