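import Pool.Agent.Helper873_Hecke.JM
import Pool.Agent.Helper873_Hecke.Markov
import Pool.Agent.Helper873_Hecke.MarkovB
import Pool.Agent.Helper873_Hecke.IND
import Pool.Agent.Helper873_Hecke.Span
import Pool.Agent.Helper873_Hecke.Bunch
import Pool.Agent.Helper873_Hecke.Twist
import Pool.Agent.Helper873_Hecke.Close
import Pool.Agent.Helper873_Hecke.BaseChange
import Pool.Agent.Helper873_Hecke.VUnit
import Pool.Agent.Helper873_Hecke.NBij
import Pool.Agent.Helper873_Hecke.ErProj
import Pool.Agent.Helper873_Hecke.CLam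
import Pool.Agent.Helper873_Hecke.MatUnit
import Pool.Agent.Helper873_Hecke.Cyc
import Pool.Agent.Helper873_Hecke.EpsZ
import Pool.Agent.Helper873_Hecke.Top
import Pool.Agent.Helper873_Hecke.DecV0
import Pool.Agent.Helper873_Hecke.C12
import Pool.Agent.Helper873_Hecke.Prim
import Pool.Agent.Helper873_Hecke.KCons
import Pool.Agent.Helper873_Hecke.Cab
import Pool.Agent.Helper873_Hecke.Ins
import Pool.Agent.Helper873_Hecke.Hom
import Pool.Agent.Helper873_Hecke.Move
import Pool.Agent.Helper873_Hecke.Transv
import Pool.Agent.Helper873_Hecke.FTgen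
import Pool.Agent.Helper873_Hecke.FTskein
import Pool.Agent.Helper873_Hecke.FTcurl
import Pool.Agent.Helper873_Hecke.FGasm
import Pool.Agent.Helper873_Hecke.Exist
import Pool.Agent.Helper873_Hecke.Integral
import Pool.Agent.Helper873_Hecke.Dpoly
import Pool.Agent.Helper873_Hecke.GoodRing
import Pool.Agent.Helper873_Hecke.Parity
import Pool.Agent.Helper873_Hecke.CabComps
import Pool.Agent.Helper873_Hecke.Decl
import Pool.Agent.Helper873_Hecke.EvW
import Pool.Agent.Helper873_Hecke.DecP
import Pool.Agent.Helper873_Hecke.Kqa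
import Pool.Agent.Helper873_Hecke.FinalAsm

set_option autoImplicit false

/-!
# All parts together
-/

namespace Pool.Agent.H873

theorem all_Z : S_Z :=
  t_Z t_JM (t_markov t_JM) (t_markov_cI (t_markov t_JM)) (t_span t_IND) (t_prim t_bunch) t_eps

theorem all_close : S_close := t_close (t_markov t_JM) t_bunch

theorem all_pi : S_pi := t_pi t_JM (t_er t_JM (t_v t_bc t_zero))

theorem all_Cyc : S_Cyc :=
  t_Cyc (t_markov t_JM) (t_markov_cI (t_markov t_JM)) (t_span t_IND) all_pi (t_cL t_bunch)
    (t_mat t_bc t_zero)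

theorem all_K : S_K :=
  t_K all_Cyc all_Z (t_markov t_JM) (t_markov_beta (t_markov t_JM)) (t_twist t_JM t_bunch)

theorem all_N : S_N := t_N t_bc t_zero

theorem all_C1 : S_C1 := t_C1 t_bunch all_Z all_N t_top t_dec t_V0

theorem all_C2 : S_C2 :=
  t_C2 t_bunch all_Z all_N t_top t_dec t_V0 (t_markov t_JM) (t_markov_beta (t_markov t_JM))
    all_close (t_twist t_JM t_bunch) all_K

theorem all_cab : S_cab := t_cab t_bunch

theorem all_hom : S_hom := t_hom (t_markov t_JM) (t_markov_beta (t_markov t_JM)) all_close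

theorem all_move : S_move := t_move all_cab t_ins

theorem all_FTgen : S_FTgen := t_FTgen all_cab t_ins all_hom t_transv

theorem all_FTskein : S_FTskein :=
  t_FTskein all_cab t_ins all_hom all_move all_C1 all_C2 t_bunch

theorem all_FTcurl : S_FTcurl :=
  t_FTcurl all_cab t_ins all_hom all_move all_K (t_twist t_JM t_bunch)

theorem all_FG : S_FG := t_FG t_IND all_FTgen all_FTskein all_FTcurl t_transv all_cab

theorem all_Mex : S_Mex := t_Mex all_hom

theorem all_AM : S_AM := t_AM (t_comps t_transv)

theorem all_Aex : S_Aex := t_Aex t_IND all_Mex all_AM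

theorem final_of_Pp (hPp : S_Pp) : S_final :=
  t_final (t_Auniq t_IND) (t_Muniq t_IND) all_Mex all_AM all_Aex t_DD t_goodmap (t_good t_DD) t_ker
    t_parity (t_cabcomps t_transv all_cab) t_decl t_supp
    (t_decP t_evW hPp all_move t_decl all_hom t_ins t_transv all_cab) t_P1 t_Kqa all_FG t_transv

end Pool.Agent.H873
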