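import Pool.Agent.Helper873_Hecke.PpRec

set_option autoImplicit false

/-!
# `[d] P_d` and `β` have the same closure in the annulus (S_Pp)
-/

namespace Pool.Agent.H873

namespace PpA

open Equiv Hk

/-! ### quantum integers -/

theorem qn_zero {R : Type*} [CommRing R] (q qi : R) : qn q qi 0 = 0 := by simp [qn]

theorem qn_add {R : Type*} [CommRing R] (q qi : R) (a b : ℕ) :
    qn q qi (a + b) = qn q qi a * q ^ b + qi ^ a * qn q qi b := by
  unfold qn
  rw [Finset.sum_range_add, Finset.sum_mul, Finset.mul_sum]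
  congr 1
  · apply Finset.sum_congr rfl
    intro i hi
    rw [Finset.mem_range] at hi
    have : a + b - 1 - i = (a - 1 - i) + b := by omega
    rw [this, pow_add]
    ring
  · apply Finset.sum_congr rfl
    intro i hi
    rw [Finset.mem_range] at hi
    have : a + b - 1 - (a + i) = b - 1 - i := by omega
    rw [this, pow_add]
    ring

theorem qn_mul {R : Type*} [CommRing R] (q qi : R) (n : ℕ) :
    (q - qi) * qn q qi n = q ^ n - qi ^ n := by
  induction n with
  | zero => rw [qn_zero]; ring
  | succ n ih =>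
    have h1 : qn q qi 1 = 1 := by simp [qn]
    rw [qn_add, h1]
    linear_combination q * ih

section Core

variable {K : Type} [Field K] {z : K}

/-- the sequence of the symmetrisers -/
noncomputable def HHs (K : Type) [Field K] (z x : K) : BS K z := ⟨fun n => ee x n, fun n => ee_mem x n⟩

/-- `Σ [n] h_n t^n = (Σ x^n h_n t^n) (Σ \bar A_n t^n)` -/
theorem HX.rec_cl {x xi : K} (h : HX z x xi) :
    dg (fun n => qn x xi n) (cl (HHs K z x)) =
      dg (fun n => x ^ n) (cl (HHs K z x)) * cl (AA K z false) := by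
  rw [dg_cl, dg_cl, ← map_mul, cl_eq]
  intro n
  rw [dB_c, BS_mul, Finset.Nat.sum_antidiagonal_eq_sum_range_succ
    (fun a b => (dB (fun n => x ^ n) (HHs K z x)).1 a * sh a ((AA K z false).1 b)),
    Finset.sum_range_succ, Nat.sub_self, AA_zero, map_zero, mul_zero, add_zero]
  cases n with
  | zero =>
    rw [Finset.sum_range_zero, sub_zero, qn_zero, zero_smul]
    exact zero_mem _
  | succ m =>
    have h1 := h.rec_sum m 0
    rw [Bunch_upw_zero, wd_nil, mul_one, add_zero, add_zero] at h1
    refine (congrArg (· ∈ CM K z (m + 1)) ?_).mp h1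
    congr 1
    apply Finset.sum_congr rfl
    intro a ha
    rw [Finset.mem_range] at ha
    have e : m + 1 - a = (m - a) + 1 := by omega
    rw [e, AA_succ, dB_c, smul_mul_assoc]
    rfl

/-- if `n h_n = Σ_{a + b = n} P_a h_b` then `[n] P_n` and `β` have the same closure -/
theorem Pp_core {q qi : K} (h : HX z q qi) (PP : BS K z)
    (hPP : PP * HHs K z q = dB (fun n => (n : K)) (HHs K z q)) :
    dg (fun n => qn q qi n) (cl PP) = cl (XX K z) := by
  set hh : CC K z := cl (HHs K z q) with hhh
  set ab : CC K z := cl (AA K z false) with hab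
  set ap : CC K z := cl (AA K z true) with hap
  have F1 : dg (fun n => qn q qi n) hh = dg (fun n => q ^ n) hh * ab := h.rec_cl
  -- Leibniz rules
  have Ldelta : ∀ x y : CC K z, dg (fun n => qn q qi n) (x * y) =
      dg (fun n => qn q qi n) x * dg (fun n => q ^ n) y +
        dg (fun n => qi ^ n) x * dg (fun n => qn q qi n) y :=
    fun x y => dg_mul2 (fun a b => qn_add q qi a b) x y
  have LD : ∀ x y : CC K z, dg (fun n => (n : K)) (x * y) =
      dg (fun n => (n : K)) x * y + x * dg (fun n => (n : K)) y := by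
    intro x y
    have := dg_mul2 (z := z) (u := fun n => (n : K)) (v := fun n => (n : K)) (w := fun _ => 1)
      (v' := fun _ => 1) (w' := fun n => (n : K)) (fun a b => by push_cast; ring) x y
    rwa [dg_one, dg_one] at this
  have LS : ∀ x y : CC K z, dg (fun n => q ^ n) (x * y) =
      dg (fun n => q ^ n) x * dg (fun n => q ^ n) y :=
    fun x y => dg_mul1 (fun a b => pow_add q a b) x y
  set P : CC K z := cl PP with hP
  have F5 : P * hh = dg (fun n => (n : K)) hh := by
    rw [hP, hhh, dg_cl, ← map_mul, hPP]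
  have hDS : dg (fun n => (n : K)) (dg (fun n => q ^ n) hh) =
      dg (fun n => q ^ n) P * dg (fun n => q ^ n) hh := by
    rw [dg_comm, ← F5, LS]
  have hd1 : dg (fun n => qn q qi n) (dg (fun n => (n : K)) hh) =
      dg (fun n => q ^ n) P * dg (fun n => q ^ n) hh * ab +
        dg (fun n => q ^ n) hh * dg (fun n => (n : K)) ab := by
    rw [dg_comm, F1, LD, hDS]
  have hd2 : dg (fun n => qn q qi n) (dg (fun n => (n : K)) hh) =
      dg (fun n => qn q qi n) P * dg (fun n => q ^ n) hh +
        dg (fun n => qi ^ n) P * (dg (fun n => q ^ n) hh * ab) := by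
    rw [← F5, Ldelta, F1]
  have hdiff : dg (fun n => q ^ n) P - dg (fun n => qi ^ n) P =
      sc z * dg (fun n => qn q qi n) P := by
    rw [← dg_sub, ← dg_const, dg_dg]
    congr 1
    funext n
    rw [← qn_mul, h.zdef]
  have F6 : dg (fun n => qn q qi n) P -
      (sc z * dg (fun n => qn q qi n) P) * ab - dg (fun n => (n : K)) ab = 0 := by
    have e : dg (fun n => q ^ n) hh = cl (dB (fun n => q ^ n) (HHs K z q)) := dg_cl _ _
    refine cancel_unit (F := dB (fun n => q ^ n) (HHs K z q)) ?_ ?_
    · rw [dB_c, pow_zero, one_smul]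
      exact ee_zero q
    · rw [← e, ← hdiff]
      linear_combination hd1 - hd2
  have F7 : ap - ab = sc z * (ap * ab) := skein_cl
  have F8 : cl (XX K z) = dg (fun n => (n : K)) ab + sc z * (ap * dg (fun n => (n : K)) ab) := beta_cl
  rw [F8]
  linear_combination (1 + sc z * ap) * F6 - sc z * dg (fun n => qn q qi n) P * F7

end Core

/-! ### words -/

section Words

variable {K : Type} [Field K] {z : K}

theorem Pp_evW_ofW {K : Type} [CommRing K] {z : K} (w : BW) : (evW (ofW w) : Hk K z) = wd w := by
  unfold evW ofW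
  rw [MonoidAlgebra.lift_of, FreeMonoid.lift_ofList]
  rfl

theorem Pp_evW_shW {K : Type} [CommRing K] {z : K} (k : ℕ) (x : WAlg K) :
    (evW (shW k x) : Hk K z) = sh k (evW x) := by
  have : (evW : WAlg K →ₐ[K] Hk K z).comp (shW k) = (sh k).comp evW := by
    apply MonoidAlgebra.algHom_ext'
    case single_one_left => exact Subsingleton.elim _ _
    apply FreeMonoid.hom_eq
    intro l
    have h1 : (MonoidAlgebra.of K (FreeMonoid (ℕ × Bool))) (FreeMonoid.of l) = ofW [l] := rfl
    change (evW (shW k ((MonoidAlgebra.of K (FreeMonoid (ℕ × Bool))) (FreeMonoid.of l))) : Hk K z) =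
      sh k (evW ((MonoidAlgebra.of K (FreeMonoid (ℕ × Bool))) (FreeMonoid.of l)))
    have h2 : shW k ((MonoidAlgebra.of K (FreeMonoid (ℕ × Bool))) (FreeMonoid.of l)) =
        ofW [(l.1 + k, l.2)] := by
      unfold shW ofW
      simp [MonoidAlgebra.of_apply]
    rw [h2, h1, Pp_evW_ofW, Pp_evW_ofW, wd_cons, wd_cons, wd_nil, mul_one, mul_one, sh_gen]
  exact congrArg (fun f => f x) this

theorem evW_symW (x : K) (n : ℕ) : (evW (symW x n) : Hk K z) = SF x n := by
  induction n with
  | zero => change evW 1 = 1; rw [map_one]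
  | succ n ih =>
    change evW (symW x n * ∑ i ∈ Finset.range (n + 1), x ^ i • ofW (dnw (n - i) i true)) = _
    rw [map_mul, ih, map_sum]
    change _ = SF x n * _
    congr 1
    apply Finset.sum_congr rfl
    intro i _
    rw [map_smul, Pp_evW_ofW]

theorem evW_idW (x : K) (n : ℕ) : (evW (idW x n) : Hk K z) = ee x n := by
  unfold idW ee NN
  rw [map_smul, evW_symW]

theorem evW_powW (q : K) (n : ℕ) : (evW (powW q n) : Hk K z) =
    (n : K) • ee q n - ∑ k ∈ Finset.range n, evW (powW q k) * sh k (ee q (n - k)) := by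
  rw [powW, map_sub, map_smul, evW_idW, map_sum, Finset.sum_range]
  congr 1
  apply Finset.sum_congr rfl
  intro k _
  rw [map_mul, Pp_evW_shW, evW_idW]

theorem evW_powW_mem (q : K) (n : ℕ) :
    (evW (powW q n) : Hk K z) ∈ (Hs n : Subalgebra K (Hk K z)) := by
  induction n using Nat.strong_induction_on with
  | _ n ih =>
    rw [evW_powW]
    apply sub_mem (Subalgebra.smul_mem _ (ee_mem q n) _)
    apply Subalgebra.sum_mem
    intro k hk
    have hk' := Finset.mem_range.1 hk
    have := mul_sh_mem (ih k hk') (ee_mem (z := z) q (n - k))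
    rwa [Nat.add_sub_cancel' hk'.le] at this

/-- the sequence of the power sums -/
noncomputable def PPs (K : Type) [Field K] (z q : K) : BS K z :=
  ⟨fun n => evW (powW q n), fun n => evW_powW_mem q n⟩

theorem PPs_mul (q : K) : PPs K z q * HHs K z q = dB (fun n => (n : K)) (HHs K z q) := by
  apply BS_ext
  intro n
  rw [BS_mul, dB_c, Finset.Nat.sum_antidiagonal_eq_sum_range_succ
    (fun a b => (PPs K z q).1 a * sh a ((HHs K z q).1 b)), Finset.sum_range_succ, Nat.sub_self]
  change ∑ x ∈ Finset.range n, (evW (powW q x) : Hk K z) * sh x (ee q (n - x)) +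
    (evW (powW q n) : Hk K z) * sh n (ee q 0) = (n : K) • ee q n
  rw [ee_zero, map_one, mul_one, evW_powW q n, add_sub_cancel]

end Words

end PpA

theorem t_Pp : S_Pp := by
  intro K _ q z hq hz hqn d _
  have h : PpA.HX z q q⁻¹ := ⟨mul_inv_cancel₀ hq, hz, hqn⟩
  refine ⟨PpA.evW_powW_mem q d, ?_⟩
  intro M _ _ f hf
  have h1 := PpA.Pp_core h (PpA.PPs K z q) (PpA.PPs_mul q)
  rw [PpA.dg_cl, PpA.cl_eq] at h1
  have h2 := PpA.CM_trace hf (h1 d)
  rw [PpA.dB_c, map_sub, map_smul, sub_eq_zero] at h2
  exact h2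

end Pool.Agent.H873
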