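import Pool.Agent.Helper873_Hecke.PpRing

set_option autoImplicit false

/-!
# The recursion of the closures of the symmetrisers, the skein relation (part of S_Pp)
-/

namespace Pool.Agent.H873

namespace PpA

open Equiv Hk

section Rec

variable {K : Type} [Field K] {z : K}

theorem HX.pow_mul {x xi : K} (h : HX z x xi) (n : ℕ) : x ^ n * xi ^ n = 1 := by
  rw [← mul_pow, h.inv, one_pow]

theorem upw_eq_sh {R : Type*} [CommRing R] {z : R} (a n : ℕ) (e : Bool) :
    (wd (upw a n e) : Hk R z) = sh a (wd (upw 0 n e)) := by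
  rw [sh_wd, Bunch_map_upw, zero_add]

theorem wd_upw_mem {R : Type*} [CommRing R] {z : R} (a n m : ℕ) (h : n = 0 ∨ a + n + 1 ≤ m) (e : Bool) :
    (wd (upw a n e) : Hk R z) ∈ (Hs m : Subalgebra R (Hk R z)) := by
  apply wd_mem_Hs
  intro l hl
  have := Bunch_mem_upw hl
  omega

/-- one step of the recursion -/
theorem HX.rec_step {x xi : K} (h : HX z x xi) (n k : ℕ) :
    qn x xi (n + 1) • (ee x (n + 1) * wd (upw n k false) : Hk K z) -
      x ^ n • (ee x n * sh n (wd (upw 0 k false))) -
      qn x xi n • (ee x n * wd (upw (n - 1) (k + 1) false)) ∈ CM K z (n + 1 + k) := by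
  obtain ⟨eps, he⟩ := t_eps K x xi z h.inv h.zdef
  set U : Hk K z := wd (upw n k false) with hU
  set V : Hk K z := wd (upw (n - 1) (k + 1) false) with hV
  have hUm : U ∈ (Hs (n + 1 + k) : Subalgebra K (Hk K z)) := wd_upw_mem _ _ _ (by omega) _
  have hVm : 0 < n → V ∈ (Hs (n + 1 + k) : Subalgebra K (Hk K z)) := fun hn =>
    wd_upw_mem _ _ _ (by omega) _
  have hen : (ee x n : Hk K z) ∈ (Hs (n + 1 + k) : Subalgebra K (Hk K z)) :=
    Hs_mono (by omega) (ee_mem x n)
  have e1 : qn x xi (n + 1) • (ee x (n + 1) * U : Hk K z) =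
      x ^ n • ((ee x n * ∑ j ∈ Finset.range (n + 1), xi ^ j • wd (dnw (n - j) j false)) * U) := by
    rw [h.ee_rec n, smul_mul_assoc, smul_smul, ← mul_assoc, h.pow_mul, one_mul]
  have e2 : (ee x n * ∑ j ∈ Finset.range (n + 1), xi ^ j • wd (dnw (n - j) j false)) * U =
      ee x n * U + ∑ j ∈ Finset.range n, xi ^ (j + 1) •
        (ee x n * V * wd (dnw (n - (j + 1)) j false)) := by
    rw [Finset.sum_range_succ', mul_add, add_mul, Finset.mul_sum, Finset.sum_mul, add_comm]
    congr 1
    · rw [pow_zero, one_smul, Bunch_dnw_zero, wd_nil, mul_one]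
    · apply Finset.sum_congr rfl
      intro j hj
      rw [Finset.mem_range] at hj
      rw [mul_smul_comm, smul_mul_assoc, Bunch_dnw_succ, wd_cons]
      congr 1
      have hc : Commute U (wd (dnw (n - (j + 1)) j false)) := by
        apply Commute.symm
        apply Bunch_wd_comm
        intro l hl
        apply Commute.symm
        apply Bunch_wd_comm
        intro l' hl'
        have h1 := Bunch_mem_upw hl
        have h2 := Bunch_mem_dnw hl'
        exact Bunch_gen_gen _ _ (Or.inr (by omega))
      have hV2 : V = gen false (n - 1) * U := by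
        rw [hV, Bunch_upw_succ', wd_cons]
        have : n - 1 + 1 = n := by omega
        rw [this]
      have hj2 : n - (j + 1) + j = n - 1 := by omega
      dsimp only
      rw [hj2, hV2]
      simp only [mul_assoc]
      rw [hc.eq]
  have e3 : ∀ j ∈ Finset.range n, xi ^ (j + 1) • (ee x n * V * wd (dnw (n - (j + 1)) j false)) -
      (xi ^ (2 * j) * xi) • (ee x n * V) ∈ CM K z (n + 1 + k) := by
    intro j hj
    rw [Finset.mem_range] at hj
    have hw : (wd (dnw (n - (j + 1)) j false) : Hk K z) ∈ (Hs n : Subalgebra K (Hk K z)) := by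
      apply wd_mem_Hs
      intro l hl
      have := Bunch_mem_dnw hl
      omega
    have h1 := absorb_left eps he (F := ee x n) (fun i hi => h.sg_mul_ee hi) hw
    rw [eps_dnw h.zdef eps he, if_neg (by decide)] at h1
    have h2 : (xi ^ (2 * j) * xi) • (ee x n * V) =
        xi ^ (j + 1) • (wd (dnw (n - (j + 1)) j false) * (ee x n * V)) := by
      rw [← mul_assoc, h1, smul_mul_assoc, smul_smul]
      congr 1
      ring
    rw [h2, ← smul_sub]
    apply Submodule.smul_mem
    exact mem_CM (mul_mem hen (hVm (by omega))) (Hs_mono (by omega) hw)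
  have e4 : qn x xi n • (ee x n * V) =
      x ^ n • ∑ j ∈ Finset.range n, (xi ^ (2 * j) * xi) • (ee x n * V) := by
    rw [← Finset.sum_smul, ← Finset.sum_mul, smul_smul]
    congr 1
    rcases Nat.eq_zero_or_pos n with hn | hn
    · subst hn
      simp [qn]
    · have hs : ∑ j ∈ Finset.range n, xi ^ (2 * j) = xi ^ (n - 1) * qn x xi n := by
        rw [EpsZ_qn (by rw [mul_comm]; exact h.inv), qn_symm]
      rw [hs]
      obtain ⟨m, rfl⟩ : ∃ m, n = m + 1 := ⟨n - 1, by omega⟩
      rw [Nat.add_sub_cancel]
      calc qn x xi (m + 1) = (x ^ (m + 1) * xi ^ (m + 1)) * qn x xi (m + 1) := by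
            rw [h.pow_mul, one_mul]
        _ = _ := by ring
  have e5 : qn x xi (n + 1) • (ee x (n + 1) * U : Hk K z) - x ^ n • (ee x n * sh n (wd (upw 0 k false))) -
      qn x xi n • (ee x n * V) = x ^ n • ∑ j ∈ Finset.range n,
        (xi ^ (j + 1) • (ee x n * V * wd (dnw (n - (j + 1)) j false)) -
          (xi ^ (2 * j) * xi) • (ee x n * V)) := by
    rw [e1, e2, e4, ← upw_eq_sh, ← hU, Finset.sum_sub_distrib, smul_add, smul_sub]
    abel
  rw [e5]
  apply Submodule.smul_mem
  exact Submodule.sum_mem _ e3

/-- the telescoped recursion -/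
theorem HX.rec_sum {x xi : K} (h : HX z x xi) (n : ℕ) : ∀ k : ℕ,
    qn x xi (n + 1) • (ee x (n + 1) * wd (upw n k false) : Hk K z) -
      ∑ a ∈ Finset.range (n + 1), x ^ a • (ee x a * sh a (wd (upw 0 (n + k - a) false))) ∈
        CM K z (n + 1 + k) := by
  induction n with
  | zero =>
    intro k
    have := h.rec_step 0 k
    have h0 : qn x xi 0 = 0 := by simp [qn]
    rw [h0, zero_smul, sub_zero] at this
    rw [Finset.sum_range_one, zero_add, Nat.sub_zero]
    simpa using this
  | succ n ih =>
    intro k
    have h1 := h.rec_step (n + 1) k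
    have h2 := ih (k + 1)
    have e1 : n + 1 + (k + 1) = n + 1 + 1 + k := by omega
    rw [e1] at h2
    have h3 := add_mem h1 h2
    have e2 : n + 1 - 1 = n := by omega
    rw [e2] at h3
    have e3 : ∀ a, n + (k + 1) - a = n + 1 + k - a := fun a => by omega
    simp only [e3] at h3
    rw [Finset.sum_range_succ]
    have e4 : n + 1 + k - (n + 1) = k := by omega
    rw [e4]
    refine (congrArg (· ∈ CM K z (n + 1 + 1 + k)) ?_).mp h3
    abel

end Rec

/-! ### the sequences -/

section Seq

variable {R : Type} [CommRing R] {z : R}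

/-- closures of the products of `n` crossings of sign `e` -/
noncomputable def AA (R : Type) [CommRing R] (z : R) (e : Bool) : BS R z :=
  ⟨fun n => if n = 0 then 0 else wd (upw 0 (n - 1) e), fun n => by
    dsimp only
    split_ifs with h
    · exact zero_mem _
    · exact wd_upw_mem _ _ _ (by omega) _⟩

theorem AA_zero (e : Bool) : (AA R z e).1 0 = 0 := rfl
theorem AA_succ (e : Bool) (n : ℕ) : (AA R z e).1 (n + 1) = wd (upw 0 n e) := rfl

/-- the sequence of the elements `β` -/
noncomputable def XX (R : Type) [CommRing R] (z : R) : BS R z :=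
  ⟨fun n => betaE n, fun n => EpsZ_beta_mem n⟩

/-- the mixed terms -/
noncomputable def ZZ (R : Type) [CommRing R] (z : R) (m a : ℕ) : Hk R z :=
  wd (upw 0 a true) * sh (a + 1) (wd (upw 0 (m - 1 - a) false))

/-- `β_k = \bar c + z Σ ...` -/
theorem bet_eq (m k : ℕ) (hk : k ≤ m) : (wd (bet 0 (m + 1) k) : Hk R z) =
    wd (upw 0 m false) + z • ∑ a ∈ Finset.range k, ZZ R z m a := by
  induction k with
  | zero =>
    rw [Finset.sum_range_zero, smul_zero, add_zero]
    rfl
  | succ k ih =>
    rw [Finset.sum_range_succ, smul_add, ← add_assoc, ← ih (by omega)]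
    unfold bet ZZ
    have e1 : m + 1 - 1 - (k + 1) = m - 1 - k := by omega
    have e2 : m + 1 - 1 - k = (m - 1 - k) + 1 := by omega
    rw [e1, e2, Bunch_upw_succ, Bunch_upw_succ', wd_append, wd_append, wd_append, wd_cons, wd_cons,
      wd_nil, mul_one, zero_add, zero_add, upw_eq_sh (k + 1)]
    have e3 : (gen true k : Hk R z) = gen false k + z • 1 := by
      change (sg k : Hk R z) = sg k - z • 1 + z • 1
      rw [sub_add_cancel]
    dsimp only
    rw [e3, mul_add, add_mul, mul_smul_comm, mul_one, smul_mul_assoc, mul_assoc]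

/-- product of a sequence with vanishing constant terms, in degree `m + 1` -/
theorem AA_mul_dg (u : ℕ → R) (m : ℕ) : (AA R z true * dB u (AA R z false)).1 (m + 1) =
    ∑ a ∈ Finset.range m, u (m - a) • ZZ R z m a := by
  have z1 : (dB u (AA R z false)).1 0 = 0 := by rw [dB_c, AA_zero, smul_zero]
  rw [BS_mul, Finset.Nat.sum_antidiagonal_eq_sum_range_succ
    (fun a b => (AA R z true).1 a * sh a ((dB u (AA R z false)).1 b)), Finset.sum_range_succ,
    Finset.sum_range_succ', Nat.sub_self, z1, AA_zero, map_zero, mul_zero,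
    zero_mul, add_zero, add_zero]
  apply Finset.sum_congr rfl
  intro a ha
  rw [Finset.mem_range] at ha
  obtain ⟨c, hc⟩ : ∃ c, m = a + 1 + c := ⟨m - a - 1, by omega⟩
  subst hc
  have e1 : a + 1 + c + 1 - (a + 1) = c + 1 := by omega
  have e2 : a + 1 + c - a = c + 1 := by omega
  have e3 : a + 1 + c - 1 - a = c := by omega
  rw [e1, e2, dB_c, AA_succ, AA_succ, map_smul, mul_smul_comm]
  unfold ZZ
  rw [e3]

/-- the skein relation `A - \bar A = z A \bar A` -/
theorem skein_cl : cl (AA R z true) - cl (AA R z false) =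
    sc z * (cl (AA R z true) * cl (AA R z false)) := by
  rw [← map_sub, ← map_mul, ← dg_const, dg_cl]
  congr 1
  apply BS_ext
  intro n
  change (AA R z true).1 n - (AA R z false).1 n = z • (AA R z true * AA R z false).1 n
  cases n with
  | zero =>
    rw [AA_zero, AA_zero, BS_mul, Finset.Nat.antidiagonal_zero, Finset.sum_singleton, AA_zero,
      zero_mul, sub_zero, smul_zero]
  | succ m =>
    have h1 := AA_mul_dg (z := z) (fun _ => (1 : R)) m
    have h2 : dB (fun _ => (1 : R)) (AA R z false) = AA R z false :=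
      BS_ext fun n => one_smul _ _
    rw [h2] at h1
    rw [h1, AA_succ, AA_succ]
    have h3 := bet_eq (z := z) m m le_rfl
    have h4 : bet 0 (m + 1) m = upw 0 m true := by
      unfold bet
      have : m + 1 - 1 - m = 0 := by omega
      rw [this, Bunch_upw_zero, List.append_nil]
    rw [h4] at h3
    rw [h3, add_sub_cancel_left]
    simp only [one_smul]

/-- `β = D \bar A + z A D \bar A` -/
theorem beta_cl : cl (XX R z) = dg (fun n => (n : R)) (cl (AA R z false)) +
    sc z * (cl (AA R z true) * dg (fun n => (n : R)) (cl (AA R z false))) := by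
  rw [dg_cl, ← map_mul, ← dg_const, dg_cl, ← map_add]
  congr 1
  apply BS_ext
  intro n
  change (betaE n : Hk R z) = (n : R) • (AA R z false).1 n +
    z • (AA R z true * dB (fun n => (n : R)) (AA R z false)).1 n
  cases n with
  | zero =>
    rw [BS_mul, Finset.Nat.antidiagonal_zero, Finset.sum_singleton, AA_zero, AA_zero,
      zero_mul, smul_zero, smul_zero, add_zero]
    rfl
  | succ m =>
    rw [AA_mul_dg, AA_succ]
    unfold betaE
    rw [Finset.sum_congr rfl (fun k hk => bet_eq (z := z) m k (by
      have := Finset.mem_range.1 hk; omega)), Finset.sum_add_distrib, Finset.sum_const,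
      Finset.card_range, ← Finset.smul_sum, ← Nat.cast_smul_eq_nsmul R]
    congr 2
    -- double sum
    have : ∀ M : ℕ, M ≤ m + 1 → ∑ k ∈ Finset.range M, ∑ a ∈ Finset.range k, ZZ R z m a =
        ∑ a ∈ Finset.range (M - 1), ((M - 1 - a : ℕ) : R) • ZZ R z m a := by
      intro M
      induction M with
      | zero => intro _; simp
      | succ M ih =>
        intro hM
        rw [Finset.sum_range_succ, ih (by omega), Nat.add_sub_cancel]
        cases M with
        | zero => simp
        | succ M =>
          rw [Nat.add_sub_cancel, Finset.sum_range_succ _ M, Finset.sum_range_succ _ M, ← add_assoc,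
            ← Finset.sum_add_distrib]
          congr 1
          · apply Finset.sum_congr rfl
            intro a ha
            rw [Finset.mem_range] at ha
            have e : M + 1 - a = (M - a) + 1 := by omega
            rw [e, Nat.cast_add, Nat.cast_one, add_smul, one_smul]
          · have e : M + 1 - M = 1 := by omega
            rw [e, Nat.cast_one, one_smul]
    have := this (m + 1) le_rfl
    rw [Nat.add_sub_cancel] at this
    exact this

end Seq

end PpA

end Pool.Agent.H873
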