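import Pool.Agent.Helper873_Hecke.PpSym

set_option autoImplicit false

/-!
# The algebra of closed braids in the annulus (part of S_Pp)

`CC R z = ∏_n H_n / [H_n, H_n]` with the product induced by juxtaposition `x ⊗ y = x * sh_n y`
(`x ∈ H_n`). It is commutative.
-/

namespace Pool.Agent.H873

namespace PpA

open Equiv Hk

variable {R : Type} [CommRing R] {z : R}

/-! ### commutators -/

/-- the span of the commutators of `H_n` -/
noncomputable def CM (R : Type) [CommRing R] (z : R) (n : ℕ) : Submodule R (Hk R z) :=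
  Submodule.span R {x | ∃ a ∈ (Hs n : Subalgebra R (Hk R z)),
    ∃ b ∈ (Hs n : Subalgebra R (Hk R z)), x = a * b - b * a}

theorem mem_CM {n : ℕ} {a b : Hk R z} (ha : a ∈ (Hs n : Subalgebra R (Hk R z)))
    (hb : b ∈ (Hs n : Subalgebra R (Hk R z))) : a * b - b * a ∈ CM R z n :=
  Submodule.subset_span ⟨a, ha, b, hb, rfl⟩

theorem CM_trace {M : Type*} [AddCommGroup M] [Module R M] {n : ℕ} {f : Hk R z →ₗ[R] M}
    (hf : IsTrace n f) {x : Hk R z} (hx : x ∈ CM R z n) : f x = 0 := by
  refine Submodule.span_induction (p := fun x _ => f x = 0) ?_ ?_ ?_ ?_ hx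
  · rintro _ ⟨a, ha, b, hb, rfl⟩
    rw [map_sub, hf a ha b hb, sub_self]
  · exact map_zero f
  · intro a b _ _ ha hb; rw [map_add, ha, hb, add_zero]
  · intro r a _ ha; rw [map_smul, ha, smul_zero]

theorem sh_mem' {a b : ℕ} {y : Hk R z} (hy : y ∈ (Hs b : Subalgebra R (Hk R z))) :
    sh a y ∈ (Hs (a + b) : Subalgebra R (Hk R z)) := by
  rw [add_comm]; exact sh_mem_Hs hy

theorem mul_sh_mem {a b : ℕ} {x y : Hk R z} (hx : x ∈ (Hs a : Subalgebra R (Hk R z)))
    (hy : y ∈ (Hs b : Subalgebra R (Hk R z))) :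
    x * sh a y ∈ (Hs (a + b) : Subalgebra R (Hk R z)) :=
  mul_mem (Hs_mono (Nat.le_add_right a b) hx) (sh_mem' hy)

theorem CM_mul_sh {a b : ℕ} {x y : Hk R z} (hx : x ∈ CM R z a)
    (hy : y ∈ (Hs b : Subalgebra R (Hk R z))) : x * sh a y ∈ CM R z (a + b) := by
  refine Submodule.span_induction (p := fun x _ => x * sh a y ∈ CM R z (a + b)) ?_ ?_ ?_ ?_ hx
  · rintro _ ⟨u, hu, v, hv, rfl⟩
    have e : (u * v - v * u) * sh a y = u * (v * sh a y) - (v * sh a y) * u := by
      have := commute_sh hu y
      rw [sub_mul, mul_assoc, mul_assoc, mul_assoc, ← this]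
    rw [e]
    exact mem_CM (Hs_mono (Nat.le_add_right a b) hu) (mul_sh_mem hv hy)
  · rw [zero_mul]; exact zero_mem _
  · intro u v _ _ hu hv; rw [add_mul]; exact add_mem hu hv
  · intro r u _ hu; rw [smul_mul_assoc]; exact Submodule.smul_mem _ _ hu

theorem mul_sh_CM {a b : ℕ} {x y : Hk R z} (hx : x ∈ (Hs a : Subalgebra R (Hk R z)))
    (hy : y ∈ CM R z b) : x * sh a y ∈ CM R z (a + b) := by
  refine Submodule.span_induction (p := fun y _ => x * sh a y ∈ CM R z (a + b)) ?_ ?_ ?_ ?_ hy
  · rintro _ ⟨u, hu, v, hv, rfl⟩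
    have e : x * sh a (u * v - v * u) = (x * sh a u) * sh a v - sh a v * (x * sh a u) := by
      have := commute_sh hx v
      rw [map_sub, map_mul, map_mul, mul_sub, ← mul_assoc, ← mul_assoc, this, ← mul_assoc]
    rw [e]
    exact mem_CM (mul_sh_mem hx hu) (sh_mem' hv)
  · rw [map_zero, mul_zero]; exact zero_mem _
  · intro u v _ _ hu hv; rw [map_add, mul_add]; exact add_mem hu hv
  · intro r u _ hu; rw [map_smul, mul_smul_comm]; exact Submodule.smul_mem _ _ hu

theorem comm_CM {a b : ℕ} {x y : Hk R z} (hx : x ∈ (Hs a : Subalgebra R (Hk R z)))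
    (hy : y ∈ (Hs b : Subalgebra R (Hk R z))) : x * sh a y - y * sh b x ∈ CM R z (a + b) := by
  obtain ⟨h1, h2, h3, -, -, h6, -⟩ := t_bunch R z true 0 a b
  obtain ⟨-, -, h3', -, -, h6', -⟩ := t_bunch R z false 0 b a
  set X : Hk R z := wd (xw true 0 a b) with hX
  set Y : Hk R z := wd (xw false 0 b a) with hY
  have hXY : X * Y = 1 := h3
  have hYX : Y * X = 1 := h3'
  have hXm : X ∈ (Hs (a + b) : Subalgebra R (Hk R z)) := by
    apply wd_mem_Hs
    intro l hl
    have := (h6 l hl).2
    omega
  have hYm : Y ∈ (Hs (a + b) : Subalgebra R (Hk R z)) := by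
    apply wd_mem_Hs
    intro l hl
    have := (h6' l hl).2
    omega
  have g1 : X * x = sh b x * X := by
    have := h1 x hx
    rwa [sh_zero, zero_add] at this
  have g2 : X * sh a y = y * X := by
    have := h2 y hy
    rwa [zero_add, sh_zero] at this
  have key : X * (x * sh a y) = y * sh b x * X := by
    rw [← mul_assoc, g1, mul_assoc, g2, ← mul_assoc, ← commute_sh hy x]
  have e : x * sh a y - y * sh b x = Y * (X * (x * sh a y)) - X * (x * sh a y) * Y := by
    rw [← mul_assoc Y, hYX, one_mul, key, mul_assoc _ X Y, hXY, mul_one]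
  rw [e]
  exact mem_CM hYm (mul_mem hXm (mul_sh_mem hx hy))

/-! ### the ring of sequences -/

/-- sequences of elements of the Hecke algebra, with the product `(F * G)_n = Σ F_a sh_a(G_b)` -/
def Sk (R : Type) [CommRing R] (z : R) := ℕ → Hk R z

namespace Sk

noncomputable instance : AddCommGroup (Sk R z) := inferInstanceAs (AddCommGroup (ℕ → Hk R z))

theorem ext' {F G : Sk R z} (h : ∀ n, F n = G n) : F = G := funext h

noncomputable instance instMul : Mul (Sk R z) :=
  ⟨fun F G n => ∑ x ∈ Finset.HasAntidiagonal.antidiagonal n, F x.1 * sh x.1 (G x.2)⟩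

noncomputable instance instOne : One (Sk R z) := ⟨fun n => if n = 0 then 1 else 0⟩

theorem mul_c (F G : Sk R z) (n : ℕ) :
    (F * G) n = ∑ x ∈ Finset.HasAntidiagonal.antidiagonal n, F x.1 * sh x.1 (G x.2) := rfl

theorem one_c (n : ℕ) : (1 : Sk R z) n = if n = 0 then 1 else 0 := rfl

theorem add_c (F G : Sk R z) (n : ℕ) : (F + G) n = F n + G n := rfl
theorem sub_c (F G : Sk R z) (n : ℕ) : (F - G) n = F n - G n := rfl
theorem neg_c (F : Sk R z) (n : ℕ) : (-F) n = - F n := rfl
theorem zero_c (n : ℕ) : (0 : Sk R z) n = 0 := rfl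

noncomputable instance : Ring (Sk R z) :=
  { (inferInstance : AddCommGroup (Sk R z)) with
    mul := fun F G => F * G
    one := 1
    left_distrib := fun F G K => by
      apply ext'
      intro n
      change (F * (G + K)) n = (F * G) n + (F * K) n
      rw [mul_c, mul_c, mul_c, ← Finset.sum_add_distrib]
      apply Finset.sum_congr rfl
      intro x _
      rw [add_c, map_add, mul_add]
    right_distrib := fun F G K => by
      apply ext'
      intro n
      change ((F + G) * K) n = (F * K) n + (G * K) n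
      rw [mul_c, mul_c, mul_c, ← Finset.sum_add_distrib]
      apply Finset.sum_congr rfl
      intro x _
      rw [add_c, add_mul]
    zero_mul := fun F => by
      apply ext'
      intro n
      change (0 * F) n = 0
      rw [mul_c]
      apply Finset.sum_eq_zero
      intro x _
      rw [zero_c, zero_mul]
    mul_zero := fun F => by
      apply ext'
      intro n
      change (F * 0) n = 0
      rw [mul_c]
      apply Finset.sum_eq_zero
      intro x _
      rw [zero_c, map_zero, mul_zero]
    mul_assoc := fun F G K => by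
      apply ext'
      intro n
      change ((F * G) * K) n = (F * (G * K)) n
      simp only [mul_c, Finset.sum_mul, Finset.mul_sum, map_sum, Finset.sum_sigma']
      refine Finset.sum_nbij' (fun x => ⟨(x.2.1, x.2.2 + x.1.2), (x.2.2, x.1.2)⟩)
        (fun x => ⟨(x.1.1 + x.2.1, x.2.2), (x.1.1, x.2.1)⟩) ?_ ?_ ?_ ?_ ?_
      · rintro ⟨⟨a, b⟩, ⟨c, d⟩⟩ h
        simp only [Finset.mem_sigma, Finset.HasAntidiagonal.mem_antidiagonal] at h ⊢
        obtain ⟨h1, h2⟩ := h
        constructor <;> first | trivial | omega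
      · rintro ⟨⟨a, b⟩, ⟨c, d⟩⟩ h
        simp only [Finset.mem_sigma, Finset.HasAntidiagonal.mem_antidiagonal] at h ⊢
        obtain ⟨h1, h2⟩ := h
        constructor <;> first | trivial | omega
      · rintro ⟨⟨a, b⟩, ⟨c, d⟩⟩ h
        simp only [Finset.mem_sigma, Finset.HasAntidiagonal.mem_antidiagonal] at h ⊢
        obtain ⟨h1, h2⟩ := h
        subst h2
        rfl
      · rintro ⟨⟨a, b⟩, ⟨c, d⟩⟩ h
        simp only [Finset.mem_sigma, Finset.HasAntidiagonal.mem_antidiagonal] at h ⊢
        obtain ⟨h1, h2⟩ := h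
        subst h2
        rfl
      · rintro ⟨⟨a, b⟩, ⟨c, d⟩⟩ h
        simp only [Finset.mem_sigma, Finset.HasAntidiagonal.mem_antidiagonal] at h ⊢
        obtain ⟨h1, h2⟩ := h
        subst h2
        rw [map_mul, sh_sh, mul_assoc, add_comm d c]
    one_mul := fun F => by
      apply ext'
      intro n
      change (1 * F) n = F n
      rw [mul_c, Finset.sum_eq_single (0, n)]
      · rw [one_c, if_pos rfl, one_mul, sh_zero]
      · rintro ⟨a, b⟩ h h2
        rw [Finset.HasAntidiagonal.mem_antidiagonal] at h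
        have : a ≠ 0 := by
          rintro rfl
          apply h2
          simp only [zero_add] at h
          rw [h]
        rw [one_c, if_neg this, zero_mul]
      · intro h
        exact absurd (Finset.HasAntidiagonal.mem_antidiagonal.2 (zero_add n)) h
    mul_one := fun F => by
      apply ext'
      intro n
      change (F * 1) n = F n
      rw [mul_c, Finset.sum_eq_single (n, 0)]
      · rw [one_c, if_pos rfl, map_one, mul_one]
      · rintro ⟨a, b⟩ h h2
        rw [Finset.HasAntidiagonal.mem_antidiagonal] at h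
        have : b ≠ 0 := by
          rintro rfl
          apply h2
          simp only [add_zero] at h
          rw [h]
        rw [one_c, if_neg this, map_zero, mul_zero]
      · intro h
        exact absurd (Finset.HasAntidiagonal.mem_antidiagonal.2 (add_zero n)) h }

end Sk

/-- the sequences with `F_n ∈ H_n` -/
noncomputable def BS (R : Type) [CommRing R] (z : R) : Subring (Sk R z) where
  carrier := {F | ∀ n, F n ∈ (Hs n : Subalgebra R (Hk R z))}
  mul_mem' := by
    intro F G hF hG n
    rw [Sk.mul_c]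
    apply Subalgebra.sum_mem
    rintro ⟨a, b⟩ h
    rw [Finset.HasAntidiagonal.mem_antidiagonal] at h
    dsimp only at h ⊢
    rw [← h]
    exact mul_sh_mem (hF a) (hG b)
  one_mem' := by
    intro n
    rw [Sk.one_c]
    split_ifs
    · exact one_mem _
    · exact zero_mem _
  add_mem' := by
    intro F G hF hG n
    rw [Sk.add_c]
    exact add_mem (hF n) (hG n)
  zero_mem' := fun n => zero_mem _
  neg_mem' := by
    intro F hF n
    rw [Sk.neg_c]
    exact neg_mem (hF n)

theorem BS_mem (F : BS R z) (n : ℕ) : F.1 n ∈ (Hs n : Subalgebra R (Hk R z)) := F.2 n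

theorem BS_ext {F G : BS R z} (h : ∀ n, F.1 n = G.1 n) : F = G := Subtype.ext (funext h)

theorem BS_mul (F G : BS R z) (n : ℕ) :
    (F * G).1 n = ∑ x ∈ Finset.HasAntidiagonal.antidiagonal n, F.1 x.1 * sh x.1 (G.1 x.2) := rfl

/-- equality up to commutators -/
noncomputable def cc (R : Type) [CommRing R] (z : R) : RingCon (BS R z) where
  r F G := ∀ n, F.1 n - G.1 n ∈ CM R z n
  iseqv :=
    { refl := fun F n => by rw [sub_self]; exact zero_mem _
      symm := fun {F G} h n => by
        have := neg_mem (h n)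
        rwa [neg_sub] at this
      trans := fun {F G K} h h' n => by
        have := add_mem (h n) (h' n)
        rwa [sub_add_sub_cancel] at this }
  mul' := by
    intro F F' G G' hF hG n
    have e : (F * G).1 n - (F' * G').1 n = ∑ x ∈ Finset.HasAntidiagonal.antidiagonal n,
        ((F.1 x.1 - F'.1 x.1) * sh x.1 (G.1 x.2) + F'.1 x.1 * sh x.1 (G.1 x.2 - G'.1 x.2)) := by
      rw [BS_mul, BS_mul, ← Finset.sum_sub_distrib]
      apply Finset.sum_congr rfl
      intro x _
      rw [map_sub, mul_sub, sub_mul, sub_add_sub_cancel]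
    change (F * G).1 n - (F' * G').1 n ∈ CM R z n
    rw [e]
    apply Submodule.sum_mem
    rintro ⟨a, b⟩ h
    rw [Finset.HasAntidiagonal.mem_antidiagonal] at h
    dsimp only at h ⊢
    rw [← h]
    exact add_mem (CM_mul_sh (hF a) (BS_mem G b)) (mul_sh_CM (BS_mem F' a) (hG b))
  add' := by
    intro F F' G G' hF hG n
    have e : (F + G).1 n - (F' + G').1 n = (F.1 n - F'.1 n) + (G.1 n - G'.1 n) :=
      add_sub_add_comm _ _ _ _
    change (F + G).1 n - (F' + G').1 n ∈ CM R z n
    rw [e]
    exact add_mem (hF n) (hG n)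

/-- the algebra of closed braids in the annulus (completed) -/
abbrev CC (R : Type) [CommRing R] (z : R) := (cc R z).Quotient

/-- the class of a sequence -/
noncomputable def cl : BS R z →+* CC R z := (cc R z).mk'

theorem cl_surj (x : CC R z) : ∃ F, cl F = x := RingCon.mk'_surjective _ x

theorem cl_eq {F G : BS R z} : cl F = cl G ↔ ∀ n, F.1 n - G.1 n ∈ CM R z n := (cc R z).eq

noncomputable instance : CommRing (CC R z) :=
  { (inferInstance : Ring (CC R z)) with
    mul_comm := by
      intro x y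
      obtain ⟨F, rfl⟩ := cl_surj x
      obtain ⟨G, rfl⟩ := cl_surj y
      rw [← map_mul, ← map_mul, cl_eq]
      intro n
      rw [BS_mul, BS_mul, ← Finset.Nat.sum_antidiagonal_swap (n := n) (f := fun x : ℕ × ℕ =>
        G.1 x.1 * sh x.1 (F.1 x.2)), ← Finset.sum_sub_distrib]
      apply Submodule.sum_mem
      rintro ⟨a, b⟩ h
      rw [Finset.HasAntidiagonal.mem_antidiagonal] at h
      dsimp only [Prod.swap] at h ⊢
      rw [← h]
      exact comm_CM (BS_mem F a) (BS_mem G b) }

/-! ### diagonal operators -/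

/-- `F_n ↦ u_n F_n` -/
noncomputable def dB (u : ℕ → R) (F : BS R z) : BS R z :=
  ⟨fun n => u n • F.1 n, fun n => Subalgebra.smul_mem _ (BS_mem F n) (u n)⟩

theorem dB_c (u : ℕ → R) (F : BS R z) (n : ℕ) : (dB u F).1 n = u n • F.1 n := rfl

/-- the diagonal operator on `CC` -/
noncomputable def dg (u : ℕ → R) (x : CC R z) : CC R z := cl (dB u (cl_surj x).choose)

theorem dg_cl (u : ℕ → R) (F : BS R z) : dg u (cl F) = cl (dB u F) := by
  unfold dg
  have h := (cl_surj (cl F)).choose_spec
  rw [cl_eq] at h ⊢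
  intro n
  rw [dB_c, dB_c, ← smul_sub]
  exact Submodule.smul_mem _ _ (h n)

theorem dg_dg (u v : ℕ → R) (x : CC R z) : dg u (dg v x) = dg (fun n => u n * v n) x := by
  obtain ⟨F, rfl⟩ := cl_surj x
  rw [dg_cl, dg_cl, dg_cl]
  congr 1
  apply BS_ext
  intro n
  rw [dB_c, dB_c, dB_c, smul_smul]

theorem dg_comm (u v : ℕ → R) (x : CC R z) : dg u (dg v x) = dg v (dg u x) := by
  rw [dg_dg, dg_dg]
  congr 1
  funext n
  exact mul_comm _ _

theorem dg_add (u v : ℕ → R) (x : CC R z) : dg (fun n => u n + v n) x = dg u x + dg v x := by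
  obtain ⟨F, rfl⟩ := cl_surj x
  rw [dg_cl, dg_cl, dg_cl, ← map_add]
  congr 1
  apply BS_ext
  intro n
  exact add_smul _ _ _

theorem dg_sub (u v : ℕ → R) (x : CC R z) : dg (fun n => u n - v n) x = dg u x - dg v x := by
  obtain ⟨F, rfl⟩ := cl_surj x
  rw [dg_cl, dg_cl, dg_cl, ← map_sub]
  congr 1
  apply BS_ext
  intro n
  exact sub_smul _ _ _

theorem dg_neg (u : ℕ → R) (x : CC R z) : dg (fun n => - u n) x = - dg u x := by
  obtain ⟨F, rfl⟩ := cl_surj x
  rw [dg_cl, dg_cl, ← map_neg]
  congr 1
  apply BS_ext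
  intro n
  exact neg_smul _ _

theorem dg_one (x : CC R z) : dg (fun _ => 1) x = x := by
  obtain ⟨F, rfl⟩ := cl_surj x
  rw [dg_cl]
  congr 1
  apply BS_ext
  intro n
  exact one_smul _ _

theorem dg_mul1 {u v w : ℕ → R} (h : ∀ a b, u (a + b) = v a * w b) (x y : CC R z) :
    dg u (x * y) = dg v x * dg w y := by
  obtain ⟨F, rfl⟩ := cl_surj x
  obtain ⟨G, rfl⟩ := cl_surj y
  rw [← map_mul, dg_cl, dg_cl, dg_cl, ← map_mul]
  congr 1
  apply BS_ext
  intro n
  rw [dB_c, BS_mul, BS_mul, Finset.smul_sum]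
  apply Finset.sum_congr rfl
  rintro ⟨a, b⟩ hab
  rw [Finset.HasAntidiagonal.mem_antidiagonal] at hab
  dsimp only at hab ⊢
  rw [dB_c, dB_c, map_smul, smul_mul_assoc, mul_smul_comm, smul_smul, ← h, hab]

theorem dg_mul2 {u v w v' w' : ℕ → R} (h : ∀ a b, u (a + b) = v a * w b + v' a * w' b)
    (x y : CC R z) : dg u (x * y) = dg v x * dg w y + dg v' x * dg w' y := by
  obtain ⟨F, rfl⟩ := cl_surj x
  obtain ⟨G, rfl⟩ := cl_surj y
  rw [← map_mul, dg_cl, dg_cl, dg_cl, dg_cl, dg_cl, ← map_mul, ← map_mul, ← map_add]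
  congr 1
  apply BS_ext
  intro n
  change (dB u (F * G)).1 n = (dB v F * dB w G).1 n + (dB v' F * dB w' G).1 n
  rw [dB_c, BS_mul, BS_mul, BS_mul, Finset.smul_sum, ← Finset.sum_add_distrib]
  apply Finset.sum_congr rfl
  rintro ⟨a, b⟩ hab
  rw [Finset.HasAntidiagonal.mem_antidiagonal] at hab
  dsimp only at hab ⊢
  rw [dB_c, dB_c, dB_c, dB_c, map_smul, map_smul, smul_mul_assoc, smul_mul_assoc, mul_smul_comm,
    mul_smul_comm, smul_smul, smul_smul, ← add_smul, ← h, hab]

/-- multiplication by a scalar as multiplication by an element of `CC` -/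
noncomputable def sc (c : R) : CC R z := dg (fun _ => c) 1

theorem dg_const (c : R) (x : CC R z) : dg (fun _ => c) x = sc c * x := by
  have := dg_mul1 (z := z) (u := fun _ => c) (v := fun _ => c) (w := fun _ => 1)
    (fun _ _ => (mul_one c).symm) 1 x
  rw [one_mul, dg_one] at this
  exact this

/-- cancellation of a series with constant term `1` -/
theorem cancel_unit {y : CC R z} {F : BS R z} (hF : F.1 0 = 1) (h : y * cl F = 0) : y = 0 := by
  obtain ⟨Y, rfl⟩ := cl_surj y
  rw [← map_mul, ← map_zero cl, cl_eq] at h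
  rw [← map_zero cl, cl_eq]
  have h' : ∀ n, (Y * F).1 n ∈ CM R z n := by
    intro n
    have := h n
    change (Y * F).1 n - 0 ∈ _ at this
    rwa [sub_zero] at this
  have key : ∀ n, Y.1 n ∈ CM R z n := by
    intro n
    induction n using Nat.strong_induction_on with
    | _ n ih =>
      have h1 := h' n
      rw [BS_mul, ← Finset.add_sum_erase _ _
        (Finset.HasAntidiagonal.mem_antidiagonal.2 (add_zero n) : ((n, 0) : ℕ × ℕ) ∈ Finset.HasAntidiagonal.antidiagonal n)] at h1
      dsimp only at h1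
      rw [hF, map_one, mul_one] at h1
      have h2 : ∑ x ∈ (Finset.HasAntidiagonal.antidiagonal n).erase (n, 0), Y.1 x.1 * sh x.1 (F.1 x.2) ∈ CM R z n := by
        apply Submodule.sum_mem
        rintro ⟨a, b⟩ hab
        rw [Finset.mem_erase, Finset.HasAntidiagonal.mem_antidiagonal] at hab
        obtain ⟨hab1, hab2⟩ := hab
        dsimp only at hab2 ⊢
        have hb : b ≠ 0 := by
          rintro rfl
          apply hab1
          rw [add_zero] at hab2
          rw [hab2]
        have := CM_mul_sh (ih a (by omega)) (BS_mem F b)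
        rwa [hab2] at this
      have := sub_mem h1 h2
      rwa [add_sub_cancel_right] at this
  intro n
  change Y.1 n - 0 ∈ _
  rw [sub_zero]
  exact key n

end PpA

end Pool.Agent.H873
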