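import Pool.Agent.Helper873_Hecke.Stmts2
import Pool.Agent.Helper873_Hecke.Bunch
import Pool.Agent.Helper873_Hecke.EpsZ

set_option autoImplicit false

/-!
# Symmetrisers and antisymmetrisers of the Hecke algebra (part of S_Pp)

`SF x n = Σ_{w ∈ S_n} x^{ℓ(w)} T_w` in factored form; it absorbs the generators with the scalar `x`
whenever `z = x - x⁻¹`, so that `x = q` gives the symmetriser and `x = -q⁻¹` the antisymmetriser.
-/

namespace Pool.Agent.H873

namespace PpA

open Equiv Hk

section Gen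

variable {R : Type*} [CommRing R] {z : R}

theorem Pp_Y (e f : Bool) (k r j : ℕ) (h1 : k ≤ j) (h2 : j + 1 < k + r) :
    (wd (dnw k r e) * gen f (j + 1) : Hk R z) = gen f j * wd (dnw k r e) := by
  cases f
  · change (wd (dnw k r e) * (sg (j + 1) - z • 1) : Hk R z) = (sg j - z • 1) * wd (dnw k r e)
    rw [mul_sub, sub_mul, Bunch_Y e k r j h1 h2, mul_smul_comm, mul_one, smul_mul_assoc, one_mul]
  · exact Bunch_Y e k r j h1 h2

/-- `gen e i ^ 2 = 1 ± z gen e i` -/
theorem Pp_gen_sq (e : Bool) (i : ℕ) :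
    (gen e i * gen e i : Hk R z) = 1 + (if e then z else -z) • gen e i := by
  cases e
  · change (sgi i * sgi i : Hk R z) = 1 + (-z) • sgi i
    have h : (sgi i * sgi i : Hk R z) = (sg i - z • 1) * sgi i := rfl
    rw [h, sub_mul, sg_mul_sgi, smul_mul_assoc, one_mul, neg_smul, sub_eq_add_neg]
  · exact sg_sq i

/-- right absorption is inherited by the product with the sum over the minimal coset
representatives -/
theorem Pp_absorb (e : Bool) (y : R) (hy : y * y = 1 + (if e then z else -z) * y) (n : ℕ)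
    (F : Hk R z) (hF : ∀ i, i + 1 < n → F * gen e i = y • F) (i : ℕ) (hi : i + 1 < n + 1) :
    F * (∑ j ∈ Finset.range (n + 1), y ^ j • wd (dnw (n - j) j e)) * gen e i =
      y • (F * (∑ j ∈ Finset.range (n + 1), y ^ j • wd (dnw (n - j) j e))) := by
  classical
  set t : ℕ → Hk R z := fun j => F * wd (dnw (n - j) j e) with ht
  obtain ⟨c, hc⟩ : ∃ c, n = c + 1 + i := ⟨n - 1 - i, by omega⟩
  have hsum : F * (∑ j ∈ Finset.range (n + 1), y ^ j • wd (dnw (n - j) j e)) =
      ∑ j ∈ Finset.range (n + 1), y ^ j • t j := by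
    rw [Finset.mul_sum]
    apply Finset.sum_congr rfl
    intro j _
    rw [mul_smul_comm]
  have hc1 : t (c + 1) = t c * gen e i := by
    rw [ht]
    dsimp only
    have e1 : n - c = (n - (c + 1)) + 1 := by omega
    have e2 : n - (c + 1) = i := by omega
    rw [e1, Bunch_dnw_succ', wd_append, wd_cons, wd_nil, mul_one, e2, mul_assoc]
  have hc2 : t (c + 1) * gen e i = t c + (if e then z else -z) • t (c + 1) := by
    rw [hc1, mul_assoc, Pp_gen_sq, mul_add, mul_one, mul_smul_comm]
  have hother : ∀ j ∈ Finset.range (n + 1), j ≠ c → j ≠ c + 1 → t j * gen e i = y • t j := by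
    intro j hj h1 h2
    rw [Finset.mem_range] at hj
    rw [ht]
    dsimp only
    by_cases h3 : j < c
    · have hcomm : Commute (gen e i : Hk R z) (wd (dnw (n - j) j e)) := by
        apply Bunch_wd_comm
        intro l hl
        have := Bunch_mem_dnw hl
        exact Bunch_gen_gen e l.2 (Or.inl (by omega))
      rw [mul_assoc, ← hcomm.eq, ← mul_assoc, hF i (by omega), smul_mul_assoc]
    · obtain ⟨i', rfl⟩ : ∃ i', i = i' + 1 := ⟨i - 1, by omega⟩
      rw [mul_assoc, Pp_Y e e (n - j) j i' (by omega) (by omega), ← mul_assoc, hF i' (by omega),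
        smul_mul_assoc]
  rw [hsum, Finset.sum_mul, Finset.smul_sum, ← sub_eq_zero, ← Finset.sum_sub_distrib]
  have hsub : ({c, c + 1} : Finset ℕ) ⊆ Finset.range (n + 1) := by
    intro x hx
    simp only [Finset.mem_insert, Finset.mem_singleton] at hx
    rw [Finset.mem_range]; omega
  rw [← Finset.sum_subset hsub, Finset.sum_pair (by omega)]
  · rw [smul_mul_assoc, smul_mul_assoc, ← hc1, hc2]
    have hy' : (if e then z else -z) * y = y * y - 1 := by rw [hy]; ring
    have key : (y ^ (c + 1) * (if e then z else -z)) = y ^ c * (y * y - 1) := by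
      rw [← hy']; ring
    simp only [smul_add, smul_smul, key]
    module
  · intro j hj hj2
    simp only [Finset.mem_insert, Finset.mem_singleton, not_or] at hj2
    rw [smul_mul_assoc, hother j hj hj2.1 hj2.2, smul_smul, smul_smul, mul_comm, sub_self]

/-! ### the anti-involution `T_w ↦ T_{w⁻¹}` -/

/-- the linear map `T w ↦ T w⁻¹` -/
noncomputable def iota : Hk R z →ₗ[R] Hk R z := basis.constr R (fun w : G => (T w⁻¹ : Hk R z))

theorem iota_T (w : G) : iota (T w : Hk R z) = T w⁻¹ := by
  unfold iota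
  exact basis.constr_basis R _ w

theorem iota_one : iota (1 : Hk R z) = 1 := by rw [Hk.one_def, iota_T, inv_one]

theorem iota_sg_mul (i : ℕ) (x : Hk R z) : iota (sg i * x) = iota x * sg i := by
  have : iota ∘ₗ lmul (sg i : Hk R z) = rmul (sg i) ∘ₗ iota := by
    refine hext (fun w => ?_)
    change iota ((sg i : Hk R z) * (T w : Hk R z)) = iota (T w : Hk R z) * (sg i : Hk R z)
    by_cases h : LA i w
    · rw [sg_mul_T_asc h, iota_T, iota_T, T_mul_sg_asc ((RA_inv i w).2 h), mul_inv_rev, s_inv]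
    · rw [sg_mul_T_desc h, map_add, map_smul, iota_T, iota_T,
        T_mul_sg_desc (fun h' => h ((RA_inv i w).1 h')), mul_inv_rev, s_inv]
  exact congrArg (fun f => f x) this

theorem iota_mul_sg (i : ℕ) (x : Hk R z) : iota (x * sg i) = sg i * iota x := by
  have : iota ∘ₗ rmul (sg i : Hk R z) = lmul (sg i) ∘ₗ iota := by
    refine hext (fun w => ?_)
    change iota ((T w : Hk R z) * (sg i : Hk R z)) = (sg i : Hk R z) * iota (T w : Hk R z)
    by_cases h : RA i w
    · rw [T_mul_sg_asc h, iota_T, iota_T, sg_mul_T_asc ((LA_inv i w).2 h), mul_inv_rev, s_inv]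
    · rw [T_mul_sg_desc h, map_add, map_smul, iota_T, iota_T,
        sg_mul_T_desc (fun h' => h ((LA_inv i w).1 h')), mul_inv_rev, s_inv]
  exact congrArg (fun f => f x) this

theorem iota_mem {n : ℕ} {x : Hk R z} (hx : x ∈ Hs n) : iota x ∈ (Hs n : Subalgebra R (Hk R z)) := by
  refine Hs_induction (P := fun x => iota x ∈ (Hs n : Subalgebra R (Hk R z))) ?_ ?_ ?_ ?_ hx
  · rw [iota_one]; exact one_mem _
  · intro x _ y _ hx hy; rw [map_add]; exact add_mem hx hy
  · intro r x _ hx; rw [map_smul]; exact Subalgebra.smul_mem _ hx _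
  · intro i hi x _ hx; rw [iota_sg_mul]; exact mul_mem hx (sg_mem_Hs hi)

/-! ### characters and absorption -/

theorem eps_iota (eps : Hk R z →ₐ[R] R) (y : Hk R z) :
    eps (iota y) = eps y := by
  refine Hk.induction (P := fun y => eps (iota y) = eps y) ?_ ?_ ?_ ?_ y
  · rw [iota_one]
  · intro a b ha hb; rw [map_add, map_add, map_add, ha, hb]
  · intro r a ha; rw [map_smul, map_smul, map_smul, ha]
  · intro i a ha; rw [iota_sg_mul, map_mul, map_mul, ha, mul_comm]

theorem absorb_right {x : R} (eps : Hk R z →ₐ[R] R) (he : ∀ i, eps (sg i) = x) {n : ℕ}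
    {F : Hk R z} (hF : ∀ i, i + 1 < n → F * sg i = x • F) {y : Hk R z} (hy : y ∈ Hs n) :
    F * y = eps y • F := by
  refine Hs_induction (P := fun y => F * y = eps y • F) ?_ ?_ ?_ ?_ hy
  · rw [mul_one, map_one, one_smul]
  · intro a _ b _ ha hb; rw [mul_add, ha, hb, map_add, add_smul]
  · intro r a _ ha; rw [mul_smul_comm, ha, map_smul, smul_smul, smul_eq_mul]
  · intro i hi a _ ha
    rw [← mul_assoc, hF i hi, smul_mul_assoc, ha, map_mul, he, smul_smul]

theorem absorb_left {x : R} (eps : Hk R z →ₐ[R] R) (he : ∀ i, eps (sg i) = x) {n : ℕ}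
    {F : Hk R z} (hF : ∀ i, i + 1 < n → sg i * F = x • F) {y : Hk R z} (hy : y ∈ Hs n) :
    y * F = eps y • F := by
  refine Hs_induction (P := fun y => y * F = eps y • F) ?_ ?_ ?_ ?_ hy
  · rw [one_mul, map_one, one_smul]
  · intro a _ b _ ha hb; rw [add_mul, ha, hb, map_add, add_smul]
  · intro r a _ ha; rw [smul_mul_assoc, ha, map_smul, smul_smul, smul_eq_mul]
  · intro i hi a _ ha
    rw [mul_assoc, ha, mul_smul_comm, hF i hi, map_mul, he, smul_smul, mul_comm]

theorem eps_gen_false {x xi : R} (hz : z = x - xi) (eps : Hk R z →ₐ[R] R)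
    (he : ∀ i, eps (sg i) = x) (i : ℕ) : eps (gen false i) = xi := by
  change eps (sg i - z • 1 : Hk R z) = xi
  rw [map_sub, he, map_smul, map_one, hz, smul_eq_mul, mul_one, sub_sub_cancel]

theorem eps_dnw {x xi : R} (hz : z = x - xi) (eps : Hk R z →ₐ[R] R)
    (he : ∀ i, eps (sg i) = x) (e : Bool) (a n : ℕ) :
    eps (wd (dnw a n e)) = (if e then x else xi) ^ n := by
  induction n with
  | zero => rw [Bunch_dnw_zero, wd_nil, map_one, pow_zero]
  | succ n ih =>
    rw [Bunch_dnw_succ, wd_cons, map_mul, ih, pow_succ']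
    congr 1
    cases e
    · exact eps_gen_false hz eps he _
    · exact he _

theorem wd_dnw_mem (n j : ℕ) (hj : j < n + 1) (e : Bool) :
    (wd (dnw (n - j) j e) : Hk R z) ∈ (Hs (n + 1) : Subalgebra R (Hk R z)) := by
  apply wd_mem_Hs
  intro l hl
  have := Bunch_mem_dnw hl
  omega

/-! ### the unnormalised symmetriser -/

/-- `SF x n = Σ_{w ∈ S_n} x^{ℓ(w)} T_w` -/
noncomputable def SF (x : R) : ℕ → Hk R z
  | 0 => 1
  | n + 1 => SF x n * ∑ j ∈ Finset.range (n + 1), x ^ j • wd (dnw (n - j) j true)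

theorem SF_mem (x : R) (n : ℕ) : (SF x n : Hk R z) ∈ (Hs n : Subalgebra R (Hk R z)) := by
  induction n with
  | zero => exact one_mem _
  | succ n ih =>
    apply mul_mem (Hs_mono (Nat.le_succ n) ih)
    apply Subalgebra.sum_mem
    intro j hj
    exact Subalgebra.smul_mem _ (wd_dnw_mem n j (Finset.mem_range.1 hj) true) _

theorem SF_mul_sg {x xi : R} (hx : x * xi = 1) (hz : z = x - xi) (n : ℕ) :
    ∀ i, i + 1 < n → (SF x n * sg i : Hk R z) = x • SF x n := by
  induction n with
  | zero => intro i hi; omega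
  | succ n ih =>
    intro i hi
    have hy : x * x = 1 + (if true then z else -z) * x := by
      rw [if_pos rfl, hz]; linear_combination hx
    exact Pp_absorb true x hy n (SF x n) (fun i hi => ih i hi) i hi

/-- the value of the character on `SF` -/
def NN (x : R) (n : ℕ) : R := ∏ j ∈ Finset.range n, (∑ i ∈ Finset.range (j + 1), x ^ (2 * i))

theorem eps_SF {x xi : R} (hz : z = x - xi) (eps : Hk R z →ₐ[R] R)
    (he : ∀ i, eps (sg i) = x) (n : ℕ) : eps (SF x n) = NN x n := by
  induction n with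
  | zero => change eps 1 = 1; rw [map_one]
  | succ n ih =>
    change eps (SF x n * ∑ j ∈ Finset.range (n + 1), x ^ j • wd (dnw (n - j) j true)) = _
    unfold NN at ih ⊢
    rw [map_mul, ih, Finset.prod_range_succ, map_sum]
    congr 1
    apply Finset.sum_congr rfl
    intro j _
    rw [map_smul, eps_dnw hz eps he, if_pos rfl, smul_eq_mul, two_mul, pow_add]

end Gen

/-! ### the normalised symmetriser over a field -/

section Fld

variable {K : Type} [Field K] {z : K}

/-- the idempotent symmetriser -/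
noncomputable def ee (x : K) (n : ℕ) : Hk K z := (NN x n)⁻¹ • SF x n

/-- standing hypotheses -/
structure HX (z x xi : K) : Prop where
  inv : x * xi = 1
  zdef : z = x - xi
  qn0 : ∀ k, 0 < k → qn x xi k ≠ 0

theorem qn_symm {R : Type*} [CommRing R] (q qi : R) (n : ℕ) : qn qi q n = qn q qi n := by
  unfold qn
  rw [← Finset.sum_range_reflect]
  apply Finset.sum_congr rfl
  intro j hj
  rw [Finset.mem_range] at hj
  have : n - 1 - (n - 1 - j) = j := by omega
  rw [this, mul_comm]

theorem HX.ne {x xi : K} (h : HX z x xi) : x ≠ 0 := fun h0 => by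
  have := h.inv
  rw [h0, zero_mul] at this
  exact zero_ne_one this

theorem HX.NN_ne {x xi : K} (h : HX z x xi) (n : ℕ) : NN x n ≠ 0 := by
  unfold NN
  rw [Finset.prod_ne_zero_iff]
  intro j _
  rw [EpsZ_qn h.inv]
  exact mul_ne_zero (pow_ne_zero _ h.ne) (h.qn0 _ (Nat.succ_pos j))

theorem HX.iota_SF {x xi : K} (h : HX z x xi) (n : ℕ) : iota (SF x n : Hk K z) = SF x n := by
  obtain ⟨eps, he⟩ := t_eps K x xi z h.inv h.zdef
  have h1 := SF_mul_sg (z := z) h.inv h.zdef n
  have h2 : ∀ i, i + 1 < n → (sg i * iota (SF x n) : Hk K z) = x • iota (SF x n) := by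
    intro i hi
    rw [← iota_mul_sg, h1 i hi, map_smul]
  have e1 := absorb_right eps he h1 (iota_mem (SF_mem x n))
  have e2 := absorb_left eps he h2 (SF_mem x n)
  rw [e1, eps_iota eps, eps_SF h.zdef eps he] at e2
  exact (smul_right_injective _ (h.NN_ne n) e2).symm

theorem ee_mem (x : K) (n : ℕ) : (ee x n : Hk K z) ∈ (Hs n : Subalgebra K (Hk K z)) :=
  Subalgebra.smul_mem _ (SF_mem x n) _

theorem ee_zero (x : K) : (ee x 0 : Hk K z) = 1 := by
  unfold ee NN SF
  rw [Finset.prod_range_zero, inv_one, one_smul]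

theorem HX.ee_mul_sg {x xi : K} (h : HX z x xi) {n i : ℕ} (hi : i + 1 < n) :
    (ee x n * sg i : Hk K z) = x • ee x n := by
  unfold ee
  rw [smul_mul_assoc, SF_mul_sg h.inv h.zdef n i hi, smul_comm]

theorem HX.sg_mul_ee {x xi : K} (h : HX z x xi) {n i : ℕ} (hi : i + 1 < n) :
    (sg i * ee x n : Hk K z) = x • ee x n := by
  unfold ee
  rw [mul_smul_comm, ← h.iota_SF n, ← iota_mul_sg, SF_mul_sg h.inv h.zdef n i hi, map_smul, smul_comm]

theorem HX.eps_ee {x xi : K} (h : HX z x xi) (eps : Hk K z →ₐ[K] K)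
    (he : ∀ i, eps (sg i) = x) (n : ℕ) : eps (ee x n) = 1 := by
  unfold ee
  rw [map_smul, eps_SF h.zdef eps he, smul_eq_mul, inv_mul_cancel₀ (h.NN_ne n)]

/-- the recursion of the symmetrisers, in terms of negative crossings -/
theorem HX.ee_rec {x xi : K} (h : HX z x xi) (n : ℕ) :
    (ee x n * ∑ j ∈ Finset.range (n + 1), xi ^ j • wd (dnw (n - j) j false) : Hk K z) =
      (xi ^ n * qn x xi (n + 1)) • ee x (n + 1) := by
  obtain ⟨eps, he⟩ := t_eps K x xi z h.inv h.zdef
  set Gn : Hk K z := ee x n * ∑ j ∈ Finset.range (n + 1), xi ^ j • wd (dnw (n - j) j false) with hG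
  have hGm : Gn ∈ (Hs (n + 1) : Subalgebra K (Hk K z)) := by
    apply mul_mem (Hs_mono (Nat.le_succ n) (ee_mem x n))
    apply Subalgebra.sum_mem
    intro j hj
    exact Subalgebra.smul_mem _ (wd_dnw_mem n j (Finset.mem_range.1 hj) false) _
  have hsgi : ∀ {m i : ℕ}, i + 1 < m → (ee x m * gen false i : Hk K z) = xi • ee x m := by
    intro m i hi
    change (ee x m * (sg i - z • 1) : Hk K z) = xi • ee x m
    rw [mul_sub, h.ee_mul_sg hi, mul_smul_comm, mul_one, h.zdef, ← sub_smul, sub_sub_cancel]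
  have h1 : ∀ i, i + 1 < n + 1 → Gn * gen false i = xi • Gn := by
    have hy : xi * xi = 1 + (if false then z else -z) * xi := by
      rw [if_neg (by decide), h.zdef]; linear_combination h.inv
    exact fun i hi => Pp_absorb false xi hy n (ee x n) (fun i hi => hsgi hi) i hi
  have h2 : ∀ i, i + 1 < n + 1 → Gn * sg i = x • Gn := by
    intro i hi
    have e : (sg i : Hk K z) = gen false i + z • 1 := by
      change (sg i : Hk K z) = sg i - z • 1 + z • 1
      rw [sub_add_cancel]
    have e2 : xi + z = x := by rw [h.zdef]; ring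
    rw [e, mul_add, h1 i hi, mul_smul_comm, mul_one, ← add_smul, e2]
  have e1 := absorb_right eps he h2 (ee_mem x (n + 1))
  have e2 := absorb_left eps he (fun i hi => h.sg_mul_ee hi) hGm
  rw [e1, h.eps_ee eps he, one_smul] at e2
  rw [e2]
  congr 1
  rw [hG, map_mul, h.eps_ee eps he, one_mul, map_sum]
  have : ∀ j ∈ Finset.range (n + 1), eps (xi ^ j • wd (dnw (n - j) j false)) = xi ^ (2 * j) := by
    intro j _
    rw [map_smul, eps_dnw h.zdef eps he, if_neg (by decide), smul_eq_mul, two_mul, pow_add]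
  rw [Finset.sum_congr rfl this, EpsZ_qn (by rw [mul_comm]; exact h.inv), qn_symm, Nat.add_sub_cancel]

end Fld

end PpA

end Pool.Agent.H873
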