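import Pool.Agent.Helper873_Hecke.Basic

set_option autoImplicit false

/-!
# Shifts, the finite subalgebras `Hs n`, sums over `S_m`
-/

namespace Pool.Agent.H873

open Equiv

/-- permutations fixing every `m ≥ n` -/
def SS (n : ℕ) : Set G := {w | ∀ m, n ≤ m → w.1 m = m}

theorem one_mem_SS (n : ℕ) : (1 : G) ∈ SS n := fun _ _ => rfl

theorem s_mem_SS {i n : ℕ} (h : i + 1 < n) : s i ∈ SS n := by
  intro m hm
  rw [s_apply, if_neg (by omega), if_neg (by omega)]

theorem mul_mem_SS {n : ℕ} {a b : G} (ha : a ∈ SS n) (hb : b ∈ SS n) : a * b ∈ SS n := by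
  intro m hm
  change a.1 (b.1 m) = m
  rw [hb m hm, ha m hm]

theorem inv_mem_SS {n : ℕ} {a : G} (ha : a ∈ SS n) : a⁻¹ ∈ SS n := by
  intro m hm
  have := pinv a m
  rwa [ha m hm] at this

theorem s_mul_mem_SS {i n : ℕ} (h : i + 1 < n) (w : G) : s i * w ∈ SS n ↔ w ∈ SS n := by
  constructor
  · intro hw
    have := mul_mem_SS (s_mem_SS h) hw
    rwa [s_mul_s_mul] at this
  · exact mul_mem_SS (s_mem_SS h)

theorem mul_s_mem_SS {i n : ℕ} (h : i + 1 < n) (w : G) : w * s i ∈ SS n ↔ w ∈ SS n := by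
  constructor
  · intro hw
    have := mul_mem_SS hw (s_mem_SS h)
    rwa [mul_s_mul_s] at this
  · exact fun hw => mul_mem_SS hw (s_mem_SS h)

/-- the permutation `w` moved `k` places to the right -/
noncomputable def shG (k : ℕ) : G →* G where
  toFun w := ⟨Perm.viaEmbeddingHom (addRightEmbedding k) w.1, by
    obtain ⟨n, hn⟩ := w.2
    refine ⟨n + k, fun m hm => ?_⟩
    obtain ⟨j, rfl⟩ : ∃ j, m = j + k := ⟨m - k, by omega⟩
    have := Perm.viaEmbedding_apply w.1 (addRightEmbedding k) j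
    change Perm.viaEmbedding w.1 (addRightEmbedding k) (addRightEmbedding k j) = j + k
    rw [this, hn j (by omega)]
    rfl⟩
  map_one' := Subtype.ext (map_one _)
  map_mul' := fun a b => Subtype.ext (map_mul _ _ _)

theorem shG_apply_add (k : ℕ) (w : G) (j : ℕ) : (shG k w).1 (j + k) = w.1 j + k :=
  Perm.viaEmbedding_apply w.1 (addRightEmbedding k) j

theorem shG_apply_lt (k : ℕ) (w : G) {j : ℕ} (h : j < k) : (shG k w).1 j = j := by
  apply Perm.viaEmbedding_apply_of_notMem
  rintro ⟨x, hx⟩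
  simp only [addRightEmbedding_apply] at hx
  omega

theorem shG_s (k i : ℕ) : shG k (s i) = s (i + k) := by
  apply Subtype.ext
  ext x
  by_cases h : x < k
  · rw [shG_apply_lt k _ h, s_apply, if_neg (by omega), if_neg (by omega)]
  · obtain ⟨j, rfl⟩ : ∃ j, x = j + k := ⟨x - k, by omega⟩
    rw [shG_apply_add, s_apply, s_apply]
    split_ifs <;> omega

theorem LA_shG (k i : ℕ) (w : G) : LA (i + k) (shG k w) ↔ LA i w := by
  unfold LA
  rw [← map_inv, shG_apply_add]
  have : i + k + 1 = (i + 1) + k := by omega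
  rw [this, shG_apply_add]
  omega

/-- the permutation of `ℕ` given by a permutation of `{0, …, m - 1}` -/
noncomputable def emb (m : ℕ) : Perm (Fin m) →* G where
  toFun g := ⟨Perm.viaEmbeddingHom Fin.valEmbedding g, by
    refine ⟨m, fun j hj => ?_⟩
    apply Perm.viaEmbedding_apply_of_notMem
    rintro ⟨x, hx⟩
    have := x.2
    simp only [Fin.valEmbedding_apply] at hx
    omega⟩
  map_one' := Subtype.ext (map_one _)
  map_mul' := fun a b => Subtype.ext (map_mul _ _ _)

theorem emb_apply (m : ℕ) (g : Perm (Fin m)) (i : Fin m) : (emb m g).1 i = g i :=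
  Perm.viaEmbedding_apply g Fin.valEmbedding i

theorem emb_apply_ge (m : ℕ) (g : Perm (Fin m)) {j : ℕ} (h : m ≤ j) : (emb m g).1 j = j := by
  apply Perm.viaEmbedding_apply_of_notMem
  rintro ⟨x, hx⟩
  have := x.2
  simp only [Fin.valEmbedding_apply] at hx
  omega

theorem emb_mem_SS (m : ℕ) (g : Perm (Fin m)) : emb m g ∈ SS m := fun _ hj => emb_apply_ge m g hj

theorem emb_injective (m : ℕ) : Function.Injective (emb m) := by
  intro g h e
  ext i
  rw [← emb_apply, ← emb_apply, e]

theorem exists_emb {m : ℕ} {w : G} (h : w ∈ SS m) : ∃ g, emb m g = w := by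
  have hlt : ∀ i : Fin m, w.1 i < m := by
    intro i
    by_contra hc
    push Not at hc
    have := h _ hc
    have := w.1.injective this
    have := i.2
    omega
  have hlt' : ∀ i : Fin m, w⁻¹.1 i < m := by
    intro i
    by_contra hc
    push Not at hc
    have h1 := inv_mem_SS h _ hc
    have := w⁻¹.1.injective h1
    have := i.2
    omega
  refine ⟨⟨fun i => ⟨w.1 i, hlt i⟩, fun i => ⟨w⁻¹.1 i, hlt' i⟩, ?_, ?_⟩, ?_⟩
  · intro i
    apply Fin.ext
    exact pinv w i
  · intro i
    apply Fin.ext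
    exact papp w i
  · apply Subtype.ext
    ext x
    by_cases hx : x < m
    · exact emb_apply m _ ⟨x, hx⟩
    · rw [emb_apply_ge m _ (by omega), h x (by omega)]

namespace Hk

variable {R : Type*} [CommRing R] {z : R}

/-- the linear map underlying the shift -/
noncomputable def shL (k : ℕ) : Hk R z →ₗ[R] Hk R z :=
  basis.constr R (fun w : G => (T (shG k w) : Hk R z))

theorem shL_T (k : ℕ) (w : G) : shL k (T w : Hk R z) = T (shG k w) := by
  unfold shL
  exact basis.constr_basis R _ w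

/-- the shift `σ_i ↦ σ_{i+k}` -/
noncomputable def sh (k : ℕ) : Hk R z →ₐ[R] Hk R z :=
  AlgHom.ofLinearMap (shL k)
    (by rw [one_def, shL_T, map_one])
    (by
      refine map_mul_of_sg (A := Hk R z) (shL k) (fun i => (sg (i + k) : Hk R z)) ?_ ?_
      · rw [one_def, shL_T, map_one]
      · intro i w
        by_cases h : LA i w
        · rw [sg_mul_T_asc h, shL_T, shL_T, sg_mul_T_asc ((LA_shG k i w).2 h), map_mul, shG_s]
        · rw [sg_mul_T_desc h, map_add, map_smul, shL_T, shL_T,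
            sg_mul_T_desc (fun h' => h ((LA_shG k i w).1 h')), map_mul, shG_s])

theorem sh_T (k : ℕ) (w : G) : sh k (T w : Hk R z) = T (shG k w) := shL_T k w

theorem sh_sg (k i : ℕ) : sh k (sg i : Hk R z) = sg (i + k) := by
  unfold sg
  rw [sh_T, shG_s]

theorem sh_sgi (k i : ℕ) : sh k (sgi i : Hk R z) = sgi (i + k) := by
  unfold sgi
  rw [map_sub, sh_sg, map_smul, map_one]

theorem sh_gen (k i : ℕ) (e : Bool) : sh k (gen e i : Hk R z) = gen e (i + k) := by
  cases e
  · exact sh_sgi k i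
  · exact sh_sg k i

theorem sh_zero (x : Hk R z) : sh 0 x = x := by
  refine induction (P := fun x => sh 0 x = x) ?_ ?_ ?_ ?_ x
  · rw [map_one]
  · intro x y hx hy; rw [map_add, hx, hy]
  · intro r x hx; rw [map_smul, hx]
  · intro i x hx; rw [map_mul, sh_sg, hx, Nat.add_zero]

theorem sh_sh (k l : ℕ) (x : Hk R z) : sh k (sh l x) = sh (l + k) x := by
  refine induction (P := fun x => sh k (sh l x) = sh (l + k) x) ?_ ?_ ?_ ?_ x
  · rw [map_one, map_one, map_one]
  · intro x y hx hy; rw [map_add, map_add, map_add, hx, hy]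
  · intro r x hx; rw [map_smul, map_smul, map_smul, hx]
  · intro i x hx; rw [map_mul, map_mul, map_mul, sh_sg, sh_sg, sh_sg, hx, Nat.add_assoc]

/-- the subalgebra `H_n` of `n` strands, generated by `σ_i`, `i + 1 < n` -/
noncomputable def Hs (n : ℕ) : Subalgebra R (Hk R z) := Algebra.adjoin R {x | ∃ i, i + 1 < n ∧ x = sg i}

theorem sg_mem_Hs {i n : ℕ} (h : i + 1 < n) : (sg i : Hk R z) ∈ Hs n :=
  Algebra.subset_adjoin ⟨i, h, rfl⟩

theorem sgi_mem_Hs {i n : ℕ} (h : i + 1 < n) : (sgi i : Hk R z) ∈ Hs n := by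
  unfold sgi
  exact sub_mem (sg_mem_Hs h) (Subalgebra.smul_mem _ (one_mem _) _)

theorem gen_mem_Hs {i n : ℕ} (e : Bool) (h : i + 1 < n) : (gen e i : Hk R z) ∈ Hs n := by
  cases e
  · exact sgi_mem_Hs h
  · exact sg_mem_Hs h

theorem Hs_mono {m n : ℕ} (h : m ≤ n) {x : Hk R z} (hx : x ∈ Hs m) : x ∈ Hs n := by
  have : (Hs m : Subalgebra R (Hk R z)) ≤ Hs n := by
    apply Algebra.adjoin_mono
    rintro _ ⟨i, hi, rfl⟩
    exact ⟨i, by omega, rfl⟩
  exact this hx

/-- elements of `H_n` are exactly the combinations of the `T w`, `w ∈ S_n` -/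
theorem mem_Hs_iff {n : ℕ} {x : Hk R z} : x ∈ Hs n ↔ proj (SS n) x = x := by
  classical
  constructor
  · intro hx
    induction hx using Algebra.adjoin_induction with
    | mem x hx =>
      obtain ⟨i, hi, rfl⟩ := hx
      exact proj_T_of_mem (s_mem_SS hi)
    | algebraMap r =>
      rw [Algebra.algebraMap_eq_smul_one, map_smul, one_def, proj_T_of_mem (one_mem_SS n)]
    | add x y _ _ hx hy => rw [map_add, hx, hy]
    | mul x y hx' hy' hx hy =>
      clear hx hy'
      induction hx' using Algebra.adjoin_induction generalizing y with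
      | mem x hx =>
        obtain ⟨i, hi, rfl⟩ := hx
        rw [proj_sg_mul (s_mul_mem_SS hi), hy]
      | algebraMap r =>
        rw [Algebra.algebraMap_eq_smul_one, smul_mul_assoc, one_mul, map_smul, hy]
      | add a b _ _ ha hb => rw [add_mul, map_add, ha y hy, hb y hy]
      | mul a b _ _ ha hb => rw [mul_assoc]; exact ha _ (hb y hy)
  · intro hx
    have hT : ∀ w ∈ SS n, (T w : Hk R z) ∈ Hs n := by
      intro w hw
      obtain ⟨l, hl, hl2⟩ := exists_red_aux n _ w hw rfl
      rw [T_mul_T_of_red hl]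
      apply Subalgebra.list_prod_mem
      intro y hy
      obtain ⟨i, hi, rfl⟩ := List.mem_map.1 hy
      exact sg_mem_Hs (hl2 i hi)
    rw [← hx, ← basis.linearCombination_repr x, Finsupp.linearCombination_apply]
    unfold Finsupp.sum
    rw [map_sum]
    apply Subalgebra.sum_mem
    intro w _
    rw [map_smul]
    apply Subalgebra.smul_mem
    change proj (SS n) (T w : Hk R z) ∈ Hs n
    by_cases h : w ∈ SS n
    · rw [proj_T_of_mem h]; exact hT w h
    · rw [proj_T_of_notMem h]; exact zero_mem _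

theorem T_mem_Hs {n : ℕ} {w : G} (hw : w ∈ SS n) : (T w : Hk R z) ∈ Hs n :=
  mem_Hs_iff.2 (proj_T_of_mem hw)

/-- induction over `H_n` -/
theorem Hs_induction {n : ℕ} {P : Hk R z → Prop} (h1 : P 1)
    (hadd : ∀ x ∈ (Hs n : Subalgebra R (Hk R z)), ∀ y ∈ (Hs n : Subalgebra R (Hk R z)), P x → P y → P (x + y))
    (hsmul : ∀ (r : R), ∀ x ∈ (Hs n : Subalgebra R (Hk R z)), P x → P (r • x))
    (hmul : ∀ i, i + 1 < n → ∀ x ∈ (Hs n : Subalgebra R (Hk R z)), P x → P (sg i * x))
    {x : Hk R z} (hx : x ∈ Hs n) : P x := by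
  classical
  have hT : ∀ w ∈ SS n, P (T w : Hk R z) := by
    intro w hw
    obtain ⟨l, hl, hl2⟩ := exists_red_aux n _ w hw rfl
    clear hw
    induction hl with
    | nil => exact h1
    | cons i l w hl' hi ih =>
      rw [← sg_mul_T_asc hi]
      have hl3 : ∀ j ∈ l, j + 1 < n := fun j hj => hl2 j (List.mem_cons_of_mem _ hj)
      apply hmul i (hl2 i List.mem_cons_self)
      · rw [T_mul_T_of_red hl']
        apply Subalgebra.list_prod_mem
        intro y hy
        obtain ⟨j, hj, rfl⟩ := List.mem_map.1 hy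
        exact sg_mem_Hs (hl3 j hj)
      · exact ih hl3
  have h0 : P 0 := by
    have := hsmul 0 _ (one_mem _) h1
    rwa [zero_smul] at this
  have hx' := mem_Hs_iff.1 hx
  rw [← hx', ← basis.linearCombination_repr x, Finsupp.linearCombination_apply]
  unfold Finsupp.sum
  rw [map_sum]
  have key : ∀ S : Finset G, P (∑ w ∈ S, proj (SS n) ((basis.repr x) w • (basis w : Hk R z))) ∧
      (∑ w ∈ S, proj (SS n) ((basis.repr x) w • (basis w : Hk R z))) ∈ (Hs n : Subalgebra R (Hk R z)) := by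
    intro S
    induction S using Finset.induction_on with
    | empty => rw [Finset.sum_empty]; exact ⟨h0, zero_mem _⟩
    | insert a S ha ih =>
      rw [Finset.sum_insert ha, map_smul]
      change P ((basis.repr x) a • proj (SS n) (T a : Hk R z) + _) ∧
        ((basis.repr x) a • proj (SS n) (T a : Hk R z) + _) ∈ _
      by_cases h : a ∈ SS n
      · rw [proj_T_of_mem h]
        have m1 : (T a : Hk R z) ∈ Hs n := T_mem_Hs h
        have m2 := Subalgebra.smul_mem _ m1 ((basis.repr x) a)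
        exact ⟨hadd _ m2 _ ih.2 (hsmul _ _ m1 (hT a h)) ih.1, add_mem m2 ih.2⟩
      · rw [proj_T_of_notMem h, smul_zero, zero_add]
        exact ih
  exact (key _).1

theorem sh_mem_Hs {k n : ℕ} {x : Hk R z} (hx : x ∈ Hs n) : sh k x ∈ (Hs (n + k) : Subalgebra R (Hk R z)) := by
  refine Hs_induction (P := fun x => sh k x ∈ (Hs (n + k) : Subalgebra R (Hk R z))) ?_ ?_ ?_ ?_ hx
  · rw [map_one]; exact one_mem _
  · intro x _ y _ hx hy; rw [map_add]; exact add_mem hx hy
  · intro r x _ hx; rw [map_smul]; exact Subalgebra.smul_mem _ hx _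
  · intro i hi x _ hx; rw [map_mul, sh_sg]; exact mul_mem (sg_mem_Hs (by omega)) hx

/-- `H_k` commutes with `sh_k H` -/
theorem commute_sh {k : ℕ} {x : Hk R z} (hx : x ∈ Hs k) (y : Hk R z) : x * sh k y = sh k y * x := by
  refine Hs_induction (P := fun x => x * sh k y = sh k y * x) ?_ ?_ ?_ ?_ hx
  · rw [one_mul, mul_one]
  · intro a _ b _ ha hb; rw [add_mul, mul_add, ha, hb]
  · intro r a _ ha; rw [smul_mul_assoc, mul_smul_comm, ha]
  · intro i hi a _ ha
    have key : (sg i * sh k y : Hk R z) = sh k y * sg i := by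
      refine induction (P := fun y => (sg i * sh k y : Hk R z) = sh k y * sg i) ?_ ?_ ?_ ?_ y
      · rw [map_one, one_mul, mul_one]
      · intro a b ha hb; rw [map_add, add_mul, mul_add, ha, hb]
      · intro r a ha; rw [map_smul, smul_mul_assoc, mul_smul_comm, ha]
      · intro j b hb
        rw [map_mul, sh_sg, ← mul_assoc, sg_comm (by omega : i + 2 ≤ j + k), mul_assoc, hb, mul_assoc]
    rw [mul_assoc, ha, ← mul_assoc, key, mul_assoc]

theorem sh_commute {k : ℕ} {x : Hk R z} (hx : x ∈ Hs k) (y : Hk R z) : sh k y * x = x * sh k y :=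
  (commute_sh hx y).symm

/-- `Tr m x = Σ_{w ∈ S_m} T_w x T_{w⁻¹}` -/
noncomputable def Tr (m : ℕ) (x : Hk R z) : Hk R z :=
  ∑ g : Perm (Fin m), T (emb m g) * x * T (emb m g⁻¹)

/-- `f` is a trace functional on `H_n` -/
def IsTrace {M : Type*} [AddCommGroup M] [Module R M] (n : ℕ) (f : Hk R z →ₗ[R] M) : Prop :=
  ∀ x ∈ (Hs n : Subalgebra R (Hk R z)), ∀ y ∈ (Hs n : Subalgebra R (Hk R z)), f (x * y) = f (y * x)

end Hk

end Pool.Agent.H873
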