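import Pool.Agent.Helper873_Hecke.HDefs

set_option autoImplicit false

/-!
# Exact statements of the parts of the proof (project Hecke lifting, MP_e17fed_gt)

Section numbers refer to the paper proof (table `papers`, pid `MP_e17fed_gt`).
-/

namespace Pool.Agent.H873

open Equiv Hk

/-! ## Section 2: Jucys-Murphy elements and Markov families -/

/-- S_JM -/
def S_JM : Prop := ∀ (R : Type) [CommRing R] (z : R),
  (∀ i k, i ≠ k → i + 1 ≠ k → (sg i * L k : Hk R z) = L k * sg i) ∧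
  (∀ k, (L k : Hk R z) ∈ (Hs (k + 1) : Subalgebra R (Hk R z))) ∧
  (∀ i k, (L i * L k : Hk R z) = L k * L i) ∧
  (∀ i, (J (i + 1) : Hk R z) = sg i * J i * sg i) ∧
  (∀ i, (sg i * (L i * L (i + 1)) : Hk R z) = L i * L (i + 1) * sg i) ∧
  (∀ i, (sg i * (L i + L (i + 1)) : Hk R z) = (L i + L (i + 1)) * sg i)

/-- S_markov -/
def S_markov : Prop := ∀ (R : Type) [CommRing R] (z d al : R),
  (∀ n, IsTrace n (Mk d al n : Hk R z →ₗ[R] R)) ∧
  (∀ n, (th d al n : Hk R z) ∈ (Hs n : Subalgebra R (Hk R z))) ∧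
  (∀ n, ∀ x ∈ (Hs n : Subalgebra R (Hk R z)), x * th d al n = th d al n * x) ∧
  (Mk d al 0 (1 : Hk R z) = 1 ∧ Mk d al 1 (1 : Hk R z) = 1) ∧
  (∀ n, ∀ x ∈ (Hs (n + 1) : Subalgebra R (Hk R z)), Mk d al (n + 2) x = d * Mk d al (n + 1) x) ∧
  (∀ n e, ∀ x ∈ (Hs (n + 1) : Subalgebra R (Hk R z)), ∀ y ∈ (Hs (n + 1) : Subalgebra R (Hk R z)),
    Mk d al (n + 2) (x * gen e n * y) = apm z d al e * Mk d al (n + 1) (x * y))

/-- S_markov_beta: closing a separate bunch carrying `β` -/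
def S_markov_beta : Prop := ∀ (R : Type) [CommRing R] (z d al : R) (m : ℕ), 1 ≤ m →
  (Mk d al m (betaE m : Hk R z) =
    ∑ k ∈ Finset.range m, al ^ k * (al - z * d) ^ (m - 1 - k)) ∧
  (∀ n, ∀ x ∈ (Hs (n + 1) : Subalgebra R (Hk R z)),
    Mk d al (n + 1 + m) (x * sh (n + 1) (betaE m)) =
      d * (∑ k ∈ Finset.range m, al ^ k * (al - z * d) ^ (m - 1 - k)) * Mk d al (n + 1) x)

/-- S_markov_cI: the functional `f_m = τ(· L_1 ⋯ L_{m-1})` on Coxeter elements of parabolics -/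
def S_markov_cI : Prop := ∀ (R : Type) [CommRing R] (z : R) (m : ℕ), 1 ≤ m →
  ∀ I ⊆ Finset.range (m - 1), Mk 0 1 m (cI I : Hk R z) = if I = Finset.range (m - 1) then 1 else 0

/-! ## Section 3: induction principles -/

/-- hypotheses of the induction principle over closed braids -/
structure INDHyp (P : ℕ → BW → Prop) : Prop where
  far : ∀ n x y i j, i + 2 ≤ j → Valid n (x ++ (i, true) :: (j, true) :: y) →
    (P n (x ++ (i, true) :: (j, true) :: y) ↔ P n (x ++ (j, true) :: (i, true) :: y))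
  braid : ∀ n x y i, Valid n (x ++ (i, true) :: (i + 1, true) :: (i, true) :: y) →
    (P n (x ++ (i, true) :: (i + 1, true) :: (i, true) :: y) ↔
      P n (x ++ (i + 1, true) :: (i, true) :: (i + 1, true) :: y))
  cancel : ∀ n x y i, Valid n (x ++ y) → i + 1 < n → P n (x ++ y) →
    P n (x ++ (i, true) :: (i, false) :: y)
  skein : ∀ n x y i, Valid n (x ++ y) → i + 1 < n → P n (x ++ y) →
    (P n (x ++ (i, true) :: y) ↔ P n (x ++ (i, false) :: y))
  rot : ∀ n x y, Valid n x → (∀ l ∈ y, l.1 + 2 < n) → (P n (x ++ y) ↔ P n (y ++ x))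
  split : ∀ n w, 1 ≤ n → Valid n w → P n w → P (n + 1) w
  curl : ∀ n w, Valid (n + 1) w → P (n + 1) w → P (n + 2) (w ++ [(n, true)])
  base : P 1 []

/-- S_IND -/
def S_IND : Prop := ∀ P : ℕ → BW → Prop, INDHyp P → ∀ n w, 1 ≤ n → Valid n w → P n w

/-- S_span: a trace functional on `H_n` vanishing on all `c_I` vanishes on `H_n` -/
def S_span : Prop := ∀ (R : Type) [CommRing R] (z : R) (M : Type) [AddCommGroup M] [Module R M]
  (n : ℕ) (f : Hk R z →ₗ[R] M), 1 ≤ n → IsTrace n f →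
  (∀ I ⊆ Finset.range (n - 1), f (cI I) = 0) →
  ∀ x ∈ (Hs n : Subalgebra R (Hk R z)), f x = 0

/-! ## Section 4: bunch crossings -/

/-- S_bunch -/
def S_bunch : Prop := ∀ (R : Type) [CommRing R] (z : R) (e : Bool) (k s r : ℕ),
  (∀ a ∈ (Hs s : Subalgebra R (Hk R z)),
    wd (xw e k s r) * sh k a = sh (k + r) a * wd (xw e k s r)) ∧
  (∀ b ∈ (Hs r : Subalgebra R (Hk R z)),
    wd (xw e k s r) * sh (k + s) b = sh k b * wd (xw e k s r)) ∧
  ((wd (xw e k s r) * wd (xw (!e) k r s) : Hk R z) = 1) ∧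
  (∀ r1 r2, (wd (xw e k s (r1 + r2)) : Hk R z) = wd (xw e (k + r1) s r2) * wd (xw e k s r1)) ∧
  ((wd (xw e k r r) * wd (xw e (k + r) r r) * wd (xw e k r r) : Hk R z) =
    wd (xw e (k + r) r r) * wd (xw e k r r) * wd (xw e (k + r) r r)) ∧
  (∀ l ∈ xw e k s r, k ≤ l.1 ∧ l.1 + 1 < k + s + r) ∧
  ((wd (xw e k s r) : Hk R z) = sh k (wd (xw e 0 s r)))

/-- S_twist -/
def S_twist : Prop := ∀ (R : Type) [CommRing R] (z : R) (e : Bool) (k r : ℕ),
  (∀ a ∈ (Hs r : Subalgebra R (Hk R z)), wd (dw e k r) * sh k a = sh k a * wd (dw e k r)) ∧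
  ((wd (dw e k r) * wd (dw (!e) k r) : Hk R z) = 1) ∧
  ((wd (dw e k r) : Hk R z) = sh k (wd (dw e 0 r))) ∧
  ((wd (dw true 0 r) : Hk R z) = th 1 z r) ∧
  ((wd (dw e 0 r) : Hk R z) ∈ (Hs r : Subalgebra R (Hk R z)))

/-- S_close: closing a bunch crossed once by its neighbour -/
def S_close : Prop := ∀ (R : Type) [CommRing R] (z d al : R) (e : Bool) (m r : ℕ), r ≤ m →
  ∀ x ∈ (Hs m : Subalgebra R (Hk R z)), ∀ y ∈ (Hs m : Subalgebra R (Hk R z)),
    Mk d al (m + r) (x * wd (xw e (m - r) r r) * y) =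
      apm z d al e ^ r * Mk d al m (x * wd (dw e (m - r) r) * y)

/-! ## Section 5 -/

/-- S_prim (5a) -/
def S_prim : Prop := ∀ (R : Type) [CommRing R] (z : R) (b l : ℕ), 1 ≤ b → 1 ≤ l →
  ∀ y1 ∈ (Hs b : Subalgebra R (Hk R z)), ∀ y2 ∈ (Hs l : Subalgebra R (Hk R z)),
    tau (betaE (b + l) * Tr (b + l) (y1 * sh b y2)) = 0

/-- quantum integer `[n] = Σ q^{n-1-i} q^{-i}` -/
def qn {R : Type*} [CommRing R] (q qi : R) (n : ℕ) : R :=
  ∑ i ∈ Finset.range n, q ^ (n - 1 - i) * qi ^ i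

/-- the standing hypotheses on the coefficient ring (section 1) -/
structure Good (R : Type) [CommRing R] (p : ℕ) (q qi z : R) : Prop where
  prime : p.Prime
  inv : q * qi = 1
  zdef : z = q - qi
  unit : PU p z
  zunit : IsUnit z
  kunit : ∀ k, 0 < k → k < p → IsUnit (qn q qi k)
  sq : qn q qi p ^ 2 = 0

/-- S_eps: the character `σ_i ↦ q` -/
def S_eps : Prop := ∀ (R : Type) [CommRing R] (q qi z : R), q * qi = 1 → z = q - qi →
  ∃ eps : Hk R z →ₐ[R] R, ∀ i, eps (sg i) = q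

/-- S_Z (5b) -/
def S_Z : Prop := ∀ (R : Type) [CommRing R] (p : ℕ) (q qi z : R), Good R p q qi z →
  Tr p (betaE p : Hk R z) = 0

/-! ## Section 6 -/

/-- S_bc: base change -/
def S_bc : Prop := ∀ (R R' : Type) [CommRing R] [CommRing R'] (φ : R →+* R') (z : R) (z' : R'),
  φ z = z' → ∃ bc : Hk R z →+* Hk R' z', (∀ w, bc (T w) = T w) ∧
    (∀ (r : R) x, bc (r • x) = φ r • bc x) ∧ (∀ w x, coef w (bc x) = φ (coef w x))

/-- S_zero: at `z = 0` the algebra is the group algebra -/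
def S_zero : Prop := ∀ (R : Type) [CommRing R] (u v : G), (T u * T v : Hk R 0) = T (u * v)

open Classical in
/-- `v = Σ T_h T_{h⁻¹}` over the `h ∈ S_p` preserving `{0, …, r - 1}` -/
noncomputable def vE {R : Type*} [CommRing R] {z : R} (p r : ℕ) : Hk R z :=
  ∑ g ∈ Finset.univ.filter (fun g : Perm (Fin p) => ∀ i : Fin p, (i : ℕ) < r → (g i : ℕ) < r),
    T (emb p g) * T (emb p g⁻¹)

/-- S_v -/
def S_v : Prop := ∀ (R : Type) [CommRing R] (z : R) (p r : ℕ), p.Prime → PU p z → 0 < r → r < p →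
  ∃ v' ∈ (Hs p : Subalgebra R (Hk R z)), (vE p r : Hk R z) * v' = 1 ∧ v' * vE p r = 1

/-- elementary symmetric polynomial `e_r(J_0, …, J_{n-1})`: `eJ n r` -/
noncomputable def eJ {R : Type*} [CommRing R] {z : R} : ℕ → ℕ → Hk R z
  | _, 0 => 1
  | 0, _ + 1 => 0
  | n + 1, r + 1 => eJ n (r + 1) + eJ n r * J n

/-- S_er (6a) -/
def S_er : Prop := ∀ (R : Type) [CommRing R] (z : R) (p r : ℕ), p.Prime → PU p z → 0 < r → r < p →
  ∃ y ∈ (Hs p : Subalgebra R (Hk R z)), (eJ p r : Hk R z) = Tr p y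

/-- S_pi (6b): `(-z)^{p-1} L_1 ⋯ L_{p-1} = p + Tr(y)` -/
def S_pi : Prop := ∀ (R : Type) [CommRing R] (z : R) (p : ℕ), p.Prime → PU p z →
  ∃ y ∈ (Hs p : Subalgebra R (Hk R z)),
    ((-z) ^ (p - 1)) • (th 0 1 p : Hk R z) = (p : R) • 1 + Tr p y

/-- the product of consecutive blocks `c_{λ_1} ⊗ c_{λ_2} ⊗ ⋯` starting at the offset `o` -/
noncomputable def cL {R : Type*} [CommRing R] {z : R} : ℕ → List ℕ → Hk R z
  | _, [] => 1
  | o, m :: l => wd (upw o (m - 1) true) * cL (o + m) l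

/-- the permutation of `cL` -/
def wL : ℕ → List ℕ → G
  | _, [] => 1
  | o, m :: l => pw (upw o (m - 1) true) * wL (o + m) l

/-- S_cL: `c_λ = T_{w_λ}`, and trace functionals are invariant under permuting the parts -/
def S_cL : Prop := ∀ (R : Type) [CommRing R] (z : R),
  (∀ o l, (∀ m ∈ l, 0 < m) → (cL o l : Hk R z) = T (wL o l)) ∧
  (∀ (M : Type) [AddCommGroup M] [Module R M] (f : Hk R z →ₗ[R] M) (l l' : List ℕ), l.Perm l' →
    IsTrace l.sum f → f (cL 0 l) = f (cL 0 l')) ∧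
  (∀ (n : ℕ), 1 ≤ n → ∀ I ⊆ Finset.range (n - 1), ∃ l : List ℕ, (∀ m ∈ l, 0 < m) ∧ l.sum = n ∧
    (cI I : Hk R z) = cL 0 l)

open Classical in
/-- S_mat: invertibility of the matrix `G_{λμ} = τ(T_{w_λ} Tr T_{w_μ})` (6c); the index set is the
set of partitions of `p` other than `(p)` and `(1^p)` -/
def S_mat : Prop := ∀ (R : Type) [CommRing R] (z : R) (p : ℕ), p.Prime → PU p z →
  IsUnit (Matrix.det (fun (a b : {l : Nat.Partition p // l.parts ≠ {p} ∧ ∃ m ∈ l.parts, m ≠ 1}) =>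
    tau (T (wL 0 (a.1.parts.sort (· ≤ ·))) * Tr p (T (wL 0 (b.1.parts.sort (· ≤ ·))) : Hk R z))))

/-- S_Cyc (6c) -/
def S_Cyc : Prop := ∀ (R : Type) [CommRing R] (z : R) (p : ℕ), p.Prime → PU p z → IsUnit z →
  ∃ (e : Hk R z) (n : ℕ) (y b : Fin n → Hk R z), e ∈ (Hs p : Subalgebra R (Hk R z)) ∧
    (∀ i, y i ∈ (Hs p : Subalgebra R (Hk R z))) ∧ (∀ i, b i ∈ (Hs p : Subalgebra R (Hk R z))) ∧
    ∀ (M : Type) [AddCommGroup M] [Module R M] (f : Hk R z →ₗ[R] M), IsTrace p f →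
      ∀ x ∈ (Hs p : Subalgebra R (Hk R z)),
        f x = tau x • f e + ∑ i, tau (y i * Tr p x) • f (b i)

/-- S_K (consequences K1, K2, K3) -/
def S_K : Prop := ∀ (R : Type) [CommRing R] (p : ℕ) (q qi z : R), Good R p q qi z →
  ∃ e0 ∈ (Hs p : Subalgebra R (Hk R z)),
  (∀ (M : Type) [AddCommGroup M] [Module R M] (f : Hk R z →ₗ[R] M), IsTrace p f →
    ∀ c ∈ (Hs p : Subalgebra R (Hk R z)), (∀ a ∈ (Hs p : Subalgebra R (Hk R z)), a * c = c * a) →
      f (c * betaE p) = tau (c * betaE p) • f e0) ∧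
  (∀ (M : Type) [AddCommGroup M] [Module R M] (f : Hk R z →ₗ[R] M), IsTrace p f →
    ∀ e : Bool, f (wd (dw e 0 p) * betaE p) = ((-1 : R) ^ (p - 1)) • f (betaE p)) ∧
  (∀ (M : Type) [AddCommGroup M] [Module R M] (f : Hk R z →ₗ[R] M),
    (∀ x ∈ (Hs (2 * p) : Subalgebra R (Hk R z)), ∀ a ∈ (Hs p : Subalgebra R (Hk R z)),
      f (x * a) = f (a * x)) →
    (∀ x ∈ (Hs (2 * p) : Subalgebra R (Hk R z)), ∀ a ∈ (Hs p : Subalgebra R (Hk R z)),
      f (x * sh p a) = f (sh p a * x)) →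
    ∀ c ∈ (Hs p : Subalgebra R (Hk R z)), (∀ a ∈ (Hs p : Subalgebra R (Hk R z)), a * c = c * a) →
      (∑ g : Perm (Fin p), f (T (emb p g) * c * betaE p * sh p (T (emb p g⁻¹))) =
        tau (c * betaE p) • f (e0 * sh p e0)) ∧
      f (betaE p * sh p (betaE p)) = (tau (betaE p : Hk R z) ^ 2) • f (e0 * sh p e0))

/-! ## Section 7 -/

open Classical in
/-- `j(w) = #{k < p : w⁻¹(p + k) < p}` -/
noncomputable def jn (p : ℕ) (w : G) : ℕ := ((Finset.range p).filter (fun k => w⁻¹.1 (p + k) < p)).card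

/-- the double coset number `j` -/
def VV (p j : ℕ) : Set G := {w | w ∈ SS (2 * p) ∧ jn p w = j}

/-- `xi` intertwines the two bunches -/
def Itw {R : Type*} [CommRing R] {z : R} (p : ℕ) (xi : Hk R z) : Prop :=
  ∀ a ∈ (Hs p : Subalgebra R (Hk R z)), xi * a = sh p a * xi ∧ xi * sh p a = a * xi

/-- the operator `N` of 7b -/
noncomputable def Nop {R : Type*} [CommRing R] {z : R} (p : ℕ) (x : Hk R z) : Hk R z :=
  ∑ g : Perm (Fin p), sh p (T (emb p g⁻¹)) *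
    proj {w : G | w⁻¹.1 p < p} (sh p (T (emb p g)) * x)

/-- S_N (7b) -/
def S_N : Prop := ∀ (R : Type) [CommRing R] (z : R) (p j : ℕ), p.Prime → PU p z → 0 < j → j < p →
  ∀ xi : Hk R z, proj (VV p j) xi = xi → Itw p xi →
    ∃ xi' : Hk R z, proj (VV p j) xi' = xi' ∧ Itw p xi' ∧ Nop p xi' = xi

/-- S_top (7a) -/
def S_top : Prop := ∀ (R : Type) [CommRing R] (z : R) (p : ℕ),
  proj (VV p p) (wd (xw false 0 p p) : Hk R z) = wd (xw true 0 p p)

/-- S_dec: decomposition of `H_{2p}` along the double cosets, compatible with intertwiners -/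
def S_dec : Prop := ∀ (R : Type) [CommRing R] (z : R) (p : ℕ),
  (∀ xi ∈ (Hs (2 * p) : Subalgebra R (Hk R z)),
    xi = ∑ j ∈ Finset.range (p + 1), proj (VV p j) xi) ∧
  (∀ j, ∀ xi : Hk R z, Itw p xi → Itw p (proj (VV p j) xi)) ∧
  (∀ j, ∀ xi : Hk R z, proj (VV p j) (proj (VV p j) xi) = proj (VV p j) xi) ∧
  (∀ j, ∀ xi : Hk R z, proj (VV p j) xi ∈ (Hs (2 * p) : Subalgebra R (Hk R z)))

/-- S_V0 (7c): intertwiners in the trivial double coset -/
def S_V0 : Prop := ∀ (R : Type) [CommRing R] (z : R) (p : ℕ) (xi : Hk R z),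
  proj (VV p 0) xi = xi → Itw p xi →
    (proj (SS p) xi ∈ (Hs p : Subalgebra R (Hk R z))) ∧
    (∀ a ∈ (Hs p : Subalgebra R (Hk R z)), a * proj (SS p) xi = proj (SS p) xi * a) ∧
    xi = ∑ g : Perm (Fin p), T (emb p g) * proj (SS p) xi * sh p (T (emb p g⁻¹))

/-- S_C1 -/
def S_C1 : Prop := ∀ (R : Type) [CommRing R] (p : ℕ) (q qi z : R), Good R p q qi z →
  ∀ (M : Type) [AddCommGroup M] [Module R M] (f : Hk R z →ₗ[R] M),
    (∀ x ∈ (Hs (2 * p) : Subalgebra R (Hk R z)), ∀ a ∈ (Hs p : Subalgebra R (Hk R z)),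
      f (x * a) = f (sh p a * x)) →
    (∀ x ∈ (Hs (2 * p) : Subalgebra R (Hk R z)), ∀ a ∈ (Hs p : Subalgebra R (Hk R z)),
      f (x * sh p a) = f (a * x)) →
    f ((wd (xw true 0 p p) - wd (xw false 0 p p)) * betaE p * sh p (betaE p)) = 0

/-- S_C2 -/
def S_C2 : Prop := ∀ (R : Type) [CommRing R] (p : ℕ) (q qi z : R), Good R p q qi z →
  ∀ (M : Type) [AddCommGroup M] [Module R M] (f : Hk R z →ₗ[R] M),
    (∀ x ∈ (Hs (2 * p) : Subalgebra R (Hk R z)), ∀ a ∈ (Hs p : Subalgebra R (Hk R z)),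
      f (x * a) = f (a * x)) →
    (∀ x ∈ (Hs (2 * p) : Subalgebra R (Hk R z)), ∀ a ∈ (Hs p : Subalgebra R (Hk R z)),
      f (x * sh p a) = f (sh p a * x)) →
    f ((wd (xw true 0 p p) - wd (xw false 0 p p)) * betaE p) =
      ((-1 : R) ^ (p - 1) * z) • f (betaE p * sh p (betaE p))

/-! ## Section 8 -/

/-- the framed HOMFLY-PT functional -/
noncomputable def hom {R : Type*} [CommRing R] {z : R} (dl a : R) (n : ℕ) : Hk R z →ₗ[R] R :=
  if n = 0 then tau else dl • Mk dl a n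

/-- the product of `sh_{pj} β` over a list of bunches -/
noncomputable def ins {R : Type*} [CommRing R] {z : R} (p : ℕ) (js : List ℕ) : Hk R z :=
  (js.map (fun j => sh (p * j) (betaE p))).prod

/-- `js` is a transversal of the cycles of `prm w` on `{0, …, n - 1}` -/
def Transv (n : ℕ) (w : BW) (js : List ℕ) : Prop :=
  js.Nodup ∧ (∀ j ∈ js, j < n) ∧ (∀ i < n, ∃ j ∈ js, (prm w).SameCycle i j) ∧
    (∀ j ∈ js, ∀ j' ∈ js, (prm w).SameCycle j j' → j = j')

/-- `F` with respect to a transversal -/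
noncomputable def FT {R : Type*} [CommRing R] (z dl a : R) (p n : ℕ) (w : BW) (js : List ℕ) : R :=
  z ^ js.length * hom dl a (p * n) (wd (cab p w) * ins p js : Hk R z)

/-- the rules of the limit `z² → 0` of `z^L H`: for self-crossings the usual smoothing, for
crossings between different components zero -/
structure LRules {R : Type*} [CommRing R] (ap am : R) (g : ℕ → BW → R) : Prop where
  empty : g 0 [] = 1
  circle : ∀ n w, Valid n w → g (n + 1) w = (ap - am) * g n w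
  far : ∀ n x y i j e f, i + 2 ≤ j → Valid n (x ++ (i, e) :: (j, f) :: y) →
    g n (x ++ (i, e) :: (j, f) :: y) = g n (x ++ (j, f) :: (i, e) :: y)
  braid : ∀ n x y i, Valid n (x ++ (i, true) :: (i + 1, true) :: (i, true) :: y) →
    g n (x ++ (i, true) :: (i + 1, true) :: (i, true) :: y) =
      g n (x ++ (i + 1, true) :: (i, true) :: (i + 1, true) :: y)
  cancel : ∀ n x y i e, Valid n (x ++ y) → i + 1 < n →
    g n (x ++ (i, e) :: (i, !e) :: y) = g n (x ++ y)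
  conj : ∀ n x y, Valid n (x ++ y) → g n (x ++ y) = g n (y ++ x)
  skein_self : ∀ n x y i, Valid n (x ++ y) → i + 1 < n → ¬ (prm (y ++ x)).SameCycle i (i + 1) →
    g n (x ++ (i, true) :: y) - g n (x ++ (i, false) :: y) = g n (x ++ y)
  skein_diff : ∀ n x y i, Valid n (x ++ y) → i + 1 < n → (prm (y ++ x)).SameCycle i (i + 1) →
    g n (x ++ (i, true) :: y) = g n (x ++ (i, false) :: y)
  curl : ∀ n w e, Valid (n + 1) w →
    g (n + 2) (w ++ [(n, e)]) = (if e then ap else am) * g (n + 1) w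

/-- S_FG: the main equality -/
def S_FG : Prop := ∀ (R : Type) [CommRing R] (p : ℕ) (q qi z : R), Good R p q qi z →
  ∀ (a ai dl : R), a * ai = 1 → z * dl = a - ai → ∀ g : ℕ → BW → R, LRules (a ^ p) (ai ^ p) g →
    ∀ n w js, Valid n w → Transv n w js →
      FT z dl a p n w js = (-1) ^ ((p - 1) * w.length) * g n w

end Pool.Agent.H873
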