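import Pool.Agent.Helper873_Hecke.Stmts
import Pool.Agent.Helper873_Hecke.Link2

set_option autoImplicit false

/-!
# Exact statements of the parts of the proof, second part: section 8 (global part)
-/

namespace Pool.Agent.H873

open Equiv Hk

/-! ## 8.1 cables and insertions -/

/-- S_cab: the cable respects the relations of the braid groups and intertwines the bunches -/
def S_cab : Prop :=
  (∀ p n w, Valid n w → Valid (p * n) (cab p w)) ∧
  (∀ p x y, cab p (x ++ y) = cab p x ++ cab p y) ∧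
  ∀ (R : Type) [CommRing R] (z : R) (p : ℕ),
  (∀ w j, ∀ x ∈ (Hs p : Subalgebra R (Hk R z)),
    wd (cab p w) * sh (p * j) x = sh (p * prm w j) x * wd (cab p w)) ∧
  (∀ x y i j e f, i + 2 ≤ j → (wd (cab p (x ++ (i, e) :: (j, f) :: y)) : Hk R z) =
    wd (cab p (x ++ (j, f) :: (i, e) :: y))) ∧
  (∀ x y i, (wd (cab p (x ++ (i, true) :: (i + 1, true) :: (i, true) :: y)) : Hk R z) =
    wd (cab p (x ++ (i + 1, true) :: (i, true) :: (i + 1, true) :: y))) ∧
  (∀ x y i e, (wd (cab p (x ++ (i, e) :: (i, !e) :: y)) : Hk R z) = wd (cab p (x ++ y)))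

/-- S_ins -/
def S_ins : Prop := ∀ (R : Type) [CommRing R] (z : R) (p : ℕ),
  (∀ i j, i ≠ j → ∀ x ∈ (Hs p : Subalgebra R (Hk R z)), ∀ y ∈ (Hs p : Subalgebra R (Hk R z)),
    sh (p * i) x * sh (p * j) y = sh (p * j) y * sh (p * i) x) ∧
  (∀ n j, j < n → ∀ x ∈ (Hs p : Subalgebra R (Hk R z)),
    sh (p * j) x ∈ (Hs (p * n) : Subalgebra R (Hk R z))) ∧
  (∀ n js, (∀ j ∈ js, j < n) → (ins p js : Hk R z) ∈ (Hs (p * n) : Subalgebra R (Hk R z))) ∧
  (∀ js js', js.Perm js' → (ins p js : Hk R z) = ins p js') ∧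
  (∀ i js, i ∉ js → ∀ x ∈ (Hs p : Subalgebra R (Hk R z)),
    sh (p * i) x * ins p js = ins p js * sh (p * i) x) ∧
  (∀ i j, j ≠ i → j ≠ i + 1 → ∀ x ∈ (Hs (2 * p) : Subalgebra R (Hk R z)),
    ∀ y ∈ (Hs p : Subalgebra R (Hk R z)),
      sh (p * i) x * sh (p * j) y = sh (p * j) y * sh (p * i) x)

/-- S_hom: the framed HOMFLY functional -/
def S_hom : Prop := ∀ (R : Type) [CommRing R] (z a ai dl : R), a * ai = 1 → z * dl = a - ai →
  (∀ n, IsTrace n (hom dl a n : Hk R z →ₗ[R] R)) ∧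
  (hom dl a 0 (1 : Hk R z) = 1) ∧
  (∀ n, ∀ x ∈ (Hs n : Subalgebra R (Hk R z)), hom dl a (n + 1) x = dl * hom dl a n x) ∧
  (∀ n e, ∀ x ∈ (Hs (n + 1) : Subalgebra R (Hk R z)),
    ∀ y ∈ (Hs (n + 1) : Subalgebra R (Hk R z)),
      hom dl a (n + 2) (x * gen e n * y) = (if e then a else ai) * hom dl a (n + 1) (x * y)) ∧
  (∀ n e p, 1 ≤ p → ∀ x ∈ (Hs (p * (n + 1)) : Subalgebra R (Hk R z)),
    ∀ y ∈ (Hs (p * (n + 1)) : Subalgebra R (Hk R z)),
      hom dl a (p * (n + 2)) (x * wd (xw e (p * n) p p) * y) =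
        (if e then a else ai) ^ p * hom dl a (p * (n + 1)) (x * wd (dw e (p * n) p) * y)) ∧
  (∀ n p, 1 ≤ p → ∀ x ∈ (Hs (p * n) : Subalgebra R (Hk R z)),
    hom dl a (p * (n + 1)) (x * sh (p * n) (betaE p)) =
      dl * (∑ k ∈ Finset.range p, a ^ k * ai ^ (p - 1 - k)) * hom dl a (p * n) x)

/-- S_move: moving an element around the closure; `C` commutes with the bunches of the cycle of
`i` -/
def S_move : Prop := ∀ (R : Type) [CommRing R] (z : R) (M : Type) [AddCommGroup M] [Module R M]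
  (p n : ℕ) (f : Hk R z →ₗ[R] M) (w : BW)
  (C : Hk R z), IsTrace (p * n) f → Valid n w → C ∈ (Hs (p * n) : Subalgebra R (Hk R z)) →
  ∀ i < n, (∀ k, (prm w).SameCycle i k → ∀ a ∈ (Hs p : Subalgebra R (Hk R z)),
    sh (p * k) a * C = C * sh (p * k) a) →
  (∀ x ∈ (Hs p : Subalgebra R (Hk R z)), ∀ a ∈ (Hs p : Subalgebra R (Hk R z)),
    f (wd (cab p w) * sh (p * i) (x * a) * C) = f (wd (cab p w) * sh (p * i) (a * x) * C)) ∧
  (i + 1 < n → ¬ (prm w).SameCycle i (i + 1) →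
    ∀ x ∈ (Hs (2 * p) : Subalgebra R (Hk R z)), ∀ a ∈ (Hs p : Subalgebra R (Hk R z)),
      f (wd (cab p w) * sh (p * i) (x * a) * C) = f (wd (cab p w) * sh (p * i) (a * x) * C)) ∧
  (i + 1 < n → (prm w).SameCycle i (i + 1) →
    ∀ x ∈ (Hs (2 * p) : Subalgebra R (Hk R z)), ∀ a ∈ (Hs p : Subalgebra R (Hk R z)),
      f (wd (cab p w) * sh (p * i) (x * a) * C) =
        f (wd (cab p w) * sh (p * i) (sh p a * x) * C)) ∧
  (∀ i0, i = i0 + 1 → ¬ (prm w).SameCycle i0 i →
    ∀ x ∈ (Hs (2 * p) : Subalgebra R (Hk R z)), ∀ a ∈ (Hs p : Subalgebra R (Hk R z)),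
      f (wd (cab p w) * sh (p * i0) (x * sh p a) * C) =
        f (wd (cab p w) * sh (p * i0) (sh p a * x) * C)) ∧
  (∀ i0, i = i0 + 1 → (prm w).SameCycle i0 i →
    ∀ x ∈ (Hs (2 * p) : Subalgebra R (Hk R z)), ∀ a ∈ (Hs p : Subalgebra R (Hk R z)),
      f (wd (cab p w) * sh (p * i0) (x * sh p a) * C) =
        f (wd (cab p w) * sh (p * i0) (a * x) * C))

/-! ## 8.2 transversals -/

/-- S_transv -/
def S_transv : Prop :=
  (∀ n w, Valid n w → Transv n w ((comps n w).sort (· ≤ ·))) ∧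
  (∀ n w js, Valid n w → Transv n w js → js.length = (comps n w).card) ∧
  (∀ n w js js', Valid n w → Transv n w js → Transv n w js' →
    ∃ js'', js''.Perm js' ∧ List.Forall₂ (prm w).SameCycle js js'') ∧
  (∀ n w i e, Valid n w → i + 1 < n → ¬ (prm w).SameCycle i (i + 1) →
    ∃ js, Transv n w (i :: (i + 1) :: js) ∧ Transv n (w ++ [(i, e)]) (i :: js)) ∧
  (∀ n w i e, Valid n w → i + 1 < n → (prm w).SameCycle i (i + 1) →
    ∃ js, Transv n w (i :: js) ∧ Transv n (w ++ [(i, e)]) (i :: (i + 1) :: js)) ∧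
  (∀ n w e, Valid (n + 1) w →
    ∃ js, Transv (n + 1) w (n :: js) ∧ Transv (n + 2) (w ++ [(n, e)]) (n :: js)) ∧
  (∀ n w js, Valid n w → Transv n w js → Transv (n + 1) w (n :: js)) ∧
  (∀ n x y js, Valid n (x ++ y) → Transv n (x ++ y) js →
    Transv n (y ++ x) (js.map (prm y))) ∧
  (∀ w, Valid 0 w → w = []) ∧ (Transv 0 [] [])

/-- S_comps: the number of components -/
def S_comps : Prop :=
  ((comps 0 []).card = 0) ∧
  (∀ n w, Valid n w → (comps (n + 1) w).card = (comps n w).card + 1) ∧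
  (∀ n w w', prm w = prm w' → comps n w = comps n w') ∧
  (∀ n x y, Valid n (x ++ y) → (comps n (x ++ y)).card = (comps n (y ++ x)).card) ∧
  (∀ n x y i e, Valid n (x ++ y) → i + 1 < n → ¬ (prm (y ++ x)).SameCycle i (i + 1) →
    (comps n (x ++ y)).card = (comps n (x ++ (i, e) :: y)).card + 1) ∧
  (∀ n x y i e, Valid n (x ++ y) → i + 1 < n → (prm (y ++ x)).SameCycle i (i + 1) →
    (comps n (x ++ (i, e) :: y)).card = (comps n (x ++ y)).card + 1) ∧
  (∀ n w e, Valid (n + 1) w →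
    (comps (n + 2) (w ++ [(n, e)])).card = (comps (n + 1) w).card)

/-! ## 8.3 the functions `F` -/

/-- S_FTgen: independence of the transversal, rotation -/
def S_FTgen : Prop := ∀ (R : Type) [CommRing R] (z dl a ai : R) (p n : ℕ),
  a * ai = 1 → z * dl = a - ai →
  (∀ w js js', Valid n w → Transv n w js → Transv n w js' →
    FT z dl a p n w js = FT z dl a p n w js') ∧
  (∀ x y js, Valid n (x ++ y) → Transv n (x ++ y) js →
    FT z dl a p n (x ++ y) js = FT z dl a p n (y ++ x) (js.map (prm y)))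

/-- S_FTskein: crossing changes -/
def S_FTskein : Prop := ∀ (R : Type) [CommRing R] (p : ℕ) (q qi z : R), Good R p q qi z →
  ∀ (a ai dl : R), a * ai = 1 → z * dl = a - ai → ∀ n w i js, Valid n w → i + 1 < n →
    (Transv n w (i :: (i + 1) :: js) →
      FT z dl a p n (w ++ [(i, true)]) (i :: js) - FT z dl a p n (w ++ [(i, false)]) (i :: js) =
        (-1) ^ (p - 1) * FT z dl a p n w (i :: (i + 1) :: js)) ∧
    ((prm w).SameCycle i (i + 1) → Transv n w (i :: js) →
      FT z dl a p n (w ++ [(i, true)]) (i :: (i + 1) :: js) =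
        FT z dl a p n (w ++ [(i, false)]) (i :: (i + 1) :: js))

/-- S_FTcurl: stabilisation, split strand, empty word -/
def S_FTcurl : Prop := ∀ (R : Type) [CommRing R] (p : ℕ) (q qi z : R), Good R p q qi z →
  ∀ (a ai dl : R), a * ai = 1 → z * dl = a - ai →
    (∀ n w e js, Valid (n + 1) w → Transv (n + 1) w (n :: js) →
      FT z dl a p (n + 2) (w ++ [(n, e)]) (n :: js) =
        (-1) ^ (p - 1) * (if e then a else ai) ^ p * FT z dl a p (n + 1) w (n :: js)) ∧
    (∀ n w js, Valid n w → (∀ j ∈ js, j < n) →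
      FT z dl a p (n + 1) w (n :: js) = (a ^ p - ai ^ p) * FT z dl a p n w js) ∧
    FT z dl a p 0 [] [] = 1

/-! ## 8.4 existence, uniqueness, integrality -/

/-- the rules of `z^L H` over a ring with `Y = z²` -/
structure ARules {R : Type*} [CommRing R] (Y ap am : R) (g : ℕ → BW → R) : Prop where
  empty : g 0 [] = 1
  circle : ∀ n w, Valid n w → g (n + 1) w = (ap - am) * g n w
  far : ∀ n x y i j e f, i + 2 ≤ j → Valid n (x ++ (i, e) :: (j, f) :: y) →
    g n (x ++ (i, e) :: (j, f) :: y) = g n (x ++ (j, f) :: (i, e) :: y)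
  braid : ∀ n x y i, Valid n (x ++ (i, true) :: (i + 1, true) :: (i, true) :: y) →
    g n (x ++ (i, true) :: (i + 1, true) :: (i, true) :: y) =
      g n (x ++ (i + 1, true) :: (i, true) :: (i + 1, true) :: y)
  cancel : ∀ n x y i e, Valid n (x ++ y) → i + 1 < n →
    g n (x ++ (i, e) :: (i, !e) :: y) = g n (x ++ y)
  conj : ∀ n x y, Valid n (x ++ y) → g n (x ++ y) = g n (y ++ x)
  skein_self : ∀ n x y i, Valid n (x ++ y) → i + 1 < n → ¬ (prm (y ++ x)).SameCycle i (i + 1) →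
    g n (x ++ (i, true) :: y) - g n (x ++ (i, false) :: y) = g n (x ++ y)
  skein_diff : ∀ n x y i, Valid n (x ++ y) → i + 1 < n → (prm (y ++ x)).SameCycle i (i + 1) →
    g n (x ++ (i, true) :: y) - g n (x ++ (i, false) :: y) = Y * g n (x ++ y)
  curl : ∀ n w e, Valid (n + 1) w →
    g (n + 2) (w ++ [(n, e)]) = (if e then ap else am) * g (n + 1) w

theorem ARules.toLRules {R : Type*} [CommRing R] {ap am : R} {g : ℕ → BW → R}
    (h : ARules 0 ap am g) : LRules ap am g where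
  empty := h.empty
  circle := h.circle
  far := h.far
  braid := h.braid
  cancel := h.cancel
  conj := h.conj
  skein_self := h.skein_self
  skein_diff := fun n x y i h1 h2 h3 => by
    have := h.skein_diff n x y i h1 h2 h3
    rwa [zero_mul, sub_eq_zero] at this
  curl := h.curl

theorem ARules.map {R S : Type*} [CommRing R] [CommRing S] {Y ap am : R} {g : ℕ → BW → R}
    (h : ARules Y ap am g) (φ : R →+* S) : ARules (φ Y) (φ ap) (φ am) (fun n w => φ (g n w)) where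
  empty := by rw [h.empty, map_one]
  circle := fun n w h1 => by rw [h.circle n w h1, map_mul, map_sub]
  far := fun n x y i j e f h1 h2 => by rw [h.far n x y i j e f h1 h2]
  braid := fun n x y i h1 => by rw [h.braid n x y i h1]
  cancel := fun n x y i e h1 h2 => by rw [h.cancel n x y i e h1 h2]
  conj := fun n x y h1 => by rw [h.conj n x y h1]
  skein_self := fun n x y i h1 h2 h3 => by rw [← map_sub, h.skein_self n x y i h1 h2 h3]
  skein_diff := fun n x y i h1 h2 h3 => by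
    rw [← map_sub, h.skein_diff n x y i h1 h2 h3, map_mul]
  curl := fun n w e h1 => by
    rw [h.curl n w e h1, map_mul]
    congr 1
    split_ifs <;> rfl

/-- S_Auniq -/
def S_Auniq : Prop := ∀ (B : Type) [CommRing B] (Y ap am : B) (h h' : ℕ → BW → B),
  ARules Y ap am h → ARules Y ap am h' → ∀ n w, Valid n w → h n w = h' n w

/-- S_Muniq -/
def S_Muniq : Prop := ∀ (B : Type) [CommRing B] (z ap am dl : B) (H H' : ℕ → BW → B),
  MRules z ap am dl H → MRules z ap am dl H' → ∀ n w, Valid n w → H n w = H' n w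

/-- S_Mex: existence of the framed HOMFLY function -/
def S_Mex : Prop := ∀ (R : Type) [CommRing R] (z a ai dl : R), a * ai = 1 → z * dl = a - ai →
  MRules z a ai dl (fun n w => hom dl a n (wd w : Hk R z))

/-- S_AM: from `H` to `z^L H` -/
def S_AM : Prop := ∀ (R : Type) [CommRing R] (z ap am dl : R) (H : ℕ → BW → R),
  z * dl = ap - am → MRules z ap am dl H →
    ARules (z ^ 2) ap am (fun n w => z ^ (comps n w).card * H n w)

/-- S_Aex: integrality -/
def S_Aex : Prop := ∃ h : ℕ → BW → LaurentPolynomial (Polynomial ℤ),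
  ARules (LaurentPolynomial.C Polynomial.X) (LaurentPolynomial.T 1) (LaurentPolynomial.T (-1)) h

/-! ## 8.5 the polynomials `D_n` with `[n]² = D_n(z²)`, and the rings `R` -/

/-- `D_n` -/
noncomputable def DD : ℕ → Polynomial ℤ
  | 0 => 0
  | 1 => 1
  | n + 2 => (Polynomial.X + 2) * DD (n + 1) - DD n + 2

/-- S_DD -/
def S_DD : Prop :=
  (∀ (R : Type) [CommRing R] (q qi : R), q * qi = 1 → ∀ n,
    qn q qi n ^ 2 = Polynomial.aeval ((q - qi) ^ 2) (DD n) ∧
      (q - qi) * qn q qi n = q ^ n - qi ^ n) ∧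
  (∀ n, (DD (n + 1)).Monic ∧ (DD (n + 1)).natDegree = n) ∧
  (∀ n, (DD n).eval 0 = (n : ℤ) ^ 2) ∧
  (∀ p : ℕ, p.Prime → (DD p).map (Int.castRingHom (ZMod p)) = Polynomial.X ^ (p - 1))

/-- S_goodmap -/
def S_goodmap : Prop := ∀ (R R' : Type) [CommRing R] [CommRing R'] (φ : R →+* R') (p : ℕ)
  (q qi z : R), Good R p q qi z → Good R' p (φ q) (φ qi) (φ z)

/-- S_good: the ring `(ℚ[Y]/D_p)[q]/(q⁴ - (Y + 2) q² + 1)` -/
def S_good : Prop := ∀ p : ℕ, p.Prime → ∃ (R : Type) (_ : CommRing R) (q qi z : R),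
  Good R p q qi z ∧ ∀ f : Polynomial ℤ, Polynomial.aeval (z ^ 2) f = 0 → DD p ∣ f

/-- S_ker: coefficientwise divisibility -/
def S_ker : Prop := ∀ (R : Type) [CommRing R] (y : R) (D : Polynomial ℤ),
  (∀ f : Polynomial ℤ, Polynomial.aeval y f = 0 → D ∣ f) →
  ∀ φ : LaurentPolynomial (Polynomial ℤ) →+* LaurentPolynomial R,
    φ (LaurentPolynomial.C Polynomial.X) = LaurentPolynomial.C y →
    φ (LaurentPolynomial.T 1) = LaurentPolynomial.T 1 →
    ∀ F, φ F = 0 → ∃ F', F = LaurentPolynomial.C D * F'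

/-! ## 8.6 parity of the framing, components of the cable -/

/-- S_parity -/
def S_parity : Prop := ∀ n w, Valid n w → Even (totalFraming w - (w.length : ℤ))

/-- the words of the inserted braids -/
def insW (p : ℕ) (ks : List (ℕ × ℕ)) : BW := ks.flatMap fun x => bet (p * x.1) p x.2

/-- S_cabcomps -/
def S_cabcomps : Prop := ∀ p n w (ks : List (ℕ × ℕ)), 0 < p → Valid n w →
  Transv n w (ks.map Prod.fst) → (∀ x ∈ ks, x.2 < p) →
    Valid (p * n) (cab p w ++ insW p ks) ∧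
      (comps (p * n) (cab p w ++ insW p ks)).card = ks.length

/-- S_decl: the multilinear extension -/
def S_decl : Prop :=
  (∀ (K : Type) [CommRing K] (p : ℕ) (H H' : BW → K) (js : List ℕ) (w : BW),
    (∀ ks : List (ℕ × ℕ), ks.map Prod.fst = js → (∀ x ∈ ks, x.2 < p) →
      H (w ++ insW p ks) = H' (w ++ insW p ks)) → dec p H js w = dec p H' js w) ∧
  (∀ (K K' : Type) [CommRing K] [CommRing K'] (φ : K →+* K') (p : ℕ) (H : BW → K) (js : List ℕ)
    (w : BW), φ (dec p H js w) = dec p (fun v => φ (H v)) js w) ∧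
  (∀ (K : Type) [CommRing K] (c : K) (p : ℕ) (H : BW → K) (js : List ℕ)
    (w : BW), c * (dec p H js w) = dec p (fun v => c * H v) js w) ∧
  (∀ (K : Type) [CommRing K] (z : K) (f : Hk K z →ₗ[K] K) (p : ℕ) (js : List ℕ) (w : BW),
    dec p (fun v => f (wd v)) js w = f (wd w * ins p js))

/-! ## 8.7 the decoration by power sums -/

/-- the value of a formal linear combination of words in the Hecke algebra -/
noncomputable def evW {K : Type*} [CommRing K] {z : K} : WAlg K →ₐ[K] Hk K z :=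
  MonoidAlgebra.lift K (Hk K z) (FreeMonoid (ℕ × Bool))
    (FreeMonoid.lift (fun l : ℕ × Bool => gen l.2 l.1))

/-- S_evW -/
def S_evW : Prop := ∀ (K : Type) [CommRing K] (z : K),
  (∀ w : BW, (evW (ofW w) : Hk K z) = wd w) ∧
  (∀ k (x : WAlg K), (evW (shW k x) : Hk K z) = sh k (evW x)) ∧
  (∀ (f : Hk K z →ₗ[K] K) (x : WAlg K), linW (fun v => f (wd v)) x = f (evW x))

/-- S_Pp: `[d] P_d` and `β` have the same closure in the annulus (Morton, Aiston) -/
def S_Pp : Prop := ∀ (K : Type) [Field K] (q z : K), q ≠ 0 → z = q - q⁻¹ →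
  (∀ k, 0 < k → qn q q⁻¹ k ≠ 0) → ∀ d, 1 ≤ d →
    ((evW (powW q d) : Hk K z) ∈ (Hs d : Subalgebra K (Hk K z))) ∧
    ∀ (M : Type) [AddCommGroup M] [Module K M] (f : Hk K z →ₗ[K] M), IsTrace d f →
      qn q q⁻¹ d • f (evW (powW q d)) = f (betaE d)

/-- S_supp: functions on words that agree on valid words; `decW` is supported on valid words -/
def S_supp : Prop := ∀ (K : Type) [Field K] (q : K) (d n : ℕ) (w : BW) (H H' : BW → K),
  Valid n w → (∀ v, Valid (d * n) v → H v = H' v) →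
    linW H (decW q d n w) = linW H' (decW q d n w)

/-- S_decP: from the decoration by `P_d` to the decoration by `β` -/
def S_decP : Prop := ∀ (K : Type) [Field K] (q a z dl : K), q ≠ 0 → a ≠ 0 → z = q - q⁻¹ →
  z * dl = a - a⁻¹ → (∀ k, 0 < k → qn q q⁻¹ k ≠ 0) → ∀ d n w, 1 ≤ d → Valid n w →
    qn q q⁻¹ d ^ (comps n w).card *
        linW (fun v => hom dl a (d * n) (wd v : Hk K z)) (decW q d n w) =
      dec d (fun v => hom dl a (d * n) (wd v : Hk K z)) ((comps n w).sort (· ≤ ·)) (cab d w)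

/-- S_P1: for `d = 1` nothing is inserted -/
def S_P1 : Prop := ∀ (K : Type) [Field K] (q : K) (n : ℕ) (w : BW),
  decW q 1 n w = ofW w ∧ ∀ H : BW → K, linW H (ofW w) = H w

/-- S_Kqa: the field `ℚ(q, a)` -/
def S_Kqa : Prop :=
  (∀ (d : ℕ) (hd : 0 < d), adams d hd vq = vq ^ d ∧ adams d hd va = va ^ d) ∧
  vq ≠ 0 ∧ va ≠ 0 ∧ vz ≠ 0 ∧ (∀ k, 0 < k → qn vq vq⁻¹ k ≠ 0) ∧
  (∀ k, qbr k = qn vq vq⁻¹ k) ∧ (∀ k, cbr k = vz * qn vq vq⁻¹ k)

/-- the final statement -/
def S_final : Prop :=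
  (∃ H : ℕ → BW → Kqa, MRules vz va va⁻¹ ((va - va⁻¹) / vz) H) ∧
  (∀ H H' : ℕ → BW → Kqa, MRules vz va va⁻¹ ((va - va⁻¹) / vz) H →
    MRules vz va va⁻¹ ((va - va⁻¹) / vz) H' → ∀ n w, Valid n w → H n w = H' n w) ∧
  ∀ H : ℕ → BW → Kqa, MRules vz va va⁻¹ ((va - va⁻¹) / vz) H →
    ∀ (p : ℕ) (hp : p.Prime) (n : ℕ) (w : BW), Valid n w →
      (Zv H p n w - (-1) ^ (((p : ℤ) - 1) * totalFraming w) * adams p hp.pos (Zv H 1 n w)) /
        qbr p ^ 2 ∈ Aza

end Pool.Agent.H873
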